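import Pool.Agent.Lib.MP_634427_lc.Core

/-!
# Combinatorial core for adaptive reductions to sparse sets with few negative answers

A test `r` is a word; an adaptive procedure asks, for the test `r` and the list `tr` of answers
received so far, the query `next r tr` (`none`: it has stopped, and its output is `out r tr`).
The oracle is an unknown set `S` with few relevant members; on every test at most `k` answers are
negative, and the output is the parity `par r u` of an unknown word `u`.  The function `search`
computes a short list of words containing `u`.
-/

namespace Pool.Agent.Lib.MP_634427_lc.KNo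

/-- A test together with the answers received so far. -/
abbrev Item := Word × List Bool

section defs

variable (next : Word → List Bool → Option Word) (out : Word → List Bool → Bool)

/-- The pending query of an item. -/
def qry (e : Item) : Option Word := next e.1 e.2

/-- One step: `f` answers the queries (`none`: no answer, the procedure is stuck). -/
def step (f : Word → Option Bool) (e : Item) : Item :=
  match next e.1 e.2 with
  | none => e
  | some s =>
    match f s with
    | none => e
    | some b => (e.1, e.2 ++ [b])

/-- Answer positively the queries in `T`. -/
def inT (T : List Word) (s : Word) : Option Bool := if s ∈ T then some true else none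

/-- Continue with positive answers to the queries in `T`, up to `q` steps. -/
def adv (q : ℕ) (T : List Word) (e : Item) : Item := (step next (inT T))^[q] e

/-- Continue with positive answers only. -/
def yes (q : ℕ) (e : Item) : Item := (step next fun _ => some true)^[q] e

/-- Add a negative answer. -/
def no (e : Item) : Item := (e.1, e.2 ++ [false])

/-- The stopped items after continuing with `T`. -/
def halted (q : ℕ) (T : List Word) (G : List Item) : List Item :=
  (G.map (adv next q T)).filter fun e => (qry next e).isNone

/-- The other items after continuing with `T`. -/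
def waiting (q : ℕ) (T : List Word) (G : List Item) : List Item :=
  (G.map (adv next q T)).filter fun e => (qry next e).isSome

/-- The items with pending query `s`. -/
def pend (s : Word) (U : List Item) : List Item := U.filter fun e => decide (qry next e = some s)

/-- A query which is pending for at least `n / θ` of the items. -/
def pop (θ n : ℕ) (U : List Item) : Option Word :=
  (U.filterMap (qry next)).find? fun s => decide (n ≤ θ * (pend next s U).length)

/-- Add a popular pending query to `T`. -/
def grow (q θ : ℕ) (G : List Item) (T : List Word) : List Word :=
  match pop next θ G.length (waiting next q T G) with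
  | none => T
  | some s => s :: T

/-- The candidates in `B` that agree with the outputs on three quarters of the items. -/
def agree (B : List Word) (G : List Item) : List Word :=
  B.filter fun c => decide (4 * (G.filter fun e => par e.1 c != out e.1 e.2).length ≤ G.length)

/-- The admissible fraction of false transcripts. -/
def err (P : ℕ) : ℕ → ℕ
  | 0 => 4
  | j + 1 => 4 * P * err P j * err P j

/-- The search procedure; `j` negative answers are still possible. -/
def search (q P : ℕ) (B : List Word) : ℕ → List Word → List Item → List Word
  | 0, _, G => agree out B (G.map (yes next q))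
  | j + 1, T, G =>
    (List.range P).flatMap fun i =>
      if G.length ≤ 2 * (halted next q ((grow next q (4 * P * err P j) G)^[i] T) G).length then
        agree out B (halted next q ((grow next q (4 * P * err P j) G)^[i] T) G)
      else
        match pop next (4 * P * err P j) G.length
            (waiting next q ((grow next q (4 * P * err P j) G)^[i] T) G) with
        | some s => search q P B j ((grow next q (4 * P * err P j) G)^[i] T)
            ((pend next s
              (waiting next q ((grow next q (4 * P * err P j) G)^[i] T) G)).map no)
        | none => search q P B j ((grow next q (4 * P * err P j) G)^[i] T)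
            ((waiting next q ((grow next q (4 * P * err P j) G)^[i] T) G).map no)

/-- Bound for the length of the output. -/
def bnd (P : ℕ) : ℕ → ℕ → ℕ
  | 0, ρ => 4 * ρ
  | j + 1, ρ => P * bnd P j (4 * P * err P j * ρ)

end defs

/-! ## Transcripts -/

section good

variable {next : Word → List Bool → Option Word} {out : Word → List Bool → Bool} {S : Set Word}

/-- All answers received so far are the answers of the oracle `S`. -/
def Good (next : Word → List Bool → Option Word) (S : Set Word) (e : Item) : Prop :=
  ∀ pre b, (pre ++ [b]) <+: e.2 → ∃ s, next e.1 pre = some s ∧ (b = true ↔ s ∈ S)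

theorem Good.nil (r : Word) : Good next S (r, []) := by
  intro pre b h
  simp at h

theorem Good.append {e : Item} (h : Good next S e) {s : Word} (hs : next e.1 e.2 = some s)
    {b : Bool} (hb : b = true ↔ s ∈ S) : Good next S (e.1, e.2 ++ [b]) := by
  intro pre b' hp
  rcases List.prefix_concat_iff.1 hp with h1 | h1
  · obtain ⟨h2, h3⟩ := List.append_inj' h1 rfl
    simp only at h2 h3 ⊢
    simp only [List.cons.injEq, and_true] at h3
    subst h3
    rw [h2]
    exact ⟨s, hs, hb⟩
  · exact h pre b' h1

theorem Good.of_prefix {r : Word} {tr tr' : List Bool} (h : Good next S (r, tr'))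
    (hp : tr <+: tr') : Good next S (r, tr) := fun pre b hb => h pre b (hb.trans hp)

theorem step_fst (f : Word → Option Bool) (e : Item) : (step next f e).1 = e.1 := by
  unfold step
  split
  · rfl
  · split <;> rfl

theorem step_prefix (f : Word → Option Bool) (e : Item) : e.2 <+: (step next f e).2 := by
  unfold step
  split
  · exact List.prefix_rfl
  · split
    · exact List.prefix_rfl
    · exact List.prefix_append _ _

theorem iter_fst (f : Word → Option Bool) (n : ℕ) (e : Item) :
    ((step next f)^[n] e).1 = e.1 := by
  induction n with
  | zero => rfl
  | succ n ih => rw [Function.iterate_succ_apply', step_fst, ih]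

theorem iter_prefix (f : Word → Option Bool) (n : ℕ) (e : Item) :
    e.2 <+: ((step next f)^[n] e).2 := by
  induction n with
  | zero => exact List.prefix_rfl
  | succ n ih => rw [Function.iterate_succ_apply']; exact ih.trans (step_prefix f _)

theorem iter_stuck_or (f : Word → Option Bool) (n : ℕ) (e : Item) :
    step next f ((step next f)^[n] e) = (step next f)^[n] e ∨
      ((step next f)^[n] e).2.length = e.2.length + n := by
  induction n with
  | zero => right; rfl
  | succ n ih =>
    rw [Function.iterate_succ_apply']
    rcases ih with h | h
    · left; rw [h, h]
    · set e' := (step next f)^[n] e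
      by_cases h2 : step next f e' = e'
      · left; rw [h2, h2]
      · right
        unfold step at h2 ⊢
        split at h2
        · exact absurd rfl h2
        · rename_i s hs
          split at h2
          · exact absurd rfl h2
          · rename_i b hb
            simp only [hs, hb, List.length_append, List.length_cons, List.length_nil, h]
            omega

/-- The hypotheses on the reduction: few steps, few negative answers, correct output. -/
structure Red (next : Word → List Bool → Option Word) (out : Word → List Bool → Bool)
    (S : Set Word) (R : List Word) (u : Word) (q k : ℕ) : Prop where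
  len : ∀ r ∈ R, ∀ tr, Good next S (r, tr) → tr.length ≤ q
  neg : ∀ r ∈ R, ∀ tr, Good next S (r, tr) → tr.count false ≤ k
  cor : ∀ r ∈ R, ∀ tr, Good next S (r, tr) → next r tr = none → out r tr = par r u

theorem Good.step {f : Word → Option Bool} {e : Item} (h : Good next S e)
    (hf : ∀ s b, next e.1 e.2 = some s → f s = some b → (b = true ↔ s ∈ S)) :
    Good next S (step next f e) := by
  unfold KNo.step
  split
  · exact h
  · rename_i s hs
    split
    · exact h
    · rename_i b hb
      exact h.append hs (hf s b hs hb)

theorem good_adv {T : List Word} (hT : ∀ s ∈ T, s ∈ S) (q : ℕ) {e : Item} :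
    Good next S (adv next q T e) ↔ Good next S e := by
  constructor
  · intro h
    have h1 := iter_prefix (next := next) (inT T) q e
    have h2 := iter_fst (next := next) (inT T) q e
    have h3 : Good next S ((adv next q T e).1, (adv next q T e).2) := h
    have h4 := h3.of_prefix h1
    rw [show (adv next q T e).1 = e.1 from h2] at h4
    exact h4
  · intro h
    unfold adv
    induction q with
    | zero => exact h
    | succ q ih =>
      rw [Function.iterate_succ_apply']
      refine ih.step fun s b _ hb => ?_
      unfold inT at hb
      split_ifs at hb with h1
      · simp only [Option.some.injEq] at hb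
        subst hb
        simp [hT s h1]

/-- A true transcript, continued with `T` for `q` steps, is stopped or has a pending query
outside `T`. -/
theorem adv_pending {R : List Word} {u : Word} {q k : ℕ} (hred : Red next out S R u q k)
    {T : List Word} (hT : ∀ s ∈ T, s ∈ S) {e : Item} (he : e.1 ∈ R) (hg : Good next S e)
    {s : Word} (hs : qry next (adv next q T e) = some s) : s ∉ T := by
  intro hsT
  have hfst : (adv next q T e).1 = e.1 := iter_fst _ _ _
  have hgood := (good_adv (next := next) hT q (e := e)).2 hg
  unfold qry at hs
  have hstep : step next (inT T) (adv next q T e)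
      = ((adv next q T e).1, (adv next q T e).2 ++ [true]) := by
    unfold step
    rw [hs]
    simp [inT, hsT]
  rcases iter_stuck_or (next := next) (inT T) q e with h | h
  · have h' : step next (inT T) (adv next q T e) = adv next q T e := h
    rw [hstep] at h'
    have := congrArg (fun e : Item => e.2.length) h'
    simp at this
  · have h' : (adv next q T e).2.length = e.2.length + q := h
    have h1 := hgood.append hs (b := true) (by simp [hT s hsT])
    have h2 := hred.len _ (by rw [hfst]; exact he) _ h1
    rw [List.length_append] at h2
    simp at h2
    omega

theorem good_yes {R : List Word} {u : Word} {q k : ℕ} (hred : Red next out S R u q k)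
    {e : Item} (he : e.1 ∈ R) (hg : Good next S e) (hk : k ≤ e.2.count false) (n : ℕ) :
    Good next S ((step next fun _ => some true)^[n] e) := by
  induction n with
  | zero => exact hg
  | succ n ih =>
    rw [Function.iterate_succ_apply']
    refine ih.step fun s b hs hb => ?_
    simp only [Option.some.injEq] at hb
    subst hb
    simp only [true_iff]
    by_contra hsS
    have h1 := ih.append hs (b := false) (by simp [hsS])
    have h2 := hred.neg _ (by rw [iter_fst]; exact he) _ h1
    have h3 := (iter_prefix (next := next) (fun _ => some true) n e).sublist.count_le false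
    rw [List.count_append] at h2
    simp at h2
    omega

theorem yes_halts {R : List Word} {u : Word} {q k : ℕ} (hred : Red next out S R u q k)
    {e : Item} (he : e.1 ∈ R) (hg : Good next S e) (hk : k ≤ e.2.count false) :
    out (yes next q e).1 (yes next q e).2 = par (yes next q e).1 u := by
  have hgood := good_yes hred he hg hk q
  have hfst : (yes next q e).1 = e.1 := iter_fst _ _ _
  have hmem : (yes next q e).1 ∈ R := by rw [hfst]; exact he
  refine hred.cor _ hmem _ hgood ?_
  by_contra hne
  obtain ⟨s, hs⟩ := Option.ne_none_iff_exists'.1 hne
  have hstep : step next (fun _ => some true) (yes next q e)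
      = ((yes next q e).1, (yes next q e).2 ++ [true]) := by
    unfold step
    rw [hs]
  rcases iter_stuck_or (next := next) (fun _ => some true) q e with h | h
  · have h' : step next (fun _ => some true) (yes next q e) = yes next q e := h
    rw [hstep] at h'
    have := congrArg (fun e : Item => e.2.length) h'
    simp at this
  · have h' : (yes next q e).2.length = e.2.length + q := h
    have h1 := good_yes hred he hg hk (q + 1)
    rw [Function.iterate_succ_apply'] at h1
    have h1' : Good next S (step next (fun _ => some true) (yes next q e)) := h1
    rw [hstep] at h1'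
    have h2 := hred.len _ hmem _ h1'
    rw [List.length_append] at h2
    simp at h2
    omega

end good

/-! ## The candidate lists are short -/

section size

variable {next : Word → List Bool → Option Word} {out : Word → List Bool → Bool}

theorem filter_length_eq_sum {α : Type} (L : List α) (p : α → Bool) :
    ((L.filter p).length : ℤ) = (L.map fun a => if p a then (1 : ℤ) else 0).sum := by
  induction L with
  | nil => rfl
  | cons a L ih =>
    rw [List.filter_cons, List.map_cons, List.sum_cons, ← ih]
    by_cases h : p a
    · simp [h]; ring
    · simp [h]

/-- A list of items that consists of a transcript for each member of a sublist of `R`. -/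
def Shape (R : List Word) (G : List Item) : Prop :=
  ∃ (m : Word → Bool) (f : Word → List Bool), G = (R.filter m).map fun r => (r, f r)

theorem Shape.filter {R : List Word} {G : List Item} (h : Shape R G) (p : Item → Bool) :
    Shape R (G.filter p) := by
  obtain ⟨m, f, rfl⟩ := h
  refine ⟨fun r => m r && p (r, f r), f, ?_⟩
  rw [List.filter_map, List.filter_filter]
  congr 2
  funext r
  rw [Bool.and_comm]
  rfl

theorem Shape.map {R : List Word} {G : List Item} (h : Shape R G) (g : Item → Item)
    (hg : ∀ e, (g e).1 = e.1) : Shape R (G.map g) := by
  obtain ⟨m, f, rfl⟩ := h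
  refine ⟨m, fun r => (g (r, f r)).2, ?_⟩
  rw [List.map_map]
  refine List.map_congr_left fun r _ => ?_
  exact Prod.ext (hg (r, f r)) rfl

/-- Few candidates agree with given bits on three quarters of a large set of tests. -/
theorem length_agree {R B : List Word} (hB : B.Nodup) (horth : Orth R B) {G : List Item}
    (hG : Shape R G) {ρ : ℕ} (hR : 0 < R.length) (hρ : R.length ≤ ρ * G.length) :
    (agree out B G).length ≤ 4 * ρ := by
  classical
  obtain ⟨m, f, rfl⟩ := hG
  set G : List Item := (R.filter m).map fun r => (r, f r) with hG
  set g : ℤ := (G.length : ℤ) with hg
  have hgpos : 0 < g := by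
    rw [hg]
    rcases Nat.eq_zero_or_pos G.length with h | h
    · rw [h] at hρ; omega
    · exact_mod_cast h
  set a : Word → ℤ := fun r => if m r then sgn (!out r (f r)) else 0 with ha
  set Z := agree out B G with hZ
  have hZB : ∀ c ∈ Z, c ∈ B := fun c hc => (List.mem_filter.1 hc).1
  have hZn : Z.Nodup := hB.filter _
  -- number of items
  have hlen : g = (R.map fun r => if m r then (1 : ℤ) else 0).sum := by
    rw [hg, hG, List.length_map, filter_length_eq_sum]
  have hsq : (R.map fun r => a r ^ 2).sum = g := by
    rw [hlen]
    congr 1
    refine List.map_congr_left fun r _ => ?_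
    simp only [ha]
    by_cases h : m r
    · simp only [h, if_true]
      cases out r (f r) <;> simp [sgn]
    · simp [h]
  -- correlation of an agreeing candidate
  have hcor : ∀ c ∈ Z, g ≤ 2 * (R.map fun r => sgn (!par r c) * a r).sum := by
    intro c hc
    have h1 := (List.mem_filter.1 hc).2
    rw [decide_eq_true_eq] at h1
    have h2 : ((G.filter fun e => par e.1 c != out e.1 e.2).length : ℤ)
        = (R.map fun r => if m r then (if par r c = out r (f r) then (0 : ℤ) else 1) else 0).sum := by
      rw [hG, List.filter_map, List.length_map, List.filter_filter, filter_length_eq_sum]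
      congr 1
      refine List.map_congr_left fun r _ => ?_
      by_cases h : m r
      · simp only [h, Function.comp_apply, Bool.and_true, if_true, bne_iff_ne, ne_eq]
        by_cases h' : par r c = out r (f r) <;> simp [h']
      · simp [h]
    have h3 : (R.map fun r => sgn (!par r c) * a r).sum
        = (R.map fun r => (if m r then (1 : ℤ) else 0)
          - 2 * (if m r then (if par r c = out r (f r) then (0 : ℤ) else 1) else 0)).sum := by
      congr 1
      refine List.map_congr_left fun r _ => ?_
      simp only [ha]
      by_cases h : m r
      · simp only [h, if_true]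
        cases par r c <;> cases out r (f r) <;> simp [sgn]
      · simp [h]
    have h4 : (R.map fun r => (if m r then (1 : ℤ) else 0)
          - 2 * (if m r then (if par r c = out r (f r) then (0 : ℤ) else 1) else 0)).sum
        = g - 2 * (G.filter fun e => par e.1 c != out e.1 e.2).length := by
      rw [h2, hlen]
      generalize R = L
      induction L with
      | nil => simp
      | cons r L ih =>
        simp only [List.map_cons, List.sum_cons, ih]
        ring
    rw [h3, h4]
    have h5 : (4 * (G.filter fun e => par e.1 c != out e.1 e.2).length : ℤ) ≤ g := by
      rw [hg]; exact_mod_cast h1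
    linarith
  -- Bessel
  have hbes := bessel Z.toFinset (fun c (i : Fin R.length) => sgn (!par (R.get i) c))
    (fun i => a (R.get i)) (by
      intro c _ i
      cases par (R.get i) c <;> simp [sgn]) (by
      intro c hc c' hc' hne
      have h := horth c (hZB c (List.mem_toFinset.mp hc)) c' (hZB c' (List.mem_toFinset.mp hc')) hne
      rw [list_sum_eq_fin] at h
      rw [← h]
      exact Finset.sum_congr rfl fun i _ => sgn_mul_par _ _ _)
  rw [Fintype.card_fin, ← list_sum_eq_fin R (fun r => a r ^ 2), hsq] at hbes
  have hlow : ∀ c ∈ Z.toFinset,
      g ^ 2 ≤ 4 * (∑ i : Fin R.length, sgn (!par (R.get i) c) * a (R.get i)) ^ 2 := by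
    intro c hc
    have h := hcor c (List.mem_toFinset.mp hc)
    rw [list_sum_eq_fin] at h
    nlinarith
  have hsum : (Z.length : ℤ) * g ^ 2 ≤ 4 * ((R.length : ℤ) * g) := by
    have h1 := Finset.sum_le_sum hlow
    rw [Finset.sum_const, List.toFinset_card_of_nodup hZn, nsmul_eq_mul, ← Finset.mul_sum] at h1
    exact h1.trans (by linarith)
  have h6 : (Z.length : ℤ) * g ≤ 4 * (R.length : ℤ) := by
    have : g * ((Z.length : ℤ) * g) ≤ g * (4 * (R.length : ℤ)) := by nlinarith
    exact le_of_mul_le_mul_left this hgpos
  have h7 : (R.length : ℤ) ≤ ρ * g := by rw [hg]; exact_mod_cast hρ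
  have h8 : (Z.length : ℤ) * g ≤ (4 * ρ : ℤ) * g := by nlinarith
  have h9 : (Z.length : ℤ) ≤ 4 * ρ := le_of_mul_le_mul_right h8 hgpos
  exact_mod_cast h9

theorem err_ge (P : ℕ) (hP : 0 < P) (j : ℕ) : 4 ≤ err P j := by
  induction j with
  | zero => exact le_rfl
  | succ j ih =>
    simp only [err]
    nlinarith [Nat.mul_le_mul (Nat.mul_le_mul (Nat.le_refl 4) hP) ih]

theorem bnd_ge (P : ℕ) (hP : 0 < P) (j ρ : ℕ) : 4 * ρ ≤ bnd P j ρ := by
  induction j generalizing ρ with
  | zero => exact le_rfl
  | succ j ih =>
    simp only [bnd]
    have h1 := ih (4 * P * err P j * ρ)
    have h2 := err_ge P hP j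
    have h3 : ρ ≤ 4 * P * err P j * ρ := Nat.le_mul_of_pos_left _ (by positivity)
    calc 4 * ρ ≤ 4 * (4 * P * err P j * ρ) := by omega
      _ ≤ bnd P j (4 * P * err P j * ρ) := h1
      _ ≤ _ := Nat.le_mul_of_pos_left _ hP

theorem length_halted_add (q : ℕ) (T : List Word) (G : List Item) :
    (halted next q T G).length + (waiting next q T G).length = G.length := by
  unfold halted waiting
  rw [← List.length_map (f := adv next q T) (as := G)]
  generalize G.map (adv next q T) = L
  induction L with
  | nil => rfl
  | cons e L ih =>
    rw [List.filter_cons, List.filter_cons]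
    cases qry next e <;> (simp; omega)

theorem length_flatMap_le {α β : Type} (L : List α) (f : α → List β) (M : ℕ)
    (h : ∀ a ∈ L, (f a).length ≤ M) : (L.flatMap f).length ≤ L.length * M := by
  induction L with
  | nil => simp
  | cons a L ih =>
    rw [List.flatMap_cons, List.length_append, List.length_cons, Nat.succ_mul]
    have h1 := h a List.mem_cons_self
    have h2 := ih fun b hb => h b (List.mem_cons_of_mem _ hb)
    omega

theorem adv_fst (q : ℕ) (T : List Word) (e : Item) : (adv next q T e).1 = e.1 :=
  iter_fst _ _ _

theorem length_search {R B : List Word} (hB : B.Nodup) (horth : Orth R B) (hR : 0 < R.length)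
    (q P : ℕ) (hP : 0 < P) (j : ℕ) : ∀ (T : List Word) (G : List Item) (ρ : ℕ), Shape R G →
      R.length ≤ ρ * G.length → (search next out q P B j T G).length ≤ bnd P j ρ := by
  induction j with
  | zero =>
    intro T G ρ hG hρ
    refine length_agree hB horth (hG.map _ fun e => iter_fst _ _ _) hR ?_
    rwa [List.length_map]
  | succ j ih =>
    intro T G ρ hG hρ
    simp only [search, bnd]
    refine (length_flatMap_le _ _ (bnd P j (4 * P * err P j * ρ)) fun i _ => ?_).trans
      (le_of_eq (by rw [List.length_range]))
    set T' := (grow next q (4 * P * err P j) G)^[i] T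
    have herr := err_ge P hP j
    have h2 : 2 * ρ ≤ 4 * P * err P j * ρ := by
      refine Nat.mul_le_mul_right ρ ?_
      nlinarith
    have hadv := hG.map (adv next q T') (adv_fst q T')
    split_ifs with hh
    · have h1 := length_agree (out := out) hB horth (hadv.filter fun e => (qry next e).isNone)
        (ρ := 2 * ρ) hR (by
          refine hρ.trans ?_
          calc ρ * G.length ≤ ρ * (2 * (halted next q T' G).length) := Nat.mul_le_mul_left _ hh
            _ = 2 * ρ * (halted next q T' G).length := by ring)
      have h3 := bnd_ge P hP j (4 * P * err P j * ρ)
      refine le_trans h1 (le_trans ?_ h3)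
      omega
    · have hsh : Shape R (waiting next q T' G) := hadv.filter _
      have hlen := length_halted_add (next := next) q T' G
      split
      · rename_i s hs
        refine ih _ _ _ ((hsh.filter _).map no fun _ => rfl) ?_
        rw [List.length_map]
        have h4 := List.find?_some hs
        rw [decide_eq_true_eq] at h4
        refine hρ.trans ?_
        calc ρ * G.length ≤ ρ * (4 * P * err P j * (pend next s (waiting next q T' G)).length) :=
            Nat.mul_le_mul_left _ h4
          _ = 4 * P * err P j * ρ * (pend next s (waiting next q T' G)).length := by ring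
      · refine ih _ _ _ (hsh.map no fun _ => rfl) ?_
        rw [List.length_map]
        refine hρ.trans ?_
        calc ρ * G.length ≤ ρ * (2 * (waiting next q T' G).length) :=
            Nat.mul_le_mul_left _ (by omega)
          _ = 2 * ρ * (waiting next q T' G).length := by ring
          _ ≤ 4 * P * err P j * ρ * (waiting next q T' G).length := Nat.mul_le_mul_right _ h2

end size

/-! ## The unknown word is found -/

section correct

variable {next : Word → List Bool → Option Word} {out : Word → List Bool → Bool} {S : Set Word}

/-- The queries asked in true runs. -/
def Rel (next : Word → List Bool → Option Word) (S : Set Word) (R : List Word) : Set Word :=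
  {s | ∃ r ∈ R, ∃ tr, Good next S (r, tr) ∧ next r tr = some s}

open Classical in
/-- The number of false transcripts. -/
noncomputable def bad (next : Word → List Bool → Option Word) (S : Set Word)
    (G : List Item) : ℕ := (G.filter fun e => decide (¬ Good next S e)).length

theorem length_filter_mono {α : Type} (L : List α) (p p' : α → Bool)
    (h : ∀ a ∈ L, p a = true → p' a = true) : (L.filter p).length ≤ (L.filter p').length := by
  rw [← List.countP_eq_length_filter, ← List.countP_eq_length_filter]
  exact List.countP_mono_left h

theorem bad_filter_le (G : List Item) (p : Item → Bool) :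
    bad next S (G.filter p) ≤ bad next S G := by
  classical
  unfold bad
  rw [List.filter_filter]
  exact length_filter_mono _ _ _ fun e _ h => by simp at h ⊢; exact h.1

theorem bad_map_le (G : List Item) (g : Item → Item)
    (hg : ∀ e ∈ G, Good next S e → Good next S (g e)) :
    bad next S (G.map g) ≤ bad next S G := by
  classical
  unfold bad
  rw [List.filter_map, List.length_map]
  refine length_filter_mono _ _ _ fun e he h => ?_
  simp only [Function.comp_apply, decide_eq_true_eq] at h ⊢
  exact fun h' => h (hg e he h')

theorem length_le_sum (f : Item → Option Word) (L : List Word) (X : List Item)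
    (h : ∀ e ∈ X, ∃ s ∈ L, f e = some s) :
    X.length ≤ (L.map fun s => (X.filter fun e => decide (f e = some s)).length).sum := by
  induction X with
  | nil => simp
  | cons e X ih =>
    have h1 := ih fun e' he' => h e' (List.mem_cons_of_mem _ he')
    obtain ⟨s, hs, hes⟩ := h e List.mem_cons_self
    have h2 : (L.map fun s => ((e :: X).filter fun e => decide (f e = some s)).length)
        = L.map fun s => (if f e = some s then 1 else 0)
          + (X.filter fun e => decide (f e = some s)).length := by
      refine List.map_congr_left fun s _ => ?_
      rw [List.filter_cons]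
      by_cases h' : f e = some s
      · simp [h']; omega
      · simp [h']
    rw [h2, List.sum_map_add, List.length_cons]
    have h3 : 1 ≤ (L.map fun s => if f e = some s then 1 else 0).sum :=
      List.le_sum_of_mem (List.mem_map.2 ⟨s, hs, by simp [hes]⟩)
    omega

theorem unpopular {R : List Word} {P : ℕ}
    (hS : ∀ L : List Word, L.Nodup → (∀ s ∈ L, s ∈ S ∧ s ∈ Rel next S R) → L.length < P)
    {θ n : ℕ} {U : List Item} (hU : ∀ e ∈ U, e.1 ∈ R) (hpop : pop next θ n U = none)
    (p : Item → Bool) (hp : ∀ e ∈ U, p e = true → Good next S e ∧ ∃ s ∈ S, qry next e = some s) :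
    θ * (U.filter p).length ≤ P * n := by
  classical
  set X := U.filter p with hX
  set L := (X.filterMap (qry next)).dedup with hL
  have hXU : ∀ e ∈ X, e ∈ U := fun e he => (List.mem_filter.1 he).1
  have hXp : ∀ e ∈ X, Good next S e ∧ ∃ s ∈ S, qry next e = some s := fun e he =>
    hp e (hXU e he) (List.mem_filter.1 he).2
  have h1 : X.length ≤ _ := length_le_sum (qry next) L X (by
    intro e he
    obtain ⟨_, s, _, hs⟩ := hXp e he
    exact ⟨s, List.mem_dedup.2 (List.mem_filterMap.2 ⟨e, he, hs⟩), hs⟩)
  have h2 : L.length < P := hS L (List.nodup_dedup _) (by
    intro s hs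
    obtain ⟨e, he, hes⟩ := List.mem_filterMap.1 (List.mem_dedup.1 hs)
    obtain ⟨hg, s', hs', hes'⟩ := hXp e he
    rw [hes] at hes'
    simp only [Option.some.injEq] at hes'
    subst hes'
    exact ⟨hs', e.1, hU e (hXU e he), e.2, hg, hes⟩)
  have h3 : ∀ s ∈ L, θ * (X.filter fun e => decide (qry next e = some s)).length ≤ n := by
    intro s hs
    have hsU : s ∈ U.filterMap (qry next) := by
      obtain ⟨e, he, hes⟩ := List.mem_filterMap.1 (List.mem_dedup.1 hs)
      exact List.mem_filterMap.2 ⟨e, hXU e he, hes⟩
    have h4 := List.find?_eq_none.1 hpop s hsU
    rw [decide_eq_true_eq, not_le] at h4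
    have h5 : (X.filter fun e => decide (qry next e = some s)).length
        ≤ (pend next s U).length := by
      unfold pend
      rw [hX, List.filter_filter]
      exact length_filter_mono _ _ _ fun e _ h => by simp at h ⊢; exact h.1
    exact (Nat.mul_le_mul_left θ h5).trans h4.le
  have h4 : θ * (L.map fun s => (X.filter fun e => decide (qry next e = some s)).length).sum
      ≤ L.length * n := by
    rw [← List.sum_map_mul_left]
    have := List.sum_le_card_nsmul
      (L.map fun s => θ * (X.filter fun e => decide (qry next e = some s)).length) n (by
        intro x hx
        obtain ⟨s, hs, rfl⟩ := List.mem_map.1 hx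
        exact h3 s hs)
    simpa using this
  calc θ * X.length ≤ _ := Nat.mul_le_mul_left θ h1
    _ ≤ L.length * n := h4
    _ ≤ P * n := Nat.mul_le_mul_right n h2.le

theorem mem_halted {q : ℕ} {T : List Word} {G : List Item} {e' : Item}
    (h : e' ∈ halted next q T G) : ∃ e ∈ G, e' = adv next q T e ∧ next e'.1 e'.2 = none := by
  obtain ⟨h1, h2⟩ := List.mem_filter.1 h
  obtain ⟨e, he, rfl⟩ := List.mem_map.1 h1
  exact ⟨e, he, rfl, by simpa [qry] using h2⟩

theorem mem_waiting {q : ℕ} {T : List Word} {G : List Item} {e' : Item}
    (h : e' ∈ waiting next q T G) : ∃ e ∈ G, e' = adv next q T e := by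
  obtain ⟨h1, h2⟩ := List.mem_filter.1 h
  obtain ⟨e, he, rfl⟩ := List.mem_map.1 h1
  exact ⟨e, he, rfl⟩

theorem exists_good_pend {R : List Word} {u : Word} {q k : ℕ} (hred : Red next out S R u q k)
    {T : List Word} (hT : ∀ s ∈ T, s ∈ S) {G : List Item} (hG : ∀ e ∈ G, e.1 ∈ R)
    {θ a : ℕ} (hθ : 0 < θ) (ha : 1 < a) (hbad : θ * a * bad next S G ≤ G.length)
    (hne : 0 < G.length) {s : Word}
    (hs : pop next θ G.length (waiting next q T G) = some s) : s ∉ T ∧ s ∈ Rel next S R := by
  classical
  have h1 := List.find?_some hs
  rw [decide_eq_true_eq] at h1
  have h2 : ∃ e' ∈ pend next s (waiting next q T G), Good next S e' := by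
    by_contra hcon
    push Not at hcon
    have h3 : (pend next s (waiting next q T G)).length ≤ bad next S G := by
      have h4 : (pend next s (waiting next q T G)).length
          ≤ bad next S (pend next s (waiting next q T G)) := by
        unfold bad
        rw [List.filter_eq_self.2 fun e he => by simpa using hcon e he]
      refine h4.trans ((bad_filter_le _ _).trans ((bad_filter_le _ _).trans
        (bad_map_le _ _ fun e _ he => (good_adv hT q).2 he)))
    have h5 : θ * (a * bad next S G) ≤ θ * bad next S G := by
      calc θ * (a * bad next S G) = θ * a * bad next S G := by ring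
        _ ≤ G.length := hbad
        _ ≤ θ * (pend next s (waiting next q T G)).length := h1
        _ ≤ _ := Nat.mul_le_mul_left θ h3
    have h6 : a * bad next S G ≤ bad next S G := Nat.le_of_mul_le_mul_left h5 hθ
    have h7 : bad next S G = 0 := by
      rcases Nat.eq_zero_or_pos (bad next S G) with h | h
      · exact h
      · nlinarith
    rw [h7] at h3
    have : (pend next s (waiting next q T G)).length = 0 := by omega
    rw [this] at h1
    omega
  obtain ⟨e', he', hg'⟩ := h2
  obtain ⟨h3, h4⟩ := List.mem_filter.1 he'
  rw [decide_eq_true_eq] at h4
  obtain ⟨e, he, rfl⟩ := mem_waiting h3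
  have hg := (good_adv hT q).1 hg'
  refine ⟨adv_pending hred hT (hG e he) hg h4, e.1, hG e he, (adv next q T e).2, ?_, ?_⟩
  · have := hg'
    rwa [← adv_fst (next := next) q T e]
  · rw [← adv_fst (next := next) q T e]
    exact h4

theorem bad_map_no_le (U : List Item) {P θ n : ℕ} {R : List Word}
    (hS : ∀ L : List Word, L.Nodup → (∀ s ∈ L, s ∈ S ∧ s ∈ Rel next S R) → L.length < P)
    (hU : ∀ e ∈ U, e.1 ∈ R) (hU' : ∀ e ∈ U, (qry next e).isSome)
    (hpop : pop next θ n U = none) :
    θ * bad next S (U.map no) ≤ θ * bad next S U + P * n := by
  classical
  have h1 : bad next S (U.map no) ≤ bad next S U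
      + (U.filter fun e => decide (Good next S e ∧ ∃ s ∈ S, qry next e = some s)).length := by
    unfold bad
    rw [List.filter_map, List.length_map]
    simp only [← List.countP_eq_length_filter]
    clear hpop hU
    induction U with
    | nil => simp
    | cons e U ih =>
      have ih' := ih fun e' he' => hU' e' (List.mem_cons_of_mem _ he')
      simp only [List.countP_cons]
      have he := hU' e List.mem_cons_self
      obtain ⟨s, hs⟩ := Option.isSome_iff_exists.1 he
      by_cases hg : Good next S e
      · by_cases hsS : s ∈ S
        · simp only [Function.comp_apply, hg, hs, true_and]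
          have : ∃ s' ∈ S, some s = some s' := ⟨s, hsS, rfl⟩
          simp only [this, decide_true, if_true, not_true_eq_false, decide_false, Bool.false_eq_true,
            if_false]
          split_ifs <;> omega
        · have : Good next S (no e) := hg.append hs (by simp [hsS])
          simp only [Function.comp_apply, this, not_true_eq_false, decide_false,
            Bool.false_eq_true, if_false]
          omega
      · simp only [Function.comp_apply, hg, not_false_eq_true, decide_true, if_true, false_and,
          decide_false, Bool.false_eq_true, if_false]
        split_ifs <;> omega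
  have h2 := unpopular hS hU hpop
    (fun e => decide (Good next S e ∧ ∃ s ∈ S, qry next e = some s))
    (fun e _ h => by simpa using h)
  calc θ * bad next S (U.map no) ≤ θ * (bad next S U
      + (U.filter fun e => decide (Good next S e ∧ ∃ s ∈ S, qry next e = some s)).length) :=
        Nat.mul_le_mul_left θ h1
    _ = _ := Nat.mul_add _ _ _
    _ ≤ _ := Nat.add_le_add_left h2 _

theorem count_adv_ge (q : ℕ) (T : List Word) (e : Item) :
    e.2.count false ≤ (adv next q T e).2.count false :=
  (iter_prefix _ _ _).sublist.count_le false

theorem mem_search {R B : List Word} {u : Word} {q k P : ℕ} (hred : Red next out S R u q k)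
    (hP : 0 < P)
    (hS : ∀ L : List Word, L.Nodup → (∀ s ∈ L, s ∈ S ∧ s ∈ Rel next S R) → L.length < P)
    (hu : u ∈ B) (j : ℕ) : ∀ (T : List Word) (G : List Item), T.Nodup →
      (∀ s ∈ T, s ∈ S ∧ s ∈ Rel next S R) → (∀ e ∈ G, e.1 ∈ R) →
      err P j * bad next S G ≤ G.length →
      (∀ e ∈ G, Good next S e → k ≤ j + e.2.count false) →
      u ∈ search next out q P B j T G := by
  classical
  induction j with
  | zero =>
    intro T G _ _ hG hbad hk
    refine List.mem_filter.2 ⟨hu, ?_⟩
    rw [decide_eq_true_eq, List.length_map]
    refine le_trans (Nat.mul_le_mul_left 4 ?_) hbad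
    unfold bad
    rw [List.filter_map, List.length_map]
    refine length_filter_mono _ _ _ fun e he h => ?_
    simp only [Function.comp_apply, bne_iff_ne, ne_eq, decide_eq_true_eq] at h ⊢
    intro hg
    exact h (yes_halts hred (hG e he) hg (by simpa using hk e he hg)).symm
  | succ j ih =>
    intro T G hTn hT hG hbad hk
    set θ := 4 * P * err P j with hθdef
    have herr := err_ge P hP j
    have hθ : 0 < θ := by positivity
    simp only [err] at hbad
    rw [← hθdef] at hbad
    simp only [search]
    rw [← hθdef]
    -- find the right stage
    have hstop : ∃ i < P, ((grow next q θ G)^[i] T).Nodup ∧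
        (∀ s ∈ (grow next q θ G)^[i] T, s ∈ S ∧ s ∈ Rel next S R) ∧
        (G.length ≤ 2 * (halted next q ((grow next q θ G)^[i] T) G).length ∨
          ∀ s, pop next θ G.length (waiting next q ((grow next q θ G)^[i] T) G) = some s →
            s ∉ S) := by
      by_contra hcon
      push Not at hcon
      have key : ∀ i ≤ P, ((grow next q θ G)^[i] T).Nodup ∧
          (∀ s ∈ (grow next q θ G)^[i] T, s ∈ S ∧ s ∈ Rel next S R) ∧
          ((grow next q θ G)^[i] T).length = T.length + i := by
        intro i
        induction i with
        | zero => intro _; exact ⟨hTn, hT, rfl⟩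
        | succ i ih2 =>
          intro hi
          obtain ⟨h1, h2, h3⟩ := ih2 (by omega)
          obtain ⟨h4, s, h5, h6⟩ := hcon i (by omega) h1 h2
          rw [Function.iterate_succ_apply']
          set T' := (grow next q θ G)^[i] T with hT'
          have hgrow : grow next q θ G T' = s :: T' := by
            unfold grow
            rw [h5]
          obtain ⟨h7, h8⟩ := exists_good_pend hred (fun s hs => (h2 s hs).1) hG hθ
            (show 1 < err P j by omega) hbad (by omega) h5
          rw [hgrow]
          refine ⟨List.nodup_cons.2 ⟨h7, h1⟩, ?_, by rw [List.length_cons, h3]; omega⟩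
          intro s' hs'
          rcases List.mem_cons.1 hs' with rfl | hs'
          · exact ⟨h6, h8⟩
          · exact h2 s' hs'
      obtain ⟨h1, h2, h3⟩ := key P le_rfl
      have := hS _ h1 h2
      omega
    obtain ⟨i, hi, hTn', hT', hst⟩ := hstop
    refine List.mem_flatMap.2 ⟨i, List.mem_range.2 hi, ?_⟩
    set T' := (grow next q θ G)^[i] T with hT'def
    have hT'S : ∀ s ∈ T', s ∈ S := fun s hs => (hT' s hs).1
    have hbadadv : bad next S (G.map (adv next q T')) ≤ bad next S G :=
      bad_map_le _ _ fun e _ he => (good_adv hT'S q).2 he
    have hlen := length_halted_add (next := next) q T' G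
    split_ifs with hh
    · -- most tests stop
      refine List.mem_filter.2 ⟨hu, ?_⟩
      rw [decide_eq_true_eq]
      have h1 : ((halted next q T' G).filter fun e => par e.1 u != out e.1 e.2).length
          ≤ bad next S (halted next q T' G) := by
        unfold bad
        refine length_filter_mono _ _ _ fun e' he' h => ?_
        simp only [bne_iff_ne, ne_eq, decide_eq_true_eq] at h ⊢
        intro hg
        obtain ⟨e, he, rfl, hn⟩ := mem_halted he'
        exact h (hred.cor _ (show (adv next q T' e).1 ∈ R by rw [adv_fst]; exact hG e he)
          _ hg hn).symm
      have h2 : bad next S (halted next q T' G) ≤ bad next S G :=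
        (bad_filter_le _ _).trans hbadadv
      have h3 : 8 ≤ θ * err P j := by
        have : 16 ≤ θ := by rw [hθdef]; nlinarith
        nlinarith
      have h4 : 8 * bad next S G ≤ θ * err P j * bad next S G := Nat.mul_le_mul_right _ h3
      omega
    · have hst' := hst.resolve_left hh
      have hUR : ∀ e ∈ waiting next q T' G, e.1 ∈ R := by
        intro e' he'
        obtain ⟨e, he, rfl⟩ := mem_waiting he'
        rw [adv_fst]; exact hG e he
      split
      · -- a popular negative query
        rename_i s hs
        have hsS := hst' s hs
        have h4 := List.find?_some hs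
        rw [decide_eq_true_eq] at h4
        refine ih _ _ hTn' hT' ?_ ?_ ?_
        · intro e1 he1
          obtain ⟨e', he', rfl⟩ := List.mem_map.1 he1
          exact hUR e' (List.mem_filter.1 he').1
        · rw [List.length_map]
          have h5 : bad next S ((pend next s (waiting next q T' G)).map no)
              ≤ bad next S G := by
            refine (bad_map_le _ _ ?_).trans ((bad_filter_le _ _).trans
              ((bad_filter_le _ _).trans hbadadv))
            intro e' he' hg
            have h6 := (List.mem_filter.1 he').2
            rw [decide_eq_true_eq] at h6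
            exact hg.append h6 (by simp [hsS])
          have h6 : θ * (err P j * bad next S ((pend next s (waiting next q T' G)).map no))
              ≤ θ * (pend next s (waiting next q T' G)).length := by
            calc _ ≤ θ * (err P j * bad next S G) :=
                  Nat.mul_le_mul_left _ (Nat.mul_le_mul_left _ h5)
              _ = θ * err P j * bad next S G := by ring
              _ ≤ G.length := hbad
              _ ≤ _ := h4
          exact Nat.le_of_mul_le_mul_left h6 hθ
        · intro e1 he1 hg1
          obtain ⟨e', he', rfl⟩ := List.mem_map.1 he1
          obtain ⟨e, he, rfl⟩ := mem_waiting (List.mem_filter.1 he').1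
          have hg' : Good next S (adv next q T' e) :=
            Good.of_prefix (tr' := (no (adv next q T' e)).2) hg1 (List.prefix_append _ _)
          have h5 := hk e he ((good_adv hT'S q).1 hg')
          have h6 := count_adv_ge (next := next) q T' e
          simp only [no, List.count_append]
          simp
          omega
      · -- no popular query
        rename_i hnone
        refine ih _ _ hTn' hT' ?_ ?_ ?_
        · intro e1 he1
          obtain ⟨e', he', rfl⟩ := List.mem_map.1 he1
          exact hUR e' he'
        · rw [List.length_map]
          have h5 := bad_map_no_le (waiting next q T' G) hS hUR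
            (fun e he => (List.mem_filter.1 he).2) hnone
          have h6 : bad next S (waiting next q T' G) ≤ bad next S G :=
            (bad_filter_le _ _).trans hbadadv
          have h7 : θ * bad next S ((waiting next q T' G).map no)
              ≤ θ * bad next S G + P * G.length :=
            h5.trans (Nat.add_le_add_right (Nat.mul_le_mul_left _ h6) _)
          set b1 := bad next S ((waiting next q T' G).map no)
          set b0 := bad next S G
          set n := G.length
          set w := (waiting next q T' G).length
          set ε := err P j
          -- 4 P (ε b1) ≤ 4 P (ε b0) + P n, 4 ε b0 ≤ n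
          have h8 : P * (4 * (ε * b1)) ≤ P * (4 * (ε * b0) + n) := by
            calc P * (4 * (ε * b1)) = θ * b1 := by rw [hθdef]; ring
              _ ≤ _ := h7
              _ = _ := by rw [hθdef]; ring
          have h9 : 4 * (ε * b1) ≤ 4 * (ε * b0) + n := Nat.le_of_mul_le_mul_left h8 hP
          have h10 : 4 * (ε * b0) ≤ n := by
            refine le_trans ?_ hbad
            calc 4 * (ε * b0) = 4 * (ε * b0) * 1 := by ring
              _ ≤ 4 * (ε * b0) * (P * ε) := Nat.mul_le_mul_left _ (by nlinarith)
              _ = θ * ε * b0 := by rw [hθdef]; ring
          omega
        · intro e1 he1 hg1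
          obtain ⟨e', he', rfl⟩ := List.mem_map.1 he1
          obtain ⟨e, he, rfl⟩ := mem_waiting he'
          have hg' : Good next S (adv next q T' e) :=
            Good.of_prefix (tr' := (no (adv next q T' e)).2) hg1 (List.prefix_append _ _)
          have h5 := hk e he ((good_adv hT'S q).1 hg')
          have h6 := count_adv_ge (next := next) q T' e
          simp only [no, List.count_append]
          simp
          omega

end correct

end Pool.Agent.Lib.MP_634427_lc.KNo
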