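import Pool.Agent.Lib.MP_634427_lc.Data
import Pool.Agent.Lib.MP_634427_lc.KNo

/-!
# The search procedure of `KNo.lean` is a polynomial-time function
-/

namespace Pool.Agent.Lib.MP_634427_lc

namespace PT

variable {γ α β : Type} [Enc γ] [Enc α] [Enc β]

lemma memWord {s : γ → Word} {T : γ → List Word} (hs : PT s) (hT : PT T) :
    PT fun c => decide (s c ∈ T c) :=
  (any (p := fun c t => decide (t = s c)) hT (eqWord snd (hs.comp fst))).of_eq fun c => by
    rw [Bool.eq_iff_iff]
    simp

lemma filterMap {l : γ → List α} {f : γ → α → Option β} (hl : PT l)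
    (hf : PT fun p : γ × α => f p.1 p.2) : PT fun c => (l c).filterMap (f c) := by
  have h1 : PT fun p : γ × α => (f p.1 p.2).toList :=
    (casesOption (g := fun _ b => [b]) hf (const []) (cons snd (const []))).of_eq fun p => by
      cases f p.1 p.2 <;> rfl
  refine (flatMap (f := fun c a => (f c a).toList) hl h1).of_eq fun c => ?_
  rw [List.filterMap_eq_flatMap_toList]

lemma flatMap' {l : γ → List α} {F : γ × α → List β} (hl : PT l) (hF : PT F) :
    PT fun c => (l c).flatMap fun a => F (c, a) := flatMap hl (f := fun c a => F (c, a)) hF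

end PT

namespace KNo

open PT

variable {γ δ : Type} [Enc γ] [Enc δ] {next : γ → Word → List Bool → Option Word}
  {out : γ → Word → List Bool → Bool} {q : γ → ℕ}

lemma pt_qry (hn : PT fun p : γ × Word × List Bool => next p.1 p.2.1 p.2.2)
    {cx : δ → γ} {e : δ → Item} (hcx : PT cx) (he : PT e) :
    PT fun d => qry (next (cx d)) (e d) :=
  hn.comp (pair hcx (pair (fst' he) (snd' he)))

lemma pt_stepT (hn : PT fun p : γ × Word × List Bool => next p.1 p.2.1 p.2.2) :
    PT fun p : (γ × List Word) × Item => step (next p.1.1) (inT p.1.2) p.2 := by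
  refine (casesOption (o := fun p : (γ × List Word) × Item => next p.1.1 p.2.1 p.2.2)
    (f := fun p => p.2)
    (g := fun p s => bif decide (s ∈ p.1.2) then (p.2.1, p.2.2 ++ [true]) else p.2)
    (hn.comp (pair (fst' fst) (pair (fst' snd) (snd' snd)))) snd
    (PT.cond (memWord snd (snd' (fst' fst)))
      (pair (fst' (snd' fst)) (append (snd' (snd' fst)) (const [true]))) (snd' fst))).of_eq ?_
  rintro ⟨⟨c, T⟩, r, tr⟩
  unfold step inT
  simp only
  rcases next c r tr with _ | s
  · rfl
  · by_cases h : s ∈ T <;> simp [h]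

lemma pt_stepY (hn : PT fun p : γ × Word × List Bool => next p.1 p.2.1 p.2.2) :
    PT fun p : γ × Item => step (next p.1) (fun _ => some true) p.2 := by
  refine (casesOption (o := fun p : γ × Item => next p.1 p.2.1 p.2.2)
    (f := fun p => p.2)
    (g := fun p _ => (p.2.1, p.2.2 ++ [true]))
    (hn.comp (pair fst (pair (fst' snd) (snd' snd)))) snd
    (pair (fst' (snd' fst)) (append (snd' (snd' fst)) (const [true])))).of_eq ?_
  rintro ⟨c, r, tr⟩
  unfold step
  simp only
  rcases next c r tr with _ | s <;> rfl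

lemma sz_step_le (nx : Word → List Bool → Option Word) (f : Word → Option Bool) (e : Item) :
    sz (step nx f e) ≤ sz e + 2 := by
  unfold step
  split
  · omega
  · split
    · omega
    · rename_i b _
      rw [sz_pair, sz_append, sz_prod e, sz_cons, sz_lnil]
      have := sz_bool_le b
      omega

lemma sz_iter_le (nx : Word → List Bool → Option Word) (f : Word → Option Bool) (n : ℕ)
    (e : Item) : sz ((step nx f)^[n] e) ≤ sz e + 2 * n := by
  induction n with
  | zero => simp
  | succ n ih =>
    rw [Function.iterate_succ_apply']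
    have := sz_step_le nx f ((step nx f)^[n] e)
    omega

lemma pt_adv (hn : PT fun p : γ × Word × List Bool => next p.1 p.2.1 p.2.2) (hq : PT q)
    {cx : δ → γ} {T : δ → List Word} {e : δ → Item} (hcx : PT cx) (hT : PT T) (he : PT e) :
    PT fun d => adv (next (cx d)) (q (cx d)) (T d) (e d) := by
  have h : PT fun p : (γ × List Word) × Item =>
      (step (next p.1.1) (inT p.1.2))^[q p.1.1] p.2 := by
    have h1 : PT fun p : (γ × List Word) × Item => q p.1.1 := hq.comp (fst' fst)
    have h2 : PT fun p : (γ × List Word) × Item => p.2 := snd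
    have h3 : PT fun p : ((γ × List Word) × Item) × Item =>
      step (next p.1.1.1) (inT p.1.1.2) p.2 := (pt_stepT hn).comp (pair (fst' fst) snd)
    refine iterate (f := fun (p : (γ × List Word) × Item) e' => step (next p.1.1) (inT p.1.2) e')
      h1 h2 h3 ?_
    obtain ⟨k, hk⟩ := hq.size_le
    have hPB : PB fun n => n + 2 * (n + 2) ^ k :=
      PB.add PB.id (PB.mul (PB.const 2) ⟨k, fun n => le_rfl⟩)
    obtain ⟨c, hc⟩ := hPB
    refine ⟨c, fun p i hi => ?_⟩
    refine (sz_iter_le _ _ _ _).trans ?_
    refine le_trans ?_ (hc (sz p))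
    have h1 := hk p.1.1
    rw [sz_nat] at h1
    have h2 : sz p.2 ≤ sz p := by rw [sz_prod p]; omega
    have h3 : sz p.1.1 ≤ sz p := by rw [sz_prod p, sz_prod p.1]; omega
    have h4 : (sz p.1.1 + 2) ^ k ≤ (sz p + 2) ^ k := Nat.pow_le_pow_left (by omega) k
    exact Nat.add_le_add h2 (Nat.mul_le_mul_left 2 (hi.trans (h1.trans h4)))
  exact h.comp (pair (pair hcx hT) he)

lemma pt_yes (hn : PT fun p : γ × Word × List Bool => next p.1 p.2.1 p.2.2) (hq : PT q)
    {cx : δ → γ} {e : δ → Item} (hcx : PT cx) (he : PT e) :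
    PT fun d => yes (next (cx d)) (q (cx d)) (e d) := by
  have h : PT fun p : γ × Item => (step (next p.1) (fun _ => some true))^[q p.1] p.2 := by
    have h1 : PT fun p : γ × Item => q p.1 := hq.comp fst
    have h2 : PT fun p : γ × Item => p.2 := snd
    have h3 : PT fun p : (γ × Item) × Item =>
      step (next p.1.1) (fun _ => some true) p.2 := (pt_stepY hn).comp (pair (fst' fst) snd)
    refine iterate (f := fun (p : γ × Item) e' => step (next p.1) (fun _ => some true) e')
      h1 h2 h3 ?_
    obtain ⟨k, hk⟩ := hq.size_le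
    have hPB : PB fun n => n + 2 * (n + 2) ^ k :=
      PB.add PB.id (PB.mul (PB.const 2) ⟨k, fun n => le_rfl⟩)
    obtain ⟨c, hc⟩ := hPB
    refine ⟨c, fun p i hi => ?_⟩
    refine (sz_iter_le _ _ _ _).trans ?_
    refine le_trans ?_ (hc (sz p))
    have h1 := hk p.1
    rw [sz_nat] at h1
    have h2 : sz p.2 ≤ sz p := by rw [sz_prod p]; omega
    have h3 : sz p.1 ≤ sz p := by rw [sz_prod p]; omega
    have h4 : (sz p.1 + 2) ^ k ≤ (sz p + 2) ^ k := Nat.pow_le_pow_left (by omega) k
    exact Nat.add_le_add h2 (Nat.mul_le_mul_left 2 (hi.trans (h1.trans h4)))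
  exact h.comp (pair hcx he)

lemma pt_no {e : δ → Item} (he : PT e) : PT fun d => no (e d) :=
  pair (fst' he) (append (snd' he) (const [false]))

lemma isNone {α : Type} [Enc α] {o : δ → Option α} (ho : PT o) : PT fun d => (o d).isNone :=
  (PT.not (PT.isSome ho)).of_eq fun d => by cases o d <;> rfl

section

variable {cx : δ → γ} {T : δ → List Word} {G : δ → List Item} {B : δ → List Word}

lemma pt_halted (hn : PT fun p : γ × Word × List Bool => next p.1 p.2.1 p.2.2) (hq : PT q)
    (hcx : PT cx) (hT : PT T) (hG : PT G) :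
    PT fun d => halted (next (cx d)) (q (cx d)) (T d) (G d) :=
  PT.filter (PT.map (f := fun d e => adv (next (cx d)) (q (cx d)) (T d) e) hG
    (pt_adv hn hq (hcx.comp fst) (hT.comp fst) snd))
    (p := fun d e => (qry (next (cx d)) e).isNone) (isNone (pt_qry hn (hcx.comp fst) snd))

lemma pt_waiting (hn : PT fun p : γ × Word × List Bool => next p.1 p.2.1 p.2.2) (hq : PT q)
    (hcx : PT cx) (hT : PT T) (hG : PT G) :
    PT fun d => waiting (next (cx d)) (q (cx d)) (T d) (G d) :=
  PT.filter (PT.map (f := fun d e => adv (next (cx d)) (q (cx d)) (T d) e) hG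
    (pt_adv hn hq (hcx.comp fst) (hT.comp fst) snd))
    (p := fun d e => (qry (next (cx d)) e).isSome) (PT.isSome (pt_qry hn (hcx.comp fst) snd))

lemma pt_pend (hn : PT fun p : γ × Word × List Bool => next p.1 p.2.1 p.2.2)
    {s : δ → Word} (hcx : PT cx) (hs : PT s) (hG : PT G) :
    PT fun d => pend (next (cx d)) (s d) (G d) := by
  refine PT.filter hG (p := fun d e => decide (qry (next (cx d)) e = some (s d))) ?_
  refine (casesOption (o := fun p : δ × Item => qry (next (cx p.1)) p.2)
    (f := fun _ => false) (g := fun p t => decide (t = s p.1)) (pt_qry hn (hcx.comp fst) snd)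
    (const false) (PT.eqWord snd (hs.comp (fst' fst)))).of_eq fun p => ?_
  rcases qry (next (cx p.1)) p.2 with _ | t <;> simp

lemma pt_pop (hn : PT fun p : γ × Word × List Bool => next p.1 p.2.1 p.2.2)
    {θ n : δ → ℕ} (hcx : PT cx) (hθ : PT θ) (hnn : PT n) (hG : PT G) :
    PT fun d => pop (next (cx d)) (θ d) (n d) (G d) :=
  PT.find? (PT.filterMap (f := fun d e => qry (next (cx d)) e) hG
    (pt_qry hn (hcx.comp fst) snd))
    (p := fun d s => decide (n d ≤ θ d * (pend (next (cx d)) s (G d)).length))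
    (PT.le (hnn.comp fst) (PT.mul (hθ.comp fst)
      (PT.length (pt_pend hn (hcx.comp fst) snd (hG.comp fst)))))

lemma pt_grow (hn : PT fun p : γ × Word × List Bool => next p.1 p.2.1 p.2.2) (hq : PT q)
    {θ : δ → ℕ} (hcx : PT cx) (hθ : PT θ) (hG : PT G) (hT : PT T) :
    PT fun d => grow (next (cx d)) (q (cx d)) (θ d) (G d) (T d) := by
  refine (casesOption (o := fun d => pop (next (cx d)) (θ d) (G d).length
      (waiting (next (cx d)) (q (cx d)) (T d) (G d)))
    (f := fun d => T d) (g := fun d s => s :: T d)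
    (pt_pop hn hcx hθ (PT.length hG) (pt_waiting hn hq hcx hT hG)) hT
    (PT.cons snd (hT.comp fst))).of_eq fun d => ?_
  unfold grow
  generalize pop (next (cx d)) (θ d) (G d).length
    (waiting (next (cx d)) (q (cx d)) (T d) (G d)) = o
  cases o <;> rfl

lemma pt_agree (ho : PT fun p : γ × Word × List Bool => out p.1 p.2.1 p.2.2)
    (hpar : PT fun p : Word × Word => par p.1 p.2)
    (hcx : PT cx) (hB : PT B) (hG : PT G) :
    PT fun d => agree (out (cx d)) (B d) (G d) :=
  PT.filter hB (p := fun d c => decide (4 * ((G d).filter fun e =>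
      par e.1 c != out (cx d) e.1 e.2).length ≤ (G d).length))
    (PT.le (PT.mul (const 4) (PT.length (PT.filter (hG.comp fst)
      (p := fun (p : δ × Word) e => par e.1 p.2 != out (cx p.1) e.1 e.2)
      (PT.bne (hpar.comp (pair (fst' snd) (snd' fst)))
        (ho.comp (pair (hcx.comp (fst' fst)) snd))))))
      (PT.length (hG.comp fst)))

end

lemma pt_err {P : δ → ℕ} (hP : PT P) (j : ℕ) : PT fun d => err (P d) j := by
  induction j with
  | zero => exact const 4
  | succ j ih => exact PT.mul (PT.mul (PT.mul (const 4) hP) ih) ih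

/-- Every pending query has polynomially bounded size. -/
lemma sz_grow_le {nx : Word → List Bool → Option Word} {q θ : ℕ} {G : List Item}
    {T : List Word} {M : ℕ}
    (h : ∀ e ∈ waiting nx q T G, ∀ s, qry nx e = some s → sz s ≤ M) :
    sz (grow nx q θ G T) ≤ sz T + (M + 1) := by
  unfold grow
  split
  · omega
  · rename_i s hs
    have h1 := List.mem_of_find?_eq_some hs
    obtain ⟨e, he, hes⟩ := List.mem_filterMap.1 h1
    have := h e he s hes
    rw [sz_cons]
    omega

lemma pt_growIter (hn : PT fun p : γ × Word × List Bool => next p.1 p.2.1 p.2.2) (hq : PT q)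
    {θ n : δ → ℕ} {cx : δ → γ} {T : δ → List Word} {G : δ → List Item}
    (hcx : PT cx) (hθ : PT θ) (hG : PT G) (hT : PT T) (hnn : PT n) :
    PT fun d => (grow (next (cx d)) (q (cx d)) (θ d) (G d))^[n d] (T d) := by
  refine iterate (f := fun d T' => grow (next (cx d)) (q (cx d)) (θ d) (G d) T') hnn hT
    (pt_grow hn hq (hcx.comp fst) (hθ.comp fst) (hG.comp fst) snd) ?_
  obtain ⟨k1, hk1⟩ := hn.size_le
  obtain ⟨k2, hk2⟩ := hcx.size_le
  obtain ⟨k3, hk3⟩ := hG.size_le
  obtain ⟨k4, hk4⟩ := hq.size_le
  obtain ⟨k5, hk5⟩ := hT.size_le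
  obtain ⟨k6, hk6⟩ := hnn.size_le
  -- size of a pending query
  let A : ℕ → ℕ := fun n => (n + 2) ^ k2
  let D : ℕ → ℕ := fun n => (n + 2) ^ k3 + 2 * (A n + 2) ^ k4
  let E : ℕ → ℕ := fun n => (A n + D n + 1 + 2) ^ k1
  have hA : PB A := ⟨k2, fun n => le_rfl⟩
  have hD : PB D := PB.add ⟨k3, fun n => le_rfl⟩ (PB.mul (PB.const 2)
    (PB.pow (PB.add hA (PB.const 2)) k4))
  have hE : PB E := PB.pow (PB.add (PB.add (PB.add hA hD) (PB.const 1)) (PB.const 2)) k1
  obtain ⟨c, hc⟩ := PB.add (F := fun n => (n + 2) ^ k5)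
    (G := fun n => (n + 2) ^ k6 * (E n + 1)) ⟨k5, fun n => le_rfl⟩
    (PB.mul ⟨k6, fun n => le_rfl⟩ (PB.add hE (PB.const 1)))
  refine ⟨c, fun d i hi => ?_⟩
  have hM : ∀ T' : List Word, ∀ e ∈ waiting (next (cx d)) (q (cx d)) T' (G d), ∀ s,
      qry (next (cx d)) e = some s → sz s ≤ E (sz d) := by
    intro T' e he s hs
    obtain ⟨e0, he0, rfl⟩ := mem_waiting he
    have h1 : sz (adv (next (cx d)) (q (cx d)) T' e0) ≤ D (sz d) := by
      refine (sz_iter_le _ _ _ _).trans ?_
      have h2 := sz_mem_le he0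
      have h3 := hk3 d
      have h4 := hk4 (cx d)
      rw [sz_nat] at h4
      have h5 : (sz (cx d) + 2) ^ k4 ≤ (A (sz d) + 2) ^ k4 :=
        Nat.pow_le_pow_left (Nat.add_le_add_right (hk2 d) 2) k4
      show _ ≤ (sz d + 2) ^ k3 + 2 * (A (sz d) + 2) ^ k4
      omega
    have h2 := hk1 (cx d, (adv (next (cx d)) (q (cx d)) T' e0).1,
      (adv (next (cx d)) (q (cx d)) T' e0).2)
    simp only [sz_pair] at h2
    unfold qry at hs
    rw [hs, sz_some] at h2
    have h3 : sz (cx d) ≤ A (sz d) := hk2 d
    rw [sz_prod] at h1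
    have h4 : (sz (cx d) + (sz (adv (next (cx d)) (q (cx d)) T' e0).1
        + sz (adv (next (cx d)) (q (cx d)) T' e0).2 + 1) + 1 + 2) ^ k1 ≤ E (sz d) :=
      Nat.pow_le_pow_left (by omega) k1
    omega
  have key : ∀ i, sz ((grow (next (cx d)) (q (cx d)) (θ d) (G d))^[i] (T d))
      ≤ sz (T d) + i * (E (sz d) + 1) := by
    intro i
    induction i with
    | zero => simp
    | succ i ih =>
      rw [Function.iterate_succ_apply']
      refine (sz_grow_le (hM _)).trans ?_
      rw [Nat.succ_mul]
      omega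
  have h1 := hk6 d
  rw [sz_nat] at h1
  exact (key i).trans ((Nat.add_le_add (hk5 d) (Nat.mul_le_mul_right _ (hi.trans h1))).trans
    (hc (sz d)))

theorem pt_search (hn : PT fun p : γ × Word × List Bool => next p.1 p.2.1 p.2.2) (hq : PT q)
    (ho : PT fun p : γ × Word × List Bool => out p.1 p.2.1 p.2.2)
    (hpar : PT fun p : Word × Word => par p.1 p.2)
    {P : γ → ℕ} (hP : PT P) (j : ℕ) :
    PT fun p : (γ × List Word) × List Word × List Item =>
      search (next p.1.1) (out p.1.1) (q p.1.1) (P p.1.1) p.1.2 j p.2.1 p.2.2 := by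
  induction j with
  | zero =>
    exact pt_agree ho hpar (fst' fst) (snd' fst)
      (PT.map (f := fun (p : (γ × List Word) × List Word × List Item) e =>
        yes (next p.1.1) (q p.1.1) e) (snd' snd)
        (pt_yes hn hq (fst' (fst' fst)) snd))
  | succ j ih =>
    have hP' : PT fun p : (γ × List Word) × List Word × List Item => P p.1.1 :=
      hP.comp (fst' fst)
    have hcx : PT fun p : ((γ × List Word) × List Word × List Item) × ℕ => p.1.1.1 :=
      fst' (fst' fst)
    have hB : PT fun p : ((γ × List Word) × List Word × List Item) × ℕ => p.1.1.2 :=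
      snd' (fst' fst)
    have hG : PT fun p : ((γ × List Word) × List Word × List Item) × ℕ => p.1.2.2 :=
      snd' (snd' fst)
    have hθ : PT fun p : ((γ × List Word) × List Word × List Item) × ℕ =>
        4 * P p.1.1.1 * err (P p.1.1.1) j :=
      PT.mul (PT.mul (const 4) (hP.comp hcx)) (pt_err (hP.comp hcx) j)
    have hT := pt_growIter (δ := ((γ × List Word) × List Word × List Item) × ℕ) hn hq hcx hθ hG
      (fst' (snd' fst)) snd
    have hH := pt_halted hn hq hcx hT hG
    have hW := pt_waiting hn hq hcx hT hG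
    have hleaf := PT.cond (PT.le (PT.length hG) (PT.mul (const 2) (PT.length hH)))
      (pt_agree ho hpar hcx hB hH)
      (casesOption (pt_pop hn hcx hθ (PT.length hG) hW)
        (ih.comp (pair (pair hcx hB) (pair hT (PT.map (f := fun _ e => no e) hW (pt_no snd)))))
        (g := fun p s => search (next p.1.1.1) (out p.1.1.1) (q p.1.1.1) (P p.1.1.1) p.1.1.2 j
          ((grow (next p.1.1.1) (q p.1.1.1) (4 * P p.1.1.1 * err (P p.1.1.1) j)
            p.1.2.2)^[p.2] p.1.2.1)
          ((pend (next p.1.1.1) s (waiting (next p.1.1.1) (q p.1.1.1)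
            ((grow (next p.1.1.1) (q p.1.1.1) (4 * P p.1.1.1 * err (P p.1.1.1) j)
              p.1.2.2)^[p.2] p.1.2.1) p.1.2.2)).map no))
        (ih.comp (pair (pair (hcx.comp fst) (hB.comp fst)) (pair (hT.comp fst)
          (PT.map (f := fun _ e => no e) (pt_pend hn (hcx.comp fst) snd (hW.comp fst))
            (pt_no snd))))))
    refine (PT.flatMap' (PT.range hP') hleaf).of_eq fun p => ?_
    simp only [search]
    congr 1
    funext i
    by_cases h : p.2.2.length ≤ 2 * (halted (next p.1.1) (q p.1.1)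
        ((grow (next p.1.1) (q p.1.1) (4 * P p.1.1 * err (P p.1.1) j) p.2.2)^[i] p.2.1)
          p.2.2).length
    · simp [h]
    · simp only [h, decide_false, Bool.cond_false, if_false]
      split
      · rename_i h'
        rw [h']
      · rename_i s h'
        rw [h']

end KNo

end Pool.Agent.Lib.MP_634427_lc
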