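import Pool.Agent.Lib.MP_634427_lc.Data

/-!
# The building blocks of the algorithm are computable in polynomial time
-/

namespace Pool.Agent.Lib.MP_634427_lc

open BT

variable {γ : Type} [Enc γ]

/-! ### Inner products -/

section dot

variable {κ : Type} [DecidableEq κ] [Enc κ]

/-- number of pairs of equal keys with equal signs -/
def posc (v w : SVec κ) : ℕ :=
  (v.flatMap fun e => w.filter fun e' => decide (e.2 = e'.2) && (e.1 == e'.1)).length

/-- number of pairs of equal keys with different signs -/
def negc (v w : SVec κ) : ℕ :=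
  (v.flatMap fun e => w.filter fun e' => decide (e.2 = e'.2) && (e.1 != e'.1)).length

omit [Enc κ] in
lemma dot_eq (v w : SVec κ) : dot v w = posc v w - negc v w := by
  unfold dot posc negc
  induction v with
  | nil => simp
  | cons e v ih =>
    rw [List.map_cons, List.sum_cons, ih, List.flatMap_cons, List.flatMap_cons, List.length_append,
      List.length_append]
    have : (w.map fun e' => if e.2 = e'.2 then sgn e.1 * sgn e'.1 else 0).sum
        = ((w.filter fun e' => decide (e.2 = e'.2) && (e.1 == e'.1)).length : ℤ)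
          - (w.filter fun e' => decide (e.2 = e'.2) && (e.1 != e'.1)).length := by
      clear ih
      induction w with
      | nil => simp
      | cons e' w ih' =>
        rw [List.map_cons, List.sum_cons, ih', List.filter_cons, List.filter_cons]
        by_cases h : e.2 = e'.2
        · rcases e with ⟨b, k⟩; rcases e' with ⟨b', k'⟩
          simp only at h
          cases b <;> cases b' <;> simp [h, sgn] <;> ring
        · simp [h]
    rw [this]; push_cast; ring

variable (hinj : Function.Injective (enc : κ → BT))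
include hinj

lemma PT.posc {f g : γ → SVec κ} (hf : PT f) (hg : PT g) :
    PT fun c => MP_634427_lc.posc (f c) (g c) := by
  refine PT.length (PT.flatMap (f := fun c (e : Bool × κ) => (g c).filter fun e' =>
    decide (e.2 = e'.2) && (e.1 == e'.1)) hf ?_)
  exact PT.filter (γ := γ × Bool × κ) (l := fun p => g p.1) (p := fun p e' =>
    decide (p.2.2 = e'.2) && (p.2.1 == e'.1)) (hg.comp PT.fst)
    (PT.and (PT.eqDec hinj (PT.snd' (PT.snd' PT.fst)) (PT.snd' PT.snd))
      (PT.beqBool (PT.fst' (PT.snd' PT.fst)) (PT.fst' PT.snd)))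

lemma PT.negc {f g : γ → SVec κ} (hf : PT f) (hg : PT g) :
    PT fun c => MP_634427_lc.negc (f c) (g c) := by
  refine PT.length (PT.flatMap (f := fun c (e : Bool × κ) => (g c).filter fun e' =>
    decide (e.2 = e'.2) && (e.1 != e'.1)) hf ?_)
  exact PT.filter (γ := γ × Bool × κ) (l := fun p => g p.1) (p := fun p e' =>
    decide (p.2.2 = e'.2) && (p.2.1 != e'.1)) (hg.comp PT.fst)
    (PT.and (PT.eqDec hinj (PT.snd' (PT.snd' PT.fst)) (PT.snd' PT.snd))
      (PT.bne (PT.fst' (PT.snd' PT.fst)) (PT.fst' PT.snd)))

lemma PT.dot_nonpos {f g : γ → SVec κ} (hf : PT f) (hg : PT g) :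
    PT fun c => decide (dot (f c) (g c) ≤ 0) :=
  (PT.le (PT.posc hinj hf hg) (PT.negc hinj hf hg)).of_eq fun c => by
    rw [dot_eq]; congr 1; simp

lemma PT.dot_pos {f g : γ → SVec κ} (hf : PT f) (hg : PT g) :
    PT fun c => decide (0 < dot (f c) (g c)) :=
  (PT.lt (PT.negc hinj hf hg) (PT.posc hinj hf hg)).of_eq fun c => by
    rw [dot_eq]; congr 1; simp

omit hinj [DecidableEq κ] in
lemma PT.neg {f : γ → SVec κ} (hf : PT f) : PT fun c => MP_634427_lc.neg (f c) :=
  PT.map (f := fun _ (e : Bool × κ) => (!e.1, e.2)) hf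
    (PT.pair (PT.not (PT.fst' PT.snd)) (PT.snd' PT.snd))

lemma PT.pstep {zs : γ → List (SVec κ)} {w : γ → SVec κ} (hzs : PT zs) (hw : PT w) :
    PT fun c => MP_634427_lc.pstep (zs c) (w c) := by
  have h1 : PT fun c => (zs c).find? fun z => decide (dot (w c) z ≤ 0) :=
    PT.find? (p := fun c z => decide (dot (w c) z ≤ 0)) hzs
      (PT.dot_nonpos hinj (hw.comp PT.fst) PT.snd)
  refine (PT.casesOption (g := fun c z => w c ++ z) h1 hw
    (PT.append (hw.comp PT.fst) PT.snd)).of_eq fun c => ?_
  unfold MP_634427_lc.pstep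
  rcases (zs c).find? (fun z => decide (dot (w c) z ≤ 0)) <;> rfl

omit hinj in
lemma sz_percep_le (zs : List (SVec κ)) (i : ℕ) : sz (percep zs i) ≤ i * sz zs := by
  induction i with
  | zero => simp [percep]
  | succ i ih =>
    unfold percep at ih ⊢
    rw [Function.iterate_succ_apply']
    generalize (pstep zs)^[i] [] = w at ih ⊢
    unfold pstep
    rcases h : zs.find? (fun z => decide (dot w z ≤ 0)) with _ | z
    · simp only; rw [Nat.succ_mul]; omega
    · have := sz_mem_le (List.mem_of_find?_eq_some h)
      simp only [sz_append]; rw [Nat.succ_mul]; omega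

lemma PT.percep {zs : γ → List (SVec κ)} {K : γ → ℕ} (hzs : PT zs) (hK : PT K) :
    PT fun c => MP_634427_lc.percep (zs c) (K c) := by
  refine PT.iterate (f := fun c w => MP_634427_lc.pstep (zs c) w) hK (PT.const [])
    (PT.pstep hinj (hzs.comp PT.fst) PT.snd) ?_
  obtain ⟨a, ha⟩ := hzs.size_le
  obtain ⟨b, hb⟩ := hK.size_le
  refine ⟨b + a, fun c i hi => ?_⟩
  refine (sz_percep_le (zs c) i).trans ?_
  rw [pow_add]
  have := hb c
  rw [sz_nat] at this
  exact Nat.mul_le_mul (hi.trans this) (ha c)

lemma PT.accepts {zs : γ → List (SVec κ)} {K : γ → ℕ} (hzs : PT zs) (hK : PT K) :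
    PT fun c => MP_634427_lc.accepts (zs c) (K c) :=
  -- the perceptron is computed once and passed along
  (PT.comp (f := fun p : List (SVec κ) × SVec κ => p.1.all fun z => decide (0 < dot p.2 z))
    (PT.all (p := fun (p : List (SVec κ) × SVec κ) z => decide (0 < dot p.2 z)) PT.fst
      (PT.dot_pos hinj (PT.snd' PT.fst) PT.snd)) (PT.pair hzs (PT.percep hinj hzs hK))).of_eq
    fun _ => rfl

end dot

/-! ### Parities -/

lemma PT.par {f g : γ → Word} (hf : PT f) (hg : PT g) :
    PT fun c => MP_634427_lc.par (f c) (g c) := by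
  let st : Word × Bool → Bool → Word × Bool := fun s a =>
    (s.1.tail, Bool.xor s.2 (a && s.1.headD false))
  have hst : PT fun p : (Word × Bool) × Bool => st p.1 p.2 :=
    PT.pair (PT.tail (PT.fst' PT.fst)) (PT.xor (PT.snd' PT.fst)
      (PT.and PT.snd (PT.headD (PT.fst' PT.fst) (PT.const _))))
  have hsz : ∀ (l : Word) (s : Word × Bool), sz (l.foldl st s) ≤ sz s.1 + 2 := by
    intro l
    induction l with
    | nil => intro s; have := sz_bool_le s.2; simp [sz_prod s]; omega
    | cons a l ih =>
      intro s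
      refine (ih _).trans ?_
      have : sz s.1.tail ≤ sz s.1 := sz_suffix_le (List.tail_suffix _)
      simp only [st]; omega
  have h1 := PT.foldl (f := fun (_ : γ) s a => st s a) hf (PT.pair hg (PT.const false))
    (hst.comp PT.snd) (by
      obtain ⟨k, hk⟩ := hg.size_le
      obtain ⟨e, he⟩ := PB.add (F := fun n => (n + 2) ^ k) ⟨k, fun n => le_rfl⟩ (PB.const 2)
      refine ⟨e, fun c l' _ => (hsz _ _).trans ?_⟩
      have := hk c
      have := he (sz c)
      beta_reduce at this
      simp only
      omega)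
  refine (PT.snd' h1).of_eq fun c => ?_
  have key : ∀ (l r : Word) (b : Bool), (l.foldl st (r, b)).2 = Bool.xor b (MP_634427_lc.par l r) := by
    intro l
    induction l with
    | nil => intro r b; simp [MP_634427_lc.par]
    | cons a l ih =>
      intro r b
      rw [List.foldl_cons]
      show (l.foldl st (r.tail, Bool.xor b (a && r.headD false))).2 = _
      rw [ih]
      rcases r with _ | ⟨b', r⟩
      · have : ∀ l : Word, MP_634427_lc.par l [] = false := by
          intro l; cases l <;> rfl
        simp [this]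
      · simp [MP_634427_lc.par]
  rw [key]; simp

lemma addw_eq (r c : Word) : addw r c = (List.range (max r.length c.length)).map
    fun i => xor (r.getD i false) (c.getD i false) := by
  induction r generalizing c with
  | nil =>
    apply List.ext_getElem?
    intro i
    simp only [addw, List.length_nil, Nat.zero_max, List.getElem?_map]
    by_cases h : i < c.length
    · simp [h]
    · simp [h]
  | cons a r ih =>
    cases c with
    | nil =>
      apply List.ext_getElem?
      intro i
      by_cases h : i < (a :: r).length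
      · simp only [addw]
        simp at h
        simp [h]
      · simp only [addw]
        simp at h
        simp [h]
    | cons b c =>
      have : max (a :: r).length (b :: c).length = max r.length c.length + 1 := by
        simp [Nat.succ_max_succ]
      rw [this, List.range_succ_eq_map, List.map_cons, List.map_map, addw, ih]
      rfl

lemma PT.max {f g : γ → ℕ} (hf : PT f) (hg : PT g) : PT fun c => Max.max (f c) (g c) :=
  (PT.add hf (PT.sub hg hf)).of_eq fun c => by omega

lemma PT.addw {f g : γ → Word} (hf : PT f) (hg : PT g) :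
    PT fun c => MP_634427_lc.addw (f c) (g c) :=
  (PT.map (f := fun c i => Bool.xor ((f c).getD i false) ((g c).getD i false))
    (PT.range (PT.max (PT.length hf) (PT.length hg)))
    (PT.xor (PT.getLD PT.snd (hf.comp PT.fst) (PT.const false))
      (PT.getLD PT.snd (hg.comp PT.fst) (PT.const false)))).of_eq fun _ => (addw_eq _ _).symm

lemma PT.ext {B : γ → List Word} (hB : PT B) : PT fun c => MP_634427_lc.ext (B c) :=
  PT.flatMap (f := fun _ (c : Word) => [c ++ [false], c ++ [true]]) hB
    (PT.cons (PT.append PT.snd (PT.const _)) (PT.cons (PT.append PT.snd (PT.const _))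
      (PT.const _)))

lemma PT.unitw {n : γ → ℕ} (hn : PT n) : PT fun c => MP_634427_lc.unitw (n c) :=
  PT.append (PT.replicate hn (PT.const false)) (PT.const [true])

lemma PT.addGen {g : γ → Word} {R : γ → List Word} (hg : PT g) (hR : PT R) :
    PT fun c => MP_634427_lc.addGen (g c) (R c) :=
  PT.append hR (PT.map (f := fun c r => MP_634427_lc.addw (g c) r) hR
    (PT.addw (hg.comp PT.fst) PT.snd))

lemma length_addw_le {r s : Word} {j : ℕ} (hr : r.length ≤ j) (hs : s.length ≤ j) :
    (addw r s).length ≤ j := by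
  rw [addw_eq]; simp; omega

lemma sz_list_le {α : Type} [Enc α] (l : List α) (b : ℕ) (h : ∀ a ∈ l, sz a ≤ b) :
    sz l ≤ l.length * (b + 1) := by
  induction l with
  | nil => simp
  | cons a l ih =>
    have h1 := ih fun x hx => h x (List.mem_cons_of_mem _ hx)
    have h2 := h a List.mem_cons_self
    simp only [sz_cons, List.length_cons]
    rw [Nat.succ_mul]; omega

lemma length_span_le (N : ℕ) (G : List Word) : (span N G).length ≤ max N 1 := by
  cases G with
  | nil => simp [span]
  | cons g G => simp [span]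

lemma length_mem_span (N : ℕ) (G : List Word) (j : ℕ) (hG : ∀ g ∈ G, g.length ≤ j) :
    ∀ r ∈ span N G, r.length ≤ j := by
  induction G with
  | nil => intro r hr; simp [span] at hr; simp [hr]
  | cons g G ih =>
    intro r hr
    have ih' := ih fun g' hg' => hG g' (List.mem_cons_of_mem _ hg')
    have hg := hG g List.mem_cons_self
    have hr' : r ∈ (addGen g (span N G)).take N := hr
    have := List.mem_of_mem_take hr'
    unfold addGen at this
    rcases List.mem_append.1 this with h | h
    · exact ih' r h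
    · obtain ⟨s, hs, rfl⟩ := List.mem_map.1 h
      exact length_addw_le hg (ih' s hs)

lemma PT.span {N : γ → ℕ} {G : γ → List Word} (hN : PT N) (hG : PT G) :
    PT fun c => MP_634427_lc.span (N c) (G c) := by
  refine PT.foldr (f := fun c g R => (MP_634427_lc.addGen g R).take (N c)) hG (PT.const [[]])
    (PT.take (hN.comp PT.fst) (PT.addGen (PT.fst' PT.snd) (PT.snd' PT.snd))) ?_
  obtain ⟨a, ha⟩ := hN.size_le
  obtain ⟨b, hb⟩ := hG.size_le
  obtain ⟨e, he⟩ := PB.mul (F := fun n => (n + 2) ^ a + 1) (G := fun n => 2 * (n + 2) ^ b + 1)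
    (PB.add ⟨a, fun n => le_rfl⟩ (PB.const 1))
    (PB.add (PB.mul (PB.const 2) ⟨b, fun n => le_rfl⟩) (PB.const 1))
  refine ⟨e, fun c l' hl' => ?_⟩
  have hN' := ha c
  rw [sz_nat] at hN'
  have hG' := hb c
  refine le_trans ?_ (he (sz c))
  have hlen : ∀ g ∈ l', g.length ≤ sz (G c) := fun g hg =>
    (length_le_sz g).trans (sz_mem_le (hl'.subset hg))
  refine (sz_list_le _ (2 * sz (G c)) fun r hr => ?_).trans ?_
  · exact (sz_word_le r).trans (Nat.mul_le_mul_left 2 (length_mem_span (N c) l' _ hlen r hr))
  · refine Nat.mul_le_mul ?_ (by omega)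
    exact (length_span_le (N c) l').trans (by omega)

lemma PT.pairs {B : γ → List Word} (hB : PT B) : PT fun c => MP_634427_lc.pairs (B c) :=
  PT.flatMap (f := fun c w => ((B c).filter fun c' => decide (w ≠ c')).map fun c' => (w, c')) hB
    (PT.map (γ := γ × Word) (f := fun p c' => (p.2, c'))
      (PT.filter (γ := γ × Word) (l := fun p => B p.1) (p := fun p c' => decide (p.2 ≠ c'))
        (hB.comp PT.fst) ((PT.not (PT.eqDec enc_word_injective (PT.snd' PT.fst) PT.snd)).of_eq
          fun p => by simp))
      (PT.pair (PT.snd' PT.fst) PT.snd))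

lemma PT.sepStep {R : γ → List Word} {s : γ → List Word × List (Word × Word)} (hR : PT R)
    (hs : PT s) : PT fun c => MP_634427_lc.sepStep (R c) (s c) := by
  have hr : PT fun c => ((R c).find? fun r => decide ((s c).2.length ≤
      2 * ((s c).2.filter fun p => MP_634427_lc.par r p.1 != MP_634427_lc.par r p.2).length)).getD
        [] := by
    refine PT.getD (PT.find? (p := fun c r => decide ((s c).2.length ≤
      2 * ((s c).2.filter fun p => MP_634427_lc.par r p.1 != MP_634427_lc.par r p.2).length)) hR
      ?_) (PT.const [])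
    refine PT.le (PT.length (PT.snd' (hs.comp PT.fst))) (PT.mul (PT.const 2) (PT.length ?_))
    exact PT.filter (γ := γ × Word) (l := fun q => (s q.1).2)
      (p := fun q p => MP_634427_lc.par q.2 p.1 != MP_634427_lc.par q.2 p.2)
      (PT.snd' (hs.comp PT.fst))
      (PT.bne (PT.par (PT.snd' PT.fst) (PT.fst' PT.snd)) (PT.par (PT.snd' PT.fst) (PT.snd' PT.snd)))
  have h2 : PT fun q : γ × Word => (q.2 :: (s q.1).1,
      (s q.1).2.filter fun p => MP_634427_lc.par q.2 p.1 == MP_634427_lc.par q.2 p.2) :=
    PT.pair (PT.cons PT.snd (PT.fst' (hs.comp PT.fst)))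
      (PT.filter (γ := γ × Word) (l := fun q => (s q.1).2)
        (p := fun q p => MP_634427_lc.par q.2 p.1 == MP_634427_lc.par q.2 p.2)
        (PT.snd' (hs.comp PT.fst))
        (PT.beqBool (PT.par (PT.snd' PT.fst) (PT.fst' PT.snd))
          (PT.par (PT.snd' PT.fst) (PT.snd' PT.snd))))
  exact PT.ite (p := fun c => (s c).2.length = 0) (PT.isZero (PT.length (PT.snd' hs))) hs
    (h2.comp (PT.pair PT.id hr))

lemma sepStep_inv (R : List Word) (B : List Word) (i : ℕ) :
    ((sepStep R)^[i] ([], pairs B)).1.length ≤ i ∧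
    (∀ r ∈ ((sepStep R)^[i] ([], pairs B)).1, r ∈ R ∨ r = []) ∧
    List.Sublist ((sepStep R)^[i] ([], pairs B)).2 (pairs B) := by
  induction i with
  | zero => simp
  | succ i ih =>
    rw [Function.iterate_succ_apply']
    generalize (sepStep R)^[i] ([], pairs B) = s at ih ⊢
    obtain ⟨h1, h2, h3⟩ := ih
    unfold sepStep
    split_ifs with h
    · exact ⟨by omega, h2, h3⟩
    · refine ⟨by simp; omega, ?_, List.filter_sublist.trans h3⟩
      intro r hr
      rcases List.mem_cons.1 hr with hr | hr
      · rw [hr]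
        rcases hf : R.find? (fun r => decide (s.2.length ≤
          2 * (s.2.filter fun p => par r p.1 != par r p.2).length)) with _ | r'
        · right; rfl
        · left; exact List.mem_of_find?_eq_some hf
      · exact h2 r hr

lemma PT.compress {N : γ → ℕ} {R B : γ → List Word} (hN : PT N) (hR : PT R) (hB : PT B) :
    PT fun c => MP_634427_lc.compress (N c) (R c) (B c) := by
  refine PT.span hN (PT.fst' ?_)
  refine PT.iterate (f := fun c s => MP_634427_lc.sepStep (R c) s) hN
    (PT.pair (PT.const []) (PT.pairs hB)) (PT.sepStep (hR.comp PT.fst) PT.snd) ?_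
  obtain ⟨a, ha⟩ := hN.size_le
  obtain ⟨b, hb⟩ := hR.size_le
  obtain ⟨d, hd⟩ := (PT.pairs hB).size_le
  obtain ⟨e, he⟩ := PB.add (PB.add (PB.mul (F := fun n => (n + 2) ^ a)
    (G := fun n => (n + 2) ^ b + 1) ⟨a, fun n => le_rfl⟩
    (PB.add ⟨b, fun n => le_rfl⟩ (PB.const 1))) (G := fun n => (n + 2) ^ d)
      ⟨d, fun n => le_rfl⟩) (PB.const 1)
  refine ⟨e, fun c i hi => le_trans ?_ (he (sz c))⟩
  obtain ⟨h1, h2, h3⟩ := sepStep_inv (R c) (B c) i
  have hN' := ha c
  rw [sz_nat] at hN'
  have h4 : sz ((MP_634427_lc.sepStep (R c))^[i] ([], MP_634427_lc.pairs (B c))).1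
      ≤ i * (sz (R c) + 1) := by
    refine (sz_list_le _ (sz (R c)) fun r hr => ?_).trans (Nat.mul_le_mul_right _ h1)
    rcases h2 r hr with h | h
    · exact sz_mem_le h
    · rw [h]; simp
  have h5 := sz_sublist_le h3
  have h6 := hd c
  have h7 := hb c
  have h8 : i * (sz (R c) + 1) ≤ (sz c + 2) ^ a * ((sz c + 2) ^ b + 1) :=
    Nat.mul_le_mul (hi.trans hN') (by omega)
  show sz ((MP_634427_lc.sepStep (R c))^[i] ([], MP_634427_lc.pairs (B c))) ≤ _
  rw [sz_prod]
  beta_reduce
  omega

lemma PT.signed {κ : Type} [Enc κ] {α : Type} [Enc α] {z : α → Word → SVec κ}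
    (hz : PT fun p : α × Word => z p.1 p.2) {a : γ → α} {c r : γ → Word} (ha : PT a) (hc : PT c)
    (hr : PT r) : PT fun x => MP_634427_lc.signed (z (a x)) (c x) (r x) := by
  have hz' : PT fun x => z (a x) (r x) := PT.comp₂ hz ha hr
  refine (PT.cond (PT.par hr hc) (PT.neg hz') hz').of_eq fun x => ?_
  unfold MP_634427_lc.signed
  cases MP_634427_lc.par (r x) (c x) <;> rfl

end Pool.Agent.Lib.MP_634427_lc
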