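import Pool.Agent.Lib.MP_634427_lc.Final

/-!
# A general framework: pruning procedures find unique witnesses

A pruning procedure receives parity tests `R` that are orthogonal on a list `B` of candidates for
an initial part of the unique witness; it returns few members of `B`, the right one among them.
-/

namespace Pool.Agent.Lib.MP_634427_lc

/-- Unique witnesses can be found in polynomial time. -/
def UniqueSolvable : Prop :=
  ∀ (α : Type) [Enc α] (Rel : α × Word → Bool) (m : α → ℕ), PT Rel → PT m →
    ∃ sol : α → Word, PT sol ∧ ∀ a u, u.length = m a → Rel (a, u) = true →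
      (∀ u', u'.length = m a → Rel (a, u') = true → u' = u) → sol a = u

namespace Frame

section loop

variable (prune : List Word → List Word → List Word) (N : ℕ)

/-- One stage: extend the candidates, prune them, compress the tests. -/
def stage (j : ℕ) (st : List Word × List Word) : List Word × List Word :=
  let R1 := addGen (unitw j) st.2
  let B := (prune R1 (ext st.1)).take N
  (B, compress N R1 B)

/-- The state after `j` stages. -/
def loop (j : ℕ) : List Word × List Word :=
  Nat.rec (motive := fun _ => List Word × List Word) ([[]], [[]]) (fun i st => stage prune N i st) j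

lemma loop_succ (j : ℕ) : loop prune N (j + 1) = stage prune N j (loop prune N j) := rfl

/-- The requirements on a pruning procedure. -/
structure IsPrune (K m : ℕ) : Prop where
  sub : ∀ R B, ∀ c ∈ prune R B, c ∈ B
  nodup : ∀ R B : List Word, B.Nodup → (prune R B).Nodup
  len : ∀ R B : List Word, B.Nodup → R ≠ [] → Orth R B → (∀ r ∈ R, r.length ≤ m) →
    (prune R B).length ≤ K

variable {prune N}

lemma inv_stage {K m j : ℕ} {st : List Word × List Word} (hp : IsPrune prune K m)
    (hst : Inv j st) (hj : j + 1 ≤ m) (hN : 2 * K ^ 2 + 2 ≤ N) :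
    Inv (j + 1) (stage prune N j st) ∧
      (prune (addGen (unitw j) st.2) (ext st.1)).length ≤ N := by
  have horth := Orth.ext j hst.orth hst.len hst.lenR
  have hR1 : addGen (unitw j) st.2 ≠ [] := by
    unfold addGen
    intro h
    exact hst.ne (List.append_eq_nil_iff.1 h).1
  have hlen := hp.len (addGen (unitw j) st.2) (ext st.1) (nodup_ext _ hst.nodup) hR1 horth
    (fun r hr => (lenR1 hst.lenR r hr).trans hj)
  have hN0 : 0 < N := by omega
  have hle : K ≤ N := by nlinarith [sq_nonneg ((K : ℕ) : ℤ)]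
  have htake := List.take_of_length_le (hlen.trans hle)
  have hB : (stage prune N j st).1 = prune (addGen (unitw j) st.2) (ext st.1) := htake
  have hsub : ∀ c ∈ (stage prune N j st).1, c ∈ ext st.1 := fun c hc => by
    rw [hB] at hc; exact hp.sub _ _ c hc
  have hnd : (stage prune N j st).1.Nodup := by
    rw [hB]; exact hp.nodup _ _ (nodup_ext _ hst.nodup)
  refine ⟨⟨hnd, ?_, compress_ne_nil N hN0 _ _, ?_, ?_⟩, hlen.trans hle⟩
  · intro c hc
    obtain ⟨c0, hc0, b, rfl⟩ := (mem_ext _ _).1 (hsub c hc)
    rw [List.length_append, hst.len c0 hc0]; rfl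
  · exact length_mem_compress N _ _ (j + 1) (lenR1 hst.lenR)
  · refine orth_compress N hnd hR1 (horth.subset hsub) ?_
    have : (stage prune N j st).1.length ≤ K := by rw [hB]; exact hlen
    have h2 : (stage prune N j st).1.length ^ 2 ≤ K ^ 2 := Nat.pow_le_pow_left this 2
    show 2 * (stage prune N j st).1.length ^ 2 + 2 ≤ N
    omega

lemma inv_loop {K m : ℕ} (hp : IsPrune prune K m) (hN : 2 * K ^ 2 + 2 ≤ N) (j : ℕ)
    (hj : j ≤ m) : Inv j (loop prune N j) := by
  induction j with
  | zero => exact inv_zero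
  | succ j ih => exact (inv_stage hp (ih (by omega)) hj hN).1

lemma mem_loop {K m : ℕ} (hp : IsPrune prune K m) (hN : 2 * K ^ 2 + 2 ≤ N) (u : Word)
    (hu : u.length = m)
    (hmem : ∀ (R B : List Word) (j : ℕ), j ≤ m → (∀ r ∈ R, r.length ≤ j) → u.take j ∈ B →
      u.take j ∈ prune R B)
    (j : ℕ) (hj : j ≤ m) : u.take j ∈ (loop prune N j).1 := by
  induction j with
  | zero => simp [loop]
  | succ j ih =>
    have ih' := ih (by omega)
    have hst := inv_loop (N := N) hp hN j (by omega)
    have hlen := (inv_stage hp hst hj hN).2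
    rw [loop_succ]
    show u.take (j + 1) ∈ List.take N _
    rw [List.take_of_length_le hlen]
    have hlu : j < u.length := by omega
    refine hmem _ _ (j + 1) hj (lenR1 hst.lenR) ((mem_ext _ _).2 ⟨u.take j, ih', u[j], ?_⟩)
    exact (List.take_append_getElem hlu).symm

end loop

lemma pt_stage {γ α : Type} [Enc γ] [Enc α] {prune : α → List Word → List Word → List Word}
    (hp : PT fun p : α × List Word × List Word => prune p.1 p.2.1 p.2.2) {a : γ → α}
    {N j : γ → ℕ} {st : γ → List Word × List Word} (ha : PT a) (hN : PT N) (hj : PT j)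
    (hst : PT st) : PT fun c => stage (prune (a c)) (N c) (j c) (st c) := by
  have hR1 : PT fun c => addGen (unitw (j c)) (st c).2 :=
    PT.addGen (PT.unitw hj) (PT.snd' hst)
  have hB : PT fun c => (prune (a c) (addGen (unitw (j c)) (st c).2) (ext (st c).1)).take (N c) :=
    PT.take hN (hp.comp (PT.pair ha (PT.pair hR1 (PT.ext (PT.fst' hst)))))
  exact (PT.comp (f := fun q : (List Word × List Word) × ℕ =>
    (q.1.1, compress q.2 q.1.2 q.1.1))
    (PT.pair (PT.fst' PT.fst) (PT.compress PT.snd (PT.snd' PT.fst) (PT.fst' PT.fst)))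
    (PT.pair (PT.pair hB hR1) hN)).of_eq fun _ => rfl

lemma loop_size {prune : List Word → List Word → List Word}
    (hsub : ∀ R B, ∀ c ∈ prune R B, c ∈ B) (N j : ℕ) :
    (∀ c ∈ (loop prune N j).1, c.length = j) ∧ (loop prune N j).1.length ≤ max N 1 ∧
    (∀ r ∈ (loop prune N j).2, r.length ≤ j) ∧ (loop prune N j).2.length ≤ max N 1 := by
  induction j with
  | zero => simp [loop]
  | succ j ih =>
    obtain ⟨h1, h2, h3, h4⟩ := ih
    rw [loop_succ]
    refine ⟨?_, ?_, ?_, ?_⟩
    · intro c hc
      have hc' := hsub _ _ c (List.mem_of_mem_take hc)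
      obtain ⟨c0, hc0, b, rfl⟩ := (mem_ext _ _).1 hc'
      rw [List.length_append, h1 c0 hc0]; rfl
    · exact (List.length_take_le _ _).trans (le_max_left _ _)
    · exact length_mem_compress N _ _ (j + 1) (lenR1 h3)
    · exact length_span_le _ _

lemma sz_loop_le {prune : List Word → List Word → List Word}
    (hsub : ∀ R B, ∀ c ∈ prune R B, c ∈ B) (N j : ℕ) :
    sz (loop prune N j) ≤ 2 * ((N + 1) * (2 * j + 1)) + 1 := by
  obtain ⟨h1, h2, h3, h4⟩ := loop_size hsub N j
  have h5 : sz (loop prune N j).1 ≤ (N + 1) * (2 * j + 1) := by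
    refine (sz_list_le _ (2 * j) fun r hr => ?_).trans (Nat.mul_le_mul_right _ (by omega))
    exact (sz_word_le r).trans (by rw [h1 r hr])
  have h6 : sz (loop prune N j).2 ≤ (N + 1) * (2 * j + 1) := by
    refine (sz_list_le _ (2 * j) fun r hr => ?_).trans (Nat.mul_le_mul_right _ (by omega))
    exact (sz_word_le r).trans (Nat.mul_le_mul_left 2 (h3 r hr))
  rw [sz_prod]; omega

lemma pt_loop {γ α : Type} [Enc γ] [Enc α] {prune : α → List Word → List Word → List Word}
    (hp : PT fun p : α × List Word × List Word => prune p.1 p.2.1 p.2.2)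
    (hsub : ∀ a R B, ∀ c ∈ prune a R B, c ∈ B) {a : γ → α} {N j : γ → ℕ}
    (ha : PT a) (hN : PT N) (hj : PT j) :
    PT fun c => loop (prune (a c)) (N c) (j c) := by
  have hst : PT fun q : γ × ℕ × (List Word × List Word) =>
      stage (prune (a q.1)) (N q.1) q.2.1 q.2.2 :=
    pt_stage hp (ha.comp PT.fst) (hN.comp PT.fst) (PT.fst' PT.snd) (PT.snd' PT.snd)
  refine PT.natRec (s := fun _ : γ => (([[]], [[]]) : List Word × List Word))
    (f := fun c i st => stage (prune (a c)) (N c) i st) hj (PT.const _) hst ?_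
  obtain ⟨b, hb⟩ := hN.size_le
  obtain ⟨d, hd⟩ := hj.size_le
  obtain ⟨e, he⟩ := PB.add (PB.mul (PB.const 2) (PB.mul (F := fun n => (n + 2) ^ b + 1)
    (G := fun n => 2 * (n + 2) ^ d + 1) (PB.add ⟨b, fun n => le_rfl⟩ (PB.const 1))
    (PB.add (PB.mul (PB.const 2) ⟨d, fun n => le_rfl⟩) (PB.const 1)))) (PB.const 1)
  refine ⟨e, fun c i hi => ?_⟩
  have h1 := hb c
  have h2 := hd c
  rw [sz_nat] at h1 h2
  refine (sz_loop_le (hsub (a c)) (N c) i).trans (le_trans ?_ (he (sz c)))
  have : (N c + 1) * (2 * i + 1) ≤ ((sz c + 2) ^ b + 1) * (2 * (sz c + 2) ^ d + 1) :=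
    Nat.mul_le_mul (by omega) (by omega)
  beta_reduce
  omega

/-- A polynomial-time pruning procedure finds unique witnesses. -/
theorem exists_solver {α : Type} [Enc α] {Rel : α × Word → Bool} {m : α → ℕ}
    (hRel : PT Rel) (hm : PT m) (prune : α → List Word → List Word → List Word) (K : α → ℕ)
    (hp : PT fun p : α × List Word × List Word => prune p.1 p.2.1 p.2.2) (hK : PT K)
    (hprune : ∀ a, IsPrune (prune a) (K a) (m a))
    (hmem : ∀ a u, u.length = m a → Rel (a, u) = true →
      (∀ u', u'.length = m a → Rel (a, u') = true → u' = u) →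
      ∀ (R B : List Word) (j : ℕ), j ≤ m a → (∀ r ∈ R, r.length ≤ j) → u.take j ∈ B →
        u.take j ∈ prune a R B) :
    ∃ sol : α → Word, PT sol ∧ ∀ a u, u.length = m a → Rel (a, u) = true →
      (∀ u', u'.length = m a → Rel (a, u') = true → u' = u) → sol a = u := by
  let N : α → ℕ := fun a => 2 * K a ^ 2 + 2
  have hNp : PT N := PT.add (PT.mul (PT.const 2) (PT.pow hK 2)) (PT.const 2)
  let cand : α → List Word := fun a => (loop (prune a) (N a) (m a)).1
  have hcand : PT cand :=
    PT.fst' (pt_loop (γ := α) hp (fun a => (hprune a).sub) PT.id hNp hm)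
  refine ⟨fun a => ((cand a).find? fun u => decide (u.length = m a) && Rel (a, u)).getD [],
    PT.getD (PT.find? (p := fun a u => decide (u.length = m a) && Rel (a, u)) hcand
      (PT.and (PT.eqNat (PT.length PT.snd) (hm.comp PT.fst)) (hRel.comp (PT.pair PT.fst PT.snd))))
      (PT.const []), ?_⟩
  intro a u hu hRu huniq
  have hmemu : u ∈ cand a := by
    have h := mem_loop (N := N a) (hprune a) le_rfl u hu (hmem a u hu hRu huniq) (m a) le_rfl
    rwa [← hu, List.take_length, hu] at h
  have hsome : ((cand a).find? fun u => decide (u.length = m a) && Rel (a, u)) = some u := by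
    rcases hfind : (cand a).find? fun u => decide (u.length = m a) && Rel (a, u) with _ | u'
    · have := List.find?_eq_none.1 hfind u hmemu
      simp [hu, hRu] at this
    · have h1 := List.find?_some hfind
      simp only [Bool.and_eq_true, decide_eq_true_eq] at h1
      rw [hfind, huniq u' h1.1 h1.2]
  show ((cand a).find? fun u => decide (u.length = m a) && Rel (a, u)).getD [] = u
  rw [hsome]; rfl

end Frame

theorem UniqueSolvable.inNP_imp_inRP (hsolve : UniqueSolvable) (L : Set Word) (hL : InNP L) :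
    InRP L := by
  obtain ⟨V, c, hV, hL⟩ := hL
  let M : Word → ℕ := fun x => wb c x + 1
  have hM : PT M := PT.succ (pt_wb c)
  let n : Word → ℕ := fun x => 2 * M x
  have hn : PT n := PT.mul (PT.const 2) hM
  -- the relation with a prescribed weight
  let Rel : (Word × (Word × ℕ)) × Word → Bool := fun p =>
    relx V (p.1.1, p.2) && decide (wt (lg (n p.1.1)).1 p.1.2.1 p.2 = p.1.2.2)
  have hRel : PT Rel := PT.and ((pt_relx hV).comp (PT.pair (PT.fst' PT.fst) PT.snd))
    (PT.eqNat (pt_wt (hn.comp (PT.fst' PT.fst)) (PT.fst' (PT.snd' PT.fst)) PT.snd)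
      (PT.snd' (PT.snd' PT.fst)))
  obtain ⟨sol, hsol, hs⟩ := hsolve (Word × (Word × ℕ)) Rel (fun a => M a.1) hRel
    (hM.comp PT.fst)
  -- the randomised algorithm
  let A : Word × Word → Bool := fun p => (List.range (M p.1 * (lg (n p.1)).2 + 1)).any fun W =>
    decide ((sol (p.1, (p.2, W))).length = M p.1) && relx V (p.1, sol (p.1, (p.2, W)))
  have hA : PT A := by
    refine PT.any (p := fun (p : Word × Word) W =>
      decide ((sol (p.1, (p.2, W))).length = M p.1) && relx V (p.1, sol (p.1, (p.2, W))))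
      (PT.range (PT.succ (PT.mul (hM.comp PT.fst) (PT.snd' (pt_lg (hn.comp PT.fst)))))) ?_
    have h1 : PT fun q : (Word × Word) × ℕ => sol (q.1.1, (q.1.2, q.2)) :=
      hsol.comp (PT.pair (PT.fst' PT.fst) (PT.pair (PT.snd' PT.fst) PT.snd))
    exact PT.and (PT.eqNat (PT.length h1) (hM.comp (PT.fst' PT.fst)))
      ((pt_relx hV).comp (PT.pair (PT.fst' PT.fst) h1))
  -- the number of random bits
  obtain ⟨e, he⟩ := PB.mul (F := fun k => k ^ c + c + 1) (G := fun k => 2 * (k ^ c + c + 1))
    (PB.add (PB.add (PB.pow PB.id c) (PB.const c)) (PB.const 1))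
    (PB.mul (PB.const 2) (PB.add (PB.add (PB.pow PB.id c) (PB.const c)) (PB.const 1)))
  refine ⟨A, 3 ^ e, hA, fun x => ⟨fun hx => ?_, fun hx y => ?_⟩⟩
  · let F : Set Word := {u | u.length = M x ∧ relx V (x, u) = true}
    have hF : F.Nonempty := by
      obtain ⟨u, hu, hVu⟩ := (hL x).1 hx
      exact ⟨pad (wb c x) u, length_pad hu, by rw [relx_pad]; exact hVu⟩
    have hq : M x * (lg (n x)).1 ≤ x.length ^ (3 ^ e) + 3 ^ e := by
      refine le_trans ?_ (pow_le_pow_add e x.length)
      refine le_trans ?_ (he x.length)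
      exact Nat.mul_le_mul_left _ (lg_fst_le _)
    have hiso := isolation _ (M x) (lg (n x)).1 hq (le_lg (n x)) F hF fun u hu => hu.1
    refine hiso.trans (Nat.mul_le_mul_left 2 ?_)
    have himp : ∀ y : Fin (x.length ^ (3 ^ e) + 3 ^ e) → Bool,
        (∃ W, ∃! u, u ∈ F ∧ wt (lg (n x)).1 (List.ofFn y) u = W) →
          A (x, List.ofFn y) = true := ?_
    · exact Nat.card_le_card_of_injective (Subtype.map id himp)
        (Subtype.map_injective himp Function.injective_id)
    rintro y ⟨W, u, ⟨⟨hu1, hu2⟩, hu3⟩, hu4⟩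
    simp only [A, List.any_eq_true]
    refine ⟨W, ?_, ?_⟩
    · rw [List.mem_range, lg_two_pow, ← hu3]
      have := wt_le (lg (n x)).1 (List.ofFn y) u
      rw [hu1] at this
      omega
    · have h1 : sol (x, (List.ofFn y, W)) = u := by
        refine hs (x, (List.ofFn y, W)) u hu1 ?_ ?_
        · simp only [Rel, Bool.and_eq_true, decide_eq_true_eq]
          exact ⟨hu2, hu3⟩
        · intro u' hl' hu'
          simp only [Rel, Bool.and_eq_true, decide_eq_true_eq] at hu'
          exact hu4 u' ⟨⟨hl', hu'.1⟩, hu'.2⟩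
      simp only [h1, Bool.and_eq_true, decide_eq_true_eq]
      exact ⟨hu1, hu2⟩
  · rw [Bool.eq_false_iff]
    intro hy
    simp only [A, List.any_eq_true, Bool.and_eq_true, decide_eq_true_eq] at hy
    obtain ⟨W, _, h1, h2⟩ := hy
    obtain ⟨u, hu, _, hVu⟩ := of_relx h2 h1
    exact hx ((hL x).2 ⟨u, hu, hVu⟩)

end Pool.Agent.Lib.MP_634427_lc
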