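import Pool.Agent.Lib.MP_634427_lc.Gen

/-!
# Candidate lists for unique projections of witnesses
-/

namespace Pool.Agent.Lib.MP_634427_lc

/-- Polynomial-time lists that contain the value of a projection of the witnesses, if this is
unique. -/
def ProjCands : Prop :=
  ∀ {α : Type} [Enc α] (Rel : α × Word → Bool) (π : α × Word → Word) (m m' : α → ℕ),
    PT Rel → PT π → PT m → PT m' →
    ∃ cand : α → List Word, PT cand ∧ ∀ a u, u.length = m' a →
      (∃ w : Word, w.length = m a ∧ Rel (a, w) = true) →
      (∀ w : Word, w.length = m a → Rel (a, w) = true → π (a, w) = u) → u ∈ cand a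

lemma projCands_of_thr (S : Set Word) (hard : ∀ A, InNP A → PThrReducible A S) : ProjCands :=
  fun Rel π m m' h1 h2 h3 h4 => exists_proj_cands S hard Rel π m m' h1 h2 h3 h4

end Pool.Agent.Lib.MP_634427_lc
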