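import Pool.Agent.Lib.MP_634427_lc.HybridModel
import Pool.Agent.Lib.MP_634427_lc.ProjCands
import Pool.Agent.Lib.MP_634427_lc.Frame

/-!
# Consequences of candidate lists; hybrid reductions contain threshold reductions
-/

namespace Pool.Agent.Lib.MP_634427_lc

open BT

/-- Candidate lists for unique projections find unique witnesses. -/
theorem uniqueSolvable_of_projCands (hP : ProjCands) : UniqueSolvable := by
  intro α _ Rel m hRel hm
  obtain ⟨cand, hcand, hc⟩ := hP Rel (fun p => p.2) m m hRel PT.snd hm hm
  refine ⟨fun a => ((cand a).find? fun u => decide (u.length = m a) && Rel (a, u)).getD [],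
    PT.getD (PT.find? (p := fun a u => decide (u.length = m a) && Rel (a, u)) hcand
      (PT.and (PT.eqNat (PT.length PT.snd) (hm.comp PT.fst)) (hRel.comp (PT.pair PT.fst PT.snd))))
      (PT.const []), ?_⟩
  intro a u hu hRu huniq
  have hmemu : u ∈ cand a := hc a u hu ⟨u, hu, hRu⟩ fun w hw hRw => huniq w hw hRw
  have hsome : ((cand a).find? fun u => decide (u.length = m a) && Rel (a, u)) = some u := by
    rcases hfind : (cand a).find? fun u => decide (u.length = m a) && Rel (a, u) with _ | u'
    · have := List.find?_eq_none.1 hfind u hmemu
      simp [hu, hRu] at this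
    · have h1 := List.find?_some hfind
      simp only [Bool.and_eq_true, decide_eq_true_eq] at h1
      rw [hfind, huniq u' h1.1 h1.2]
  show ((cand a).find? fun u => decide (u.length = m a) && Rel (a, u)).getD [] = u
  rw [hsome]; rfl

/-- Threshold reductions are hybrid reductions without an adaptive phase. -/
theorem hybrid_of_pThr {A S : Set Word} (h : PThrReducible A S) : HybridReducible A S := by
  obtain ⟨f, d, c, hf, hd, hS, hfd, hA⟩ := h
  refine ⟨0, fun _ => true, fun _ => [], fun p => f p.1, d, c, PT.const _, PT.const _,
    hf.comp PT.fst, hd, hS, fun x => ⟨_, rfl, rfl, ?_, hfd x, hA x⟩⟩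
  have h1 : ∀ n, answers S (fun _ => true) (fun _ => []) n = [] := by
    intro n
    induction n with
    | zero => rfl
    | succ n ih => rw [answers, if_pos rfl, ih]
  rw [h1]
  simp

/-- Turing reductions with few negative answers are hybrid reductions. -/
theorem hybrid_of_neg {k : ℕ} {A S : Set Word} (h : NegReducible k A S) : HybridReducible A S := by
  obtain ⟨stop, query, out, c, h1, h2, h3, h4⟩ := h
  refine ⟨k, stop, query, fun p => bif out p then [(true, [])] else [], fun _ => 0, c, h1, h2,
    PT.cond h3 (PT.const _) (PT.const _), monotone_const, fun n => ?_, fun x => ?_⟩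
  · rw [pow_zero]
    rcases Nat.eq_zero_or_pos c with rfl | hc
    · simp
    · omega
  · obtain ⟨l, h5, h6, h7, h8⟩ := h4 x
    refine ⟨l, h5, h6, h7, fun e he => ?_, ?_⟩
    · cases h : out (x, l)
      · simp [h] at he
      · simp only [h, cond_true, List.mem_singleton] at he
        simp [he]
    · rw [h8]
      show out (x, l) = true ↔ 0 < balance S (bif out (x, l) then [(true, [])] else [])
      rcases h : out (x, l) with _ | _
      · simp [balance]
      · simp [balance]

end Pool.Agent.Lib.MP_634427_lc
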