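import Pool.Agent.Lib.MP_634427_lc.Model

/-!
# Polynomial-time Turing reductions with few negative answers
-/

namespace Pool.Agent.Lib.MP_634427_lc

open Classical in
/-- The list of the answers received in at most `n` steps of an adaptive computation with oracle
`S`: as long as the computation does not stop (`stop`), it asks a query (`query`), and the answer is
added to the list. -/
noncomputable def answers (S : Set Word) (stop : List Bool → Bool) (query : List Bool → Word) :
    ℕ → List Bool
  | 0 => []
  | n + 1 =>
    if stop (answers S stop query n) then answers S stop query n
    else answers S stop query n ++ [decide (query (answers S stop query n) ∈ S)]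

/-- `A` is reducible to `S` by a polynomial-time Turing reduction with at most `k` negative answers:
from the input `x` and the list of the answers received so far one computes in polynomial time
whether the computation stops, the next query, and (when it stops) the output; with oracle `S` the
computation stops after at most `|x| ^ c + c` queries, at most `k` of them have a negative answer,
and the output tells whether `x ∈ A`. -/
def NegReducible (k : ℕ) (A S : Set Word) : Prop :=
  ∃ (stop : Word × List Bool → Bool) (query : Word × List Bool → Word)
    (out : Word × List Bool → Bool) (c : ℕ), PT stop ∧ PT query ∧ PT out ∧
    ∀ x, ∃ l, l = answers S (fun l => stop (x, l)) (fun l => query (x, l)) (x.length ^ c + c) ∧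
      stop (x, l) = true ∧ l.count false ≤ k ∧ (x ∈ A ↔ out (x, l) = true)

end Pool.Agent.Lib.MP_634427_lc
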