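import Pool.Agent.Lib.MP_634427_lc.Frame
import Pool.Agent.Lib.MP_634427_lc.KNoPT
import Pool.Agent.Lib.MP_634427_lc.NegModel

/-!
# Unique witnesses from Turing reductions with few negative answers to a sparse set
-/

namespace Pool.Agent.Lib.MP_634427_lc

open BT KNo

section answers

variable {S : Set Word} {stop : List Bool → Bool} {query : List Bool → Word}

/-- The next query, if the computation does not stop. -/
def nxt (stop : List Bool → Bool) (query : List Bool → Word) (l : List Bool) : Option Word :=
  bif stop l then none else some (query l)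

lemma nxt_eq_none {l : List Bool} : nxt stop query l = none ↔ stop l = true := by
  unfold nxt; cases stop l <;> simp

lemma nxt_eq_some {l : List Bool} {s : Word} :
    nxt stop query l = some s ↔ stop l = false ∧ query l = s := by
  unfold nxt; cases stop l <;> simp

lemma answers_prefix (n : ℕ) :
    answers S stop query n <+: answers S stop query (n + 1) := by
  rw [answers]
  split_ifs
  · exact List.prefix_rfl
  · exact List.prefix_append _ _

lemma answers_prefix_le {n m : ℕ} (h : n ≤ m) :
    answers S stop query n <+: answers S stop query m := by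
  induction m, h using Nat.le_induction with
  | base => exact List.prefix_rfl
  | succ m _ ih => exact ih.trans (answers_prefix m)

lemma length_answers_le (n : ℕ) : (answers S stop query n).length ≤ n := by
  induction n with
  | zero => simp [answers]
  | succ n ih =>
    rw [answers]
    split_ifs
    · omega
    · simp; omega

lemma answers_stable {n : ℕ} (h : stop (answers S stop query n) = true) (m : ℕ) (hm : n ≤ m) :
    answers S stop query m = answers S stop query n := by
  induction m, hm using Nat.le_induction with
  | base => rfl
  | succ m _ ih =>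
    rw [answers, ih, if_pos h]

lemma good_eq_answers {next : Word → List Bool → Option Word} {r : Word}
    (hn : ∀ l, next r l = nxt stop query l) (tr : List Bool) (h : Good next S (r, tr)) :
    tr = answers S stop query tr.length := by
  classical
  induction tr using List.reverseRecOn with
  | nil => rfl
  | append_singleton tr b ih =>
    have ih' := ih (h.of_prefix (List.prefix_append _ _))
    obtain ⟨s, hs, hb⟩ := h tr b List.prefix_rfl
    rw [hn, nxt_eq_some] at hs
    obtain ⟨h1, h2⟩ := hs
    rw [List.length_append, List.length_cons, List.length_nil, answers, ← ih', h1, h2]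
    simp only [Bool.false_eq_true, if_false, List.append_cancel_left_eq, List.cons.injEq, and_true]
    rw [Bool.eq_iff_iff, hb]
    simp

end answers

/-- A sparse set that is hard for NP under polynomial-time Turing reductions with at most `k`
negative answers makes it possible to find unique witnesses in polynomial time. -/
theorem uniqueSolvable_of_neg (k : ℕ) (S : Set Word) (hS : Sparse S)
    (hard : ∀ A, InNP A → NegReducible k A S) : UniqueSolvable := by
  intro α _ Rel m hRel hm
  -- the verifier
  let G : (α × Word) × Word → Bool := fun p =>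
    decide (p.2.length = m p.1.1) && (Rel (p.1.1, p.2) && par p.1.2 p.2)
  have hG : PT G := PT.and (PT.eqNat (PT.length PT.snd) (hm.comp (PT.fst' PT.fst)))
    (PT.and (hRel.comp (PT.pair (PT.fst' PT.fst) PT.snd)) (PT.par (PT.snd' PT.fst) PT.snd))
  obtain ⟨F, hF, hFG⟩ := hG
  have hFpt : PT F := ⟨F, hF, fun _ => rfl⟩
  let V : Word × Word → Bool := fun p => !decide (F (BT.node (decode p.1) (enc p.2)) = BT.nil)
  have hencPT : PT (fun w : Word => (enc w : BT)) := ⟨_, .id, fun _ => rfl⟩
  have hV : PT V := PT.not (PT.isNilBT (hFpt.comp (PT.pairBT (PT.decode PT.fst)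
    (hencPT.comp PT.snd))))
  have hVG : ∀ (a : α) (r u : Word), V (code (enc (a, r)), u) = G ((a, r), u) := by
    intro a r u
    have h1 := hFG ((a, r), u)
    rw [enc_pair] at h1
    simp only [V, decode_code]
    rw [h1]
    cases G ((a, r), u) <;> simp
  obtain ⟨km, hkm⟩ := hm.size_le
  have hmk : ∀ a, m a ≤ (sz a + 2) ^ km := fun a => by
    have := hkm a; rwa [sz_nat] at this
  let A : Set Word := {w | ∃ u : Word, u.length ≤ w.length ^ km + km ∧ V (w, u) = true}
  have hA : InNP A := ⟨V, km, hV, fun _ => Iff.rfl⟩
  obtain ⟨stop, query, out, c, hstop, hquery, hout, hred⟩ := hard A hA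
  let cw : α → Word → Word := fun a r => code (enc (a, r))
  have hcwlen : ∀ a r, (cw a r).length = 2 * (sz a + sz r + 1) + 1 := fun a r => length_code _
  have hmem : ∀ a r, cw a r ∈ A ↔ ∃ u : Word, u.length = m a ∧ Rel (a, u) = true ∧
      par r u = true := by
    intro a r
    constructor
    · rintro ⟨u, _, hu⟩
      rw [hVG] at hu
      simp only [G, Bool.and_eq_true, decide_eq_true_eq] at hu
      exact ⟨u, hu.1, hu.2.1, hu.2.2⟩
    · rintro ⟨u, h1, h2, h3⟩
      refine ⟨u, ?_, ?_⟩
      · have h4 : (sz a + 2) ^ km ≤ (cw a r).length ^ km :=
          Nat.pow_le_pow_left (by rw [hcwlen]; omega) km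
        have := hmk a
        omega
      · rw [hVG]
        simp [G, h1, h2, h3]
  -- the adaptive procedure
  let next : α → Word → List Bool → Option Word := fun a r l =>
    nxt (fun l => stop (cw a r, l)) (fun l => query (cw a r, l)) l
  let outp : α → Word → List Bool → Bool := fun a r l => out (cw a r, l)
  have hencα : PT (fun q : α × Word => (enc q : BT)) := ⟨_, .id, fun _ => rfl⟩
  have hcw : PT fun p : α × Word => cw p.1 p.2 := PT.code hencα
  have hcwl : PT fun p : α × Word × List Bool => (cw p.1 p.2.1, p.2.2) :=
    PT.pair (hcw.comp (PT.pair PT.fst (PT.fst' PT.snd))) (PT.snd' PT.snd)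
  have hnext : PT fun p : α × Word × List Bool => next p.1 p.2.1 p.2.2 :=
    PT.cond (hstop.comp hcwl) (PT.const none) (PT.some (hquery.comp hcwl))
  have houtp : PT fun p : α × Word × List Bool => outp p.1 p.2.1 p.2.2 := hout.comp hcwl
  -- the number of steps
  let L : α → ℕ := fun a => 2 * (sz a + 2 * m a + 1) + 1
  have hL : PT L := PT.succ (PT.mul (PT.const 2) (PT.succ (PT.add (PT.size PT.id)
    (PT.mul (PT.const 2) hm))))
  have hLcw : ∀ a r, r.length ≤ m a → (cw a r).length ≤ L a := by
    intro a r hr
    rw [hcwlen]
    have := sz_word_le r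
    simp only [L]
    omega
  let q : α → ℕ := fun a => L a ^ c + c
  have hq : PT q := PT.add (PT.pow hL c) (PT.const c)
  -- the size of the queries
  obtain ⟨kn, hkn⟩ := hnext.size_le
  let ℓ : α → ℕ := fun a => (sz a + (2 * m a + 2 * q a + 1) + 1 + 2) ^ kn
  have hℓ : PT ℓ := PT.pow (PT.add (PT.succ (PT.add (PT.size PT.id) (PT.succ (PT.add
    (PT.mul (PT.const 2) hm) (PT.mul (PT.const 2) hq))))) (PT.const 2)) kn
  obtain ⟨cs, hcs⟩ := hS
  let P : α → ℕ := fun a => ℓ a ^ cs + cs + 1
  have hP : PT P := PT.succ (PT.add (PT.pow hℓ cs) (PT.const cs))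
  -- the pruning procedure
  let prune : α → List Word → List Word → List Word := fun a R B =>
    B.filter fun w => decide (w ∈ search (next a) (outp a) (q a) (P a) B k []
      (R.map fun r => (r, [])))
  have hsearch := pt_search (next := next) (out := outp) (q := q) hnext hq houtp
    (PT.par PT.fst PT.snd) hP k
  have hprunePT : PT fun p : α × List Word × List Word => prune p.1 p.2.1 p.2.2 := by
    refine PT.filter (PT.snd' PT.snd) (p := fun (p : α × List Word × List Word) w =>
      decide (w ∈ search (next p.1) (outp p.1) (q p.1) (P p.1) p.2.2 k []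
      (p.2.1.map fun r => (r, [])))) ?_
    refine PT.memWord PT.snd ?_
    have h1 : PT fun p : (α × List Word × List Word) × Word =>
        (((p.1.1, p.1.2.2) : α × List Word), (([], p.1.2.1.map fun r => (r, [])) :
          List Word × List Item)) :=
      PT.pair (PT.pair (PT.fst' PT.fst) (PT.snd' (PT.snd' PT.fst)))
        (PT.pair (PT.const []) (PT.map (f := fun (_ : (α × List Word × List Word) × Word) r =>
          ((r, []) : Item)) (PT.fst' (PT.snd' PT.fst)) (PT.pair PT.snd (PT.const []))))
    exact hsearch.comp h1
  let K : α → ℕ := fun a => bnd (P a) k 1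
  have hbnd : ∀ j, PT fun p : α × ℕ => bnd (P p.1) j p.2 := by
    intro j
    induction j with
    | zero => exact PT.mul (PT.const 4) PT.snd
    | succ j ih =>
      have hPf : PT fun p : α × ℕ => P p.1 := hP.comp PT.fst
      exact PT.mul hPf (ih.comp (PT.pair PT.fst (PT.mul (PT.mul (PT.mul (PT.const 4) hPf)
        (pt_err hPf j)) PT.snd)))
  have hK : PT K := (hbnd k).comp (PT.pair PT.id (PT.const 1))
  refine Frame.exists_solver hRel hm prune K hprunePT hK ?_ ?_
  · -- few candidates survive
    intro a
    refine ⟨fun R B w hw => List.mem_of_mem_filter hw, fun R B hB => hB.filter _, ?_⟩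
    intro R B hB hR horth _
    have hRpos : 0 < R.length := List.length_pos_of_ne_nil hR
    have h1 := length_search (next := next a) (out := outp a) hB horth hRpos (q a) (P a)
      (Nat.succ_pos _) k [] (R.map fun r => (r, [])) 1
      ⟨fun _ => true, fun _ => [], by rw [List.filter_true]⟩ (by simp)
    refine le_trans ?_ h1
    have h2 : (prune a R B).Nodup := hB.filter _
    exact (List.subperm_of_subset h2 fun w hw => by
      simpa using (List.mem_filter.1 hw).2).length_le
  · -- the true candidate survives
    intro a u hu hRu huniq R B j hj hRj huB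
    refine List.mem_filter.2 ⟨huB, ?_⟩
    rw [decide_eq_true_eq]
    have hparA : ∀ r ∈ R, (cw a r ∈ A ↔ par r (u.take j) = true) := by
      intro r hr
      have hpar : par r (u.take j) = par r u := by
        conv_rhs => rw [← List.take_append_drop j u]
        rw [par_append_of_le]
        rw [List.length_take, hu]
        exact le_min (hRj r hr) ((hRj r hr).trans hj)
      rw [hmem, hpar]
      constructor
      · rintro ⟨u', h1, h2, h3⟩
        rwa [huniq u' h1 h2] at h3
      · intro h
        exact ⟨u, hu, hRu, h⟩
    -- the properties of the reduction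
    have hrun : ∀ r ∈ R, ∀ tr, Good (next a) S (r, tr) →
        tr.length ≤ q a ∧ tr.count false ≤ k ∧
          (next a r tr = none → outp a r tr = par r (u.take j)) := by
      intro r hr tr htr
      obtain ⟨l, hl, hstopl, hcount, hcor⟩ := hred (cw a r)
      have htr' := good_eq_answers (S := S) (stop := fun l => stop (cw a r, l))
        (query := fun l => query (cw a r, l)) (fun _ => rfl) tr htr
      have hqr : (cw a r).length ^ c + c ≤ q a :=
        Nat.add_le_add_right (Nat.pow_le_pow_left (hLcw a r ((hRj r hr).trans hj)) c) c
      have hpre : tr <+: l := by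
        rw [hl, htr']
        rcases le_total tr.length ((cw a r).length ^ c + c) with h | h
        · exact answers_prefix_le h
        · rw [answers_stable (by rw [← hl]; exact hstopl) _ h]
      refine ⟨?_, (hpre.sublist.count_le false).trans hcount, ?_⟩
      · refine hpre.length_le.trans ?_
        rw [hl]
        exact (length_answers_le _).trans hqr
      · intro hnone
        have hst : stop (cw a r, tr) = true := nxt_eq_none.1 hnone
        have hlen : tr.length ≤ (cw a r).length ^ c + c := by
          refine hpre.length_le.trans ?_
          rw [hl]; exact length_answers_le _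
        have heq : l = tr := by
          rw [hl]
          have h2 := answers_stable (S := S) (stop := fun l => stop (cw a r, l))
            (query := fun l => query (cw a r, l)) (n := tr.length) (by rw [← htr']; exact hst)
            _ hlen
          rw [h2, ← htr']
        have h3 := hparA r hr
        rw [hcor, heq] at h3
        exact Bool.eq_iff_iff.2 h3
    have hredu : Red (next a) (outp a) S R (u.take j) (q a) k :=
      ⟨fun r hr tr h => (hrun r hr tr h).1, fun r hr tr h => (hrun r hr tr h).2.1,
        fun r hr tr h => (hrun r hr tr h).2.2⟩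
    refine mem_search hredu (Nat.succ_pos _) ?_ huB k [] _ List.nodup_nil (by simp) ?_ ?_ ?_
    · -- few relevant members of `S`
      intro Ls hLs hmemL
      have h1 : ∀ s ∈ Ls, s ∈ {w ∈ S | w.length ≤ ℓ a} := by
        intro s hs
        obtain ⟨hsS, r, hr, tr, hgood, hnx⟩ := hmemL s hs
        refine ⟨hsS, ?_⟩
        have h2 := (hrun r hr tr hgood).1
        have h3 := hkn (a, r, tr)
        simp only [hnx, sz_some, sz_pair] at h3
        have h4 := sz_word_le r
        have h5 := sz_word_le tr
        have h6 := (hRj r hr).trans hj
        have h7 := length_le_sz s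
        have h8 : (sz a + (sz r + sz tr + 1) + 1 + 2) ^ kn ≤ ℓ a :=
          Nat.pow_le_pow_left (by omega) kn
        omega
      have h2 : Ls.length ≤ {w ∈ S | w.length ≤ ℓ a}.ncard := by
        rw [← List.toFinset_card_of_nodup hLs, ← Set.ncard_coe_finset]
        refine Set.ncard_le_ncard ?_ (finite_words S (ℓ a))
        intro s hs
        exact h1 s (List.mem_toFinset.1 hs)
      exact Nat.lt_succ_of_le (h2.trans (hcs (ℓ a)))
    · intro e he
      obtain ⟨r, hr, rfl⟩ := List.mem_map.1 he
      exact hr
    · have : bad (next a) S (R.map fun r => (r, [])) = 0 := by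
        classical
        unfold bad
        rw [List.length_eq_zero_iff, List.filter_eq_nil_iff]
        intro e he
        obtain ⟨r, hr, rfl⟩ := List.mem_map.1 he
        simpa using Good.nil r
      rw [this]
      simp
    · intro e he _
      exact Nat.le_add_right _ _

end Pool.Agent.Lib.MP_634427_lc
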