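import Pool.Agent.Lib.MP_634427_lc.Defs

/-!
# Inner products of signed multisets, the perceptron, and the capacity bound
-/

namespace Pool.Agent.Lib.MP_634427_lc

section vec
variable {κ : Type} [DecidableEq κ]

/-- Coefficient of the key `k` in a signed multiset. -/
def coef (v : SVec κ) (k : κ) : ℤ := (v.map fun e => if e.2 = k then sgn e.1 else 0).sum

theorem coef_nil (k : κ) : coef ([] : SVec κ) k = 0 := rfl

theorem coef_cons (e : Bool × κ) (v : SVec κ) (k : κ) :
    coef (e :: v) k = (if e.2 = k then sgn e.1 else 0) + coef v k := by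
  simp [coef]

theorem coef_append (v w : SVec κ) (k : κ) : coef (v ++ w) k = coef v k + coef w k := by
  simp [coef]

theorem sgn_not (b : Bool) : sgn (!b) = - sgn b := by cases b <;> simp [sgn]

theorem sgn_le_one (b : Bool) : sgn b ≤ 1 := by cases b <;> simp [sgn]

theorem sgn_mul_le_one (b c : Bool) : sgn b * sgn c ≤ 1 := by
  cases b <;> cases c <;> simp [sgn]

theorem coef_neg (v : SVec κ) (k : κ) : coef (neg v) k = - coef v k := by
  induction v with
  | nil => simp [neg, coef]
  | cons e v ih =>
    have h1 : neg (e :: v) = (!e.1, e.2) :: neg v := rfl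
    rw [h1, coef_cons, coef_cons, ih]
    by_cases h : e.2 = k
    · simp [h, sgn_not]; ring
    · simp [h]

theorem dot_inner (e : Bool × κ) (w : SVec κ) :
    (w.map fun e' => if e.2 = e'.2 then sgn e.1 * sgn e'.1 else 0).sum
      = sgn e.1 * coef w e.2 := by
  induction w with
  | nil => simp [coef]
  | cons f w ih =>
    rw [List.map_cons, List.sum_cons, ih, coef_cons]
    by_cases h : e.2 = f.2
    · simp [h]; ring
    · have h' : ¬ f.2 = e.2 := fun h' => h h'.symm
      simp [h, h']

theorem dot_cons (e : Bool × κ) (v w : SVec κ) :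
    dot (e :: v) w = sgn e.1 * coef w e.2 + dot v w := by
  unfold dot
  rw [List.map_cons, List.sum_cons, dot_inner]

theorem dot_eq_sum (v w : SVec κ) (S : Finset κ) (hS : ∀ e ∈ v, e.2 ∈ S) :
    dot v w = ∑ k ∈ S, coef v k * coef w k := by
  induction v with
  | nil => simp [dot, coef]
  | cons e v ih =>
    rw [dot_cons, ih (fun f hf => hS f (List.mem_cons_of_mem _ hf))]
    simp only [coef_cons, add_mul, Finset.sum_add_distrib]
    congr 1
    have he : e.2 ∈ S := hS e List.mem_cons_self
    simp only [ite_mul, zero_mul]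
    rw [Finset.sum_ite_eq]
    simp [he]

/-- Keys occurring in a signed multiset. -/
def keys (v : SVec κ) : Finset κ := (v.map Prod.snd).toFinset

theorem mem_keys {v : SVec κ} {e : Bool × κ} (h : e ∈ v) : e.2 ∈ keys v := by
  unfold keys
  rw [List.mem_toFinset]
  exact List.mem_map_of_mem h

theorem coef_eq_zero {v : SVec κ} {k : κ} (h : k ∉ keys v) : coef v k = 0 := by
  unfold coef
  apply List.sum_eq_zero
  intro x hx
  rw [List.mem_map] at hx
  obtain ⟨e, he, rfl⟩ := hx
  have : e.2 ≠ k := by
    rintro rfl
    exact h (mem_keys he)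
  simp [this]

theorem dot_comm (v w : SVec κ) : dot v w = dot w v := by
  rw [dot_eq_sum v w (keys v ∪ keys w) (fun e he => Finset.mem_union_left _ (mem_keys he)),
    dot_eq_sum w v (keys v ∪ keys w) (fun e he => Finset.mem_union_right _ (mem_keys he))]
  exact Finset.sum_congr rfl fun k _ => mul_comm _ _

theorem dot_append_right (v w w' : SVec κ) : dot v (w ++ w') = dot v w + dot v w' := by
  rw [dot_eq_sum v _ (keys v) (fun e he => mem_keys he),
    dot_eq_sum v w (keys v) (fun e he => mem_keys he),
    dot_eq_sum v w' (keys v) (fun e he => mem_keys he), ← Finset.sum_add_distrib]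
  exact Finset.sum_congr rfl fun k _ => by rw [coef_append]; ring

theorem dot_append_left (v v' w : SVec κ) : dot (v ++ v') w = dot v w + dot v' w := by
  rw [dot_comm, dot_append_right, dot_comm w v, dot_comm w v']

theorem dot_neg_right (v w : SVec κ) : dot v (neg w) = - dot v w := by
  rw [dot_eq_sum v _ (keys v) (fun e he => mem_keys he),
    dot_eq_sum v w (keys v) (fun e he => mem_keys he), ← Finset.sum_neg_distrib]
  exact Finset.sum_congr rfl fun k _ => by rw [coef_neg]; ring

theorem dot_self_neg (v : SVec κ) : dot (neg v) (neg v) = dot v v := by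
  rw [dot_neg_right, dot_comm, dot_neg_right, neg_neg]

theorem dot_self_nonneg (v : SVec κ) : 0 ≤ dot v v := by
  rw [dot_eq_sum v _ (keys v) (fun e he => mem_keys he)]
  exact Finset.sum_nonneg fun k _ => mul_self_nonneg _

theorem coef_le_length (v : SVec κ) (k : κ) : coef v k ≤ v.length ∧ - (v.length : ℤ) ≤ coef v k := by
  induction v with
  | nil => simp [coef]
  | cons e v ih =>
    rw [coef_cons]
    have h1 : (if e.2 = k then sgn e.1 else 0) ≤ 1 := by
      split_ifs
      · exact sgn_le_one _
      · norm_num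
    have h2 : -1 ≤ (if e.2 = k then sgn e.1 else 0) := by
      split_ifs
      · cases e.1 <;> simp [sgn]
      · norm_num
    push_cast [List.length_cons]
    constructor <;> linarith [ih.1, ih.2]

theorem dot_le_length (v w : SVec κ) : dot v w ≤ (v.length : ℤ) * w.length := by
  induction v with
  | nil => simp [dot]
  | cons e v ih =>
    rw [dot_cons]
    have h1 : sgn e.1 * coef w e.2 ≤ w.length := by
      have := coef_le_length w e.2
      cases e.1 with
      | true => simp only [sgn, if_true, one_mul]; exact this.1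
      | false =>
        simp only [sgn, Bool.false_eq_true, if_false]
        linarith [this.2]
    push_cast [List.length_cons]
    nlinarith

theorem dot_self_le (v : SVec κ) : dot v v ≤ (v.length : ℤ) ^ 2 := by
  rw [sq]; exact dot_le_length v v

theorem dot_sq_le (v w : SVec κ) : dot v w ^ 2 ≤ dot v v * dot w w := by
  have hv : ∀ e ∈ v, e.2 ∈ keys v ∪ keys w := fun e he => Finset.mem_union_left _ (mem_keys he)
  have hw : ∀ e ∈ w, e.2 ∈ keys v ∪ keys w := fun e he => Finset.mem_union_right _ (mem_keys he)
  rw [dot_eq_sum v w _ hv, dot_eq_sum v v _ hv, dot_eq_sum w w _ hw]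
  have := Finset.sum_mul_sq_le_sq_mul_sq (keys v ∪ keys w) (fun k => coef v k) (fun k => coef w k)
  simpa only [sq] using this

theorem score_append (P : κ → Prop) (v w : SVec κ) :
    score P (v ++ w) = score P v + score P w := by
  simp [score]

omit [DecidableEq κ] in
theorem score_cons (P : κ → Prop) (e : Bool × κ) (v : SVec κ) :
    score P (e :: v) = (open Classical in if P e.2 then sgn e.1 else 0) + score P v := by
  simp [score]

theorem score_neg (P : κ → Prop) (v : SVec κ) : score P (neg v) = - score P v := by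
  classical
  induction v with
  | nil => simp [neg, score]
  | cons e v ih =>
    have h1 : neg (e :: v) = (!e.1, e.2) :: neg v := rfl
    rw [h1, score_cons, score_cons, ih]
    by_cases h : P e.2
    · simp [h, sgn_not]; ring
    · simp [h]

open Classical in
theorem score_eq_sum (P : κ → Prop) (v : SVec κ) (S : Finset κ)
    (hS : ∀ e ∈ v, P e.2 → e.2 ∈ S) :
    score P v = ∑ k ∈ S.filter P, coef v k := by
  induction v with
  | nil => simp [score, coef]
  | cons e v ih =>
    rw [score_cons, ih (fun f hf => hS f (List.mem_cons_of_mem _ hf))]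
    simp only [coef_cons, Finset.sum_add_distrib]
    congr 1
    rw [Finset.sum_ite_eq]
    by_cases h : P e.2
    · have he : e.2 ∈ S := hS e List.mem_cons_self h
      simp [h, he]
    · simp [h]

/-- Cauchy-Schwarz against an indicator function. -/
theorem score_sq_le (P : κ → Prop) (T : Finset κ) (v : SVec κ)
    (hT : ∀ e ∈ v, P e.2 → e.2 ∈ T) : score P v ^ 2 ≤ T.card * dot v v := by
  classical
  rw [score_eq_sum P v T hT]
  have h1 : (∑ k ∈ T.filter P, coef v k) ^ 2 ≤ ((T.filter P).card : ℤ) *
      ∑ k ∈ T.filter P, coef v k ^ 2 := sq_sum_le_card_mul_sum_sq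
  have h2 : ∑ k ∈ T.filter P, coef v k ^ 2 ≤ dot v v := by
    rw [dot_eq_sum v v (keys v ∪ T.filter P)
      (fun e he => Finset.mem_union_left _ (mem_keys he))]
    have h3 : ∑ k ∈ T.filter P, coef v k ^ 2 = ∑ k ∈ T.filter P, coef v k * coef v k :=
      Finset.sum_congr rfl fun k _ => sq _
    rw [h3]
    exact Finset.sum_le_sum_of_subset_of_nonneg Finset.subset_union_right
      (fun k _ _ => mul_self_nonneg _)
  have h3 : ((T.filter P).card : ℤ) ≤ T.card := by
    exact_mod_cast Finset.card_filter_le T P
  calc _ ≤ _ := h1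
    _ ≤ (T.card : ℤ) * dot v v := mul_le_mul h3 h2
        (Finset.sum_nonneg fun k _ => sq_nonneg _) (by positivity)

theorem percep_zero (zs : List (SVec κ)) : percep zs 0 = [] := rfl

theorem percep_succ (zs : List (SVec κ)) (K : ℕ) :
    percep zs (K + 1) = pstep zs (percep zs K) := by
  unfold percep; rw [Function.iterate_succ_apply']

theorem pstep_cases (zs : List (SVec κ)) (w : SVec κ) :
    (pstep zs w = w ∧ ∀ z ∈ zs, 0 < dot w z) ∨
      ∃ z ∈ zs, dot w z ≤ 0 ∧ pstep zs w = w ++ z := by
  unfold pstep
  cases h : zs.find? (fun z => decide (dot w z ≤ 0)) with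
  | none =>
    left
    refine ⟨rfl, fun z hz => ?_⟩
    have := List.find?_eq_none.mp h z hz
    simpa using this
  | some z =>
    right
    refine ⟨z, List.mem_of_find?_eq_some h, ?_, rfl⟩
    have := List.find?_some h
    simpa using this

/-- Norm bound for the perceptron (no separability assumption). -/
theorem percep_norm (zs : List (SVec κ)) (K : ℕ) (D : ℤ) (hD : ∀ z ∈ zs, dot z z ≤ D)
    (hD0 : 0 ≤ D) : dot (percep zs K) (percep zs K) ≤ K * D := by
  induction K with
  | zero => simp [percep_zero, dot]
  | succ K ih =>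
    rw [percep_succ]
    rcases pstep_cases zs (percep zs K) with ⟨h, _⟩ | ⟨z, hz, hle, h⟩
    · rw [h]; push_cast; linarith
    · rw [h, dot_append_right, dot_append_left, dot_append_left, dot_comm z (percep zs K)]
      have := hD z hz
      push_cast
      linarith

/-- Perceptron convergence. -/
theorem accepts_of_separable (zs : List (SVec κ)) (K D : ℕ) (P : κ → Prop) (T : Finset κ)
    (hD : ∀ z ∈ zs, dot z z ≤ D) (hsep : ∀ z ∈ zs, 1 ≤ score P z)
    (hT : ∀ z ∈ zs, ∀ e ∈ z, P e.2 → e.2 ∈ T) (hK : T.card * D ≤ K) :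
    accepts zs K = true := by
  by_contra hacc
  -- every step up to `K` was an update
  have hkey : ∀ j, j ≤ K + 1 → (j : ℤ) ≤ score P (percep zs j) ∨
      (∀ z ∈ zs, 0 < dot (percep zs K) z) := by
    intro j
    induction j with
    | zero => intro _; left; simp [percep_zero, score]
    | succ j ih =>
      intro hj
      rcases ih (by omega) with h | h
      · rcases pstep_cases zs (percep zs j) with ⟨h1, h2⟩ | ⟨z, hz, hle, h1⟩
        · right
          -- fixed point
          have hfix : ∀ i, percep zs (j + i) = percep zs j := by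
            intro i
            induction i with
            | zero => rfl
            | succ i ih' => rw [← Nat.add_assoc, percep_succ, ih', h1]
          have : percep zs K = percep zs j := by
            have := hfix (K - j)
            rwa [Nat.add_sub_cancel' (by omega)] at this
          rw [this]; exact h2
        · left
          rw [percep_succ, h1, score_append]
          have := hsep z hz
          push_cast; linarith
      · right; exact h
  rcases hkey (K + 1) le_rfl with h | h
  · have hTw : ∀ j, ∀ e ∈ percep zs j, P e.2 → e.2 ∈ T := by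
      intro j
      induction j with
      | zero => intro e he; simp [percep_zero] at he
      | succ j ih =>
        intro e he hP
        rw [percep_succ] at he
        rcases pstep_cases zs (percep zs j) with ⟨h1, _⟩ | ⟨z, hz, _, h1⟩
        · rw [h1] at he; exact ih e he hP
        · rw [h1, List.mem_append] at he
          rcases he with he | he
          · exact ih e he hP
          · exact hT z hz e he hP
    have h1 := score_sq_le P T (percep zs (K + 1)) (hTw (K + 1))
    have h2 := percep_norm zs (K + 1) D (by exact_mod_cast hD) (by positivity)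
    have h3 : ((K + 1 : ℕ) : ℤ) ^ 2 ≤ score P (percep zs (K + 1)) ^ 2 := by
      apply pow_le_pow_left₀ (by positivity) h
    have h4 : ((K + 1 : ℕ) : ℤ) ^ 2 ≤ T.card * (((K + 1 : ℕ) : ℤ) * D) :=
      h3.trans (h1.trans (mul_le_mul_of_nonneg_left h2 (by positivity)))
    have h5 : ((K + 1 : ℕ) : ℤ) ≤ T.card * D := by
      have hpos : (0 : ℤ) < ((K + 1 : ℕ) : ℤ) := by positivity
      have h6 : ((K + 1 : ℕ) : ℤ) * ((K + 1 : ℕ) : ℤ) ≤ (T.card * D : ℤ) * ((K + 1 : ℕ) : ℤ) := by
        calc _ = ((K + 1 : ℕ) : ℤ) ^ 2 := by ring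
          _ ≤ _ := h4
          _ = _ := by ring
      exact le_of_mul_le_mul_right h6 hpos
    have h6 : K + 1 ≤ T.card * D := by exact_mod_cast h5
    omega
  · apply hacc
    unfold accepts
    rw [List.all_eq_true]
    intro z hz
    simpa using h z hz

theorem coef_flatten (L : List (SVec κ)) (k : κ) :
    coef L.flatten k = (L.map fun v => coef v k).sum := by
  induction L with
  | nil => simp [coef]
  | cons v L ih => rw [List.flatten_cons, coef_append, ih]; simp

theorem dot_flatten_right (w : SVec κ) (L : List (SVec κ)) :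
    dot w L.flatten = (L.map fun v => dot w v).sum := by
  induction L with
  | nil =>
    simp only [List.flatten_nil, List.map_nil, List.sum_nil]
    rw [dot_comm]; rfl
  | cons v L ih => rw [List.flatten_cons, dot_append_right, ih]; simp

theorem coef_signed (z : Word → SVec κ) (c r : Word) (k : κ) :
    coef (signed z c r) k = sgn (!par r c) * coef (z r) k := by
  unfold signed
  cases par r c <;> simp [sgn, coef_neg]

theorem dot_signed_self (z : Word → SVec κ) (c r : Word) :
    dot (signed z c r) (signed z c r) = dot (z r) (z r) := by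
  unfold signed
  split_ifs
  · exact dot_self_neg _
  · rfl

/-- Bessel's inequality for a family of pairwise orthogonal sign vectors. -/
theorem bessel {ι γ : Type} [Fintype ι] [DecidableEq γ] (B : Finset γ) (χ : γ → ι → ℤ) (a : ι → ℤ)
    (hχ : ∀ c ∈ B, ∀ i, χ c i * χ c i = 1)
    (horth : ∀ c ∈ B, ∀ c' ∈ B, c ≠ c' → ∑ i, χ c i * χ c' i = 0) :
    ∑ c ∈ B, (∑ i, χ c i * a i) ^ 2 ≤ (Fintype.card ι : ℤ) * ∑ i, a i ^ 2 := by
  set ρ : ℤ := (Fintype.card ι : ℤ) with hρ
  set y : γ → ℤ := fun c => ∑ i, χ c i * a i with hy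
  have hgram : ∀ c ∈ B, ∀ c' ∈ B, ∑ i, χ c i * χ c' i = if c = c' then ρ else 0 := by
    intro c hc c' hc'
    split_ifs with h
    · subst h
      rw [Finset.sum_congr rfl fun i _ => hχ c hc i]
      simp [hρ]
    · exact horth c hc c' hc' h
  have h0 : 0 ≤ ∑ i, (ρ * a i - ∑ c ∈ B, y c * χ c i) ^ 2 :=
    Finset.sum_nonneg fun i _ => sq_nonneg _
  have h1 : ∑ i, (ρ * a i - ∑ c ∈ B, y c * χ c i) ^ 2
      = ρ ^ 2 * ∑ i, a i ^ 2 - ρ * ∑ c ∈ B, y c ^ 2 := by
    have e1 : ∀ i, (ρ * a i - ∑ c ∈ B, y c * χ c i) ^ 2
        = ρ ^ 2 * a i ^ 2 - 2 * ρ * ∑ c ∈ B, y c * (χ c i * a i)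
          + ∑ c ∈ B, ∑ c' ∈ B, y c * y c' * (χ c i * χ c' i) := by
      intro i
      have e2 : (∑ c ∈ B, y c * χ c i) ^ 2
          = ∑ c ∈ B, ∑ c' ∈ B, y c * y c' * (χ c i * χ c' i) := by
        rw [sq, Finset.sum_mul_sum]
        refine Finset.sum_congr rfl fun c _ => Finset.sum_congr rfl fun c' _ => ?_
        ring
      have e3 : ∑ c ∈ B, y c * (χ c i * a i) = (∑ c ∈ B, y c * χ c i) * a i := by
        rw [Finset.sum_mul]
        exact Finset.sum_congr rfl fun c _ => by ring
      rw [← e2, e3]
      ring
    rw [Finset.sum_congr rfl fun i _ => e1 i, Finset.sum_add_distrib, Finset.sum_sub_distrib,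
      ← Finset.mul_sum, ← Finset.mul_sum, Finset.sum_comm]
    have e4 : ∑ c ∈ B, ∑ i, y c * (χ c i * a i) = ∑ c ∈ B, y c ^ 2 := by
      refine Finset.sum_congr rfl fun c _ => ?_
      rw [← Finset.mul_sum, sq]
    have e5 : ∑ i, ∑ c ∈ B, ∑ c' ∈ B, y c * y c' * (χ c i * χ c' i)
        = ρ * ∑ c ∈ B, y c ^ 2 := by
      rw [Finset.sum_comm, Finset.mul_sum]
      refine Finset.sum_congr rfl fun c hc => ?_
      rw [Finset.sum_comm]
      have e6 : ∀ c' ∈ B, ∑ i, y c * y c' * (χ c i * χ c' i)
          = if c = c' then ρ * y c ^ 2 else 0 := by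
        intro c' hc'
        rw [← Finset.mul_sum, hgram c hc c' hc']
        split_ifs with h
        · subst h; ring
        · ring
      rw [Finset.sum_congr rfl e6, Finset.sum_ite_eq]
      simp [hc]
    rw [e4, e5]
    ring
  rcases Nat.eq_zero_or_pos (Fintype.card ι) with hz | hpos
  · have : IsEmpty ι := Fintype.card_eq_zero_iff.mp hz
    simp
  · have hρpos : 0 < ρ := by rw [hρ]; exact_mod_cast hpos
    rw [h1] at h0
    have h2 : ρ * ∑ c ∈ B, y c ^ 2 ≤ ρ * (ρ * ∑ i, a i ^ 2) := by nlinarith
    exact le_of_mul_le_mul_left h2 hρpos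

theorem sgn_mul_par (r c c' : Word) :
    sgn (!par r c) * sgn (!par r c') = sgn (par r c == par r c') := by
  cases par r c <;> cases par r c' <;> simp [sgn]

theorem list_sum_eq_fin {α : Type} (R : List α) (f : α → ℤ) :
    (R.map f).sum = ∑ i : Fin R.length, f (R.get i) := by
  rw [← List.sum_ofFn]
  congr 1
  conv_lhs => rw [← List.ofFn_get R]
  rw [List.map_ofFn]
  rfl

/-- Few candidates can be accepted when the tests are orthogonal. -/
theorem capacity (B R : List Word) (hB : B.Nodup) (hR : R ≠ []) (horth : Orth R B)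
    (z : Word → SVec κ) (K D : ℕ) (hD : ∀ r ∈ R, dot (z r) (z r) ≤ D)
    (hacc : ∀ c ∈ B, accepts (R.map (signed z c)) K = true) : B.length ≤ K * D * D := by
  classical
  set ρ : ℤ := (R.length : ℤ) with hρ
  have hρpos : 0 < ρ := by
    rw [hρ]; exact_mod_cast List.length_pos_of_ne_nil hR
  set V : Word → SVec κ := fun c => (R.map (signed z c)).flatten with hV
  -- one candidate
  have hone : ∀ c ∈ B, ρ ^ 2 ≤ (K * D : ℤ) * dot (V c) (V c) := by
    intro c hc
    have h1 : ρ ≤ dot (percep (R.map (signed z c)) K) (V c) := by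
      rw [hV]
      simp only
      rw [dot_flatten_right, List.map_map]
      have h2 : ∀ r ∈ R, (1 : ℤ) ≤ dot (percep (R.map (signed z c)) K) (signed z c r) := by
        intro r hr
        have := hacc c hc
        unfold accepts at this
        rw [List.all_eq_true] at this
        have := this (signed z c r) (List.mem_map_of_mem hr)
        have : 0 < dot (percep (R.map (signed z c)) K) (signed z c r) := by simpa using this
        linarith
      have h3 : (R.map fun _ => (1 : ℤ)).sum ≤
          (R.map ((fun v => dot (percep (R.map (signed z c)) K) v) ∘ signed z c)).sum := by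
        apply List.sum_le_sum
        intro r hr
        exact h2 r hr
      simpa [hρ] using h3
    have h2 : dot (percep (R.map (signed z c)) K) (percep (R.map (signed z c)) K) ≤ K * D := by
      have := percep_norm (R.map (signed z c)) K (D : ℤ) (by
        intro v hv
        rw [List.mem_map] at hv
        obtain ⟨r, hr, rfl⟩ := hv
        rw [dot_signed_self]
        exact hD r hr) (by positivity)
      exact this
    have h3 := dot_sq_le (percep (R.map (signed z c)) K) (V c)
    have h4 : ρ ^ 2 ≤ dot (percep (R.map (signed z c)) K) (V c) ^ 2 :=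
      pow_le_pow_left₀ hρpos.le h1 2
    exact h4.trans (h3.trans (mul_le_mul_of_nonneg_right h2 (dot_self_nonneg _)))
  -- Bessel
  have hbessel : ∑ c ∈ B.toFinset, dot (V c) (V c) ≤ ρ * (ρ * D) := by
    set S : Finset κ := (R.toFinset).biUnion fun r => keys (z r) with hS
    have hkeys : ∀ c, ∀ e ∈ V c, e.2 ∈ S := by
      intro c e he
      rw [hV] at he
      simp only [List.mem_flatten, List.mem_map] at he
      obtain ⟨v, ⟨r, hr, rfl⟩, he⟩ := he
      rw [hS, Finset.mem_biUnion]
      refine ⟨r, List.mem_toFinset.mpr hr, ?_⟩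
      unfold signed at he
      split_ifs at he with h
      · unfold neg at he
        rw [List.mem_map] at he
        obtain ⟨f, hf, rfl⟩ := he
        exact (mem_keys hf : f.2 ∈ keys (z r))
      · exact mem_keys he
    have h1 : ∀ c, dot (V c) (V c)
        = ∑ k ∈ S, (∑ i : Fin R.length, sgn (!par (R.get i) c) * coef (z (R.get i)) k) ^ 2 := by
      intro c
      rw [dot_eq_sum _ _ S (hkeys c)]
      refine Finset.sum_congr rfl fun k _ => ?_
      have h2 : coef (V c) k
          = ∑ i : Fin R.length, sgn (!par (R.get i) c) * coef (z (R.get i)) k := by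
        rw [hV]
        simp only
        rw [coef_flatten, List.map_map, list_sum_eq_fin]
        exact Finset.sum_congr rfl fun i _ => coef_signed z c _ k
      rw [h2, sq]
    rw [Finset.sum_congr rfl fun c _ => h1 c, Finset.sum_comm]
    have h2 : ∀ k ∈ S, ∑ c ∈ B.toFinset,
        (∑ i : Fin R.length, sgn (!par (R.get i) c) * coef (z (R.get i)) k) ^ 2
          ≤ ρ * ∑ i : Fin R.length, coef (z (R.get i)) k ^ 2 := by
      intro k _
      have := bessel B.toFinset (fun c (i : Fin R.length) => sgn (!par (R.get i) c))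
        (fun i => coef (z (R.get i)) k)
        (by
          intro c _ i
          cases par (R.get i) c <;> simp [sgn])
        (by
          intro c hc c' hc' hne
          have h := horth c (List.mem_toFinset.mp hc) c' (List.mem_toFinset.mp hc') hne
          rw [list_sum_eq_fin] at h
          rw [← h]
          exact Finset.sum_congr rfl fun i _ => sgn_mul_par _ _ _)
      rw [Fintype.card_fin] at this
      exact this
    refine (Finset.sum_le_sum h2).trans ?_
    rw [← Finset.mul_sum, Finset.sum_comm]
    refine mul_le_mul_of_nonneg_left ?_ hρpos.le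
    have h3 : ∀ i : Fin R.length, ∑ k ∈ S, coef (z (R.get i)) k ^ 2 ≤ (D : ℤ) := by
      intro i
      have h4 : dot (z (R.get i)) (z (R.get i)) = ∑ k ∈ S, coef (z (R.get i)) k ^ 2 := by
        rw [dot_eq_sum _ _ S]
        · exact Finset.sum_congr rfl fun k _ => (sq _).symm
        · intro e he
          rw [hS, Finset.mem_biUnion]
          exact ⟨R.get i, List.mem_toFinset.mpr (List.get_mem R i), mem_keys he⟩
      rw [← h4]
      exact hD _ (List.get_mem R i)
    calc ∑ i : Fin R.length, ∑ k ∈ S, coef (z (R.get i)) k ^ 2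
        ≤ ∑ _i : Fin R.length, (D : ℤ) := Finset.sum_le_sum fun i _ => h3 i
      _ = ρ * D := by simp [hρ]
  -- summation
  have hsum : (B.length : ℤ) * ρ ^ 2 ≤ (K * D : ℤ) * (ρ * (ρ * D)) := by
    have h1 : ∑ _c ∈ B.toFinset, ρ ^ 2 ≤ ∑ c ∈ B.toFinset, (K * D : ℤ) * dot (V c) (V c) :=
      Finset.sum_le_sum fun c hc => hone c (List.mem_toFinset.mp hc)
    rw [Finset.sum_const, List.toFinset_card_of_nodup hB, nsmul_eq_mul, ← Finset.mul_sum] at h1
    exact h1.trans (mul_le_mul_of_nonneg_left hbessel (by positivity))
  have h2 : (B.length : ℤ) * ρ ^ 2 ≤ ((K * D * D : ℕ) : ℤ) * ρ ^ 2 := by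
    calc _ ≤ _ := hsum
      _ = _ := by push_cast; ring
  have h3 : (B.length : ℤ) ≤ ((K * D * D : ℕ) : ℤ) := le_of_mul_le_mul_right h2 (by positivity)
  exact_mod_cast h3

end vec

end Pool.Agent.Lib.MP_634427_lc
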