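import Pool.Agent.Lib.MP_634427_lc.Model

/-!
# Combinatorial definitions for the threshold truth-table theorem (problem MP_634427_lc)

Words, signed multisets of keys (vectors), their inner product, the perceptron, parities of
words, and the greedy separation procedure.  No complexity theory here.
-/

namespace Pool.Agent.Lib.MP_634427_lc

/-- A signed multiset of keys: a list of pairs (sign, key); `true` is `+`, `false` is `-`. -/
abbrev SVec (κ : Type) := List (Bool × κ)

/-- `+1` for `true`, `-1` for `false`. -/
def sgn (b : Bool) : ℤ := if b then 1 else -1

section vec

variable {κ : Type} [DecidableEq κ]

/-- Inner product of two signed multisets. -/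
def dot (v w : SVec κ) : ℤ :=
  (v.map fun e => (w.map fun e' => if e.2 = e'.2 then sgn e.1 * sgn e'.1 else 0).sum).sum

/-- Change all signs. -/
def neg (v : SVec κ) : SVec κ := v.map fun e => (!e.1, e.2)

open Classical in
/-- Number of `+` keys with property `P` minus number of `-` keys with property `P`. -/
noncomputable def score (P : κ → Prop) (v : SVec κ) : ℤ :=
  (v.map fun e => if P e.2 then sgn e.1 else 0).sum

/-- One step of the perceptron: find the first vector on which `w` errs and add it. -/
def pstep (zs : List (SVec κ)) (w : SVec κ) : SVec κ :=
  match zs.find? (fun z => decide (dot w z ≤ 0)) with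
  | none => w
  | some z => w ++ z

/-- `K` steps of the perceptron from `0`. -/
def percep (zs : List (SVec κ)) (K : ℕ) : SVec κ := (pstep zs)^[K] []

/-- Does the perceptron separate all `zs` after `K` steps? -/
def accepts (zs : List (SVec κ)) (K : ℕ) : Bool :=
  zs.all (fun z => decide (0 < dot (percep zs K) z))

end vec

/-- Parity of the common ones of two words (inner product over `GF(2)`; the shorter word is
padded with zeros). -/
def par : Word → Word → Bool
  | a :: r, b :: c => xor (a && b) (par r c)
  | _, _ => false

/-- Sum over `GF(2)`, the shorter word padded with zeros. -/
def addw : Word → Word → Word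
  | a :: r, b :: c => xor a b :: addw r c
  | [], c => c
  | r, [] => r

/-- The parity tests `R` (a list with repetitions allowed) are orthogonal on the list `B`:
any two different members of `B` are separated by exactly half of the tests. -/
def Orth (R B : List Word) : Prop :=
  ∀ c ∈ B, ∀ c' ∈ B, c ≠ c' → (R.map fun r => sgn (par r c == par r c')).sum = 0

/-- All one-bit extensions. -/
def ext (B : List Word) : List Word := B.flatMap fun c => [c ++ [false], c ++ [true]]

/-- The unit vector with a one at position `j`. -/
def unitw (j : ℕ) : Word := List.replicate j false ++ [true]

/-- Add one generator to a list of parity tests. -/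
def addGen (g : Word) (R : List Word) : List Word := R ++ R.map (addw g)

/-- All subset sums of the generators `G`, cut off at `N` entries. -/
def span (N : ℕ) (G : List Word) : List Word := G.foldr (fun g R => (addGen g R).take N) [[]]

/-- All ordered pairs of different members. -/
def pairs (B : List Word) : List (Word × Word) :=
  B.flatMap fun c => (B.filter fun c' => decide (c ≠ c')).map fun c' => (c, c')

/-- One greedy step: pick a test from `R` that separates at least half of the pairs not yet
separated. -/
def sepStep (R : List Word) (st : List Word × List (Word × Word)) :
    List Word × List (Word × Word) :=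
  if st.2.length = 0 then st
  else
    let r := (R.find? fun r =>
      decide (st.2.length ≤ 2 * (st.2.filter fun p => par r p.1 != par r p.2).length)).getD []
    (r :: st.1, st.2.filter fun p => par r p.1 == par r p.2)

/-- From tests `R` orthogonal on `B` produce few tests orthogonal on `B`. -/
def compress (N : ℕ) (R B : List Word) : List Word :=
  span N ((sepStep R)^[N] ([], pairs B)).1

/-- Signed vector attached to the test `r` and the candidate `c`. -/
def signed {κ : Type} (z : Word → SVec κ) (c r : Word) : SVec κ :=
  if par r c then neg (z r) else z r

/-- Value of a word as a binary number, least significant bit first. -/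
def bval : Word → ℕ
  | [] => 0
  | b :: l => (if b then 1 else 0) + 2 * bval l

/-- Weight of `u` when the `i`-th letter has as weight the `i`-th block of `t` bits of `y`. -/
def wt (t : ℕ) : Word → Word → ℕ
  | _, [] => 0
  | y, b :: u => (if b then bval (y.take t) else 0) + wt t (y.drop t) u

end Pool.Agent.Lib.MP_634427_lc
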