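import Pool.Agent.Lib.MP_634427_lc.Typed
import Pool.Agent.Lib.MP_634427_lc.Defs

/-!
# Polynomial-time functions on lists, numbers and words
-/

namespace Pool.Agent.Lib.MP_634427_lc

open BT

namespace PT

variable {α β γ δ σ : Type} [Enc α] [Enc β] [Enc γ] [Enc δ] [Enc σ]

/-- composition with a function of two arguments -/
lemma comp₂ {f : α → β → γ} {g : δ → α} {h : δ → β} (hf : PT fun p : α × β => f p.1 p.2)
    (hg : PT g) (hh : PT h) : PT fun c => f (g c) (h c) :=
  hf.comp (pair hg hh)

/-! ### Booleans -/

lemma not {f : γ → Bool} (hf : PT f) : PT fun c => !f c :=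
  (cond hf (const false) (const true)).of_eq fun c => by cases f c <;> rfl

lemma and {f g : γ → Bool} (hf : PT f) (hg : PT g) : PT fun c => f c && g c :=
  (cond hf hg (const false)).of_eq fun c => by cases f c <;> rfl

lemma or {f g : γ → Bool} (hf : PT f) (hg : PT g) : PT fun c => f c || g c :=
  (cond hf (const true) hg).of_eq fun c => by cases f c <;> rfl

lemma xor {f g : γ → Bool} (hf : PT f) (hg : PT g) : PT fun c => Bool.xor (f c) (g c) :=
  (cond hf (not hg) hg).of_eq fun c => by cases f c <;> cases g c <;> rfl

lemma bne {f g : γ → Bool} (hf : PT f) (hg : PT g) : PT fun c => f c != g c :=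
  (xor hf hg).of_eq fun c => by cases f c <;> cases g c <;> rfl

lemma beqBool {f g : γ → Bool} (hf : PT f) (hg : PT g) : PT fun c => f c == g c :=
  (not (xor hf hg)).of_eq fun c => by cases f c <;> cases g c <;> rfl

/-! ### Numbers -/

lemma add {f g : γ → ℕ} (hf : PT f) (hg : PT g) : PT fun c => f c + g c := by
  obtain ⟨F, hF, h⟩ := hf
  obtain ⟨G, hG, h'⟩ := hg
  exact ⟨_, pt_appU hF hG, fun c => by rw [h, h']; exact appU_un _ _⟩

lemma mul {f g : γ → ℕ} (hf : PT f) (hg : PT g) : PT fun c => f c * g c := by
  obtain ⟨F, hF, h⟩ := hf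
  obtain ⟨G, hG, h'⟩ := hg
  exact ⟨_, pt_mulU hF hG, fun c => by rw [h, h']; exact mulU_un _ _⟩

lemma sub {f g : γ → ℕ} (hf : PT f) (hg : PT g) : PT fun c => f c - g c := by
  obtain ⟨F, hF, h⟩ := hf
  obtain ⟨G, hG, h'⟩ := hg
  exact ⟨_, pt_dropU hF hG, fun c => by rw [h, h']; exact dropU_un _ _⟩

lemma pow {f : γ → ℕ} (hf : PT f) (k : ℕ) : PT fun c => f c ^ k := by
  induction k with
  | zero => simpa using const (1 : ℕ)
  | succ k ih => simpa only [pow_succ] using mul ih hf

lemma size {f : γ → α} (hf : PT f) : PT fun c => sz (f c) := by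
  obtain ⟨F, hF, h⟩ := hf
  exact ⟨_, pt_usize hF, fun c => by rw [h]; rfl⟩

/-- is a number zero? -/
lemma isZero {f : γ → ℕ} (hf : PT f) : PT fun c => decide (f c = 0) :=
  (isEmpty (natToList hf)).of_eq fun c => by rcases h : f c with _ | n <;> simp [List.replicate]

lemma le {f g : γ → ℕ} (hf : PT f) (hg : PT g) : PT fun c => decide (f c ≤ g c) :=
  (isZero (sub hf hg)).of_eq fun c => by simp [Nat.sub_eq_zero_iff_le]

lemma lt {f g : γ → ℕ} (hf : PT f) (hg : PT g) : PT fun c => decide (f c < g c) :=
  (le (succ hf) hg).of_eq fun c => by simp only [Nat.succ_le_iff]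

lemma eqNat {f g : γ → ℕ} (hf : PT f) (hg : PT g) : PT fun c => decide (f c = g c) :=
  (and (le hf hg) (le hg hf)).of_eq fun c => by
    rw [← Bool.decide_and]; congr 1; exact propext Nat.le_antisymm_iff.symm

lemma min {f g : γ → ℕ} (hf : PT f) (hg : PT g) : PT fun c => Min.min (f c) (g c) :=
  (cond (le hf hg) hf hg).of_eq fun c => by
    rcases le_total (f c) (g c) with h | h
    · simp [h]
    · rcases h.eq_or_lt with h' | h'
      · simp [h']
      · simp [h, not_le.2 h']

/-! ### Lists -/

lemma append {l l' : γ → List α} (hl : PT l) (hl' : PT l') : PT fun c => l c ++ l' c := by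
  have h := foldr_add (f := fun (_ : γ) (a : α) r => a :: r) hl hl'
    (cons (fst' snd) (snd' snd)) (by
      obtain ⟨k, hk⟩ := hl.size_le
      obtain ⟨k', hk'⟩ := PB.add (F := fun n => (n + 2) ^ k) ⟨k, fun n => le_rfl⟩ (PB.const 1)
      refine ⟨k', fun c a r ha => ?_⟩
      have h1 := sz_mem_le ha
      have h2 := hk c
      have h3 := hk' (sz c)
      beta_reduce at h3
      simp only [sz_cons]
      omega)
  refine h.of_eq fun c => ?_
  induction l c with
  | nil => rfl
  | cons a t ih => simp [ih]

lemma reverse {l : γ → List α} (hl : PT l) : PT fun c => (l c).reverse := by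
  have h := foldr_add (f := fun (_ : γ) (a : α) r => r ++ [a]) hl (const [])
    (append (snd' snd) (cons (fst' snd) (const []))) (by
      obtain ⟨k, hk⟩ := hl.size_le
      obtain ⟨k', hk'⟩ := PB.add (F := fun n => (n + 2) ^ k) ⟨k, fun n => le_rfl⟩ (PB.const 1)
      refine ⟨k', fun c a r ha => ?_⟩
      have h1 := sz_mem_le ha
      have h2 := hk c
      have h3 := hk' (sz c)
      beta_reduce at h3
      simp only [sz_append, sz_cons, sz_lnil]
      omega)
  refine h.of_eq fun c => ?_
  induction l c with
  | nil => rfl
  | cons a t ih => simp only [List.foldr_cons, List.reverse_cons]; rw [ih]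

/-- left fold with a size bound -/
theorem foldl {l : γ → List α} {s : γ → σ} {f : γ → σ → α → σ} (hl : PT l) (hs : PT s)
    (hf : PT fun p : γ × σ × α => f p.1 p.2.1 p.2.2)
    (hb : ∃ k, ∀ c l', l' <+: l c → sz (l'.foldl (f c) (s c)) ≤ (sz c + 2) ^ k) :
    PT fun c => (l c).foldl (f c) (s c) := by
  have h := foldr (f := fun c a r => f c r a) (reverse hl) hs
    (hf.comp (pair fst (pair (snd' snd) (fst' snd)))) (by
      obtain ⟨k, hk⟩ := hb
      refine ⟨k, fun c l' hl' => ?_⟩
      have := hk c l'.reverse (by
        have := List.reverse_prefix.2 hl'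
        simpa using this)
      rwa [← List.foldr_reverse, List.reverse_reverse] at this)
  exact h.of_eq fun c => by rw [List.foldr_reverse]

theorem map {l : γ → List α} {f : γ → α → β} (hl : PT l)
    (hf : PT fun p : γ × α => f p.1 p.2) : PT fun c => (l c).map (f c) := by
  have h := foldr_add (f := fun c a (r : List β) => f c a :: r) hl (const [])
    (cons (comp₂ hf fst (fst' snd)) (snd' snd)) (by
      obtain ⟨k, hk⟩ := hf.size_le
      obtain ⟨a, ha⟩ := hl.size_le
      obtain ⟨e, he⟩ := PB.add (PB.comp (F := fun n => (n + 2) ^ k)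
        (G := fun n => n + (n + 2) ^ a + 1) ⟨k, fun n => le_rfl⟩
        (PB.add (PB.add PB.id ⟨a, fun n => le_rfl⟩) (PB.const 1))) (PB.const 1)
      refine ⟨e, fun c x r hx => ?_⟩
      have h1 := sz_mem_le hx
      have h2 := ha c
      have h3 := he (sz c)
      beta_reduce at h3
      have h4 := hk (c, x)
      have h5 : (sz (c, x) + 2) ^ k ≤ ((sz c + (sz c + 2) ^ a + 1) + 2) ^ k :=
        Nat.pow_le_pow_left (by simp only [sz_pair]; omega) k
      simp only [sz_cons]
      simp only at h4
      omega)
  refine h.of_eq fun c => ?_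
  induction l c with
  | nil => rfl
  | cons a t ih => simp only [List.foldr_cons, List.map_cons]; rw [ih]

theorem filter {l : γ → List α} {p : γ → α → Bool} (hl : PT l)
    (hp : PT fun q : γ × α => p q.1 q.2) : PT fun c => (l c).filter (p c) := by
  have h := foldr_add (f := fun c a (r : List α) => bif p c a then a :: r else r) hl (const [])
    (cond (comp₂ hp fst (fst' snd)) (cons (fst' snd) (snd' snd)) (snd' snd)) (by
      obtain ⟨k, hk⟩ := hl.size_le
      obtain ⟨k', hk'⟩ := PB.add (F := fun n => (n + 2) ^ k) ⟨k, fun n => le_rfl⟩ (PB.const 1)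
      refine ⟨k', fun c a r ha => ?_⟩
      have h1 := sz_mem_le ha
      have h2 := hk c
      have h3 := hk' (sz c)
      beta_reduce at h3
      cases p c a
      · simp only [cond_false]; omega
      · simp only [cond_true, sz_cons]; omega)
  refine h.of_eq fun c => ?_
  induction l c with
  | nil => rfl
  | cons a t ih =>
    simp only [List.foldr_cons, List.filter_cons]
    rw [ih]
    cases p c a <;> rfl

theorem flatMap {l : γ → List α} {f : γ → α → List β} (hl : PT l)
    (hf : PT fun p : γ × α => f p.1 p.2) : PT fun c => (l c).flatMap (f c) := by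
  have h := foldr_add (f := fun c a (r : List β) => f c a ++ r) hl (const [])
    (append (comp₂ hf fst (fst' snd)) (snd' snd)) (by
      obtain ⟨k, hk⟩ := hf.size_le
      obtain ⟨a, ha⟩ := hl.size_le
      obtain ⟨e, he⟩ := PB.comp (F := fun n => (n + 2) ^ k)
        (G := fun n => n + (n + 2) ^ a + 1) ⟨k, fun n => le_rfl⟩
        (PB.add (PB.add PB.id ⟨a, fun n => le_rfl⟩) (PB.const 1))
      refine ⟨e, fun c x r hx => ?_⟩
      have h1 := sz_mem_le hx
      have h2 := ha c
      have h3 := he (sz c)
      beta_reduce at h3
      have h4 := hk (c, x)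
      have h5 : (sz (c, x) + 2) ^ k ≤ ((sz c + (sz c + 2) ^ a + 1) + 2) ^ k :=
        Nat.pow_le_pow_left (by simp only [sz_pair]; omega) k
      simp only [sz_append]
      simp only at h4
      omega)
  refine h.of_eq fun c => ?_
  induction l c with
  | nil => rfl
  | cons a t ih => simp only [List.foldr_cons, List.flatMap_cons]; rw [ih]

theorem all {l : γ → List α} {p : γ → α → Bool} (hl : PT l)
    (hp : PT fun q : γ × α => p q.1 q.2) : PT fun c => (l c).all (p c) := by
  have h := foldr_bdd (f := fun c a (r : Bool) => p c a && r) hl (const true)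
    (and (comp₂ hp fst (fst' snd)) (snd' snd)) ⟨0, fun c a r _ => sz_bool_le _⟩
  refine h.of_eq fun c => ?_
  induction l c with
  | nil => rfl
  | cons a t ih => simp only [List.foldr_cons, List.all_cons]; rw [ih]

theorem any {l : γ → List α} {p : γ → α → Bool} (hl : PT l)
    (hp : PT fun q : γ × α => p q.1 q.2) : PT fun c => (l c).any (p c) := by
  have h := foldr_bdd (f := fun c a (r : Bool) => p c a || r) hl (const false)
    (or (comp₂ hp fst (fst' snd)) (snd' snd)) ⟨0, fun c a r _ => sz_bool_le _⟩
  refine h.of_eq fun c => ?_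
  induction l c with
  | nil => rfl
  | cons a t ih => simp only [List.foldr_cons, List.any_cons]; rw [ih]

theorem find? {l : γ → List α} {p : γ → α → Bool} (hl : PT l)
    (hp : PT fun q : γ × α => p q.1 q.2) : PT fun c => (l c).find? (p c) :=
  (head? (filter hl hp)).of_eq fun c => by
    induction l c with
    | nil => rfl
    | cons a t ih =>
      rw [List.filter_cons, List.find?_cons]
      cases p c a
      · simp [ih]
      · rfl

lemma drop {n : γ → ℕ} {l : γ → List α} (hn : PT n) (hl : PT l) :
    PT fun c => (l c).drop (n c) := by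
  have key : ∀ (l : List α) i, (List.tail)^[i] l = l.drop i := by
    intro l i
    induction i generalizing l with
    | zero => rfl
    | succ i ih => rw [Function.iterate_succ_apply', ih, List.tail_drop]
  have h := iterate (f := fun (_ : γ) (r : List α) => r.tail) hn hl (tail snd) (by
    obtain ⟨k, hk⟩ := hl.size_le
    refine ⟨k, fun c i _ => ?_⟩
    rw [key]
    exact (sz_suffix_le (List.drop_suffix _ _)).trans (hk c))
  exact h.of_eq fun c => key _ _

lemma take {n : γ → ℕ} {l : γ → List α} (hn : PT n) (hl : PT l) :
    PT fun c => (l c).take (n c) := by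
  have h := reverse (drop (sub (length hl) hn) (reverse hl))
  refine h.of_eq fun c => ?_
  rw [← List.reverse_take, List.reverse_reverse]

lemma getLD {n : γ → ℕ} {l : γ → List α} {d : γ → α} (hn : PT n) (hl : PT l) (hd : PT d) :
    PT fun c => (l c).getD (n c) (d c) :=
  (getD (head? (drop hn hl)) hd).of_eq fun c => by
    rw [List.head?_drop, List.getD_eq_getElem?_getD]

lemma replicate {n : γ → ℕ} {a : γ → α} (hn : PT n) (ha : PT a) :
    PT fun c => List.replicate (n c) (a c) :=
  (map (f := fun c (_ : BT) => a c) (natToList hn) (ha.comp fst)).of_eq fun c => by simp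

lemma range {n : γ → ℕ} (hn : PT n) : PT fun c => List.range (n c) := by
  have h := natRec (s := fun _ : γ => ([] : List ℕ)) (f := fun (_ : γ) (i : ℕ) r => r ++ [i])
    hn (const []) (append (snd' snd) (cons (fst' snd) (const []))) (by
      obtain ⟨k, hk⟩ := hn.size_le
      obtain ⟨e, he⟩ := PB.mul (F := fun n => (n + 2) ^ k) (G := fun n => (n + 2) ^ k + 1)
        ⟨k, fun n => le_rfl⟩ (PB.add ⟨k, fun n => le_rfl⟩ (PB.const 1))
      refine ⟨e, fun c i hi => ?_⟩
      have h1 := hk c
      rw [sz_nat] at h1
      have key : ∀ j, sz (Nat.rec (motive := fun _ => List ℕ) [] (fun i r => r ++ [i]) j)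
          ≤ j * (j + 1) := by
        intro j
        induction j with
        | zero => simp
        | succ j ih => simp only [sz_append, sz_cons, sz_lnil, sz_nat]; nlinarith
      refine (key i).trans (le_trans ?_ (he (sz c)))
      exact Nat.mul_le_mul (hi.trans h1) (by omega))
  refine h.of_eq fun c => ?_
  induction n c with
  | zero => rfl
  | succ n ih => rw [List.range_succ, ← ih]

lemma headD {l : γ → List α} {d : γ → α} (hl : PT l) (hd : PT d) :
    PT fun c => (l c).headD (d c) :=
  (getD (head? hl) hd).of_eq fun c => by cases l c <;> rfl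

/-! ### Coding trees by words -/

end PT

/-- The word coding a tree. -/
def code : BT → Word
  | .nil => [false]
  | .node a b => true :: (code a ++ code b)

lemma sz_word_le (w : Word) : sz w ≤ 2 * w.length := by
  induction w with
  | nil => simp
  | cons b w ih => have := sz_bool_le b; simp; omega

lemma length_code (t : BT) : (code t).length = 2 * t.size + 1 := by
  induction t with
  | nil => rfl
  | node a b iha ihb => simp only [code, List.length_cons, List.length_append, iha, ihb, size_node]; omega

lemma PT.code {γ : Type} [Enc γ] {f : γ → BT} (hf : PT f) :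
    PT fun c => MP_634427_lc.code (f c) := by
  obtain ⟨F, hF, h⟩ := hf
  obtain ⟨A, hA, hA'⟩ := (PT.append (γ := Word × Word) (α := Bool) PT.fst PT.snd)
  have key : ∀ x y, BT.recur (fun _ => enc [false])
      (fun t => BT.node (enc true) (A t.right.right)) x y = enc (MP_634427_lc.code y) := by
    intro x y
    induction y with
    | nil => rfl
    | node a b iha ihb =>
      simp only [BT.recur, right_node, iha, ihb]
      have := hA' (MP_634427_lc.code a, MP_634427_lc.code b)
      simp only [enc_pair] at this
      rw [this]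
      rfl
  have h1 : PolyTime fun t => BT.recur (fun _ => enc [false])
      (fun t => BT.node (enc true) (A t.right.right)) t.left t.right := by
    refine .recur 3 (PT.const_tree _) (.node (PT.const_tree _)
      (.comp hA (.comp .right .right))) fun x y => ?_
    rw [key]
    have h1 := sz_word_le (MP_634427_lc.code y)
    rw [length_code] at h1
    refine (h1 : _).trans ?_
    have : 2 * (2 * y.size + 1) ≤ (y.size + 2) ^ 3 := by nlinarith [sq_nonneg y.size]
    exact this.trans (Nat.pow_le_pow_left (by omega) 3)
  have h2 := PolyTime.comp h1 (.node .nil hF)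
  refine ⟨_, h2, fun c => ?_⟩
  simp only [left_node, right_node]
  rw [key, h]; rfl

/-- One step of decoding, with a stack. -/
def decStep (b : Bool) (st : List BT) : List BT :=
  bif b then
    match st with
    | [] => []
    | s0 :: st' =>
      match st' with
      | [] => []
      | s1 :: rest => BT.node s0 s1 :: rest
  else BT.nil :: st

/-- The tree coded by a word (a default value if the word is no code). -/
def decode (w : Word) : BT := (w.foldr decStep []).headD .nil

lemma foldr_code (t : BT) (st : List BT) : (code t).foldr decStep st = t :: st := by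
  induction t generalizing st with
  | nil => rfl
  | node a b iha ihb =>
    simp only [code, List.foldr_cons, List.foldr_append, iha, ihb]
    rfl

@[simp] lemma decode_code (t : BT) : decode (code t) = t := by
  simp [decode, foldr_code]

lemma code_injective : Function.Injective code := fun s t h => by
  rw [← decode_code s, h, decode_code]

lemma PT.pairBT {γ : Type} [Enc γ] {f g : γ → BT} (hf : PT f) (hg : PT g) :
    PT fun c => BT.node (f c) (g c) := by
  obtain ⟨F, hF, h⟩ := hf
  obtain ⟨G, hG, h'⟩ := hg
  exact ⟨_, .node hF hG, fun c => by rw [h, h']; rfl⟩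

lemma PT.decode {γ : Type} [Enc γ] {f : γ → Word} (hf : PT f) :
    PT fun c => MP_634427_lc.decode (f c) := by
  have h0 := PT.casesList (γ := (Bool × List BT) × BT × List BT)
      (g := fun p (s1 : BT) (rest : List BT) => BT.node p.2.1 s1 :: rest) (PT.snd' PT.snd)
      (PT.const []) (PT.cons (PT.pairBT (PT.fst' (PT.snd' PT.fst)) (PT.fst' PT.snd))
        (PT.snd' PT.snd))
  have h0' : PT fun p : (Bool × List BT) × BT × List BT => decStep true (p.2.1 :: p.2.2) :=
    h0.of_eq fun p => by rcases p with ⟨_, s0, _ | ⟨s1, rest⟩⟩ <;> rfl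
  have h1' := PT.casesList (g := fun (_ : Bool × List BT) (s0 : BT) (st' : List BT) =>
      decStep true (s0 :: st')) PT.snd (PT.const []) h0'
  have h1 : PT fun p : Bool × List BT => decStep p.1 p.2 :=
    (PT.cond PT.fst h1' (PT.cons (PT.const BT.nil) PT.snd)).of_eq fun p => by
      rcases p with ⟨b, _ | ⟨s0, _ | ⟨s1, rest⟩⟩⟩ <;> cases b <;> rfl
  have h2 := PT.foldr_add (f := fun (_ : γ) b st => decStep b st) hf (PT.const [])
    (h1.comp PT.snd) ⟨0, fun c b st _ => by
      cases b
      · simp [decStep]
      · rcases st with _ | ⟨s0, _ | ⟨s1, rest⟩⟩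
        · simp [decStep]
        · simp [decStep]
        · simp [decStep]; omega⟩
  exact PT.headD h2 (PT.const _)

/-! ### Equality tests -/

/-- equality of words, computed by a left fold -/
lemma PT.eqWord {γ : Type} [Enc γ] {f g : γ → Word} (hf : PT f) (hg : PT g) :
    PT fun c => decide (f c = g c) := by
  let st : Bool × Word → Bool → Bool × Word := fun s a =>
    match s.2 with
    | [] => (false, [])
    | b :: r => (s.1 && (a == b), r)
  have hst : PT fun p : (Bool × Word) × Bool => st p.1 p.2 :=
    (PT.casesList (g := fun (p : (Bool × Word) × Bool) b r => (p.1.1 && (p.2 == b), r))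
      (PT.snd' PT.fst) (PT.const (false, ([] : Word)))
      (PT.pair (PT.and (PT.fst' (PT.fst' PT.fst)) (PT.beqBool (PT.snd' PT.fst)
        (PT.fst' PT.snd))) (PT.snd' PT.snd))).of_eq fun p => by
      rcases p with ⟨⟨b, _ | ⟨b', r⟩⟩, a⟩ <;> rfl
  have hsuf : ∀ (l : Word) (s : Bool × Word), sz (l.foldl st s) ≤ sz s.2 + 2 := by
    intro l
    induction l with
    | nil => intro s; have := sz_bool_le s.1; simp [sz_prod s]; omega
    | cons a l ih =>
      intro s
      refine (ih _).trans ?_
      rcases s with ⟨b, _ | ⟨b', r⟩⟩
      · simp [st]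
      · simp [st]; omega
  have h1 := PT.foldl (f := fun (_ : γ) s a => st s a) hf (PT.pair (PT.const true) hg)
    (hst.comp PT.snd) (by
      obtain ⟨k, hk⟩ := hg.size_le
      obtain ⟨e, he⟩ := PB.add (F := fun n => (n + 2) ^ k) ⟨k, fun n => le_rfl⟩ (PB.const 2)
      refine ⟨e, fun c l' _ => (hsuf _ _).trans ?_⟩
      have := hk c
      have := he (sz c)
      beta_reduce at this
      simp only
      omega)
  have h2 := PT.and (PT.fst' h1) (PT.isEmpty (PT.snd' h1))
  refine h2.of_eq fun c => ?_
  have key : ∀ (l r : Word) (b : Bool), ((l.foldl st (b, r)).1 && (l.foldl st (b, r)).2.isEmpty)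
      = (b && decide (l = r)) := by
    intro l
    induction l with
    | nil => intro r b; cases r <;> simp
    | cons a l ih =>
      intro r b
      rcases r with _ | ⟨a', r⟩
      · simp only [List.foldl_cons]
        show ((l.foldl st (false, [])).1 && (l.foldl st (false, [])).2.isEmpty) = _
        rw [ih]; simp
      · simp only [List.foldl_cons]
        show ((l.foldl st ((b && (a == a')), r)).1 && (l.foldl st ((b && (a == a')), r)).2.isEmpty)
          = _
        rw [ih]
        cases b <;> cases a <;> cases a' <;> simp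
  rw [key]; simp

/-- equality tests via an injective encoding -/
lemma PT.eqDec {α γ : Type} [Enc α] [Enc γ] [DecidableEq α]
    (hinj : Function.Injective (enc : α → BT)) {f g : γ → α} (hf : PT f) (hg : PT g) :
    PT fun c => decide (f c = g c) := by
  have he : PT (fun a : α => (enc a : BT)) := ⟨_, .id, fun _ => rfl⟩
  refine (PT.eqWord (PT.code (he.comp hf)) (PT.code (he.comp hg))).of_eq fun c => ?_
  congr 1
  exact propext ⟨fun h => hinj (code_injective h), fun h => by rw [h]⟩

lemma enc_bool_injective : Function.Injective (enc : Bool → BT) := by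
  intro a b h; cases a <;> cases b <;> first | rfl | cases h

lemma enc_list_injective {α : Type} [Enc α] (h : Function.Injective (enc : α → BT)) :
    Function.Injective (enc : List α → BT) := by
  intro l l' hl
  induction l generalizing l' with
  | nil => cases l' with
    | nil => rfl
    | cons => cases hl
  | cons a l ih => cases l' with
    | nil => cases hl
    | cons b l' =>
      simp only [enc_cons, BT.node.injEq] at hl
      rw [h hl.1, ih hl.2]

lemma enc_word_injective : Function.Injective (enc : Word → BT) :=
  enc_list_injective enc_bool_injective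

end Pool.Agent.Lib.MP_634427_lc
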