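import Pool.Agent.Lib.MP_634427_lc.Classes
import Pool.Agent.Lib.MP_634427_lc.Data
import Pool.Agent.Lib.MP_634427_lc.Core

/-!
# Majority and disjunctive truth-table reductions are threshold reductions of degree one
-/

namespace Pool.Agent.Lib.MP_634427_lc

open Classical in
/-- `A` is reducible to `S` by a polynomial-time majority truth-table reduction: in polynomial time
one computes a list of queries, and `x ∈ A` iff more than half of them belong to `S`. -/
def MajReducible (A S : Set Word) : Prop :=
  ∃ f : Word → List Word, PT f ∧
    ∀ x, x ∈ A ↔ (f x).length < 2 * ((f x).filter fun q => decide (q ∈ S)).length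

/-- `A` is reducible to `S` by a polynomial-time disjunctive truth-table reduction: `x ∈ A` iff
some query belongs to `S`. -/
def DisjReducible (A S : Set Word) : Prop :=
  ∃ f : Word → List Word, PT f ∧ ∀ x, x ∈ A ↔ ∃ q ∈ f x, q ∈ S

lemma MajReducible.thr {A S : Set Word} (h : MajReducible A S) : ThrReducible 1 A S := by
  classical
  obtain ⟨f, hf, hA⟩ := h
  refine ⟨fun x => (f x).flatMap fun q => [(true, [q]), (true, [q]), (false, [])], ?_, ?_, ?_⟩
  · exact PT.flatMap (f := fun (_ : Word) (q : Word) => [(true, [q]), (true, [q]), (false, [])]) hf
      (PT.cons (PT.pair (PT.const true) (PT.cons PT.snd (PT.const [])))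
        (PT.cons (PT.pair (PT.const true) (PT.cons PT.snd (PT.const []))) (PT.const _)))
  · intro x e he
    obtain ⟨q, _, hq⟩ := List.mem_flatMap.1 he
    simp only [List.mem_cons, List.not_mem_nil, or_false] at hq
    rcases hq with rfl | rfl | rfl <;> simp
  · intro x
    rw [hA x, balance_eq_score]
    have key : ∀ l : List Word, score (fun Q => ∀ w ∈ Q, w ∈ S)
        (l.flatMap fun q => [(true, [q]), (true, [q]), (false, [])])
        = 2 * ((l.filter fun q => decide (q ∈ S)).length : ℤ) - l.length := by
      intro l
      induction l with
      | nil => simp [score]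
      | cons q l ih =>
        rw [List.flatMap_cons, score_append, ih, List.filter_cons]
        by_cases h : q ∈ S
        · simp [score, sgn, h]; ring
        · simp [score, sgn, h]; ring
    rw [key]
    omega

lemma DisjReducible.thr {A S : Set Word} (h : DisjReducible A S) : ThrReducible 1 A S := by
  classical
  obtain ⟨f, hf, hA⟩ := h
  refine ⟨fun x => (f x).map fun q => (true, [q]), ?_, ?_, ?_⟩
  · exact PT.map (f := fun (_ : Word) (q : Word) => (true, [q])) hf
      (PT.pair (PT.const true) (PT.cons PT.snd (PT.const [])))
  · intro x e he
    obtain ⟨q, _, rfl⟩ := List.mem_map.1 he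
    simp
  · intro x
    rw [hA x, balance_eq_score]
    have key : ∀ l : List Word, 0 ≤ score (fun Q => ∀ w ∈ Q, w ∈ S)
        (l.map fun q => (true, [q])) ∧ ((∃ q ∈ l, q ∈ S) ↔
          0 < score (fun Q => ∀ w ∈ Q, w ∈ S) (l.map fun q => (true, [q]))) := by
      intro l
      induction l with
      | nil => simp [score]
      | cons q l ih =>
        obtain ⟨h1, h2⟩ := ih
        rw [List.map_cons, score_cons]
        by_cases h : q ∈ S
        · simp only [h, List.mem_cons, exists_eq_or_imp, List.not_mem_nil, List.mem_cons,
            false_or, sgn, if_true]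
          constructor
          · simp; omega
          · simp [h]; omega
        · constructor
          · simp [h]; exact h1
          · simp [h]; exact h2
    exact (key _).2

end Pool.Agent.Lib.MP_634427_lc
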