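import Pool.Agent.Lib.MP_634427_lc.Defs

/-!
# The isolation lemma for weights read off a random bit string (problem MP_634427_lc, task 3)
-/

namespace Pool.Agent.Lib.MP_634427_lc

theorem bval_lt (y : Word) : bval y < 2 ^ y.length := by
  induction y with
  | nil => simp [bval]
  | cons b l ih =>
    simp only [bval, List.length_cons, pow_succ]
    split_ifs <;> omega

theorem bval_inj : ∀ (y z : Word), y.length = z.length → bval y = bval z → y = z
  | [], [], _, _ => rfl
  | [], _ :: _, h, _ => by simp at h
  | _ :: _, [], h, _ => by simp at h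
  | a :: y, b :: z, h, hv => by
    simp only [List.length_cons, Nat.add_right_cancel_iff] at h
    simp only [bval] at hv
    have hab : a = b := by
      cases a <;> cases b <;> simp at hv ⊢ <;> omega
    subst hab
    have h2 : bval y = bval z := by omega
    rw [bval_inj y z h h2]

theorem wt_le (t : ℕ) (y u : Word) : wt t y u ≤ u.length * 2 ^ t := by
  induction u generalizing y with
  | nil => simp [wt]
  | cons b u ih =>
    simp only [wt, List.length_cons, add_mul, one_mul]
    have h1 := ih (y.drop t)
    have h2 : bval (y.take t) < 2 ^ (y.take t).length := bval_lt _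
    have h3 : 2 ^ (y.take t).length ≤ 2 ^ t := Nat.pow_le_pow_right (by norm_num) (by simp)
    split_ifs <;> omega

/-- Value of the `i`-th block of `t` bits. -/
def blk (t : ℕ) (y : Word) (i : ℕ) : ℕ := bval ((y.drop (i * t)).take t)

theorem wt_eq (t : ℕ) (y u : Word) :
    wt t y u = ∑ i ∈ Finset.range u.length, if u.getD i false = true then blk t y i else 0 := by
  induction u generalizing y with
  | nil => simp [wt]
  | cons b u ih =>
    rw [wt, List.length_cons, Finset.sum_range_succ', ih]
    have h1 : ∀ i, blk t (y.drop t) i = blk t y (i + 1) := by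
      intro i
      unfold blk
      rw [List.drop_drop, add_mul, one_mul, add_comm]
    simp only [h1, List.getD_cons_succ, List.getD_cons_zero]
    rw [add_comm]
    simp [blk]

theorem blk_congr (t i j : ℕ) (y y' : Word) (hji : j ≠ i)
    (h : ∀ m, ¬ (i * t ≤ m ∧ m < i * t + t) → y[m]? = y'[m]?) : blk t y j = blk t y' j := by
  unfold blk
  congr 1
  apply List.ext_getElem?
  intro k
  rw [List.getElem?_take, List.getElem?_take]
  split_ifs with hk
  · rw [List.getElem?_drop, List.getElem?_drop]
    apply h
    rintro ⟨h1, h2⟩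
    rcases Nat.lt_or_gt_of_ne hji with hlt | hgt
    · have h3 : (j + 1) * t ≤ i * t := Nat.mul_le_mul_right t hlt
      rw [add_mul, one_mul] at h3
      omega
    · have h3 : (i + 1) * t ≤ j * t := Nat.mul_le_mul_right t hgt
      rw [add_mul, one_mul] at h3
      omega
  · rfl

theorem eq_of_blk (t i : ℕ) (y y' : Word) (hl : y.length = y'.length)
    (h : ∀ m, ¬ (i * t ≤ m ∧ m < i * t + t) → y[m]? = y'[m]?)
    (hb : blk t y i = blk t y' i) : y = y' := by
  have h1 : (y.drop (i * t)).take t = (y'.drop (i * t)).take t := by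
    apply bval_inj _ _ _ hb
    simp [hl]
  apply List.ext_getElem?
  intro m
  by_cases hm : i * t ≤ m ∧ m < i * t + t
  · have h2 := congrArg (fun l : Word => l[m - i * t]?) h1
    simp only [List.getElem?_take, List.getElem?_drop] at h2
    have h3 : m - i * t < t := by omega
    have h4 : i * t + (m - i * t) = m := by omega
    rw [if_pos h3, if_pos h3, h4] at h2
    exact h2
  · exact h m hm

/-- The strings for which position `i` is ambiguous: two elements of `F` of minimum weight, one
with a one and one with a zero at position `i`. -/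
def Amb (q t : ℕ) (F : Set Word) (i : ℕ) : Set (Fin q → Bool) :=
  {y | ∃ u ∈ F, ∃ v ∈ F, u.getD i false = true ∧ v.getD i false = false ∧
    wt t (List.ofFn y) u = wt t (List.ofFn y) v ∧
    ∀ w ∈ F, wt t (List.ofFn y) u ≤ wt t (List.ofFn y) w}

/-- Weight outside position `i`. -/
def wout (t M i : ℕ) (y u : Word) : ℕ :=
  ∑ j ∈ (Finset.range M).erase i, if u.getD j false = true then blk t y j else 0

theorem wt_split (t M i : ℕ) (hi : i < M) (y u : Word) (hu : u.length = M) :
    wt t y u = wout t M i y u + if u.getD i false = true then blk t y i else 0 := by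
  rw [wt_eq, hu, wout]
  exact (Finset.sum_erase_add _ _ (Finset.mem_range.mpr hi)).symm

theorem wout_congr (t M i : ℕ) (y y' u : Word)
    (h : ∀ m, ¬ (i * t ≤ m ∧ m < i * t + t) → y[m]? = y'[m]?) :
    wout t M i y u = wout t M i y' u := by
  unfold wout
  apply Finset.sum_congr rfl
  intro j hj
  rw [blk_congr t i j y y' (Finset.ne_of_mem_erase hj) h]

theorem amb_inj (q M t : ℕ) (F : Set Word) (hlen : ∀ u ∈ F, u.length = M) (i : ℕ) (hi : i < M)
    (y y' : Fin q → Bool) (hy : y ∈ Amb q t F i) (hy' : y' ∈ Amb q t F i)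
    (h : ∀ j : Fin q, ¬ (i * t ≤ j.1 ∧ j.1 < i * t + t) → y j = y' j) : y = y' := by
  have hag : ∀ m, ¬ (i * t ≤ m ∧ m < i * t + t) →
      (List.ofFn y)[m]? = (List.ofFn y')[m]? := by
    intro m hm
    rw [List.getElem?_ofFn, List.getElem?_ofFn]
    split_ifs with hq
    · rw [h ⟨m, hq⟩ hm]
    · rfl
  obtain ⟨u, hu, v, hv, hu1, hv0, huv, hmin⟩ := hy
  obtain ⟨u', hu', v', hv', hu1', hv0', huv', hmin'⟩ := hy'
  have e1 := wt_split t M i hi (List.ofFn y) u (hlen u hu)
  have e2 := wt_split t M i hi (List.ofFn y) v (hlen v hv)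
  have e3 := wt_split t M i hi (List.ofFn y) u' (hlen u' hu')
  have e4 := wt_split t M i hi (List.ofFn y) v' (hlen v' hv')
  have f1 := wt_split t M i hi (List.ofFn y') u (hlen u hu)
  have f2 := wt_split t M i hi (List.ofFn y') v (hlen v hv)
  have f3 := wt_split t M i hi (List.ofFn y') u' (hlen u' hu')
  have f4 := wt_split t M i hi (List.ofFn y') v' (hlen v' hv')
  rw [← wout_congr t M i _ _ _ hag] at f1 f2 f3 f4
  simp only [hu1, hv0, hu1', hv0', if_true] at e1 e2 e3 e4 f1 f2 f3 f4
  simp only [Bool.false_eq_true, if_false, add_zero] at e1 e2 e3 e4 f1 f2 f3 f4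
  have g1 := hmin u' hu'
  have g2 := hmin v' hv'
  have g3 := hmin' u hu
  have g4 := hmin' v hv
  have hb : blk t (List.ofFn y) i = blk t (List.ofFn y') i := by omega
  have := eq_of_blk t i (List.ofFn y) (List.ofFn y') (by simp) hag hb
  exact List.ofFn_injective this

open Classical in
theorem card_amb (q M t : ℕ) (hq : M * t ≤ q) (F : Set Word) (hlen : ∀ u ∈ F, u.length = M)
    (i : ℕ) (hi : i < M) :
    Nat.card (Amb q t F i) * 2 ^ t ≤ 2 ^ q := by
  have hblock : i * t + t ≤ q := by
    have h3 : (i + 1) * t ≤ M * t := Nat.mul_le_mul_right t hi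
    rw [add_mul, one_mul] at h3
    omega
  let φ : (Amb q t F i) × (Fin t → Bool) → (Fin q → Bool) := fun p j =>
    if h : i * t ≤ j.1 ∧ j.1 < i * t + t then p.2 ⟨j.1 - i * t, by omega⟩ else p.1.1 j
  have hφ : Function.Injective φ := by
    rintro ⟨⟨y, hy⟩, s⟩ ⟨⟨y', hy'⟩, s'⟩ hE
    have hs : s = s' := by
      funext k
      have h1 := congrFun hE ⟨i * t + k.1, by have := k.2; omega⟩
      have h2 : i * t ≤ i * t + k.1 ∧ i * t + k.1 < i * t + t := by
        have := k.2
        omega
      simp only [φ, dif_pos h2] at h1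
      have h3 : i * t + k.1 - i * t = k.1 := by omega
      simpa only [h3] using h1
    have hyy : y = y' := by
      apply amb_inj q M t F hlen i hi y y' hy hy'
      intro j hj
      have h1 := congrFun hE j
      simpa only [φ, dif_neg hj] using h1
    subst hs
    subst hyy
    rfl
  have h1 := Nat.card_le_card_of_injective φ hφ
  rw [Nat.card_prod] at h1
  simpa using h1

/-- The isolation lemma of Mulmuley, Vazirani and Vazirani, for weights read off a random
bit string of length `q ≥ M t`, where `2 M ≤ 2 ^ t`. -/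
theorem isolation (q M t : ℕ) (hq : M * t ≤ q) (ht : 2 * M ≤ 2 ^ t) (F : Set Word)
    (hF : F.Nonempty) (hlen : ∀ u ∈ F, u.length = M) :
    2 ^ q ≤ 2 * Nat.card {y : Fin q → Bool //
      ∃ W, ∃! u, u ∈ F ∧ wt t (List.ofFn y) u = W} := by
  classical
  set good : Set (Fin q → Bool) := {y | ∃ W, ∃! u, u ∈ F ∧ wt t (List.ofFn y) u = W} with hgood
  change 2 ^ q ≤ 2 * Nat.card good
  have hcover : ∀ y, y ∉ good → ∃ i < M, y ∈ Amb q t F i := by
    intro y hy
    by_contra hno
    push Not at hno
    apply hy
    obtain ⟨u, hu, hmin⟩ : ∃ u ∈ F, ∀ w ∈ F, wt t (List.ofFn y) u ≤ wt t (List.ofFn y) w := by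
      obtain ⟨u, hu, hm⟩ := (InvImage.wf (fun u => wt t (List.ofFn y) u)
        Nat.lt_wfRel.wf).has_min F hF
      exact ⟨u, hu, fun w hw => not_lt.mp (hm w hw)⟩
    refine ⟨wt t (List.ofFn y) u, u, ⟨hu, rfl⟩, ?_⟩
    rintro v ⟨hv, hvw⟩
    by_contra hne
    have hdiff : ∃ i < M, v.getD i false ≠ u.getD i false := by
      by_contra hall
      push Not at hall
      apply hne
      apply List.ext_getElem (by rw [hlen v hv, hlen u hu])
      intro i h1 h2
      have h3 := hall i (by rw [← hlen v hv]; exact h1)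
      rwa [List.getD_eq_getElem _ _ h1, List.getD_eq_getElem _ _ h2] at h3
    obtain ⟨i, hi, hd⟩ := hdiff
    apply hno i hi
    cases hvb : v.getD i false with
    | true =>
      have hub : u.getD i false = false := by
        cases hub : u.getD i false with
        | true => exact absurd (hvb.trans hub.symm) hd
        | false => rfl
      exact ⟨v, hv, u, hu, hvb, hub, hvw, fun w hw => hvw ▸ hmin w hw⟩
    | false =>
      have hub : u.getD i false = true := by
        cases hub : u.getD i false with
        | true => rfl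
        | false => exact absurd (hvb.trans hub.symm) hd
      exact ⟨u, hu, v, hv, hub, hvb, hvw.symm, hmin⟩
  have hsum : Nat.card (goodᶜ : Set (Fin q → Bool)) ≤
      ∑ i ∈ Finset.range M, Nat.card (Amb q t F i) := by
    have h1 : (goodᶜ : Set (Fin q → Bool)).toFinset ⊆
        (Finset.range M).biUnion fun i => (Amb q t F i).toFinset := by
      intro y hy
      rw [Set.mem_toFinset] at hy
      obtain ⟨i, hi, hA⟩ := hcover y hy
      rw [Finset.mem_biUnion]
      exact ⟨i, Finset.mem_range.mpr hi, by rw [Set.mem_toFinset]; exact hA⟩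
    have h2 := (Finset.card_le_card h1).trans Finset.card_biUnion_le
    simpa only [Nat.card_eq_card_toFinset] using h2
  have hbad : 2 * Nat.card (goodᶜ : Set (Fin q → Bool)) ≤ 2 ^ q := by
    have h1 : Nat.card (goodᶜ : Set (Fin q → Bool)) * 2 ^ t ≤ M * 2 ^ q := by
      calc Nat.card (goodᶜ : Set (Fin q → Bool)) * 2 ^ t
          ≤ (∑ i ∈ Finset.range M, Nat.card (Amb q t F i)) * 2 ^ t :=
            Nat.mul_le_mul_right _ hsum
        _ = ∑ i ∈ Finset.range M, Nat.card (Amb q t F i) * 2 ^ t := Finset.sum_mul _ _ _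
        _ ≤ ∑ _i ∈ Finset.range M, 2 ^ q :=
            Finset.sum_le_sum fun i hi => card_amb q M t hq F hlen i (Finset.mem_range.mp hi)
        _ = M * 2 ^ q := by simp
    have h2 : (2 * Nat.card (goodᶜ : Set (Fin q → Bool))) * 2 ^ t ≤ 2 ^ q * 2 ^ t := by
      calc (2 * Nat.card (goodᶜ : Set (Fin q → Bool))) * 2 ^ t
          = 2 * (Nat.card (goodᶜ : Set (Fin q → Bool)) * 2 ^ t) := by ring
        _ ≤ 2 * (M * 2 ^ q) := Nat.mul_le_mul_left _ h1
        _ = (2 * M) * 2 ^ q := by ring
        _ ≤ 2 ^ t * 2 ^ q := Nat.mul_le_mul_right _ ht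
        _ = 2 ^ q * 2 ^ t := by ring
    exact Nat.le_of_mul_le_mul_right h2 (by positivity)
  have htot : Nat.card good + Nat.card (goodᶜ : Set (Fin q → Bool)) = 2 ^ q := by
    have h1 := Finset.card_add_card_compl good.toFinset
    rw [← Set.toFinset_compl, Fintype.card_fun, Fintype.card_bool, Fintype.card_fin] at h1
    simpa only [Nat.card_eq_card_toFinset] using h1
  omega

end Pool.Agent.Lib.MP_634427_lc
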