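import Pool.Agent.Lib.MP_634427_lc.Solve
import Pool.Agent.Lib.MP_634427_lc.Isolation

/-!
# Consequences for the classes UP, NP and RP
-/

namespace Pool.Agent.Lib.MP_634427_lc

open BT

/-! ### Witnesses of exact length -/

/-- Remove the leading zeros and the first one. -/
def strip : Word → Option Word
  | [] => none
  | b :: u => if b then some u else strip u

/-- Pad a word of length at most `B` to length `B + 1`. -/
def pad (B : ℕ) (u : Word) : Word := List.replicate (B - u.length) false ++ true :: u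

lemma length_pad {B : ℕ} {u : Word} (h : u.length ≤ B) : (pad B u).length = B + 1 := by
  simp [pad]; omega

lemma strip_replicate (k : ℕ) (u : Word) :
    strip (List.replicate k false ++ true :: u) = some u := by
  induction k with
  | zero => simp [strip]
  | succ k ih => simpa [List.replicate_succ, strip] using ih

lemma strip_pad (B : ℕ) (u : Word) : strip (pad B u) = some u := strip_replicate _ _

lemma eq_of_strip {u' u : Word} (h : strip u' = some u) :
    ∃ k, u' = List.replicate k false ++ true :: u := by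
  induction u' with
  | nil => simp [strip] at h
  | cons b v ih =>
    cases b
    · obtain ⟨k, hk⟩ := ih (by simpa [strip] using h)
      exact ⟨k + 1, by rw [hk]; simp [List.replicate_succ]⟩
    · simp only [strip, if_true, Option.some.injEq] at h
      exact ⟨0, by simp [h]⟩

lemma eq_pad_of_strip {B : ℕ} {u' u : Word} (h : strip u' = some u) (hl : u'.length = B + 1) :
    u.length ≤ B ∧ u' = pad B u := by
  obtain ⟨k, rfl⟩ := eq_of_strip h
  simp at hl
  refine ⟨by omega, ?_⟩
  unfold pad
  congr 2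
  omega

lemma pt_strip {γ : Type} [Enc γ] {f : γ → Word} (hf : PT f) :
    PT fun c => strip (f c) := by
  have h := PT.listRec (s := fun _ : γ => (none : Option Word))
    (f := fun (_ : γ) (b : Bool) (l : Word) (r : Option Word) => bif b then some l else r) hf
    (PT.const none) (PT.cond (PT.fst' PT.snd) (PT.some (PT.fst' (PT.snd' PT.snd)))
      (PT.snd' (PT.snd' PT.snd))) (by
      obtain ⟨k, hk⟩ := hf.size_le
      obtain ⟨e, he⟩ := PB.add (F := fun n => (n + 2) ^ k) ⟨k, fun n => le_rfl⟩ (PB.const 1)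
      refine ⟨e, fun c l' hl' => ?_⟩
      have key : ∀ l : Word, sz (PT.lrec (none : Option Word)
          (fun (b : Bool) (l : Word) (r : Option Word) => bif b then some l else r) l)
          ≤ sz l + 1 := by
        intro l
        induction l with
        | nil => simp [PT.lrec]
        | cons b l ih =>
          cases b
          · simp only [PT.lrec, cond_false, sz_cons]; omega
          · simp only [PT.lrec, cond_true, sz_some, sz_cons]; omega
      have h1 := key l'
      have h2 := sz_suffix_le hl'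
      have h3 := hk c
      have h4 := he (sz c)
      beta_reduce at h4
      omega)
  refine h.of_eq fun c => ?_
  induction f c with
  | nil => rfl
  | cons b l ih =>
    simp only [PT.lrec, strip]
    rw [ih]; cases b <;> rfl

/-- The relation with witnesses of exact length. -/
def relx (V : Word × Word → Bool) (p : Word × Word) : Bool :=
  match strip p.2 with
  | none => false
  | some u => V (p.1, u)

lemma pt_relx {V : Word × Word → Bool} (hV : PT V) : PT (relx V) :=
  (PT.casesOption (g := fun (p : Word × Word) u => V (p.1, u)) (pt_strip PT.snd)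
    (PT.const false) (hV.comp (PT.pair (PT.fst' PT.fst) PT.snd))).of_eq fun p => by
      unfold relx
      rcases strip p.2 <;> rfl

/-- the length bound for witnesses -/
def wb (c : ℕ) (x : Word) : ℕ := x.length ^ c + c

lemma pt_wb (c : ℕ) : PT (wb c) := PT.add (PT.pow (PT.length PT.id) c) (PT.const c)

lemma relx_pad (V : Word × Word → Bool) (x u : Word) (B : ℕ) :
    relx V (x, pad B u) = V (x, u) := by
  simp [relx, strip_pad]

lemma of_relx {V : Word × Word → Bool} {x u' : Word} {B : ℕ} (h : relx V (x, u') = true)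
    (hl : u'.length = B + 1) : ∃ u : Word, u.length ≤ B ∧ u' = pad B u ∧ V (x, u) = true := by
  unfold relx at h
  rcases hs : strip u' with _ | u
  · rw [hs] at h; cases h
  · rw [hs] at h
    obtain ⟨h1, h2⟩ := eq_pad_of_strip hs hl
    exact ⟨u, h1, h2, h⟩

section

variable (d : ℕ) (S : Set Word) (hS : Sparse S) (hard : ∀ A, InNP A → ThrReducible d A S)
include hS hard

/-- Unique witnesses can be found in polynomial time. -/
theorem unique_search (V : Word × Word → Bool) (c : ℕ) (hV : PT V) :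
    ∃ s : Word → Word, PT s ∧ ∀ x u, u.length ≤ x.length ^ c + c → V (x, u) = true →
      (∀ u', u'.length ≤ x.length ^ c + c → V (x, u') = true → u' = u) → s x = u := by
  obtain ⟨sol, hsol, hs⟩ := exists_solver d S hS hard (relx V) (fun x => wb c x + 1)
    (pt_relx hV) (PT.succ (pt_wb c))
  refine ⟨fun x => (strip (sol x)).getD [], PT.getD (pt_strip hsol) (PT.const []), ?_⟩
  intro x u hu hVu huniq
  have h := hs x (pad (wb c x) u) (length_pad hu) (by rw [relx_pad]; exact hVu) (by
    intro u' hl hu'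
    obtain ⟨u1, h1, rfl, h3⟩ := of_relx hu' hl
    rw [huniq u1 h1 h3])
  show (strip (sol x)).getD [] = u
  rw [h, strip_pad]; rfl

theorem inUP_iff_inP (L : Set Word) : InUP L ↔ InP L := by
  constructor
  · rintro ⟨V, c, hV, hL, huniq⟩
    obtain ⟨s, hs, hs'⟩ := unique_search d S hS hard V c hV
    refine ⟨fun x => decide ((s x).length ≤ wb c x) && V (x, s x),
      PT.and (PT.le (PT.length hs) (pt_wb c)) (hV.comp (PT.pair PT.id hs)), fun x => ?_⟩
    rw [hL x]
    constructor
    · rintro ⟨u, hu, hVu⟩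
      have h := hs' x u hu hVu fun u' h1 h2 => huniq x u' u h1 hu h2 hVu
      simp only [h, Bool.and_eq_true, decide_eq_true_eq]
      exact ⟨hu, hVu⟩
    · intro h
      simp only [Bool.and_eq_true, decide_eq_true_eq] at h
      exact ⟨s x, h.1, h.2⟩
  · rintro ⟨f, hf, hL⟩
    refine ⟨fun p => f p.1 && p.2.isEmpty, 0, PT.and (hf.comp PT.fst) (PT.isEmpty PT.snd),
      fun x => ?_, ?_⟩
    · rw [hL x]
      constructor
      · intro h; exact ⟨[], by simp, by simp [h]⟩
      · rintro ⟨u, _, hu⟩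
        simp only [Bool.and_eq_true] at hu
        exact hu.1
    · intro x u u' _ _ h1 h2
      simp only [Bool.and_eq_true, List.isEmpty_iff] at h1 h2
      rw [h1.2, h2.2]

end

/-! ### Weights in polynomial time -/

/-- one step of the computation of a power of two that is large enough -/
def lgStep (n : ℕ) (s : ℕ × ℕ) : ℕ × ℕ := if s.2 < n then (s.1 + 1, 2 * s.2) else s

/-- `(t, 2 ^ t)` with `n ≤ 2 ^ t ≤ 2 n + 1` -/
def lg (n : ℕ) : ℕ × ℕ := (lgStep n)^[n] (0, 1)

lemma lg_inv (n i : ℕ) : ((lgStep n)^[i] (0, 1)).2 = 2 ^ ((lgStep n)^[i] (0, 1)).1 ∧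
    ((lgStep n)^[i] (0, 1)).2 ≤ 2 * n + 1 ∧ ((lgStep n)^[i] (0, 1)).1 ≤ i ∧
    (((lgStep n)^[i] (0, 1)).2 < n → ((lgStep n)^[i] (0, 1)).1 = i) := by
  induction i with
  | zero => simp
  | succ i ih =>
    rw [Function.iterate_succ_apply']
    generalize (lgStep n)^[i] (0, 1) = s at ih ⊢
    obtain ⟨h1, h2, h3, h4⟩ := ih
    unfold lgStep
    split_ifs with h
    · refine ⟨?_, ?_, ?_, ?_⟩
      · simp only; rw [h1, pow_succ]; ring
      · simp only; omega
      · simp only; omega
      · intro _; simp only; rw [h4 h]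
    · exact ⟨h1, h2, by omega, fun h' => absurd h' h⟩

lemma lg_two_pow (n : ℕ) : (lg n).2 = 2 ^ (lg n).1 := (lg_inv n n).1
lemma lg_le (n : ℕ) : 2 ^ (lg n).1 ≤ 2 * n + 1 := by
  rw [← lg_two_pow]; exact (lg_inv n n).2.1
lemma lg_fst_le (n : ℕ) : (lg n).1 ≤ n := (lg_inv n n).2.2.1
lemma le_lg (n : ℕ) : n ≤ 2 ^ (lg n).1 := by
  by_contra h
  obtain ⟨h1, _, _, h4⟩ := lg_inv n n
  have h5 : ((lgStep n)^[n] (0, 1)).2 < n := by rw [h1]; exact not_le.1 h
  have h6 := h4 h5
  have h7 : 2 ^ (lg n).1 < n := not_le.1 h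
  have h8 : n < 2 ^ n := Nat.lt_two_pow_self
  unfold lg at h7
  rw [h6] at h7
  omega

lemma pt_lg {γ : Type} [Enc γ] {f : γ → ℕ} (hf : PT f) : PT fun c => lg (f c) := by
  have hstep : PT fun p : ℕ × (ℕ × ℕ) => lgStep p.1 p.2 :=
    PT.ite (p := fun p : ℕ × (ℕ × ℕ) => p.2.2 < p.1) (PT.lt (PT.snd' PT.snd) PT.fst)
      (PT.pair (PT.succ (PT.fst' PT.snd)) (PT.mul (PT.const 2) (PT.snd' PT.snd))) PT.snd
  refine PT.iterate (f := fun c s => lgStep (f c) s) hf (PT.const (0, 1))
    (hstep.comp (PT.pair (hf.comp PT.fst) PT.snd)) ?_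
  obtain ⟨k, hk⟩ := hf.size_le
  obtain ⟨e, he⟩ := PB.add (PB.mul (PB.const 3) (⟨k, fun n => le_rfl⟩ : PB fun n => (n + 2) ^ k))
    (PB.const 2)
  refine ⟨e, fun c i hi => ?_⟩
  show sz ((lgStep (f c))^[i] (0, 1)) ≤ _
  obtain ⟨h1, h2, h3, _⟩ := lg_inv (f c) i
  have h4 := hk c
  have h5 := he (sz c)
  rw [sz_nat] at h4
  rw [sz_prod, sz_nat, sz_nat]
  beta_reduce at h5
  omega

lemma bval_take_lt (t : ℕ) (y : Word) : bval (y.take t) < 2 ^ t := by
  have h1 := bval_lt (y.take t)
  have h2 : (y.take t).length ≤ t := List.length_take_le _ _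
  exact h1.trans_le (Nat.pow_le_pow_right (by omega) h2)

lemma bval_eq_foldr (y : Word) : bval y = y.foldr (fun b r => (if b then 1 else 0) + 2 * r) 0 := by
  induction y with
  | nil => rfl
  | cons b y ih => simp [bval, ih]

/-- Binary values of short words; `B` bounds the value. -/
lemma pt_bval {γ : Type} [Enc γ] {y : γ → Word} {B : γ → ℕ} (hy : PT y) (hB : PT B)
    (h : ∀ c, 2 ^ (y c).length ≤ B c) : PT fun c => bval (y c) := by
  simp only [bval_eq_foldr]
  refine PT.foldr (f := fun _ (b : Bool) (r : ℕ) => (if b = true then 1 else 0) + 2 * r) hy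
    (PT.const 0) (PT.add (PT.ite (p := fun p : γ × Bool × ℕ => p.2.1 = true)
      ((PT.fst' PT.snd).of_eq fun p => by cases p.2.1 <;> rfl) (PT.const 1) (PT.const 0))
      (PT.mul (PT.const 2) (PT.snd' PT.snd))) ?_
  obtain ⟨k, hk⟩ := hB.size_le
  refine ⟨k, fun c l' hl' => ?_⟩
  rw [sz_nat, ← bval_eq_foldr]
  have h1 := bval_lt l'
  have h2 : 2 ^ l'.length ≤ 2 ^ (y c).length := Nat.pow_le_pow_right (by omega) hl'.length_le
  have h3 := hk c
  rw [sz_nat] at h3
  have := h c
  omega

lemma wt_eq_foldl (t : ℕ) (u y : Word) (a : ℕ) :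
    (u.foldl (fun (s : Word × ℕ) b => (s.1.drop t, s.2 + (bif b then bval (s.1.take t) else 0)))
      (y, a)).2 = a + wt t y u := by
  induction u generalizing y a with
  | nil => simp [wt]
  | cons b u ih =>
    rw [List.foldl_cons, ih, wt]
    cases b
    · simp
    · simp; ring

lemma wt_foldl_bound (t : ℕ) (u y : Word) (a : ℕ) :
    sz (u.foldl (fun (s : Word × ℕ) b => (s.1.drop t, s.2 + (bif b then bval (s.1.take t) else 0)))
      (y, a)) ≤ sz y + (a + u.length * 2 ^ t) + 1 := by
  induction u generalizing y a with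
  | nil => simp
  | cons b u ih =>
    rw [List.foldl_cons]
    refine (ih _ _).trans ?_
    have h1 : sz (y.drop t) ≤ sz y := sz_suffix_le (List.drop_suffix _ _)
    have h2 := bval_take_lt t y
    have h3 : (bif b then bval (y.take t) else 0) ≤ 2 ^ t := by
      cases b
      · simp
      · simp only [cond_true]; omega
    simp only [List.length_cons]
    rw [Nat.succ_mul]
    omega

lemma pt_wt {γ : Type} [Enc γ] {n : γ → ℕ} {y u : γ → Word} (hn : PT n) (hy : PT y) (hu : PT u) :
    PT fun c => wt (lg (n c)).1 (y c) (u c) := by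
  have ht : PT fun c => (lg (n c)).1 := PT.fst' (pt_lg hn)
  have hp : PT fun c => (lg (n c)).2 := PT.snd' (pt_lg hn)
  have hbv : PT fun q : γ × (Word × ℕ) × Bool => bval (q.2.1.1.take (lg (n q.1)).1) :=
    pt_bval (B := fun q : γ × (Word × ℕ) × Bool => (lg (n q.1)).2)
      (PT.take (ht.comp PT.fst) (PT.fst' (PT.fst' PT.snd))) (hp.comp PT.fst) fun q => by
        rw [lg_two_pow]
        exact Nat.pow_le_pow_right (by omega) (List.length_take_le _ _)
  have h := PT.foldl (f := fun c (s : Word × ℕ) (b : Bool) => (s.1.drop (lg (n c)).1,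
    s.2 + (bif b then bval (s.1.take (lg (n c)).1) else 0))) hu (PT.pair hy (PT.const 0))
    (PT.pair (PT.drop (ht.comp PT.fst) (PT.fst' (PT.fst' PT.snd)))
      (PT.add (PT.snd' (PT.fst' PT.snd)) (PT.cond (PT.snd' PT.snd) hbv (PT.const 0)))) (by
      obtain ⟨k, hk⟩ := hy.size_le
      obtain ⟨k', hk'⟩ := hu.size_le
      obtain ⟨k2, hk2⟩ := hn.size_le
      obtain ⟨e, he⟩ := PB.add (PB.add (F := fun n => (n + 2) ^ k) ⟨k, fun n => le_rfl⟩
        (PB.mul (F := fun n => (n + 2) ^ k') (G := fun n => 2 * (n + 2) ^ k2 + 1)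
          ⟨k', fun n => le_rfl⟩ (PB.add (PB.mul (PB.const 2) ⟨k2, fun n => le_rfl⟩)
            (PB.const 1)))) (PB.const 1)
      refine ⟨e, fun c l' hl' => (wt_foldl_bound _ _ _ _).trans (le_trans ?_ (he (sz c)))⟩
      have h1 := hk c
      have h2 := hk' c
      have h3 := hk2 c
      rw [sz_nat] at h3
      have h4 : l'.length ≤ (sz c + 2) ^ k' :=
        (hl'.length_le.trans (length_le_sz _)).trans h2
      have h5 := lg_le (n c)
      have h6 : l'.length * 2 ^ (lg (n c)).1 ≤ (sz c + 2) ^ k' * (2 * (sz c + 2) ^ k2 + 1) :=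
        Nat.mul_le_mul h4 (by omega)
      beta_reduce
      omega)
  exact (PT.snd' h).of_eq fun c => by rw [wt_eq_foldl]; simp

/-! ### RP -/

lemma pow_le_pow_add (e : ℕ) : ∀ n : ℕ, (n + 2) ^ e ≤ n ^ (3 ^ e) + 3 ^ e := by
  intro n
  rcases Nat.lt_or_ge n 2 with h | h
  · have : (n + 2) ^ e ≤ 3 ^ e := Nat.pow_le_pow_left (by omega) e
    omega
  · have h1 : n + 2 ≤ n ^ 2 := by nlinarith
    have h2 : (n + 2) ^ e ≤ (n ^ 2) ^ e := Nat.pow_le_pow_left h1 e
    have h3 : 2 * e ≤ 3 ^ e := by
      induction e with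
      | zero => simp
      | succ e ih =>
        have := ih (Nat.pow_le_pow_left h1 e)
        have h4 : 1 ≤ 3 ^ e := Nat.one_le_pow _ _ (by omega)
        rw [pow_succ]; omega
    rw [← pow_mul] at h2
    have h4 : n ^ (2 * e) ≤ n ^ (3 ^ e) := Nat.pow_le_pow_right (by omega) h3
    omega

section

variable (d : ℕ) (S : Set Word) (hS : Sparse S) (hard : ∀ A, InNP A → ThrReducible d A S)

include hS hard in
theorem inNP_imp_inRP (L : Set Word) (hL : InNP L) : InRP L := by
  obtain ⟨V, c, hV, hL⟩ := hL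
  let M : Word → ℕ := fun x => wb c x + 1
  have hM : PT M := PT.succ (pt_wb c)
  let n : Word → ℕ := fun x => 2 * M x
  have hn : PT n := PT.mul (PT.const 2) hM
  -- the relation with a prescribed weight
  let Rel : (Word × (Word × ℕ)) × Word → Bool := fun p =>
    relx V (p.1.1, p.2) && decide (wt (lg (n p.1.1)).1 p.1.2.1 p.2 = p.1.2.2)
  have hRel : PT Rel := PT.and ((pt_relx hV).comp (PT.pair (PT.fst' PT.fst) PT.snd))
    (PT.eqNat (pt_wt (hn.comp (PT.fst' PT.fst)) (PT.fst' (PT.snd' PT.fst)) PT.snd)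
      (PT.snd' (PT.snd' PT.fst)))
  obtain ⟨sol, hsol, hs⟩ := exists_solver d S hS hard Rel (fun a => M a.1) hRel
    (hM.comp PT.fst)
  -- the randomised algorithm
  let A : Word × Word → Bool := fun p => (List.range (M p.1 * (lg (n p.1)).2 + 1)).any fun W =>
    decide ((sol (p.1, (p.2, W))).length = M p.1) && relx V (p.1, sol (p.1, (p.2, W)))
  have hA : PT A := by
    refine PT.any (p := fun (p : Word × Word) W =>
      decide ((sol (p.1, (p.2, W))).length = M p.1) && relx V (p.1, sol (p.1, (p.2, W))))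
      (PT.range (PT.succ (PT.mul (hM.comp PT.fst) (PT.snd' (pt_lg (hn.comp PT.fst)))))) ?_
    have h1 : PT fun q : (Word × Word) × ℕ => sol (q.1.1, (q.1.2, q.2)) :=
      hsol.comp (PT.pair (PT.fst' PT.fst) (PT.pair (PT.snd' PT.fst) PT.snd))
    exact PT.and (PT.eqNat (PT.length h1) (hM.comp (PT.fst' PT.fst)))
      ((pt_relx hV).comp (PT.pair (PT.fst' PT.fst) h1))
  -- the number of random bits
  obtain ⟨e, he⟩ := PB.mul (F := fun k => k ^ c + c + 1) (G := fun k => 2 * (k ^ c + c + 1))
    (PB.add (PB.add (PB.pow PB.id c) (PB.const c)) (PB.const 1))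
    (PB.mul (PB.const 2) (PB.add (PB.add (PB.pow PB.id c) (PB.const c)) (PB.const 1)))
  refine ⟨A, 3 ^ e, hA, fun x => ⟨fun hx => ?_, fun hx y => ?_⟩⟩
  · let F : Set Word := {u | u.length = M x ∧ relx V (x, u) = true}
    have hF : F.Nonempty := by
      obtain ⟨u, hu, hVu⟩ := (hL x).1 hx
      exact ⟨pad (wb c x) u, length_pad hu, by rw [relx_pad]; exact hVu⟩
    have hq : M x * (lg (n x)).1 ≤ x.length ^ (3 ^ e) + 3 ^ e := by
      refine le_trans ?_ (pow_le_pow_add e x.length)
      refine le_trans ?_ (he x.length)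
      exact Nat.mul_le_mul_left _ (lg_fst_le _)
    have hiso := isolation _ (M x) (lg (n x)).1 hq (le_lg (n x)) F hF fun u hu => hu.1
    refine hiso.trans (Nat.mul_le_mul_left 2 ?_)
    have himp : ∀ y : Fin (x.length ^ (3 ^ e) + 3 ^ e) → Bool,
        (∃ W, ∃! u, u ∈ F ∧ wt (lg (n x)).1 (List.ofFn y) u = W) →
          A (x, List.ofFn y) = true := ?_
    · exact Nat.card_le_card_of_injective (Subtype.map id himp)
        (Subtype.map_injective himp Function.injective_id)
    rintro y ⟨W, u, ⟨⟨hu1, hu2⟩, hu3⟩, hu4⟩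
    simp only [A, List.any_eq_true]
    refine ⟨W, ?_, ?_⟩
    · rw [List.mem_range, lg_two_pow, ← hu3]
      have := wt_le (lg (n x)).1 (List.ofFn y) u
      rw [hu1] at this
      omega
    · have h1 : sol (x, (List.ofFn y, W)) = u := by
        refine hs (x, (List.ofFn y, W)) u hu1 ?_ ?_
        · simp only [Rel, Bool.and_eq_true, decide_eq_true_eq]
          exact ⟨hu2, hu3⟩
        · intro u' hl' hu'
          simp only [Rel, Bool.and_eq_true, decide_eq_true_eq] at hu'
          exact hu4 u' ⟨⟨hl', hu'.1⟩, hu'.2⟩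
      simp only [h1, Bool.and_eq_true, decide_eq_true_eq]
      exact ⟨hu1, hu2⟩
  · rw [Bool.eq_false_iff]
    intro hy
    simp only [A, List.any_eq_true, Bool.and_eq_true, decide_eq_true_eq] at hy
    obtain ⟨W, _, h1, h2⟩ := hy
    obtain ⟨u, hu, _, hVu⟩ := of_relx h2 h1
    exact hx ((hL x).2 ⟨u, hu, hVu⟩)

theorem inRP_imp_inNP (L : Set Word) (hL : InRP L) : InNP L := by
  obtain ⟨V, c, hV, hL⟩ := hL
  refine ⟨fun p => decide (p.2.length = wb c p.1) && V p, c,
    PT.and (PT.eqNat (PT.length PT.snd) ((pt_wb c).comp PT.fst)) hV, fun x => ?_⟩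
  obtain ⟨h1, h2⟩ := hL x
  constructor
  · intro hx
    have h3 := h1 hx
    have h4 : Nat.card {y : Fin (x.length ^ c + c) → Bool // V (x, List.ofFn y) = true} ≠ 0 := by
      intro h
      rw [h] at h3
      have : 0 < 2 ^ (x.length ^ c + c) := by positivity
      omega
    obtain ⟨⟨y, hy⟩⟩ := (Nat.card_ne_zero.1 h4).1
    exact ⟨List.ofFn y, by simp, by simp [wb, hy]⟩
  · rintro ⟨u, hu, hVu⟩
    simp only [Bool.and_eq_true, decide_eq_true_eq] at hVu
    by_contra hx
    let y : Fin (x.length ^ c + c) → Bool := fun i => u.getD i false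
    have h3 := h2 hx y
    have h4 : List.ofFn y = u := by
      apply List.ext_getElem
      · simp [hVu.1, wb]
      · intro i h1 h2; simp [y, h2]
    rw [h4, hVu.2] at h3
    cases h3

end

end Pool.Agent.Lib.MP_634427_lc
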