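import Pool.Agent.Lib.MP_634427_lc.Model

/-!
# Subpolynomial functions; threshold reductions with few bundles
-/

namespace Pool.Agent.Lib.MP_634427_lc

/-- `g n = n ^ o(1)`: every power of `g` is at most linear. -/
def SubPoly (g : ℕ → ℕ) : Prop := ∀ k : ℕ, ∃ C : ℕ, ∀ n, g n ^ k ≤ C * (n + 1)

/-- `A` is reducible to `S` by a polynomial-time threshold truth-table reduction that uses, for
inputs of length `n`, at most `g n = n ^ o(1)` signed bundles of at most `d n` words each, where
`(σ n + 1) ^ d n = n ^ o(1)` for the density `σ` of `S`: the input `x` is in `A` if and only if more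
positive than negative bundles of `f x` lie entirely in `S`. -/
def FewThrReducible (A S : Set Word) : Prop :=
  ∃ (f : Word → List (Bool × List Word)) (g d : ℕ → ℕ), PT f ∧ SubPoly g ∧ Monotone d ∧
    SubPoly (fun n => ({w ∈ S | w.length ≤ n}.ncard + 1) ^ d n) ∧
    (∀ x, (f x).length ≤ g x.length) ∧ (∀ x, ∀ e ∈ f x, e.2.length ≤ d x.length) ∧
    ∀ x, x ∈ A ↔ 0 < balance S (f x)

end Pool.Agent.Lib.MP_634427_lc
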