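import Pool.Agent.Lib.MP_634427_lc.Prune
import Pool.Agent.Lib.MP_634427_lc.Final
import Pool.Agent.Lib.MP_634427_lc.LowModel

/-!
# Threshold reductions with few bundles to sets of low density
-/

namespace Pool.Agent.Lib.MP_634427_lc

open BT

/-- Integer `M`-th root. -/
def root (M N : ℕ) : ℕ := Nat.findGreatest (fun q => q ^ M ≤ N) N

lemma root_pow_le (M N : ℕ) (hM : M ≠ 0) : root M N ^ M ≤ N := by
  have h : (fun q => q ^ M ≤ N) (Nat.findGreatest (fun q => q ^ M ≤ N) N) :=
    Nat.findGreatest_spec (P := fun q => q ^ M ≤ N) (m := 0) (Nat.zero_le _) (by simp [hM])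
  exact h

lemma le_root {M N y : ℕ} (hM : M ≠ 0) (h : y ^ M ≤ N) : y ≤ root M N :=
  Nat.le_findGreatest ((Nat.le_self_pow hM y).trans h) h

lemma pt_root {γ : Type} [Enc γ] (M : ℕ) {f : γ → ℕ} (hf : PT f) :
    PT fun c => root M (f c) := by
  have key : ∀ N n, Nat.rec (motive := fun _ => ℕ) 0
      (fun i r => if (i + 1) ^ M ≤ N then i + 1 else r) n
      = Nat.findGreatest (fun q => q ^ M ≤ N) n := by
    intro N n
    induction n with
    | zero => rfl
    | succ n ih => rw [Nat.findGreatest_succ, ← ih]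
  have h := PT.natRec (s := fun _ : γ => (0 : ℕ))
    (f := fun c i r => if (i + 1) ^ M ≤ f c then i + 1 else r) hf (PT.const 0)
    (PT.ite (p := fun p : γ × ℕ × ℕ => (p.2.1 + 1) ^ M ≤ f p.1)
      (PT.le (PT.pow (PT.succ (PT.fst' PT.snd)) M) (hf.comp PT.fst))
      (PT.succ (PT.fst' PT.snd)) (PT.snd' PT.snd)) (by
      obtain ⟨k, hk⟩ := hf.size_le
      refine ⟨k, fun c i hi => ?_⟩
      rw [key, sz_nat]
      have := hk c
      rw [sz_nat] at this
      exact (Nat.findGreatest_le i).trans (hi.trans this))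
  exact h.of_eq fun c => key _ _

lemma pow_arith {y e C N : ℕ} (h : y ^ (e + 1) ≤ C * (N + 2) ^ e) (hN : C * 2 ^ e ≤ N)
    (hN2 : 2 ≤ N) : y ≤ N := by
  by_contra hlt
  have hlt : N < y := not_le.1 hlt
  have h1 : N ^ (e + 1) < y ^ (e + 1) := Nat.pow_lt_pow_left hlt (by omega)
  have h2 : (N + 2) ^ e ≤ 2 ^ e * N ^ e := by
    rw [← mul_pow]; exact Nat.pow_le_pow_left (by omega) e
  have h3 : C * (N + 2) ^ e ≤ N * N ^ e := by
    calc C * (N + 2) ^ e ≤ C * (2 ^ e * N ^ e) := Nat.mul_le_mul_left _ h2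
      _ = (C * 2 ^ e) * N ^ e := by ring
      _ ≤ N * N ^ e := Nat.mul_le_mul_right _ hN
  have h4 : N * N ^ e = N ^ (e + 1) := by ring
  omega

theorem low_density (S : Set Word)
    (hard : ∀ A, InNP A → FewThrReducible A S) (L : Set Word) (hL : InNP L) : InP L := by
  obtain ⟨V, c, hV, hLV⟩ := hL
  let m : Word → ℕ := fun x => wb c x + 1
  have hm : PT m := PT.succ (pt_wb c)
  let Rel : (Word × List Word) × Word → Bool := fun p =>
    relx V (p.1.1, p.2) && p.1.2.any fun w => decide (w = p.2.take w.length)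
  have hRel : PT Rel := by
    refine PT.and ((pt_relx hV).comp (PT.pair (PT.fst' PT.fst) PT.snd)) ?_
    exact PT.any (p := fun (p : (Word × List Word) × Word) w => decide (w = p.2.take w.length))
      (PT.snd' PT.fst) (PT.eqDec enc_word_injective PT.snd
        (PT.take (PT.length PT.snd) (PT.snd' PT.fst)))
  obtain ⟨A, hA, hmem⟩ := exists_parity_set Rel (fun a => m a.1) hRel (hm.comp PT.fst)
  obtain ⟨f, g, d, hf, hg, hdm, hS, hfg, hfd, hfA⟩ := hard A hA
  simp only [balance_eq_score] at hfA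
  let cw : Word → List Word → Word → Bool → Word := fun x B r b => code (enc ((x, B), (r, b)))
  have hcwlen : ∀ x B r b, (cw x B r b).length =
      2 * ((sz x + sz B + 1) + (sz r + sz b + 1) + 1) + 1 := fun x B r b => length_code _
  let v : Word → List Word → Word → Bool → SVec (List Word) := fun x B r b => f (cw x B r b)
  let z : Word → List Word → Word → SVec (List Word) := fun x B r =>
    v x B r false ++ neg (v x B r true)
  have hv : ∀ b, PT fun p : Word × List Word × Word => v p.1 p.2.1 p.2.2 b := fun b =>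
    hf.comp (PT.code (pt_enc (PT.pair (PT.pair PT.fst (PT.fst' PT.snd))
      (PT.pair (PT.snd' PT.snd) (PT.const b)))))
  have hz : PT fun p : Word × List Word × Word => z p.1 p.2.1 p.2.2 :=
    PT.append (hv false) (PT.neg (hv true))
  obtain ⟨k, hk⟩ := hm.size_le
  have hmk : ∀ a, m a ≤ (sz a + 2) ^ k := fun a => by
    have := hk a; rwa [sz_nat] at this
  obtain ⟨k2, hk2⟩ := hf.size_le
  -- bound for the size of the instances
  obtain ⟨e, he⟩ : ∃ e, ∀ (N0 : ℕ) (x : Word), sz x ≤ N0 → ∀ B : List Word, B.length ≤ 2 * N0 →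
      (∀ w ∈ B, w.length ≤ m x) → ∀ r : Word, r.length ≤ m x → ∀ b,
      (cw x B r b).length ≤ (N0 + 2) ^ e ∧ sz (v x B r b) ≤ (N0 + 2) ^ e := by
    have hPk : PB fun n => (n + 2) ^ k := ⟨k, fun n => le_rfl⟩
    have hG : PB fun n => 2 * ((n + 2 * n * (2 * (n + 2) ^ k + 1) + 1) +
        (2 * (n + 2) ^ k + 1 + 1) + 1) + 1 :=
      PB.add (PB.mul (PB.const 2) (PB.add (PB.add (PB.add (PB.add PB.id (PB.mul
        (PB.mul (PB.const 2) PB.id) (PB.add (PB.mul (PB.const 2) hPk) (PB.const 1))))
        (PB.const 1)) (PB.add (PB.add (PB.mul (PB.const 2) hPk) (PB.const 1)) (PB.const 1)))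
        (PB.const 1))) (PB.const 1)
    obtain ⟨e1, he1⟩ := hG
    obtain ⟨e2, he2⟩ := PB.pow (PB.add (PB.mul (PB.const 2)
      (⟨e1, fun n => le_rfl⟩ : PB fun n => (n + 2) ^ e1)) (PB.const 2)) k2
    refine ⟨e1 + e2, fun N0 x hx B hB hBm r hr b => ?_⟩
    have h1 : (cw x B r b).length ≤ (N0 + 2) ^ e1 := by
      refine le_trans ?_ (he1 N0)
      rw [hcwlen]
      have h2 : m x ≤ (N0 + 2) ^ k := (hmk x).trans (Nat.pow_le_pow_left (by omega) k)
      have h3 : sz B ≤ 2 * N0 * (2 * (N0 + 2) ^ k + 1) := by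
        refine (sz_list_le B (2 * (N0 + 2) ^ k) fun w hw => ?_).trans (Nat.mul_le_mul_right _ hB)
        exact (sz_word_le w).trans (Nat.mul_le_mul_left 2 ((hBm w hw).trans h2))
      have h4 := sz_word_le r
      have h5 := sz_bool_le b
      beta_reduce
      omega
    have h2 : sz (v x B r b) ≤ (N0 + 2) ^ e2 := by
      refine (hk2 _).trans (le_trans (Nat.pow_le_pow_left ?_ k2) (he2 N0))
      have := sz_word_le (cw x B r b)
      omega
    exact ⟨h1.trans (Nat.pow_le_pow_right (by omega) (by omega)),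
      h2.trans (Nat.pow_le_pow_right (by omega) (by omega))⟩
  -- the constants
  obtain ⟨M, hMd⟩ : ∃ M, M = 7 := ⟨_, rfl⟩
  have hM0 : M ≠ 0 := by omega
  obtain ⟨C1, hC1⟩ := hg (M * (e + 1))
  obtain ⟨C2, hC2⟩ := hS (M * (e + 1))
  let C : ℕ := (2 ^ (M * (e + 1)) * (2 * (C1 + C2) + 1)) * 2 ^ e + 2
  let N0 : Word → ℕ := fun x => sz x + C
  have hN0p : PT N0 := PT.add (PT.size PT.id) (PT.const C)
  have hN0C : ∀ x, (2 ^ (M * (e + 1)) * (2 * (C1 + C2) + 1)) * 2 ^ e ≤ N0 x := fun x => by
    simp only [N0, C]; omega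
  have hN02 : ∀ x, 2 ≤ N0 x := fun x => by simp only [N0, C]; omega
  let q : Word → ℕ := fun x => root M (N0 x)
  have hq : PT q := pt_root M hN0p
  let D : Word → ℕ := fun x => q x ^ 2
  let K : Word → ℕ := fun x => q x * q x ^ 2
  have hDp : PT D := PT.pow hq 2
  have hKp : PT K := PT.mul hq (PT.pow hq 2)
  let N : Word → ℕ := fun x => 2 * (K x * D x * D x) ^ 2 + 2
  have hNp : PT N := PT.add (PT.mul (PT.const 2) (PT.pow (PT.mul (PT.mul hKp hDp) hDp) 2))
    (PT.const 2)
  have hKDD : ∀ x, K x * D x * D x ≤ N0 x := by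
    intro x
    have h1 : K x * D x * D x = q x ^ M := by
      simp only [K, D, hMd]; ring
    rw [h1]
    exact root_pow_le M (N0 x) hM0
  -- few bundles
  have hpow1 : ∀ y : ℕ, 1 ≤ (y + 2) ^ e := fun y => Nat.one_le_pow _ _ (by omega)
  have hflen : ∀ x B r b, B.length ≤ 2 * N0 x → (∀ w ∈ B, w.length ≤ m x) → r.length ≤ m x →
      2 * (v x B r b).length ≤ q x := by
    intro x B r b hB hBm hr
    refine le_root hM0 (pow_arith (e := e) (C := 2 ^ (M * (e + 1)) * (2 * (C1 + C2) + 1)) ?_
      (hN0C x) (hN02 x))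
    have h1 := (he (N0 x) x (by simp [N0]) B hB hBm r hr b).1
    have h2 : (v x B r b).length ≤ g (cw x B r b).length := hfg _
    have h3 := hC1 (cw x B r b).length
    have h4 : (v x B r b).length ^ (M * (e + 1)) ≤ C1 * ((N0 x + 2) ^ e + 1) :=
      (Nat.pow_le_pow_left h2 _).trans (h3.trans (Nat.mul_le_mul_left _ (by omega)))
    have h5 := hpow1 (N0 x)
    calc ((2 * (v x B r b).length) ^ M) ^ (e + 1)
        = 2 ^ (M * (e + 1)) * (v x B r b).length ^ (M * (e + 1)) := by
          rw [← pow_mul, mul_pow]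
      _ ≤ 2 ^ (M * (e + 1)) * (C1 * ((N0 x + 2) ^ e + 1)) := Nat.mul_le_mul_left _ h4
      _ ≤ 2 ^ (M * (e + 1)) * ((2 * (C1 + C2) + 1) * (N0 x + 2) ^ e) := by
          refine Nat.mul_le_mul_left _ ?_
          nlinarith
      _ = _ := by ring
  -- low density
  let ℓ : Word → ℕ := fun x => (N0 x + 2) ^ e
  have hdens : ∀ x, ({w ∈ S | w.length ≤ ℓ x}.ncard + 1) ^ d (ℓ x) ≤ q x := by
    intro x
    refine le_root hM0 (pow_arith (e := e) (C := 2 ^ (M * (e + 1)) * (2 * (C1 + C2) + 1)) ?_
      (hN0C x) (hN02 x))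
    have h3 := hC2 (ℓ x)
    simp only at h3
    have h5 := hpow1 (N0 x)
    have h6 : 1 ≤ 2 ^ (M * (e + 1)) := Nat.one_le_two_pow
    have h7 : ℓ x = (N0 x + 2) ^ e := rfl
    calc ((({w ∈ S | w.length ≤ ℓ x}.ncard + 1) ^ d (ℓ x)) ^ M) ^ (e + 1)
        = (({w ∈ S | w.length ≤ ℓ x}.ncard + 1) ^ d (ℓ x)) ^ (M * (e + 1)) := by rw [← pow_mul]
      _ ≤ C2 * (ℓ x + 1) := h3
      _ ≤ 1 * ((2 * (C1 + C2) + 1) * (N0 x + 2) ^ e) := by
          rw [h7]; nlinarith
      _ ≤ 2 ^ (M * (e + 1)) * ((2 * (C1 + C2) + 1) * (N0 x + 2) ^ e) :=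
          Nat.mul_le_mul_right _ h6
      _ = _ := by ring
  let W : Word → Word → Prop := fun x u => u.length = m x ∧ relx V (x, u) = true
  have hgood : ∀ x, Good (z x) (K x) (m x) (2 * N0 x) (D x) (W x)
      (fun Q => ∀ w ∈ Q, w ∈ S) := by
    intro x
    refine ⟨?_, ?_, ?_⟩
    · intro B hB hBm r hr
      refine (dot_self_le _).trans ?_
      have h1 : (z x B r).length ≤ q x := by
        have h2 := hflen x B r false hB hBm hr
        have h3 := hflen x B r true hB hBm hr
        simp only [z, List.length_append, neg, List.length_map]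
        omega
      have h2 : (z x B r).length ^ 2 ≤ D x := Nat.pow_le_pow_left h1 2
      exact_mod_cast h2
    · refine ⟨listsOf (finite_words S (ℓ x)).toFinset (d (ℓ x)), ?_, ?_⟩
      · refine Nat.mul_le_mul_right _ ((card_listsOf_le _ _).trans ?_)
        have h1 := hdens x
        rw [Set.ncard_eq_toFinset_card _ (finite_words S (ℓ x))] at h1
        exact h1
      · intro B hB hBm r hr
        have hgen : ∀ b, ∀ p ∈ v x B r b, (∀ w ∈ p.2, w ∈ S) →
            p.2 ∈ listsOf (finite_words S (ℓ x)).toFinset (d (ℓ x)) := by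
          intro b p hp hpS
          have hlen := (he (N0 x) x (by simp [N0]) B hB hBm r hr b).1
          refine mem_listsOf _ _ _ ((hfd _ p hp).trans (hdm hlen)) fun w hw => ?_
          simp only [Set.Finite.mem_toFinset]
          refine ⟨hpS w hw, ?_⟩
          have h1 := sz_mem_le hp
          have h2 := sz_mem_le hw
          have h3 := length_le_sz w
          have h4 := (he (N0 x) x (by simp [N0]) B hB hBm r hr b).2
          rw [sz_prod] at h1
          simp only [ℓ]
          omega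
        intro p hp hpS
        rcases List.mem_append.1 hp with h | h
        · exact hgen false p h hpS
        · obtain ⟨p', hp', rfl⟩ := List.mem_map.1 h
          exact hgen true p' hp' hpS
    · intro B _ j _ hBj w hw hhit honly r hr
      have hiff : ∀ b, 0 < score (fun Q => ∀ w ∈ Q, w ∈ S) (v x B r b) ↔ par r w = b := by
        intro b
        rw [← hfA, hmem]
        constructor
        · rintro ⟨u, h1, h2, h3⟩
          simp only [Rel, Bool.and_eq_true, List.any_eq_true, decide_eq_true_eq] at h2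
          obtain ⟨h2, w', hw', h4⟩ := h2
          have hpre : w' <+: u := List.prefix_iff_eq_take.2 h4
          have h5 := honly u ⟨h1, h2⟩ w' hw' hpre
          subst h5
          rw [← par_of_prefix hpre (by rw [hBj w' hw']; exact hr)]
          exact h3
        · intro h
          obtain ⟨u, hu, w', hw', hpre⟩ := hhit
          have h5 := honly u hu w' hw' hpre
          subst h5
          refine ⟨u, hu.1, ?_, ?_⟩
          · simp only [Rel, Bool.and_eq_true, List.any_eq_true, decide_eq_true_eq]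
            exact ⟨hu.2, w', hw', List.prefix_iff_eq_take.1 hpre⟩
          · rw [par_of_prefix hpre (by rw [hBj w' hw']; exact hr)]
            exact h
      simp only [z, score_append, score_neg]
      have hf' := hiff false
      have ht' := hiff true
      cases hp : par r w
      · rw [hp] at hf' ht'
        have h2 := hf'.2 rfl
        have h3 : ¬ 0 < score (fun Q => ∀ w ∈ Q, w ∈ S) (v x B r true) := fun h => by
          have := ht'.1 h; cases this
        simp only [sgn, Bool.not_false, if_true]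
        omega
      · rw [hp] at hf' ht'
        have h2 := ht'.2 rfl
        have h3 : ¬ 0 < score (fun Q => ∀ w ∈ Q, w ∈ S) (v x B r false) := fun h => by
          have := hf'.1 h; cases this
        simp only [sgn, Bool.not_true, Bool.false_eq_true, if_false]
        omega
  -- the decision procedure
  refine ⟨fun x => (ploop (z x) (K x) (N x) (m x)).1.any fun u =>
    decide (u.length = m x) && relx V (x, u), ?_, fun x => ?_⟩
  · refine PT.any (p := fun x u => decide (u.length = m x) && relx V (x, u))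
      (PT.fst' (pt_ploop hz PT.id hKp hNp hm)) ?_
    exact PT.and (PT.eqNat (PT.length PT.snd) (hm.comp PT.fst)) (pt_relx hV)
  · constructor
    · intro hx
      obtain ⟨u, hu, hVu⟩ := (hLV x).1 hx
      obtain ⟨u', hu', hW⟩ := ploop_mem (N := N x) (hgood x) (fun u hu => hu.1)
        (Nat.mul_le_mul_left 2 (hKDD x)) (by have := hN02 x; omega) le_rfl
        ⟨pad (wb c x) u, length_pad hu, by rw [relx_pad]; exact hVu⟩
      simp only [List.any_eq_true, Bool.and_eq_true, decide_eq_true_eq]
      exact ⟨u', hu', hW.1, hW.2⟩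
    · intro h
      simp only [List.any_eq_true, Bool.and_eq_true, decide_eq_true_eq] at h
      obtain ⟨u', _, h1, h2⟩ := h
      obtain ⟨u, hu, _, hVu⟩ := of_relx h2 h1
      exact (hLV x).2 ⟨u, hu, hVu⟩

theorem inP_imp_inNP (L : Set Word) (hL : InP L) : InNP L := by
  obtain ⟨f, hf, h⟩ := hL
  refine ⟨fun p => f p.1, 0, hf.comp PT.fst, fun x => ?_⟩
  rw [h x]
  exact ⟨fun h => ⟨[], by simp, h⟩, fun ⟨_, _, h⟩ => h⟩

end Pool.Agent.Lib.MP_634427_lc
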