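import Pool.Agent.Lib.MP_634427_lc.Model

/-!
# Threshold reductions with bundles of slowly growing size
-/

namespace Pool.Agent.Lib.MP_634427_lc

/-- `A` is reducible to `S` by a polynomial-time threshold truth-table reduction: in polynomial
time one computes from `x` a list of signed bundles such that `x ∈ A` if and only if more positive
than negative bundles of the list lie entirely in `S`. The bundles contain at most `d n` words for
inputs of length `n`, where `d` is nondecreasing and `(σ n + 1) ^ d n` is at most polynomial for
the density `σ` of `S` (for sparse `S` any constant `d` is admitted; if `σ` is polylogarithmic,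
`d n` may be of order `log n / log log n`; if `σ` is bounded, `d n` may be of order `log n`). -/
def PThrReducible (A S : Set Word) : Prop :=
  ∃ (f : Word → List (Bool × List Word)) (d : ℕ → ℕ) (c : ℕ), PT f ∧ Monotone d ∧
    (∀ n, ({w ∈ S | w.length ≤ n}.ncard + 1) ^ d n ≤ n ^ c + c) ∧
    (∀ x, ∀ e ∈ f x, e.2.length ≤ d x.length) ∧ ∀ x, x ∈ A ↔ 0 < balance S (f x)

end Pool.Agent.Lib.MP_634427_lc
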