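import Pool.Agent.Lib.MP_634427_lc.Solve
import Pool.Agent.Lib.MP_634427_lc.GenModel

/-!
# Candidate lists for projections of witnesses
-/

namespace Pool.Agent.Lib.MP_634427_lc

open BT

/-- The core of the algorithm, for bundles of variable size. -/
theorem exists_cands_gen (S : Set Word) (d : ℕ → ℕ) (c : ℕ) (hdm : Monotone d)
    (hS : ∀ n, ({w ∈ S | w.length ≤ n}.ncard + 1) ^ d n ≤ n ^ c + c)
    {α : Type} [Enc α] (m : α → ℕ)
    (hm : PT m) (v : α → Word → Bool → SVec (List Word))
    (hv : ∀ b, PT fun p : α × Word => v p.1 p.2 b)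
    (hvd : ∃ k, ∀ a r b, r.length ≤ m a → ∀ e ∈ v a r b, e.2.length ≤ d ((sz a + 2) ^ k)) :
    ∃ cand : α → List Word, PT cand ∧ ∀ a u, u.length = m a →
      (∀ r b, r.length ≤ m a →
        (0 < score (fun Q => ∀ w ∈ Q, w ∈ S) (v a r b) ↔ par r u = b)) → u ∈ cand a := by
  obtain ⟨k, hk⟩ := hm.size_le
  have hmk : ∀ a, m a ≤ (sz a + 2) ^ k := fun a => by
    have := hk a; rwa [sz_nat] at this
  let z : α → Word → SVec (List Word) := fun a r => v a r false ++ neg (v a r true)
  have hz : PT fun p : α × Word => z p.1 p.2 := PT.append (hv false) (PT.neg (hv true))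
  -- size bound for the vectors
  obtain ⟨e, he, hed⟩ : ∃ e, (∀ a r b, r.length ≤ m a → sz (v a r b) ≤ (sz a + 2) ^ e) ∧
      ∀ a r b, r.length ≤ m a → ∀ q ∈ v a r b, q.2.length ≤ d ((sz a + 2) ^ e) := by
    have h0 : ∀ b, ∃ e, ∀ a r, r.length ≤ m a → sz (v a r b) ≤ (sz a + 2) ^ e := by
      intro b
      obtain ⟨k2, hk2⟩ := (hv b).size_le
      obtain ⟨e, he⟩ := PB.pow (PB.add (PB.add PB.id (PB.add (PB.mul (PB.const 2)
        (⟨k, fun n => le_rfl⟩ : PB fun n => (n + 2) ^ k)) (PB.const 1))) (PB.const 2)) k2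
      refine ⟨e, fun a r hr => (hk2 (a, r)).trans
        (le_trans (Nat.pow_le_pow_left ?_ k2) (he (sz a)))⟩
      have h2 := sz_word_le r
      have h4 := hmk a
      simp only [sz_pair]
      omega
    obtain ⟨e1, h1⟩ := h0 false
    obtain ⟨e2, h2⟩ := h0 true
    obtain ⟨e3, h3⟩ := hvd
    refine ⟨e1 + e2 + e3, fun a r b hr => ?_, fun a r b hr q hq => ?_⟩
    · cases b
      · exact (h1 a r hr).trans (Nat.pow_le_pow_right (by omega) (by omega))
      · exact (h2 a r hr).trans (Nat.pow_le_pow_right (by omega) (by omega))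
    · exact (h3 a r b hr q hq).trans (hdm (Nat.pow_le_pow_right (by omega) (by omega)))
  let ℓ : α → ℕ := fun a => (sz a + 2) ^ e
  let D : α → ℕ := fun a => (2 * ℓ a) ^ 2
  let K : α → ℕ := fun a => (ℓ a ^ c + c) * D a
  let N : α → ℕ := fun a => 2 * (K a * D a * D a) ^ 2 + 2
  have hℓ : PT ℓ := PT.pow (PT.add (PT.size PT.id) (PT.const 2)) e
  have hDp : PT D := PT.pow (PT.mul (PT.const 2) hℓ) 2
  have hKp : PT K := PT.mul (PT.add (PT.pow hℓ c) (PT.const c)) hDp
  have hNp : PT N := PT.add (PT.mul (PT.const 2) (PT.pow (PT.mul (PT.mul hKp hDp) hDp) 2))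
    (PT.const 2)
  -- norm bound
  have hD : ∀ a (r : Word), r.length ≤ m a → dot (z a r) (z a r) ≤ D a := by
    intro a r hr
    refine (dot_self_le _).trans ?_
    have h1 : (z a r).length ≤ 2 * ℓ a := by
      have h2 := (length_le_sz _).trans (he a r false hr)
      have h3 := (length_le_sz _).trans (he a r true hr)
      simp only [z, List.length_append, neg, List.length_map, ℓ]
      omega
    have h2 : (z a r).length ^ 2 ≤ D a := Nat.pow_le_pow_left h1 2
    exact_mod_cast h2
  -- the keys inside `S`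
  let Fs : α → Finset Word := fun a => (finite_words S (ℓ a)).toFinset
  let T : α → Finset (List Word) := fun a => listsOf (Fs a) (d (ℓ a))
  have hTcard : ∀ a, (T a).card * D a ≤ K a := by
    intro a
    refine Nat.mul_le_mul_right _ ((card_listsOf_le _ _).trans ?_)
    have h1 := hS (ℓ a)
    rw [Set.ncard_eq_toFinset_card _ (finite_words S (ℓ a))] at h1
    exact h1
  have hT : ∀ a (r : Word), r.length ≤ m a → ∀ q ∈ z a r, (∀ w ∈ q.2, w ∈ S) → q.2 ∈ T a := by
    have hgen : ∀ a (r : Word) (b : Bool), r.length ≤ m a → ∀ q ∈ v a r b,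
        (∀ w ∈ q.2, w ∈ S) → q.2 ∈ T a := by
      intro a r b hr q hq hqS
      refine mem_listsOf _ _ _ (hed _ _ _ hr q hq) fun w hw => ?_
      simp only [Fs, Set.Finite.mem_toFinset]
      refine ⟨hqS w hw, ?_⟩
      have h1 := sz_mem_le hq
      have h2 := sz_mem_le hw
      have h3 := length_le_sz w
      have h4 := he a r b hr
      rw [sz_prod] at h1
      simp only [ℓ]
      omega
    intro a r hr q hq hqS
    rcases List.mem_append.1 hq with h | h
    · exact hgen a r false hr q h hqS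
    · obtain ⟨q', hq', rfl⟩ := List.mem_map.1 h
      exact hgen a r true hr q' hq' hqS
  refine ⟨fun a => (loop (z a) (K a) (N a) (m a)).1,
    PT.fst' (pt_loop hz PT.id hKp hNp hm), ?_⟩
  intro a u hu hsgn
  have h := mem_loop (z := z a) (K := K a) (N := N a) (m := m a) (D := D a) (hD a) le_rfl
    (fun Q => ∀ w ∈ Q, w ∈ S) (T a) (hT a) (hTcard a) u hu ?_ (m a) le_rfl
  · rwa [← hu, List.take_length, hu] at h
  · intro r hr
    simp only [z, score_append, score_neg]
    have hf' := hsgn r false hr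
    have ht' := hsgn r true hr
    cases hp : par r u
    · rw [hp] at hf' ht'
      have h2 := hf'.2 rfl
      have h3 : ¬ 0 < score (fun Q => ∀ w ∈ Q, w ∈ S) (v a r true) := fun h => by
        have := ht'.1 h; cases this
      simp only [sgn, Bool.not_false, if_true]
      omega
    · rw [hp] at hf' ht'
      have h2 := ht'.2 rfl
      have h3 : ¬ 0 < score (fun Q => ∀ w ∈ Q, w ∈ S) (v a r false) := fun h => by
        have := hf'.1 h; cases this
      simp only [sgn, Bool.not_true, Bool.false_eq_true, if_false]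
      omega

/-- The parity questions about a projection of the witnesses form a set in NP. -/
theorem exists_parity_proj {α : Type} [Enc α] (Rel : α × Word → Bool) (π : α × Word → Word)
    (m : α → ℕ) (hRel : PT Rel) (hπ : PT π) (hm : PT m) :
    ∃ A : Set Word, InNP A ∧ ∀ (a : α) (r : Word) (b : Bool),
      code (enc (a, (r, b))) ∈ A ↔
        ∃ w : Word, w.length = m a ∧ Rel (a, w) = true ∧ par r (π (a, w)) = b := by
  let G : (α × (Word × Bool)) × Word → Bool := fun p =>
    decide (p.2.length = m p.1.1) && (Rel (p.1.1, p.2) && (par p.1.2.1 (π (p.1.1, p.2)) == p.1.2.2))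
  have hG : PT G := PT.and (PT.eqNat (PT.length PT.snd) (hm.comp (PT.fst' PT.fst)))
    (PT.and (hRel.comp (PT.pair (PT.fst' PT.fst) PT.snd))
      (PT.beqBool (PT.par (PT.fst' (PT.snd' PT.fst)) (hπ.comp (PT.pair (PT.fst' PT.fst) PT.snd)))
        (PT.snd' (PT.snd' PT.fst))))
  obtain ⟨F, hF, hFG⟩ := hG
  have hFpt : PT F := ⟨F, hF, fun _ => rfl⟩
  let V : Word × Word → Bool := fun p => !decide (F (BT.node (decode p.1) (enc p.2)) = BT.nil)
  have hencPT : PT (fun w : Word => (enc w : BT)) := ⟨_, .id, fun _ => rfl⟩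
  have hV : PT V := PT.not (PT.isNilBT (hFpt.comp (PT.pairBT (PT.decode PT.fst)
    (hencPT.comp PT.snd))))
  have hVG : ∀ (a : α) (r : Word) (b : Bool) (u : Word),
      V (code (enc (a, (r, b))), u) = G ((a, (r, b)), u) := by
    intro a r b u
    have h1 := hFG ((a, (r, b)), u)
    rw [enc_pair] at h1
    simp only [V, decode_code]
    rw [h1]
    cases G ((a, (r, b)), u) <;> simp
  obtain ⟨k, hk⟩ := hm.size_le
  have hmk : ∀ a, m a ≤ (sz a + 2) ^ k := fun a => by
    have := hk a; rwa [sz_nat] at this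
  have hcwlen : ∀ (a : α) (r : Word) (b : Bool), (code (enc (a, (r, b)))).length
      = 2 * (sz a + (sz r + sz b + 1) + 1) + 1 := fun a r b => length_code _
  refine ⟨{w | ∃ u : Word, u.length ≤ w.length ^ k + k ∧ V (w, u) = true},
    ⟨V, k, hV, fun _ => Iff.rfl⟩, fun a r b => ?_⟩
  constructor
  · rintro ⟨u, _, hu⟩
    rw [hVG] at hu
    simp only [G, Bool.and_eq_true, decide_eq_true_eq, beq_iff_eq] at hu
    exact ⟨u, hu.1, hu.2.1, hu.2.2⟩
  · rintro ⟨u, h1, h2, h3⟩
    refine ⟨u, ?_, ?_⟩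
    · have h4 : (sz a + 2) ^ k ≤ (code (enc (a, (r, b)))).length ^ k :=
        Nat.pow_le_pow_left (by rw [hcwlen]; omega) k
      have := hmk a
      omega
    · rw [hVG]
      simp [G, h1, h2, h3]

/-- Polynomial-time lists that contain the projection of the witnesses if this is unique. -/
theorem exists_proj_cands (S : Set Word) (hard : ∀ A, InNP A → PThrReducible A S) {α : Type}
    [Enc α] (Rel : α × Word → Bool) (π : α × Word → Word) (m m' : α → ℕ) (hRel : PT Rel)
    (hπ : PT π) (hm : PT m) (hm' : PT m') :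
    ∃ cand : α → List Word, PT cand ∧ ∀ a u, u.length = m' a →
      (∃ w : Word, w.length = m a ∧ Rel (a, w) = true) →
      (∀ w : Word, w.length = m a → Rel (a, w) = true → π (a, w) = u) → u ∈ cand a := by
  obtain ⟨A, hA, hmem⟩ := exists_parity_proj Rel π m hRel hπ hm
  obtain ⟨f, d, c, hf, hdm, hS, hfd, hfA⟩ := hard A hA
  simp only [balance_eq_score] at hfA
  obtain ⟨k, hk⟩ := hm'.size_le
  have hmk : ∀ a, m' a ≤ (sz a + 2) ^ k := fun a => by
    have := hk a; rwa [sz_nat] at this
  obtain ⟨cand, hcand, hc⟩ := exists_cands_gen S d c hdm hS m' hm'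
    (fun a r b => f (code (enc (a, (r, b)))))
    (fun b => hf.comp (PT.code (pt_enc (PT.pair PT.fst (PT.pair PT.snd (PT.const b))))))
    (by
      obtain ⟨e, he⟩ : PB fun n => 2 * (n + (2 * (n + 2) ^ k + 1 + 1) + 1) + 1 :=
        PB.add (PB.mul (PB.const 2) (PB.add (PB.add PB.id (PB.add (PB.add (PB.mul (PB.const 2)
          (⟨k, fun n => le_rfl⟩ : PB fun n => (n + 2) ^ k)) (PB.const 1)) (PB.const 1)))
          (PB.const 1))) (PB.const 1)
      refine ⟨e, fun a r b hr q hq => (hfd _ q hq).trans (hdm (le_trans ?_ (he (sz a))))⟩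
      rw [length_code]
      have h1 := sz_word_le r
      have h2 := sz_bool_le b
      have h3 := hmk a
      show 2 * (sz a + (sz r + sz b + 1) + 1) + 1 ≤
        2 * (sz a + (2 * (sz a + 2) ^ k + 1 + 1) + 1) + 1
      omega)
  refine ⟨cand, hcand, fun a u hu hex huniq => hc a u hu fun r b _ => ?_⟩
  rw [← hfA, hmem]
  constructor
  · rintro ⟨w, h1, h2, h3⟩
    rwa [huniq w h1 h2] at h3
  · intro h
    obtain ⟨w, h1, h2⟩ := hex
    exact ⟨w, h1, h2, by rw [huniq w h1 h2]; exact h⟩

lemma pThrReducible_of_thrReducible {d : ℕ} {A S : Set Word} (hS : Sparse S)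
    (h : ThrReducible d A S) : PThrReducible A S := by
  obtain ⟨f, hf, hfd, hfA⟩ := h
  obtain ⟨c, hc⟩ := hS
  obtain ⟨e, he⟩ : ∃ e, ∀ n : ℕ, (n ^ c + c + 1) ^ d ≤ n ^ e + e := by
    obtain ⟨e, he⟩ := PB.pow (PB.add (PB.add (PB.pow PB.id c) (PB.const c)) (PB.const 1)) d
    refine ⟨3 ^ e, fun n => (he n).trans ?_⟩
    rcases Nat.lt_or_ge n 2 with h | h
    · have : (n + 2) ^ e ≤ 3 ^ e := Nat.pow_le_pow_left (by omega) e
      omega
    · have h1 : n + 2 ≤ n ^ 2 := by nlinarith
      have h2 : (n + 2) ^ e ≤ (n ^ 2) ^ e := Nat.pow_le_pow_left h1 e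
      have h3 : 2 * e ≤ 3 ^ e := by
        clear he h2
        induction e with
        | zero => simp
        | succ e ih =>
          have h4 : 1 ≤ 3 ^ e := Nat.one_le_pow _ _ (by omega)
          rw [pow_succ]; omega
      rw [← pow_mul] at h2
      have h4 : n ^ (2 * e) ≤ n ^ (3 ^ e) := Nat.pow_le_pow_right (by omega) h3
      omega
  refine ⟨f, fun _ => d, e, hf, monotone_const, fun n => ?_, fun x => hfd x, hfA⟩
  exact (Nat.pow_le_pow_left (Nat.succ_le_succ (hc n)) d).trans (he n)

end Pool.Agent.Lib.MP_634427_lc
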