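import Pool.Agent.Lib.MP_634427_lc.TurnDefs

/-!
# Collections of transcripts for adaptive reductions with few blocks of negative answers

`searchC` computes, without knowing the oracle, a short list of collections of transcripts; each
contains transcripts for a large part of the tests, and in one of them nearly all transcripts are
right and complete.
-/

namespace Pool.Agent.Lib.MP_634427_lc.KNo

section defs

variable (next : Word → List Bool → Option Word) (ℓ : ℕ)

/-- The admissible fraction of false transcripts; `E` is the one wanted at the end. -/
def errC (P θb E : ℕ) : ℕ → ℕ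
  | 0 => E
  | j + 1 => 4 * P * (θb * errC P θb E j) * (θb * errC P θb E j)

/-- The popularity threshold. -/
def thC (P θb E j : ℕ) : ℕ := 4 * P * (θb * errC P θb E j)

/-- The search for collections of transcripts; `j` turns are still possible. -/
def searchC (q P θb E : ℕ) : ℕ → List Word → List Item → List (List Item)
  | 0, _, G => [G.map (yes next q)]
  | j + 1, T, G =>
    (List.range P).flatMap fun i =>
      if G.length ≤ 2 * (halted next q ((grow next q (thC P θb E j) G)^[i] T) G).length then
        [halted next q ((grow next q (thC P θb E j) G)^[i] T) G]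
      else
        match pop next (thC P θb E j) G.length
            (waiting next q ((grow next q (thC P θb E j) G)^[i] T) G) with
        | some s => (block next ℓ q θb ((pend next s
            (waiting next q ((grow next q (thC P θb E j) G)^[i] T) G)).map no)).flatMap fun G' =>
              searchC q P θb E j ((grow next q (thC P θb E j) G)^[i] T) G'
        | none => (block next ℓ q θb
            ((waiting next q ((grow next q (thC P θb E j) G)^[i] T) G).map no)).flatMap fun G' =>
              searchC q P θb E j ((grow next q (thC P θb E j) G)^[i] T) G'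

/-- Bound for the number of collections. -/
def numC (q P : ℕ) : ℕ → ℕ
  | 0 => 1
  | j + 1 => P * ((q * (ℓ + 1) + 1) * numC q P j)

/-- Bound for the inverse of the fraction of the tests in a collection. -/
def rhoC (P θb E : ℕ) : ℕ → ℕ → ℕ
  | 0, ρ => ρ
  | j + 1, ρ => rhoC P θb E j (thC P θb E j * θb * ρ)

end defs

lemma errC_pos {P θb E : ℕ} (hP : 0 < P) (hθ : 2 ≤ θb) (hE : 2 ≤ E) (j : ℕ) :
    2 ≤ errC P θb E j := by
  induction j with
  | zero => exact hE
  | succ j ih =>
    simp only [errC]
    have h1 : 2 * 2 ≤ θb * errC P θb E j := Nat.mul_le_mul hθ ih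
    have h2 : 1 * 4 * 4 ≤ 4 * P * (θb * errC P θb E j) * (θb * errC P θb E j) :=
      Nat.mul_le_mul (Nat.mul_le_mul (by omega) (by omega)) (by omega)
    omega

lemma thC_ge {P θb E : ℕ} (hP : 0 < P) (hθ : 2 ≤ θb) (hE : 2 ≤ E) (j : ℕ) :
    16 ≤ thC P θb E j := by
  unfold thC
  have h0 := errC_pos hP hθ hE j
  have h1 : 2 * 2 ≤ θb * errC P θb E j := Nat.mul_le_mul hθ h0
  have h2 : (4 * 1) * 4 ≤ 4 * P * (θb * errC P θb E j) := Nat.mul_le_mul (by omega) (by omega)
  omega

lemma rhoC_ge {P θb E : ℕ} (hP : 0 < P) (hθ : 2 ≤ θb) (hE : 2 ≤ E) (j ρ : ℕ) :
    ρ ≤ rhoC P θb E j ρ := by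
  induction j generalizing ρ with
  | zero => exact le_rfl
  | succ j ih =>
    simp only [rhoC]
    refine le_trans ?_ (ih _)
    have h1 := thC_ge hP hθ hE j
    have h2 : 1 * 1 ≤ thC P θb E j * θb := Nat.mul_le_mul (by omega) (by omega)
    exact Nat.le_mul_of_pos_left _ (by omega)

section size

variable {next : Word → List Bool → Option Word} {ℓ : ℕ}

/-- All collections contain transcripts for a large part of the tests. -/
theorem shape_searchC {R : List Word} (q : ℕ) {P θb E : ℕ} (hP : 0 < P) (hθ : 2 ≤ θb)
    (hE : 2 ≤ E) (j : ℕ) : ∀ (T : List Word) (G : List Item) (ρ : ℕ), Shape R G →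
      R.length ≤ ρ * G.length → ∀ G' ∈ searchC next ℓ q P θb E j T G,
        Shape R G' ∧ R.length ≤ rhoC P θb E j ρ * G'.length := by
  induction j with
  | zero =>
    intro T G ρ hG hρ G' hG'
    simp only [searchC, List.mem_singleton] at hG'
    subst hG'
    refine ⟨hG.map _ fun e => iter_fst _ _ _, ?_⟩
    rw [List.length_map]
    exact hρ
  | succ j ih =>
    intro T G ρ hG hρ G' hG'
    simp only [searchC] at hG'
    obtain ⟨i, _, hG'⟩ := List.mem_flatMap.1 hG'
    simp only [rhoC]
    set T' := (grow next q (thC P θb E j) G)^[i] T
    have hth := thC_ge hP hθ hE j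
    have h2 : 2 * ρ ≤ thC P θb E j * θb * ρ := by
      refine Nat.mul_le_mul_right ρ ?_
      calc 2 ≤ 16 * 1 := by norm_num
        _ ≤ _ := Nat.mul_le_mul hth (by omega)
    have hadv := hG.map (adv next q T') (adv_fst q T')
    split_ifs at hG' with hh
    · rw [List.mem_singleton] at hG'
      subst hG'
      refine ⟨hadv.filter _, hρ.trans ?_⟩
      calc ρ * G.length ≤ ρ * (2 * (halted next q T' G).length) := Nat.mul_le_mul_left _ hh
        _ = 2 * ρ * (halted next q T' G).length := by ring
        _ ≤ _ := Nat.mul_le_mul_right _ (h2.trans (rhoC_ge hP hθ hE j _))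
    · have hsh : Shape R (waiting next q T' G) := hadv.filter _
      have hlen := length_halted_add (next := next) q T' G
      split at hG'
      · rename_i s hs
        obtain ⟨G2, hG2, hG'⟩ := List.mem_flatMap.1 hG'
        obtain ⟨h3, h4⟩ := shape_block ((hsh.filter _).map no fun _ => rfl) hG2
        refine ih _ _ _ h3 ?_ G' hG'
        rw [List.length_map] at h4
        have h5 := List.find?_some hs
        rw [decide_eq_true_eq] at h5
        refine hρ.trans ?_
        calc ρ * G.length
            ≤ ρ * (thC P θb E j * (pend next s (waiting next q T' G)).length) :=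
              Nat.mul_le_mul_left _ h5
          _ ≤ ρ * (thC P θb E j * (θb * G2.length)) :=
              Nat.mul_le_mul_left _ (Nat.mul_le_mul_left _ h4)
          _ = thC P θb E j * θb * ρ * G2.length := by ring
      · obtain ⟨G2, hG2, hG'⟩ := List.mem_flatMap.1 hG'
        obtain ⟨h3, h4⟩ := shape_block (hsh.map no fun _ => rfl) hG2
        refine ih _ _ _ h3 ?_ G' hG'
        rw [List.length_map] at h4
        refine hρ.trans ?_
        calc ρ * G.length ≤ ρ * (2 * (waiting next q T' G).length) :=
              Nat.mul_le_mul_left _ (by omega)
          _ ≤ ρ * (2 * (θb * G2.length)) := Nat.mul_le_mul_left _ (Nat.mul_le_mul_left _ h4)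
          _ = 2 * (θb * ρ) * G2.length := by ring
          _ ≤ thC P θb E j * (θb * ρ) * G2.length :=
              Nat.mul_le_mul_right _ (Nat.mul_le_mul_right _ (by omega))
          _ = thC P θb E j * θb * ρ * G2.length := by ring

/-- There are few collections. -/
theorem length_searchC (q P θb E : ℕ) (hP : 0 < P) (j : ℕ) : ∀ (T : List Word) (G : List Item),
    (searchC next ℓ q P θb E j T G).length ≤ numC ℓ q P j ∧ 1 ≤ numC ℓ q P j := by
  induction j with
  | zero => intro T G; simp [searchC, numC]
  | succ j ih =>
    intro T G
    have h1 := (ih T G).2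
    have hone : 1 ≤ (q * (ℓ + 1) + 1) * numC ℓ q P j := Nat.mul_pos (by omega) (by omega)
    refine ⟨?_, Nat.mul_pos hP (by omega)⟩
    simp only [searchC, numC]
    refine (length_flatMap_le _ _ ((q * (ℓ + 1) + 1) * numC ℓ q P j) fun i _ => ?_).trans
      (le_of_eq (by rw [List.length_range]))
    split_ifs with hh
    · simpa using hone
    · split
      · exact (length_flatMap_le _ _ (numC ℓ q P j) fun G' _ => (ih _ G').1).trans
          (Nat.mul_le_mul_right _ (length_block q θb _))
      · exact (length_flatMap_le _ _ (numC ℓ q P j) fun G' _ => (ih _ G').1).trans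
          (Nat.mul_le_mul_right _ (length_block q θb _))

end size

section correct

variable {next : Word → List Bool → Option Word} {ℓ : ℕ} {S : Set Word}

/-- In one of the collections nearly all transcripts are right and complete. -/
theorem exists_cover {R : List Word} {q k P θb E : ℕ} (hred : RedT next S R q k)
    (hℓ : ∀ r ∈ R, ∀ tr s, Good next S (r, tr) → next r tr = some s → s.length ≤ ℓ)
    (hP : 0 < P) (hθ : 2 * (q * (ℓ + 1)) ≤ θb) (hθ2 : 2 ≤ θb) (hE : 2 ≤ E)
    (hS : ∀ L : List Word, L.Nodup → (∀ s ∈ L, s ∈ S ∧ s ∈ Rel next S R) → L.length < P)
    (j : ℕ) : ∀ (T : List Word) (G : List Item), T.Nodup →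
      (∀ s ∈ T, s ∈ S ∧ s ∈ Rel next S R) → (∀ e ∈ G, e.1 ∈ R) → 0 < G.length →
      errC P θb E j * bad next S G ≤ G.length →
      (∀ e ∈ G, Good next S e → free next e = false ∧ k ≤ j + turns next e) →
      ∃ G' ∈ searchC next ℓ q P θb E j T G, 0 < G'.length ∧ E * bad next S G' ≤ G'.length ∧
        (∀ e ∈ G', e.1 ∈ R) ∧ ∀ e ∈ G', Good next S e → next e.1 e.2 = none := by
  classical
  induction j with
  | zero =>
    intro T G _ _ hG hpos hbad hk
    refine ⟨_, List.mem_singleton.2 rfl, by rwa [List.length_map], ?_, ?_, ?_⟩
    · rw [List.length_map]
      refine le_trans (Nat.mul_le_mul_left E (bad_map_le _ _ fun e he hg => ?_)) hbad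
      exact good_yesT hred (hG e he) hg (by simpa using (hk e he hg).2) (hk e he hg).1 q
    · intro e' he'
      obtain ⟨e, he, rfl⟩ := List.mem_map.1 he'
      rw [show (yes next q e).1 = e.1 from iter_fst _ _ _]
      exact hG e he
    · intro e' he' hg'
      obtain ⟨e, he, rfl⟩ := List.mem_map.1 he'
      have hg : Good next S e := by
        have h1 := iter_prefix (next := next) (fun _ => some true) q e
        have h2 : (yes next q e).1 = e.1 := iter_fst _ _ _
        have h3 : Good next S ((yes next q e).1, (yes next q e).2) := hg'
        rw [h2] at h3
        exact h3.of_prefix h1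
      exact yes_haltsT hred (hG e he) hg (by simpa using (hk e he hg).2) (hk e he hg).1
  | succ j ih =>
    intro T G hTn hT hG hpos hbad hk
    obtain ⟨ε, hε⟩ : ∃ ε, ε = θb * errC P θb E j := ⟨_, rfl⟩
    have herr := errC_pos hP hθ2 hE j
    have hε4 : 4 ≤ ε := by rw [hε]; exact Nat.mul_le_mul hθ2 herr
    have hthε : thC P θb E j = 4 * P * ε := by rw [thC, ← hε]
    obtain ⟨θ, hθdef⟩ : ∃ θ, θ = 4 * P * ε := ⟨_, rfl⟩
    have hθpos : 0 < θ := by rw [hθdef]; positivity
    simp only [errC] at hbad
    rw [← hε, ← hθdef] at hbad
    simp only [searchC]
    rw [hthε, ← hθdef]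
    -- find the right stage
    have hstop : ∃ i < P, ((grow next q θ G)^[i] T).Nodup ∧
        (∀ s ∈ (grow next q θ G)^[i] T, s ∈ S ∧ s ∈ Rel next S R) ∧
        (G.length ≤ 2 * (halted next q ((grow next q θ G)^[i] T) G).length ∨
          ∀ s, pop next θ G.length (waiting next q ((grow next q θ G)^[i] T) G) = some s →
            s ∉ S) := by
      by_contra hcon
      push Not at hcon
      have key : ∀ i ≤ P, ((grow next q θ G)^[i] T).Nodup ∧
          (∀ s ∈ (grow next q θ G)^[i] T, s ∈ S ∧ s ∈ Rel next S R) ∧
          ((grow next q θ G)^[i] T).length = T.length + i := by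
        intro i
        induction i with
        | zero => intro _; exact ⟨hTn, hT, rfl⟩
        | succ i ih2 =>
          intro hi
          obtain ⟨h1, h2, h3⟩ := ih2 (by omega)
          obtain ⟨h4, s, h5, h6⟩ := hcon i (by omega) h1 h2
          rw [Function.iterate_succ_apply']
          set T' := (grow next q θ G)^[i] T with hT'
          have hgrow : grow next q θ G T' = s :: T' := by
            unfold grow
            rw [h5]
          obtain ⟨h7, h8⟩ := exists_good_pend hred.toRed (fun s hs => (h2 s hs).1) hG hθpos
            (show 1 < ε by omega) hbad hpos h5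
          rw [hgrow]
          refine ⟨List.nodup_cons.2 ⟨h7, h1⟩, ?_, by rw [List.length_cons, h3]; omega⟩
          intro s' hs'
          rcases List.mem_cons.1 hs' with rfl | hs'
          · exact ⟨h6, h8⟩
          · exact h2 s' hs'
      obtain ⟨h1, h2, h3⟩ := key P le_rfl
      have := hS _ h1 h2
      omega
    obtain ⟨i, hi, hTn', hT', hst⟩ := hstop
    set T' := (grow next q θ G)^[i] T with hT'def
    have hT'S : ∀ s ∈ T', s ∈ S := fun s hs => (hT' s hs).1
    have hbadadv : bad next S (G.map (adv next q T')) ≤ bad next S G :=
      bad_map_le _ _ fun e _ he => (good_adv hT'S q).2 he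
    have hlen := length_halted_add (next := next) q T' G
    by_cases hh : G.length ≤ 2 * (halted next q T' G).length
    · -- most tests stop
      refine ⟨halted next q T' G, List.mem_flatMap.2 ⟨i, List.mem_range.2 hi, ?_⟩, by omega, ?_,
        ?_, ?_⟩
      · rw [if_pos hh]
        exact List.mem_singleton.2 rfl
      · have h2 : bad next S (halted next q T' G) ≤ bad next S G :=
          (bad_filter_le _ _).trans hbadadv
        have h3 : 2 * E ≤ θ * ε := by
          have h4 : E ≤ errC P θb E j := by
            clear hbad hk hst
            induction j with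
            | zero => exact le_rfl
            | succ j _ =>
              -- the error parameters grow
              have h5 : ∀ j, E ≤ errC P θb E j := by
                intro j
                induction j with
                | zero => exact le_rfl
                | succ j ih3 =>
                  simp only [errC]
                  have h6 := errC_pos hP hθ2 hE j
                  have h7 : errC P θb E j ≤ θb * errC P θb E j :=
                    Nat.le_mul_of_pos_left _ (by omega)
                  have h8 : 1 ≤ 4 * P * (θb * errC P θb E j) :=
                    Nat.mul_pos (by omega) (Nat.mul_pos (by omega) (by omega))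
                  exact (ih3.trans h7).trans (Nat.le_mul_of_pos_left _ h8)
              exact h5 (j + 1)
          have h5 : errC P θb E j ≤ ε := by
            rw [hε]; exact Nat.le_mul_of_pos_left _ (by omega)
          have h6 : 2 ≤ θ := by
            rw [hθdef]
            calc 2 ≤ 4 * 1 * 1 := by norm_num
              _ ≤ 4 * P * ε := Nat.mul_le_mul (Nat.mul_le_mul_left _ hP) (by omega)
          exact Nat.mul_le_mul h6 (h4.trans h5)
        have h4 : 2 * (E * bad next S (halted next q T' G)) ≤
            2 * (halted next q T' G).length := by
          calc 2 * (E * bad next S (halted next q T' G))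
              = 2 * E * bad next S (halted next q T' G) := by ring
            _ ≤ θ * ε * bad next S G := Nat.mul_le_mul h3 h2
            _ ≤ G.length := hbad
            _ ≤ _ := hh
        omega
      · intro e' he'
        obtain ⟨e, he, rfl, _⟩ := mem_halted he'
        rw [adv_fst]; exact hG e he
      · intro e' he' _
        obtain ⟨e, he, rfl, hn⟩ := mem_halted he'
        exact hn
    · have hst' := hst.resolve_left hh
      have hUR : ∀ e ∈ waiting next q T' G, e.1 ∈ R := by
        intro e' he'
        obtain ⟨e, he, rfl⟩ := mem_waiting he'
        rw [adv_fst]; exact hG e he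
      -- the transcripts after the negative answer, for a sublist of the waiting items
      have hfinish : ∀ W : List Item, (∀ e ∈ W, e ∈ waiting next q T' G) → 0 < W.length →
          ε * bad next S (W.map no) ≤ W.length →
          ∃ G' ∈ (block next ℓ q θb (W.map no)).flatMap fun G' =>
            searchC next ℓ q P θb E j T' G', 0 < G'.length ∧ E * bad next S G' ≤ G'.length ∧
              (∀ e ∈ G', e.1 ∈ R) ∧ ∀ e ∈ G', Good next S e → next e.1 e.2 = none := by
        intro W hW hWpos hWbad
        obtain ⟨G2, hG2, h1, h2, h3, h4⟩ := exists_block hred hℓ (G := W.map no) (by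
          intro e he
          obtain ⟨e', he', rfl⟩ := List.mem_map.1 he
          exact hUR e' (hW e' he')) hθ hθ2
        rw [List.length_map] at h2
        obtain ⟨G', hG', h5⟩ := ih T' G2 hTn' hT' (by
            intro e he
            obtain ⟨e0, he0, h6, _⟩ := h3 e he
            obtain ⟨e', he', rfl⟩ := List.mem_map.1 he0
            rw [← h6]
            exact hUR e' (hW e' he')) (by
            rcases Nat.eq_zero_or_pos G2.length with h0 | h0
            · rw [h0] at h2; omega
            · exact h0) (by
            have h6 : θb * (errC P θb E j * bad next S G2) ≤ θb * G2.length := by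
              calc θb * (errC P θb E j * bad next S G2) = ε * bad next S G2 := by rw [hε]; ring
                _ ≤ ε * bad next S (W.map no) := Nat.mul_le_mul_left _ h1
                _ ≤ W.length := hWbad
                _ ≤ _ := h2
            exact Nat.le_of_mul_le_mul_left h6 (by omega)) (by
            intro e he hg
            refine ⟨h4 e he hg, ?_⟩
            obtain ⟨e0, he0, h6, h7⟩ := h3 e he
            obtain ⟨e', he', rfl⟩ := List.mem_map.1 he0
            obtain ⟨e1, he1, rfl⟩ := mem_waiting (hW e' he')
            have hg0 : Good next S ((no (adv next q T' e1)).1, (no (adv next q T' e1)).2) := by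
              rw [h6]; exact Good.of_prefix (tr' := e.2) hg h7
            have hg' : Good next S (adv next q T' e1) :=
              Good.of_prefix (tr' := (no (adv next q T' e1)).2) hg0 (List.prefix_append _ _)
            have hge := (good_adv hT'S q).1 hg'
            have h8 := hk e1 he1 hge
            have h9 : free next (adv next q T' e1) = false := by
              by_contra h10
              rw [Bool.not_eq_false] at h10
              rw [free_adv h10] at h8
              exact absurd h8.1 (by simp)
            have h10 := turns_append (next := next) (adv next q T' e1).1 (adv next q T' e1).2 false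
            have h9' : free next ((adv next q T' e1).1, (adv next q T' e1).2) = false := h9
            rw [if_pos ⟨rfl, h9'⟩] at h10
            have h11 := turns_mono (next := next) e.1 h7
            have h12 : (no (adv next q T' e1)).1 = (adv next q T' e1).1 := rfl
            have h13 : (no (adv next q T' e1)).2 = (adv next q T' e1).2 ++ [false] := rfl
            rw [← h6, h12, h13, h10] at h11
            have h14 : turns next e1 ≤ turns next ((adv next q T' e1).1, (adv next q T' e1).2) := by
              rw [adv_fst]
              exact turns_mono (next := next) e1.1 (iter_prefix _ _ _)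
            have h15 : e = (e.1, e.2) := rfl
            rw [h15, ← h6, h12]
            omega)
        exact ⟨G', List.mem_flatMap.2 ⟨G2, hG2, hG'⟩, h5⟩
      rcases hpop : pop next θ G.length (waiting next q T' G) with _ | s
      · -- no popular query
        have h5 := bad_map_no_le (waiting next q T' G) hS hUR
          (fun e he => (List.mem_filter.1 he).2) hpop
        have h6 : bad next S (waiting next q T' G) ≤ bad next S G :=
          (bad_filter_le _ _).trans hbadadv
        have h7 : θ * bad next S ((waiting next q T' G).map no)
            ≤ θ * bad next S G + P * G.length :=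
          h5.trans (Nat.add_le_add_right (Nat.mul_le_mul_left _ h6) _)
        obtain ⟨G', hG', h⟩ := hfinish (waiting next q T' G) (fun e he => he) (by omega) (by
          set b1 := bad next S ((waiting next q T' G).map no)
          set b0 := bad next S G
          set n := G.length
          set w := (waiting next q T' G).length
          have h8 : P * (4 * (ε * b1)) ≤ P * (4 * (ε * b0) + n) := by
            calc P * (4 * (ε * b1)) = θ * b1 := by rw [hθdef]; ring
              _ ≤ _ := h7
              _ = _ := by rw [hθdef]; ring
          have h9 : 4 * (ε * b1) ≤ 4 * (ε * b0) + n := Nat.le_of_mul_le_mul_left h8 hP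
          have h10 : 4 * (ε * b0) ≤ n := by
            refine le_trans ?_ hbad
            calc 4 * (ε * b0) = 4 * (ε * b0) * 1 := by ring
              _ ≤ 4 * (ε * b0) * (P * ε) := Nat.mul_le_mul_left _ (Nat.mul_pos hP (by omega))
              _ = θ * ε * b0 := by rw [hθdef]; ring
          omega)
        refine ⟨G', List.mem_flatMap.2 ⟨i, List.mem_range.2 hi, ?_⟩, h⟩
        rw [if_neg hh, hpop]
        exact hG'
      · -- a popular negative query
        have hsS := hst' s hpop
        have h4 := List.find?_some hpop
        rw [decide_eq_true_eq] at h4
        obtain ⟨G', hG', h⟩ := hfinish (pend next s (waiting next q T' G))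
          (fun e he => (List.mem_filter.1 he).1) (by
            rcases Nat.eq_zero_or_pos (pend next s (waiting next q T' G)).length with h0 | h0
            · rw [h0] at h4; omega
            · exact h0) (by
          have h5 : bad next S ((pend next s (waiting next q T' G)).map no)
              ≤ bad next S G := by
            refine (bad_map_le _ _ ?_).trans ((bad_filter_le _ _).trans
              ((bad_filter_le _ _).trans hbadadv))
            intro e' he' hg
            have h6 := (List.mem_filter.1 he').2
            rw [decide_eq_true_eq] at h6
            exact hg.append h6 (by simp [hsS])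
          have h6 : θ * (ε * bad next S ((pend next s (waiting next q T' G)).map no))
              ≤ θ * (pend next s (waiting next q T' G)).length := by
            calc _ ≤ θ * (ε * bad next S G) :=
                  Nat.mul_le_mul_left _ (Nat.mul_le_mul_left _ h5)
              _ = θ * ε * bad next S G := by ring
              _ ≤ G.length := hbad
              _ ≤ _ := h4
          exact Nat.le_of_mul_le_mul_left h6 hθpos)
        refine ⟨G', List.mem_flatMap.2 ⟨i, List.mem_range.2 hi, ?_⟩, h⟩
        rw [if_neg hh, hpop]
        exact hG'

end correct

end Pool.Agent.Lib.MP_634427_lc.KNo
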