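import Pool.Agent.Lib.MP_634427_lc.KNoPT
import Pool.Agent.Lib.MP_634427_lc.Cover

/-!
# The search for collections of transcripts is a polynomial-time function
-/

namespace Pool.Agent.Lib.MP_634427_lc.KNo

open PT

variable {γ δ : Type} [Enc γ] [Enc δ] {next : γ → Word → List Bool → Option Word} {q : γ → ℕ}

lemma pt_isTally {s : δ → Word} (hs : PT s) : PT fun d => isTally (s d) :=
  PT.all (p := fun (_ : δ) (b : Bool) => !b) hs (PT.not snd)

lemma pt_optTally {o : δ → Option Word} (ho : PT o) : PT fun d => (match o d with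
    | Option.some s => isTally s
    | Option.none => false) :=
  (casesOption (g := fun (_ : δ) s => isTally s) ho (const false) (pt_isTally snd)).of_eq
    fun d => by cases o d <;> rfl

lemma pt_dropLast {l : δ → List Bool} (hl : PT l) : PT fun d => (l d).dropLast :=
  (PT.take (PT.sub (PT.length hl) (const 1)) hl).of_eq fun d => by
    rw [List.dropLast_eq_take]

lemma pt_getLast? {l : δ → List Bool} (hl : PT l) : PT fun d => (l d).getLast? :=
  (PT.head? (PT.reverse hl)).of_eq fun d => List.head?_reverse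

lemma pt_blk (hn : PT fun p : γ × Word × List Bool => next p.1 p.2.1 p.2.2)
    {cx : δ → γ} {e : δ → Item} (hcx : PT cx) (he : PT e) :
    PT fun d => blk (next (cx d)) (e d) :=
  PT.and (PT.not (PT.getD (pt_getLast? (snd' he)) (const true)))
    (pt_optTally (hn.comp (pair hcx (pair (fst' he) (pt_dropLast (snd' he))))))

lemma pt_free (hn : PT fun p : γ × Word × List Bool => next p.1 p.2.1 p.2.2)
    {cx : δ → γ} {e : δ → Item} (hcx : PT cx) (he : PT e) :
    PT fun d => free (next (cx d)) (e d) :=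
  PT.and (pt_blk hn hcx he) (pt_optTally (pt_qry hn hcx he))

lemma pt_freeL (hn : PT fun p : γ × Word × List Bool => next p.1 p.2.1 p.2.2)
    {cx : δ → γ} {ℓ : δ → ℕ} {e : δ → Item} (hcx : PT cx) (hℓ : PT ℓ) (he : PT e) :
    PT fun d => freeL (next (cx d)) (ℓ d) (e d) :=
  PT.and (pt_free hn hcx he)
    ((casesOption (g := fun d s => decide (s.length ≤ ℓ d)) (pt_qry hn hcx he) (const false)
      (PT.le (PT.length snd) (hℓ.comp fst))).of_eq fun d => by
        unfold qry; cases next (cx d) (e d).1 (e d).2 <;> rfl)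

section

variable {cx : δ → γ} {ℓ θ n : δ → ℕ} {G : δ → List Item}

lemma pt_fpend (hn : PT fun p : γ × Word × List Bool => next p.1 p.2.1 p.2.2)
    {s : δ → Word} (hcx : PT cx) (hℓ : PT ℓ) (hs : PT s) (hG : PT G) :
    PT fun d => fpend (next (cx d)) (ℓ d) (s d) (G d) := by
  refine PT.filter hG (p := fun d e => freeL (next (cx d)) (ℓ d) e &&
    decide (qry (next (cx d)) e = Option.some (s d))) (PT.and (pt_freeL hn (hcx.comp fst) (hℓ.comp fst)
      snd) ?_)
  refine (casesOption (o := fun p : δ × Item => qry (next (cx p.1)) p.2)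
    (f := fun _ => false) (g := fun p t => decide (t = s p.1)) (pt_qry hn (hcx.comp fst) snd)
    (const false) (PT.eqWord snd (hs.comp (fst' fst)))).of_eq fun p => ?_
  rcases qry (next (cx p.1)) p.2 with _ | t <;> simp

lemma pt_large (hn : PT fun p : γ × Word × List Bool => next p.1 p.2.1 p.2.2)
    {e : δ → Item} (hcx : PT cx) (hℓ : PT ℓ) (hθ : PT θ) (hnn : PT n) (hG : PT G) (he : PT e) :
    PT fun d => large (next (cx d)) (ℓ d) (θ d) (n d) (G d) (e d) :=
  (casesOption (o := fun d => qry (next (cx d)) (e d)) (f := fun _ => false)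
    (g := fun d s => decide (n d ≤ θ d * (fpend (next (cx d)) (ℓ d) s (G d)).length))
    (pt_qry hn hcx he) (const false)
    (PT.le (hnn.comp fst) (PT.mul (hθ.comp fst) (PT.length (pt_fpend hn (hcx.comp fst)
      (hℓ.comp fst) snd (hG.comp fst)))))).of_eq fun d => by
        unfold large; cases qry (next (cx d)) (e d) <;> rfl

lemma pt_noStep (hn : PT fun p : γ × Word × List Bool => next p.1 p.2.1 p.2.2)
    (hcx : PT cx) (hℓ : PT ℓ) (hθ : PT θ) (hnn : PT n) (hG : PT G) :
    PT fun d => noStep (next (cx d)) (ℓ d) (θ d) (n d) (G d) :=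
  PT.map (f := fun d e => bif freeL (next (cx d)) (ℓ d) e then no e else e)
    (PT.filter hG (p := fun d e => !freeL (next (cx d)) (ℓ d) e ||
      large (next (cx d)) (ℓ d) (θ d) (n d) (G d) e)
      (PT.or (PT.not (pt_freeL hn (hcx.comp fst) (hℓ.comp fst) snd))
        (pt_large hn (hcx.comp fst) (hℓ.comp fst) (hθ.comp fst) (hnn.comp fst) (hG.comp fst) snd)))
    (PT.cond (pt_freeL hn (hcx.comp fst) (hℓ.comp fst) snd) (pt_no snd) snd)

lemma sz_noStep_le (nx : Word → List Bool → Option Word) (ℓ θ n : ℕ) (G : List Item) :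
    sz (noStep nx ℓ θ n G) ≤ sz G + G.length ∧ (noStep nx ℓ θ n G).length ≤ G.length := by
  unfold noStep
  constructor
  · have h1 : ∀ L : List Item, sz (L.map fun e => bif freeL nx ℓ e then no e else e) ≤
        sz L + L.length := by
      intro L
      induction L with
      | nil => simp
      | cons e L ih =>
        rw [List.map_cons, sz_cons, sz_cons, List.length_cons]
        have h2 : sz (bif freeL nx ℓ e then no e else e) ≤ sz e + 1 := by
          cases freeL nx ℓ e
          · simp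
          · rw [cond_true, no, sz_pair, sz_append, sz_prod e, sz_cons, sz_lnil, sz_false]
            omega
        omega
    refine (h1 _).trans (Nat.add_le_add (sz_sublist_le List.filter_sublist)
      (List.length_filter_le _ _))
  · rw [List.length_map]
    exact List.length_filter_le _ _

lemma sz_iter_noStep_le (nx : Word → List Bool → Option Word) (ℓ θ n : ℕ) (G : List Item)
    (t : ℕ) : sz ((noStep nx ℓ θ n)^[t] G) ≤ sz G + t * G.length ∧
      ((noStep nx ℓ θ n)^[t] G).length ≤ G.length := by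
  induction t with
  | zero => simp
  | succ t ih =>
    rw [Function.iterate_succ_apply']
    have h1 := sz_noStep_le nx ℓ θ n ((noStep nx ℓ θ n)^[t] G)
    rw [Nat.succ_mul]
    omega

lemma pt_iterNoStep (hn : PT fun p : γ × Word × List Bool => next p.1 p.2.1 p.2.2)
    {t : δ → ℕ} (hcx : PT cx) (hℓ : PT ℓ) (hθ : PT θ) (hnn : PT n) (hG : PT G) (ht : PT t) :
    PT fun d => (noStep (next (cx d)) (ℓ d) (θ d) (n d))^[t d] (G d) := by
  refine iterate (f := fun d G' => noStep (next (cx d)) (ℓ d) (θ d) (n d) G') ht hG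
    (pt_noStep hn (hcx.comp fst) (hℓ.comp fst) (hθ.comp fst) (hnn.comp fst) snd) ?_
  obtain ⟨k1, hk1⟩ := hG.size_le
  obtain ⟨k2, hk2⟩ := ht.size_le
  obtain ⟨c, hc⟩ := PB.add (F := fun n => (n + 2) ^ k1) (G := fun n => (n + 2) ^ k2 * (n + 2) ^ k1)
    ⟨k1, fun n => le_rfl⟩ (PB.mul ⟨k2, fun n => le_rfl⟩ ⟨k1, fun n => le_rfl⟩)
  refine ⟨c, fun d i hi => (sz_iter_noStep_le _ _ _ _ _ i).1.trans (le_trans ?_ (hc (sz d)))⟩
  have h1 := hk1 d
  have h2 := hk2 d
  have h3 := length_le_sz (G d)
  rw [sz_nat] at h2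
  exact Nat.add_le_add h1 (Nat.mul_le_mul (hi.trans h2) (h3.trans h1))

lemma pt_yesA {e : δ → Item} (he : PT e) : PT fun d => yesA (e d) :=
  pair (fst' he) (append (snd' he) (const [true]))

lemma pt_block (hn : PT fun p : γ × Word × List Bool => next p.1 p.2.1 p.2.2) (hq : PT q)
    (hcx : PT cx) (hℓ : PT ℓ) (hθ : PT θ) (hG : PT G) :
    PT fun d => block (next (cx d)) (ℓ d) (q (cx d)) (θ d) (G d) := by
  have h1 : PT fun d => (noStep (next (cx d)) (ℓ d) (θ d) (G d).length)^[q (cx d)] (G d) :=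
    pt_iterNoStep hn hcx hℓ hθ (PT.length hG) hG (hq.comp hcx)
  have h2 : PT fun p : δ × ℕ =>
      (noStep (next (cx p.1)) (ℓ p.1) (θ p.1) (G p.1).length)^[p.2] (G p.1) :=
    pt_iterNoStep hn (hcx.comp fst) (hℓ.comp fst) (hθ.comp fst) (PT.length (hG.comp fst))
      (hG.comp fst) snd
  have h3 : PT fun p : (δ × ℕ) × ℕ => (fpend (next (cx p.1.1)) (ℓ p.1.1)
      (List.replicate p.2 false)
      ((noStep (next (cx p.1.1)) (ℓ p.1.1) (θ p.1.1) (G p.1.1).length)^[p.1.2] (G p.1.1))).map
        yesA :=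
    PT.map (f := fun _ e => yesA e) (pt_fpend hn (hcx.comp (fst' fst)) (hℓ.comp (fst' fst))
      (PT.replicate snd (const false)) (h2.comp fst)) (pt_yesA snd)
  have h4 : PT fun p : δ × ℕ => (List.range (ℓ p.1 + 1)).map fun j =>
      (fpend (next (cx p.1)) (ℓ p.1) (List.replicate j false)
        ((noStep (next (cx p.1)) (ℓ p.1) (θ p.1) (G p.1).length)^[p.2] (G p.1))).map yesA :=
    PT.map (f := fun (p : δ × ℕ) j => (fpend (next (cx p.1)) (ℓ p.1) (List.replicate j false)
        ((noStep (next (cx p.1)) (ℓ p.1) (θ p.1) (G p.1).length)^[p.2] (G p.1))).map yesA)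
      (PT.range (PT.succ (hℓ.comp fst))) h3
  have h5 : PT fun d => (List.range (q (cx d))).flatMap fun t => (List.range (ℓ d + 1)).map
      fun j => (fpend (next (cx d)) (ℓ d) (List.replicate j false)
        ((noStep (next (cx d)) (ℓ d) (θ d) (G d).length)^[t] (G d))).map yesA :=
    PT.flatMap (f := fun d t => (List.range (ℓ d + 1)).map fun j =>
      (fpend (next (cx d)) (ℓ d) (List.replicate j false)
        ((noStep (next (cx d)) (ℓ d) (θ d) (G d).length)^[t] (G d))).map yesA)
      (PT.range (hq.comp hcx)) h4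
  exact PT.filter (p := fun d G' => decide ((G d).length ≤ θ d * G'.length)) (PT.cons h1 h5)
    (PT.le (PT.length (hG.comp fst)) (PT.mul (hθ.comp fst) (PT.length snd)))

end

lemma pt_errC {P θb E : δ → ℕ} (hP : PT P) (hθ : PT θb) (hE : PT E) (j : ℕ) :
    PT fun d => errC (P d) (θb d) (E d) j := by
  induction j with
  | zero => exact hE
  | succ j ih =>
    exact PT.mul (PT.mul (PT.mul (const 4) hP) (PT.mul hθ ih)) (PT.mul hθ ih)

lemma pt_thC {P θb E : δ → ℕ} (hP : PT P) (hθ : PT θb) (hE : PT E) (j : ℕ) :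
    PT fun d => thC (P d) (θb d) (E d) j :=
  PT.mul (PT.mul (const 4) hP) (PT.mul hθ (pt_errC hP hθ hE j))

/-- The search for collections is a polynomial-time function. -/
theorem pt_searchC (hn : PT fun p : γ × Word × List Bool => next p.1 p.2.1 p.2.2) (hq : PT q)
    {ℓ P θb E : γ → ℕ} (hℓ : PT ℓ) (hP : PT P) (hθb : PT θb) (hE : PT E) (j : ℕ) :
    PT fun p : γ × List Word × List Item =>
      searchC (next p.1) (ℓ p.1) (q p.1) (P p.1) (θb p.1) (E p.1) j p.2.1 p.2.2 := by
  induction j with
  | zero =>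
    exact PT.cons (PT.map (f := fun (p : γ × List Word × List Item) e =>
        yes (next p.1) (q p.1) e) (snd' snd) (pt_yes hn hq (fst' fst) snd)) (const [])
  | succ j ih =>
    have hP' : PT fun p : γ × List Word × List Item => P p.1 := hP.comp fst
    have hcx : PT fun p : (γ × List Word × List Item) × ℕ => p.1.1 := fst' fst
    have hG : PT fun p : (γ × List Word × List Item) × ℕ => p.1.2.2 := snd' (snd' fst)
    have hθ : PT fun p : (γ × List Word × List Item) × ℕ => thC (P p.1.1) (θb p.1.1) (E p.1.1) j :=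
      pt_thC (hP.comp hcx) (hθb.comp hcx) (hE.comp hcx) j
    have hT := pt_growIter (δ := (γ × List Word × List Item) × ℕ) hn hq hcx hθ hG
      (fst' (snd' fst)) snd
    have hH := pt_halted hn hq hcx hT hG
    have hW := pt_waiting hn hq hcx hT hG
    -- continue with a collection
    have hcont : PT fun r : (((γ × List Word × List Item) × ℕ) × List Item) × List Item =>
        searchC (next r.1.1.1.1) (ℓ r.1.1.1.1) (q r.1.1.1.1) (P r.1.1.1.1) (θb r.1.1.1.1)
          (E r.1.1.1.1) j ((grow (next r.1.1.1.1) (q r.1.1.1.1)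
            (thC (P r.1.1.1.1) (θb r.1.1.1.1) (E r.1.1.1.1) j)
            r.1.1.1.2.2)^[r.1.1.2] r.1.1.1.2.1) r.2 :=
      ih.comp (pair (hcx.comp (fst' fst)) (pair (hT.comp (fst' fst)) snd))
    have hblk : PT fun p : ((γ × List Word × List Item) × ℕ) × List Item =>
        (block (next p.1.1.1) (ℓ p.1.1.1) (q p.1.1.1) (θb p.1.1.1) (p.2.map no)).flatMap fun G' =>
          searchC (next p.1.1.1) (ℓ p.1.1.1) (q p.1.1.1) (P p.1.1.1) (θb p.1.1.1) (E p.1.1.1) j
            ((grow (next p.1.1.1) (q p.1.1.1) (thC (P p.1.1.1) (θb p.1.1.1) (E p.1.1.1) j)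
            p.1.1.2.2)^[p.1.2] p.1.1.2.1) G' :=
      PT.flatMap (f := fun (p : ((γ × List Word × List Item) × ℕ) × List Item) G' =>
          searchC (next p.1.1.1) (ℓ p.1.1.1) (q p.1.1.1) (P p.1.1.1) (θb p.1.1.1) (E p.1.1.1) j
            ((grow (next p.1.1.1) (q p.1.1.1) (thC (P p.1.1.1) (θb p.1.1.1) (E p.1.1.1) j)
            p.1.1.2.2)^[p.1.2] p.1.1.2.1) G')
        (pt_block hn hq (hcx.comp fst) (hℓ.comp (hcx.comp fst)) (hθb.comp (hcx.comp fst))
          (PT.map (f := fun (_ : ((γ × List Word × List Item) × ℕ) × List Item) e => no e) snd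
            (pt_no snd))) hcont
    have hleaf := PT.cond (PT.le (PT.length hG) (PT.mul (const 2) (PT.length hH)))
      (PT.cons hH (const []))
      (casesOption (pt_pop hn hcx hθ (PT.length hG) hW) (hblk.comp (pair PT.id hW))
        (g := fun p s => (block (next p.1.1) (ℓ p.1.1) (q p.1.1) (θb p.1.1)
          ((pend (next p.1.1) s (waiting (next p.1.1) (q p.1.1)
            ((grow (next p.1.1) (q p.1.1) (thC (P p.1.1) (θb p.1.1) (E p.1.1) j)
              p.1.2.2)^[p.2] p.1.2.1) p.1.2.2)).map no)).flatMap fun G' =>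
          searchC (next p.1.1) (ℓ p.1.1) (q p.1.1) (P p.1.1) (θb p.1.1) (E p.1.1) j
            ((grow (next p.1.1) (q p.1.1) (thC (P p.1.1) (θb p.1.1) (E p.1.1) j)
            p.1.2.2)^[p.2] p.1.2.1) G')
        (hblk.comp (pair fst (pt_pend hn (hcx.comp fst) snd (hW.comp fst)))))
    refine (PT.flatMap' (PT.range hP') hleaf).of_eq fun p => ?_
    simp only [searchC]
    congr 1
    funext i
    by_cases h : p.2.2.length ≤ 2 * (halted (next p.1) (q p.1)
        ((grow (next p.1) (q p.1) (thC (P p.1) (θb p.1) (E p.1) j) p.2.2)^[i] p.2.1)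
          p.2.2).length
    · simp [h]
    · simp only [h, decide_false, Bool.cond_false, if_false]
      split
      · rename_i h'
        rw [h']
      · rename_i s h'
        rw [h']

end Pool.Agent.Lib.MP_634427_lc.KNo
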