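import Pool.Agent.Lib.MP_634427_lc.Solver

/-!
# Candidate lists from signed bundles
-/

namespace Pool.Agent.Lib.MP_634427_lc

open BT

lemma PT.isNilBT {γ : Type} [Enc γ] {f : γ → BT} (hf : PT f) :
    PT fun c => decide (f c = BT.nil) := by
  obtain ⟨F, hF, h⟩ := hf
  refine ⟨_, pt_tcond hF (PT.const_tree (enc true)) (PT.const_tree (enc false)), fun c => ?_⟩
  simp only [h, enc_BT]
  rcases f c with _ | ⟨l, r⟩
  · rfl
  · simp

/-- All lists of length at most `d` over a finite set. -/
def listsOf (F : Finset Word) : ℕ → Finset (List Word)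
  | 0 => {[]}
  | d + 1 => insert [] ((F ×ˢ listsOf F d).image fun p => p.1 :: p.2)

lemma mem_listsOf (F : Finset Word) (d : ℕ) (Q : List Word) (hl : Q.length ≤ d)
    (h : ∀ w ∈ Q, w ∈ F) : Q ∈ listsOf F d := by
  induction d generalizing Q with
  | zero =>
    rw [List.eq_nil_of_length_eq_zero (Nat.le_zero.1 hl)]
    simp [listsOf]
  | succ d ih =>
    cases Q with
    | nil => simp [listsOf]
    | cons w Q =>
      simp only [listsOf, Finset.mem_insert, Finset.mem_image, Finset.mem_product, Prod.exists]
      exact Or.inr ⟨w, Q, ⟨h w List.mem_cons_self, ih Q (by simpa using hl)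
        fun x hx => h x (List.mem_cons_of_mem _ hx)⟩, rfl⟩

lemma card_listsOf_le (F : Finset Word) (d : ℕ) : (listsOf F d).card ≤ (F.card + 1) ^ d := by
  induction d with
  | zero => simp [listsOf]
  | succ d ih =>
    simp only [listsOf]
    refine (Finset.card_insert_le _ _).trans ?_
    have h1 : ((F ×ˢ listsOf F d).image fun p => p.1 :: p.2).card ≤ F.card * (F.card + 1) ^ d := by
      refine Finset.card_image_le.trans ?_
      rw [Finset.card_product]
      exact Nat.mul_le_mul_left _ ih
    have h2 : 1 ≤ (F.card + 1) ^ d := Nat.one_le_pow _ _ (by omega)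
    rw [pow_succ]
    nlinarith

lemma finite_words (S : Set Word) (n : ℕ) : {w ∈ S | w.length ≤ n}.Finite :=
  (List.finite_length_le Bool n).subset fun _ hw => hw.2

/-- The core of the algorithm. The signed bundles `v a r b` are to tell, by the sign of their
balance in the sparse set `S`, whether the unknown word `u` has parity `b` with `r`. Then `u` is in
a list that can be computed from `a` in polynomial time. -/
theorem exists_cands (d : ℕ) (S : Set Word) (hS : Sparse S) {α : Type} [Enc α] (m : α → ℕ)
    (hm : PT m) (v : α → Word → Bool → SVec (List Word))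
    (hv : ∀ b, PT fun p : α × Word => v p.1 p.2 b)
    (hvd : ∀ a r b, ∀ e ∈ v a r b, e.2.length ≤ d) :
    ∃ cand : α → List Word, PT cand ∧ ∀ a u, u.length = m a →
      (∀ r b, r.length ≤ m a →
        (0 < score (fun Q => ∀ w ∈ Q, w ∈ S) (v a r b) ↔ par r u = b)) → u ∈ cand a := by
  obtain ⟨k, hk⟩ := hm.size_le
  have hmk : ∀ a, m a ≤ (sz a + 2) ^ k := fun a => by
    have := hk a; rwa [sz_nat] at this
  let z : α → Word → SVec (List Word) := fun a r => v a r false ++ neg (v a r true)
  have hz : PT fun p : α × Word => z p.1 p.2 := PT.append (hv false) (PT.neg (hv true))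
  -- size bound for the vectors
  obtain ⟨e, he⟩ : ∃ e, ∀ a r b, r.length ≤ m a → sz (v a r b) ≤ (sz a + 2) ^ e := by
    have h0 : ∀ b, ∃ e, ∀ a r, r.length ≤ m a → sz (v a r b) ≤ (sz a + 2) ^ e := by
      intro b
      obtain ⟨k2, hk2⟩ := (hv b).size_le
      obtain ⟨e, he⟩ := PB.pow (PB.add (PB.add PB.id (PB.add (PB.mul (PB.const 2)
        (⟨k, fun n => le_rfl⟩ : PB fun n => (n + 2) ^ k)) (PB.const 1))) (PB.const 2)) k2
      refine ⟨e, fun a r hr => (hk2 (a, r)).trans
        (le_trans (Nat.pow_le_pow_left ?_ k2) (he (sz a)))⟩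
      have h2 := sz_word_le r
      have h4 := hmk a
      simp only [sz_pair]
      omega
    obtain ⟨e1, h1⟩ := h0 false
    obtain ⟨e2, h2⟩ := h0 true
    refine ⟨e1 + e2, fun a r b hr => ?_⟩
    cases b
    · exact (h1 a r hr).trans (Nat.pow_le_pow_right (by omega) (by omega))
    · exact (h2 a r hr).trans (Nat.pow_le_pow_right (by omega) (by omega))
  obtain ⟨c, hc⟩ := hS
  let ℓ : α → ℕ := fun a => (sz a + 2) ^ e
  let D : α → ℕ := fun a => (2 * ℓ a) ^ 2
  let K : α → ℕ := fun a => (ℓ a ^ c + c + 1) ^ d * D a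
  let N : α → ℕ := fun a => 2 * (K a * D a * D a) ^ 2 + 2
  have hℓ : PT ℓ := PT.pow (PT.add (PT.size PT.id) (PT.const 2)) e
  have hDp : PT D := PT.pow (PT.mul (PT.const 2) hℓ) 2
  have hKp : PT K := PT.mul (PT.pow (PT.add (PT.add (PT.pow hℓ c) (PT.const c)) (PT.const 1)) d) hDp
  have hNp : PT N := PT.add (PT.mul (PT.const 2) (PT.pow (PT.mul (PT.mul hKp hDp) hDp) 2))
    (PT.const 2)
  -- norm bound
  have hD : ∀ a (r : Word), r.length ≤ m a → dot (z a r) (z a r) ≤ D a := by
    intro a r hr
    refine (dot_self_le _).trans ?_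
    have h1 : (z a r).length ≤ 2 * ℓ a := by
      have h2 := (length_le_sz _).trans (he a r false hr)
      have h3 := (length_le_sz _).trans (he a r true hr)
      simp only [z, List.length_append, neg, List.length_map, ℓ]
      omega
    have h2 : (z a r).length ^ 2 ≤ D a := Nat.pow_le_pow_left h1 2
    exact_mod_cast h2
  -- the keys inside `S`
  let Fs : α → Finset Word := fun a => (finite_words S (ℓ a)).toFinset
  let T : α → Finset (List Word) := fun a => listsOf (Fs a) d
  have hTcard : ∀ a, (T a).card * D a ≤ K a := by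
    intro a
    refine Nat.mul_le_mul_right _ ((card_listsOf_le _ _).trans (Nat.pow_le_pow_left ?_ d))
    have h1 := hc (ℓ a)
    rw [Set.ncard_eq_toFinset_card _ (finite_words S (ℓ a))] at h1
    exact Nat.succ_le_succ h1
  have hT : ∀ a (r : Word), r.length ≤ m a → ∀ q ∈ z a r, (∀ w ∈ q.2, w ∈ S) → q.2 ∈ T a := by
    have hgen : ∀ a (r : Word) (b : Bool), r.length ≤ m a → ∀ q ∈ v a r b,
        (∀ w ∈ q.2, w ∈ S) → q.2 ∈ T a := by
      intro a r b hr q hq hqS
      refine mem_listsOf _ _ _ (hvd _ _ _ q hq) fun w hw => ?_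
      simp only [Fs, Set.Finite.mem_toFinset]
      refine ⟨hqS w hw, ?_⟩
      have h1 := sz_mem_le hq
      have h2 := sz_mem_le hw
      have h3 := length_le_sz w
      have h4 := he a r b hr
      rw [sz_prod] at h1
      simp only [ℓ]
      omega
    intro a r hr q hq hqS
    rcases List.mem_append.1 hq with h | h
    · exact hgen a r false hr q h hqS
    · obtain ⟨q', hq', rfl⟩ := List.mem_map.1 h
      exact hgen a r true hr q' hq' hqS
  refine ⟨fun a => (loop (z a) (K a) (N a) (m a)).1,
    PT.fst' (pt_loop hz PT.id hKp hNp hm), ?_⟩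
  intro a u hu hsgn
  have h := mem_loop (z := z a) (K := K a) (N := N a) (m := m a) (D := D a) (hD a) le_rfl
    (fun Q => ∀ w ∈ Q, w ∈ S) (T a) (hT a) (hTcard a) u hu ?_ (m a) le_rfl
  · rwa [← hu, List.take_length, hu] at h
  · intro r hr
    simp only [z, score_append, score_neg]
    have hf' := hsgn r false hr
    have ht' := hsgn r true hr
    cases hp : par r u
    · rw [hp] at hf' ht'
      have h2 := hf'.2 rfl
      have h3 : ¬ 0 < score (fun Q => ∀ w ∈ Q, w ∈ S) (v a r true) := fun h => by
        have := ht'.1 h; cases this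
      simp only [sgn, Bool.not_false, if_true]
      omega
    · rw [hp] at hf' ht'
      have h2 := ht'.2 rfl
      have h3 : ¬ 0 < score (fun Q => ∀ w ∈ Q, w ∈ S) (v a r false) := fun h => by
        have := hf'.1 h; cases this
      simp only [sgn, Bool.not_true, Bool.false_eq_true, if_false]
      omega

end Pool.Agent.Lib.MP_634427_lc
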