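import Pool.Agent.Lib.MP_634427_lc.Model
import Pool.Agent.Lib.MP_634427_lc.Defs

/-!
# The class UP; scores
-/

namespace Pool.Agent.Lib.MP_634427_lc

/-- `L` is in UP: as for NP, and no input has two different accepted witnesses. -/
def InUP (L : Set Word) : Prop :=
  ∃ (V : Word × Word → Bool) (c : ℕ), PT V ∧
    (∀ x, x ∈ L ↔ ∃ u : Word, u.length ≤ x.length ^ c + c ∧ V (x, u) = true) ∧
    ∀ x u u', u.length ≤ x.length ^ c + c → u'.length ≤ x.length ^ c + c →
      V (x, u) = true → V (x, u') = true → u = u'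

lemma balance_eq_score (S : Set Word) (v : List (Bool × List Word)) :
    balance S v = score (fun Q => ∀ w ∈ Q, w ∈ S) v := by
  classical
  unfold balance score
  congr 1
  refine List.map_congr_left fun e _ => ?_
  by_cases h : ∀ w ∈ e.2, w ∈ S
  · rw [if_pos h, if_pos h]; rfl
  · rw [if_neg h, if_neg h]

end Pool.Agent.Lib.MP_634427_lc
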