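import Pool.Agent.Lib.MP_634427_lc.Table
import Pool.Agent.Lib.MP_634427_lc.Low

/-!
# Sparse sets in NP that are complete under threshold reductions
-/

namespace Pool.Agent.Lib.MP_634427_lc

open BT

/-- There is a polynomial-time oracle walk: with a correct table of the words of `S` of length at
most `ℓ x` it finds the leftmost witness. -/
theorem exists_walk (S : Set Word) (hard : ∀ A, InNP A → PThrReducible A S)
    (Rel : Word × Word → Bool) (m : Word → ℕ) (hRel : PT Rel) (hm : PT m) :
    ∃ (ask : Word → List Word → Word → Bool) (ℓ : Word → ℕ) (lm : Word → Word),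
      (PT fun p : Word × List Word × Word => ask p.1 p.2.1 p.2.2) ∧ PT ℓ ∧
      ∀ x, (∀ T : List Word, (∀ w : Word, w.length ≤ ℓ x → (w ∈ T ↔ w ∈ S)) →
        walk (ask x T) (m x) = lm x) ∧ (lm x).length = m x ∧
        ((∃ u : Word, u.length = m x ∧ Rel (x, u) = true) → Rel (x, lm x) = true) := by
  classical
  let R : (Word × Word) × Word → Bool := fun p =>
    Rel (p.1.1, p.2) && decide (p.1.2 = p.2.take p.1.2.length)
  have hR : PT R := PT.and (hRel.comp (PT.pair (PT.fst' PT.fst) PT.snd))
    (PT.eqDec enc_word_injective (PT.snd' PT.fst) (PT.take (PT.length (PT.snd' PT.fst)) PT.snd))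
  obtain ⟨A, hA, hmem⟩ := exists_parity_proj R (fun _ => []) (fun a => m a.1) hR (PT.const [])
    (hm.comp PT.fst)
  obtain ⟨f, d, c, hf, hdm, hS, hfd, hfA⟩ := hard A hA
  let q : Word → Word → List (Bool × List Word) := fun x w => f (code (enc ((x, w), ([] : Word), false)))
  have hq : PT fun p : Word × Word => q p.1 p.2 :=
    hf.comp (PT.code (pt_enc (PT.pair PT.id (PT.const (([] : Word), false)))))
  have hqA : ∀ x w, 0 < balance S (q x w) ↔
      ∃ u : Word, (u.length = m x ∧ Rel (x, u) = true) ∧ w <+: u := by
    intro x w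
    rw [← hfA, hmem]
    constructor
    · rintro ⟨u, h1, h2, _⟩
      simp only [R, Bool.and_eq_true, decide_eq_true_eq] at h2
      exact ⟨u, ⟨h1, h2.1⟩, List.prefix_iff_eq_take.2 h2.2⟩
    · rintro ⟨u, ⟨h1, h2⟩, h3⟩
      refine ⟨u, h1, ?_, rfl⟩
      simp only [R, Bool.and_eq_true, decide_eq_true_eq]
      exact ⟨h2, List.prefix_iff_eq_take.1 h3⟩
  obtain ⟨k, hk⟩ := hm.size_le
  have hmk : ∀ a, m a ≤ (sz a + 2) ^ k := fun a => by
    have := hk a; rwa [sz_nat] at this
  obtain ⟨k2, hk2⟩ := hq.size_le
  obtain ⟨e, he⟩ := PB.pow (PB.add (PB.add (PB.add PB.id (PB.mul (PB.const 2)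
    (⟨k, fun n => le_rfl⟩ : PB fun n => (n + 2) ^ k))) (PB.const 1)) (PB.const 2)) k2
  have hword : ∀ x w, w.length ≤ m x → ∀ b ∈ q x w, ∀ u ∈ b.2, u.length ≤ (sz x + 2) ^ e := by
    intro x w hw b hb u hu
    have h1 : sz (q x w) ≤ (sz (x, w) + 2) ^ k2 := hk2 (x, w)
    have h2 : (sz x + 2 * (sz x + 2) ^ k + 1 + 2) ^ k2 ≤ (sz x + 2) ^ e := he (sz x)
    have h3 := sz_mem_le hb
    have h4 := sz_mem_le hu
    have h5 := length_le_sz u
    have h6 := sz_word_le w
    have h7 := hmk x
    rw [sz_prod] at h3
    have h8 : (sz (x, w) + 2) ^ k2 ≤ (sz x + 2 * (sz x + 2) ^ k + 1 + 2) ^ k2 := by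
      refine Nat.pow_le_pow_left ?_ k2
      rw [sz_pair]
      omega
    omega
  let ask : Word → List Word → Word → Bool := fun x T w => inT T (q x w)
  let ask0 : Word → Word → Bool := fun x w => decide (0 < balance S (q x w))
  refine ⟨ask, fun x => (sz x + 2) ^ e, fun x => walk (ask0 x) (m x), ?_, ?_, fun x => ⟨?_, ?_, ?_⟩⟩
  · exact PT.inT (PT.fst' PT.snd) (hq.comp (PT.pair PT.fst (PT.snd' PT.snd)))
  · exact PT.pow (PT.add (PT.size PT.id) (PT.const 2)) e
  · intro T hT
    refine walk_congr (m x) (fun w hw => ?_) (m x) le_rfl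
    rw [Bool.eq_iff_iff]
    simp only [ask, ask0, decide_eq_true_eq]
    exact inT_iff S T _ fun b hb u hu => hT u (hword x w hw b hb u hu)
  · exact length_walk _ _
  · rintro ⟨u, hu⟩
    exact (walk_full (W := fun u : Word => u.length = m x ∧ Rel (x, u) = true) (m := m x)
      (fun u hu => hu.1) (fun w hw => by simp only [ask0, decide_eq_true_eq]; exact hqA x w)
      ⟨u, hu⟩).2

theorem complete_inP (S : Set Word) (hSNP : InNP S) (hsp : Sparse S)
    (hard : ∀ A, InNP A → PThrReducible A S) (L : Set Word) (hL : InNP L) : InP L := by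
  classical
  obtain ⟨V, c, hV, hLV⟩ := hL
  let m : Word → ℕ := fun x => wb c x + 1
  have hm : PT m := PT.succ (pt_wb c)
  obtain ⟨ask, ℓ, lm, hask, hℓ, hw⟩ := exists_walk S hard (relx V) m (pt_relx hV) hm
  obtain ⟨VS, cS, hVS, hSV⟩ := hSNP
  obtain ⟨c', hc'⟩ := hsp
  let ℓC : Word → ℕ := fun x => ℓ x ^ cS + cS
  have hℓC : PT ℓC := PT.add (PT.pow hℓ cS) (PT.const cS)
  let bl : Word → ℕ := fun x => (ℓ x + 1) + (ℓC x + 1)
  have hbl : PT bl := PT.add (PT.succ hℓ) (PT.succ hℓC)
  -- parsing
  let ent : Word → Word → ℕ → Option Word := fun x w i => strip ((w.drop (i * bl x)).take (ℓ x + 1))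
  let crt : Word → Word → ℕ → Option Word := fun x w i =>
    strip ((w.drop (i * bl x + (ℓ x + 1))).take (ℓC x + 1))
  have hent : PT fun p : Word × Word × ℕ => ent p.1 p.2.1 p.2.2 :=
    pt_strip (PT.take (PT.succ (hℓ.comp PT.fst))
      (PT.drop (PT.mul (PT.snd' PT.snd) (hbl.comp PT.fst)) (PT.fst' PT.snd)))
  have hcrt : PT fun p : Word × Word × ℕ => crt p.1 p.2.1 p.2.2 :=
    pt_strip (PT.take (PT.succ (hℓC.comp PT.fst))
      (PT.drop (PT.add (PT.mul (PT.snd' PT.snd) (hbl.comp PT.fst)) (PT.succ (hℓ.comp PT.fst)))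
        (PT.fst' PT.snd)))
  let tab : Word → ℕ → Word → List Word := fun x N w => (List.range N).map fun i => (ent x w i).getD []
  have htab : PT fun p : Word × ℕ × Word => tab p.1 p.2.1 p.2.2 :=
    PT.map (f := fun (p : Word × ℕ × Word) i => (ent p.1 p.2.2 i).getD []) (PT.range (PT.fst' PT.snd))
      (PT.getD (hent.comp (PT.pair (PT.fst' PT.fst) (PT.pair (PT.snd' (PT.snd' PT.fst)) PT.snd)))
        (PT.const []))
  let chk : Word → Word → ℕ → Bool := fun x w i =>
    (ent x w i).isSome && ((crt x w i).isSome &&
      (decide (((crt x w i).getD []).length ≤ ((ent x w i).getD []).length ^ cS + cS) &&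
        VS ((ent x w i).getD [], (crt x w i).getD [])))
  have hchk : PT fun p : Word × Word × ℕ => chk p.1 p.2.1 p.2.2 := by
    have h1 := PT.getD hent (PT.const [])
    have h2 := PT.getD hcrt (PT.const [])
    exact PT.and (PT.isSome hent) (PT.and (PT.isSome hcrt)
      (PT.and (PT.le (PT.length h2) (PT.add (PT.pow (PT.length h1) cS) (PT.const cS)))
        (hVS.comp (PT.pair h1 h2))))
  -- the relation
  let Rel : (Word × ℕ) × Word → Bool := fun p =>
    (List.range p.1.2).all (fun i => chk p.1.1 p.2 i &&
      (List.range i).all fun j => !decide ((ent p.1.1 p.2 j).getD [] = (ent p.1.1 p.2 i).getD []))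
  have hRel : PT Rel := by
    refine PT.all (p := fun (p : (Word × ℕ) × Word) i => chk p.1.1 p.2 i &&
      (List.range i).all fun j => !decide ((ent p.1.1 p.2 j).getD [] = (ent p.1.1 p.2 i).getD []))
      (PT.range (PT.snd' PT.fst)) (PT.and (hchk.comp (PT.pair (PT.fst' (PT.fst' PT.fst))
        (PT.pair (PT.snd' PT.fst) PT.snd))) ?_)
    refine PT.all (p := fun (q : ((Word × ℕ) × Word) × ℕ) j =>
      !decide ((ent q.1.1.1 q.1.2 j).getD [] = (ent q.1.1.1 q.1.2 q.2).getD []))
      (PT.range PT.snd) (PT.not (PT.eqDec enc_word_injective ?_ ?_))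
    · exact PT.getD (hent.comp (PT.pair (PT.fst' (PT.fst' (PT.fst' PT.fst)))
        (PT.pair (PT.snd' (PT.fst' PT.fst)) PT.snd))) (PT.const [])
    · exact PT.getD (hent.comp (PT.pair (PT.fst' (PT.fst' (PT.fst' PT.fst)))
        (PT.pair (PT.snd' (PT.fst' PT.fst)) (PT.snd' PT.fst)))) (PT.const [])
  let π : (Word × ℕ) × Word → Word := fun p => walk (ask p.1.1 (tab p.1.1 p.1.2 p.2)) (m p.1.1)
  have hπ : PT π := pt_walk (ask := fun (p : (Word × ℕ) × Word) w =>
      ask p.1.1 (tab p.1.1 p.1.2 p.2) w) (hask.comp (PT.pair (PT.fst' (PT.fst' PT.fst))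
      (PT.pair (htab.comp (PT.pair (PT.fst' (PT.fst' PT.fst)) (PT.pair (PT.snd' (PT.fst' PT.fst))
        (PT.snd' PT.fst)))) PT.snd))) (hm.comp (PT.fst' PT.fst))
  obtain ⟨cand, hcand, hc⟩ := exists_proj_cands S hard Rel π (fun a => a.2 * bl a.1)
    (fun a => m a.1) hRel hπ (PT.mul PT.snd (hbl.comp PT.fst)) (hm.comp PT.fst)
  let B : Word → ℕ := fun x => ℓ x ^ c' + c'
  have hB : PT B := PT.add (PT.pow hℓ c') (PT.const c')
  refine ⟨fun x => (List.range (B x + 1)).any fun N => (cand (x, N)).any fun u =>
    decide (u.length = m x) && relx V (x, u), ?_, fun x => ?_⟩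
  · refine PT.any (p := fun x N => (cand (x, N)).any fun u =>
      decide (u.length = m x) && relx V (x, u)) (PT.range (PT.succ hB)) ?_
    refine PT.any (p := fun (p : Word × ℕ) u => decide (u.length = m p.1) && relx V (p.1, u))
      (hcand.comp (PT.pair PT.fst PT.snd)) ?_
    exact PT.and (PT.eqNat (PT.length PT.snd) (hm.comp (PT.fst' PT.fst)))
      ((pt_relx hV).comp (PT.pair (PT.fst' PT.fst) PT.snd))
  obtain ⟨hw1, hw2, hw3⟩ := hw x
  constructor
  · intro hx
    obtain ⟨u, hu, hVu⟩ := (hLV x).1 hx
    have hlm := hw3 ⟨pad (wb c x) u, length_pad hu, by rw [relx_pad]; exact hVu⟩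
    let F : Finset Word := (finite_words S (ℓ x)).toFinset
    have hFmem : ∀ w, w ∈ F ↔ w ∈ S ∧ w.length ≤ ℓ x := fun w => by
      simp only [F, Set.Finite.mem_toFinset, Set.mem_ofPred_eq]
    have hFcard : F.card ≤ B x := by
      have h1 := hc' (ℓ x)
      rw [Set.ncard_eq_toFinset_card _ (finite_words S (ℓ x))] at h1
      exact h1
    simp only [List.any_eq_true, Bool.and_eq_true, decide_eq_true_eq, List.mem_range]
    refine ⟨F.card, by omega, lm x, ?_, hw2, hlm⟩
    refine hc (x, F.card) (lm x) hw2 ?_ ?_
    · -- existence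
      have hcert : ∀ t : Word, ∃ C : Word, t ∈ S → C.length ≤ t.length ^ cS + cS ∧ VS (t, C) = true := by
        intro t
        by_cases ht : t ∈ S
        · obtain ⟨C, hC⟩ := (hSV t).1 ht
          exact ⟨C, fun _ => hC⟩
        · exact ⟨[], fun h => absurd h ht⟩
      choose C hC using hcert
      let g : Word → Word := fun t => pad (ℓ x) t ++ pad (ℓC x) (C t)
      have hmemS : ∀ t ∈ F.toList, t ∈ S ∧ t.length ≤ ℓ x := fun t ht =>
        (hFmem t).1 (Finset.mem_toList.1 ht)
      have hClen : ∀ t ∈ F.toList, (C t).length ≤ ℓC x := fun t ht => by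
        obtain ⟨h1, h2⟩ := hmemS t ht
        have h3 := (hC t h1).1
        have h4 : t.length ^ cS ≤ ℓ x ^ cS := Nat.pow_le_pow_left h2 cS
        simp only [ℓC]
        omega
      have hg : ∀ t ∈ F.toList, (g t).length = bl x := fun t ht => by
        simp only [g, List.length_append, bl]
        rw [length_pad (hmemS t ht).2, length_pad (hClen t ht)]
      have hlen : F.toList.length = F.card := Finset.length_toList F
      refine ⟨F.toList.flatMap g, ?_, ?_⟩
      · rw [length_blocks _ _ _ hg, hlen]
      · have hblock : ∀ i (hi : i < F.toList.length),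
            ent x (F.toList.flatMap g) i = some F.toList[i] ∧
            crt x (F.toList.flatMap g) i = some (C F.toList[i]) := by
          intro i hi
          have hti : F.toList[i] ∈ F.toList := List.getElem_mem _
          have h1 := block_take F.toList g (bl x) hg i hi
          have h2 : (pad (ℓ x) F.toList[i]).length = ℓ x + 1 := length_pad (hmemS _ hti).2
          have h3 : (pad (ℓC x) (C F.toList[i])).length = ℓC x + 1 := length_pad (hClen _ hti)
          constructor
          · have h4 : ((F.toList.flatMap g).drop (i * bl x)).take (ℓ x + 1) =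
                pad (ℓ x) F.toList[i] := by
              have h5 : ((((F.toList.flatMap g).drop (i * bl x)).take (bl x))).take (ℓ x + 1) =
                  ((F.toList.flatMap g).drop (i * bl x)).take (ℓ x + 1) := by
                rw [List.take_take]
                congr 1
                simp only [bl]; omega
              rw [← h5, h1]
              simp only [g]
              rw [← h2, List.take_left]
            simp only [ent]
            rw [h4, strip_pad]
          · have h4 : ((F.toList.flatMap g).drop (i * bl x + (ℓ x + 1))).take (ℓC x + 1) =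
                pad (ℓC x) (C F.toList[i]) := by
              have h5 : (((((F.toList.flatMap g).drop (i * bl x)).take (bl x))).drop (ℓ x + 1)) =
                  ((F.toList.flatMap g).drop (i * bl x + (ℓ x + 1))).take (ℓC x + 1) := by
                rw [List.drop_take, List.drop_drop]
                congr 1
                simp only [bl]; omega
              rw [← h5, h1]
              simp only [g]
              rw [← h2, List.drop_left]
            simp only [crt]
            rw [h4, strip_pad]
        simp only [Rel, List.all_eq_true, List.mem_range, Bool.and_eq_true, Bool.not_eq_true',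
          decide_eq_false_iff_not]
        intro i hi
        rw [← hlen] at hi
        obtain ⟨h1, h2⟩ := hblock i hi
        have hti : F.toList[i] ∈ F.toList := List.getElem_mem _
        refine ⟨?_, fun j hj => ?_⟩
        · simp only [chk, h1, h2, Option.isSome_some, Option.getD_some, Bool.true_and,
            Bool.and_eq_true, decide_eq_true_eq]
          exact hC _ (hmemS _ hti).1
        · obtain ⟨h3, _⟩ := hblock j (by omega)
          rw [h1, h3]
          simp only [Option.getD_some]
          intro h
          have := (Finset.nodup_toList F).getElem_inj_iff.1 h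
          omega
    · -- uniqueness of the projection
      intro w hwl hR
      refine hw1 _ ?_
      simp only [Rel, List.all_eq_true, List.mem_range, Bool.and_eq_true, Bool.not_eq_true',
          decide_eq_false_iff_not] at hR
      have hlenT : (tab x F.card w).length = F.card := by simp [tab]
      have hgetT : ∀ i (hi : i < F.card), (tab x F.card w)[i]'(by rw [hlenT]; exact hi) =
          (ent x w i).getD [] := fun i hi => by simp [tab]
      have hnd : (tab x F.card w).Nodup := by
        rw [List.nodup_iff_injective_get]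
        intro ⟨i, hi⟩ ⟨j, hj⟩ hij
        rw [hlenT] at hi hj
        simp only [List.get_eq_getElem, hgetT i hi, hgetT j hj] at hij
        rcases lt_trichotomy i j with h | h | h
        · exact absurd hij ((hR j hj).2 i h)
        · exact Fin.ext h
        · exact absurd hij.symm ((hR i hi).2 j h)
      have hsub : (tab x F.card w).toFinset ⊆ F := by
        intro t ht
        rw [List.mem_toFinset] at ht
        simp only [tab, List.mem_map, List.mem_range] at ht
        obtain ⟨i, hi, rfl⟩ := ht
        have h1 := (hR i hi).1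
        simp only [chk, Bool.and_eq_true, decide_eq_true_eq, Option.isSome_iff_exists] at h1
        obtain ⟨⟨t, ht⟩, _, h2, h3⟩ := h1
        rw [ht] at h2 h3 ⊢
        simp only [Option.getD_some] at h2 h3 ⊢
        refine (hFmem t).2 ⟨(hSV t).2 ⟨_, h2, h3⟩, ?_⟩
        have h4 := length_of_strip ht
        have h5 : ((w.drop (i * bl x)).take (ℓ x + 1)).length ≤ ℓ x + 1 := List.length_take_le _ _
        omega
      have heq : (tab x F.card w).toFinset = F := by
        refine Finset.eq_of_subset_of_card_le hsub ?_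
        rw [List.toFinset_card_of_nodup hnd, hlenT]
      intro t ht
      rw [← List.mem_toFinset, heq, hFmem]
      exact ⟨fun h => h.1, fun h => ⟨h, ht⟩⟩
  · intro h
    simp only [List.any_eq_true, Bool.and_eq_true, decide_eq_true_eq] at h
    obtain ⟨N, _, u', _, h1, h2⟩ := h
    obtain ⟨u, hu, _, hVu⟩ := of_relx h2 h1
    exact (hLV x).2 ⟨u, hu, hVu⟩

/-- If P = NP then the empty set is complete for NP under threshold reductions. -/
theorem exists_complete (h : ∀ L : Set Word, InNP L → InP L) :
    ∃ S : Set Word, InNP S ∧ Sparse S ∧ ∀ A, InNP A → PThrReducible A S := by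
  refine ⟨∅, ⟨fun _ => false, 0, PT.const false, fun x => by simp⟩, ⟨0, fun n => by simp⟩,
    fun A hA => ?_⟩
  obtain ⟨f, hf, hfA⟩ := h A hA
  refine ⟨fun x => bif f x then [(true, [])] else [], fun _ => 0, 1,
    PT.cond hf (PT.const _) (PT.const _), monotone_const, fun n => by simp, fun x e he => ?_,
    fun x => ?_⟩
  · cases h : f x
    · simp [h] at he
    · simp only [h, cond_true, List.mem_singleton] at he
      simp [he]
  · rw [hfA]
    show f x = true ↔ 0 < balance ∅ (bif f x then [(true, [])] else [])
    rcases h : f x with _ | _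
    · simp [balance]
    · simp [balance]

end Pool.Agent.Lib.MP_634427_lc
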