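import Pool.Agent.Lib.MP_634427_lc.Final

/-!
# Deterministic isolating families (problem MP_634427_lc, task T5)

Candidates are the sets `{v < N : (a v + b) mod p < 2 ^ j}` with a prime `2 N < p ≤ 4 N`; a greedy
algorithm picks the candidates.
-/

set_option autoImplicit false

namespace Pool.Agent.Lib.MP_634427_lc

open BT

/-- number of common ones -/
def common : Word → Word → ℕ
  | a :: c, b :: e => (if a && b then 1 else 0) + common c e
  | _, _ => 0

/-! ### The counting argument -/

section count

variable {p : ℕ} [hp : Fact p.Prime]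

/-- residues with representative less than `m` -/
private def isoT (p m : ℕ) [NeZero p] : Finset (ZMod p) := Finset.univ.filter fun x => x.val < m

private theorem card_isoT {m : ℕ} (hm : m ≤ p) : (isoT p m).card = m := by
  have h : (isoT p m).card = (Finset.range m).card := by
    refine Finset.card_bij' (fun x _ => x.val) (fun a _ => (a : ZMod p)) ?_ ?_ ?_ ?_
    · intro x hx
      simpa [isoT] using hx
    · intro a ha
      have h1 : a < m := by simpa using ha
      simp [isoT, ZMod.val_cast_of_lt (h1.trans_le hm), h1]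
    · intro x _
      simp
    · intro a ha
      have h1 : a < m := by simpa using ha
      exact ZMod.val_cast_of_lt (h1.trans_le hm)
  rw [h, Finset.card_range]

private theorem iso_one (m : ℕ) (hm : m ≤ p) (v : ZMod p) :
    (∑ a : ZMod p, ∑ b : ZMod p, if (a * v + b).val < m then (1 : ℤ) else 0) = p * m := by
  have h1 : ∀ a : ZMod p, (∑ b : ZMod p, if (a * v + b).val < m then (1 : ℤ) else 0) = m := by
    intro a
    have h2 : (∑ b : ZMod p, if (a * v + b).val < m then (1 : ℤ) else 0) =
        ∑ b : ZMod p, if b.val < m then (1 : ℤ) else 0 :=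
      Equiv.sum_comp (Equiv.addLeft (a * v)) (fun b : ZMod p => if b.val < m then (1 : ℤ) else 0)
    rw [h2, ← Finset.sum_filter, Finset.sum_const, nsmul_eq_mul, mul_one]
    exact_mod_cast card_isoT hm
  simp only [h1]
  rw [Finset.sum_const, Finset.card_univ, ZMod.card, nsmul_eq_mul]

private theorem iso_two (m : ℕ) (hm : m ≤ p) {v w : ZMod p} (hvw : v ≠ w) :
    (∑ a : ZMod p, ∑ b : ZMod p, (if (a * v + b).val < m then (1 : ℤ) else 0) *
      (if (a * w + b).val < m then (1 : ℤ) else 0)) = m * m := by
  have hd : v - w ≠ 0 := sub_ne_zero.mpr hvw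
  let e : ZMod p × ZMod p ≃ ZMod p × ZMod p :=
    { toFun := fun q => (q.1 * v + q.2, q.1 * w + q.2)
      invFun := fun q => ((q.1 - q.2) / (v - w), q.1 - (q.1 - q.2) / (v - w) * v)
      left_inv := by
        rintro ⟨a, b⟩
        have h1 : (a * v + b - (a * w + b)) / (v - w) = a := by
          rw [div_eq_iff hd]
          ring
        simp only [h1]
        ext
        · rfl
        · simp
      right_inv := by
        rintro ⟨x, y⟩
        have h1 : (x - y) / (v - w) * (v - w) = x - y := div_mul_cancel₀ _ hd
        ext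
        · simp
        · show (x - y) / (v - w) * w + (x - (x - y) / (v - w) * v) = y
          linear_combination -h1 }
  have h1 : (∑ a : ZMod p, ∑ b : ZMod p, (if (a * v + b).val < m then (1 : ℤ) else 0) *
      (if (a * w + b).val < m then (1 : ℤ) else 0)) =
      ∑ q : ZMod p × ZMod p, (if (e q).1.val < m then (1 : ℤ) else 0) *
      (if (e q).2.val < m then (1 : ℤ) else 0) := by
    rw [Fintype.sum_prod_type]
    rfl
  rw [h1, e.sum_comp (fun q : ZMod p × ZMod p => (if q.1.val < m then (1 : ℤ) else 0) *
      (if q.2.val < m then (1 : ℤ) else 0)), Fintype.sum_prod_type]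
  show (∑ x : ZMod p, ∑ y : ZMod p, (if x.val < m then (1 : ℤ) else 0) *
      (if y.val < m then (1 : ℤ) else 0)) = m * m
  rw [← Finset.sum_mul_sum, ← Finset.sum_filter, Finset.sum_const, nsmul_eq_mul, mul_one]
  have := card_isoT (p := p) hm
  unfold isoT at this
  rw [this]

/-- The number of pairs that isolate an element of `S`. -/
private theorem iso_count (S : Finset (ZMod p)) (m : ℕ) (h1 : 2 * (S.card * m) ≤ p)
    (h2 : p < 4 * (S.card * m)) :
    p * p ≤ 8 * (Finset.univ.filter fun q : ZMod p × ZMod p =>
      (∑ v ∈ S, if (q.1 * v + q.2).val < m then 1 else 0) = 1).card := by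
  have hpp : 0 < p := hp.out.pos
  have hS : 0 < S.card := by
    rcases Nat.eq_zero_or_pos S.card with h | h
    · rw [h] at h2
      omega
    · exact h
  have hm : m ≤ p := by nlinarith
  set k : ZMod p × ZMod p → ℤ := fun q => ∑ v ∈ S, if (q.1 * v + q.2).val < m then (1 : ℤ) else 0
    with hk
  have hsum1 : ∑ q, k q = S.card * (p * m) := by
    rw [hk]
    simp only
    rw [Finset.sum_comm]
    have : ∀ v ∈ S, (∑ q : ZMod p × ZMod p, if (q.1 * v + q.2).val < m then (1 : ℤ) else 0) =
        p * m := by
      intro v _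
      rw [Fintype.sum_prod_type]
      exact iso_one m hm v
    rw [Finset.sum_congr rfl this, Finset.sum_const, nsmul_eq_mul]
  have hsum2 : ∑ q, k q ^ 2 = S.card * (p * m) + S.card * (S.card - 1) * (m * m) := by
    have h3 : ∀ q, k q ^ 2 = ∑ v ∈ S, ∑ w ∈ S,
        (if (q.1 * v + q.2).val < m then (1 : ℤ) else 0) *
        (if (q.1 * w + q.2).val < m then (1 : ℤ) else 0) := by
      intro q
      rw [hk, sq]
      simp only
      rw [Finset.sum_mul_sum]
    simp only [h3]
    rw [Finset.sum_comm]
    have h4 : ∀ v ∈ S, (∑ q : ZMod p × ZMod p, ∑ w ∈ S,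
        (if (q.1 * v + q.2).val < m then (1 : ℤ) else 0) *
        (if (q.1 * w + q.2).val < m then (1 : ℤ) else 0)) = p * m + (S.card - 1) * (m * m) := by
      intro v hv
      rw [Finset.sum_comm, ← Finset.add_sum_erase S _ hv]
      have h5 : (∑ q : ZMod p × ZMod p, (if (q.1 * v + q.2).val < m then (1 : ℤ) else 0) *
          (if (q.1 * v + q.2).val < m then (1 : ℤ) else 0)) = p * m := by
        rw [← iso_one m hm v, Fintype.sum_prod_type]
        refine Finset.sum_congr rfl fun a _ => Finset.sum_congr rfl fun b _ => ?_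
        split_ifs <;> simp
      have h6 : ∀ w ∈ S.erase v, (∑ q : ZMod p × ZMod p,
          (if (q.1 * v + q.2).val < m then (1 : ℤ) else 0) *
          (if (q.1 * w + q.2).val < m then (1 : ℤ) else 0)) = m * m := by
        intro w hw
        rw [Fintype.sum_prod_type]
        exact iso_two m hm (Finset.ne_of_mem_erase hw).symm
      rw [h5, Finset.sum_congr rfl h6, Finset.sum_const, nsmul_eq_mul,
        Finset.card_erase_of_mem hv]
      push_cast [Nat.cast_sub hS]
      ring
    rw [Finset.sum_congr rfl h4, Finset.sum_const, nsmul_eq_mul]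
    ring
  have hle : ∑ q, (2 * k q - k q ^ 2) ≤ ((Finset.univ.filter fun q : ZMod p × ZMod p =>
      (∑ v ∈ S, if (q.1 * v + q.2).val < m then 1 else 0) = 1).card : ℤ) := by
    rw [Finset.card_filter]
    push_cast
    refine Finset.sum_le_sum fun q _ => ?_
    have h3 : k q = ((∑ v ∈ S, if (q.1 * v + q.2).val < m then 1 else 0 : ℕ) : ℤ) := by
      rw [hk]
      push_cast
      rfl
    generalize (∑ v ∈ S, if (q.1 * v + q.2).val < m then 1 else 0 : ℕ) = n at h3
    rw [h3]
    split_ifs with h
    · rw [h]
      norm_num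
    · rcases Nat.lt_or_ge n 1 with h5 | h5
      · have : n = 0 := by omega
        rw [this]
        norm_num
      · have h6 : (2 : ℤ) ≤ n := by
          have : 2 ≤ n := by omega
          exact_mod_cast this
        nlinarith
  have hval : ∑ q, (2 * k q - k q ^ 2) =
      (S.card : ℤ) * (p * m) - (S.card : ℤ) * ((S.card : ℤ) - 1) * (m * m) := by
    rw [Finset.sum_sub_distrib, ← Finset.mul_sum, hsum1, hsum2]
    ring
  rw [hval] at hle
  have h3 : (p : ℤ) * p ≤ 8 * (S.card * (p * m) - S.card * (S.card - 1) * (m * m)) := by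
    have e1 : 2 * ((S.card : ℤ) * m) ≤ p := by exact_mod_cast h1
    have e2 : (p : ℤ) < 4 * (S.card * m) := by exact_mod_cast h2
    have e3 : (0 : ℤ) ≤ S.card * (m * m) := by positivity
    have e4 : (0 : ℤ) < p := by exact_mod_cast hpp
    nlinarith [mul_nonneg (sub_nonneg.mpr e1) (sub_nonneg.mpr e2.le), mul_pos e4 e4]
  have h4 : (p : ℤ) * p ≤ 8 * ((Finset.univ.filter fun q : ZMod p × ZMod p =>
      (∑ v ∈ S, if (q.1 * v + q.2).val < m then 1 else 0) = 1).card : ℤ) := by linarith
  exact_mod_cast h4

end count

/-! ### Words -/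

private theorem iso_countP_range (n : ℕ) (P : ℕ → Bool) :
    (List.range n).countP P = ∑ i ∈ Finset.range n, if P i = true then 1 else 0 := by
  induction n with
  | zero => rfl
  | succ n ih =>
    rw [List.range_succ, List.countP_append, ih, Finset.sum_range_succ]
    simp [List.countP_cons]

private theorem common_map (e : Word) (f : ℕ → Bool) :
    common ((List.range e.length).map f) e =
      ∑ v ∈ Finset.range e.length, if (f v && e.getD v false) = true then 1 else 0 := by
  induction e generalizing f with
  | nil => rfl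
  | cons b e ih =>
    rw [List.length_cons, List.range_succ_eq_map, List.map_cons, List.map_map, common,
      ih (f ∘ Nat.succ), Finset.sum_range_succ']
    simp [add_comm]

private theorem common_eq (C e : Word) : common C e =
    ((List.range e.length).filter fun v => C.getD v false && e.getD v false).length := by
  induction e generalizing C with
  | nil => cases C <;> rfl
  | cons b e ih =>
    rw [List.length_cons, List.range_succ_eq_map, List.filter_cons, List.filter_map,
      ]
    cases C with
    | nil => simp [common]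
    | cons a C =>
      rw [common, ih]
      have h1 : ((fun v => (a :: C).getD v false && (b :: e).getD v false) ∘ Nat.succ) =
          fun v => C.getD v false && e.getD v false := by
        funext v
        simp
      rw [h1]
      simp only [List.getD_cons_zero]
      split_ifs with h
      · simp [add_comm]
      · simp

lemma PT.common {γ : Type} [Enc γ] {f g : γ → Word} (hf : PT f) (hg : PT g) :
    PT fun c => MP_634427_lc.common (f c) (g c) := by
  have h := PT.length (PT.filter (l := fun c => List.range (g c).length)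
    (p := fun c v => (f c).getD v false && (g c).getD v false) (PT.range (PT.length hg))
    (PT.and (PT.getLD PT.snd (hf.comp PT.fst) (PT.const false))
      (PT.getLD PT.snd (hg.comp PT.fst) (PT.const false))))
  exact h.of_eq fun c => (common_eq _ _).symm

lemma PT.mod {γ : Type} [Enc γ] {f g : γ → ℕ} (hf : PT f) (hg : PT g) :
    PT fun c => f c % g c := by
  have h1 : PT fun c => ((List.range (f c + 1)).find? fun q =>
      decide (f c < g c * (q + 1))).getD 0 :=
    PT.getD (PT.find? (p := fun c q => decide (f c < g c * (q + 1))) (PT.range (PT.succ hf))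
      (PT.lt (hf.comp PT.fst) (PT.mul (hg.comp PT.fst) (PT.succ PT.snd)))) (PT.const 0)
  refine (PT.sub hf (PT.mul hg h1)).of_eq fun c => ?_
  rcases Nat.eq_zero_or_pos (g c) with h | h
  · simp [h]
  · have h2 : (List.range (f c + 1)).find? (fun q => decide (f c < g c * (q + 1))) =
        Option.some (f c / g c) := by
      rw [List.find?_range_eq_some]
      refine ⟨?_, ?_, ?_⟩
      · simpa using Nat.lt_mul_div_succ (f c) h
      · rw [List.mem_range]
        exact Nat.lt_succ_of_le (Nat.div_le_self _ _)
      · intro j hj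
        have h3 : g c * (j + 1) ≤ f c := by
          have h4 : (j + 1) * g c ≤ f c := (Nat.le_div_iff_mul_le h).mp hj
          linarith
        simpa using h3
    rw [h2, Option.getD_some, Nat.mod_eq_sub_mul_div]

/-! ### The prime and the powers of two -/

/-- a prime between `2 N` and `4 N` -/
def isoPrime (N : ℕ) : ℕ := ((List.range (4 * N + 1)).find? fun p =>
  decide (2 * N < p) && (List.range p).all fun a => (List.range p).all fun b =>
    !decide (a * b = p)).getD 0

lemma pt_isoPrime {γ : Type} [Enc γ] {f : γ → ℕ} (hf : PT f) : PT fun c => isoPrime (f c) := by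
  refine PT.getD (PT.find? (p := fun c p => decide (2 * f c < p) &&
    (List.range p).all fun a => (List.range p).all fun b => !decide (a * b = p))
    (PT.range (PT.succ (PT.mul (PT.const 4) hf))) ?_) (PT.const 0)
  refine PT.and (PT.lt (PT.mul (PT.const 2) (hf.comp PT.fst)) PT.snd) ?_
  refine PT.all (γ := γ × ℕ) (l := fun q => List.range q.2)
    (p := fun q a => (List.range q.2).all fun b => !decide (a * b = q.2)) (PT.range PT.snd) ?_
  refine PT.all (γ := (γ × ℕ) × ℕ) (l := fun q => List.range q.1.2)
    (p := fun q b => !decide (q.2 * b = q.1.2)) (PT.range (PT.snd' PT.fst)) ?_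
  exact PT.not (PT.eqNat (PT.mul (PT.snd' PT.fst) PT.snd) (PT.snd' (PT.fst' PT.fst)))

private theorem iso_prime_iff {p : ℕ} (hp : 2 ≤ p) :
    ((List.range p).all fun a => (List.range p).all fun b => !decide (a * b = p)) = true ↔
      p.Prime := by
  simp only [List.all_eq_true, List.mem_range, Bool.not_eq_true', decide_eq_false_iff_not]
  constructor
  · intro h
    rw [Nat.prime_def_lt]
    refine ⟨hp, ?_⟩
    rintro m hm ⟨b, hb⟩
    by_contra hm1
    have hb0 : b ≠ 0 := by
      rintro rfl
      omega
    have hm0 : m ≠ 0 := by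
      rintro rfl
      omega
    have h2 : b < p := by
      have h3 : 2 ≤ m := by omega
      have h4 : 0 < b := Nat.pos_of_ne_zero hb0
      nlinarith
    exact h m hm b h2 hb.symm
  · rintro h a ha b hb rfl
    have h1 := (Nat.prime_def_lt.mp h).2 a ha (Dvd.intro b rfl)
    rw [h1, one_mul] at hb
    exact lt_irrefl _ hb

theorem isoPrime_spec {N : ℕ} (hN : 0 < N) :
    (isoPrime N).Prime ∧ 2 * N < isoPrime N ∧ isoPrime N ≤ 4 * N := by
  obtain ⟨p, hp, h1, h2⟩ := Nat.exists_prime_lt_and_le_two_mul (2 * N) (by omega)
  unfold isoPrime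
  rcases hf : (List.range (4 * N + 1)).find? (fun p =>
    decide (2 * N < p) && (List.range p).all fun a => (List.range p).all fun b =>
      !decide (a * b = p)) with _ | q
  · exfalso
    rw [List.find?_eq_none] at hf
    apply hf p (by rw [List.mem_range]; omega)
    rw [Bool.and_eq_true, iso_prime_iff hp.two_le]
    exact ⟨by simpa using h1, hp⟩
  · have h3 := List.find?_some hf
    have h4 := List.mem_of_find?_eq_some hf
    rw [List.mem_range] at h4
    simp only [Bool.and_eq_true, decide_eq_true_eq] at h3
    rw [Option.getD_some]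
    refine ⟨(iso_prime_iff (by omega)).mp h3.2, h3.1, by omega⟩

lemma pt_pow_two {γ : Type} [Enc γ] {n B : γ → ℕ} (hn : PT n) (hB : PT B)
    (h : ∀ c, 2 ^ n c ≤ B c) : PT fun c => 2 ^ n c := by
  have key : ∀ i : ℕ, (fun r : ℕ => 2 * r)^[i] 1 = 2 ^ i := by
    intro i
    induction i with
    | zero => rfl
    | succ i ih => rw [Function.iterate_succ_apply', ih, pow_succ, mul_comm]
  have h1 := PT.iterate (f := fun (_ : γ) (r : ℕ) => 2 * r) hn (PT.const 1)
    (PT.mul (PT.const 2) PT.snd) (by
      obtain ⟨k, hk⟩ := hB.size_le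
      refine ⟨k, fun c i hi => ?_⟩
      have h2 := hk c
      rw [sz_nat] at h2
      rw [sz_nat, key]
      exact (Nat.pow_le_pow_right (by norm_num) hi).trans ((h c).trans h2))
  exact h1.of_eq fun c => key _

/-! ### The candidates -/

/-- the candidate with parameters `j, a, b` -/
def isoCand (N j a b : ℕ) : Word := (List.range N).map fun v =>
  decide ((a * v + b) % isoPrime N < 2 ^ min j ((lg N).1 + 1))

/-- all the candidates -/
def isoCands (N : ℕ) : List Word := (List.range ((lg N).1 + 2)).flatMap fun j =>
  (List.range (isoPrime N)).flatMap fun a => (List.range (isoPrime N)).map fun b =>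
    isoCand N j a b

lemma pt_isoCand {γ : Type} [Enc γ] {N j a b : γ → ℕ} (hN : PT N) (hj : PT j) (ha : PT a)
    (hb : PT b) : PT fun c => isoCand (N c) (j c) (a c) (b c) := by
  refine PT.map (f := fun c v => decide ((a c * v + b c) % isoPrime (N c) <
    2 ^ min (j c) ((lg (N c)).1 + 1))) (PT.range hN) ?_
  refine PT.lt (PT.mod (PT.add (PT.mul (ha.comp PT.fst) PT.snd) (hb.comp PT.fst))
    (pt_isoPrime (hN.comp PT.fst))) ?_
  refine pt_pow_two (B := fun c => 2 * (2 * N c.1 + 1))
    (PT.min (hj.comp PT.fst) (PT.succ (PT.fst' (pt_lg (hN.comp PT.fst)))))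
    (PT.mul (PT.const 2) (PT.succ (PT.mul (PT.const 2) (hN.comp PT.fst)))) fun c => ?_
  have h1 := lg_le (N c.1)
  calc 2 ^ min (j c.1) ((lg (N c.1)).1 + 1) ≤ 2 ^ ((lg (N c.1)).1 + 1) :=
        Nat.pow_le_pow_right (by norm_num) (min_le_right _ _)
    _ = 2 * 2 ^ (lg (N c.1)).1 := by rw [pow_succ, mul_comm]
    _ ≤ 2 * (2 * N c.1 + 1) := Nat.mul_le_mul_left 2 h1

lemma pt_isoCands {γ : Type} [Enc γ] {N : γ → ℕ} (hN : PT N) :
    PT fun c => isoCands (N c) := by
  refine PT.flatMap (f := fun c j => (List.range (isoPrime (N c))).flatMap fun a =>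
    (List.range (isoPrime (N c))).map fun b => isoCand (N c) j a b)
    (PT.range (PT.add (PT.fst' (pt_lg hN)) (PT.const 2))) ?_
  refine PT.flatMap (γ := γ × ℕ) (l := fun q => List.range (isoPrime (N q.1)))
    (f := fun q a => (List.range (isoPrime (N q.1))).map fun b => isoCand (N q.1) q.2 a b)
    (PT.range (pt_isoPrime (hN.comp PT.fst))) ?_
  refine PT.map (γ := (γ × ℕ) × ℕ) (l := fun q => List.range (isoPrime (N q.1.1)))
    (f := fun q b => isoCand (N q.1.1) q.1.2 q.2 b)
    (PT.range (pt_isoPrime (hN.comp (PT.fst' PT.fst)))) ?_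
  exact pt_isoCand (hN.comp (PT.fst' (PT.fst' PT.fst))) (PT.snd' (PT.fst' PT.fst))
    (PT.snd' PT.fst) PT.snd

private theorem iso_sum_zmod {p : ℕ} [NeZero p] (F : ZMod p → ℕ) :
    ∑ x : ZMod p, F x = ∑ a ∈ Finset.range p, F (a : ZMod p) := by
  refine Finset.sum_bij' (fun x _ => x.val) (fun a _ => (a : ZMod p)) ?_ ?_ ?_ ?_ ?_
  · intro x _
    exact Finset.mem_range.mpr (ZMod.val_lt x)
  · intro a _
    exact Finset.mem_univ _
  · intro x _
    simp
  · intro a ha
    exact ZMod.val_cast_of_lt (Finset.mem_range.mp ha)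
  · intro x _
    simp

private theorem iso_le_flatMap {α β : Type} (l : List α) (f : α → List β) (P : β → Bool) {j : α}
    (hj : j ∈ l) : (f j).countP P ≤ (l.flatMap f).countP P := by
  induction l with
  | nil => simp at hj
  | cons a l ih =>
    rw [List.flatMap_cons, List.countP_append]
    rcases List.mem_cons.mp hj with rfl | h
    · omega
    · have := ih h
      omega

private theorem iso_countP_flatMap (n : ℕ) (w : ℕ → ℕ → Word) (P : Word → Bool) :
    ((List.range n).flatMap fun a => (List.range n).map fun b => w a b).countP P =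
      ∑ a ∈ Finset.range n, ∑ b ∈ Finset.range n, if P (w a b) = true then 1 else 0 := by
  have h1 : ∀ m, ((List.range m).flatMap fun a => (List.range n).map fun b => w a b).countP P =
      ∑ a ∈ Finset.range m, ∑ b ∈ Finset.range n, if P (w a b) = true then 1 else 0 := by
    intro m
    induction m with
    | zero => rfl
    | succ m ih =>
      rw [List.range_succ, List.flatMap_append, List.countP_append, ih, Finset.sum_range_succ]
      congr 1
      rw [List.flatMap_cons, List.flatMap_nil, List.append_nil, List.countP_map,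
        iso_countP_range]
      rfl
  exact h1 n

/-- each nonempty set is isolated by many candidates -/
private theorem isoCands_good {N : ℕ} {e : Word} (he : e.length = N) (ht : true ∈ e) :
    (isoCands N).length ≤ 8 * ((lg N).1 + 2) *
      (isoCands N).countP fun C => decide (common C e = 1) := by
  have hN : 0 < N := by
    rw [← he]
    exact List.length_pos_of_mem ht
  obtain ⟨hp, hp1, hp2⟩ := isoPrime_spec hN
  set p := isoPrime N with hpdef
  have : Fact p.Prime := ⟨hp⟩
  -- the support
  set T : Finset ℕ := (Finset.range N).filter fun v => e.getD v false = true with hT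
  have hTN : T.card ≤ N := by
    have := Finset.card_filter_le (Finset.range N) fun v => e.getD v false = true
    rwa [Finset.card_range] at this
  have hT0 : 0 < T.card := by
    rw [Finset.card_pos]
    obtain ⟨i, hi, hie⟩ := List.getElem_of_mem ht
    refine ⟨i, ?_⟩
    rw [hT, Finset.mem_filter, Finset.mem_range]
    refine ⟨by omega, ?_⟩
    rw [List.getD_eq_getElem _ _ hi, hie]
  have hinj : Set.InjOn (fun v : ℕ => (v : ZMod p)) T := by
    intro v hv w hw hvw
    have h1 : v < N := Finset.mem_range.mp (Finset.mem_filter.mp hv).1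
    have h2 : w < N := Finset.mem_range.mp (Finset.mem_filter.mp hw).1
    have h3 := congrArg ZMod.val hvw
    simp only at h3
    rwa [ZMod.val_cast_of_lt (by omega), ZMod.val_cast_of_lt (by omega)] at h3
  set S : Finset (ZMod p) := T.image fun v : ℕ => (v : ZMod p) with hS
  have hScard : S.card = T.card := Finset.card_image_of_injOn hinj
  -- the scale
  have hd : p / (2 * T.card) ≠ 0 := by
    have : 1 ≤ p / (2 * T.card) := by
      rw [Nat.le_div_iff_mul_le (by omega)]
      omega
    omega
  set j := Nat.log 2 (p / (2 * T.card)) with hj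
  have hj1 : 2 ^ j ≤ p / (2 * T.card) := Nat.pow_log_le_self 2 hd
  have hj2 : p / (2 * T.card) < 2 ^ (j + 1) := Nat.lt_pow_succ_log_self (by norm_num) _
  have h1 : 2 * (T.card * 2 ^ j) ≤ p := by
    have := (Nat.le_div_iff_mul_le (by omega)).mp hj1
    linarith
  have h2 : p < 4 * (T.card * 2 ^ j) := by
    have := (Nat.div_lt_iff_lt_mul (by omega)).mp hj2
    rw [pow_succ] at this
    linarith
  have hjl : j ≤ (lg N).1 + 1 := by
    have h3 := le_lg N
    have h4 : 2 ^ j ≤ 2 ^ ((lg N).1 + 1) := by
      rw [pow_succ]
      have h5 : 2 ^ j ≤ T.card * 2 ^ j := Nat.le_mul_of_pos_left _ hT0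
      omega
    exact (Nat.pow_le_pow_iff_right (by norm_num)).mp h4
  rw [← hScard] at h1 h2
  have hcount := iso_count S (2 ^ j) h1 h2
  have hC : ∀ a b : ℕ, common (isoCand N j a b) e =
      ∑ v ∈ S, if ((a : ZMod p) * v + (b : ZMod p)).val < 2 ^ j then 1 else 0 := by
    intro a b
    unfold isoCand
    rw [min_eq_left hjl, ← hpdef]
    conv_lhs => rw [← he]
    rw [common_map, he, hS, Finset.sum_image hinj, hT, Finset.sum_filter]
    refine Finset.sum_congr rfl fun v _ => ?_
    have h6 : ((a : ZMod p) * (v : ZMod p) + (b : ZMod p)).val = (a * v + b) % p := by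
      rw [← Nat.cast_mul, ← Nat.cast_add, ZMod.val_natCast]
    rw [h6]
    generalize e.getD v false = t
    by_cases h8 : (a * v + b) % p < 2 ^ j <;> cases t <;> simp [h8]
  have hpart : p * p ≤ 8 * (isoCands N).countP fun C => decide (common C e = 1) := by
    refine hcount.trans (Nat.mul_le_mul_left 8 ?_)
    have h9 := iso_le_flatMap (List.range ((lg N).1 + 2))
      (fun j => (List.range p).flatMap fun a => (List.range p).map fun b => isoCand N j a b)
      (fun C => decide (common C e = 1)) (j := j) (List.mem_range.mpr (by omega))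
    refine le_trans (le_of_eq ?_) h9
    rw [iso_countP_flatMap, Finset.card_filter, Fintype.sum_prod_type, iso_sum_zmod]
    refine Finset.sum_congr rfl fun a _ => ?_
    rw [iso_sum_zmod]
    refine Finset.sum_congr rfl fun b _ => ?_
    simp only [decide_eq_true_eq, hC]
  have hlen : (isoCands N).length = ((lg N).1 + 2) * (p * p) := by
    unfold isoCands
    simp [List.length_flatMap, ← hpdef]
  rw [hlen]
  calc ((lg N).1 + 2) * (p * p) ≤ ((lg N).1 + 2) *
        (8 * (isoCands N).countP fun C => decide (common C e = 1)) := Nat.mul_le_mul_left _ hpart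
    _ = _ := by ring

/-! ### The greedy algorithm -/

/-- pick a candidate that isolates many sets -/
def isoPick (L : List Word) (K : ℕ) (R : List Word) : Word :=
  (L.find? fun C => decide (R.length ≤
    K * (R.filter fun e => decide (common C e = 1)).length)).getD []

/-- one greedy step -/
def isoStep (L : List Word) (K : ℕ) (s : List Word × List Word) : List Word × List Word :=
  (isoPick L K s.2 :: s.1, s.2.filter fun e => !decide (common (isoPick L K s.2) e = 1))

/-- the sets that are to be isolated -/
def isoStart (N : ℕ) (E : List Word) : List Word :=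
  E.filter fun e => decide (e.length = N) && e.any fun b => b

/-- the number of rounds -/
def isoRounds (N : ℕ) (E : List Word) : ℕ := 8 * ((lg N).1 + 2) * ((lg E.length).1 + 1)

/-- the isolating family -/
def isoFam (q : ℕ × List Word) : List Word :=
  ((isoStep (isoCands q.1) (8 * ((lg q.1).1 + 2)))^[isoRounds q.1 q.2]
    ([], isoStart q.1 q.2)).1

private theorem iso_double {α β : Type} (P : α → β → Bool) (L : List α) (R : List β) :
    (L.map fun C => R.countP (P C)).sum = (R.map fun e => L.countP fun C => P C e).sum := by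
  induction L with
  | nil => simp
  | cons C L ih =>
    rw [List.map_cons, List.sum_cons, ih]
    have h1 : R.countP (P C) = (R.map fun e => if P C e = true then 1 else 0).sum := by
      clear ih
      induction R with
      | nil => rfl
      | cons e R ih => rw [List.countP_cons, List.map_cons, List.sum_cons, ih, add_comm]
    rw [h1, ← List.sum_map_add]
    congr 1
    refine List.map_congr_left fun e _ => ?_
    rw [List.countP_cons, add_comm]

private theorem iso_sum_le (R : List Word) (f : Word → ℕ) (c : ℕ) (h : ∀ e ∈ R, c ≤ f e) :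
    R.length * c ≤ (R.map f).sum := by
  induction R with
  | nil => simp
  | cons e R ih =>
    have h1 := ih fun x hx => h x (List.mem_cons_of_mem _ hx)
    have h2 := h e List.mem_cons_self
    rw [List.length_cons, List.map_cons, List.sum_cons, Nat.succ_mul]
    omega

private theorem iso_sum_lt (L : List Word) (f : Word → ℕ) (c : ℕ) (h : ∀ e ∈ L, f e < c) :
    (L.map f).sum + L.length ≤ L.length * c := by
  induction L with
  | nil => simp
  | cons e R ih =>
    have h1 := ih fun x hx => h x (List.mem_cons_of_mem _ hx)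
    have h2 := h e List.mem_cons_self
    rw [List.length_cons, List.map_cons, List.sum_cons, Nat.succ_mul]
    omega

private theorem iso_exists (L R : List Word) (K : ℕ) (hL : L ≠ [])
    (h : ∀ e ∈ R, L.length ≤ K * L.countP fun C => decide (common C e = 1)) :
    ∃ C ∈ L, R.length ≤ K * (R.filter fun e => decide (common C e = 1)).length := by
  by_contra hcon
  push Not at hcon
  have h1 := iso_sum_lt L (fun C => K * (R.filter fun e => decide (common C e = 1)).length)
    R.length hcon
  have h2 : (L.map fun C => K * (R.filter fun e => decide (common C e = 1)).length).sum =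
      (R.map fun e => K * L.countP fun C => decide (common C e = 1)).sum := by
    rw [List.sum_map_mul_left, List.sum_map_mul_left]
    congr 1
    have := iso_double (fun C e => decide (common C e = 1)) L R
    simpa only [List.countP_eq_length_filter] using this
  have h3 := iso_sum_le R (fun e => K * L.countP fun C => decide (common C e = 1)) L.length h
  rw [h2] at h1
  have h4 : 0 < L.length := List.length_pos_of_ne_nil hL
  rw [mul_comm] at h3
  omega

private theorem iso_step_le (L : List Word) (K : ℕ) (hL : L ≠ []) (s : List Word × List Word)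
    (h : ∀ e ∈ s.2, L.length ≤ K * L.countP fun C => decide (common C e = 1)) :
    K * (isoStep L K s).2.length + s.2.length ≤ K * s.2.length := by
  obtain ⟨C, hC, hC'⟩ := iso_exists L s.2 K hL h
  have h1 : s.2.length ≤
      K * (s.2.filter fun e => decide (common (isoPick L K s.2) e = 1)).length := by
    unfold isoPick
    rcases hf : L.find? (fun C => decide (s.2.length ≤
      K * (s.2.filter fun e => decide (common C e = 1)).length)) with _ | C1
    · exfalso
      rw [List.find?_eq_none] at hf
      exact hf C hC (by simpa using hC')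
    · have h2 := List.find?_some hf
      simpa using h2
  have h2 : (s.2.filter fun e => decide (common (isoPick L K s.2) e = 1)).length +
      (isoStep L K s).2.length = s.2.length := by
    unfold isoStep
    simp only
    rw [← List.countP_eq_length_filter, ← List.countP_eq_length_filter,
      List.length_eq_countP_add_countP (fun e => decide (common (isoPick L K s.2) e = 1))
        (l := s.2)]
    congr 1
    refine List.countP_congr fun e _ => ?_
    simp
  calc K * (isoStep L K s).2.length + s.2.length ≤ K * (isoStep L K s).2.length +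
        K * (s.2.filter fun e => decide (common (isoPick L K s.2) e = 1)).length := by omega
    _ = K * s.2.length := by rw [← Nat.mul_add, add_comm, h2]

private theorem iso_inv (L : List Word) (K : ℕ) (E : List Word) (i : ℕ) :
    ((isoStep L K)^[i] ([], E)).1.length = i ∧
    (∀ C ∈ ((isoStep L K)^[i] ([], E)).1, C ∈ L ∨ C = []) ∧
    List.Sublist ((isoStep L K)^[i] ([], E)).2 E ∧
    ∀ e ∈ E, e ∈ ((isoStep L K)^[i] ([], E)).2 ∨
      ∃ C ∈ ((isoStep L K)^[i] ([], E)).1, common C e = 1 := by
  induction i with
  | zero =>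
    refine ⟨rfl, by simp, List.Sublist.refl _, fun e he => Or.inl he⟩
  | succ i ih =>
    rw [Function.iterate_succ_apply']
    generalize (isoStep L K)^[i] ([], E) = s at ih ⊢
    obtain ⟨h1, h2, h3, h4⟩ := ih
    refine ⟨by simp [isoStep, h1], ?_, List.filter_sublist.trans h3, ?_⟩
    · intro C hC
      rcases List.mem_cons.mp hC with hC | hC
      · rw [hC]
        unfold isoPick
        rcases hf : L.find? (fun C => decide (s.2.length ≤
          K * (s.2.filter fun e => decide (common C e = 1)).length)) with _ | C1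
        · right
          rfl
        · left
          exact List.mem_of_find?_eq_some hf
      · exact h2 C hC
    · intro e he
      rcases h4 e he with h | ⟨C, hC, hCe⟩
      · by_cases h5 : common (isoPick L K s.2) e = 1
        · exact Or.inr ⟨_, List.mem_cons_self, h5⟩
        · left
          show e ∈ s.2.filter _
          rw [List.mem_filter]
          exact ⟨h, by simpa using h5⟩
      · exact Or.inr ⟨C, List.mem_cons_of_mem _ hC, hCe⟩

private theorem iso_decay (L : List Word) (K : ℕ) (hL : L ≠ []) (E : List Word)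
    (h : ∀ e ∈ E, L.length ≤ K * L.countP fun C => decide (common C e = 1)) (i : ℕ) :
    K ^ i * ((isoStep L K)^[i] ([], E)).2.length ≤ (K - 1) ^ i * E.length := by
  induction i with
  | zero => simp
  | succ i ih =>
    have h1 := iso_step_le L K hL ((isoStep L K)^[i] ([], E)) fun e he =>
      h e ((iso_inv L K E i).2.2.1.subset he)
    rw [Function.iterate_succ_apply']
    generalize (isoStep L K)^[i] ([], E) = s at ih h1 ⊢
    have h2 : K * (isoStep L K s).2.length ≤ (K - 1) * s.2.length := by
      rw [Nat.sub_mul, one_mul]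
      omega
    calc K ^ (i + 1) * (isoStep L K s).2.length
        = K ^ i * (K * (isoStep L K s).2.length) := by rw [pow_succ]; ring
      _ ≤ K ^ i * ((K - 1) * s.2.length) := Nat.mul_le_mul_left _ h2
      _ = (K - 1) * (K ^ i * s.2.length) := by ring
      _ ≤ (K - 1) * ((K - 1) ^ i * E.length) := Nat.mul_le_mul_left _ ih
      _ = (K - 1) ^ (i + 1) * E.length := by rw [pow_succ]; ring

private theorem iso_bern (m n : ℕ) : m ^ (n + 1) + (n + 1) * m ^ n ≤ (m + 1) ^ (n + 1) := by
  induction n with
  | zero => simp
  | succ n ih =>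
    calc m ^ (n + 1 + 1) + (n + 1 + 1) * m ^ (n + 1)
        ≤ m ^ (n + 1 + 1) + (n + 1 + 1) * m ^ (n + 1) + (n + 1) * m ^ n := Nat.le_add_right _ _
      _ = (m ^ (n + 1) + (n + 1) * m ^ n) * (m + 1) := by ring
      _ ≤ (m + 1) ^ (n + 1) * (m + 1) := Nat.mul_le_mul_right _ ih
      _ = (m + 1) ^ (n + 1 + 1) := by rw [pow_succ (m + 1) (n + 1)]

/-- `2 (K - 1) ^ K ≤ K ^ K` -/
private theorem iso_bernoulli {K : ℕ} (hK : 0 < K) : 2 * (K - 1) ^ K ≤ K ^ K := by
  obtain ⟨m, rfl⟩ := Nat.exists_eq_succ_of_ne_zero hK.ne'
  have h1 := iso_bern m m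
  simp only [Nat.succ_eq_add_one, Nat.add_sub_cancel]
  have h2 : m ^ (m + 1) ≤ (m + 1) * m ^ m := by
    rw [pow_succ, mul_comm]
    exact Nat.mul_le_mul_right _ (Nat.le_succ m)
  omega

private theorem iso_done (L : List Word) (K : ℕ) (hK : 1 < K) (hL : L ≠ []) (E : List Word)
    (h : ∀ e ∈ E, L.length ≤ K * L.countP fun C => decide (common C e = 1)) {t : ℕ}
    (ht : E.length ≤ 2 ^ t) : ((isoStep L K)^[K * (t + 1)] ([], E)).2 = [] := by
  have h1 := iso_decay L K hL E h (K * (t + 1))
  by_contra hne
  have h2 : 1 ≤ ((isoStep L K)^[K * (t + 1)] ([], E)).2.length := List.length_pos_of_ne_nil hne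
  have h3 : (2 * (K - 1) ^ K) ^ (t + 1) ≤ (K ^ K) ^ (t + 1) :=
    Nat.pow_le_pow_left (iso_bernoulli (by omega)) _
  rw [mul_pow, ← pow_mul, ← pow_mul] at h3
  have h4 : 0 < (K - 1) ^ (K * (t + 1)) := Nat.pow_pos (by omega)
  have h5 : K ^ (K * (t + 1)) ≤ (K - 1) ^ (K * (t + 1)) * 2 ^ t :=
    calc K ^ (K * (t + 1)) = K ^ (K * (t + 1)) * 1 := (mul_one _).symm
      _ ≤ K ^ (K * (t + 1)) * ((isoStep L K)^[K * (t + 1)] ([], E)).2.length :=
        Nat.mul_le_mul_left _ h2
      _ ≤ (K - 1) ^ (K * (t + 1)) * E.length := h1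
      _ ≤ _ := Nat.mul_le_mul_left _ ht
  have h6 : 2 ^ (t + 1) * (K - 1) ^ (K * (t + 1)) ≤ 2 ^ t * (K - 1) ^ (K * (t + 1)) := by
    refine h3.trans (h5.trans (le_of_eq (mul_comm _ _)))
  have h7 : 2 ^ (t + 1) ≤ 2 ^ t := Nat.le_of_mul_le_mul_right h6 h4
  have h8 : 2 ^ t < 2 ^ (t + 1) := Nat.pow_lt_pow_right (by norm_num) (Nat.lt_succ_self t)
  omega

private theorem isoCands_ne {N : ℕ} (hN : 0 < N) : isoCands N ≠ [] := by
  obtain ⟨hp, -, -⟩ := isoPrime_spec hN
  intro h
  have h1 : (isoCands N).length = ((lg N).1 + 2) * (isoPrime N * isoPrime N) := by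
    unfold isoCands
    simp [List.length_flatMap]
  rw [h, List.length_nil] at h1
  have h2 := hp.pos
  have h3 : 0 < ((lg N).1 + 2) * (isoPrime N * isoPrime N) := by positivity
  omega

/-! ### Polynomial time -/

lemma pt_isoPick {γ : Type} [Enc γ] {L R : γ → List Word} {K : γ → ℕ} (hL : PT L) (hK : PT K)
    (hR : PT R) : PT fun c => isoPick (L c) (K c) (R c) := by
  refine PT.getD (PT.find? (p := fun c C => decide ((R c).length ≤
    K c * ((R c).filter fun e => decide (common C e = 1)).length)) hL ?_) (PT.const [])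
  refine PT.le (PT.length (hR.comp PT.fst)) (PT.mul (hK.comp PT.fst) (PT.length ?_))
  exact PT.filter (γ := γ × Word) (l := fun q => R q.1)
    (p := fun q e => decide (common q.2 e = 1)) (hR.comp PT.fst)
    (PT.eqNat (PT.common (PT.snd' PT.fst) PT.snd) (PT.const 1))

lemma pt_isoStep {γ : Type} [Enc γ] {L : γ → List Word} {K : γ → ℕ}
    {s : γ → List Word × List Word} (hL : PT L) (hK : PT K) (hs : PT s) :
    PT fun c => isoStep (L c) (K c) (s c) := by
  have h1 : PT fun c => isoPick (L c) (K c) (s c).2 := pt_isoPick hL hK (PT.snd' hs)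
  refine PT.pair (PT.cons h1 (PT.fst' hs)) ?_
  exact PT.filter (l := fun c => (s c).2)
    (p := fun c e => !decide (common (isoPick (L c) (K c) (s c).2) e = 1)) (PT.snd' hs)
    (PT.not (PT.eqNat (PT.common (h1.comp PT.fst) PT.snd) (PT.const 1)))

lemma pt_isoStart {γ : Type} [Enc γ] {N : γ → ℕ} {E : γ → List Word} (hN : PT N) (hE : PT E) :
    PT fun c => isoStart (N c) (E c) := by
  refine PT.filter (p := fun c e => decide (e.length = N c) && e.any fun b => b) hE ?_
  exact PT.and (PT.eqNat (PT.length PT.snd) (hN.comp PT.fst))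
    (PT.any (γ := γ × Word) (l := fun q => q.2) (p := fun _ b => b) PT.snd PT.snd)

lemma pt_isoRounds {γ : Type} [Enc γ] {N : γ → ℕ} {E : γ → List Word} (hN : PT N) (hE : PT E) :
    PT fun c => isoRounds (N c) (E c) :=
  PT.mul (PT.mul (PT.const 8) (PT.add (PT.fst' (pt_lg hN)) (PT.const 2)))
    (PT.add (PT.fst' (pt_lg (PT.length hE))) (PT.const 1))

lemma pt_isoFam : PT isoFam := by
  have hN : PT fun q : ℕ × List Word => q.1 := PT.fst
  have hE : PT fun q : ℕ × List Word => q.2 := PT.snd
  have hL : PT fun q : ℕ × List Word => isoCands q.1 := pt_isoCands hN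
  have hK : PT fun q : ℕ × List Word => 8 * ((lg q.1).1 + 2) :=
    PT.mul (PT.const 8) (PT.add (PT.fst' (pt_lg hN)) (PT.const 2))
  have hS : PT fun q : ℕ × List Word => isoStart q.1 q.2 := pt_isoStart hN hE
  have hR : PT fun q : ℕ × List Word => isoRounds q.1 q.2 := pt_isoRounds hN hE
  refine PT.fst' (PT.iterate
    (f := fun q : ℕ × List Word => isoStep (isoCands q.1) (8 * ((lg q.1).1 + 2))) hR
    (PT.pair (PT.const []) hS) (pt_isoStep (hL.comp PT.fst) (hK.comp PT.fst) PT.snd) ?_)
  obtain ⟨a, ha⟩ := hR.size_le
  obtain ⟨b, hb⟩ := hL.size_le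
  obtain ⟨d, hd⟩ := hS.size_le
  obtain ⟨e, he⟩ := PB.add (PB.add (PB.mul (F := fun n => (n + 2) ^ a)
    (G := fun n => (n + 2) ^ b + 1) ⟨a, fun n => le_rfl⟩
    (PB.add ⟨b, fun n => le_rfl⟩ (PB.const 1))) (G := fun n => (n + 2) ^ d)
      ⟨d, fun n => le_rfl⟩) (PB.const 1)
  refine ⟨e, fun c i hi => le_trans ?_ (he (sz c))⟩
  obtain ⟨h1, h2, h3, -⟩ := iso_inv (isoCands c.1) (8 * ((lg c.1).1 + 2)) (isoStart c.1 c.2) i
  have hR' := ha c
  rw [sz_nat] at hR'
  have h4 : sz ((isoStep (isoCands c.1) (8 * ((lg c.1).1 + 2)))^[i] ([], isoStart c.1 c.2)).1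
      ≤ i * (sz (isoCands c.1) + 1) := by
    refine (sz_list_le _ (sz (isoCands c.1)) fun r hr => ?_).trans
      (Nat.mul_le_mul_right _ h1.le)
    rcases h2 r hr with h | h
    · exact sz_mem_le h
    · rw [h]
      simp
  have h5 := sz_sublist_le h3
  have h6 := hd c
  have h7 := hb c
  have h8 : i * (sz (isoCands c.1) + 1) ≤ (sz c + 2) ^ a * ((sz c + 2) ^ b + 1) :=
    Nat.mul_le_mul (hi.trans hR') (by omega)
  show sz ((isoStep (isoCands c.1) (8 * ((lg c.1).1 + 2)))^[i] ([], isoStart c.1 c.2)) ≤ _
  rw [sz_prod]
  beta_reduce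
  omega

/-- Isolating families for a given list of sets: `E` is a list of subsets of `{0..N-1}` (0-1 words
of length `N`); the family has `O(log N * log |E|)` members and isolates an element of each
nonempty member of `E`. -/
theorem exists_isofam : ∃ iso : ℕ × List Word → List Word, PT iso ∧
    (∀ N E, (iso (N, E)).length ≤ 16 * ((lg N).1 + 2) * ((lg E.length).1 + 2)) ∧
    ∀ N E e, e ∈ E → e.length = N → true ∈ e → ∃ C ∈ iso (N, E), common C e = 1 := by
  refine ⟨isoFam, pt_isoFam, ?_, ?_⟩
  · intro N E
    unfold isoFam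
    rw [(iso_inv _ _ _ _).1]
    unfold isoRounds
    show 8 * ((lg N).1 + 2) * ((lg E.length).1 + 1) ≤ _
    exact Nat.mul_le_mul (Nat.mul_le_mul_right _ (by norm_num)) (by omega)
  · intro N E e he heN het
    have hN : 0 < N := by
      rw [← heN]
      exact List.length_pos_of_mem het
    have h0 : e ∈ isoStart N E := by
      unfold isoStart
      rw [List.mem_filter]
      refine ⟨he, ?_⟩
      rw [Bool.and_eq_true, List.any_eq_true]
      exact ⟨by simpa using heN, true, het, rfl⟩
    have h1 := iso_done (isoCands N) (8 * ((lg N).1 + 2)) (by omega) (isoCands_ne hN)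
      (isoStart N E) (by
        intro e' he'
        unfold isoStart at he'
        rw [List.mem_filter, Bool.and_eq_true, List.any_eq_true] at he'
        obtain ⟨-, h2, b, hb, hb'⟩ := he'
        have hb1 : b = true := hb'
        rw [hb1] at hb
        exact isoCands_good (by simpa using h2) hb) (t := (lg E.length).1)
      ((List.length_filter_le _ _).trans (le_lg _))
    rcases (iso_inv (isoCands N) (8 * ((lg N).1 + 2)) (isoStart N E)
      (8 * ((lg N).1 + 2) * ((lg E.length).1 + 1))).2.2.2 e h0 with h2 | h2
    · rw [h1] at h2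
      simp at h2
    · exact h2

end Pool.Agent.Lib.MP_634427_lc
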