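import Pool.Agent.Lib.MP_634427_lc.Gen
import Pool.Agent.Lib.MP_634427_lc.Final

/-!
# Evaluation of threshold reductions with an explicit table; leftmost witnesses
-/

namespace Pool.Agent.Lib.MP_634427_lc

open BT

/-- membership in a table -/
def memT (T : List Word) (w : Word) : Bool := T.any fun t => decide (t = w)

lemma memT_iff (T : List Word) (w : Word) : memT T w = true ↔ w ∈ T := by
  simp [memT]

/-- Does the threshold instance `v` have positive balance in the table `T`? -/
def inT (T : List Word) (v : List (Bool × List Word)) : Bool :=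
  decide ((v.filter fun e => !e.1 && e.2.all (memT T)).length <
    (v.filter fun e => e.1 && e.2.all (memT T)).length)

lemma PT.memT {γ : Type} [Enc γ] {T : γ → List Word} {w : γ → Word} (hT : PT T) (hw : PT w) :
    PT fun c => MP_634427_lc.memT (T c) (w c) :=
  PT.any (p := fun c t => decide (t = w c)) hT
    (PT.eqDec enc_word_injective PT.snd (hw.comp PT.fst))

lemma PT.inT {γ : Type} [Enc γ] {T : γ → List Word} {v : γ → List (Bool × List Word)} (hT : PT T)
    (hv : PT v) : PT fun c => MP_634427_lc.inT (T c) (v c) := by
  have h : PT fun p : γ × (Bool × List Word) => p.2.2.all (MP_634427_lc.memT (T p.1)) :=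
    PT.all (p := fun (p : γ × (Bool × List Word)) w => MP_634427_lc.memT (T p.1) w)
      (PT.snd' PT.snd) (PT.memT (hT.comp (PT.fst' PT.fst)) PT.snd)
  exact PT.lt (PT.length (PT.filter (p := fun c (e : Bool × List Word) =>
      !e.1 && e.2.all (MP_634427_lc.memT (T c))) hv (PT.and (PT.not (PT.fst' PT.snd)) h)))
    (PT.length (PT.filter (p := fun c (e : Bool × List Word) =>
      e.1 && e.2.all (MP_634427_lc.memT (T c))) hv (PT.and (PT.fst' PT.snd) h)))

lemma inT_iff (S : Set Word) (T : List Word) (v : List (Bool × List Word))
    (h : ∀ e ∈ v, ∀ w ∈ e.2, w ∈ T ↔ w ∈ S) : inT T v = true ↔ 0 < balance S v := by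
  classical
  have key : balance S v = ((v.filter fun e => e.1 && e.2.all (memT T)).length : ℤ) -
      ((v.filter fun e => !e.1 && e.2.all (memT T)).length : ℤ) := by
    unfold balance
    induction v with
    | nil => simp
    | cons e v ih =>
      have ih' := ih fun e' he' => h e' (List.mem_cons_of_mem _ he')
      have hall : e.2.all (memT T) = decide (∀ w ∈ e.2, w ∈ S) := by
        rw [Bool.eq_iff_iff]
        simp only [List.all_eq_true, decide_eq_true_eq, memT_iff]
        exact ⟨fun h' w hw => (h e List.mem_cons_self w hw).1 (h' w hw),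
          fun h' w hw => (h e List.mem_cons_self w hw).2 (h' w hw)⟩
      simp only [List.map_cons, List.sum_cons, List.filter_cons, hall]
      rw [ih']
      by_cases hS : ∀ w ∈ e.2, w ∈ S
      · rcases hb : e.1 with _ | _
        · simp only [if_pos hS, decide_eq_true hS, Bool.false_and, Bool.not_false, Bool.true_and,
            Bool.false_eq_true, if_false, if_true, List.length_cons]
          push_cast; ring
        · simp only [if_pos hS, decide_eq_true hS, Bool.not_true, Bool.false_and, Bool.true_and,
            Bool.false_eq_true, if_false, if_true, List.length_cons]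
          push_cast; ring
      · simp only [if_neg hS, decide_eq_false hS, Bool.and_false, Bool.false_eq_true, if_false]
        ring
  rw [key, inT, decide_eq_true_eq]
  omega

/-- The walk to the leftmost witness, where `ask w` tells whether some witness extends `w`. -/
def walk (ask : Word → Bool) : ℕ → Word
  | 0 => []
  | i + 1 => bif ask (walk ask i ++ [false]) then walk ask i ++ [false] else walk ask i ++ [true]

lemma length_walk (ask : Word → Bool) (i : ℕ) : (walk ask i).length = i := by
  induction i with
  | zero => rfl
  | succ i ih =>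
    rw [walk]
    cases ask (walk ask i ++ [false])
    · simp [ih]
    · simp [ih]

lemma walk_congr {ask ask' : Word → Bool} (m : ℕ)
    (h : ∀ w : Word, w.length ≤ m → ask w = ask' w) (i : ℕ) (hi : i ≤ m) :
    walk ask i = walk ask' i := by
  induction i with
  | zero => rfl
  | succ i ih =>
    rw [walk, walk, ih (by omega), h _ (by simp [length_walk]; omega)]

lemma walk_spec {W : Word → Prop} {m : ℕ} (hW : ∀ u, W u → u.length = m) {ask : Word → Bool}
    (h : ∀ w : Word, w.length ≤ m → (ask w = true ↔ ∃ u, W u ∧ w <+: u)) (hex : ∃ u, W u)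
    (i : ℕ) (hi : i ≤ m) : ∃ u, W u ∧ walk ask i <+: u := by
  induction i with
  | zero =>
    obtain ⟨u, hu⟩ := hex
    exact ⟨u, hu, List.nil_prefix⟩
  | succ i ih =>
    have hl : (walk ask i ++ [false]).length ≤ m := by simp [length_walk]; omega
    rw [walk]
    rcases hb : ask (walk ask i ++ [false]) with _ | _
    · obtain ⟨u, hu, t, ht⟩ := ih (by omega)
      refine ⟨u, hu, ?_⟩
      have h1 := hW u hu
      rw [← ht] at h1
      simp only [List.length_append, length_walk] at h1
      rcases t with _ | ⟨b, t⟩
      · simp at h1; omega
      · cases b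
        · exfalso
          have h2 := (h _ hl).2 ⟨u, hu, t, by rw [← ht]; simp⟩
          rw [hb] at h2; cases h2
        · exact ⟨t, by rw [← ht]; simp⟩
    · exact (h _ hl).1 hb

lemma walk_full {W : Word → Prop} {m : ℕ} (hW : ∀ u, W u → u.length = m) {ask : Word → Bool}
    (h : ∀ w : Word, w.length ≤ m → (ask w = true ↔ ∃ u, W u ∧ w <+: u)) (hex : ∃ u, W u) :
    W (walk ask m) := by
  obtain ⟨u, hu, t, ht⟩ := walk_spec hW h hex m le_rfl
  have h1 := hW u hu
  rw [← ht] at h1
  simp only [List.length_append, length_walk] at h1
  have h2 : t = [] := List.eq_nil_of_length_eq_zero (by omega)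
  rw [h2, List.append_nil] at ht
  rwa [ht]

lemma pt_walk {γ : Type} [Enc γ] {ask : γ → Word → Bool} {m : γ → ℕ}
    (hask : PT fun p : γ × Word => ask p.1 p.2) (hm : PT m) :
    PT fun c => walk (ask c) (m c) := by
  have h := PT.natRec (s := fun _ : γ => ([] : Word))
    (f := fun c (_ : ℕ) (w : Word) => bif ask c (w ++ [false]) then w ++ [false] else w ++ [true])
    hm (PT.const [])
    (PT.cond (hask.comp (PT.pair PT.fst (PT.append (PT.snd' PT.snd) (PT.const [false]))))
      (PT.append (PT.snd' PT.snd) (PT.const [false]))
      (PT.append (PT.snd' PT.snd) (PT.const [true]))) (by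
      obtain ⟨k, hk⟩ := hm.size_le
      obtain ⟨e, he⟩ := PB.mul (PB.const 2) (⟨k, fun n => le_rfl⟩ : PB fun n => (n + 2) ^ k)
      refine ⟨e, fun c i hi => ?_⟩
      have key : Nat.rec (motive := fun _ => Word) [] (fun _ w =>
          bif ask c (w ++ [false]) then w ++ [false] else w ++ [true]) i = walk (ask c) i := by
        clear hi
        induction i with
        | zero => rfl
        | succ i ih => rw [walk, ← ih]
      rw [key]
      have h1 := sz_word_le (walk (ask c) i)
      rw [length_walk] at h1
      have h2 := hk c
      rw [sz_nat] at h2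
      have h3 := he (sz c)
      beta_reduce at h3
      omega)
  refine h.of_eq fun c => ?_
  induction m c with
  | zero => rfl
  | succ i ih => rw [walk, ← ih]

/-! ### Blocks of fixed length -/

lemma block_take {α : Type} (l : List α) (f : α → Word) (b : ℕ) (hf : ∀ a ∈ l, (f a).length = b)
    (i : ℕ) (hi : i < l.length) : ((l.flatMap f).drop (i * b)).take b = f l[i] := by
  induction l generalizing i with
  | nil => simp at hi
  | cons a l ih =>
    have ha := hf a List.mem_cons_self
    rw [List.flatMap_cons]
    cases i with
    | zero =>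
      rw [Nat.zero_mul, List.drop_zero, ← ha, List.take_left]
      rfl
    | succ i =>
      have h1 : (i + 1) * b = (f a).length + i * b := by rw [ha]; ring
      rw [h1, ← List.drop_drop, List.drop_left]
      exact ih (fun a' h' => hf a' (List.mem_cons_of_mem _ h')) i (by simpa using hi)

lemma length_blocks {α : Type} (l : List α) (f : α → Word) (b : ℕ)
    (hf : ∀ a ∈ l, (f a).length = b) : (l.flatMap f).length = l.length * b := by
  induction l with
  | nil => simp
  | cons a l ih =>
    rw [List.flatMap_cons, List.length_append, hf a List.mem_cons_self,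
      ih fun a' h' => hf a' (List.mem_cons_of_mem _ h'), List.length_cons]
    ring

lemma length_of_strip {w u : Word} (h : strip w = some u) : u.length + 1 ≤ w.length := by
  obtain ⟨k, rfl⟩ := eq_of_strip h
  simp

end Pool.Agent.Lib.MP_634427_lc
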