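import Pool.Agent.Lib.MP_634427_lc.TreeSearch
import Pool.Agent.Lib.MP_634427_lc.Table
import Pool.Agent.Lib.MP_634427_lc.IsoFam

/-!
# Reduction of the number of guesses
-/

namespace Pool.Agent.Lib.MP_634427_lc

open BT

lemma common_zero {C e : Word} (h : common C e = 0) (v : ℕ) (h1 : C.getD v false = true)
    (h2 : e.getD v false = true) : False := by
  induction C generalizing e v with
  | nil => simp at h1
  | cons a C ih =>
    rcases e with _ | ⟨b, e⟩
    · simp at h2
    · simp only [common] at h
      cases v with
      | zero =>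
        simp only [List.getD_cons_zero] at h1 h2
        simp [h1, h2] at h
      | succ v =>
        simp only [List.getD_cons_succ] at h1 h2
        exact ih (by omega) v h1 h2

lemma common_one {C e : Word} (h : common C e = 1) :
    ∃ v, v < e.length ∧ C.getD v false = true ∧ e.getD v false = true ∧
      ∀ v', C.getD v' false = true → e.getD v' false = true → v' = v := by
  induction C generalizing e with
  | nil => simp [common] at h
  | cons a C ih =>
    rcases e with _ | ⟨b, e⟩
    · simp [common] at h
    · simp only [common] at h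
      by_cases hab : (a && b) = true
      · rw [if_pos hab] at h
        simp only [Bool.and_eq_true] at hab
        refine ⟨0, by simp, by simp [hab.1], by simp [hab.2], fun v' h1 h2 => ?_⟩
        rcases v' with _ | v'
        · rfl
        · simp only [List.getD_cons_succ] at h1 h2
          exact (common_zero (by omega) v' h1 h2).elim
      · rw [if_neg hab, Nat.zero_add] at h
        obtain ⟨v, h1, h2, h3, h4⟩ := ih h
        refine ⟨v + 1, by simpa using h1, by simpa using h2, by simpa using h3, fun v' h5 h6 => ?_⟩
        rcases v' with _ | v'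
        · simp only [List.getD_cons_zero] at h5 h6
          exact absurd (by simp [h5, h6]) hab
        · simp only [List.getD_cons_succ] at h5 h6
          rw [h4 v' h5 h6]

lemma enc_nat_injective : Function.Injective (enc : ℕ → BT) := by
  intro a b h
  have h1 := congrArg BT.size h
  have h2 := sz_nat a
  have h3 := sz_nat b
  unfold sz at h2 h3
  omega

lemma enc_numlist_injective : Function.Injective (enc : List ℕ → BT) :=
  enc_list_injective enc_nat_injective

lemma lg_le_of_le_pow {n m k : ℕ} (h : n ≤ (m + 2) ^ k) :
    (lg n).1 ≤ k * (lg (m + 2)).1 + 1 := by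
  have h1 := lg_le n
  have h2 := le_lg (m + 2)
  have h3 : (m + 2) ^ k ≤ (2 ^ (lg (m + 2)).1) ^ k := Nat.pow_le_pow_left h2 k
  rw [← pow_mul, Nat.mul_comm] at h3
  have h4 : 2 ^ (lg n).1 < 2 ^ (k * (lg (m + 2)).1 + 2) := by
    have h5 : 1 ≤ 2 ^ (k * (lg (m + 2)).1) := Nat.one_le_two_pow
    rw [pow_add]
    omega
  have h5 := (Nat.pow_lt_pow_iff_right (by norm_num : 1 < 2)).1 h4
  omega


/-! ### Combinatorics of the first relation: sets of good children -/

/-- the path in the `v`-th block of a certificate -/
def pathAt (N T : ℕ) (z : Word) (v : ℕ) : List ℕ :=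
  ppath N T ((z.drop (N + v * (T * N))).take (T * N))

/-- `v` is a good child of `w` -/
def GoodChild (T : ℕ) (ok : List ℕ → Bool) (w : List ℕ) (v : ℕ) : Prop :=
  ∃ y : List ℕ, y.length = T ∧ ok y = true ∧ y.take (w.length + 1) = w ++ [v]

/-- the certificate `z` describes a set of `m` good children of `w`, with paths -/
def rel1 (N T : ℕ) (ok : List ℕ → Bool) (w : List ℕ) (m : ℕ) (z : Word) : Bool :=
  decide (((List.range N).filter fun v => (z.take N).getD v false).length = m) &&
    (List.range N).all fun v => !((z.take N).getD v false) ||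
      (ok (pathAt N T z v) && decide ((pathAt N T z v).take (w.length + 1) = w ++ [v]))

lemma rel1_iff (N T : ℕ) (ok : List ℕ → Bool) (w : List ℕ) (m : ℕ) (z : Word) :
    rel1 N T ok w m z = true ↔
      ((List.range N).filter fun v => (z.take N).getD v false).length = m ∧
      ∀ v < N, (z.take N).getD v false = true →
        ok (pathAt N T z v) = true ∧ (pathAt N T z v).take (w.length + 1) = w ++ [v] := by
  simp only [rel1, Bool.and_eq_true, decide_eq_true_eq, List.all_eq_true, List.mem_range,
    Bool.or_eq_true, Bool.not_eq_true']
  refine and_congr_right fun _ => forall_congr' fun v => forall_congr' fun _ => ?_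
  cases (z.take N).getD v false <;> simp

theorem exists_children (N T : ℕ) (ok : List ℕ → Bool)
    (hN : ∀ y, ok y = true → ∀ v ∈ y, v < N) (w : List ℕ) :
    ∃ (m : ℕ) (χ : Word), m ≤ N ∧ χ.length = N ∧
      (∀ v, χ.getD v false = true ↔ GoodChild T ok w v) ∧
      (∃ z : Word, z.length = N + N * (T * N) ∧ rel1 N T ok w m z = true) ∧
      ∀ z : Word, z.length = N + N * (T * N) → rel1 N T ok w m z = true → z.take N = χ := by
  classical
  have hGN : ∀ v, GoodChild T ok w v → v < N := by
    rintro v ⟨y, h1, h2, h3⟩
    have h4 : v ∈ y.take (w.length + 1) := by rw [h3]; simp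
    exact hN y h2 v (List.mem_of_mem_take h4)
  obtain ⟨χ, hχ⟩ : ∃ χ : Word, χ = (List.range N).map fun v => decide (GoodChild T ok w v) :=
    ⟨_, rfl⟩
  have hχl : χ.length = N := by simp [hχ]
  have hχG : ∀ v, χ.getD v false = true ↔ GoodChild T ok w v := by
    intro v
    by_cases hv : v < N
    · rw [List.getD_eq_getElem _ _ (by rw [hχl]; exact hv)]
      simp [hχ]
    · rw [List.getD_eq_default _ _ (by rw [hχl]; omega)]
      simp only [Bool.false_eq_true, false_iff]
      exact fun h => hv (hGN v h)
  obtain ⟨m, hm⟩ : ∃ m, m = ((List.range N).filter fun v => decide (GoodChild T ok w v)).length :=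
    ⟨_, rfl⟩
  refine ⟨m, χ, ?_, hχl, hχG, ?_, ?_⟩
  · rw [hm]; exact (List.length_filter_le _ _).trans (by simp)
  · have hex : ∀ v, ∃ y : List ℕ, GoodChild T ok w v → y.length = T ∧ ok y = true ∧
        y.take (w.length + 1) = w ++ [v] := by
      intro v
      by_cases hv : GoodChild T ok w v
      · obtain ⟨y, hy⟩ := hv
        exact ⟨y, fun _ => hy⟩
      · exact ⟨[], fun h => absurd h hv⟩
    choose Y hY using hex
    obtain ⟨g, hg0⟩ : ∃ g : ℕ → Word, g = fun v => if GoodChild T ok w v then pcode N (Y v)
      else List.replicate (T * N) false := ⟨_, rfl⟩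
    have hg1 : ∀ v, GoodChild T ok w v → g v = pcode N (Y v) := fun v hv => by rw [hg0]; simp [hv]
    have hg : ∀ v ∈ List.range N, (g v).length = T * N := by
      intro v _
      by_cases hv : GoodChild T ok w v
      · rw [hg1 v hv, length_pcode (hN _ (hY v hv).2.1), (hY v hv).1]
      · rw [hg0]; simp [hv]
    refine ⟨χ ++ (List.range N).flatMap g, ?_, ?_⟩
    · rw [List.length_append, hχl, length_blocks _ _ _ hg, List.length_range]
    · have htake : (χ ++ (List.range N).flatMap g).take N = χ := by
        conv_lhs => rw [← hχl]
        rw [List.take_left]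
      rw [rel1_iff, htake]
      refine ⟨?_, fun v hv hχv => ?_⟩
      · rw [hm]
        congr 1
        refine List.filter_congr fun v hv => ?_
        rw [Bool.eq_iff_iff, decide_eq_true_eq]
        exact hχG v
      · have hGv := (hχG v).1 hχv
        have h1 : (((χ ++ (List.range N).flatMap g).drop (N + v * (T * N))).take (T * N)) =
            pcode N (Y v) := by
          rw [← List.drop_drop]
          have h2 : (χ ++ (List.range N).flatMap g).drop N = (List.range N).flatMap g := by
            have h0 := List.drop_left (l₁ := χ) (l₂ := (List.range N).flatMap g)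
            rwa [hχl] at h0
          rw [h2, block_take _ g (T * N) hg v (by simpa using hv), List.getElem_range, hg1 v hGv]
        have h2 : pathAt N T (χ ++ (List.range N).flatMap g) v = Y v := by
          unfold pathAt
          rw [h1]
          have h3 := ppath_pcode (hN _ (hY v hGv).2.1) []
          rwa [List.append_nil, (hY v hGv).1] at h3
        rw [h2]
        exact ⟨(hY v hGv).2.1, (hY v hGv).2.2⟩
  · intro z hzl hz
    obtain ⟨hz1, hz2⟩ := (rel1_iff _ _ _ _ _ _).1 hz
    have hztl : (z.take N).length = N := by
      rw [List.length_take, hzl]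
      exact Nat.min_eq_left (Nat.le_add_right _ _)
    have himp : ∀ v < N, (z.take N).getD v false = true → GoodChild T ok w v := by
      intro v hv hzv
      obtain ⟨h1, h2⟩ := hz2 v hv hzv
      exact ⟨_, length_ppath _ _ _, h1, h2⟩
    have hfeq : (Finset.range N).filter (fun v => (z.take N).getD v false = true) =
        (Finset.range N).filter fun v => GoodChild T ok w v := by
      refine Finset.eq_of_subset_of_card_le ?_ ?_
      · intro v hv
        simp only [Finset.mem_filter, Finset.mem_range] at hv ⊢
        exact ⟨hv.1, himp v hv.1 hv.2⟩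
      · have h1 : ((Finset.range N).filter fun v => GoodChild T ok w v).card = m := by
          rw [hm, ← List.toFinset_card_of_nodup (List.nodup_range.filter _)]
          congr 1
          ext v; simp
        have h2 : ((Finset.range N).filter
            fun v => (z.take N).getD v false = true).card = m := by
          rw [← hz1, ← List.toFinset_card_of_nodup (List.nodup_range.filter _)]
          congr 1
          ext v; simp
        rw [h1, h2]
    refine List.ext_getElem (by rw [hztl, hχl]) fun v h1 h2 => ?_
    have hv : v < N := by rwa [hztl] at h1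
    have h3 := Finset.ext_iff.1 hfeq v
    simp only [Finset.mem_filter, Finset.mem_range, hv, true_and] at h3
    rw [← hχG v, List.getD_eq_getElem _ _ h1, List.getD_eq_getElem _ _ h2] at h3
    exact Bool.eq_iff_iff.2 h3

lemma exists_goodChild {T : ℕ} {ok : List ℕ → Bool} {w : List ℕ} (hw : w.length < T)
    (h : ∃ y : List ℕ, y.length = T ∧ ok y = true ∧ y.take w.length = w) :
    ∃ v, GoodChild T ok w v := by
  obtain ⟨y, h1, h2, h3⟩ := h
  have hlt : w.length < y.length := by omega
  refine ⟨y[w.length], y, h1, h2, ?_⟩
  rw [List.take_succ_eq_append_getElem hlt, h3]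

/-! ### Combinatorics of the second relation: descriptors of paths -/

/-- Does the path `y` follow the descriptor `D`? -/
def follows (T : ℕ) (sel : List ℕ → ℕ → ℕ → Bool) (D y : List ℕ) : Bool :=
  (List.range T).all fun j => sel (y.take j) (D.getD j 0) (y.getD j 0)

theorem exists_descriptor (T q : ℕ) (ok : List ℕ → Bool) (sel : List ℕ → ℕ → ℕ → Bool)
    (h0 : ∃ y : List ℕ, y.length = T ∧ ok y = true)
    (hchild : ∀ w : List ℕ, w.length < T →
      (∃ y : List ℕ, y.length = T ∧ ok y = true ∧ y.take w.length = w) →
      ∃ i < q, ∃ v, sel w i v = true ∧ GoodChild T ok w v ∧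
        ∀ v', sel w i v' = true → GoodChild T ok w v' → v' = v) :
    ∃ D y : List ℕ, D.length = T ∧ (∀ v ∈ D, v < q) ∧ y.length = T ∧ ok y = true ∧
      follows T sel D y = true ∧
      ∀ y' : List ℕ, y'.length = T → ok y' = true → follows T sel D y' = true → y' = y := by
  have key : ∀ j, j ≤ T → ∃ w D : List ℕ, w.length = j ∧ D.length = j ∧ (∀ v ∈ D, v < q) ∧
      (∃ y : List ℕ, y.length = T ∧ ok y = true ∧ y.take j = w) ∧
      (∀ i < j, sel (w.take i) (D.getD i 0) (w.getD i 0) = true) ∧
      ∀ y : List ℕ, y.length = T → ok y = true →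
        (∀ i < j, sel (y.take i) (D.getD i 0) (y.getD i 0) = true) → y.take j = w := by
    intro j
    induction j with
    | zero =>
      intro _
      obtain ⟨y0, h1, h2⟩ := h0
      exact ⟨[], [], rfl, rfl, by simp, ⟨y0, h1, h2, by simp⟩, by simp, by simp⟩
    | succ j ih =>
      intro hj
      obtain ⟨w, D, h1, h2, h3, h4, h5, h6⟩ := ih (by omega)
      obtain ⟨i, hi, v, hv1, hv2, hv3⟩ := hchild w (by omega) (by rw [h1]; exact h4)
      refine ⟨w ++ [v], D ++ [i], by simp [h1], by simp [h2], ?_, ?_, ?_, ?_⟩
      · intro x hx
        rcases List.mem_append.1 hx with hx | hx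
        · exact h3 x hx
        · rw [List.mem_singleton.1 hx]; exact hi
      · obtain ⟨y, h7, h8, h9⟩ := hv2
        rw [h1] at h9
        exact ⟨y, h7, h8, h9⟩
      · intro i' hi'
        rcases Nat.lt_succ_iff_lt_or_eq.1 hi' with hlt | rfl
        · rw [List.take_append_of_le_length (by omega), List.getD_append _ _ _ _ (by omega),
            List.getD_append _ _ _ _ (by omega)]
          exact h5 i' hlt
        · rw [List.take_append_of_le_length (by omega), List.take_of_length_le (by omega),
            List.getD_append_right _ _ _ _ (by omega), List.getD_append_right _ _ _ _ (by omega)]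
          simpa [h1, h2] using hv1
      · intro y hy1 hy2 hy3
        have h7 : y.take j = w := h6 y hy1 hy2 fun i' hi' => by
          have := hy3 i' (by omega)
          rwa [List.getD_append _ _ _ _ (by omega)] at this
        have hlt : j < y.length := by omega
        have h8 := hy3 j (by omega)
        rw [h7, List.getD_append_right _ _ _ _ (by omega), List.getD_eq_getElem _ _ hlt] at h8
        simp only [h2, Nat.sub_self, List.getD_cons_zero] at h8
        have h9 : y.take (j + 1) = w ++ [y[j]] := by
          rw [List.take_succ_eq_append_getElem hlt, h7]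
        rw [h9, hv3 y[j] h8 ⟨y, hy1, hy2, by rw [h1]; exact h9⟩]
  obtain ⟨w, D, h1, h2, h3, ⟨y1, hy1a, hy1b, hy1c⟩, h5, h6⟩ := key T le_rfl
  have hwy : y1 = w := by rw [← hy1c]; exact (List.take_of_length_le (by omega)).symm
  rw [← hwy] at h5 h6
  refine ⟨D, y1, h2, h3, hy1a, hy1b, ?_, fun y' h7 h8 h9 => ?_⟩
  · simp only [follows, List.all_eq_true, List.mem_range]
    exact h5
  · simp only [follows, List.all_eq_true, List.mem_range] at h9
    have h10 := h6 y' h7 h8 h9
    rwa [List.take_of_length_le (by omega)] at h10

end Pool.Agent.Lib.MP_634427_lc
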