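import Pool.Agent.Lib.MP_634427_lc.Table

/-!
# Queries of the walk to the leftmost witness; guessing the table
-/

namespace Pool.Agent.Lib.MP_634427_lc

open BT

/-- Threshold instances for the questions whether some witness extends a given word. -/
theorem exists_query (S : Set Word) (hard : ∀ A, InNP A → PThrReducible A S)
    (Rel : Word × Word → Bool) (m : Word → ℕ) (hRel : PT Rel) (hm : PT m) :
    ∃ (q : Word → Word → List (Bool × List Word)) (e : ℕ),
      (PT fun p : Word × Word => q p.1 p.2) ∧
      (∀ x w, w.length ≤ m x → sz (q x w) ≤ (sz x + 2) ^ e) ∧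
      ∀ x w, 0 < balance S (q x w) ↔ ∃ u : Word, (u.length = m x ∧ Rel (x, u) = true) ∧ w <+: u := by
  let R : (Word × Word) × Word → Bool := fun p =>
    Rel (p.1.1, p.2) && decide (p.1.2 = p.2.take p.1.2.length)
  have hR : PT R := PT.and (hRel.comp (PT.pair (PT.fst' PT.fst) PT.snd))
    (PT.eqDec enc_word_injective (PT.snd' PT.fst) (PT.take (PT.length (PT.snd' PT.fst)) PT.snd))
  obtain ⟨A, hA, hmem⟩ := exists_parity_proj R (fun _ => []) (fun a => m a.1) hR (PT.const [])
    (hm.comp PT.fst)
  obtain ⟨f, d, c, hf, hdm, hS, hfd, hfA⟩ := hard A hA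
  let q : Word → Word → List (Bool × List Word) := fun x w => f (code (enc ((x, w), ([] : Word), false)))
  have hq : PT fun p : Word × Word => q p.1 p.2 :=
    hf.comp (PT.code (pt_enc (PT.pair PT.id (PT.const (([] : Word), false)))))
  have hqA : ∀ x w, 0 < balance S (q x w) ↔
      ∃ u : Word, (u.length = m x ∧ Rel (x, u) = true) ∧ w <+: u := by
    intro x w
    rw [← hfA, hmem]
    constructor
    · rintro ⟨u, h1, h2, _⟩
      simp only [R, Bool.and_eq_true, decide_eq_true_eq] at h2
      exact ⟨u, ⟨h1, h2.1⟩, List.prefix_iff_eq_take.2 h2.2⟩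
    · rintro ⟨u, ⟨h1, h2⟩, h3⟩
      refine ⟨u, h1, ?_, rfl⟩
      simp only [R, Bool.and_eq_true, decide_eq_true_eq]
      exact ⟨h2, List.prefix_iff_eq_take.1 h3⟩
  obtain ⟨k, hk⟩ := hm.size_le
  have hmk : ∀ a, m a ≤ (sz a + 2) ^ k := fun a => by
    have := hk a; rwa [sz_nat] at this
  obtain ⟨k2, hk2⟩ := hq.size_le
  obtain ⟨e, he⟩ := PB.pow (PB.add (PB.add (PB.add PB.id (PB.mul (PB.const 2)
    (⟨k, fun n => le_rfl⟩ : PB fun n => (n + 2) ^ k))) (PB.const 1)) (PB.const 2)) k2
  refine ⟨q, e, hq, fun x w hw => ?_, hqA⟩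
  have h1 : sz (q x w) ≤ (sz (x, w) + 2) ^ k2 := hk2 (x, w)
  have h2 : (sz x + 2 * (sz x + 2) ^ k + 1 + 2) ^ k2 ≤ (sz x + 2) ^ e := he (sz x)
  have h6 := sz_word_le w
  have h7 := hmk x
  have h8 : (sz (x, w) + 2) ^ k2 ≤ (sz x + 2 * (sz x + 2) ^ k + 1 + 2) ^ k2 := by
    refine Nat.pow_le_pow_left ?_ k2
    rw [sz_pair]
    omega
  omega

/-- the words in a threshold instance -/
def wordsOf (v : List (Bool × List Word)) : List Word := v.flatMap fun e => e.2

lemma mem_wordsOf {v : List (Bool × List Word)} {w : Word} :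
    w ∈ wordsOf v ↔ ∃ e ∈ v, w ∈ e.2 := by
  simp [wordsOf]

lemma length_wordsOf_le (v : List (Bool × List Word)) : (wordsOf v).length ≤ sz v := by
  induction v with
  | nil => simp [wordsOf]
  | cons e v ih =>
    simp only [wordsOf, List.flatMap_cons, List.length_append] at ih ⊢
    have h1 := length_le_sz e.2
    rw [sz_cons, sz_prod]
    omega

lemma PT.wordsOf {γ : Type} [Enc γ] {v : γ → List (Bool × List Word)} (hv : PT v) :
    PT fun c => MP_634427_lc.wordsOf (v c) :=
  PT.flatMap (f := fun _ (e : Bool × List Word) => e.2) hv (PT.snd' PT.snd)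

lemma walk_congr' {ask ask' : Word → Bool} (m : ℕ)
    (h : ∀ i < m, ask (walk ask i ++ [false]) = ask' (walk ask i ++ [false])) (i : ℕ)
    (hi : i ≤ m) : walk ask i = walk ask' i := by
  induction i with
  | zero => rfl
  | succ i ih =>
    have h1 := ih (by omega)
    have h2 := h i (by omega)
    rw [h1] at h2
    rw [walk, walk, h1, h2]

/-! ### Guessing the table -/

section

variable (q : Word → Word → List (Bool × List Word)) (m : Word → ℕ)

/-- the walk with table `T` -/
def walkT (x : Word) (T : List Word) (i : ℕ) : Word := walk (fun w => inT T (q x w)) i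

/-- all words queried on the walk with table `T` -/
def asked (x : Word) (T : List Word) : List Word :=
  (List.range (m x)).flatMap fun i => wordsOf (q x (walkT q x T i ++ [false]))

/-- extend the table by the `v`-th queried word (if there is one) -/
def stepT (x : Word) (T : List Word) (v : ℕ) : List Word :=
  ((asked q m x T).drop v).take 1 ++ T

/-- the table described by a sequence of choices -/
def tbl (x : Word) (y : List ℕ) : List Word := y.foldl (stepT q m x) []

variable {q m}

lemma pt_walkT (hq : PT fun p : Word × Word => q p.1 p.2) {γ : Type} [Enc γ] {x : γ → Word}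
    {T : γ → List Word} {i : γ → ℕ} (hx : PT x) (hT : PT T) (hi : PT i) :
    PT fun c => walkT q (x c) (T c) (i c) :=
  pt_walk (ask := fun c w => inT (T c) (q (x c) w))
    (PT.inT (hT.comp PT.fst) (hq.comp (PT.pair (hx.comp PT.fst) PT.snd))) hi

lemma pt_asked (hq : PT fun p : Word × Word => q p.1 p.2) (hm : PT m) {γ : Type} [Enc γ]
    {x : γ → Word} {T : γ → List Word} (hx : PT x) (hT : PT T) :
    PT fun c => asked q m (x c) (T c) :=
  PT.flatMap (f := fun c i => wordsOf (q (x c) (walkT q (x c) (T c) i ++ [false])))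
    (PT.range (hm.comp hx)) (PT.wordsOf (hq.comp (PT.pair (hx.comp PT.fst)
      (PT.append (pt_walkT hq (hx.comp PT.fst) (hT.comp PT.fst) PT.snd) (PT.const [false])))))

lemma length_walkT (x : Word) (T : List Word) (i : ℕ) : (walkT q x T i).length = i :=
  length_walk _ _

lemma mem_asked {x : Word} {T : List Word} {w : Word} :
    w ∈ asked q m x T ↔ ∃ i < m x, w ∈ wordsOf (q x (walkT q x T i ++ [false])) := by
  simp [asked]

variable {e : ℕ} (he : ∀ x w, w.length ≤ m x → sz (q x w) ≤ (sz x + 2) ^ e)

include he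

lemma length_mem_asked {x : Word} {T : List Word} {w : Word} (hw : w ∈ asked q m x T) :
    sz w ≤ (sz x + 2) ^ e := by
  obtain ⟨i, hi, hw⟩ := mem_asked.1 hw
  obtain ⟨b, hb, hw⟩ := mem_wordsOf.1 hw
  have h1 := he x (walkT q x T i ++ [false]) (by simp [length_walkT]; omega)
  have h2 := sz_mem_le hb
  have h3 := sz_mem_le hw
  rw [sz_prod] at h2
  omega

lemma length_asked_le (x : Word) (T : List Word) :
    (asked q m x T).length ≤ m x * (sz x + 2) ^ e := by
  have key : ∀ k ≤ m x, ((List.range k).flatMap fun i =>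
      wordsOf (q x (walkT q x T i ++ [false]))).length ≤ k * (sz x + 2) ^ e := by
    intro k hk
    induction k with
    | zero => simp
    | succ k ih =>
      rw [List.range_succ, List.flatMap_append, List.length_append, List.flatMap_singleton]
      have h1 := ih (by omega)
      have h2 := he x (walkT q x T k ++ [false]) (by simp [length_walkT]; omega)
      have h3 := length_wordsOf_le (q x (walkT q x T k ++ [false]))
      rw [Nat.succ_mul]
      omega
  exact key _ le_rfl

lemma sz_tbl_le (x : Word) (y : List ℕ) : sz (tbl q m x y) ≤ y.length * ((sz x + 2) ^ e + 1) := by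
  unfold tbl
  induction y using List.reverseRecOn with
  | nil => simp
  | append_singleton y v ih =>
    rw [List.foldl_append, List.foldl_cons, List.foldl_nil, List.length_append]
    simp only [List.length_singleton]
    rw [Nat.add_mul, Nat.one_mul]
    generalize y.foldl (stepT q m x) [] = T at ih ⊢
    unfold stepT
    rw [sz_append]
    have h1 : sz (((asked q m x T).drop v).take 1) ≤ (sz x + 2) ^ e + 1 := by
      rcases h : (asked q m x T).drop v with _ | ⟨w, l⟩
      · simp
      · have h2 : w ∈ asked q m x T := List.mem_of_mem_drop (by rw [h]; exact List.mem_cons_self)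
        have h3 := length_mem_asked he h2
        simp only [List.take_succ_cons, List.take_zero, sz_cons, sz_lnil]
        omega
    omega

lemma pt_tbl (hq : PT fun p : Word × Word => q p.1 p.2) (hm : PT m) {γ : Type} [Enc γ]
    {x : γ → Word} {y : γ → List ℕ} (hx : PT x) (hy : PT y) :
    PT fun c => tbl q m (x c) (y c) := by
  refine PT.foldl (f := fun c T v => stepT q m (x c) T v) hy (PT.const []) ?_ ?_
  · exact PT.append (PT.take (PT.const 1) (PT.drop (PT.snd' PT.snd)
      (pt_asked hq hm (hx.comp PT.fst) (PT.fst' PT.snd)))) (PT.fst' PT.snd)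
  · obtain ⟨k1, hk1⟩ := hx.size_le
    obtain ⟨k2, hk2⟩ := hy.size_le
    obtain ⟨k, hk⟩ := PB.mul (⟨k2, fun n => le_rfl⟩ : PB fun n => (n + 2) ^ k2)
      (PB.add (PB.pow (PB.add (⟨k1, fun n => le_rfl⟩ : PB fun n => (n + 2) ^ k1) (PB.const 2)) e)
        (PB.const 1))
    refine ⟨k, fun c l' hl' => ?_⟩
    have h1 := sz_tbl_le he (x c) l'
    unfold tbl at h1
    refine h1.trans (le_trans ?_ (hk (sz c)))
    have h2 := hk1 c
    have h3 := hk2 c
    have h4 := hl'.length_le
    have h5 := length_le_sz (y c)
    exact Nat.mul_le_mul (by omega) (Nat.add_le_add_right (Nat.pow_le_pow_left (by omega) e) 1)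

end

/-- If there are few words in `S` of relevant length then a short sequence of guesses yields a
table with which the walk leads to a witness. -/
theorem exists_guess (S : Set Word) {Rel : Word × Word → Bool} {m : Word → ℕ}
    {q : Word → Word → List (Bool × List Word)} {e : ℕ}
    (he : ∀ x w, w.length ≤ m x → sz (q x w) ≤ (sz x + 2) ^ e)
    (hq : ∀ x w, 0 < balance S (q x w) ↔
      ∃ u : Word, (u.length = m x ∧ Rel (x, u) = true) ∧ w <+: u)
    (x : Word) (hx : ∃ u : Word, u.length = m x ∧ Rel (x, u) = true) (n : ℕ)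
    (hn : {w ∈ S | w.length ≤ (sz x + 2) ^ e}.ncard < n) :
    ∃ y : List ℕ, y.length = n ∧ (∀ v ∈ y, v < m x * (sz x + 2) ^ e + 1) ∧
      Rel (x, walkT q x (tbl q m x y) (m x)) = true := by
  classical
  have hstep : ∀ T : List Word, (∀ w ∈ T, w ∈ S) →
      Rel (x, walkT q x T (m x)) = true ∨ ∃ w ∈ asked q m x T, w ∈ S ∧ w ∉ T := by
    intro T hT
    by_contra hcon
    push Not at hcon
    obtain ⟨h1, h2⟩ := hcon
    refine h1 ?_
    let ask0 : Word → Bool := fun w => decide (0 < balance S (q x w))
    have h3 : walkT q x T (m x) = walk ask0 (m x) := by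
      refine walk_congr' (m x) (fun i hi => ?_) (m x) le_rfl
      rw [Bool.eq_iff_iff]
      simp only [ask0, decide_eq_true_eq]
      refine inT_iff S T _ fun b hb u hu => ⟨hT u, fun huS => ?_⟩
      exact h2 u (mem_asked.2 ⟨i, hi, mem_wordsOf.2 ⟨b, hb, hu⟩⟩) huS
    rw [h3]
    exact (walk_full (W := fun u : Word => u.length = m x ∧ Rel (x, u) = true) (m := m x)
      (fun u hu => hu.1) (fun w hw => by simp only [ask0, decide_eq_true_eq]; exact hq x w) hx).2
  have key : ∀ n : ℕ, ∃ y : List ℕ, y.length = n ∧ (∀ v ∈ y, v < m x * (sz x + 2) ^ e + 1) ∧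
      (∀ w ∈ tbl q m x y, w ∈ S ∧ w.length ≤ (sz x + 2) ^ e) ∧ (tbl q m x y).Nodup ∧
      (Rel (x, walkT q x (tbl q m x y) (m x)) = true ∨ (tbl q m x y).length = n) := by
    intro n
    induction n with
    | zero => exact ⟨[], rfl, by simp, by simp [tbl], by simp [tbl], Or.inr (by simp [tbl])⟩
    | succ n ih =>
      obtain ⟨y, h1, h2, h3, h4, h5⟩ := ih
      have htbl : ∀ v, tbl q m x (y ++ [v]) = stepT q m x (tbl q m x y) v := fun v => by
        simp [tbl]
      rcases h5 with h5 | h5
      · refine ⟨y ++ [m x * (sz x + 2) ^ e], by simp [h1], ?_, ?_⟩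
        · intro v hv
          rcases List.mem_append.1 hv with hv | hv
          · exact h2 v hv
          · rw [List.mem_singleton.1 hv]; omega
        · have h6 : stepT q m x (tbl q m x y) (m x * (sz x + 2) ^ e) = tbl q m x y := by
            rw [stepT, List.drop_eq_nil_of_le (length_asked_le he x _)]
            rfl
          rw [htbl, h6]
          exact ⟨h3, h4, Or.inl h5⟩
      · rcases hstep _ (fun w hw => (h3 w hw).1) with h6 | ⟨w, hw, hwS, hwT⟩
        · refine ⟨y ++ [m x * (sz x + 2) ^ e], by simp [h1], ?_, ?_⟩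
          · intro v hv
            rcases List.mem_append.1 hv with hv | hv
            · exact h2 v hv
            · rw [List.mem_singleton.1 hv]; omega
          · have h7 : stepT q m x (tbl q m x y) (m x * (sz x + 2) ^ e) = tbl q m x y := by
              rw [stepT, List.drop_eq_nil_of_le (length_asked_le he x _)]
              rfl
            rw [htbl, h7]
            exact ⟨h3, h4, Or.inl h6⟩
        · obtain ⟨v, hv, hvw⟩ := List.mem_iff_getElem.1 hw
          have h7 : stepT q m x (tbl q m x y) v = w :: tbl q m x y := by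
            rw [stepT, List.drop_eq_getElem_cons hv, hvw]
            rfl
          refine ⟨y ++ [v], by simp [h1], ?_, ?_⟩
          · intro v' hv'
            rcases List.mem_append.1 hv' with hv' | hv'
            · exact h2 v' hv'
            · rw [List.mem_singleton.1 hv']
              have := length_asked_le he x (tbl q m x y)
              omega
          · rw [htbl, h7]
            refine ⟨?_, List.nodup_cons.2 ⟨hwT, h4⟩, Or.inr (by simp [h5])⟩
            intro w' hw'
            rcases List.mem_cons.1 hw' with rfl | hw'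
            · exact ⟨hwS, (length_le_sz _).trans (length_mem_asked he hw)⟩
            · exact h3 w' hw'
  obtain ⟨y, h1, h2, h3, h4, h5⟩ := key n
  refine ⟨y, h1, h2, ?_⟩
  rcases h5 with h5 | h5
  · exact h5
  · exfalso
    have h6 : (tbl q m x y).toFinset.card = n := by
      rw [List.toFinset_card_of_nodup h4, h5]
    have h7 : ((tbl q m x y).toFinset : Set Word) ⊆ {w ∈ S | w.length ≤ (sz x + 2) ^ e} := by
      intro w hw
      exact h3 w (by simpa using hw)
    have h8 := Set.ncard_le_ncard h7 (finite_words S _)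
    rw [Set.ncard_coe_finset, h6] at h8
    omega

end Pool.Agent.Lib.MP_634427_lc
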