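import Pool.Agent.Lib.MP_634427_lc.SearchMul
import Pool.Agent.Lib.MP_634427_lc.Query

/-!
# Search in trees of polylogarithmic depth
-/

namespace Pool.Agent.Lib.MP_634427_lc

open BT

/-- least number whose square is at least `n` -/
def rt (n : ℕ) : ℕ := ((List.range (n + 1)).find? fun r => decide (n ≤ r * r)).getD 0

lemma rt_spec (n : ℕ) : n ≤ rt n * rt n ∧ ∀ r < rt n, r * r < n := by
  unfold rt
  rcases h : (List.range (n + 1)).find? fun r => decide (n ≤ r * r) with _ | r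
  · exfalso
    have h1 := List.find?_eq_none.1 h n (List.mem_range.2 (Nat.lt_succ_self n))
    simp only [decide_eq_true_eq, not_le] at h1
    nlinarith
  · have h1 := List.find?_range_eq_some.1 h
    simp only [Option.getD_some]
    obtain ⟨h2, _, h3⟩ := h1
    simp only [decide_eq_true_eq] at h2
    refine ⟨h2, fun r' hr' => ?_⟩
    have h4 := h3 r' hr'
    simpa using h4

lemma pt_rt {γ : Type} [Enc γ] {n : γ → ℕ} (hn : PT n) : PT fun c => rt (n c) :=
  PT.getD (PT.find? (p := fun c r => decide (n c ≤ r * r)) (PT.range (PT.succ hn))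
    (PT.le (hn.comp PT.fst) (PT.mul PT.snd PT.snd))) (PT.const 0)

/-- The depth parameter: about the square root of the logarithm of the input size. -/
def mu {α : Type} [Enc α] (a : α) : ℕ := rt (lg (sz a + 2)).1 + 2

lemma pt_mu {α : Type} [Enc α] : PT fun a : α => mu a :=
  PT.add (pt_rt (PT.fst' (pt_lg (PT.add (PT.size PT.id) (PT.const 2))))) (PT.const 2)

lemma lg_le_mu {α : Type} [Enc α] (a : α) : (lg (sz a + 2)).1 ≤ mu a ^ 2 := by
  have h1 := (rt_spec (lg (sz a + 2)).1).1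
  unfold mu
  nlinarith

lemma two_pow_lg_le {α : Type} [Enc α] (a : α) : 2 ^ ((lg (sz a + 2)).1 + 1) ≤ (sz a + 2) ^ 4 := by
  have h1 := lg_le (sz a + 2)
  have h2 : 2 * (2 * (sz a + 2) + 1) ≤ (sz a + 2) ^ 4 := by
    generalize sz a = n
    have h3 : 16 ≤ (n + 2) ^ 4 := by
      calc 16 = 2 ^ 4 := by norm_num
        _ ≤ (n + 2) ^ 4 := Nat.pow_le_pow_left (by omega) 4
    have h4 : 8 * (n + 2) ≤ (n + 2) ^ 4 := by
      calc 8 * (n + 2) = 2 ^ 3 * (n + 2) := by norm_num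
        _ ≤ (n + 2) ^ 3 * (n + 2) := Nat.mul_le_mul_right _ (Nat.pow_le_pow_left (by omega) 3)
        _ = (n + 2) ^ 4 := by ring
    omega
  rw [pow_succ]
  omega

/-- few lists of selectors -/
lemma exists_pow_mu_le {α : Type} [Enc α] (C : ℕ) : ∃ k, ∀ a : α,
    (C * ((lg (sz a + 2)).1 + 1) ^ 2) ^ mu a ≤ (sz a + 2) ^ k := by
  refine ⟨4 * (6 * C + 100), fun a => ?_⟩
  have h1 := two_pow_lg_le a
  have h0 := rt_spec (lg (sz a + 2)).1
  unfold mu
  generalize (lg (sz a + 2)).1 = L at h1 h0 ⊢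
  obtain ⟨h2, h3⟩ := h0
  generalize rt L = r at h2 h3 ⊢
  have h4 : C ≤ 2 ^ C := Nat.lt_two_pow_self.le
  have h5 : L + 1 ≤ (r + 1) ^ 2 := by nlinarith
  have h6 : r + 1 ≤ 2 ^ r := Nat.lt_two_pow_self
  have h7 : (L + 1) ^ 2 ≤ 2 ^ (4 * r) := by
    calc (L + 1) ^ 2 ≤ ((r + 1) ^ 2) ^ 2 := Nat.pow_le_pow_left h5 2
      _ = (r + 1) ^ 4 := by ring
      _ ≤ (2 ^ r) ^ 4 := Nat.pow_le_pow_left h6 4
      _ = 2 ^ (4 * r) := by rw [← pow_mul, Nat.mul_comm]
  have h8 : (C + 4 * r) * (r + 2) ≤ (6 * C + 100) * (L + 1) := by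
    rcases Nat.eq_zero_or_pos r with rfl | hr
    · nlinarith
    · have h9 := h3 (r - 1) (by omega)
      obtain ⟨t, rfl⟩ : ∃ t, r = t + 1 := ⟨r - 1, by omega⟩
      simp only [Nat.add_sub_cancel] at h9
      have h10 : t * t + 1 ≤ L := h9
      have h11 : (C + 4 * (t + 1)) * (t + 1 + 2) ≤ (6 * C + 100) * (t * t + 1) := by
        have h12 : C * (t + 3) ≤ 6 * C * (t * t + 1) := by
          have : t + 3 ≤ 6 * (t * t + 1) := by nlinarith
          calc C * (t + 3) ≤ C * (6 * (t * t + 1)) := Nat.mul_le_mul_left _ this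
            _ = 6 * C * (t * t + 1) := by ring
        have h13 : 4 * (t + 1) * (t + 3) ≤ 100 * (t * t + 1) := by nlinarith [sq_nonneg ((t : ℤ) - 1)]
        nlinarith
      exact h11.trans (Nat.mul_le_mul_left _ (by omega))
  calc (C * (L + 1) ^ 2) ^ (r + 2) ≤ (2 ^ C * 2 ^ (4 * r)) ^ (r + 2) :=
        Nat.pow_le_pow_left (Nat.mul_le_mul h4 h7) _
    _ = 2 ^ ((C + 4 * r) * (r + 2)) := by rw [← pow_add, ← pow_mul]
    _ ≤ 2 ^ ((6 * C + 100) * (L + 1)) := Nat.pow_le_pow_right (by norm_num) h8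
    _ = (2 ^ (L + 1)) ^ (6 * C + 100) := by rw [← pow_mul, Nat.mul_comm]
    _ ≤ ((sz a + 2) ^ 4) ^ (6 * C + 100) := Nat.pow_le_pow_left h1 _
    _ = (sz a + 2) ^ (4 * (6 * C + 100)) := by rw [← pow_mul]

/-- Trees of polylogarithmic depth can be searched in polynomial time. -/
theorem searchable_pow (hP : ProjCands)
    (iso : ℕ × List Word → List Word) (hiso : PT iso)
    (hlen : ∀ N E, (iso (N, E)).length ≤ 16 * ((lg N).1 + 2) * ((lg E.length).1 + 2))
    (hprop : ∀ N E e, e ∈ E → e.length = N → true ∈ e → ∃ C ∈ iso (N, E), common C e = 1)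
    {α : Type} [Enc α] (j : ℕ) : Searchable fun a : α => mu a ^ j := by
  induction j with
  | zero => simpa using searchable_one
  | succ j ih =>
    simp only [pow_succ]
    exact searchable_mul hP iso hiso hlen hprop _ _ (PT.pow pt_mu j) pt_mu exists_pow_mu_le ih

end Pool.Agent.Lib.MP_634427_lc
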