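import Pool.Agent.Lib.MP_634427_lc.NegModel
import Pool.Agent.Lib.MP_634427_lc.GenModel

/-!
# Turing reductions with few negative answers and a final threshold evaluation
-/

namespace Pool.Agent.Lib.MP_634427_lc

/-- `A` is reducible to `S` by a polynomial-time Turing reduction that has an adaptive phase with
boundedly many negative answers, followed by a threshold evaluation. From the input `x` and the
list of the answers received so far one computes in polynomial time whether the adaptive phase
stops (`stop`), the next query (`query`), and, when it stops, a list of signed bundles (`out`).
With oracle `S` the adaptive phase stops after at most `|x| ^ c + c` queries, at most `k` of them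
have a negative answer, the bundles contain at most `d |x|` words, and `x ∈ A` if and only if more
positive than negative bundles lie entirely in `S`. Here `k` is a constant, `d` is nondecreasing
and `(σ n + 1) ^ d n` is at most polynomial for the density `σ` of `S` (for sparse `S` any
constant `d` is admitted). -/
def HybridReducible (A S : Set Word) : Prop :=
  ∃ (k : ℕ) (stop : Word × List Bool → Bool) (query : Word × List Bool → Word)
    (out : Word × List Bool → List (Bool × List Word)) (d : ℕ → ℕ) (c : ℕ),
    PT stop ∧ PT query ∧ PT out ∧ Monotone d ∧
    (∀ n, ({w ∈ S | w.length ≤ n}.ncard + 1) ^ d n ≤ n ^ c + c) ∧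
    ∀ x, ∃ l, l = answers S (fun l => stop (x, l)) (fun l => query (x, l)) (x.length ^ c + c) ∧
      stop (x, l) = true ∧ l.count false ≤ k ∧ (∀ e ∈ out (x, l), e.2.length ≤ d x.length) ∧
      (x ∈ A ↔ 0 < balance S (out (x, l)))

end Pool.Agent.Lib.MP_634427_lc
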