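import Pool.Agent.Lib.MP_634427_lc.HybridPT
import Pool.Agent.Lib.MP_634427_lc.NegSolve
import Pool.Agent.Lib.MP_634427_lc.HybridModel
import Pool.Agent.Lib.MP_634427_lc.ProjCands

/-!
# Candidate lists for projections of witnesses from hybrid reductions

A sparse set that is hard for NP under polynomial-time Turing reductions that consist of an
adaptive phase with boundedly many negative answers and a final threshold evaluation of bundles
gives polynomial-time candidate lists for unique projections of witnesses.
-/

namespace Pool.Agent.Lib.MP_634427_lc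

open BT KNo Hyb

lemma of_mem_listsOf (F : Finset Word) (d : ℕ) (Q : List Word) (h : Q ∈ listsOf F d) :
    ∀ w ∈ Q, w ∈ F := by
  induction d generalizing Q with
  | zero =>
    simp only [listsOf, Finset.mem_singleton] at h
    subst h
    simp
  | succ d ih =>
    simp only [listsOf, Finset.mem_insert, Finset.mem_image, Finset.mem_product, Prod.exists] at h
    rcases h with rfl | ⟨w, Q', ⟨hw, hQ'⟩, rfl⟩
    · simp
    · intro x hx
      rcases List.mem_cons.1 hx with rfl | hx
      · exact hw
      · exact ih Q' hQ' x hx

lemma score_congr {K : Type} (P P' : K → Prop) (v : SVec K) (h : ∀ e ∈ v, (P e.2 ↔ P' e.2)) :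
    score P v = score P' v := by
  classical
  unfold score
  congr 1
  refine List.map_congr_left fun e he => ?_
  by_cases hp : P e.2
  · rw [if_pos hp, if_pos ((h e he).1 hp)]
  · rw [if_neg hp, if_neg (fun h' => hp ((h e he).2 h'))]

/-- A polynomial-time pruning procedure gives candidate lists. -/
theorem Frame.exists_candidates {α : Type} [Enc α] {m : α → ℕ} (hm : PT m)
    (prune : α → List Word → List Word → List Word) (K : α → ℕ)
    (hp : PT fun p : α × List Word × List Word => prune p.1 p.2.1 p.2.2) (hK : PT K)
    (hprune : ∀ a, Frame.IsPrune (prune a) (K a) (m a)) :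
    ∃ cand : α → List Word, PT cand ∧ ∀ a u, u.length = m a →
      (∀ (R B : List Word) (j : ℕ), j ≤ m a → (∀ r ∈ R, r.length ≤ j) → u.take j ∈ B →
        u.take j ∈ prune a R B) → u ∈ cand a := by
  let N : α → ℕ := fun a => 2 * K a ^ 2 + 2
  have hNp : PT N := PT.add (PT.mul (PT.const 2) (PT.pow hK 2)) (PT.const 2)
  refine ⟨fun a => (Frame.loop (prune a) (N a) (m a)).1,
    PT.fst' (Frame.pt_loop (γ := α) hp (fun a => (hprune a).sub) PT.id hNp hm), ?_⟩
  intro a u hu hmem
  have h := Frame.mem_loop (N := N a) (hprune a) le_rfl u hu hmem (m a) le_rfl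
  rwa [← hu, List.take_length, hu] at h

/-- A sparse set that is hard for NP under hybrid reductions gives polynomial-time candidate
lists for unique projections of witnesses. -/
theorem projCands_of_hybrid (S : Set Word) (hS : Sparse S)
    (hard : ∀ A, InNP A → HybridReducible A S) : ProjCands := by
  intro α _ Rel π m m' hRel hπ hm hm'
  obtain ⟨A, hA, hmem⟩ := exists_parity_proj Rel π m hRel hπ hm
  obtain ⟨k, stop, query, out, d, c, hstop, hquery, hout, hdm, hSd, hred⟩ := hard A hA
  simp only [balance_eq_score] at hred
  let cw : α → Word → Word := fun a r => code (enc (a, (r, true)))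
  have hcwlen : ∀ a r, (cw a r).length = 2 * (sz a + (sz r + 1 + 1) + 1) + 1 :=
    fun a r => length_code _
  -- the adaptive procedure
  let next : α → Word → List Bool → Option Word := fun a r l =>
    nxt (fun l => stop (cw a r, l)) (fun l => query (cw a r, l)) l
  let vec : α → Word → List Bool → SVec (List Word) := fun a r l => out (cw a r, l)
  have hcw : PT fun p : α × Word => cw p.1 p.2 :=
    PT.code (pt_enc (PT.pair PT.fst (PT.pair PT.snd (PT.const true))))
  have hcwl : PT fun p : α × Word × List Bool => (cw p.1 p.2.1, p.2.2) :=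
    PT.pair (hcw.comp (PT.pair PT.fst (PT.fst' PT.snd))) (PT.snd' PT.snd)
  have hnext : PT fun p : α × Word × List Bool => next p.1 p.2.1 p.2.2 :=
    PT.cond (hstop.comp hcwl) (PT.const none) (PT.some (hquery.comp hcwl))
  have hvec : PT fun p : α × Word × List Bool => vec p.1 p.2.1 p.2.2 := hout.comp hcwl
  -- the number of steps
  let L : α → ℕ := fun a => 2 * (sz a + (2 * m' a + 1 + 1) + 1) + 1
  have hL : PT L := PT.succ (PT.mul (PT.const 2) (PT.succ (PT.add (PT.size PT.id)
    (PT.succ (PT.succ (PT.mul (PT.const 2) hm'))))))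
  have hLcw : ∀ a r, r.length ≤ m' a → (cw a r).length ≤ L a := by
    intro a r hr
    rw [hcwlen]
    have := sz_word_le r
    simp only [L]
    omega
  let q : α → ℕ := fun a => L a ^ c + c
  have hq : PT q := PT.add (PT.pow hL c) (PT.const c)
  -- the size of the queries and of the vectors
  obtain ⟨kn, hkn⟩ := hnext.size_le
  obtain ⟨kv, hkv⟩ := hvec.size_le
  let ℓ : α → ℕ := fun a => (sz a + (2 * m' a + 2 * q a + 1) + 1 + 2) ^ (kn + kv) + L a
  have hℓ : PT ℓ := PT.add (PT.pow (PT.add (PT.succ (PT.add (PT.size PT.id) (PT.succ (PT.add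
    (PT.mul (PT.const 2) hm') (PT.mul (PT.const 2) hq))))) (PT.const 2)) (kn + kv)) hL
  have hℓn : ∀ a r tr, r.length ≤ m' a → tr.length ≤ q a → sz (next a r tr) ≤ ℓ a := by
    intro a r tr hr htr
    have h3 := hkn (a, r, tr)
    simp only [sz_pair] at h3
    have h4 := sz_word_le r
    have h5 := sz_word_le tr
    have h8 : (sz a + (sz r + sz tr + 1) + 1 + 2) ^ kn
        ≤ (sz a + (2 * m' a + 2 * q a + 1) + 1 + 2) ^ (kn + kv) :=
      (Nat.pow_le_pow_left (by omega) kn).trans (Nat.pow_le_pow_right (by omega) (by omega))
    exact h3.trans (h8.trans (Nat.le_add_right _ _))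
  have hℓv : ∀ a r tr, r.length ≤ m' a → tr.length ≤ q a → sz (vec a r tr) ≤ ℓ a := by
    intro a r tr hr htr
    have h3 := hkv (a, r, tr)
    simp only [sz_pair] at h3
    have h4 := sz_word_le r
    have h5 := sz_word_le tr
    have h8 : (sz a + (sz r + sz tr + 1) + 1 + 2) ^ kv
        ≤ (sz a + (2 * m' a + 2 * q a + 1) + 1 + 2) ^ (kn + kv) :=
      (Nat.pow_le_pow_left (by omega) kv).trans (Nat.pow_le_pow_right (by omega) (by omega))
    exact h3.trans (h8.trans (Nat.le_add_right _ _))
  obtain ⟨cs, hcs⟩ := hS
  let P : α → ℕ := fun a => ℓ a ^ cs + cs + 1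
  have hP : PT P := PT.succ (PT.add (PT.pow hℓ cs) (PT.const cs))
  let Q : α → ℕ := fun a => ℓ a ^ c + c
  have hQ : PT Q := PT.add (PT.pow hℓ c) (PT.const c)
  -- the keys inside `S`
  let Fs : α → Finset Word := fun a => (finite_words S (ℓ a)).toFinset
  let T : α → Finset (List Word) := fun a => listsOf (Fs a) (d (ℓ a))
  have hTcard : ∀ a, (T a).card ≤ Q a := by
    intro a
    refine (card_listsOf_le _ _).trans ?_
    have h1 := hSd (ℓ a)
    rw [Set.ncard_eq_toFinset_card _ (finite_words S (ℓ a))] at h1
    exact h1
  have hnilT : ∀ a, ([] : List Word) ∈ T a := fun a =>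
    mem_listsOf _ _ _ (Nat.zero_le _) (by simp)
  have hQpos : ∀ a, 0 < Q a := fun a =>
    lt_of_lt_of_le (Finset.card_pos.2 ⟨[], hnilT a⟩) (hTcard a)
  -- the vectors
  let vt : α → Item → SVec (List Word) := fun a e =>
    (vec a e.1 e.2).take (ℓ a) ++ (vec a e.1 e.2).take (ℓ a) ++ [(false, [])]
  have hvt : PT fun p : α × Item => vt p.1 p.2 := by
    have h1 : PT fun p : α × Item => (vec p.1 p.2.1 p.2.2).take (ℓ p.1) :=
      PT.take (hℓ.comp PT.fst) hvec
    exact PT.append (PT.append h1 h1) (PT.const _)
  let M : α → ℕ := fun a => 2 * ℓ a + 1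
  have hMpt : PT M := PT.succ (PT.mul (PT.const 2) hℓ)
  have hM : ∀ a e, (vt a e).length ≤ M a := by
    intro a e
    have h1 := List.length_take_le (ℓ a) (vec a e.1 e.2)
    simp only [vt, M, List.length_append, List.length_cons, List.length_nil]
    omega
  let E : α → ℕ := fun a => 4 * M a
  have hE : PT E := PT.mul (PT.const 4) hMpt
  have hE4 : ∀ a, 4 ≤ E a := fun a => by simp only [E, M]; omega
  let Ab : α → ℕ := fun a => 8 * Q a ^ 3 * M a ^ 3
  have hAb : PT Ab := PT.mul (PT.mul (PT.const 8) (PT.pow hQ 3)) (PT.pow hMpt 3)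
  let K : α → ℕ := fun a => gbnd (Ab a) (E a) (P a) k 1
  have hK : PT K := by
    have h1 := pt_gbnd hAb hE hP k
    have h2 : PT fun a : α => (a, 1) := PT.pair PT.id (PT.const 1)
    have h3 := h1.comp h2
    exact h3
  -- the pruning procedure
  let agr : α → List Word → List Item → List Word := fun a => corrAgree (vt a) (Q a)
  have hagr : PT fun p : α × List Word × List Item => agr p.1 p.2.1 p.2.2 :=
    pt_corrAgree (enc_list_injective enc_word_injective) hvt hQ
  let srch : α → List Word → List Word → List Word := fun a R B =>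
    gsearch (next a) (agr a) (E a) (q a) (P a) B k [] (R.map fun r => (r, []))
  have hsrch : PT fun p : α × List Word × List Word => srch p.1 p.2.1 p.2.2 := by
    have hsearch := pt_gsearch (next := next) (agr := agr) (q := q) hnext hq hagr hE hP k
    have h1 : PT fun p : α × List Word × List Word =>
        (((p.1, p.2.2) : α × List Word), (([], p.2.1.map fun r => (r, [])) :
          List Word × List Item)) :=
      PT.pair (PT.pair PT.fst (PT.snd' PT.snd))
        (PT.pair (PT.const []) (PT.map (f := fun (_ : α × List Word × List Word) r =>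
          ((r, []) : Item)) (PT.fst' PT.snd) (PT.pair PT.snd (PT.const []))))
    exact hsearch.comp h1
  let prune : α → List Word → List Word → List Word := fun a R B =>
    bif R.isEmpty then B else B.filter fun w => decide (w ∈ srch a R B)
  have hprunePT : PT fun p : α × List Word × List Word => prune p.1 p.2.1 p.2.2 := by
    refine PT.cond (PT.isEmpty (PT.fst' PT.snd)) (PT.snd' PT.snd) ?_
    refine PT.filter (PT.snd' PT.snd) (p := fun (p : α × List Word × List Word) w =>
      decide (w ∈ srch p.1 p.2.1 p.2.2)) ?_
    exact PT.memWord PT.snd (hsrch.comp PT.fst)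
  have hIsPrune : ∀ a, Frame.IsPrune (prune a) (K a) (m' a) := by
    intro a
    refine ⟨?_, ?_, ?_⟩
    · intro R B w hw
      rcases R with _ | ⟨r, R⟩
      · exact hw
      · exact List.mem_of_mem_filter hw
    · intro R B hB
      rcases R with _ | ⟨r, R⟩
      · exact hB
      · exact hB.filter _
    · intro R B hB hR horth _
      have hRpos : 0 < R.length := List.length_pos_of_ne_nil hR
      have hpr : prune a R B = B.filter fun w => decide (w ∈ srch a R B) := by
        rcases R with _ | ⟨r, R⟩
        · exact absurd rfl hR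
        · rfl
      have h1 := length_gsearch (next := next a) (agr := agr a) (A := Ab a) (E := E a) (R := R)
        (B := B) (hE4 a)
        (fun G ρ hG hρ => length_corrAgree hB horth hG (hM a) hRpos hρ)
        (q a) (P a) (Nat.succ_pos _) k [] (R.map fun r => (r, [])) 1
        ⟨fun _ => true, fun _ => [], by rw [List.filter_true]⟩ (by simp)
      refine le_trans ?_ h1
      have h2 : (prune a R B).Nodup := by rw [hpr]; exact hB.filter _
      exact (List.subperm_of_subset h2 fun w hw => by
        rw [hpr] at hw
        simpa using (List.mem_filter.1 hw).2).length_le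
  obtain ⟨cand, hcand, hc⟩ := Frame.exists_candidates hm' prune K hprunePT hK hIsPrune
  refine ⟨cand, hcand, fun a u hu hex huniq => hc a u hu ?_⟩
  intro R B j hj hRj huB
  rcases R.eq_nil_or_concat with hR0 | ⟨R0, r0, hR0⟩
  · subst hR0
    exact huB
  have hRpos : 0 < R.length := by rw [hR0]; simp
  have hpr : prune a R B = B.filter fun w => decide (w ∈ srch a R B) := by
    rcases R with _ | ⟨r, R⟩
    · simp at hRpos
    · rfl
  rw [hpr]
  refine List.mem_filter.2 ⟨huB, ?_⟩
  rw [decide_eq_true_eq]
  have hparA : ∀ r ∈ R, (cw a r ∈ A ↔ par r (u.take j) = true) := by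
    intro r hr
    have hpar : par r (u.take j) = par r u := by
      conv_rhs => rw [← List.take_append_drop j u]
      rw [par_append_of_le]
      rw [List.length_take, hu]
      exact le_min (hRj r hr) ((hRj r hr).trans hj)
    rw [hmem, hpar]
    constructor
    · rintro ⟨w, h1, h2, h3⟩
      rwa [huniq w h1 h2] at h3
    · intro h
      obtain ⟨w, h1, h2⟩ := hex
      exact ⟨w, h1, h2, by rw [huniq w h1 h2]; exact h⟩
  -- the properties of the reduction
  have hrun : ∀ r ∈ R, ∀ tr, Good (next a) S (r, tr) →
      tr.length ≤ q a ∧ tr.count false ≤ k ∧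
        (next a r tr = none → (∀ e ∈ vec a r tr, e.2.length ≤ d (ℓ a)) ∧
          (par r (u.take j) = true ↔ 0 < score (fun Q => ∀ w ∈ Q, w ∈ S) (vec a r tr))) := by
    intro r hr tr htr
    obtain ⟨l, hl, hstopl, hcount, hdl, hcor⟩ := hred (cw a r)
    have htr' := good_eq_answers (S := S) (stop := fun l => stop (cw a r, l))
      (query := fun l => query (cw a r, l)) (fun _ => rfl) tr htr
    have hrm : r.length ≤ m' a := (hRj r hr).trans hj
    have hqr : (cw a r).length ^ c + c ≤ q a :=
      Nat.add_le_add_right (Nat.pow_le_pow_left (hLcw a r hrm) c) c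
    have hpre : tr <+: l := by
      rw [hl, htr']
      rcases le_total tr.length ((cw a r).length ^ c + c) with h | h
      · exact answers_prefix_le h
      · rw [answers_stable (by rw [← hl]; exact hstopl) _ h]
    refine ⟨?_, (hpre.sublist.count_le false).trans hcount, ?_⟩
    · refine hpre.length_le.trans ?_
      rw [hl]
      exact (length_answers_le _).trans hqr
    · intro hnone
      have hst : stop (cw a r, tr) = true := nxt_eq_none.1 hnone
      have hlen : tr.length ≤ (cw a r).length ^ c + c := by
        refine hpre.length_le.trans ?_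
        rw [hl]; exact length_answers_le _
      have heq : l = tr := by
        rw [hl]
        have h2 := answers_stable (S := S) (stop := fun l => stop (cw a r, l))
          (query := fun l => query (cw a r, l)) (n := tr.length) (by rw [← htr']; exact hst)
          _ hlen
        rw [h2, ← htr']
      rw [heq] at hdl hcor
      refine ⟨fun e he => (hdl e he).trans (hdm ?_), ?_⟩
      · exact (hLcw a r hrm).trans (Nat.le_add_left _ _)
      · rw [← hparA r hr]
        exact hcor
  have hgred : GRed (next a) S R (q a) k :=
    ⟨fun r hr tr h => (hrun r hr tr h).1, fun r hr tr h => (hrun r hr tr h).2.1⟩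
  refine mem_gsearch hgred (hE4 a) (Nat.succ_pos _) ?_ ?_ k [] _ List.nodup_nil (by simp)
    (by rw [List.length_map]; exact hRpos) ?_ ?_ ?_
  · -- few relevant members of `S`
    intro Ls hLs hmemL
    have h1 : ∀ s ∈ Ls, s ∈ {w ∈ S | w.length ≤ ℓ a} := by
      intro s hs
      obtain ⟨hsS, r, hr, tr, hgood, hnx⟩ := hmemL s hs
      refine ⟨hsS, ?_⟩
      have h2 := (hrun r hr tr hgood).1
      have h3 := hℓn a r tr ((hRj r hr).trans hj) h2
      rw [hnx, sz_some] at h3
      have h7 := length_le_sz s
      omega
    have h2 : Ls.length ≤ {w ∈ S | w.length ≤ ℓ a}.ncard := by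
      rw [← List.toFinset_card_of_nodup hLs, ← Set.ncard_coe_finset]
      refine Set.ncard_le_ncard ?_ (finite_words S (ℓ a))
      intro s hs
      exact h1 s (List.mem_toFinset.1 hs)
    exact Nat.lt_succ_of_le (h2.trans (hcs (ℓ a)))
  · -- the filter
    intro G hGpos hGR hbad
    classical
    refine mem_corrAgree (M := M a) (hM a) (by simp only [M]; omega) (T a) (hTcard a) (hQpos a)
      (fun e => Good (next a) S e ∧ next a e.1 e.2 = none) ?_ hGpos ?_ huB
    · rintro e he ⟨hg, hn⟩
      obtain ⟨h1, _, h3⟩ := hrun e.1 (hGR e he) e.2 hg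
      obtain ⟨h4, h5⟩ := h3 hn
      have hszv := hℓv a e.1 e.2 ((hRj _ (hGR e he)).trans hj) h1
      have hw : (vec a e.1 e.2).take (ℓ a) = vec a e.1 e.2 :=
        List.take_of_length_le ((length_le_sz _).trans hszv)
      have hsc : score (fun κ => κ ∈ T a) (vec a e.1 e.2)
          = score (fun Q => ∀ w ∈ Q, w ∈ S) (vec a e.1 e.2) := by
        refine score_congr _ _ _ fun x hx => ⟨fun h w hw => ?_, fun h => ?_⟩
        · have := of_mem_listsOf _ _ _ h w hw
          simp only [Fs, Set.Finite.mem_toFinset] at this
          exact this.1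
        · refine mem_listsOf _ _ _ (h4 x hx) fun w hw => ?_
          simp only [Fs, Set.Finite.mem_toFinset]
          refine ⟨h w hw, ?_⟩
          have h6 := sz_mem_le hx
          have h7 := sz_mem_le hw
          have h8 := length_le_sz w
          rw [sz_prod] at h6
          omega
      have hvte : score (fun κ => κ ∈ T a) (vt a e)
          = 2 * score (fun Q => ∀ w ∈ Q, w ∈ S) (vec a e.1 e.2) - 1 := by
        simp only [vt]
        rw [hw, score_append, score_append, hsc, score_cons]
        have h0 : score (fun κ => κ ∈ T a) ([] : SVec (List Word)) = 0 := by simp [score]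
        rw [h0]
        simp only [hnilT a, if_true, sgn]
        simp
        ring
      rw [hvte]
      cases hp : par e.1 (u.take j)
      · rw [hp] at h5
        have : ¬ 0 < score (fun Q => ∀ w ∈ Q, w ∈ S) (vec a e.1 e.2) := fun h => by
          have := h5.2 h; cases this
        simp only [sgn, Bool.false_eq_true, if_false]
        omega
      · rw [hp] at h5
        have := h5.1 rfl
        simp only [sgn, if_true]
        omega
    · refine le_trans (le_of_eq ?_) hbad
      unfold bad'
      simp only [E]
  · intro e he
    obtain ⟨r, hr, rfl⟩ := List.mem_map.1 he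
    exact hr
  · have : bad (next a) S (R.map fun r => (r, [])) = 0 := by
      classical
      unfold bad
      rw [List.length_eq_zero_iff, List.filter_eq_nil_iff]
      intro e he
      obtain ⟨r, hr, rfl⟩ := List.mem_map.1 he
      simpa using Good.nil r
    rw [this]
    simp
  · intro e he _
    exact Nat.le_add_right _ _

end Pool.Agent.Lib.MP_634427_lc
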