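import Pool.Agent.Lib.MP_634427_lc.KNo

/-!
# The search procedure with a general final filter, and the filter for signed bundles

The search procedure `KNo.search` with the final filter `agree` replaced by an arbitrary filter
`agr`; then the filter `corrAgree`, which keeps the candidates whose parities are correlated with
the coefficients of some key in the vectors attached to the items.
-/

namespace Pool.Agent.Lib.MP_634427_lc.Hyb

open KNo

section defs

variable (next : Word → List Bool → Option Word) (agr : List Word → List Item → List Word)

/-- The admissible fraction of false transcripts. -/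
def gerr (E P : ℕ) : ℕ → ℕ
  | 0 => E
  | j + 1 => 4 * P * gerr E P j * gerr E P j

/-- The search procedure; `j` negative answers are still possible. -/
def gsearch (E q P : ℕ) (B : List Word) : ℕ → List Word → List Item → List Word
  | 0, _, G => agr B (G.map (yes next q))
  | j + 1, T, G =>
    (List.range P).flatMap fun i =>
      if G.length ≤ 2 * (halted next q ((grow next q (4 * P * gerr E P j) G)^[i] T) G).length then
        agr B (halted next q ((grow next q (4 * P * gerr E P j) G)^[i] T) G)
      else
        match pop next (4 * P * gerr E P j) G.length
            (waiting next q ((grow next q (4 * P * gerr E P j) G)^[i] T) G) with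
        | some s => gsearch E q P B j ((grow next q (4 * P * gerr E P j) G)^[i] T)
            ((pend next s
              (waiting next q ((grow next q (4 * P * gerr E P j) G)^[i] T) G)).map no)
        | none => gsearch E q P B j ((grow next q (4 * P * gerr E P j) G)^[i] T)
            ((waiting next q ((grow next q (4 * P * gerr E P j) G)^[i] T) G).map no)

/-- Bound for the length of the output. -/
def gbnd (A E P : ℕ) : ℕ → ℕ → ℕ
  | 0, ρ => A * ρ
  | j + 1, ρ => P * gbnd A E P j (4 * P * gerr E P j * ρ)

end defs

/-! ## The output is short -/

section size

variable {next : Word → List Bool → Option Word} {agr : List Word → List Item → List Word}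

theorem gerr_ge (E P : ℕ) (hE : 4 ≤ E) (hP : 0 < P) (j : ℕ) : E ≤ gerr E P j := by
  induction j with
  | zero => exact le_rfl
  | succ j ih =>
    simp only [gerr]
    calc E ≤ gerr E P j := ih
      _ = 1 * gerr E P j := (Nat.one_mul _).symm
      _ ≤ 4 * P * gerr E P j * gerr E P j := by
        refine Nat.mul_le_mul_right _ ?_
        exact Nat.mul_pos (Nat.mul_pos (by norm_num) hP) (by omega)

theorem gbnd_ge (A E P : ℕ) (hE : 4 ≤ E) (hP : 0 < P) (j ρ : ℕ) :
    A * ρ ≤ gbnd A E P j ρ := by
  induction j generalizing ρ with
  | zero => exact le_rfl
  | succ j ih =>
    simp only [gbnd]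
    have h1 := ih (4 * P * gerr E P j * ρ)
    have h2 := gerr_ge E P hE hP j
    have h3 : ρ ≤ 4 * P * gerr E P j * ρ := Nat.le_mul_of_pos_left _
      (Nat.mul_pos (Nat.mul_pos (by norm_num) hP) (by omega))
    calc A * ρ ≤ A * (4 * P * gerr E P j * ρ) := Nat.mul_le_mul_left _ h3
      _ ≤ gbnd A E P j (4 * P * gerr E P j * ρ) := h1
      _ ≤ _ := Nat.le_mul_of_pos_left _ hP

theorem length_gsearch {R B : List Word} {A E : ℕ} (hE : 4 ≤ E)
    (hagr : ∀ (G : List Item) (ρ : ℕ), Shape R G → R.length ≤ ρ * G.length →
      (agr B G).length ≤ A * ρ)
    (q P : ℕ) (hP : 0 < P) (j : ℕ) : ∀ (T : List Word) (G : List Item) (ρ : ℕ), Shape R G →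
      R.length ≤ ρ * G.length → (gsearch next agr E q P B j T G).length ≤ gbnd A E P j ρ := by
  induction j with
  | zero =>
    intro T G ρ hG hρ
    refine hagr _ _ (hG.map _ fun e => iter_fst _ _ _) ?_
    rwa [List.length_map]
  | succ j ih =>
    intro T G ρ hG hρ
    simp only [gsearch, gbnd]
    refine (length_flatMap_le _ _ (gbnd A E P j (4 * P * gerr E P j * ρ)) fun i _ => ?_).trans
      (le_of_eq (by rw [List.length_range]))
    set T' := (grow next q (4 * P * gerr E P j) G)^[i] T
    have herr := gerr_ge E P hE hP j
    have h2 : 2 * ρ ≤ 4 * P * gerr E P j * ρ := by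
      refine Nat.mul_le_mul_right ρ ?_
      nlinarith
    have hadv := hG.map (adv next q T') (adv_fst q T')
    split_ifs with hh
    · have h1 := hagr (halted next q T' G) (2 * ρ) (hadv.filter fun e => (qry next e).isNone)
        (by
          refine hρ.trans ?_
          calc ρ * G.length ≤ ρ * (2 * (halted next q T' G).length) := Nat.mul_le_mul_left _ hh
            _ = 2 * ρ * (halted next q T' G).length := by ring)
      have h3 := gbnd_ge A E P hE hP j (4 * P * gerr E P j * ρ)
      exact le_trans h1 (le_trans (Nat.mul_le_mul_left _ h2) h3)
    · have hsh : Shape R (waiting next q T' G) := hadv.filter _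
      have hlen := length_halted_add (next := next) q T' G
      split
      · rename_i s hs
        refine ih _ _ _ ((hsh.filter _).map no fun _ => rfl) ?_
        rw [List.length_map]
        have h4 := List.find?_some hs
        rw [decide_eq_true_eq] at h4
        refine hρ.trans ?_
        calc ρ * G.length ≤ ρ * (4 * P * gerr E P j * (pend next s (waiting next q T' G)).length) :=
            Nat.mul_le_mul_left _ h4
          _ = 4 * P * gerr E P j * ρ * (pend next s (waiting next q T' G)).length := by ring
      · refine ih _ _ _ (hsh.map no fun _ => rfl) ?_
        rw [List.length_map]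
        refine hρ.trans ?_
        calc ρ * G.length ≤ ρ * (2 * (waiting next q T' G).length) :=
            Nat.mul_le_mul_left _ (by omega)
          _ = 2 * ρ * (waiting next q T' G).length := by ring
          _ ≤ 4 * P * gerr E P j * ρ * (waiting next q T' G).length := Nat.mul_le_mul_right _ h2

end size

/-! ## The unknown word is found -/

section correct

variable {next : Word → List Bool → Option Word} {agr : List Word → List Item → List Word}
  {S : Set Word}

/-- The hypotheses on the adaptive phase: few steps and few negative answers. -/
structure GRed (next : Word → List Bool → Option Word)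
    (S : Set Word) (R : List Word) (q k : ℕ) : Prop where
  len : ∀ r ∈ R, ∀ tr, Good next S (r, tr) → tr.length ≤ q
  neg : ∀ r ∈ R, ∀ tr, Good next S (r, tr) → tr.count false ≤ k

theorem GRed.red {R : List Word} {q k : ℕ} (h : GRed next S R q k) (u : Word) :
    Red next (fun r _ => par r u) S R u q k :=
  ⟨h.len, h.neg, fun _ _ _ _ _ => rfl⟩

theorem yes_none {R : List Word} {q k : ℕ} (hred : GRed next S R q k)
    {e : Item} (he : e.1 ∈ R) (hg : Good next S e) (hk : k ≤ e.2.count false) :
    next (yes next q e).1 (yes next q e).2 = none := by
  have hred' : Red next (fun r tr => bif (next r tr).isNone then par r [] else !(par r []))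
      S R [] q k := ⟨hred.len, hred.neg, fun r _ tr _ hn => by simp [hn]⟩
  have h := yes_halts hred' he hg hk
  by_contra hne
  obtain ⟨s, hs⟩ := Option.ne_none_iff_exists'.1 hne
  rw [hs] at h
  simp at h

open Classical in
/-- The number of items that are false or not stopped. -/
noncomputable def bad' (next : Word → List Bool → Option Word) (S : Set Word)
    (G : List Item) : ℕ :=
  (G.filter fun e => decide (¬ (Good next S e ∧ next e.1 e.2 = none))).length

theorem mem_gsearch {R B : List Word} {u : Word} {E q k P : ℕ} (hred : GRed next S R q k)
    (hE : 4 ≤ E) (hP : 0 < P)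
    (hS : ∀ L : List Word, L.Nodup → (∀ s ∈ L, s ∈ S ∧ s ∈ Rel next S R) → L.length < P)
    (hleaf : ∀ G : List Item, 0 < G.length → (∀ e ∈ G, e.1 ∈ R) →
      E * bad' next S G ≤ G.length → u ∈ agr B G) (j : ℕ) :
    ∀ (T : List Word) (G : List Item), T.Nodup →
      (∀ s ∈ T, s ∈ S ∧ s ∈ Rel next S R) → 0 < G.length → (∀ e ∈ G, e.1 ∈ R) →
      gerr E P j * bad next S G ≤ G.length →
      (∀ e ∈ G, Good next S e → k ≤ j + e.2.count false) →
      u ∈ gsearch next agr E q P B j T G := by
  classical
  induction j with
  | zero =>
    intro T G _ _ hpos hG hbad hk
    refine hleaf _ (by rwa [List.length_map]) ?_ ?_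
    · intro e' he'
      obtain ⟨e, he, rfl⟩ := List.mem_map.1 he'
      rw [show (yes next q e).1 = e.1 from iter_fst _ _ _]
      exact hG e he
    · rw [List.length_map]
      refine le_trans (Nat.mul_le_mul_left E ?_) hbad
      unfold bad bad'
      rw [List.filter_map, List.length_map]
      refine length_filter_mono _ _ _ fun e he h => ?_
      simp only [Function.comp_apply, decide_eq_true_eq] at h ⊢
      intro hg
      refine h ⟨?_, yes_none hred (hG e he) hg (by simpa using hk e he hg)⟩
      exact good_yes (hred.red []) (hG e he) hg (by simpa using hk e he hg) q
  | succ j ih =>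
    intro T G hTn hT hpos hG hbad hk
    set θ := 4 * P * gerr E P j with hθdef
    have herr := gerr_ge E P hE hP j
    have hθ : 0 < θ := Nat.mul_pos (Nat.mul_pos (by norm_num) hP) (by omega)
    simp only [gerr] at hbad
    rw [← hθdef] at hbad
    simp only [gsearch]
    rw [← hθdef]
    -- find the right stage
    have hstop : ∃ i < P, ((grow next q θ G)^[i] T).Nodup ∧
        (∀ s ∈ (grow next q θ G)^[i] T, s ∈ S ∧ s ∈ Rel next S R) ∧
        (G.length ≤ 2 * (halted next q ((grow next q θ G)^[i] T) G).length ∨
          ∀ s, pop next θ G.length (waiting next q ((grow next q θ G)^[i] T) G) = some s →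
            s ∉ S) := by
      by_contra hcon
      push Not at hcon
      have key : ∀ i ≤ P, ((grow next q θ G)^[i] T).Nodup ∧
          (∀ s ∈ (grow next q θ G)^[i] T, s ∈ S ∧ s ∈ Rel next S R) ∧
          ((grow next q θ G)^[i] T).length = T.length + i := by
        intro i
        induction i with
        | zero => intro _; exact ⟨hTn, hT, rfl⟩
        | succ i ih2 =>
          intro hi
          obtain ⟨h1, h2, h3⟩ := ih2 (by omega)
          obtain ⟨h4, s, h5, h6⟩ := hcon i (by omega) h1 h2
          rw [Function.iterate_succ_apply']
          set T' := (grow next q θ G)^[i] T with hT'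
          have hgrow : grow next q θ G T' = s :: T' := by
            unfold grow
            rw [h5]
          obtain ⟨h7, h8⟩ := exists_good_pend (hred.red u) (fun s hs => (h2 s hs).1) hG hθ
            (show 1 < gerr E P j by omega) hbad (by omega) h5
          rw [hgrow]
          refine ⟨List.nodup_cons.2 ⟨h7, h1⟩, ?_, by rw [List.length_cons, h3]; omega⟩
          intro s' hs'
          rcases List.mem_cons.1 hs' with rfl | hs'
          · exact ⟨h6, h8⟩
          · exact h2 s' hs'
      obtain ⟨h1, h2, h3⟩ := key P le_rfl
      have := hS _ h1 h2
      omega
    obtain ⟨i, hi, hTn', hT', hst⟩ := hstop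
    refine List.mem_flatMap.2 ⟨i, List.mem_range.2 hi, ?_⟩
    set T' := (grow next q θ G)^[i] T with hT'def
    have hT'S : ∀ s ∈ T', s ∈ S := fun s hs => (hT' s hs).1
    have hbadadv : bad next S (G.map (adv next q T')) ≤ bad next S G :=
      bad_map_le _ _ fun e _ he => (good_adv hT'S q).2 he
    have hlen := length_halted_add (next := next) q T' G
    split_ifs with hh
    · -- most tests stop
      refine hleaf _ (by omega) ?_ ?_
      · intro e' he'
        obtain ⟨e, he, rfl, _⟩ := mem_halted he'
        rw [adv_fst]
        exact hG e he
      · have h1 : bad' next S (halted next q T' G) ≤ bad next S (halted next q T' G) := by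
          unfold bad bad'
          refine length_filter_mono _ _ _ fun e' he' h => ?_
          simp only [decide_eq_true_eq] at h ⊢
          intro hg
          obtain ⟨e, he, rfl, hn⟩ := mem_halted he'
          exact h ⟨hg, hn⟩
        have h2 : bad next S (halted next q T' G) ≤ bad next S G :=
          (bad_filter_le _ _).trans hbadadv
        have h3 : 2 * E ≤ θ * gerr E P j := by
          calc 2 * E ≤ 2 * gerr E P j := Nat.mul_le_mul_left _ herr
            _ ≤ θ * gerr E P j := by
              refine Nat.mul_le_mul_right _ ?_
              rw [hθdef]
              nlinarith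
        have h4 : 2 * E * bad next S G ≤ θ * gerr E P j * bad next S G :=
          Nat.mul_le_mul_right _ h3
        have h5 : E * bad' next S (halted next q T' G) ≤ E * bad next S G :=
          Nat.mul_le_mul_left _ (h1.trans h2)
        have h6 : 2 * E * bad next S G = 2 * (E * bad next S G) := by ring
        omega
    · have hst' := hst.resolve_left hh
      have hUR : ∀ e ∈ waiting next q T' G, e.1 ∈ R := by
        intro e' he'
        obtain ⟨e, he, rfl⟩ := mem_waiting he'
        rw [adv_fst]; exact hG e he
      split
      · -- a popular negative query
        rename_i s hs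
        have hsS := hst' s hs
        have h4 := List.find?_some hs
        rw [decide_eq_true_eq] at h4
        refine ih _ _ hTn' hT' ?_ ?_ ?_ ?_
        · rw [List.length_map]
          by_contra h0
          have h0' : (pend next s (waiting next q T' G)).length = 0 := by omega
          rw [h0'] at h4
          omega
        · intro e1 he1
          obtain ⟨e', he', rfl⟩ := List.mem_map.1 he1
          exact hUR e' (List.mem_filter.1 he').1
        · rw [List.length_map]
          have h5 : bad next S ((pend next s (waiting next q T' G)).map no)
              ≤ bad next S G := by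
            refine (bad_map_le _ _ ?_).trans ((bad_filter_le _ _).trans
              ((bad_filter_le _ _).trans hbadadv))
            intro e' he' hg
            have h6 := (List.mem_filter.1 he').2
            rw [decide_eq_true_eq] at h6
            exact hg.append h6 (by simp [hsS])
          have h6 : θ * (gerr E P j * bad next S ((pend next s (waiting next q T' G)).map no))
              ≤ θ * (pend next s (waiting next q T' G)).length := by
            calc _ ≤ θ * (gerr E P j * bad next S G) :=
                  Nat.mul_le_mul_left _ (Nat.mul_le_mul_left _ h5)
              _ = θ * gerr E P j * bad next S G := by ring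
              _ ≤ G.length := hbad
              _ ≤ _ := h4
          exact Nat.le_of_mul_le_mul_left h6 hθ
        · intro e1 he1 hg1
          obtain ⟨e', he', rfl⟩ := List.mem_map.1 he1
          obtain ⟨e, he, rfl⟩ := mem_waiting (List.mem_filter.1 he').1
          have hg' : Good next S (adv next q T' e) :=
            Good.of_prefix (tr' := (no (adv next q T' e)).2) hg1 (List.prefix_append _ _)
          have h5 := hk e he ((good_adv hT'S q).1 hg')
          have h6 := count_adv_ge (next := next) q T' e
          simp only [no, List.count_append]
          simp
          omega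
      · -- no popular query
        rename_i hnone
        refine ih _ _ hTn' hT' ?_ ?_ ?_ ?_
        · rw [List.length_map]
          omega
        · intro e1 he1
          obtain ⟨e', he', rfl⟩ := List.mem_map.1 he1
          exact hUR e' he'
        · rw [List.length_map]
          have h5 := bad_map_no_le (waiting next q T' G) hS hUR
            (fun e he => (List.mem_filter.1 he).2) hnone
          have h6 : bad next S (waiting next q T' G) ≤ bad next S G :=
            (bad_filter_le _ _).trans hbadadv
          have h7 : θ * bad next S ((waiting next q T' G).map no)
              ≤ θ * bad next S G + P * G.length :=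
            h5.trans (Nat.add_le_add_right (Nat.mul_le_mul_left _ h6) _)
          set b1 := bad next S ((waiting next q T' G).map no)
          set b0 := bad next S G
          set n := G.length
          set w := (waiting next q T' G).length
          set ε := gerr E P j
          -- 4 P (ε b1) ≤ 4 P (ε b0) + P n, 4 ε b0 ≤ n
          have h8 : P * (4 * (ε * b1)) ≤ P * (4 * (ε * b0) + n) := by
            calc P * (4 * (ε * b1)) = θ * b1 := by rw [hθdef]; ring
              _ ≤ _ := h7
              _ = _ := by rw [hθdef]; ring
          have h9 : 4 * (ε * b1) ≤ 4 * (ε * b0) + n := Nat.le_of_mul_le_mul_left h8 hP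
          have h10 : 4 * (ε * b0) ≤ n := by
            refine le_trans ?_ hbad
            calc 4 * (ε * b0) = 4 * (ε * b0) * 1 := by ring
              _ ≤ 4 * (ε * b0) * (P * ε) := Nat.mul_le_mul_left _ (by nlinarith)
              _ = θ * ε * b0 := by rw [hθdef]; ring
          omega
        · intro e1 he1 hg1
          obtain ⟨e', he', rfl⟩ := List.mem_map.1 he1
          obtain ⟨e, he, rfl⟩ := mem_waiting he'
          have hg' : Good next S (adv next q T' e) :=
            Good.of_prefix (tr' := (no (adv next q T' e)).2) hg1 (List.prefix_append _ _)
          have h5 := hk e he ((good_adv hT'S q).1 hg')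
          have h6 := count_adv_ge (next := next) q T' e
          simp only [no, List.count_append]
          simp
          omega

end correct

end Pool.Agent.Lib.MP_634427_lc.Hyb
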