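import Pool.Agent.Lib.MP_634427_lc.KNo

/-!
# The final filter for signed bundles

To each item `e` a vector `vt e` (a signed multiset of keys) is attached. The filter keeps the
candidates `c` for which some key `κ` has a coefficient that is correlated with the parities
`par e.1 c`.
-/

namespace Pool.Agent.Lib.MP_634427_lc.Hyb

open KNo

section filter

variable {K : Type} [DecidableEq K] (vt : Item → SVec K)

/-- Number of the entries with key `κ` whose sign is the parity of `c`. -/
def cpos (G : List Item) (c : Word) (κ : K) : ℕ :=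
  (G.flatMap fun e => (vt e).filter fun x => decide (x.2 = κ) && (par e.1 c == x.1)).length

/-- Number of the entries with key `κ` whose sign is not the parity of `c`. -/
def cneg (G : List Item) (c : Word) (κ : K) : ℕ :=
  (G.flatMap fun e => (vt e).filter fun x => decide (x.2 = κ) && (par e.1 c != x.1)).length

/-- The keys that occur, with repetitions. -/
def allKeys (G : List Item) : List K := G.flatMap fun e => (vt e).map Prod.snd

/-- The correlated candidates. -/
def corrAgree (Q : ℕ) (B : List Word) (G : List Item) : List Word :=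
  B.filter fun c => (allKeys vt G).any fun κ =>
    decide (G.length + 2 * Q * cneg vt G c κ ≤ 2 * Q * cpos vt G c κ)

variable {vt}

theorem cpos_sub_cneg (G : List Item) (c : Word) (κ : K) :
    (cpos vt G c κ : ℤ) - cneg vt G c κ
      = (G.map fun e => sgn (par e.1 c) * coef (vt e) κ).sum := by
  unfold cpos cneg
  induction G with
  | nil => simp
  | cons e G ih =>
    rw [List.map_cons, List.sum_cons, ← ih, List.flatMap_cons, List.flatMap_cons,
      List.length_append, List.length_append]
    have h : sgn (par e.1 c) * coef (vt e) κ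
        = (((vt e).filter fun x => decide (x.2 = κ) && (par e.1 c == x.1)).length : ℤ)
          - ((vt e).filter fun x => decide (x.2 = κ) && (par e.1 c != x.1)).length := by
      clear ih
      generalize vt e = v
      induction v with
      | nil => simp [coef]
      | cons x v ih =>
        rw [coef_cons, mul_add, ih, List.filter_cons, List.filter_cons]
        by_cases h : x.2 = κ
        · rcases x with ⟨b, k⟩
          simp only at h
          subst h
          cases hb : par e.1 c <;> cases b <;> simp [sgn] <;> ring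
        · simp [h]
    rw [h]
    push_cast
    ring

theorem cpos_le_count (G : List Item) (c : Word) (κ : K) :
    cpos vt G c κ ≤ (allKeys vt G).count κ := by
  unfold cpos allKeys
  induction G with
  | nil => simp
  | cons e G ih =>
    rw [List.flatMap_cons, List.flatMap_cons, List.length_append, List.count_append]
    refine Nat.add_le_add ?_ ih
    generalize vt e = v
    induction v with
    | nil => simp
    | cons x v ih =>
      rw [List.filter_cons, List.map_cons, List.count_cons]
      by_cases h : x.2 = κ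
      · have h1 : (x.2 == κ) = true := by simp [h]
        rw [h1, if_pos rfl]
        split_ifs
        · rw [List.length_cons]; omega
        · omega
      · have h1 : ¬ (x.2 == κ) = true := by simp [h]
        have h2 : ¬ (decide (x.2 = κ) && (par e.1 c == x.1)) = true := by simp [h]
        rw [if_neg h1, if_neg h2]
        omega

omit [DecidableEq K] in
theorem length_allKeys_le {M : ℕ} (G : List Item) (hM : ∀ e, (vt e).length ≤ M) :
    (allKeys vt G).length ≤ G.length * M :=
  length_flatMap_le _ _ M fun e _ => by rw [List.length_map]; exact hM e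

theorem sgn_par_mul (r c c' : Word) :
    sgn (par r c) * sgn (par r c') = sgn (par r c == par r c') := by
  cases par r c <;> cases par r c' <;> simp [sgn]

/-- Few candidates are correlated with one key. -/
theorem card_corr_le {R : List Word} {Z : Finset Word}
    (horth : ∀ c ∈ Z, ∀ c' ∈ Z, c ≠ c' → (R.map fun r => sgn (par r c == par r c')).sum = 0)
    {G : List Item} (hG : Shape R G) {M : ℕ} (hM : ∀ e, (vt e).length ≤ M) {Q : ℕ} {κ : K}
    (hZ : ∀ c ∈ Z, G.length + 2 * Q * cneg vt G c κ ≤ 2 * Q * cpos vt G c κ)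
    {ρ : ℕ} (hR : 0 < R.length) (hρ : R.length ≤ ρ * G.length) :
    Z.card ≤ 4 * Q ^ 2 * M ^ 2 * ρ := by
  classical
  obtain ⟨m, f, rfl⟩ := hG
  set G : List Item := (R.filter m).map fun r => (r, f r) with hG
  set g : ℤ := (G.length : ℤ) with hg
  have hgpos : 0 < g := by
    rw [hg]
    rcases Nat.eq_zero_or_pos G.length with h | h
    · rw [h] at hρ; omega
    · exact_mod_cast h
  set a : Word → ℤ := fun r => if m r then coef (vt (r, f r)) κ else 0 with ha
  -- number of items
  have hlen : g = (R.map fun r => if m r then (1 : ℤ) else 0).sum := by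
    rw [hg, hG, List.length_map, filter_length_eq_sum]
  have hsq : (R.map fun r => a r ^ 2).sum ≤ (M : ℤ) ^ 2 * g := by
    rw [hlen, ← List.sum_map_mul_left]
    refine List.sum_le_sum fun r _ => ?_
    simp only [ha]
    by_cases h : m r
    · simp only [h, if_true, mul_one]
      have h1 := coef_le_length (vt (r, f r)) κ
      have h2 : ((vt (r, f r)).length : ℤ) ≤ M := by exact_mod_cast hM (r, f r)
      exact sq_le_sq' (by linarith) (by linarith)
    · simp [h]
  -- correlation
  have hcor : ∀ c ∈ Z, g ≤ 2 * Q * (R.map fun r => sgn (par r c) * a r).sum := by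
    intro c hc
    have h1 : ((G.length + 2 * Q * cneg vt G c κ : ℕ) : ℤ) ≤ ((2 * Q * cpos vt G c κ : ℕ) : ℤ) := by
      exact_mod_cast hZ c hc
    have h2 := cpos_sub_cneg (vt := vt) G c κ
    have h3 : (G.map fun e => sgn (par e.1 c) * coef (vt e) κ).sum
        = (R.map fun r => sgn (par r c) * a r).sum := by
      rw [hG, List.map_map]
      clear_value g
      clear hgpos hlen hsq horth hZ hρ h1 h2 hR hg hG
      generalize R = L
      induction L with
      | nil => simp
      | cons r L ih =>
        rw [List.filter_cons, List.map_cons, List.sum_cons, ← ih]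
        by_cases h : m r
        · simp [h, ha]
        · simp [h, ha]
    rw [← h3, ← h2]
    push_cast at h1
    rw [← hg] at h1
    linarith
  -- Bessel
  have hbes := bessel Z (fun c (i : Fin R.length) => sgn (par (R.get i) c))
    (fun i => a (R.get i)) (by
      intro c _ i
      cases par (R.get i) c <;> simp [sgn]) (by
      intro c hc c' hc' hne
      have h := horth c hc c' hc' hne
      rw [list_sum_eq_fin] at h
      rw [← h]
      exact Finset.sum_congr rfl fun i _ => sgn_par_mul _ _ _)
  rw [Fintype.card_fin, ← list_sum_eq_fin R (fun r => a r ^ 2)] at hbes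
  have hlow : ∀ c ∈ Z,
      g ^ 2 ≤ 4 * (Q : ℤ) ^ 2 * (∑ i : Fin R.length, sgn (par (R.get i) c) * a (R.get i)) ^ 2 := by
    intro c hc
    have h := hcor c hc
    rw [list_sum_eq_fin] at h
    set y := ∑ i : Fin R.length, sgn (par (R.get i) c) * a (R.get i)
    calc g ^ 2 ≤ (2 * Q * y) ^ 2 := pow_le_pow_left₀ hgpos.le h 2
      _ = _ := by ring
  have hsum : (Z.card : ℤ) * g ^ 2 ≤ 4 * (Q : ℤ) ^ 2 * ((R.length : ℤ) * ((M : ℤ) ^ 2 * g)) := by
    have h1 := Finset.sum_le_sum hlow
    rw [Finset.sum_const, nsmul_eq_mul, ← Finset.mul_sum] at h1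
    refine h1.trans (mul_le_mul_of_nonneg_left (hbes.trans ?_) (by positivity))
    exact mul_le_mul_of_nonneg_left hsq (by positivity)
  have h6 : (Z.card : ℤ) * g ≤ 4 * (Q : ℤ) ^ 2 * (M : ℤ) ^ 2 * (R.length : ℤ) := by
    have : g * ((Z.card : ℤ) * g) ≤ g * (4 * (Q : ℤ) ^ 2 * (M : ℤ) ^ 2 * (R.length : ℤ)) := by
      calc _ = (Z.card : ℤ) * g ^ 2 := by ring
        _ ≤ _ := hsum
        _ = _ := by ring
    exact le_of_mul_le_mul_left this hgpos
  have h7 : (R.length : ℤ) ≤ ρ * g := by rw [hg]; exact_mod_cast hρ
  have h8 : (Z.card : ℤ) * g ≤ (4 * Q ^ 2 * M ^ 2 * ρ : ℤ) * g := by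
    calc _ ≤ _ := h6
      _ ≤ 4 * (Q : ℤ) ^ 2 * (M : ℤ) ^ 2 * (ρ * g) :=
        mul_le_mul_of_nonneg_left h7 (by positivity)
      _ = _ := by ring
  have h9 : (Z.card : ℤ) ≤ 4 * Q ^ 2 * M ^ 2 * ρ := le_of_mul_le_mul_right h8 hgpos
  exact_mod_cast h9

/-- Few candidates pass the filter. -/
theorem length_corrAgree {R B : List Word} (hB : B.Nodup) (horth : Orth R B) {G : List Item}
    (hG : Shape R G) {M : ℕ} (hM : ∀ e, (vt e).length ≤ M) {Q : ℕ}
    {ρ : ℕ} (hR : 0 < R.length) (hρ : R.length ≤ ρ * G.length) :
    (corrAgree vt Q B G).length ≤ 8 * Q ^ 3 * M ^ 3 * ρ := by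
  classical
  have hgpos : 0 < G.length := by
    rcases Nat.eq_zero_or_pos G.length with h | h
    · rw [h] at hρ; omega
    · exact h
  set Z := corrAgree vt Q B G with hZ
  have hZB : ∀ c ∈ Z, c ∈ B := fun c hc => (List.mem_filter.1 hc).1
  have hZn : Z.Nodup := hB.filter _
  rw [← List.toFinset_card_of_nodup hZn]
  set H : Finset K := (allKeys vt G).toFinset.filter fun κ =>
    G.length ≤ 2 * Q * (allKeys vt G).count κ with hH
  let Zκ : K → Finset Word := fun κ => Z.toFinset.filter fun c =>
    G.length + 2 * Q * cneg vt G c κ ≤ 2 * Q * cpos vt G c κ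
  have hsub : Z.toFinset ⊆ H.biUnion Zκ := by
    intro c hc
    have h1 := (List.mem_filter.1 (List.mem_toFinset.1 hc)).2
    rw [List.any_eq_true] at h1
    obtain ⟨κ, h2, h3⟩ := h1
    rw [decide_eq_true_eq] at h3
    refine Finset.mem_biUnion.2 ⟨κ, ?_, Finset.mem_filter.2 ⟨hc, h3⟩⟩
    rw [hH, Finset.mem_filter, List.mem_toFinset]
    refine ⟨h2, ?_⟩
    have h4 : 2 * Q * cpos vt G c κ ≤ 2 * Q * (allKeys vt G).count κ :=
      Nat.mul_le_mul_left _ (cpos_le_count G c κ)
    omega
  have hcard : ∀ κ ∈ H, (Zκ κ).card ≤ 4 * Q ^ 2 * M ^ 2 * ρ := by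
    intro κ _
    refine card_corr_le ?_ hG hM (fun c hc => (Finset.mem_filter.1 hc).2) hR hρ
    intro c hc c' hc' hne
    exact horth c (hZB c (List.mem_toFinset.1 (Finset.mem_filter.1 hc).1)) c'
      (hZB c' (List.mem_toFinset.1 (Finset.mem_filter.1 hc').1)) hne
  have hHcard : H.card ≤ 2 * Q * M := by
    have h1 : H.card * G.length ≤ 2 * Q * (∑ κ ∈ H, (allKeys vt G).count κ) := by
      rw [Finset.mul_sum, ← smul_eq_mul, ← Finset.sum_const]
      exact Finset.sum_le_sum fun κ hκ => (Finset.mem_filter.1 hκ).2
    have h2 : ∑ κ ∈ H, (allKeys vt G).count κ ≤ (allKeys vt G).length := by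
      rw [← List.sum_toFinset_count_eq_length]
      exact Finset.sum_le_sum_of_subset (Finset.filter_subset _ _)
    have h3 := length_allKeys_le (vt := vt) G hM
    have h4 : H.card * G.length ≤ 2 * Q * M * G.length := by
      calc _ ≤ _ := h1
        _ ≤ 2 * Q * (G.length * M) := Nat.mul_le_mul_left _ (h2.trans h3)
        _ = _ := by ring
    exact Nat.le_of_mul_le_mul_right h4 hgpos
  calc Z.toFinset.card ≤ (H.biUnion Zκ).card := Finset.card_le_card hsub
    _ ≤ H.card * (4 * Q ^ 2 * M ^ 2 * ρ) := Finset.card_biUnion_le_card_mul _ _ _ hcard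
    _ ≤ 2 * Q * M * (4 * Q ^ 2 * M ^ 2 * ρ) := Nat.mul_le_mul_right _ hHcard
    _ = _ := by ring

omit [DecidableEq K] in
theorem abs_score_le (P : K → Prop) (v : SVec K) :
    score P v ≤ v.length ∧ -(v.length : ℤ) ≤ score P v := by
  classical
  induction v with
  | nil => simp [score]
  | cons x v ih =>
    rw [score_cons]
    have h1 : (if P x.2 then sgn x.1 else 0) ≤ 1 := by
      split_ifs
      · exact sgn_le_one _
      · norm_num
    have h2 : -1 ≤ (if P x.2 then sgn x.1 else 0) := by
      split_ifs
      · cases x.1 <;> simp [sgn]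
      · norm_num
    push_cast [List.length_cons]
    constructor <;> linarith [ih.1, ih.2]

/-- The true candidate passes the filter. -/
theorem mem_corrAgree {B : List Word} {G : List Item} {u : Word} {M Q : ℕ}
    (hM : ∀ e, (vt e).length ≤ M) (hM1 : 1 ≤ M) (T : Finset K) (hT : T.card ≤ Q) (hQ : 0 < Q)
    (p : Item → Prop) [DecidablePred p]
    (hp : ∀ e ∈ G, p e → 1 ≤ sgn (par e.1 u) * score (fun κ => κ ∈ T) (vt e))
    (hpos : 0 < G.length)
    (hbad : 4 * M * (G.filter fun e => decide (¬ p e)).length ≤ G.length) (hu : u ∈ B) :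
    u ∈ corrAgree vt Q B G := by
  classical
  refine List.mem_filter.2 ⟨hu, ?_⟩
  by_contra hcon'
  have hcon : ∀ κ ∈ allKeys vt G,
      ¬ (G.length + 2 * Q * cneg vt G u κ ≤ 2 * Q * cpos vt G u κ) := by
    intro κ hκ h
    exact hcon' (List.any_eq_true.2 ⟨κ, hκ, decide_eq_true h⟩)
  clear hcon'
  set corr : K → ℤ := fun κ => (G.map fun e => sgn (par e.1 u) * coef (vt e) κ).sum with hcorr
  set g : ℤ := (G.length : ℤ) with hg
  have hgpos : 0 < g := by rw [hg]; exact_mod_cast hpos
  have hκ : ∀ κ, 2 * (Q : ℤ) * corr κ ≤ g - 1 := by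
    intro κ
    by_cases hmem : κ ∈ allKeys vt G
    · have h1 := hcon κ hmem
      have h2 := cpos_sub_cneg (vt := vt) G u κ
      have h3 : ((2 * Q * cpos vt G u κ : ℕ) : ℤ) < ((G.length + 2 * Q * cneg vt G u κ : ℕ) : ℤ) := by
        exact_mod_cast not_le.1 h1
      push_cast at h3
      rw [← hg] at h3
      have h4 : 2 * (Q : ℤ) * corr κ < g := by
        simp only [hcorr]
        rw [← h2]
        linarith
      linarith
    · have h1 : corr κ = 0 := by
        simp only [hcorr]
        refine List.sum_eq_zero fun x hx => ?_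
        obtain ⟨e, he, rfl⟩ := List.mem_map.1 hx
        rw [coef_eq_zero, mul_zero]
        intro hk
        refine hmem (List.mem_flatMap.2 ⟨e, he, ?_⟩)
        unfold keys at hk
        exact List.mem_toFinset.1 hk
      rw [h1]
      linarith
  -- the total correlation
  have htot : (G.map fun e => sgn (par e.1 u) * score (fun κ => κ ∈ T) (vt e)).sum
      = ∑ κ ∈ T, corr κ := by
    have h1 : ∀ e : Item, sgn (par e.1 u) * score (fun κ => κ ∈ T) (vt e)
        = ∑ κ ∈ T, sgn (par e.1 u) * coef (vt e) κ := by
      intro e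
      rw [score_eq_sum (fun κ => κ ∈ T) (vt e) T (fun _ _ h => h), Finset.mul_sum]
      refine Finset.sum_congr ?_ fun _ _ => rfl
      ext κ
      simp
    simp only [h1, hcorr]
    clear hκ hcon hp hbad hgpos hg hpos
    clear_value g
    clear g
    induction G with
    | nil => simp
    | cons e G ih =>
      simp only [List.map_cons, List.sum_cons, ih, Finset.sum_add_distrib]
  -- lower bound
  have hlow : g ≤ 2 * (G.map fun e => sgn (par e.1 u) * score (fun κ => κ ∈ T) (vt e)).sum := by
    have h1 : ∀ e ∈ G, (1 : ℤ) - (M + 1) * (if ¬ p e then 1 else 0)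
        ≤ sgn (par e.1 u) * score (fun κ => κ ∈ T) (vt e) := by
      intro e he
      by_cases h : p e
      · have := hp e he h
        simpa [h] using this
      · simp only [h, not_false_eq_true, if_true, mul_one]
        have h2 := abs_score_le (fun κ => κ ∈ T) (vt e)
        have h3 : ((vt e).length : ℤ) ≤ M := by exact_mod_cast hM e
        cases par e.1 u
        · simp only [sgn, Bool.false_eq_true, if_false]
          linarith [h2.1]
        · simp only [sgn, if_true]
          linarith [h2.2]
    have h2 := List.sum_le_sum h1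
    have h3 : (G.map fun e => (1 : ℤ) - (M + 1) * (if ¬ p e then 1 else 0)).sum
        = g - (M + 1) * ((G.filter fun e => decide (¬ p e)).length : ℤ) := by
      rw [filter_length_eq_sum, hg]
      clear h1 h2 hcon hp hbad hgpos hpos hcorr htot hκ hg
      clear_value corr g
      induction G with
      | nil => simp
      | cons e G ih =>
        rw [List.map_cons, List.sum_cons, ih, List.map_cons, List.sum_cons, List.length_cons]
        push_cast
        simp only [decide_eq_true_eq]
        ring
    rw [h3] at h2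
    set b : ℤ := ((G.filter fun e => decide (¬ p e)).length : ℤ) with hb
    have hbnn : 0 ≤ b := by rw [hb]; positivity
    have h4 : 4 * (M : ℤ) * b ≤ g := by
      rw [hg, hb]; exact_mod_cast hbad
    have h5 : (1 : ℤ) ≤ M := by exact_mod_cast hM1
    nlinarith
  have h1 : (Q : ℤ) * g ≤ ∑ κ ∈ T, 2 * (Q : ℤ) * corr κ := by
    rw [← Finset.mul_sum, ← htot]
    have : (0 : ℤ) ≤ Q := by positivity
    nlinarith
  have h2 : ∑ κ ∈ T, 2 * (Q : ℤ) * corr κ ≤ T.card * (g - 1) := by
    rw [← nsmul_eq_mul, ← Finset.sum_const]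
    exact Finset.sum_le_sum fun κ _ => hκ κ
  have h3 : (T.card : ℤ) * (g - 1) ≤ Q * (g - 1) := by
    refine mul_le_mul_of_nonneg_right (by exact_mod_cast hT) (by linarith)
  have h4 : (0 : ℤ) < Q := by exact_mod_cast hQ
  nlinarith

end filter

end Pool.Agent.Lib.MP_634427_lc.Hyb
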