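import Pool.Agent.Lib.MP_634427_lc.AlgoPT
import Pool.Agent.Lib.MP_634427_lc.KNoPT
import Pool.Agent.Lib.MP_634427_lc.HybridCore
import Pool.Agent.Lib.MP_634427_lc.HybridFilter

/-!
# The procedures of `HybridCore.lean` and `HybridFilter.lean` are polynomial-time functions
-/

namespace Pool.Agent.Lib.MP_634427_lc.Hyb

open KNo PT

variable {γ δ : Type} [Enc γ] [Enc δ] {next : γ → Word → List Bool → Option Word}
  {agr : γ → List Word → List Item → List Word} {q : γ → ℕ}

lemma pt_gerr {E P : δ → ℕ} (hE : PT E) (hP : PT P) (j : ℕ) :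
    PT fun d => gerr (E d) (P d) j := by
  induction j with
  | zero => exact hE
  | succ j ih => exact PT.mul (PT.mul (PT.mul (const 4) hP) ih) ih

lemma pt_gbnd {A E P : γ → ℕ} (hA : PT A) (hE : PT E) (hP : PT P) (j : ℕ) :
    PT fun p : γ × ℕ => gbnd (A p.1) (E p.1) (P p.1) j p.2 := by
  induction j with
  | zero => exact PT.mul (hA.comp fst) snd
  | succ j ih =>
    have hPf : PT fun p : γ × ℕ => P p.1 := hP.comp fst
    exact PT.mul hPf (ih.comp (pair fst (PT.mul (PT.mul (PT.mul (const 4) hPf)
      (pt_gerr (hE.comp fst) hPf j)) snd)))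

theorem pt_gsearch (hn : PT fun p : γ × Word × List Bool => next p.1 p.2.1 p.2.2) (hq : PT q)
    (ha : PT fun p : γ × List Word × List Item => agr p.1 p.2.1 p.2.2)
    {E P : γ → ℕ} (hE : PT E) (hP : PT P) (j : ℕ) :
    PT fun p : (γ × List Word) × List Word × List Item =>
      gsearch (next p.1.1) (agr p.1.1) (E p.1.1) (q p.1.1) (P p.1.1) p.1.2 j p.2.1 p.2.2 := by
  induction j with
  | zero =>
    exact ha.comp (pair (fst' fst) (pair (snd' fst)
      (PT.map (f := fun (p : (γ × List Word) × List Word × List Item) e =>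
        yes (next p.1.1) (q p.1.1) e) (snd' snd)
        (pt_yes hn hq (fst' (fst' fst)) snd))))
  | succ j ih =>
    have hP' : PT fun p : (γ × List Word) × List Word × List Item => P p.1.1 :=
      hP.comp (fst' fst)
    have hcx : PT fun p : ((γ × List Word) × List Word × List Item) × ℕ => p.1.1.1 :=
      fst' (fst' fst)
    have hB : PT fun p : ((γ × List Word) × List Word × List Item) × ℕ => p.1.1.2 :=
      snd' (fst' fst)
    have hG : PT fun p : ((γ × List Word) × List Word × List Item) × ℕ => p.1.2.2 :=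
      snd' (snd' fst)
    have hθ : PT fun p : ((γ × List Word) × List Word × List Item) × ℕ =>
        4 * P p.1.1.1 * gerr (E p.1.1.1) (P p.1.1.1) j :=
      PT.mul (PT.mul (const 4) (hP.comp hcx)) (pt_gerr (hE.comp hcx) (hP.comp hcx) j)
    have hT := pt_growIter (δ := ((γ × List Word) × List Word × List Item) × ℕ) hn hq hcx hθ hG
      (fst' (snd' fst)) snd
    have hH := pt_halted hn hq hcx hT hG
    have hW := pt_waiting hn hq hcx hT hG
    have hleaf := PT.cond (PT.le (PT.length hG) (PT.mul (const 2) (PT.length hH)))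
      (ha.comp (pair hcx (pair hB hH)))
      (casesOption (pt_pop hn hcx hθ (PT.length hG) hW)
        (ih.comp (pair (pair hcx hB) (pair hT (PT.map (f := fun _ e => no e) hW (pt_no snd)))))
        (g := fun p s => gsearch (next p.1.1.1) (agr p.1.1.1) (E p.1.1.1) (q p.1.1.1)
          (P p.1.1.1) p.1.1.2 j
          ((grow (next p.1.1.1) (q p.1.1.1) (4 * P p.1.1.1 * gerr (E p.1.1.1) (P p.1.1.1) j)
            p.1.2.2)^[p.2] p.1.2.1)
          ((pend (next p.1.1.1) s (waiting (next p.1.1.1) (q p.1.1.1)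
            ((grow (next p.1.1.1) (q p.1.1.1) (4 * P p.1.1.1 * gerr (E p.1.1.1) (P p.1.1.1) j)
              p.1.2.2)^[p.2] p.1.2.1) p.1.2.2)).map no))
        (ih.comp (pair (pair (hcx.comp fst) (hB.comp fst)) (pair (hT.comp fst)
          (PT.map (f := fun _ e => no e) (pt_pend hn (hcx.comp fst) snd (hW.comp fst))
            (pt_no snd))))))
    refine (PT.flatMap' (PT.range hP') hleaf).of_eq fun p => ?_
    simp only [gsearch]
    congr 1
    funext i
    by_cases h : p.2.2.length ≤ 2 * (halted (next p.1.1) (q p.1.1)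
        ((grow (next p.1.1) (q p.1.1) (4 * P p.1.1 * gerr (E p.1.1) (P p.1.1) j)
          p.2.2)^[i] p.2.1) p.2.2).length
    · simp [h]
    · simp only [h, decide_false, Bool.cond_false, if_false]
      split
      · rename_i h'
        rw [h']
      · rename_i s h'
        rw [h']

section

variable {K : Type} [DecidableEq K] [Enc K] {vt : γ → Item → SVec K}

lemma pt_cpos (hinj : Function.Injective (enc : K → BT))
    (hvt : PT fun p : γ × Item => vt p.1 p.2) {cx : δ → γ} {G : δ → List Item} {c : δ → Word}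
    {κ : δ → K} (hcx : PT cx) (hG : PT G) (hc : PT c) (hκ : PT κ) :
    PT fun d => cpos (vt (cx d)) (G d) (c d) (κ d) := by
  refine PT.length (PT.flatMap (f := fun d e => (vt (cx d) e).filter fun x =>
    decide (x.2 = κ d) && (par e.1 (c d) == x.1)) hG ?_)
  refine PT.filter (γ := δ × Item) (l := fun p => vt (cx p.1) p.2) (p := fun p x =>
    decide (x.2 = κ p.1) && (par p.2.1 (c p.1) == x.1)) (hvt.comp (pair (hcx.comp fst) snd)) ?_
  exact PT.and (PT.eqDec hinj (snd' snd) (hκ.comp (fst' fst)))
    (PT.beqBool (PT.par (fst' (snd' fst)) (hc.comp (fst' fst))) (fst' snd))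

lemma pt_cneg (hinj : Function.Injective (enc : K → BT))
    (hvt : PT fun p : γ × Item => vt p.1 p.2) {cx : δ → γ} {G : δ → List Item} {c : δ → Word}
    {κ : δ → K} (hcx : PT cx) (hG : PT G) (hc : PT c) (hκ : PT κ) :
    PT fun d => cneg (vt (cx d)) (G d) (c d) (κ d) := by
  refine PT.length (PT.flatMap (f := fun d e => (vt (cx d) e).filter fun x =>
    decide (x.2 = κ d) && (par e.1 (c d) != x.1)) hG ?_)
  refine PT.filter (γ := δ × Item) (l := fun p => vt (cx p.1) p.2) (p := fun p x =>
    decide (x.2 = κ p.1) && (par p.2.1 (c p.1) != x.1)) (hvt.comp (pair (hcx.comp fst) snd)) ?_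
  exact PT.and (PT.eqDec hinj (snd' snd) (hκ.comp (fst' fst)))
    (PT.bne (PT.par (fst' (snd' fst)) (hc.comp (fst' fst))) (fst' snd))

theorem pt_corrAgree (hinj : Function.Injective (enc : K → BT))
    (hvt : PT fun p : γ × Item => vt p.1 p.2) {Q : γ → ℕ} (hQ : PT Q) :
    PT fun p : γ × List Word × List Item => corrAgree (vt p.1) (Q p.1) p.2.1 p.2.2 := by
  refine PT.filter (γ := γ × List Word × List Item) (l := fun p => p.2.1)
    (p := fun p c => (allKeys (vt p.1) p.2.2).any fun κ =>
      decide (p.2.2.length + 2 * Q p.1 * cneg (vt p.1) p.2.2 c κ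
        ≤ 2 * Q p.1 * cpos (vt p.1) p.2.2 c κ)) (fst' snd) ?_
  refine PT.any (γ := (γ × List Word × List Item) × Word)
    (l := fun p => allKeys (vt p.1.1) p.1.2.2)
    (p := fun p κ => decide (p.1.2.2.length + 2 * Q p.1.1 * cneg (vt p.1.1) p.1.2.2 p.2 κ
        ≤ 2 * Q p.1.1 * cpos (vt p.1.1) p.1.2.2 p.2 κ)) ?_ ?_
  · refine PT.flatMap (γ := (γ × List Word × List Item) × Word) (l := fun p => p.1.2.2)
      (f := fun p e => (vt p.1.1 e).map Prod.snd) (snd' (snd' fst)) ?_
    exact PT.map (γ := ((γ × List Word × List Item) × Word) × Item)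
      (l := fun p => vt p.1.1.1 p.2) (f := fun _ x => x.2)
      (hvt.comp (pair (fst' (fst' fst)) snd)) (snd' snd)
  · have hcx : PT fun p : ((γ × List Word × List Item) × Word) × K => p.1.1.1 :=
      fst' (fst' fst)
    have hG : PT fun p : ((γ × List Word × List Item) × Word) × K => p.1.1.2.2 :=
      snd' (snd' (fst' fst))
    have h2Q : PT fun p : ((γ × List Word × List Item) × Word) × K => 2 * Q p.1.1.1 :=
      PT.mul (const 2) (hQ.comp hcx)
    exact PT.le (PT.add (PT.length hG) (PT.mul h2Q (pt_cneg hinj hvt hcx hG (snd' fst) snd)))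
      (PT.mul h2Q (pt_cpos hinj hvt hcx hG (snd' fst) snd))

end

end Pool.Agent.Lib.MP_634427_lc.Hyb
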