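import Pool.Agent.Lib.MP_634427_lc.GenModel

/-!
# Sets of polylogarithmic density; sets close to NP
-/

namespace Pool.Agent.Lib.MP_634427_lc

/-- The number of words of `S` of length at most `n` is polylogarithmic in `n`. -/
def PolylogDense (S : Set Word) : Prop :=
  ∃ c : ℕ, ∀ n, {w ∈ S | w.length ≤ n}.ncard ≤ Nat.log 2 n ^ c + c

/-- `S` agrees with some set in NP except for a set of polylogarithmic density. -/
def NearNP (S : Set Word) : Prop :=
  ∃ E : Set Word, InNP E ∧ PolylogDense {w | ¬ (w ∈ S ↔ w ∈ E)}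

end Pool.Agent.Lib.MP_634427_lc
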