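import Pool.Agent.Lib.MP_634427_lc.Depth
import Pool.Agent.Lib.MP_634427_lc.PolylogModel

/-!
# Sets of polylogarithmic density that are hard under threshold reductions
-/

namespace Pool.Agent.Lib.MP_634427_lc

open BT

lemma polylog_lt {α : Type} [Enc α] (a : α) (e c : ℕ) :
    Nat.log 2 ((sz a + 2) ^ e) ^ c + c < mu a ^ ((e + 2) * c + c + 1) := by
  have h0 : Nat.log 2 ((sz a + 2) ^ e) ≤ e * (lg (sz a + 2)).1 := by
    have h1 : (sz a + 2) ^ e ≤ 2 ^ (e * (lg (sz a + 2)).1) := by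
      rw [Nat.mul_comm, pow_mul]
      exact Nat.pow_le_pow_left (le_lg _) e
    calc Nat.log 2 ((sz a + 2) ^ e) ≤ Nat.log 2 (2 ^ (e * (lg (sz a + 2)).1)) :=
          Nat.log_mono_right h1
      _ = e * (lg (sz a + 2)).1 := Nat.log_pow (by norm_num) _
  have h2 := lg_le_mu a
  have hmu : 2 ≤ mu a := Nat.le_add_left _ _
  have h3 : e * (lg (sz a + 2)).1 ≤ mu a ^ (e + 2) := by
    calc e * (lg (sz a + 2)).1 ≤ 2 ^ e * mu a ^ 2 :=
          Nat.mul_le_mul Nat.lt_two_pow_self.le h2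
      _ ≤ mu a ^ e * mu a ^ 2 := Nat.mul_le_mul_right _ (Nat.pow_le_pow_left hmu e)
      _ = mu a ^ (e + 2) := by rw [pow_add]
  have h4 : Nat.log 2 ((sz a + 2) ^ e) ^ c ≤ mu a ^ ((e + 2) * c) := by
    rw [pow_mul]
    exact Nat.pow_le_pow_left (h0.trans h3) c
  have h5 : c < mu a ^ c :=
    lt_of_lt_of_le Nat.lt_two_pow_self (Nat.pow_le_pow_left hmu c)
  have h6 := pb_add (x := mu a) (a := (e + 2) * c) (b := c) hmu
  omega

theorem polylog_inP (S : Set Word) (hS : PolylogDense S)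
    (hard : ∀ A, InNP A → PThrReducible A S) (L : Set Word) (hL : InNP L) : InP L := by
  obtain ⟨V, c, hV, hLV⟩ := hL
  obtain ⟨iso, hiso, hlen, hprop⟩ := exists_isofam
  obtain ⟨c', hS⟩ := hS
  have hm : PT fun x : Word => wb c x + 1 := PT.succ (pt_wb c)
  obtain ⟨q, e, hq, he, hqb⟩ := exists_query S hard (relx V) (fun x => wb c x + 1) (pt_relx hV) hm
  obtain ⟨leaf, hleaf0⟩ : ∃ leaf : Word × List ℕ → Bool, leaf = fun p =>
    relx V (p.1, walkT q p.1 (tbl q (fun x => wb c x + 1) p.1 p.2) (wb c p.1 + 1)) := ⟨_, rfl⟩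
  have hleaf : PT leaf := by
    rw [hleaf0]
    exact (pt_relx hV).comp (PT.pair PT.fst (pt_walkT hq PT.fst (pt_tbl he hq hm PT.fst PT.snd)
      (hm.comp PT.fst)))
  have hN : PT fun x : Word => (wb c x + 1) * (sz x + 2) ^ e + 1 :=
    PT.succ (PT.mul hm (PT.pow (PT.add (PT.size PT.id) (PT.const 2)) e))
  obtain ⟨sol, hsol, hsolP⟩ := searchable_pow (projCands_of_thr S hard) iso hiso hlen hprop (α := Word)
    ((e + 2) * c' + c' + 1) _ leaf hN hleaf
  refine ⟨fun x => leaf (x, sol x), hleaf.comp (PT.pair PT.id hsol), fun x => ?_⟩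
  constructor
  · intro hx
    obtain ⟨u, hu, hVu⟩ := (hLV x).1 hx
    obtain ⟨y, hy1, hy2, hy3⟩ := exists_guess S he hqb x
      ⟨pad (wb c x) u, length_pad hu, by rw [relx_pad]; exact hVu⟩
      (mu x ^ ((e + 2) * c' + c' + 1)) (lt_of_le_of_lt (hS _) (polylog_lt x e c'))
    exact (hsolP x ⟨y, hy1, hy2, by rw [hleaf0]; exact hy3⟩).2.2
  · intro h
    rw [hleaf0] at h
    obtain ⟨u, hu, _, hVu⟩ := of_relx h (length_walkT _ _ _)
    exact (hLV x).2 ⟨u, hu, hVu⟩

/-- If P = NP then the empty set is complete for NP under threshold reductions. -/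
theorem exists_empty_hard (h : ∀ L : Set Word, InNP L → InP L) :
    ∀ A, InNP A → PThrReducible A ∅ := by
  intro A hA
  obtain ⟨f, hf, hfA⟩ := h A hA
  refine ⟨fun x => bif f x then [(true, [])] else [], fun _ => 0, 1,
    PT.cond hf (PT.const _) (PT.const _), monotone_const, fun n => by simp, fun x e he => ?_,
    fun x => ?_⟩
  · cases h : f x
    · simp [h] at he
    · simp only [h, cond_true, List.mem_singleton] at he
      simp [he]
  · rw [hfA]
    show f x = true ↔ 0 < balance ∅ (bif f x then [(true, [])] else [])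
    rcases h : f x with _ | _
    · simp [balance]
    · simp [balance]

end Pool.Agent.Lib.MP_634427_lc
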