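import Pool.Agent.Lib.MP_634427_lc.Model

/-!
# Deterministic subexponential time
-/

namespace Pool.Agent.Lib.MP_634427_lc

/-- `L` can be decided in time `2 ^ O(n ^ (1 / k))` for every `k`, that is, `L` is in the
intersection of the classes `DTIME(2 ^ (n ^ ε))`, `ε > 0`: for every `k` there is a
polynomial-time function that decides whether `x` is in `L` when it is given `x` together with
`2 ^ r` zeros for some `r` with `|x| ≤ r ^ k`. -/
def InSubExp (L : Set Word) : Prop :=
  ∀ k : ℕ, ∃ f : Word × Word → Bool, PT f ∧
    ∀ (x : Word) (r : ℕ), x.length ≤ r ^ k → (x ∈ L ↔ f (x, List.replicate (2 ^ r) false) = true)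

end Pool.Agent.Lib.MP_634427_lc
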