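import Pool.Agent.Lib.MP_634427_lc.Depth
import Pool.Agent.Lib.MP_634427_lc.SubexpModel

/-!
# Deterministic subexponential time for NP
-/

namespace Pool.Agent.Lib.MP_634427_lc

open BT

lemma sz_replicate_false (n : ℕ) : sz (List.replicate n false) = n := by
  induction n with
  | zero => rfl
  | succ n ih => rw [List.replicate_succ, sz_cons, ih, sz_false]; omega

lemma wb_lt_mu {x : Word} {r k c : ℕ} (h : x.length ≤ r ^ k) :
    wb c x + 1 ≤ mu (x, List.replicate (2 ^ r) false) ^ (2 * k * c + c + 1) := by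
  obtain ⟨a, ha⟩ : ∃ a : Word × Word, a = (x, List.replicate (2 ^ r) false) := ⟨_, rfl⟩
  rw [← ha]
  have hmu : 2 ≤ mu a := Nat.le_add_left _ _
  have h1 : r ≤ mu a ^ 2 := by
    have h2 : 2 ^ r ≤ 2 ^ (lg (sz a + 2)).1 := by
      refine le_trans ?_ (le_lg (sz a + 2))
      rw [ha, sz_pair, sz_replicate_false]
      omega
    exact ((Nat.pow_le_pow_iff_right (by norm_num)).1 h2).trans (lg_le_mu a)
  have h2 : x.length ^ c ≤ mu a ^ (2 * k * c) := by
    calc x.length ^ c ≤ (r ^ k) ^ c := Nat.pow_le_pow_left h c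
      _ ≤ ((mu a ^ 2) ^ k) ^ c := Nat.pow_le_pow_left (Nat.pow_le_pow_left h1 k) c
      _ = mu a ^ (2 * k * c) := by rw [← pow_mul, ← pow_mul, Nat.mul_assoc]
  have h3 : c < mu a ^ c :=
    lt_of_lt_of_le Nat.lt_two_pow_self (Nat.pow_le_pow_left hmu c)
  have h4 := pb_add (x := mu a) (a := 2 * k * c) (b := c) hmu
  unfold wb
  omega

/-- If unique projections of witnesses have short lists of candidates, then NP is contained in
deterministic subexponential time. -/
theorem inNP_subexp (hP : ProjCands) (L : Set Word) (hL : InNP L) : InSubExp L := by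
  intro k
  obtain ⟨V, c, hV, hLV⟩ := hL
  obtain ⟨iso, hiso, hlen, hprop⟩ := exists_isofam
  have hm : PT fun x : Word => wb c x + 1 := PT.succ (pt_wb c)
  obtain ⟨dec, hdec0⟩ : ∃ dec : (Word × Word) × List ℕ → Word, dec = fun p =>
    (p.2.take (wb c p.1.1 + 1)).map fun v => decide (v = 1) := ⟨_, rfl⟩
  have hdec : PT dec := by
    rw [hdec0]
    exact PT.map (f := fun (_ : (Word × Word) × List ℕ) v => decide (v = 1))
      (PT.take (hm.comp (PT.fst' PT.fst)) PT.snd) (PT.eqNat PT.snd (PT.const 1))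
  obtain ⟨leaf, hleaf0⟩ : ∃ leaf : (Word × Word) × List ℕ → Bool, leaf = fun p =>
    decide ((dec p).length = wb c p.1.1 + 1) && relx V (p.1.1, dec p) := ⟨_, rfl⟩
  have hleaf : PT leaf := by
    rw [hleaf0]
    exact PT.and (PT.eqNat (PT.length hdec) (hm.comp (PT.fst' PT.fst)))
      ((pt_relx hV).comp (PT.pair (PT.fst' PT.fst) hdec))
  obtain ⟨sol, hsol, hsolP⟩ := searchable_pow hP iso hiso hlen hprop (α := Word × Word)
    (2 * k * c + c + 1) (fun _ => 2) leaf (PT.const 2) hleaf
  refine ⟨fun a => leaf (a, sol a), hleaf.comp (PT.pair PT.id hsol), fun x r hx => ?_⟩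
  obtain ⟨a, ha⟩ : ∃ a : Word × Word, a = (x, List.replicate (2 ^ r) false) := ⟨_, rfl⟩
  have hax : a.1 = x := by rw [ha]
  have hmu := wb_lt_mu (c := c) hx
  rw [← ha] at hmu ⊢
  constructor
  · intro hxL
    obtain ⟨u, hu, hVu⟩ := (hLV x).1 hxL
    have hul : (pad (wb c x) u).length = wb c x + 1 := length_pad hu
    obtain ⟨u', hu'⟩ : ∃ u', u' = pad (wb c x) u := ⟨_, rfl⟩
    rw [← hu'] at hul
    obtain ⟨p, hp⟩ : ∃ p : List ℕ, p = (u'.map fun b => if b then 1 else 0) ++
      List.replicate (mu a ^ (2 * k * c + c + 1) - (wb c x + 1)) 0 := ⟨_, rfl⟩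
    have hdecp : dec (a, p) = u' := by
      rw [hdec0]
      show (p.take (wb c a.1 + 1)).map (fun v => decide (v = 1)) = u'
      have h1 : wb c a.1 + 1 = (u'.map fun b => if b then 1 else 0).length := by
        rw [List.length_map, hul, hax]
      rw [hp, h1, List.take_left, List.map_map]
      conv_rhs => rw [← List.map_id u']
      refine List.map_congr_left fun b _ => ?_
      cases b <;> simp
    refine (hsolP a ⟨p, ?_, ?_, ?_⟩).2.2
    · rw [hp, List.length_append, List.length_map, List.length_replicate, hul]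
      show wb c x + 1 + (mu a ^ (2 * k * c + c + 1) - (wb c x + 1)) = mu a ^ (2 * k * c + c + 1)
      omega
    · intro v hv
      rw [hp] at hv
      rcases List.mem_append.1 hv with hv | hv
      · obtain ⟨b, _, rfl⟩ := List.mem_map.1 hv
        cases b <;> simp
      · rw [List.eq_of_mem_replicate hv]; norm_num
    · rw [hleaf0]
      simp only [Bool.and_eq_true, decide_eq_true_eq, hdecp, hax]
      refine ⟨hul, ?_⟩
      rw [hu', relx_pad]
      exact hVu
  · intro h
    rw [hleaf0] at h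
    simp only [Bool.and_eq_true, decide_eq_true_eq, hax] at h
    obtain ⟨u, hu, _, hVu⟩ := of_relx h.2 h.1
    exact (hLV x).2 ⟨u, hu, hVu⟩

end Pool.Agent.Lib.MP_634427_lc
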