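import Mathlib

/-!
# Polynomial time, complexity classes, sparse sets and threshold truth-table reductions

`PolyTime` is the smallest class of functions on binary trees that contains the basic functions
and is closed under composition, pairing and polynomially bounded structural recursion.  By
Cobham's theorem (in the form for binary trees) these are exactly the polynomial-time computable
functions: a recursion makes one call of `h` for each node of the recursion argument, each call on
an argument of polynomially bounded size; conversely a Turing machine is simulated by a recursion
along a list of polynomial length.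
-/

namespace Pool.Agent.Lib.MP_634427_lc

/-- Words over `{0,1}`. -/
abbrev Word := List Bool

/-- Binary trees. -/
inductive BT : Type
  | nil : BT
  | node : BT → BT → BT
  deriving DecidableEq

namespace BT

/-- Left subtree (`nil` for `nil`). -/
def left : BT → BT
  | nil => nil
  | node l _ => l

/-- Right subtree (`nil` for `nil`). -/
def right : BT → BT
  | nil => nil
  | node _ r => r

/-- Number of inner nodes. -/
def size : BT → ℕ
  | nil => 0
  | node l r => l.size + r.size + 1

/-- Structural recursion on the last argument; `x` is a parameter. -/
def recur (g h : BT → BT) (x : BT) : BT → BT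
  | nil => g x
  | node a b => h (node x (node (node a b) (node (recur g h x a) (recur g h x b))))

end BT

/-- Polynomial-time functions on binary trees (Cobham's function algebra): identity, constant
`nil`, left and right subtree, pairing, composition, and structural recursion in which the size of
the values is bounded by a polynomial in the size of the arguments. -/
inductive PolyTime : (BT → BT) → Prop
  | id : PolyTime fun x => x
  | nil : PolyTime fun _ => BT.nil
  | left : PolyTime BT.left
  | right : PolyTime BT.right
  | node {f g : BT → BT} : PolyTime f → PolyTime g → PolyTime fun x => BT.node (f x) (g x)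
  | comp {f g : BT → BT} : PolyTime f → PolyTime g → PolyTime fun x => f (g x)
  | recur {g h : BT → BT} (c : ℕ) : PolyTime g → PolyTime h →
      (∀ x y, (BT.recur g h x y).size ≤ (x.size + y.size + 2) ^ c) →
      PolyTime fun t => BT.recur g h t.left t.right

/-- An encoding of a type by binary trees. -/
class Enc (α : Type) where
  /-- the encoding -/
  enc : α → BT

export Enc (enc)

instance : Enc Bool := ⟨fun b => match b with | false => .nil | true => .node .nil .nil⟩

instance {α β : Type} [Enc α] [Enc β] : Enc (α × β) := ⟨fun p => .node (enc p.1) (enc p.2)⟩

/-- The encoding of lists. -/
def encList {α : Type} [Enc α] : List α → BT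
  | [] => .nil
  | a :: l => .node (enc a) (encList l)

instance {α : Type} [Enc α] : Enc (List α) := ⟨encList⟩

/-- A function is computable in polynomial time if it is realised, on codes, by a polynomial-time
function on binary trees. -/
def PT {α β : Type} [Enc α] [Enc β] (f : α → β) : Prop :=
  ∃ F : BT → BT, PolyTime F ∧ ∀ a, F (enc a) = enc (f a)

/-- `L` is in P. -/
def InP (L : Set Word) : Prop :=
  ∃ f : Word → Bool, PT f ∧ ∀ x, x ∈ L ↔ f x = true

/-- `L` is in NP: there is a polynomial-time verifier for witnesses of polynomial length. -/
def InNP (L : Set Word) : Prop :=
  ∃ (V : Word × Word → Bool) (c : ℕ), PT V ∧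
    ∀ x, x ∈ L ↔ ∃ u : Word, u.length ≤ x.length ^ c + c ∧ V (x, u) = true

/-- `L` is in RP: for `x ∈ L` at least half of the random strings of length `|x| ^ c + c` are
accepted, for `x ∉ L` none is. -/
def InRP (L : Set Word) : Prop :=
  ∃ (V : Word × Word → Bool) (c : ℕ), PT V ∧ ∀ x,
    (x ∈ L → 2 ^ (x.length ^ c + c) ≤
      2 * Nat.card {y : Fin (x.length ^ c + c) → Bool // V (x, List.ofFn y) = true}) ∧
    (x ∉ L → ∀ y : Fin (x.length ^ c + c) → Bool, V (x, List.ofFn y) = false)

/-- `S` is sparse: it has at most polynomially many words of length at most `n`. -/
def Sparse (S : Set Word) : Prop :=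
  ∃ c : ℕ, ∀ n, {w ∈ S | w.length ≤ n}.ncard ≤ n ^ c + c

open Classical in
/-- The number of positive bundles of `v` that lie entirely in `S` minus the number of negative
ones. A bundle is a list of words, together with a sign (`true` is `+`, `false` is `-`). -/
noncomputable def balance (S : Set Word) (v : List (Bool × List Word)) : ℤ :=
  (v.map fun e => if ∀ w ∈ e.2, w ∈ S then (if e.1 then 1 else -1) else 0).sum

/-- `A` is reducible to `S` by a polynomial-time threshold truth-table reduction of degree `d`:
in polynomial time one computes from `x` a list of signed bundles, each consisting of a sign and at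
most `d` words, such that `x ∈ A` if and only if more positive than negative bundles of the list
lie entirely in `S`. -/
def ThrReducible (d : ℕ) (A S : Set Word) : Prop :=
  ∃ f : Word → List (Bool × List Word), PT f ∧ (∀ x, ∀ e ∈ f x, e.2.length ≤ d) ∧
    ∀ x, x ∈ A ↔ 0 < balance S (f x)

end Pool.Agent.Lib.MP_634427_lc
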