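import Pool.Agent.Lib.MP_634427_lc.Table

/-!
# Certificates for the table of the words of bounded length of a set in NP, given their number
-/

namespace Pool.Agent.Lib.MP_634427_lc

open BT

theorem exists_table_cert (E : Set Word) (hE : InNP E) (ℓ : Word → ℕ) (hℓ : PT ℓ) :
    ∃ (bl : Word → ℕ) (Rel : (Word × ℕ) × Word → Bool) (tab : (Word × ℕ) × Word → List Word),
      PT bl ∧ PT Rel ∧ PT tab ∧ ∀ x (F : Finset Word), (∀ w, w ∈ F ↔ w ∈ E ∧ w.length ≤ ℓ x) →
        (∃ w : Word, w.length = F.card * bl x ∧ Rel ((x, F.card), w) = true) ∧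
        ∀ w : Word, w.length = F.card * bl x → Rel ((x, F.card), w) = true →
          ∀ t, t ∈ tab ((x, F.card), w) ↔ t ∈ F := by
  classical
  obtain ⟨VS, cS, hVS, hSV⟩ := hE
  let ℓC : Word → ℕ := fun x => ℓ x ^ cS + cS
  have hℓC : PT ℓC := PT.add (PT.pow hℓ cS) (PT.const cS)
  let bl : Word → ℕ := fun x => (ℓ x + 1) + (ℓC x + 1)
  have hbl : PT bl := PT.add (PT.succ hℓ) (PT.succ hℓC)
  -- parsing
  let ent : Word → Word → ℕ → Option Word := fun x w i => strip ((w.drop (i * bl x)).take (ℓ x + 1))
  let crt : Word → Word → ℕ → Option Word := fun x w i =>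
    strip ((w.drop (i * bl x + (ℓ x + 1))).take (ℓC x + 1))
  have hent : PT fun p : Word × Word × ℕ => ent p.1 p.2.1 p.2.2 :=
    pt_strip (PT.take (PT.succ (hℓ.comp PT.fst))
      (PT.drop (PT.mul (PT.snd' PT.snd) (hbl.comp PT.fst)) (PT.fst' PT.snd)))
  have hcrt : PT fun p : Word × Word × ℕ => crt p.1 p.2.1 p.2.2 :=
    pt_strip (PT.take (PT.succ (hℓC.comp PT.fst))
      (PT.drop (PT.add (PT.mul (PT.snd' PT.snd) (hbl.comp PT.fst)) (PT.succ (hℓ.comp PT.fst)))
        (PT.fst' PT.snd)))
  let tab : Word → ℕ → Word → List Word := fun x N w => (List.range N).map fun i => (ent x w i).getD []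
  have htab : PT fun p : (Word × ℕ) × Word => tab p.1.1 p.1.2 p.2 :=
    PT.map (f := fun (p : (Word × ℕ) × Word) i => (ent p.1.1 p.2 i).getD []) (PT.range (PT.snd' PT.fst))
      (PT.getD (hent.comp (PT.pair (PT.fst' (PT.fst' PT.fst)) (PT.pair (PT.snd' PT.fst) PT.snd)))
        (PT.const []))
  let chk : Word → Word → ℕ → Bool := fun x w i =>
    (ent x w i).isSome && ((crt x w i).isSome &&
      (decide (((crt x w i).getD []).length ≤ ((ent x w i).getD []).length ^ cS + cS) &&
        VS ((ent x w i).getD [], (crt x w i).getD [])))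
  have hchk : PT fun p : Word × Word × ℕ => chk p.1 p.2.1 p.2.2 := by
    have h1 := PT.getD hent (PT.const [])
    have h2 := PT.getD hcrt (PT.const [])
    exact PT.and (PT.isSome hent) (PT.and (PT.isSome hcrt)
      (PT.and (PT.le (PT.length h2) (PT.add (PT.pow (PT.length h1) cS) (PT.const cS)))
        (hVS.comp (PT.pair h1 h2))))
  -- the relation
  let Rel : (Word × ℕ) × Word → Bool := fun p =>
    (List.range p.1.2).all (fun i => chk p.1.1 p.2 i &&
      (List.range i).all fun j => !decide ((ent p.1.1 p.2 j).getD [] = (ent p.1.1 p.2 i).getD []))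
  have hRel : PT Rel := by
    refine PT.all (p := fun (p : (Word × ℕ) × Word) i => chk p.1.1 p.2 i &&
      (List.range i).all fun j => !decide ((ent p.1.1 p.2 j).getD [] = (ent p.1.1 p.2 i).getD []))
      (PT.range (PT.snd' PT.fst)) (PT.and (hchk.comp (PT.pair (PT.fst' (PT.fst' PT.fst))
        (PT.pair (PT.snd' PT.fst) PT.snd))) ?_)
    refine PT.all (p := fun (q : ((Word × ℕ) × Word) × ℕ) j =>
      !decide ((ent q.1.1.1 q.1.2 j).getD [] = (ent q.1.1.1 q.1.2 q.2).getD []))
      (PT.range PT.snd) (PT.not (PT.eqDec enc_word_injective ?_ ?_))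
    · exact PT.getD (hent.comp (PT.pair (PT.fst' (PT.fst' (PT.fst' PT.fst)))
        (PT.pair (PT.snd' (PT.fst' PT.fst)) PT.snd))) (PT.const [])
    · exact PT.getD (hent.comp (PT.pair (PT.fst' (PT.fst' (PT.fst' PT.fst)))
        (PT.pair (PT.snd' (PT.fst' PT.fst)) (PT.snd' PT.fst)))) (PT.const [])
  refine ⟨bl, Rel, fun p => tab p.1.1 p.1.2 p.2, hbl, hRel, htab, fun x F hFmem => ⟨?_, ?_⟩⟩
  · -- existence
    have hcert : ∀ t : Word, ∃ C : Word, t ∈ E → C.length ≤ t.length ^ cS + cS ∧ VS (t, C) = true := by
      intro t
      by_cases ht : t ∈ E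
      · obtain ⟨C, hC⟩ := (hSV t).1 ht
        exact ⟨C, fun _ => hC⟩
      · exact ⟨[], fun h => absurd h ht⟩
    choose C hC using hcert
    let g : Word → Word := fun t => pad (ℓ x) t ++ pad (ℓC x) (C t)
    have hmemS : ∀ t ∈ F.toList, t ∈ E ∧ t.length ≤ ℓ x := fun t ht =>
      (hFmem t).1 (Finset.mem_toList.1 ht)
    have hClen : ∀ t ∈ F.toList, (C t).length ≤ ℓC x := fun t ht => by
      obtain ⟨h1, h2⟩ := hmemS t ht
      have h3 := (hC t h1).1
      have h4 : t.length ^ cS ≤ ℓ x ^ cS := Nat.pow_le_pow_left h2 cS
      simp only [ℓC]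
      omega
    have hg : ∀ t ∈ F.toList, (g t).length = bl x := fun t ht => by
      simp only [g, List.length_append, bl]
      rw [length_pad (hmemS t ht).2, length_pad (hClen t ht)]
    have hlen : F.toList.length = F.card := Finset.length_toList F
    refine ⟨F.toList.flatMap g, ?_, ?_⟩
    · rw [length_blocks _ _ _ hg, hlen]
    · have hblock : ∀ i (hi : i < F.toList.length),
          ent x (F.toList.flatMap g) i = some F.toList[i] ∧
          crt x (F.toList.flatMap g) i = some (C F.toList[i]) := by
        intro i hi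
        have hti : F.toList[i] ∈ F.toList := List.getElem_mem _
        have h1 := block_take F.toList g (bl x) hg i hi
        have h2 : (pad (ℓ x) F.toList[i]).length = ℓ x + 1 := length_pad (hmemS _ hti).2
        have h3 : (pad (ℓC x) (C F.toList[i])).length = ℓC x + 1 := length_pad (hClen _ hti)
        constructor
        · have h4 : ((F.toList.flatMap g).drop (i * bl x)).take (ℓ x + 1) =
              pad (ℓ x) F.toList[i] := by
            have h5 : ((((F.toList.flatMap g).drop (i * bl x)).take (bl x))).take (ℓ x + 1) =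
                ((F.toList.flatMap g).drop (i * bl x)).take (ℓ x + 1) := by
              rw [List.take_take]
              congr 1
              simp only [bl]; omega
            rw [← h5, h1]
            simp only [g]
            rw [← h2, List.take_left]
          simp only [ent]
          rw [h4, strip_pad]
        · have h4 : ((F.toList.flatMap g).drop (i * bl x + (ℓ x + 1))).take (ℓC x + 1) =
              pad (ℓC x) (C F.toList[i]) := by
            have h5 : (((((F.toList.flatMap g).drop (i * bl x)).take (bl x))).drop (ℓ x + 1)) =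
                ((F.toList.flatMap g).drop (i * bl x + (ℓ x + 1))).take (ℓC x + 1) := by
              rw [List.drop_take, List.drop_drop]
              congr 1
              simp only [bl]; omega
            rw [← h5, h1]
            simp only [g]
            rw [← h2, List.drop_left]
          simp only [crt]
          rw [h4, strip_pad]
      simp only [Rel, List.all_eq_true, List.mem_range, Bool.and_eq_true, Bool.not_eq_true',
        decide_eq_false_iff_not]
      intro i hi
      rw [← hlen] at hi
      obtain ⟨h1, h2⟩ := hblock i hi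
      have hti : F.toList[i] ∈ F.toList := List.getElem_mem _
      refine ⟨?_, fun j hj => ?_⟩
      · simp only [chk, h1, h2, Option.isSome_some, Option.getD_some, Bool.true_and,
          Bool.and_eq_true, decide_eq_true_eq]
        exact hC _ (hmemS _ hti).1
      · obtain ⟨h3, _⟩ := hblock j (by omega)
        rw [h1, h3]
        simp only [Option.getD_some]
        intro h
        have := (Finset.nodup_toList F).getElem_inj_iff.1 h
        omega
  · -- correctness of the table
    intro w hwl hR
    simp only [Rel, List.all_eq_true, List.mem_range, Bool.and_eq_true, Bool.not_eq_true',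
        decide_eq_false_iff_not] at hR
    have hlenT : (tab x F.card w).length = F.card := by simp [tab]
    have hgetT : ∀ i (hi : i < F.card), (tab x F.card w)[i]'(by rw [hlenT]; exact hi) =
        (ent x w i).getD [] := fun i hi => by simp [tab]
    have hnd : (tab x F.card w).Nodup := by
      rw [List.nodup_iff_injective_get]
      intro ⟨i, hi⟩ ⟨j, hj⟩ hij
      rw [hlenT] at hi hj
      simp only [List.get_eq_getElem, hgetT i hi, hgetT j hj] at hij
      rcases lt_trichotomy i j with h | h | h
      · exact absurd hij ((hR j hj).2 i h)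
      · exact Fin.ext h
      · exact absurd hij.symm ((hR i hi).2 j h)
    have hsub : (tab x F.card w).toFinset ⊆ F := by
      intro t ht
      rw [List.mem_toFinset] at ht
      simp only [tab, List.mem_map, List.mem_range] at ht
      obtain ⟨i, hi, rfl⟩ := ht
      have h1 := (hR i hi).1
      simp only [chk, Bool.and_eq_true, decide_eq_true_eq, Option.isSome_iff_exists] at h1
      obtain ⟨⟨t, ht⟩, _, h2, h3⟩ := h1
      rw [ht] at h2 h3 ⊢
      simp only [Option.getD_some] at h2 h3 ⊢
      refine (hFmem t).2 ⟨(hSV t).2 ⟨_, h2, h3⟩, ?_⟩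
      have h4 := length_of_strip ht
      have h5 : ((w.drop (i * bl x)).take (ℓ x + 1)).length ≤ ℓ x + 1 := List.length_take_le _ _
      omega
    have heq : (tab x F.card w).toFinset = F := by
      refine Finset.eq_of_subset_of_card_le hsub ?_
      rw [List.toFinset_card_of_nodup hnd, hlenT]
    intro t
    show t ∈ tab x F.card w ↔ t ∈ F
    rw [← List.mem_toFinset, heq]

end Pool.Agent.Lib.MP_634427_lc
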