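import Pool.Agent.Lib.MP_634427_lc.Turing
import Pool.Agent.Lib.MP_634427_lc.TableCert
import Pool.Agent.Lib.MP_634427_lc.Depth
import Pool.Agent.Lib.MP_634427_lc.PolylogModel

/-!
# Sparse sets at polylogarithmic distance from a set in NP
-/

namespace Pool.Agent.Lib.MP_634427_lc

open BT

/-- symmetric difference of tables -/
def symT (A B : List Word) : List Word :=
  (A.filter fun w => !memT B w) ++ B.filter fun w => !memT A w

lemma mem_symT {A B : List Word} {v : Word} : v ∈ symT A B ↔ ¬ (v ∈ A ↔ v ∈ B) := by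
  have h1 : memT A v = true ↔ v ∈ A := memT_iff A v
  have h2 : memT B v = true ↔ v ∈ B := memT_iff B v
  simp only [symT, List.mem_append, List.mem_filter, Bool.not_eq_true', Bool.eq_false_iff, ne_eq,
    h1, h2]
  tauto

lemma PT.symT {γ : Type} [Enc γ] {A B : γ → List Word} (hA : PT A) (hB : PT B) :
    PT fun c => MP_634427_lc.symT (A c) (B c) :=
  PT.append
    (PT.filter (p := fun c w => !MP_634427_lc.memT (B c) w) hA
      (PT.not (PT.memT (hB.comp PT.fst) PT.snd)))
    (PT.filter (p := fun c w => !MP_634427_lc.memT (A c) w) hB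
      (PT.not (PT.memT (hA.comp PT.fst) PT.snd)))

/-- all words asked on the walk with table `T` -/
def along (ask : Word → List Word → Word → Bool) (askd : Word → List Word → Word → List Word)
    (m : Word → ℕ) (x : Word) (T : List Word) : List Word :=
  (List.range (m x)).flatMap fun i => askd x T (walk (ask x T) i ++ [false])

lemma pt_pad {γ : Type} [Enc γ] {B : γ → ℕ} {u : γ → Word} (hB : PT B) (hu : PT u) :
    PT fun c => pad (B c) (u c) :=
  PT.append (PT.replicate (PT.sub hB (PT.length hu)) (PT.const false))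
    (PT.cons (PT.const true) hu)

/-- the word in a block -/
def unpad (B : ℕ) (u : Word) : List Word :=
  bif decide (u.length = B + 1) then (match strip u with | none => [] | some v => [v]) else []

lemma pt_unpad {γ : Type} [Enc γ] {B : γ → ℕ} {u : γ → Word} (hB : PT B) (hu : PT u) :
    PT fun c => unpad (B c) (u c) :=
  PT.cond (PT.eqNat (PT.length hu) (PT.succ hB))
    ((PT.casesOption (g := fun (_ : γ) v => [v]) (pt_strip hu) (PT.const ([] : List Word))
      (PT.cons PT.snd (PT.const []))).of_eq fun c => by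
        rcases strip (u c) <;> rfl) (PT.const [])

lemma mem_unpad_pad {B : ℕ} {v : Word} (hv : v.length ≤ B) : v ∈ unpad B (pad B v) := by
  simp [unpad, length_pad hv, strip_pad]

lemma length_of_mem_unpad {B : ℕ} {u v : Word} (h : v ∈ unpad B u) : v.length ≤ B := by
  unfold unpad at h
  by_cases h1 : u.length = B + 1
  · rw [decide_eq_true h1, cond_true] at h
    rcases hs : strip u with _ | w
    · rw [hs] at h; simp at h
    · rw [hs] at h
      simp only [List.mem_singleton] at h
      have := length_of_strip hs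
      rw [h]; omega
  · rw [decide_eq_false h1, cond_false] at h
    simp at h

section walks

variable {ask : Word → List Word → Word → Bool} {askd : Word → List Word → Word → List Word}
  {m : Word → ℕ}

lemma walk_tcongr {T T' : List Word} (h : ∀ x w, ask x T w = ask x T' w) (x : Word) (i : ℕ) :
    walk (ask x T) i = walk (ask x T') i := by
  have h1 : ask x T = ask x T' := funext (h x)
  rw [h1]

lemma along_congr {x : Word} {T T' : List Word}
    (h : ∀ w, ask x T w = ask x T' w ∧ askd x T w = askd x T' w) :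
    along ask askd m x T = along ask askd m x T' := by
  have h1 : ask x T = ask x T' := funext fun w => (h w).1
  have h2 : askd x T = askd x T' := funext fun w => (h w).2
  unfold along
  rw [h1, h2]

lemma pt_walkA (hask : PT fun p : Word × List Word × Word => ask p.1 p.2.1 p.2.2) {γ : Type}
    [Enc γ] {x : γ → Word} {T : γ → List Word} {i : γ → ℕ} (hx : PT x) (hT : PT T) (hi : PT i) :
    PT fun c => walk (ask (x c) (T c)) (i c) :=
  pt_walk (ask := fun c w => ask (x c) (T c) w)
    (hask.comp (PT.pair (hx.comp PT.fst) (PT.pair (hT.comp PT.fst) PT.snd))) hi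

lemma pt_along (hask : PT fun p : Word × List Word × Word => ask p.1 p.2.1 p.2.2)
    (haskd : PT fun p : Word × List Word × Word => askd p.1 p.2.1 p.2.2) (hm : PT m) {γ : Type}
    [Enc γ] {x : γ → Word} {T : γ → List Word} (hx : PT x) (hT : PT T) :
    PT fun c => along ask askd m (x c) (T c) :=
  PT.flatMap (f := fun c i => askd (x c) (T c) (walk (ask (x c) (T c)) i ++ [false]))
    (PT.range (hm.comp hx)) (haskd.comp (PT.pair (hx.comp PT.fst) (PT.pair (hT.comp PT.fst)
      (PT.append (pt_walkA hask (hx.comp PT.fst) (hT.comp PT.fst) PT.snd) (PT.const [false])))))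

lemma mem_along {x : Word} {T : List Word} {v : Word} : v ∈ along ask askd m x T ↔
    ∃ i < m x, v ∈ askd x T (walk (ask x T) i ++ [false]) := by
  simp [along]

variable {e : ℕ} (he : ∀ x T w, w.length ≤ m x → sz (askd x T w) ≤ (sz x + 2) ^ e)

include he

lemma length_mem_along {x : Word} {T : List Word} {v : Word} (hv : v ∈ along ask askd m x T) :
    v.length ≤ (sz x + 2) ^ e := by
  obtain ⟨i, hi, hv⟩ := mem_along.1 hv
  have h1 := he x T (walk (ask x T) i ++ [false]) (by simp [length_walk]; omega)
  have h2 := sz_mem_le hv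
  have h3 := length_le_sz v
  omega

lemma length_along_le (x : Word) (T : List Word) :
    (along ask askd m x T).length ≤ m x * (sz x + 2) ^ e := by
  have key : ∀ k ≤ m x, ((List.range k).flatMap fun i =>
      askd x T (walk (ask x T) i ++ [false])).length ≤ k * (sz x + 2) ^ e := by
    intro k hk
    induction k with
    | zero => simp
    | succ k ih =>
      rw [List.range_succ, List.flatMap_append, List.length_append, List.flatMap_singleton]
      have h1 := ih (by omega)
      have h2 := he x T (walk (ask x T) k ++ [false]) (by simp [length_walk]; omega)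
      have h3 := length_le_sz (askd x T (walk (ask x T) k ++ [false]))
      rw [Nat.succ_mul]
      omega
  exact key _ le_rfl

end walks

/-- Candidates for the words asked on the walk, and for the final word of the walk, with the
table `E ∆ T`, where the number of relevant words of `E` is at most `B`. -/
theorem exists_steps (hP : ProjCands) (E : Set Word) (hE : InNP E)
    {ask : Word → List Word → Word → Bool} {askd : Word → List Word → Word → List Word}
    {m : Word → ℕ} {e : ℕ} (hm : PT m)
    (hask : PT fun p : Word × List Word × Word => ask p.1 p.2.1 p.2.2)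
    (haskd : PT fun p : Word × List Word × Word => askd p.1 p.2.1 p.2.2)
    (he : ∀ x T w, w.length ≤ m x → sz (askd x T w) ≤ (sz x + 2) ^ e)
    (hcongr : ∀ x T T' w, (∀ v, v ∈ T ↔ v ∈ T') → ask x T w = ask x T' w ∧
      askd x T w = askd x T' w) (B : Word → ℕ) (hB : PT B) :
    ∃ (next : Word × List Word → List Word) (fin : Word × List Word → List Word), PT next ∧
      PT fin ∧ (∀ p, ∀ v ∈ next p, v.length ≤ (sz p.1 + 2) ^ e) ∧
      ∀ x (F : Finset Word) (TD : List Word),
        (∀ w, w ∈ F ↔ w ∈ E ∧ w.length ≤ (sz x + 2) ^ e) → F.card ≤ B x →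
        (∀ v ∈ along ask askd m x (symT F.toList TD), v ∈ next (x, TD)) ∧
        walk (ask x (symT F.toList TD)) (m x) ∈ fin (x, TD) := by
  obtain ⟨ℓ, hℓ0⟩ : ∃ ℓ : Word → ℕ, ℓ = fun x => (sz x + 2) ^ e := ⟨_, rfl⟩
  have hℓ : PT ℓ := by
    rw [hℓ0]; exact PT.pow (PT.add (PT.size PT.id) (PT.const 2)) e
  have hℓx : ∀ x : Word, (sz x + 2) ^ e = ℓ x := fun x => by rw [hℓ0]
  simp only [hℓx] at he ⊢
  obtain ⟨bl, Rel, tab, hbl, hRel, htab, hcert⟩ := exists_table_cert E hE ℓ hℓ
  -- the candidates for the final word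
  have h1 : PT fun p : ((Word × List Word) × ℕ) × Word => Rel ((p.1.1.1, p.1.2), p.2) :=
    hRel.comp (PT.pair (PT.pair (PT.fst' (PT.fst' PT.fst)) (PT.snd' PT.fst)) PT.snd)
  have htab1 : PT fun p : ((Word × List Word) × ℕ) × Word =>
      symT (tab ((p.1.1.1, p.1.2), p.2)) p.1.1.2 :=
    PT.symT (htab.comp (PT.pair (PT.pair (PT.fst' (PT.fst' PT.fst)) (PT.snd' PT.fst)) PT.snd))
      (PT.snd' (PT.fst' PT.fst))
  have h2 : PT fun p : ((Word × List Word) × ℕ) × Word =>
      walk (ask p.1.1.1 (symT (tab ((p.1.1.1, p.1.2), p.2)) p.1.1.2)) (m p.1.1.1) :=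
    pt_walkA hask (PT.fst' (PT.fst' PT.fst)) htab1 (hm.comp (PT.fst' (PT.fst' PT.fst)))
  have h3 : PT fun p : (Word × List Word) × ℕ => p.2 * bl p.1.1 :=
    PT.mul PT.snd (hbl.comp (PT.fst' PT.fst))
  have h4 : PT fun p : (Word × List Word) × ℕ => m p.1.1 := hm.comp (PT.fst' PT.fst)
  obtain ⟨cand, hcand, hc⟩ := hP _ _ _ _ h1 h2 h3 h4
  -- the candidates for the words asked
  have h1' : PT fun p : (((Word × List Word) × ℕ) × ℕ) × Word =>
      Rel ((p.1.1.1.1, p.1.1.2), p.2) :=
    hRel.comp (PT.pair (PT.pair (PT.fst' (PT.fst' (PT.fst' PT.fst))) (PT.snd' (PT.fst' PT.fst)))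
      PT.snd)
  have h2' : PT fun p : (((Word × List Word) × ℕ) × ℕ) × Word =>
      pad (ℓ p.1.1.1.1) ((along ask askd m p.1.1.1.1
        (symT (tab ((p.1.1.1.1, p.1.1.2), p.2)) p.1.1.1.2)).getD p.1.2 []) :=
    pt_pad (hℓ.comp (PT.fst' (PT.fst' (PT.fst' PT.fst)))) (PT.getLD (PT.snd' PT.fst)
      (pt_along hask haskd hm (PT.fst' (PT.fst' (PT.fst' PT.fst)))
        (PT.symT (htab.comp (PT.pair (PT.pair (PT.fst' (PT.fst' (PT.fst' PT.fst)))
          (PT.snd' (PT.fst' PT.fst))) PT.snd)) (PT.snd' (PT.fst' (PT.fst' PT.fst)))))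
      (PT.const []))
  have h3' : PT fun p : ((Word × List Word) × ℕ) × ℕ => p.1.2 * bl p.1.1.1 :=
    PT.mul (PT.snd' PT.fst) (hbl.comp (PT.fst' (PT.fst' PT.fst)))
  have h4' : PT fun p : ((Word × List Word) × ℕ) × ℕ => ℓ p.1.1.1 + 1 :=
    PT.succ (hℓ.comp (PT.fst' (PT.fst' PT.fst)))
  obtain ⟨cand', hcand', hc'⟩ := hP _ _ _ _ h1' h2' h3' h4'
  have hJ : PT fun x : Word => m x * ℓ x := PT.mul hm hℓ
  refine ⟨fun p => (List.range (B p.1 + 1)).flatMap fun N =>
      (List.range (m p.1 * ℓ p.1)).flatMap fun i => (cand' ((p, N), i)).flatMap fun u =>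
        unpad (ℓ p.1) u,
    fun p => (List.range (B p.1 + 1)).flatMap fun N => cand (p, N), ?_, ?_, ?_, ?_⟩
  · refine PT.flatMap (f := fun (p : Word × List Word) N =>
      (List.range (m p.1 * ℓ p.1)).flatMap fun i => (cand' ((p, N), i)).flatMap fun u =>
        unpad (ℓ p.1) u) (PT.range (PT.succ (hB.comp PT.fst))) ?_
    refine PT.flatMap (f := fun (q : (Word × List Word) × ℕ) i =>
      (cand' ((q.1, q.2), i)).flatMap fun u => unpad (ℓ q.1.1) u)
      (PT.range (hJ.comp (PT.fst' PT.fst))) ?_
    exact PT.flatMap (f := fun (r : ((Word × List Word) × ℕ) × ℕ) u => unpad (ℓ r.1.1.1) u)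
      hcand' (pt_unpad (hℓ.comp (PT.fst' (PT.fst' (PT.fst' PT.fst)))) PT.snd)
  · exact PT.flatMap (f := fun (p : Word × List Word) N => cand (p, N))
      (PT.range (PT.succ (hB.comp PT.fst))) hcand
  · intro p v hv
    simp only [List.mem_flatMap] at hv
    obtain ⟨N, _, i, _, u, _, hv⟩ := hv
    exact length_of_mem_unpad hv
  · intro x F TD hF hFB
    obtain ⟨⟨w0, hw0, hRw0⟩, huniq⟩ := hcert x F hF
    have hsame : ∀ w : Word, w.length = F.card * bl x → Rel ((x, F.card), w) = true →
        ∀ v, v ∈ symT (tab ((x, F.card), w)) TD ↔ v ∈ symT F.toList TD := by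
      intro w hw hRw v
      rw [mem_symT, mem_symT, huniq w hw hRw, Finset.mem_toList]
    constructor
    · intro v hv
      obtain ⟨i, hi, hiv⟩ := List.mem_iff_getElem.1 hv
      have hvl : v.length ≤ ℓ x := by
        obtain ⟨i', hi', hv'⟩ := mem_along.1 hv
        have h5 := he x (symT F.toList TD) (walk (ask x (symT F.toList TD)) i' ++ [false])
          (by simp [length_walk]; omega)
        have h6 := sz_mem_le hv'
        have h7 := length_le_sz v
        omega
      have hlen : (along ask askd m x (symT F.toList TD)).length ≤ m x * ℓ x := by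
        have h5 := length_along_le (ask := ask) (askd := askd) (m := m) (e := e)
          (fun x T w h => by rw [hℓx]; exact he x T w h) x (symT F.toList TD)
        rwa [hℓx] at h5
      simp only [List.mem_flatMap, List.mem_range]
      refine ⟨F.card, by omega, i, by omega, pad (ℓ x) v, ?_, mem_unpad_pad hvl⟩
      refine hc' (((x, TD), F.card), i) (pad (ℓ x) v) (length_pad hvl) ⟨w0, hw0, hRw0⟩
        fun w hw hRw => ?_
      show pad (ℓ x) ((along ask askd m x (symT (tab ((x, F.card), w)) TD)).getD i []) = _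
      rw [along_congr fun w' => hcongr x _ _ w' (hsame w hw hRw), List.getD_eq_getElem _ _ hi, hiv]
    · simp only [List.mem_flatMap, List.mem_range]
      refine ⟨F.card, by omega, ?_⟩
      refine hc ((x, TD), F.card) _ (length_walk _ _) ⟨w0, hw0, hRw0⟩ fun w hw hRw => ?_
      have h5 : ask x (symT (tab ((x, F.card), w)) TD) = ask x (symT F.toList TD) :=
        funext fun w' => (hcongr x _ _ w' (hsame w hw hRw)).1
      show walk (ask x (symT (tab ((x, F.card), w)) TD)) (m x) = _
      rw [h5]

end Pool.Agent.Lib.MP_634427_lc
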