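import Pool.Agent.Lib.MP_634427_lc.Near
import Pool.Agent.Lib.MP_634427_lc.Polylog

/-!
# Sparse sets at polylogarithmic distance from a set in NP: the theorem
-/

namespace Pool.Agent.Lib.MP_634427_lc

open BT

section guess

variable (next : Word × List Word → List Word)

/-- extend the table by the `v`-th candidate (if there is one) -/
def stepG (x : Word) (T : List Word) (v : ℕ) : List Word :=
  ((next (x, T)).drop v).take 1 ++ T

/-- the table described by a sequence of choices -/
def tblG (x : Word) (y : List ℕ) : List Word := y.foldl (stepG next x) []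

variable {next} {e : ℕ} (hn : ∀ p, ∀ v ∈ next p, v.length ≤ (sz p.1 + 2) ^ e)

include hn

lemma sz_tblG_le (x : Word) (y : List ℕ) :
    sz (tblG next x y) ≤ y.length * (2 * (sz x + 2) ^ e + 1) := by
  unfold tblG
  induction y using List.reverseRecOn with
  | nil => simp
  | append_singleton y v ih =>
    rw [List.foldl_append, List.foldl_cons, List.foldl_nil, List.length_append]
    simp only [List.length_singleton]
    rw [Nat.add_mul, Nat.one_mul]
    generalize y.foldl (stepG next x) [] = T at ih ⊢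
    unfold stepG
    rw [sz_append]
    have h1 : sz (((next (x, T)).drop v).take 1) ≤ 2 * (sz x + 2) ^ e + 1 := by
      rcases h : (next (x, T)).drop v with _ | ⟨w, l⟩
      · simp
      · have h2 : w ∈ next (x, T) := List.mem_of_mem_drop (by rw [h]; exact List.mem_cons_self)
        have h3 : w.length ≤ (sz x + 2) ^ e := hn _ _ h2
        have h4 := sz_word_le w
        simp only [List.take_succ_cons, List.take_zero, sz_cons, sz_lnil]
        omega
    omega

lemma pt_tblG (hnext : PT next) {γ : Type} [Enc γ] {x : γ → Word} {y : γ → List ℕ} (hx : PT x)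
    (hy : PT y) : PT fun c => tblG next (x c) (y c) := by
  refine PT.foldl (f := fun c T v => stepG next (x c) T v) hy (PT.const []) ?_ ?_
  · exact PT.append (PT.take (PT.const 1) (PT.drop (PT.snd' PT.snd)
      (hnext.comp (PT.pair (hx.comp PT.fst) (PT.fst' PT.snd))))) (PT.fst' PT.snd)
  · obtain ⟨k1, hk1⟩ := hx.size_le
    obtain ⟨k2, hk2⟩ := hy.size_le
    obtain ⟨k, hk⟩ := PB.mul (⟨k2, fun n => le_rfl⟩ : PB fun n => (n + 2) ^ k2)
      (PB.add (PB.mul (PB.const 2) (PB.pow (PB.add (⟨k1, fun n => le_rfl⟩ :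
        PB fun n => (n + 2) ^ k1) (PB.const 2)) e)) (PB.const 1))
    refine ⟨k, fun c l' hl' => ?_⟩
    have h1 := sz_tblG_le hn (x c) l'
    unfold tblG at h1
    refine h1.trans (le_trans ?_ (hk (sz c)))
    have h2 := hk1 c
    have h3 := hk2 c
    have h4 := hl'.length_le
    have h5 := length_le_sz (y c)
    exact Nat.mul_le_mul (by omega) (Nat.add_le_add_right (Nat.mul_le_mul_left 2
      (Nat.pow_le_pow_left (by omega) e)) 1)

/-- A short sequence of guesses leads to a table that is good, if a table of members of `D` that is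
not yet good can always be extended. -/
theorem exists_guessG (D : Set Word) (x : Word) (Good : List Word → Prop)
    (hstep : ∀ T : List Word, (∀ w ∈ T, w ∈ D ∧ w.length ≤ (sz x + 2) ^ e) →
      Good T ∨ ∃ w ∈ next (x, T), w ∈ D ∧ w ∉ T) (n N : ℕ)
    (hN : ∀ T, sz T ≤ n * (2 * (sz x + 2) ^ e + 1) → (next (x, T)).length < N)
    (hD : {w ∈ D | w.length ≤ (sz x + 2) ^ e}.ncard < n) :
    ∃ y : List ℕ, y.length = n ∧ (∀ v ∈ y, v < N) ∧ Good (tblG next x y) := by
  classical
  have key : ∀ k ≤ n, ∃ y : List ℕ, y.length = k ∧ (∀ v ∈ y, v < N) ∧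
      (∀ w ∈ tblG next x y, w ∈ D ∧ w.length ≤ (sz x + 2) ^ e) ∧ (tblG next x y).Nodup ∧
      (Good (tblG next x y) ∨ (tblG next x y).length = k) := by
    intro k
    induction k with
    | zero =>
      intro _
      exact ⟨[], rfl, by simp, by simp [tblG], by simp [tblG], Or.inr (by simp [tblG])⟩
    | succ k ih =>
      intro hk
      obtain ⟨y, h1, h2, h3, h4, h5⟩ := ih (by omega)
      have htbl : ∀ v, tblG next x (y ++ [v]) = stepG next x (tblG next x y) v := fun v => by
        simp [tblG]
      have hlt : (next (x, tblG next x y)).length < N := hN _ ((sz_tblG_le hn x y).trans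
        (Nat.mul_le_mul_right _ (by omega)))
      rcases h5 with h5 | h5
      · refine ⟨y ++ [(next (x, tblG next x y)).length], by simp [h1], ?_, ?_⟩
        · intro v hv
          rcases List.mem_append.1 hv with hv | hv
          · exact h2 v hv
          · rw [List.mem_singleton.1 hv]; exact hlt
        · have h6 : stepG next x (tblG next x y) (next (x, tblG next x y)).length =
              tblG next x y := by
            rw [stepG, List.drop_eq_nil_of_le le_rfl]
            rfl
          rw [htbl, h6]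
          exact ⟨h3, h4, Or.inl h5⟩
      · rcases hstep _ h3 with h6 | ⟨w, hw, hwD, hwT⟩
        · refine ⟨y ++ [(next (x, tblG next x y)).length], by simp [h1], ?_, ?_⟩
          · intro v hv
            rcases List.mem_append.1 hv with hv | hv
            · exact h2 v hv
            · rw [List.mem_singleton.1 hv]; exact hlt
          · have h7 : stepG next x (tblG next x y) (next (x, tblG next x y)).length =
                tblG next x y := by
              rw [stepG, List.drop_eq_nil_of_le le_rfl]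
              rfl
            rw [htbl, h7]
            exact ⟨h3, h4, Or.inl h6⟩
        · obtain ⟨v, hv, hvw⟩ := List.mem_iff_getElem.1 hw
          have h7 : stepG next x (tblG next x y) v = w :: tblG next x y := by
            rw [stepG, List.drop_eq_getElem_cons hv, hvw]
            rfl
          refine ⟨y ++ [v], by simp [h1], ?_, ?_⟩
          · intro v' hv'
            rcases List.mem_append.1 hv' with hv' | hv'
            · exact h2 v' hv'
            · rw [List.mem_singleton.1 hv']; omega
          · rw [htbl, h7]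
            refine ⟨?_, List.nodup_cons.2 ⟨hwT, h4⟩, Or.inr (by simp [h5])⟩
            intro w' hw'
            rcases List.mem_cons.1 hw' with rfl | hw'
            · exact ⟨hwD, hn _ _ hw⟩
            · exact h3 w' hw'
  obtain ⟨y, h1, h2, h3, h4, h5⟩ := key n le_rfl
  refine ⟨y, h1, h2, ?_⟩
  rcases h5 with h5 | h5
  · exact h5
  · exfalso
    have h6 : (tblG next x y).toFinset.card = n := by
      rw [List.toFinset_card_of_nodup h4, h5]
    have h7 : ((tblG next x y).toFinset : Set Word) ⊆
        {w ∈ D | w.length ≤ (sz x + 2) ^ e} := by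
      intro w hw
      exact h3 w (by simpa using hw)
    have h8 := Set.ncard_le_ncard h7 (finite_words D _)
    rw [Set.ncard_coe_finset, h6] at h8
    omega

end guess

/-- If some table of members of the difference `D` between `S` and `E` does not lead to a witness,
then a further member of `D` is asked on the walk. -/
lemma near_step {S E : Set Word} {Rel : Word × Word → Bool}
    {ask : Word → List Word → Word → Bool} {askd : Word → List Word → Word → List Word}
    {m : Word → ℕ} {e : ℕ} (he : ∀ x T w, w.length ≤ m x → sz (askd x T w) ≤ (sz x + 2) ^ e)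
    (hask : ∀ x T w, (∀ v ∈ askd x T w, (v ∈ T ↔ v ∈ S)) →
      (ask x T w = true ↔ ∃ u : Word, (u.length = m x ∧ Rel (x, u) = true) ∧ w <+: u))
    (x : Word) (F : Finset Word) (hF : ∀ w, w ∈ F ↔ w ∈ E ∧ w.length ≤ (sz x + 2) ^ e)
    (hex : ∃ u : Word, u.length = m x ∧ Rel (x, u) = true) (T : List Word)
    (hT : ∀ w ∈ T, ¬ (w ∈ S ↔ w ∈ E)) :
    Rel (x, walk (ask x (symT F.toList T)) (m x)) = true ∨
      ∃ w ∈ along ask askd m x (symT F.toList T), ¬ (w ∈ S ↔ w ∈ E) ∧ w ∉ T := by
  classical
  by_contra hcon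
  obtain ⟨h1, h2'⟩ := not_or.1 hcon
  have h2 : ∀ v ∈ along ask askd m x (symT F.toList T), ¬ (v ∈ S ↔ v ∈ E) → v ∈ T :=
    fun v hv h => by_contra fun hvT => h2' ⟨v, hv, h, hvT⟩
  refine h1 ?_
  let ask0 : Word → Bool := fun w =>
    decide (∃ u : Word, (u.length = m x ∧ Rel (x, u) = true) ∧ w <+: u)
  have hright : ∀ v ∈ along ask askd m x (symT F.toList T),
      (v ∈ symT F.toList T ↔ v ∈ S) := by
    intro v hv
    have h3 := length_mem_along he hv
    have h4 : v ∈ F ↔ v ∈ E := by rw [hF]; exact and_iff_left h3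
    have h5 : v ∈ T ↔ ¬ (v ∈ S ↔ v ∈ E) := ⟨hT v, fun h => h2 v hv h⟩
    rw [mem_symT, Finset.mem_toList, h4, h5]
    tauto
  have h3 : walk (ask x (symT F.toList T)) (m x) = walk ask0 (m x) := by
    refine walk_congr' (m x) (fun i hi => ?_) (m x) le_rfl
    rw [Bool.eq_iff_iff]
    simp only [ask0, decide_eq_true_eq]
    exact hask x _ _ fun v hv => hright v (mem_along.2 ⟨i, hi, hv⟩)
  rw [h3]
  exact (walk_full (W := fun u : Word => u.length = m x ∧ Rel (x, u) = true) (m := m x)
    (fun u hu => hu.1) (fun w hw => by simp only [ask0, decide_eq_true_eq]) hex).2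

/-- Let `S` be a sparse set that differs from a set `E` in NP by a set of polylogarithmic density.
If `S` is hard for NP under Turing reductions, and unique projections of witnesses have short lists
of candidates, then P = NP. -/
theorem near_inP (hP : ProjCands) (S E : Set Word) (hE : InNP E) (hsp : Sparse S)
    (hD : PolylogDense {w | ¬ (w ∈ S ↔ w ∈ E)}) (hard : ∀ A, InNP A → TuringRed A S)
    (L : Set Word) (hL : InNP L) : InP L := by
  classical
  obtain ⟨V, c, hV, hLV⟩ := hL
  obtain ⟨iso, hiso, hlen, hprop⟩ := exists_isofam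
  obtain ⟨c1, hc1⟩ := hD
  obtain ⟨c2, hc2⟩ := hsp
  have hm : PT fun x : Word => wb c x + 1 := PT.succ (pt_wb c)
  obtain ⟨ask, askd, e, hask, haskd, he, hcongr, hspec⟩ :=
    exists_oracle S hard (relx V) (fun x => wb c x + 1) (pt_relx hV) hm
  -- the census bound
  have hℓ : PT fun x : Word => (sz x + 2) ^ e := PT.pow (PT.add (PT.size PT.id) (PT.const 2)) e
  obtain ⟨B, hB0⟩ : ∃ B : Word → ℕ, B = fun x => (((sz x + 2) ^ e) ^ c2 + c2) +
      (((sz x + 2) ^ e) ^ c1 + c1) := ⟨_, rfl⟩
  have hB : PT B := by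
    rw [hB0]
    exact PT.add (PT.add (PT.pow hℓ c2) (PT.const c2)) (PT.add (PT.pow hℓ c1) (PT.const c1))
  obtain ⟨next, fin, hnext, hfin, hnlen, hstepF⟩ :=
    exists_steps hP E hE hm hask haskd he hcongr B hB
  obtain ⟨k, hk⟩ := hnext.size_le
  obtain ⟨j, hj0⟩ : ∃ j, j = (e + 2) * c1 + c1 + 1 := ⟨_, rfl⟩
  obtain ⟨leaf, hleaf0⟩ : ∃ leaf : Word × List ℕ → Bool, leaf = fun p =>
    (fin (p.1, tblG next p.1 p.2)).any fun u =>
      decide (u.length = wb c p.1 + 1) && relx V (p.1, u) := ⟨_, rfl⟩
  have hleaf : PT leaf := by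
    rw [hleaf0]
    exact PT.any (p := fun (p : Word × List ℕ) u =>
      decide (u.length = wb c p.1 + 1) && relx V (p.1, u))
      (hfin.comp (PT.pair PT.fst (pt_tblG hnlen hnext PT.fst PT.snd)))
      (PT.and (PT.eqNat (PT.length PT.snd) (hm.comp (PT.fst' PT.fst)))
        ((pt_relx hV).comp (PT.pair (PT.fst' PT.fst) PT.snd)))
  have hN : PT fun x : Word =>
      (sz x + mu x ^ j * (2 * (sz x + 2) ^ e + 1) + 1 + 2) ^ k + 1 :=
    PT.succ (PT.pow (PT.add (PT.succ (PT.add (PT.size PT.id) (PT.mul (PT.pow pt_mu j)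
      (PT.succ (PT.mul (PT.const 2) hℓ))))) (PT.const 2)) k)
  obtain ⟨sol, hsol, hsolP⟩ := searchable_pow hP iso hiso hlen hprop (α := Word) j _ leaf hN hleaf
  refine ⟨fun x => leaf (x, sol x), hleaf.comp (PT.pair PT.id hsol), fun x => ?_⟩
  constructor
  · intro hx
    obtain ⟨u0, hu0, hVu0⟩ := (hLV x).1 hx
    have hex : ∃ u : Word, u.length = wb c x + 1 ∧ relx V (x, u) = true :=
      ⟨pad (wb c x) u0, length_pad hu0, by rw [relx_pad]; exact hVu0⟩
    obtain ⟨F, hF0⟩ : ∃ F : Finset Word, F = (finite_words E ((sz x + 2) ^ e)).toFinset := ⟨_, rfl⟩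
    have hF : ∀ w, w ∈ F ↔ w ∈ E ∧ w.length ≤ (sz x + 2) ^ e := fun w => by
      rw [hF0, Set.Finite.mem_toFinset]; rfl
    have hFB : F.card ≤ B x := by
      have h1 : (F : Set Word) ⊆ {w ∈ S | w.length ≤ (sz x + 2) ^ e} ∪
          {w ∈ {w | ¬ (w ∈ S ↔ w ∈ E)} | w.length ≤ (sz x + 2) ^ e} := by
        intro w hw
        have h2 := (hF w).1 (by simpa using hw)
        by_cases hwS : w ∈ S
        · exact Or.inl ⟨hwS, h2.2⟩
        · refine Or.inr ⟨fun h => hwS (h.2 h2.1), h2.2⟩
      have h2 := Set.ncard_le_ncard h1 ((finite_words S _).union (finite_words _ _))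
      have h3 := Set.ncard_union_le {w ∈ S | w.length ≤ (sz x + 2) ^ e}
          {w ∈ {w | ¬ (w ∈ S ↔ w ∈ E)} | w.length ≤ (sz x + 2) ^ e}
      have h4 := hc2 ((sz x + 2) ^ e)
      have h5 := hc1 ((sz x + 2) ^ e)
      have h6 : Nat.log 2 ((sz x + 2) ^ e) ^ c1 ≤ ((sz x + 2) ^ e) ^ c1 :=
        Nat.pow_le_pow_left (Nat.log_le_self _ _) c1
      rw [Set.ncard_coe_finset] at h2
      rw [hB0]
      show F.card ≤ (((sz x + 2) ^ e) ^ c2 + c2) + (((sz x + 2) ^ e) ^ c1 + c1)
      omega
    obtain ⟨y, hy1, hy2, hy3⟩ := exists_guessG hnlen {w | ¬ (w ∈ S ↔ w ∈ E)} x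
      (fun T => relx V (x, walk (ask x (symT F.toList T)) (wb c x + 1)) = true)
      (fun T hT => by
        rcases near_step he hspec x F hF hex T fun w hw => (hT w hw).1 with h1 | ⟨w, h1, h2, h3⟩
        · exact Or.inl h1
        · exact Or.inr ⟨w, (hstepF x F T hF hFB).1 w h1, h2, h3⟩)
      (mu x ^ j) ((sz x + mu x ^ j * (2 * (sz x + 2) ^ e + 1) + 1 + 2) ^ k + 1)
      (fun T hT => by
        refine Nat.lt_succ_of_le ((length_le_sz _).trans ((hk (x, T)).trans
          (Nat.pow_le_pow_left ?_ k)))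
        rw [sz_pair]
        omega)
      (by rw [hj0]; exact lt_of_le_of_lt (hc1 _) (polylog_lt x e c1))
    refine (hsolP x ⟨y, hy1, hy2, ?_⟩).2.2
    rw [hleaf0]
    simp only [List.any_eq_true, Bool.and_eq_true, decide_eq_true_eq]
    exact ⟨_, (hstepF x F _ hF hFB).2, length_walk _ _, hy3⟩
  · intro h
    rw [hleaf0] at h
    simp only [List.any_eq_true, Bool.and_eq_true, decide_eq_true_eq] at h
    obtain ⟨u, _, h1, h2⟩ := h
    obtain ⟨u0, hu0, _, hVu0⟩ := of_relx h2 h1
    exact (hLV x).2 ⟨u0, hu0, hVu0⟩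

end Pool.Agent.Lib.MP_634427_lc
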