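import Pool.Agent.Lib.MP_634427_lc.Model

/-!
# Basic polynomial-time functions on binary trees
-/

namespace Pool.Agent.Lib.MP_634427_lc

namespace BT

@[simp] lemma left_node (l r : BT) : (node l r).left = l := rfl
@[simp] lemma right_node (l r : BT) : (node l r).right = r := rfl
@[simp] lemma left_nil : nil.left = nil := rfl
@[simp] lemma right_nil : nil.right = nil := rfl
@[simp] lemma size_nil : nil.size = 0 := rfl
@[simp] lemma size_node (l r : BT) : (node l r).size = l.size + r.size + 1 := rfl

lemma size_left_add_right_le (t : BT) : t.left.size + t.right.size ≤ t.size := by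
  cases t <;> simp

lemma size_left_le (t : BT) : t.left.size ≤ t.size := by
  have := size_left_add_right_le t; omega

lemma size_right_le (t : BT) : t.right.size ≤ t.size := by
  have := size_left_add_right_le t; omega

end BT

/-! ## Arithmetic of polynomial bounds -/

lemma pb_add {x a b : ℕ} (hx : 2 ≤ x) : x ^ a + x ^ b ≤ x ^ (a + b + 1) := by
  have h1 : x ^ a ≤ x ^ (a + b) := Nat.pow_le_pow_right (by omega) (by omega)
  have h2 : x ^ b ≤ x ^ (a + b) := Nat.pow_le_pow_right (by omega) (by omega)
  calc x ^ a + x ^ b ≤ 2 * x ^ (a + b) := by omega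
    _ ≤ x * x ^ (a + b) := Nat.mul_le_mul_right _ hx
    _ = x ^ (a + b + 1) := by rw [pow_succ]; ring

lemma pb_add_const {x a : ℕ} (hx : 2 ≤ x) (k : ℕ) : x ^ a + k ≤ x ^ (a + k + 1) := by
  have : k ≤ x ^ k := by
    calc k ≤ 2 ^ k := Nat.lt_two_pow_self.le
      _ ≤ x ^ k := Nat.pow_le_pow_left hx k
  calc x ^ a + k ≤ x ^ a + x ^ k := by omega
    _ ≤ x ^ (a + k + 1) := pb_add hx

/-- `F` is bounded by a polynomial. -/
def PB (F : ℕ → ℕ) : Prop := ∃ c, ∀ n, F n ≤ (n + 2) ^ c

namespace PB

lemma id : PB fun n => n := ⟨1, fun n => by simp⟩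

lemma const (k : ℕ) : PB fun _ => k :=
  ⟨k, fun n => by
    calc k ≤ 2 ^ k := Nat.lt_two_pow_self.le
      _ ≤ (n + 2) ^ k := Nat.pow_le_pow_left (by omega) k⟩

lemma mono {F G : ℕ → ℕ} (hG : PB G) (h : ∀ n, F n ≤ G n) : PB F := by
  obtain ⟨c, hc⟩ := hG
  exact ⟨c, fun n => (h n).trans (hc n)⟩

lemma add {F G : ℕ → ℕ} (hF : PB F) (hG : PB G) : PB fun n => F n + G n := by
  obtain ⟨a, ha⟩ := hF
  obtain ⟨b, hb⟩ := hG
  exact ⟨a + b + 1, fun n => (Nat.add_le_add (ha n) (hb n)).trans (pb_add (by omega))⟩

lemma mul {F G : ℕ → ℕ} (hF : PB F) (hG : PB G) : PB fun n => F n * G n := by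
  obtain ⟨a, ha⟩ := hF
  obtain ⟨b, hb⟩ := hG
  refine ⟨a + b, fun n => ?_⟩
  calc F n * G n ≤ (n + 2) ^ a * (n + 2) ^ b := Nat.mul_le_mul (ha n) (hb n)
    _ = (n + 2) ^ (a + b) := by rw [pow_add]

lemma pow {F : ℕ → ℕ} (hF : PB F) (k : ℕ) : PB fun n => F n ^ k := by
  obtain ⟨a, ha⟩ := hF
  refine ⟨a * k, fun n => ?_⟩
  calc F n ^ k ≤ ((n + 2) ^ a) ^ k := Nat.pow_le_pow_left (ha n) k
    _ = (n + 2) ^ (a * k) := by rw [pow_mul]

lemma comp {F G : ℕ → ℕ} (hF : PB F) (hG : PB G) : PB fun n => F (G n) := by
  obtain ⟨c, hc⟩ := hF
  exact ((hG.add (const 2)).pow c).mono fun n => hc (G n)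

end PB

/-! ## Size bounds of polynomial-time functions -/

lemma PolyTime.size_le {f : BT → BT} (hf : PolyTime f) :
    ∃ c, ∀ x, (f x).size ≤ (x.size + 2) ^ c := by
  induction hf with
  | id => exact ⟨1, fun x => by simp⟩
  | nil => exact ⟨0, fun x => by simp⟩
  | left => exact ⟨1, fun x => by have := x.size_left_le; simp; omega⟩
  | right => exact ⟨1, fun x => by have := x.size_right_le; simp; omega⟩
  | node _ _ ihf ihg =>
    obtain ⟨a, ha⟩ := ihf
    obtain ⟨b, hb⟩ := ihg
    obtain ⟨c, hc⟩ := PB.add (PB.add ⟨a, fun n => le_rfl⟩ ⟨b, fun n => le_rfl⟩) (PB.const 1)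
    exact ⟨c, fun x => le_trans (by simpa using Nat.add_le_add (ha x) (hb x)) (hc x.size)⟩
  | comp _ _ ihf ihg =>
    obtain ⟨a, ha⟩ := ihf
    obtain ⟨b, hb⟩ := ihg
    obtain ⟨c, hc⟩ := PB.comp (F := fun n => (n + 2) ^ a) (G := fun n => (n + 2) ^ b)
      ⟨a, fun n => le_rfl⟩ ⟨b, fun n => le_rfl⟩
    refine ⟨c, fun x => (ha _).trans (le_trans ?_ (hc x.size))⟩
    exact Nat.pow_le_pow_left (by have := hb x; omega) a
  | recur c _ _ hb _ _ =>
    refine ⟨c, fun x => (hb _ _).trans (Nat.pow_le_pow_left ?_ c)⟩
    have := x.size_left_add_right_le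
    omega

/-! ## Basic untyped functions -/

section basic

open BT

/-- right-spine recursion -/
def recurR (g h : BT → BT) (x : BT) : BT → BT
  | nil => g x
  | node a b => h (node x (node a (node b (recurR g h x b))))

lemma recurR_eq (g h : BT → BT) (x y : BT) :
    recurR g h x y = BT.recur g (fun t => h (BT.node t.left (BT.node t.right.left.left
      (BT.node t.right.left.right t.right.right.right)))) x y := by
  induction y with
  | nil => rfl
  | node a b _ ihb => simp only [recurR, BT.recur, left_node, right_node, ihb]

/-- `recurR` applied to two functions. -/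
lemma pt_recurR {g h : BT → BT} (c : ℕ) (hg : PolyTime g) (hh : PolyTime h)
    (hb : ∀ x y, (recurR g h x y).size ≤ (x.size + y.size + 2) ^ c)
    {f1 f2 : BT → BT} (h1 : PolyTime f1) (h2 : PolyTime f2) :
    PolyTime fun t => recurR g h (f1 t) (f2 t) := by
  have h1' : PolyTime fun t => h (BT.node t.left (BT.node t.right.left.left
      (BT.node t.right.left.right t.right.right.right))) :=
    .comp hh (.node .left (.node (.comp .left (.comp .left .right))
      (.node (.comp .right (.comp .left .right)) (.comp .right (.comp .right .right)))))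
  have h2' := PolyTime.recur c hg h1' (fun x y => by rw [← recurR_eq]; exact hb x y)
  have h3 := PolyTime.comp h2' (.node h1 h2)
  simpa only [left_node, right_node, ← recurR_eq] using h3

/-- `if c = nil then a else b`. -/
def tcond (c a b : BT) : BT := match c with | nil => a | node _ _ => b

@[simp] lemma tcond_nil (a b : BT) : tcond nil a b = a := rfl
@[simp] lemma tcond_node (l r a b : BT) : tcond (node l r) a b = b := rfl

lemma pt_tcond {c f g : BT → BT} (hc : PolyTime c) (hf : PolyTime f)
    (hg : PolyTime g) : PolyTime fun x => tcond (c x) (f x) (g x) := by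
  have key : ∀ x y, recurR f (fun t => g t.left) x y = tcond y (f x) (g x) := by
    intro x y; cases y <;> rfl
  obtain ⟨a, ha⟩ := hf.size_le
  obtain ⟨b, hb⟩ := hg.size_le
  have h := pt_recurR (a + b) hf (.comp hg .left) (fun x y => by
    rw [key]
    have h1 : (x.size + 2) ^ a ≤ (x.size + y.size + 2) ^ (a + b) :=
      (Nat.pow_le_pow_left (by omega) a).trans (Nat.pow_le_pow_right (by omega) (by omega))
    have h2 : (x.size + 2) ^ b ≤ (x.size + y.size + 2) ^ (a + b) :=
      (Nat.pow_le_pow_left (by omega) b).trans (Nat.pow_le_pow_right (by omega) (by omega))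
    cases y with
    | nil => exact (ha x).trans h1
    | node _ _ => exact (hb x).trans h2) .id hc
  simpa only [key] using h

/-- Unary numbers as trees. -/
def un : ℕ → BT
  | 0 => nil
  | n + 1 => node nil (un n)

@[simp] lemma size_un (n : ℕ) : (un n).size = n := by
  induction n with
  | zero => rfl
  | succ n ih => simp [un, ih]

/-- length of the right spine -/
def spine : BT → ℕ
  | nil => 0
  | node _ r => spine r + 1

@[simp] lemma spine_un (n : ℕ) : spine (un n) = n := by
  induction n with
  | zero => rfl
  | succ n ih => simp [un, spine, ih]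

lemma spine_le_size (t : BT) : spine t ≤ t.size := by
  induction t with
  | nil => simp [spine]
  | node l r _ ih => simp only [spine, size_node]; omega

/-- append a unary number: `appU x y` = the spine of `y` (as nils) followed by `x` -/
def appU (x y : BT) : BT := recurR (fun x => x) 
  (fun t => node nil t.right.right.right) x y

lemma appU_un (m n : ℕ) : appU (un m) (un n) = un (m + n) := by
  induction n with
  | zero => rfl
  | succ n ih =>
    show node nil (appU (un m) (un n)) = _
    rw [ih]; rfl

lemma size_appU (x y : BT) : (appU x y).size = x.size + spine y := by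
  induction y with
  | nil => rfl
  | node a b _ ih =>
    show (node nil (appU x b)).size = _
    simp only [size_node, size_nil, ih, spine]; omega

lemma pt_appU {f g : BT → BT} (hf : PolyTime f) (hg : PolyTime g) :
    PolyTime fun t => appU (f t) (g t) :=
  pt_recurR 1 .id (.node .nil (.comp .right (.comp .right .right)))
    (fun x y => by
      have h1 := size_appU x y
      have h2 := spine_le_size y
      unfold appU at h1
      rw [h1, pow_one]; omega) hf hg

/-- the size of a tree in unary -/
def usize (t : BT) : BT := un t.size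

lemma usize_eq (x t : BT) : usize t = BT.recur (fun _ => nil)
    (fun t => node nil (appU t.right.right.left t.right.right.right)) x t := by
  induction t with
  | nil => rfl
  | node a b iha ihb =>
    simp only [BT.recur, right_node, left_node]
    rw [← iha, ← ihb]
    simp only [usize, appU_un, size_node, un]

lemma pt_usize {f : BT → BT} (hf : PolyTime f) : PolyTime fun t => usize (f t) := by
  have h1 : PolyTime (fun t => BT.recur (fun _ => nil)
      (fun t => node nil (appU t.right.right.left t.right.right.right)) t.left t.right) := by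
    refine .recur 1 .nil (.node .nil (pt_appU (.comp .left (.comp .right .right))
      (.comp .right (.comp .right .right)))) ?_
    intro x y
    rw [← usize_eq]
    simp only [usize, size_un, pow_one]; omega
  have h2 := PolyTime.comp h1 (.node .nil hf)
  simpa only [left_node, right_node, ← usize_eq] using h2

/-- multiplication of unary numbers -/
def mulU (x y : BT) : BT := recurR (fun _ => nil) (fun t => appU t.right.right.right t.left) x y

lemma mulU_un (m n : ℕ) : mulU (un m) (un n) = un (m * n) := by
  induction n with
  | zero => rfl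
  | succ n ih =>
    show appU (mulU (un m) (un n)) (un m) = _
    rw [ih, appU_un, Nat.mul_succ]

lemma size_mulU_le (x y : BT) : (mulU x y).size ≤ x.size * y.size := by
  induction y with
  | nil => simp [mulU, recurR]
  | node a b _ ih =>
    show (appU (mulU x b) x).size ≤ _
    rw [size_appU]
    have := spine_le_size x
    simp only [size_node]
    nlinarith

lemma pt_mulU {f g : BT → BT} (hf : PolyTime f) (hg : PolyTime g) :
    PolyTime fun t => mulU (f t) (g t) :=
  pt_recurR 2 .nil (pt_appU (.comp .right (.comp .right .right)) .left)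
    (fun x y => by
      have := size_mulU_le x y
      unfold mulU at this
      nlinarith) hf hg

/-- truncated subtraction: drop -/
def dropU (x y : BT) : BT := recurR (fun x => x) (fun t => t.right.right.right.right) x y

lemma dropU_un (m n : ℕ) : dropU (un m) (un n) = un (m - n) := by
  induction n with
  | zero => rfl
  | succ n ih =>
    show (dropU (un m) (un n)).right = _
    rw [ih]
    rcases h : m - n with _ | k
    · have : m - (n + 1) = 0 := by omega
      rw [this]; rfl
    · have : m - (n + 1) = k := by omega
      rw [this]; rfl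

lemma size_dropU_le (x y : BT) : (dropU x y).size ≤ x.size := by
  induction y with
  | nil => exact le_rfl
  | node a b _ ih =>
    show (dropU x b).right.size ≤ _
    exact (size_right_le _).trans ih

lemma pt_dropU {f g : BT → BT} (hf : PolyTime f) (hg : PolyTime g) :
    PolyTime fun t => dropU (f t) (g t) :=
  pt_recurR 1 .id (.comp .right (.comp .right (.comp .right .right)))
    (fun x y => by
      have := size_dropU_le x y
      unfold dropU at this
      simp only [pow_one]
      omega) hf hg

/-- the unary number `(size t + 2) ^ k` -/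
lemma pt_powU {f : BT → BT} (hf : PolyTime f) (k : ℕ) :
    PolyTime fun t => un (((f t).size + 2) ^ k) := by
  induction k with
  | zero =>
    have h : PolyTime fun _ => un 1 := .node .nil .nil
    simpa using h
  | succ k ih =>
    have h0 : PolyTime fun t => un ((f t).size + 2) := by
      have : PolyTime fun t => node nil (node nil (usize (f t))) :=
        .node .nil (.node .nil (pt_usize hf))
      exact this
    have h := pt_mulU ih h0
    simpa only [mulU_un, ← pow_succ] using h

/-- `t` if its size is at most the size of `B`, else `nil` -/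
def clamp (B t : BT) : BT := if t.size ≤ B.size then t else nil

lemma clamp_eq (B t : BT) : clamp B t = tcond (dropU (usize t) (usize B)) t nil := by
  unfold clamp usize
  rw [dropU_un]
  split_ifs with h
  · rw [Nat.sub_eq_zero_of_le h]; rfl
  · obtain ⟨k, hk⟩ : ∃ k, t.size - B.size = k + 1 := ⟨t.size - B.size - 1, by omega⟩
    rw [hk]; rfl

lemma pt_clamp {B f : BT → BT} (hB : PolyTime B) (hf : PolyTime f) :
    PolyTime fun t => clamp (B t) (f t) := by
  simp only [clamp_eq]
  exact pt_tcond (pt_dropU (pt_usize hf) (pt_usize hB)) hf .nil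

lemma size_clamp_le (B t : BT) : (clamp B t).size ≤ B.size := by
  unfold clamp; split_ifs <;> simp_all

/-- `y'` is a right subtree of `y`. -/
def IsSuffix (y' : BT) : BT → Prop
  | nil => y' = nil
  | node a b => y' = node a b ∨ IsSuffix y' b

lemma IsSuffix.refl (y : BT) : IsSuffix y y := by
  cases y with
  | nil => rfl
  | node a b => exact Or.inl rfl

/-- Right-spine recursion where the size bound is only known for the arguments of interest. -/
lemma recurOn {g h : BT → BT} (k : ℕ) (hg : PolyTime g) (hh : PolyTime h) :
    ∃ T : BT → BT → BT, (∀ {f1 f2 : BT → BT}, PolyTime f1 → PolyTime f2 →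
      PolyTime fun t => T (f1 t) (f2 t)) ∧
      ∀ x y, (∀ y', IsSuffix y' y → (recurR g h x y').size ≤ (x.size + 2) ^ k) →
        T x y = recurR g h x y := by
  obtain ⟨c, hc⟩ := hg.size_le
  let h' : BT → BT := fun t => clamp (un ((t.left.size + 2) ^ k)) (h t)
  have hh' : PolyTime h' := pt_clamp (pt_powU .left k) hh
  have hbd : ∀ x y, (recurR g h' x y).size ≤ (x.size + y.size + 2) ^ (c + k) := by
    intro x y
    cases y with
    | nil =>
      refine (hc x).trans ?_
      exact (Nat.pow_le_pow_left (by omega) c).trans (Nat.pow_le_pow_right (by omega) (by omega))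
    | node a b =>
      show (clamp _ _).size ≤ _
      refine (size_clamp_le _ _).trans ?_
      simp only [size_un, left_node]
      exact (Nat.pow_le_pow_left (by omega) k).trans (Nat.pow_le_pow_right (by omega) (by omega))
  refine ⟨recurR g h', fun h1 h2 => pt_recurR _ hg hh' hbd h1 h2, ?_⟩
  intro x y
  induction y with
  | nil => intro _; rfl
  | node a b _ ih =>
    intro hy
    have ih' := ih fun y' hy' => hy y' (Or.inr hy')
    show clamp (un (((node x _).left.size + 2) ^ k)) (h (node x (node a (node b (recurR g h' x b))))) = _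
    rw [ih']
    have h0 := hy (node a b) (Or.inl rfl)
    unfold clamp
    simp only [size_un, left_node]
    exact if_pos h0

end basic

end Pool.Agent.Lib.MP_634427_lc
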