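import Pool.Agent.Lib.MP_634427_lc.Solve

/-!
# Pruning lists of candidates without isolation

Here the signed bundles may depend on the whole list of candidates.
-/

namespace Pool.Agent.Lib.MP_634427_lc

open BT

section prune

variable (z : List Word → Word → SVec (List Word)) (K N : ℕ)

/-- Remove the first candidate that is not accepted. -/
def prune (R B : List Word) : List Word :=
  match B.find? (fun c => !accepts (R.map (signed (z B) c)) K) with
  | none => B
  | some c => B.filter fun c' => decide (c' ≠ c)

/-- Extend the candidates, prune the list, compress the tests. -/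
def pstage (j : ℕ) (st : List Word × List Word) : List Word × List Word :=
  let R1 := addGen (unitw j) st.2
  let B := ((prune z K R1)^[(ext st.1).length] (ext st.1)).take N
  (B, compress N R1 B)

/-- The state after `j` stages. -/
def ploop (j : ℕ) : List Word × List Word :=
  Nat.rec (motive := fun _ => List Word × List Word) ([[]], [[]]) (fun i st => pstage z K N i st) j

lemma ploop_succ (j : ℕ) : ploop z K N (j + 1) = pstage z K N j (ploop z K N j) := rfl

variable {z K N}

lemma prune_sublist (R B : List Word) : List.Sublist (prune z K R B) B := by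
  unfold prune
  rcases B.find? (fun c => !accepts (R.map (signed (z B) c)) K) with _ | c
  · exact List.Sublist.refl _
  · exact List.filter_sublist

lemma prune_iter_sublist (R B : List Word) (n : ℕ) :
    List.Sublist ((prune z K R)^[n] B) B := by
  induction n with
  | zero => exact List.Sublist.refl _
  | succ n ih =>
    rw [Function.iterate_succ_apply']
    exact (prune_sublist R _).trans ih

/-- After sufficiently many steps all candidates are accepted. -/
lemma prune_iter_accepts (R : List Word) (n : ℕ) (B : List Word) (hn : B.length ≤ n) :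
    ∀ c ∈ (prune z K R)^[n] B,
      accepts (R.map (signed (z ((prune z K R)^[n] B)) c)) K = true := by
  induction n generalizing B with
  | zero =>
    intro c hc
    have : B = [] := List.eq_nil_of_length_eq_zero (Nat.le_zero.1 hn)
    rw [this] at hc
    simp at hc
  | succ n ih =>
    rcases hf : B.find? (fun c => !accepts (R.map (signed (z B) c)) K) with _ | c0
    · have hfix : prune z K R B = B := by unfold prune; rw [hf]
      have hfix' : (prune z K R)^[n + 1] B = B := Function.iterate_fixed hfix (n + 1)
      rw [hfix']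
      intro c hc
      have := List.find?_eq_none.1 hf c hc
      simpa using this
    · rw [Function.iterate_succ_apply]
      refine ih _ ?_
      have hmem := List.mem_of_find?_eq_some hf
      have hlt : (prune z K R B).length < B.length := by
        unfold prune; rw [hf]
        refine List.length_filter_lt_length_iff_exists.2 ⟨c0, hmem, by simp⟩
      omega

/-- Some element of `W` extends a member of `B`. -/
def Hits (W : Word → Prop) (B : List Word) : Prop := ∃ u, W u ∧ ∃ c ∈ B, c <+: u

lemma hits_ext {W : Word → Prop} {B : List Word} {j m : ℕ} (hW : ∀ u, W u → u.length = m)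
    (hj : j < m) (hB : ∀ c ∈ B, c.length = j) (h : Hits W B) : Hits W (ext B) := by
  obtain ⟨u, hu, c, hc, hcu⟩ := h
  refine ⟨u, hu, u.take (j + 1), (mem_ext _ _).2 ⟨c, hc, u[j]'(by rw [hW u hu]; exact hj), ?_⟩,
    List.take_prefix _ _⟩
  have h1 : c = u.take j := by
    rw [← hB c hc]; exact List.prefix_iff_eq_take.1 hcu
  rw [h1, List.take_append_getElem]

lemma par_of_prefix {r c u : Word} (h : c <+: u) (hr : r.length ≤ c.length) :
    par r u = par r c := by
  obtain ⟨t, rfl⟩ := h
  exact par_append_of_le _ _ _ hr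

/-- A rejected candidate can be removed. -/
lemma hits_prune {W : Word → Prop} {R B : List Word} {D : ℕ}
    (hD : ∀ r ∈ R, dot (z B r) (z B r) ≤ D) (P : List Word → Prop)
    (T : Finset (List Word)) (hT : ∀ r ∈ R, ∀ e ∈ z B r, P e.2 → e.2 ∈ T) (hK : T.card * D ≤ K)
    (hsep : ∀ c ∈ B, Hits W B → (∀ u, W u → ∀ c' ∈ B, c' <+: u → c' = c) → ∀ r ∈ R,
      1 ≤ sgn (!par r c) * score P (z B r))
    (h : Hits W B) : Hits W (prune z K R B) := by
  unfold prune
  rcases hf : B.find? (fun c => !accepts (R.map (signed (z B) c)) K) with _ | c0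
  · exact h
  · have hmem := List.mem_of_find?_eq_some hf
    have hrej := List.find?_some hf
    simp only [Bool.not_eq_true'] at hrej
    by_contra hcon
    have honly : ∀ u, W u → ∀ c' ∈ B, c' <+: u → c' = c0 := by
      intro u hu c' hc' hcu
      by_contra hne
      exact hcon ⟨u, hu, c', List.mem_filter.2 ⟨hc', by simpa using hne⟩, hcu⟩
    have hacc : accepts (R.map (signed (z B) c0)) K = true := by
      refine accepts_of_separable _ K D P T ?_ ?_ ?_ hK
      · intro w hw
        obtain ⟨r, hr, rfl⟩ := List.mem_map.1 hw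
        have h1 := hD r hr
        unfold signed
        split_ifs
        · rw [dot_self_neg]; exact h1
        · exact h1
      · intro w hw
        obtain ⟨r, hr, rfl⟩ := List.mem_map.1 hw
        have h1 := hsep c0 hmem h honly r hr
        unfold signed
        cases hp : par r c0
        · simpa [hp, sgn] using h1
        · simp only [hp, sgn, Bool.not_true, Bool.false_eq_true, if_false] at h1
          simp only [if_true, score_neg]; linarith
      · intro w hw e he hPe
        obtain ⟨r, hr, rfl⟩ := List.mem_map.1 hw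
        unfold signed at he
        split_ifs at he
        · unfold neg at he
          obtain ⟨e', he', rfl⟩ := List.mem_map.1 he
          exact hT r hr e' he' hPe
        · exact hT r hr e he hPe
    rw [hacc] at hrej
    cases hrej

/-- What is assumed about the vectors, for candidates lists of length at most `L`. -/
structure Good (z : List Word → Word → SVec (List Word)) (K : ℕ) (m L D : ℕ) (W : Word → Prop)
    (P : List Word → Prop) : Prop where
  hD : ∀ B : List Word, B.length ≤ L → (∀ c ∈ B, c.length ≤ m) → ∀ r : Word, r.length ≤ m →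
    dot (z B r) (z B r) ≤ D
  hT : ∃ T : Finset (List Word), T.card * D ≤ K ∧ ∀ B : List Word, B.length ≤ L →
    (∀ c ∈ B, c.length ≤ m) → ∀ r : Word, r.length ≤ m → ∀ e ∈ z B r, P e.2 → e.2 ∈ T
  hsep : ∀ B : List Word, B.length ≤ L → ∀ j ≤ m, (∀ c ∈ B, c.length = j) → ∀ c ∈ B, Hits W B →
    (∀ u, W u → ∀ c' ∈ B, c' <+: u → c' = c) → ∀ r : Word, r.length ≤ j →
      1 ≤ sgn (!par r c) * score P (z B r)

variable {m L D : ℕ} {W : Word → Prop} {P : List Word → Prop}

lemma pstage_spec (hg : Good z K m L D W P) (hW : ∀ u, W u → u.length = m)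
    (hL : 2 * (K * D * D) ≤ L) (hN : 2 * (K * D * D) ^ 2 + 2 ≤ N)
    {j : ℕ} (hj : j < m) {st : List Word × List Word} (hst : Inv j st)
    (hlen : 2 * st.1.length ≤ L) :
    Inv (j + 1) (pstage z K N j st) ∧ 2 * (pstage z K N j st).1.length ≤ L ∧
      (Hits W st.1 → Hits W (pstage z K N j st).1) := by
  set R1 := addGen (unitw j) st.2 with hR1def
  set B' := (prune z K R1)^[(ext st.1).length] (ext st.1) with hB'
  have horth := Orth.ext j hst.orth hst.len hst.lenR
  have hsub : List.Sublist B' (ext st.1) := prune_iter_sublist R1 _ _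
  have hlenR := lenR1 hst.lenR
  have hextlen : (ext st.1).length ≤ L := by rw [length_ext]; exact hlen
  have hlenB : ∀ c ∈ ext st.1, c.length = j + 1 := by
    intro c hc
    obtain ⟨c0, hc0, b, rfl⟩ := (mem_ext _ _).1 hc
    rw [List.length_append, hst.len c0 hc0]; rfl
  have hR1 : R1 ≠ [] := by
    rw [hR1def]
    unfold addGen
    intro h
    exact hst.ne (List.append_eq_nil_iff.1 h).1
  have hcap : B'.length ≤ K * D * D := by
    refine capacity B' R1 ((nodup_ext _ hst.nodup).sublist hsub) hR1
      (horth.subset fun c hc => hsub.subset hc) (z B') K D ?_ ?_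
    · intro r hr
      exact hg.hD B' (hsub.length_le.trans hextlen)
        (fun c hc => by rw [hlenB c (hsub.subset hc)]; exact hj) r ((hlenR r hr).trans hj)
    · exact prune_iter_accepts R1 _ _ le_rfl
  have hle : K * D * D ≤ N := by nlinarith [sq_nonneg ((K * D * D : ℕ) : ℤ)]
  have htake : B'.take N = B' := List.take_of_length_le (hcap.trans hle)
  have hB : (pstage z K N j st).1 = B' := htake
  have hnd : B'.Nodup := (nodup_ext _ hst.nodup).sublist hsub
  refine ⟨⟨?_, ?_, compress_ne_nil N (by omega) _ _, ?_, ?_⟩, ?_, ?_⟩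
  · rw [hB]; exact hnd
  · intro c hc
    rw [hB] at hc
    exact hlenB c (hsub.subset hc)
  · exact length_mem_compress N _ _ (j + 1) hlenR
  · show Orth (compress N R1 (B'.take N)) (B'.take N)
    rw [htake]
    refine orth_compress N hnd hR1 (horth.subset fun c hc => hsub.subset hc) ?_
    have h2 : B'.length ^ 2 ≤ (K * D * D) ^ 2 := Nat.pow_le_pow_left hcap 2
    omega
  · rw [hB]; omega
  · intro hhit
    rw [hB, hB']
    have h0 := hits_ext hW hj hst.len hhit
    obtain ⟨T, hTK, hT⟩ := hg.hT
    have key : ∀ n, Hits W ((prune z K R1)^[n] (ext st.1)) := by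
      intro n
      induction n with
      | zero => exact h0
      | succ n ih =>
        rw [Function.iterate_succ_apply']
        have hs := prune_iter_sublist (z := z) (K := K) R1 (ext st.1) n
        set Bn := (prune z K R1)^[n] (ext st.1) with hBn
        have hl1 : Bn.length ≤ L := hs.length_le.trans hextlen
        have hl2 : ∀ c ∈ Bn, c.length = j + 1 := fun c hc => hlenB c (hs.subset hc)
        exact hits_prune (D := D)
          (fun r hr => hg.hD Bn hl1 (fun c hc => by rw [hl2 c hc]; exact hj) r
            ((hlenR r hr).trans hj)) P T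
          (fun r hr => hT Bn hl1 (fun c hc => by rw [hl2 c hc]; exact hj) r
            ((hlenR r hr).trans hj)) hTK
          (fun c hc hh honly r hr => hg.hsep Bn hl1 (j + 1) hj hl2 c hc hh honly r (hlenR r hr)) ih
    exact key _

lemma ploop_spec (hg : Good z K m L D W P) (hW : ∀ u, W u → u.length = m)
    (hL : 2 * (K * D * D) ≤ L) (hL2 : 2 ≤ L) (hN : 2 * (K * D * D) ^ 2 + 2 ≤ N)
    (hne : ∃ u, W u) (j : ℕ) (hj : j ≤ m) :
    Inv j (ploop z K N j) ∧ 2 * (ploop z K N j).1.length ≤ L ∧ Hits W (ploop z K N j).1 := by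
  induction j with
  | zero =>
    obtain ⟨u, hu⟩ := hne
    exact ⟨inv_zero, by simp [ploop]; exact hL2, u, hu, [], by simp [ploop], List.nil_prefix⟩
  | succ j ih =>
    obtain ⟨h1, h2, h3⟩ := ih (by omega)
    obtain ⟨h4, h5, h6⟩ := pstage_spec hg hW hL hN (by omega : j < m) h1 h2
    exact ⟨h4, h5, h6 h3⟩

/-- The final list contains a witness. -/
lemma ploop_mem (hg : Good z K m L D W P) (hW : ∀ u, W u → u.length = m)
    (hL : 2 * (K * D * D) ≤ L) (hL2 : 2 ≤ L) (hN : 2 * (K * D * D) ^ 2 + 2 ≤ N)
    (hne : ∃ u, W u) : ∃ u ∈ (ploop z K N m).1, W u := by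
  obtain ⟨h1, _, u, hu, c, hc, hcu⟩ := ploop_spec hg hW hL hL2 hN hne m le_rfl
  have h2 : c = u := by
    have h3 := h1.len c hc
    have h4 := hW u hu
    obtain ⟨t, rfl⟩ := hcu
    rw [List.length_append] at h4
    have : t = [] := List.eq_nil_of_length_eq_zero (by omega)
    rw [this, List.append_nil]
  exact ⟨u, h2 ▸ hc, hu⟩

end prune

/-! ### The loop runs in polynomial time -/

section pt

variable {γ α : Type} [Enc γ] [Enc α] {z : α → List Word → Word → SVec (List Word)}
  (hz : PT fun p : α × List Word × Word => z p.1 p.2.1 p.2.2)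

include hz

lemma pt_prune {a : γ → α} {K : γ → ℕ} {R B : γ → List Word} (ha : PT a) (hK : PT K) (hR : PT R)
    (hB : PT B) : PT fun c => prune (z (a c)) (K c) (R c) (B c) := by
  have hz' : PT fun p : (α × List Word) × Word => z p.1.1 p.1.2 p.2 :=
    hz.comp (PT.pair (PT.fst' PT.fst) (PT.pair (PT.snd' PT.fst) PT.snd))
  have hf : PT fun c => (B c).find? fun w =>
      !accepts ((R c).map (signed (z (a c) (B c)) w)) (K c) := by
    refine PT.find? (p := fun c w => !accepts ((R c).map (signed (z (a c) (B c)) w)) (K c)) hB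
      (PT.not (PT.accepts (enc_list_injective enc_word_injective) ?_ (hK.comp PT.fst)))
    exact PT.map (γ := γ × Word) (f := fun q r => signed (z (a q.1) (B q.1)) q.2 r)
      (hR.comp PT.fst) (PT.signed (z := fun (p : α × List Word) r => z p.1 p.2 r) hz'
        (PT.pair (ha.comp (PT.fst' PT.fst)) (hB.comp (PT.fst' PT.fst))) (PT.snd' PT.fst) PT.snd)
  refine (PT.casesOption (g := fun c w => (B c).filter fun c' => decide (c' ≠ w)) hf hB ?_).of_eq
    fun c => ?_
  · exact PT.filter (γ := γ × Word) (l := fun q => B q.1) (p := fun q c' => decide (c' ≠ q.2))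
      (hB.comp PT.fst) ((PT.not (PT.eqDec enc_word_injective PT.snd (PT.snd' PT.fst))).of_eq
        fun p => by simp)
  · unfold prune
    rcases (B c).find? (fun w => !accepts ((R c).map (signed (z (a c) (B c)) w)) (K c)) <;> rfl

lemma pt_pstage {a : γ → α} {K N j : γ → ℕ}
    {st : γ → List Word × List Word} (ha : PT a) (hK : PT K) (hN : PT N) (hj : PT j)
    (hst : PT st) : PT fun c => pstage (z (a c)) (K c) (N c) (j c) (st c) := by
  have hR1 : PT fun c => addGen (unitw (j c)) (st c).2 :=
    PT.addGen (PT.unitw hj) (PT.snd' hst)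
  have hext : PT fun c => ext (st c).1 := PT.ext (PT.fst' hst)
  have hB : PT fun c => ((prune (z (a c)) (K c) (addGen (unitw (j c)) (st c).2))^[(ext
      (st c).1).length] (ext (st c).1)).take (N c) := by
    refine PT.take hN (PT.iterate (f := fun c B =>
      prune (z (a c)) (K c) (addGen (unitw (j c)) (st c).2) B) (PT.length hext) hext
      (pt_prune hz (ha.comp PT.fst) (hK.comp PT.fst) (hR1.comp PT.fst) PT.snd) ?_)
    obtain ⟨k, hk⟩ := hext.size_le
    exact ⟨k, fun c i _ => (sz_sublist_le (prune_iter_sublist _ _ i)).trans (hk c)⟩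
  exact (PT.comp (f := fun q : (List Word × List Word) × ℕ =>
    (q.1.1, compress q.2 q.1.2 q.1.1))
    (PT.pair (PT.fst' PT.fst) (PT.compress PT.snd (PT.snd' PT.fst) (PT.fst' PT.fst)))
    (PT.pair (PT.pair hB hR1) hN)).of_eq fun _ => rfl

omit [Enc α] hz in
lemma ploop_size (z : List Word → Word → SVec (List Word)) (K N j : ℕ) :
    (∀ c ∈ (ploop z K N j).1, c.length = j) ∧ (ploop z K N j).1.length ≤ max N 1 ∧
    (∀ r ∈ (ploop z K N j).2, r.length ≤ j) ∧ (ploop z K N j).2.length ≤ max N 1 := by
  induction j with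
  | zero => simp [ploop]
  | succ j ih =>
    obtain ⟨h1, h2, h3, h4⟩ := ih
    rw [ploop_succ]
    refine ⟨?_, ?_, ?_, ?_⟩
    · intro c hc
      have hc' := (prune_iter_sublist _ _ _).subset (List.mem_of_mem_take hc)
      obtain ⟨c0, hc0, b, rfl⟩ := (mem_ext _ _).1 hc'
      rw [List.length_append, h1 c0 hc0]; rfl
    · exact (List.length_take_le _ _).trans (le_max_left _ _)
    · exact length_mem_compress N _ _ (j + 1) (lenR1 h3)
    · exact length_span_le _ _

omit [Enc α] hz in
lemma sz_ploop_le (z : List Word → Word → SVec (List Word)) (K N j : ℕ) :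
    sz (ploop z K N j) ≤ 2 * ((N + 1) * (2 * j + 1)) + 1 := by
  obtain ⟨h1, h2, h3, h4⟩ := ploop_size z K N j
  have h5 : sz (ploop z K N j).1 ≤ (N + 1) * (2 * j + 1) := by
    refine (sz_list_le _ (2 * j) fun r hr => ?_).trans (Nat.mul_le_mul_right _ (by omega))
    exact (sz_word_le r).trans (by rw [h1 r hr])
  have h6 : sz (ploop z K N j).2 ≤ (N + 1) * (2 * j + 1) := by
    refine (sz_list_le _ (2 * j) fun r hr => ?_).trans (Nat.mul_le_mul_right _ (by omega))
    exact (sz_word_le r).trans (Nat.mul_le_mul_left 2 (h3 r hr))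
  rw [sz_prod]; omega

lemma pt_ploop {a : γ → α} {K N j : γ → ℕ}
    (ha : PT a) (hK : PT K) (hN : PT N) (hj : PT j) :
    PT fun c => ploop (z (a c)) (K c) (N c) (j c) := by
  refine PT.natRec (s := fun _ : γ => (([[]], [[]]) : List Word × List Word))
    (f := fun c i st => pstage (z (a c)) (K c) (N c) i st) hj (PT.const _)
    (pt_pstage hz (ha.comp PT.fst) (hK.comp PT.fst) (hN.comp PT.fst) (PT.fst' PT.snd)
      (PT.snd' PT.snd)) ?_
  obtain ⟨b, hb⟩ := hN.size_le
  obtain ⟨d, hd⟩ := hj.size_le
  obtain ⟨e, he⟩ := PB.add (PB.mul (PB.const 2) (PB.mul (F := fun n => (n + 2) ^ b + 1)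
    (G := fun n => 2 * (n + 2) ^ d + 1) (PB.add ⟨b, fun n => le_rfl⟩ (PB.const 1))
    (PB.add (PB.mul (PB.const 2) ⟨d, fun n => le_rfl⟩) (PB.const 1)))) (PB.const 1)
  refine ⟨e, fun c i hi => ?_⟩
  have h1 := hb c
  have h2 := hd c
  rw [sz_nat] at h1 h2
  refine (sz_ploop_le (z (a c)) (K c) (N c) i).trans (le_trans ?_ (he (sz c)))
  have : (N c + 1) * (2 * i + 1) ≤ ((sz c + 2) ^ b + 1) * (2 * (sz c + 2) ^ d + 1) :=
    Nat.mul_le_mul (by omega) (by omega)
  beta_reduce
  omega

end pt

end Pool.Agent.Lib.MP_634427_lc
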