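import Pool.Agent.Lib.MP_634427_lc.Poly

/-!
# Typed interface to polynomial-time functions
-/

namespace Pool.Agent.Lib.MP_634427_lc

open BT

instance : Enc BT := ⟨fun t => t⟩

/-- Natural numbers are coded in unary. -/
instance : Enc ℕ := ⟨un⟩

/-- size of the code -/
def sz {α : Type} [Enc α] (a : α) : ℕ := (enc a).size

instance {α : Type} [Enc α] : Enc (Option α) :=
  ⟨fun o => match o with | none => .nil | some a => .node (enc a) .nil⟩

variable {α β γ δ σ : Type} [Enc α] [Enc β] [Enc γ] [Enc δ] [Enc σ]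

@[simp] lemma enc_BT (t : BT) : enc t = t := rfl
@[simp] lemma enc_false : enc false = BT.nil := rfl
@[simp] lemma enc_true : enc true = BT.node BT.nil BT.nil := rfl
@[simp] lemma enc_pair (a : α) (b : β) : enc (a, b) = BT.node (enc a) (enc b) := rfl
lemma enc_prod (p : α × β) : enc p = BT.node (enc p.1) (enc p.2) := rfl
@[simp] lemma enc_lnil : enc ([] : List α) = BT.nil := rfl
@[simp] lemma enc_cons (a : α) (l : List α) : enc (a :: l) = BT.node (enc a) (enc l) := rfl
@[simp] lemma enc_none : enc (none : Option α) = BT.nil := rfl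
@[simp] lemma enc_some (a : α) : enc (some a) = BT.node (enc a) BT.nil := rfl
lemma enc_nat (n : ℕ) : enc n = un n := rfl
@[simp] lemma enc_zero : enc (0 : ℕ) = BT.nil := rfl
@[simp] lemma enc_succ (n : ℕ) : enc (n + 1) = BT.node BT.nil (enc n) := rfl

@[simp] lemma sz_BT (t : BT) : sz t = t.size := rfl
@[simp] lemma sz_false : sz false = 0 := rfl
@[simp] lemma sz_true : sz true = 1 := rfl
lemma sz_bool_le (b : Bool) : sz b ≤ 1 := by cases b <;> simp
@[simp] lemma sz_pair (a : α) (b : β) : sz (a, b) = sz a + sz b + 1 := rfl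
lemma sz_prod (p : α × β) : sz p = sz p.1 + sz p.2 + 1 := rfl
@[simp] lemma sz_lnil : sz ([] : List α) = 0 := rfl
@[simp] lemma sz_cons (a : α) (l : List α) : sz (a :: l) = sz a + sz l + 1 := rfl
@[simp] lemma sz_none : sz (none : Option α) = 0 := rfl
@[simp] lemma sz_some (a : α) : sz (some a) = sz a + 1 := rfl
@[simp] lemma sz_nat (n : ℕ) : sz n = n := size_un n

@[simp] lemma sz_append (l l' : List α) : sz (l ++ l') = sz l + sz l' := by
  induction l with
  | nil => simp
  | cons a l ih => simp [ih]; omega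

@[simp] lemma sz_reverse (l : List α) : sz l.reverse = sz l := by
  induction l with
  | nil => simp
  | cons a l ih => simp [ih]; omega

lemma length_le_sz (l : List α) : l.length ≤ sz l := by
  induction l with
  | nil => simp
  | cons a l ih => simp; omega

lemma sz_mem_le {a : α} {l : List α} (h : a ∈ l) : sz a ≤ sz l := by
  induction l with
  | nil => simp at h
  | cons b l ih =>
    rcases List.mem_cons.1 h with rfl | h
    · simp; omega
    · have := ih h; simp; omega

lemma sz_suffix_le {l l' : List α} (h : l' <:+ l) : sz l' ≤ sz l := by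
  obtain ⟨t, rfl⟩ := h; simp

lemma sz_prefix_le {l l' : List α} (h : l' <+: l) : sz l' ≤ sz l := by
  obtain ⟨t, rfl⟩ := h; simp

lemma sz_sublist_le {l l' : List α} (h : List.Sublist l' l) : sz l' ≤ sz l := by
  induction h with
  | slnil => simp
  | cons a _ ih => simp; omega
  | cons_cons a _ ih => simp; omega

namespace PT

lemma size_le {f : α → β} (hf : PT f) : ∃ c, ∀ a, sz (f a) ≤ (sz a + 2) ^ c := by
  obtain ⟨F, hF, h⟩ := hf
  obtain ⟨c, hc⟩ := hF.size_le
  exact ⟨c, fun a => by have := hc (enc a); rw [h] at this; exact this⟩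

lemma of_eq {f g : α → β} (hf : PT f) (h : ∀ a, f a = g a) : PT g := by
  have : f = g := funext h
  exact this ▸ hf

protected lemma id : PT fun a : α => a := ⟨_, .id, fun _ => rfl⟩

lemma comp {f : β → γ} {g : α → β} (hf : PT f) (hg : PT g) : PT fun a => f (g a) := by
  obtain ⟨F, hF, h⟩ := hf
  obtain ⟨G, hG, h'⟩ := hg
  exact ⟨_, .comp hF hG, fun a => by rw [h', h]⟩

lemma const_tree (t : BT) : PolyTime fun _ => t := by
  induction t with
  | nil => exact .nil
  | node l r hl hr => exact .node hl hr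

lemma const (b : β) : PT fun _ : α => b := ⟨_, const_tree (enc b), fun _ => rfl⟩

lemma pair {f : α → β} {g : α → γ} (hf : PT f) (hg : PT g) : PT fun a => (f a, g a) := by
  obtain ⟨F, hF, h⟩ := hf
  obtain ⟨G, hG, h'⟩ := hg
  exact ⟨_, .node hF hG, fun a => by rw [h', h]; rfl⟩

lemma fst : PT fun p : α × β => p.1 := ⟨_, .left, fun _ => rfl⟩
lemma snd : PT fun p : α × β => p.2 := ⟨_, .right, fun _ => rfl⟩

lemma fst' {f : γ → α × β} (hf : PT f) : PT fun a => (f a).1 := fst.comp hf
lemma snd' {f : γ → α × β} (hf : PT f) : PT fun a => (f a).2 := snd.comp hf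

/-- conditional -/
lemma cond {c : α → Bool} {f g : α → β} (hc : PT c) (hf : PT f) (hg : PT g) :
    PT fun a => bif c a then f a else g a := by
  obtain ⟨C, hC, h1⟩ := hc
  obtain ⟨F, hF, h2⟩ := hf
  obtain ⟨G, hG, h3⟩ := hg
  refine ⟨_, pt_tcond hC hG hF, fun a => ?_⟩
  show tcond (C (enc a)) (G (enc a)) (F (enc a)) = enc (bif c a then f a else g a)
  rw [h1, h2, h3]
  cases c a <;> rfl

lemma ite {p : α → Prop} [DecidablePred p] {f g : α → β} (hc : PT fun a => decide (p a))
    (hf : PT f) (hg : PT g) : PT fun a => if p a then f a else g a :=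
  (cond hc hf hg).of_eq fun a => by by_cases h : p a <;> simp [h]

lemma cons {f : γ → α} {g : γ → List α} (hf : PT f) (hg : PT g) : PT fun c => f c :: g c := by
  obtain ⟨F, hF, h⟩ := hf
  obtain ⟨G, hG, h'⟩ := hg
  exact ⟨_, .node hF hG, fun a => by rw [h', h]; rfl⟩

lemma some {f : γ → α} (hf : PT f) : PT fun c => Option.some (f c) := by
  obtain ⟨F, hF, h⟩ := hf
  exact ⟨_, .node hF .nil, fun a => by rw [h]; rfl⟩

lemma succ {f : γ → ℕ} (hf : PT f) : PT fun c => f c + 1 := by
  obtain ⟨F, hF, h⟩ := hf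
  exact ⟨_, .node .nil hF, fun a => by rw [h]; rfl⟩

/-- case distinction on lists -/
lemma casesList {l : γ → List α} {f : γ → β} {g : γ → α → List α → β} (hl : PT l) (hf : PT f)
    (hg : PT fun p : γ × α × List α => g p.1 p.2.1 p.2.2) :
    PT fun c => match l c with | [] => f c | a :: t => g c a t := by
  obtain ⟨L, hL, h1⟩ := hl
  obtain ⟨F, hF, h2⟩ := hf
  obtain ⟨G, hG, h3⟩ := hg
  refine ⟨_, pt_tcond hL hF (.comp hG (.node .id hL)), fun c => ?_⟩
  simp only [h1, h2]
  have h4 := h3
  rcases hl : l c with _ | ⟨a, t⟩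
  · rfl
  · show G (BT.node (enc c) (enc (a :: t))) = _
    exact h3 (c, a, t)

lemma casesOption {o : γ → Option α} {f : γ → β} {g : γ → α → β} (ho : PT o) (hf : PT f)
    (hg : PT fun p : γ × α => g p.1 p.2) :
    PT fun c => match o c with | none => f c | Option.some a => g c a := by
  obtain ⟨L, hL, h1⟩ := ho
  obtain ⟨F, hF, h2⟩ := hf
  obtain ⟨G, hG, h3⟩ := hg
  refine ⟨_, pt_tcond hL hF (.comp hG (.node .id (.comp .left hL))), fun c => ?_⟩
  simp only [h1, h2]
  rcases hl : o c with _ | a
  · rfl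
  · show G (BT.node (enc c) (enc a)) = _
    exact h3 (c, a)

lemma getD {o : γ → Option α} {f : γ → α} (ho : PT o) (hf : PT f) :
    PT fun c => (o c).getD (f c) :=
  (casesOption (g := fun _ a => a) ho hf snd).of_eq fun c => by cases o c <;> rfl

lemma tail {l : γ → List α} (hl : PT l) : PT fun c => (l c).tail :=
  (casesList (g := fun _ _ t => t) hl (const []) (snd' snd)).of_eq fun c => by
    cases l c <;> rfl

lemma head? {l : γ → List α} (hl : PT l) : PT fun c => (l c).head? :=
  (casesList (g := fun _ a _ => Option.some a) hl (const none) (some (fst' snd))).of_eq fun c => by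
    cases l c <;> rfl

lemma isEmpty {l : γ → List α} (hl : PT l) : PT fun c => (l c).isEmpty :=
  (casesList (g := fun _ _ _ => false) hl (const true) (const false)).of_eq fun c => by
    cases l c <;> rfl

lemma isSome {l : γ → Option α} (hl : PT l) : PT fun c => (l c).isSome :=
  (casesOption (g := fun _ _ => true) hl (const false) (const true)).of_eq fun c => by
    cases l c <;> rfl

/-! ### Recursion on lists -/

/-- primitive recursion on lists -/
def lrec {α σ : Type} (s : σ) (f : α → List α → σ → σ) : List α → σ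
  | [] => s
  | a :: l => f a l (lrec s f l)

lemma isSuffix_enc (l : List α) (y' : BT) (h : IsSuffix y' (enc l)) :
    ∃ l', l' <:+ l ∧ y' = enc l' := by
  induction l with
  | nil => exact ⟨[], List.suffix_refl _, h⟩
  | cons a l ih =>
    rcases h with h | h
    · exact ⟨a :: l, List.suffix_refl _, h⟩
    · obtain ⟨l', h1, h2⟩ := ih h
      exact ⟨l', h1.trans (List.suffix_cons a l), h2⟩

theorem listRec {l : γ → List α} {s : γ → σ} {f : γ → α → List α → σ → σ} (hl : PT l)
    (hs : PT s) (hf : PT fun p : γ × α × List α × σ => f p.1 p.2.1 p.2.2.1 p.2.2.2)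
    (hb : ∃ k, ∀ c l', l' <:+ l c → sz (lrec (s c) (f c) l') ≤ (sz c + 2) ^ k) :
    PT fun c => lrec (s c) (f c) (l c) := by
  obtain ⟨L, hL, h1⟩ := hl
  obtain ⟨S, hS, h2⟩ := hs
  obtain ⟨F, hF, h3⟩ := hf
  obtain ⟨k, hk⟩ := hb
  obtain ⟨T, hT, hT'⟩ := recurOn k hS hF
  refine ⟨_, hT .id hL, fun c => ?_⟩
  have key : ∀ l' : List α, recurR S F (enc c) (enc l') = enc (lrec (s c) (f c) l') := by
    intro l'
    induction l' with
    | nil => exact h2 c
    | cons a l' ih =>
      show F (BT.node (enc c) (BT.node (enc a) (BT.node (enc l') (recurR S F (enc c) (enc l'))))) = _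
      rw [ih]
      exact h3 (c, a, l', lrec (s c) (f c) l')
  rw [h1, hT', key]
  intro y' hy'
  obtain ⟨l', hl', rfl⟩ := isSuffix_enc _ _ hy'
  rw [key]
  exact hk c l' hl'

lemma lrec_eq_foldr {α σ : Type} (s : σ) (f : α → σ → σ) (l : List α) :
    lrec s (fun a _ r => f a r) l = l.foldr f s := by
  induction l with
  | nil => rfl
  | cons a l ih => simp [lrec, ih]

/-- fold with a size bound -/
theorem foldr {l : γ → List α} {s : γ → σ} {f : γ → α → σ → σ} (hl : PT l) (hs : PT s)
    (hf : PT fun p : γ × α × σ => f p.1 p.2.1 p.2.2)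
    (hb : ∃ k, ∀ c l', l' <:+ l c → sz (l'.foldr (f c) (s c)) ≤ (sz c + 2) ^ k) :
    PT fun c => (l c).foldr (f c) (s c) := by
  have h := listRec (f := fun c a _ r => f c a r) hl hs
    (hf.comp (pair fst (pair (fst' snd) (snd' (snd' snd)))))
    (by simpa only [lrec_eq_foldr] using hb)
  simpa only [lrec_eq_foldr] using h

/-- fold where each step adds at most a polynomial in the size of the context -/
theorem foldr_add {l : γ → List α} {s : γ → σ} {f : γ → α → σ → σ} (hl : PT l) (hs : PT s)
    (hf : PT fun p : γ × α × σ => f p.1 p.2.1 p.2.2)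
    (hb : ∃ k, ∀ c a r, a ∈ l c → sz (f c a r) ≤ sz r + (sz c + 2) ^ k) :
    PT fun c => (l c).foldr (f c) (s c) := by
  refine foldr hl hs hf ?_
  obtain ⟨k, hk⟩ := hb
  obtain ⟨a, ha⟩ := hl.size_le
  obtain ⟨b, hb⟩ := hs.size_le
  obtain ⟨e, he⟩ := PB.add (F := fun n => (n + 2) ^ b)
    (G := fun n => (n + 2) ^ a * (n + 2) ^ k) ⟨b, fun n => le_rfl⟩
    (PB.mul ⟨a, fun n => le_rfl⟩ ⟨k, fun n => le_rfl⟩)
  refine ⟨e, fun c l' hl' => le_trans ?_ (he (sz c))⟩
  have key : ∀ l'' : List α, l'' <:+ l c →
      sz (l''.foldr (f c) (s c)) ≤ sz (s c) + l''.length * (sz c + 2) ^ k := by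
    intro l''
    induction l'' with
    | nil => intro _; simp
    | cons x l'' ih =>
      intro hs
      have h1 := ih ((List.suffix_cons x l'').trans hs)
      have h2 := hk c x (l''.foldr (f c) (s c)) (hs.subset List.mem_cons_self)
      simp only [List.foldr_cons, List.length_cons]
      calc _ ≤ _ := h2
        _ ≤ _ := by rw [Nat.succ_mul]; omega
  refine (key l' hl').trans (Nat.add_le_add (hb c) (Nat.mul_le_mul_right _ ?_))
  exact (length_le_sz l').trans ((sz_suffix_le hl').trans (ha c))

/-- fold where each value is bounded by a polynomial in the size of the context -/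
theorem foldr_bdd {l : γ → List α} {s : γ → σ} {f : γ → α → σ → σ} (hl : PT l) (hs : PT s)
    (hf : PT fun p : γ × α × σ => f p.1 p.2.1 p.2.2)
    (hb : ∃ k, ∀ c a r, a ∈ l c → sz (f c a r) ≤ (sz c + 2) ^ k) :
    PT fun c => (l c).foldr (f c) (s c) := by
  refine foldr hl hs hf ?_
  obtain ⟨k, hk⟩ := hb
  obtain ⟨b, hb⟩ := hs.size_le
  refine ⟨k + b, fun c l' hl' => ?_⟩
  cases l' with
  | nil => exact (hb c).trans (Nat.pow_le_pow_right (by omega) (by omega))
  | cons x l' =>
    exact (hk c x _ (hl'.subset List.mem_cons_self)).trans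
      (Nat.pow_le_pow_right (by omega) (by omega))

/-! ### Recursion on numbers -/

lemma enc_replicate_nil (n : ℕ) : enc (List.replicate n BT.nil) = enc n := by
  induction n with
  | zero => rfl
  | succ n ih => rw [List.replicate_succ, enc_cons, ih]; rfl

/-- unary numbers as lists -/
lemma natToList {f : γ → ℕ} (hf : PT f) : PT fun c => List.replicate (f c) BT.nil := by
  obtain ⟨F, hF, h⟩ := hf
  exact ⟨F, hF, fun c => by rw [h, enc_replicate_nil]⟩

lemma length {l : γ → List α} (hl : PT l) : PT fun c => (l c).length := by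
  have h := foldr_add (f := fun _ (_ : α) (r : ℕ) => r + 1) hl (const (0 : ℕ))
    (succ (snd' snd)) ⟨0, fun c a r _ => by simp⟩
  refine h.of_eq fun c => ?_
  induction l c with
  | nil => rfl
  | cons a l ih => simp [ih]

/-- recursion on numbers -/
theorem natRec {n : γ → ℕ} {s : γ → σ} {f : γ → ℕ → σ → σ} (hn : PT n) (hs : PT s)
    (hf : PT fun p : γ × ℕ × σ => f p.1 p.2.1 p.2.2)
    (hb : ∃ k, ∀ c i, i ≤ n c → sz (Nat.rec (motive := fun _ => σ) (s c) (f c) i)
      ≤ (sz c + 2) ^ k) :
    PT fun c => Nat.rec (motive := fun _ => σ) (s c) (f c) (n c) := by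
  have hlen : PT fun p : γ × BT × List BT × σ => f p.1 p.2.2.1.length p.2.2.2 :=
    hf.comp (pair fst (pair (length (fst' (snd' snd))) (snd' (snd' snd))))
  have key : ∀ c i, lrec (s c) (fun (_ : BT) t r => f c t.length r) (List.replicate i BT.nil)
      = Nat.rec (motive := fun _ => σ) (s c) (f c) i := by
    intro c i
    induction i with
    | zero => rfl
    | succ i ih => rw [List.replicate_succ, lrec, ih, List.length_replicate]
  have h := listRec (f := fun c (_ : BT) t r => f c t.length r) (natToList hn) hs hlen (by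
    obtain ⟨k, hk⟩ := hb
    refine ⟨k, fun c l' hl' => ?_⟩
    obtain ⟨t, ht⟩ := hl'
    have h1 : l' = List.replicate l'.length BT.nil := by
      refine List.eq_replicate_iff.2 ⟨rfl, fun b hb => ?_⟩
      have : b ∈ List.replicate (n c) BT.nil := by rw [← ht]; simp [hb]
      exact (List.mem_replicate.1 this).2
    rw [h1, key]
    refine hk c _ ?_
    have := congrArg List.length ht
    simp at this; omega)
  exact h.of_eq fun c => key c (n c)

/-- iteration with a bound for the intermediate values -/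
theorem iterate {n : γ → ℕ} {s : γ → σ} {f : γ → σ → σ} (hn : PT n) (hs : PT s)
    (hf : PT fun p : γ × σ => f p.1 p.2)
    (hb : ∃ k, ∀ c i, i ≤ n c → sz ((f c)^[i] (s c)) ≤ (sz c + 2) ^ k) :
    PT fun c => (f c)^[n c] (s c) := by
  have key : ∀ c i, Nat.rec (motive := fun _ => σ) (s c) (fun _ r => f c r) i
      = (f c)^[i] (s c) := by
    intro c i
    induction i with
    | zero => rfl
    | succ i ih => rw [Function.iterate_succ_apply', ← ih]
  have h := natRec (f := fun c _ r => f c r) hn hs (hf.comp (pair fst (snd' snd)))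
    (by simpa only [key] using hb)
  exact h.of_eq fun c => key c (n c)

end PT

end Pool.Agent.Lib.MP_634427_lc
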