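import Pool.Agent.Lib.MP_634427_lc.Isolation

/-!
# Sampling and isolation for a random bit string (problem MP_634427_lc, task 4)
-/

namespace Pool.Agent.Lib.MP_634427_lc

/-- The samples read off a random string: `k` blocks of `Q` bits. -/
def samples (Q k : ℕ) (Y : Word) : List Word :=
  (List.range k).map fun i => (Y.drop (i * Q)).take Q

/-- Sum over all words of length `n`. -/
def sumW : ℕ → (Word → ℝ) → ℝ
  | 0, F => F []
  | n + 1, F => sumW n (fun u => F (false :: u)) + sumW n (fun u => F (true :: u))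

theorem sumW_congr : ∀ (n : ℕ) (F G : Word → ℝ), (∀ u : Word, u.length = n → F u = G u) →
    sumW n F = sumW n G
  | 0, F, G, h => h [] rfl
  | n + 1, F, G, h => by
    rw [sumW, sumW, sumW_congr n _ (fun u => G (false :: u)) (fun u hu => h _ (by simp [hu])),
      sumW_congr n _ (fun u => G (true :: u)) (fun u hu => h _ (by simp [hu]))]

theorem sumW_mono : ∀ (n : ℕ) (F G : Word → ℝ), (∀ u : Word, u.length = n → F u ≤ G u) →
    sumW n F ≤ sumW n G
  | 0, F, G, h => h [] rfl
  | n + 1, F, G, h => by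
    rw [sumW, sumW]
    exact add_le_add (sumW_mono n _ _ (fun u hu => h _ (by simp [hu])))
      (sumW_mono n _ _ (fun u hu => h _ (by simp [hu])))

theorem sumW_const_mul : ∀ (n : ℕ) (c : ℝ) (F : Word → ℝ),
    sumW n (fun u => c * F u) = c * sumW n F
  | 0, c, F => rfl
  | n + 1, c, F => by
    rw [sumW, sumW, sumW_const_mul n c (fun u => F (false :: u)),
      sumW_const_mul n c (fun u => F (true :: u))]
    ring

theorem sumW_add : ∀ (n : ℕ) (F G : Word → ℝ),
    sumW n (fun u => F u + G u) = sumW n F + sumW n G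
  | 0, F, G => rfl
  | n + 1, F, G => by
    rw [sumW, sumW, sumW, sumW_add n (fun u => F (false :: u)), sumW_add n (fun u => F (true :: u))]
    ring

theorem sumW_const : ∀ (n : ℕ) (c : ℝ), sumW n (fun _ => c) = 2 ^ n * c
  | 0, c => by simp [sumW]
  | n + 1, c => by
    rw [sumW, sumW_const n c]
    ring

theorem sumW_append : ∀ (a b : ℕ) (F : Word → ℝ),
    sumW (a + b) F = sumW a (fun u => sumW b (fun v => F (u ++ v)))
  | 0, b, F => by simp [sumW]
  | a + 1, b, F => by
    have h : a + 1 + b = (a + b) + 1 := by omega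
    rw [h, sumW, sumW_append a b, sumW_append a b, sumW]
    rfl

theorem sum_ofFn : ∀ (n : ℕ) (F : Word → ℝ), ∑ y : Fin n → Bool, F (List.ofFn y) = sumW n F
  | 0, F => by simp [sumW]
  | n + 1, F => by
    rw [sumW, ← sum_ofFn n, ← sum_ofFn n, ← (Fin.consEquiv (fun _ : Fin (n + 1) => Bool)).sum_comp,
      Fintype.sum_prod_type, Fintype.sum_bool, add_comm]
    simp [Fin.consEquiv, List.ofFn_succ]

theorem samples_succ (Q k : ℕ) (u v : Word) (hu : u.length = Q) :
    samples Q (k + 1) (u ++ v) = u :: samples Q k v := by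
  unfold samples
  rw [List.range_succ_eq_map, List.map_cons, List.map_map]
  congr 1
  · simp [← hu]
  · apply List.map_congr_left
    intro i _
    simp only [Function.comp]
    congr 1
    have h1 : Nat.succ i * Q = Q + i * Q := by rw [Nat.succ_eq_add_one]; ring
    have h2 : (u ++ v).drop Q = v := by rw [← hu]; simp
    rw [h1, ← List.drop_drop, h2]

theorem sumW_prod (Q R : ℕ) (f : Word → ℝ) : ∀ k : ℕ,
    sumW (k * Q + R) (fun Y => ((samples Q k Y).map f).prod) = (sumW Q f) ^ k * 2 ^ R
  | 0 => by simp [samples, sumW_const]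
  | k + 1 => by
    have h : (k + 1) * Q + R = Q + (k * Q + R) := by ring
    rw [h, sumW_append]
    rw [sumW_congr Q _ (fun u => ((sumW Q f) ^ k * 2 ^ R) * f u)]
    · rw [sumW_const_mul]; ring
    · intro u hu
      have h1 : sumW (k * Q + R) (fun v => ((samples Q (k + 1) (u ++ v)).map f).prod) =
          sumW (k * Q + R) (fun v => f u * ((samples Q k v).map f).prod) := by
        apply sumW_congr
        intro v _
        rw [samples_succ Q k u v hu, List.map_cons, List.prod_cons]
      rw [h1, sumW_const_mul, sumW_prod Q R f k]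
      ring

theorem sumW_take (q Q : ℕ) (hq : q ≤ Q) (f : Word → ℝ) :
    sumW Q (fun u => f (u.take q)) = 2 ^ (Q - q) * sumW q f := by
  obtain ⟨r, rfl⟩ := Nat.exists_eq_add_of_le hq
  rw [sumW_append, Nat.add_sub_cancel_left, ← sumW_const_mul]
  apply sumW_congr
  intro u hu
  rw [sumW_congr r _ (fun _ => f u)]
  · rw [sumW_const]
  · intro v _
    rw [← hu]
    simp

theorem exp_bound {L s x : ℝ} (hL : 1 ≤ L) (hs : s = 1 / (2 * L ^ 2)) (hx : |x| ≤ L) :
    Real.exp (-s * x) ≤ 1 - s * x + s ^ 2 * L ^ 2 := by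
  have hL2 : 0 < L ^ 2 := by positivity
  have hs0 : 0 ≤ s := by rw [hs]; positivity
  have h1 : |(-s * x)| ≤ 1 := by
    rw [abs_mul, abs_neg, abs_of_nonneg hs0]
    calc s * |x| ≤ s * L := mul_le_mul_of_nonneg_left hx hs0
      _ ≤ 1 := by
        rw [hs, div_mul_eq_mul_div, div_le_one (by positivity)]
        nlinarith
  have h2 := abs_le.1 (Real.abs_exp_sub_one_sub_id_le h1)
  have h3 : (-s * x) ^ 2 ≤ s ^ 2 * L ^ 2 := by
    rw [mul_pow, neg_sq]
    apply mul_le_mul_of_nonneg_left _ (by positivity)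
    rw [← sq_abs]
    exact pow_le_pow_left₀ (abs_nonneg x) hx 2
  linarith [h2.2]

theorem mean_exp {L s : ℝ} (hL : 1 ≤ L) (hs : s = 1 / (2 * L ^ 2)) (q : ℕ) (f : Word → ℝ)
    (hf : ∀ u : Word, u.length = q → |f u| ≤ L) (hm : 2 ^ q ≤ sumW q f) :
    sumW q (fun u => Real.exp (-s * f u)) ≤ 2 ^ q * Real.exp (-(1 / (4 * L ^ 2))) := by
  have hL2 : 0 < L ^ 2 := by positivity
  have hs0 : 0 ≤ s := by rw [hs]; positivity
  have h1 : sumW q (fun u => Real.exp (-s * f u)) ≤
      sumW q (fun u => (1 + s ^ 2 * L ^ 2) + (-s) * f u) := by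
    apply sumW_mono
    intro u hu
    have := exp_bound hL hs (hf u hu)
    linarith
  rw [sumW_add, sumW_const, sumW_const_mul] at h1
  have h2 : (-s) * sumW q f ≤ (-s) * 2 ^ q := by
    have := mul_le_mul_of_nonneg_left hm hs0
    linarith
  have h3 : (2 : ℝ) ^ q * (1 + s ^ 2 * L ^ 2) + (-s) * 2 ^ q = 2 ^ q * (1 - 1 / (4 * L ^ 2)) := by
    rw [hs]
    field_simp
    ring
  have h4 : (1 : ℝ) - 1 / (4 * L ^ 2) ≤ Real.exp (-(1 / (4 * L ^ 2))) := by
    have := Real.add_one_le_exp (-(1 / (4 * L ^ 2)))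
    linarith
  calc sumW q (fun u => Real.exp (-s * f u)) ≤ 2 ^ q * (1 - 1 / (4 * L ^ 2)) := by linarith
    _ ≤ _ := mul_le_mul_of_nonneg_left h4 (by positivity)

theorem exp_sum_samples (s : ℝ) (Q k : ℕ) (f : Word → ℝ) (Y : Word) :
    Real.exp (-s * ((samples Q k Y).map f).sum) =
      ((samples Q k Y).map fun u => Real.exp (-s * f u)).prod := by
  induction samples Q k Y with
  | nil => simp
  | cons a l ih =>
    rw [List.map_cons, List.sum_cons, mul_add, Real.exp_add, ih, List.map_cons, List.prod_cons]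

open Classical in
/-- the number of strings for which the empirical sum is not positive -/
theorem card_bad (P Q k q n : ℕ) (L : ℕ) (hL : 1 ≤ L) (hk : k * Q ≤ P) (hq : q ≤ Q)
    (hkL : 4 * L ^ 2 * (n + 4) ≤ k) (f : Word → ℝ)
    (hf : ∀ u : Word, u.length = q → |f u| ≤ L) (hm : 2 ^ q ≤ sumW q f) :
    ((Finset.univ.filter fun Y : Fin P → Bool =>
      ((samples Q k (List.ofFn Y)).map fun s => f (s.take q)).sum ≤ 0).card : ℝ) * 2 ^ (n + 4) ≤
        2 ^ P := by
  have hL' : (1 : ℝ) ≤ L := by exact_mod_cast hL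
  set s : ℝ := 1 / (2 * (L : ℝ) ^ 2) with hs
  have hs0 : 0 ≤ s := by rw [hs]; positivity
  obtain ⟨R, hR⟩ := Nat.exists_eq_add_of_le hk
  have h1 : ((Finset.univ.filter fun Y : Fin P → Bool =>
      ((samples Q k (List.ofFn Y)).map fun s => f (s.take q)).sum ≤ 0).card : ℝ) ≤
      ∑ Y : Fin P → Bool, Real.exp (-s * ((samples Q k (List.ofFn Y)).map
        fun s => f (s.take q)).sum) := by
    rw [Finset.card_eq_sum_ones, Nat.cast_sum]
    calc (∑ Y ∈ Finset.univ.filter fun Y : Fin P → Bool =>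
          ((samples Q k (List.ofFn Y)).map fun s => f (s.take q)).sum ≤ 0, ((1 : ℕ) : ℝ))
        ≤ ∑ Y ∈ Finset.univ.filter fun Y : Fin P → Bool =>
          ((samples Q k (List.ofFn Y)).map fun s => f (s.take q)).sum ≤ 0,
          Real.exp (-s * ((samples Q k (List.ofFn Y)).map fun s => f (s.take q)).sum) := by
          apply Finset.sum_le_sum
          intro Y hY
          rw [Finset.mem_filter] at hY
          rw [Nat.cast_one]
          apply Real.one_le_exp
          nlinarith [hY.2]
      _ ≤ _ := Finset.sum_le_sum_of_subset_of_nonneg (Finset.filter_subset _ _)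
          (fun _ _ _ => (Real.exp_pos _).le)
  have h2 : ∑ Y : Fin P → Bool, Real.exp (-s * ((samples Q k (List.ofFn Y)).map
        fun s => f (s.take q)).sum) =
      sumW P (fun Y => Real.exp (-s * ((samples Q k Y).map fun s => f (s.take q)).sum)) :=
    sum_ofFn P (fun Y => Real.exp (-s * ((samples Q k Y).map fun s => f (s.take q)).sum))
  have h3 : sumW P (fun Y => Real.exp (-s * ((samples Q k Y).map fun s => f (s.take q)).sum)) =
      (2 ^ (Q - q) * sumW q (fun u => Real.exp (-s * f u))) ^ k * 2 ^ R := by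
    rw [← sumW_take q Q hq, ← sumW_prod Q R (fun u => Real.exp (-s * f (u.take q))) k, ← hR]
    apply sumW_congr
    intro Y _
    exact exp_sum_samples s Q k (fun u => f (u.take q)) Y
  have h4 : 2 ^ (Q - q) * sumW q (fun u => Real.exp (-s * f u)) ≤
      2 ^ Q * Real.exp (-(1 / (4 * (L : ℝ) ^ 2))) := by
    have h5 := mean_exp hL' hs q f hf hm
    have h6 : (2 : ℝ) ^ Q = 2 ^ (Q - q) * 2 ^ q := by
      rw [← pow_add]
      congr 1
      omega
    rw [h6, mul_assoc]
    exact mul_le_mul_of_nonneg_left h5 (by positivity)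
  have h0 : 0 ≤ 2 ^ (Q - q) * sumW q (fun u => Real.exp (-s * f u)) := by
    apply mul_nonneg (by positivity)
    calc (0 : ℝ) = sumW q (fun _ => 0) := by rw [sumW_const]; ring
      _ ≤ _ := sumW_mono q _ _ (fun u _ => (Real.exp_pos _).le)
  have h5 : (2 ^ (Q - q) * sumW q (fun u => Real.exp (-s * f u))) ^ k * 2 ^ R ≤
      2 ^ P * Real.exp (-((n : ℝ) + 4)) := by
    calc (2 ^ (Q - q) * sumW q (fun u => Real.exp (-s * f u))) ^ k * 2 ^ R
        ≤ (2 ^ Q * Real.exp (-(1 / (4 * (L : ℝ) ^ 2)))) ^ k * 2 ^ R :=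
          mul_le_mul_of_nonneg_right (pow_le_pow_left₀ h0 h4 k) (by positivity)
      _ = 2 ^ P * Real.exp (-(1 / (4 * (L : ℝ) ^ 2)) * k) := by
          rw [mul_pow, ← pow_mul, hR, pow_add, mul_comm k Q, ← Real.exp_nat_mul]
          ring_nf
      _ ≤ 2 ^ P * Real.exp (-((n : ℝ) + 4)) := by
          apply mul_le_mul_of_nonneg_left _ (by positivity)
          apply Real.exp_le_exp.2
          have hk' : 4 * (L : ℝ) ^ 2 * ((n : ℝ) + 4) ≤ k := by exact_mod_cast hkL
          have h6 : (n : ℝ) + 4 ≤ 1 / (4 * (L : ℝ) ^ 2) * k := by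
            rw [div_mul_eq_mul_div, one_mul, le_div_iff₀ (by positivity)]
            linarith
          linarith
  have h6 : Real.exp (-((n : ℝ) + 4)) * 2 ^ (n + 4) ≤ 1 := by
    have h7 : (2 : ℝ) ^ (n + 4) ≤ Real.exp ((n : ℝ) + 4) := by
      have h8 : Real.exp ((n : ℝ) + 4) = Real.exp 1 ^ (n + 4) := by
        rw [← Real.exp_nat_mul]
        push_cast
        ring_nf
      rw [h8]
      apply pow_le_pow_left₀ (by norm_num)
      have := Real.add_one_le_exp (1 : ℝ)
      linarith
    calc Real.exp (-((n : ℝ) + 4)) * 2 ^ (n + 4)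
        ≤ Real.exp (-((n : ℝ) + 4)) * Real.exp ((n : ℝ) + 4) :=
          mul_le_mul_of_nonneg_left h7 (Real.exp_pos _).le
      _ = 1 := by rw [← Real.exp_add]; simp
  calc ((Finset.univ.filter fun Y : Fin P → Bool =>
      ((samples Q k (List.ofFn Y)).map fun s => f (s.take q)).sum ≤ 0).card : ℝ) * 2 ^ (n + 4)
      ≤ (2 ^ P * Real.exp (-((n : ℝ) + 4))) * 2 ^ (n + 4) := by
        apply mul_le_mul_of_nonneg_right _ (by positivity)
        rw [h2, h3] at h1
        exact h1.trans h5
    _ = 2 ^ P * (Real.exp (-((n : ℝ) + 4)) * 2 ^ (n + 4)) := by ring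
    _ ≤ 2 ^ P * 1 := mul_le_mul_of_nonneg_left h6 (by positivity)
    _ = 2 ^ P := mul_one _

theorem wt_take (t : ℕ) : ∀ (q0 : ℕ) (y u : Word), u.length * t ≤ q0 →
    wt t (y.take q0) u = wt t y u
  | q0, y, [], _ => rfl
  | q0, y, b :: u, h => by
    rw [List.length_cons, add_mul, one_mul] at h
    have h1 : t ≤ q0 := by omega
    rw [wt, wt, List.take_take, min_eq_left h1, List.drop_take,
      wt_take t (q0 - t) (y.drop t) u (by omega)]

open Classical in
theorem isolation_bad (q M t : ℕ) (hq : M * t ≤ q) (F : Set Word)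
    (hF : F.Nonempty) (hlen : ∀ u ∈ F, u.length = M) :
    (Finset.univ.filter fun y : Fin q → Bool =>
      ¬ ∃ W, ∃! u, u ∈ F ∧ wt t (List.ofFn y) u = W).card * 2 ^ t ≤ M * 2 ^ q := by
  have hcover : ∀ y : Fin q → Bool, (¬ ∃ W, ∃! u, u ∈ F ∧ wt t (List.ofFn y) u = W) →
      ∃ i < M, y ∈ Amb q t F i := by
    intro y hy
    by_contra hno
    push Not at hno
    apply hy
    obtain ⟨u, hu, hmin⟩ : ∃ u ∈ F, ∀ w ∈ F, wt t (List.ofFn y) u ≤ wt t (List.ofFn y) w := by
      obtain ⟨u, hu, hm⟩ := (InvImage.wf (fun u => wt t (List.ofFn y) u)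
        Nat.lt_wfRel.wf).has_min F hF
      exact ⟨u, hu, fun w hw => not_lt.mp (hm w hw)⟩
    refine ⟨wt t (List.ofFn y) u, u, ⟨hu, rfl⟩, ?_⟩
    rintro v ⟨hv, hvw⟩
    by_contra hne
    have hdiff : ∃ i < M, v.getD i false ≠ u.getD i false := by
      by_contra hall
      push Not at hall
      apply hne
      apply List.ext_getElem (by rw [hlen v hv, hlen u hu])
      intro i h1 h2
      have h3 := hall i (by rw [← hlen v hv]; exact h1)
      rwa [List.getD_eq_getElem _ _ h1, List.getD_eq_getElem _ _ h2] at h3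
    obtain ⟨i, hi, hd⟩ := hdiff
    apply hno i hi
    cases hvb : v.getD i false with
    | true =>
      have hub : u.getD i false = false := by
        cases hub : u.getD i false with
        | true => exact absurd (hvb.trans hub.symm) hd
        | false => rfl
      exact ⟨v, hv, u, hu, hvb, hub, hvw, fun w hw => hvw ▸ hmin w hw⟩
    | false =>
      have hub : u.getD i false = true := by
        cases hub : u.getD i false with
        | true => rfl
        | false => exact absurd (hvb.trans hub.symm) hd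
      exact ⟨u, hu, v, hv, hub, hvb, hvw.symm, hmin⟩
  have h1 : (Finset.univ.filter fun y : Fin q → Bool =>
      ¬ ∃ W, ∃! u, u ∈ F ∧ wt t (List.ofFn y) u = W) ⊆
      (Finset.range M).biUnion fun i => (Amb q t F i).toFinset := by
    intro y hy
    rw [Finset.mem_filter] at hy
    obtain ⟨i, hi, hA⟩ := hcover y hy.2
    rw [Finset.mem_biUnion]
    exact ⟨i, Finset.mem_range.mpr hi, by rw [Set.mem_toFinset]; exact hA⟩
  have h2 := (Finset.card_le_card h1).trans Finset.card_biUnion_le
  calc (Finset.univ.filter fun y : Fin q → Bool =>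
      ¬ ∃ W, ∃! u, u ∈ F ∧ wt t (List.ofFn y) u = W).card * 2 ^ t
      ≤ (∑ i ∈ Finset.range M, (Amb q t F i).toFinset.card) * 2 ^ t :=
        Nat.mul_le_mul_right _ h2
    _ = ∑ i ∈ Finset.range M, (Amb q t F i).toFinset.card * 2 ^ t := Finset.sum_mul _ _ _
    _ ≤ ∑ _i ∈ Finset.range M, 2 ^ q := by
        apply Finset.sum_le_sum
        intro i hi
        have := card_amb q M t hq F hlen i (Finset.mem_range.mp hi)
        rwa [Nat.card_eq_card_toFinset] at this
    _ = M * 2 ^ q := by simp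

/-- the words of length at most `n` -/
def wordsLe (n : ℕ) : Finset Word :=
  (Finset.range (n + 1)).biUnion fun j =>
    (Finset.univ : Finset (Fin j → Bool)).image List.ofFn

theorem mem_wordsLe {n : ℕ} {w : Word} (h : w.length ≤ n) : w ∈ wordsLe n := by
  rw [wordsLe, Finset.mem_biUnion]
  refine ⟨w.length, Finset.mem_range.2 (by omega), ?_⟩
  rw [Finset.mem_image]
  exact ⟨w.get, Finset.mem_univ _, List.ofFn_get w⟩

theorem length_of_mem_wordsLe {n : ℕ} {w : Word} (h : w ∈ wordsLe n) : w.length ≤ n := by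
  rw [wordsLe, Finset.mem_biUnion] at h
  obtain ⟨j, hj, hw⟩ := h
  rw [Finset.mem_image] at hw
  obtain ⟨y, _, rfl⟩ := hw
  rw [List.length_ofFn]
  have := Finset.mem_range.1 hj
  omega

theorem card_wordsLe (n : ℕ) : (wordsLe n).card ≤ 2 ^ (n + 1) := by
  have h1 : (wordsLe n).card ≤ ∑ j ∈ Finset.range (n + 1), 2 ^ j := by
    refine Finset.card_biUnion_le.trans (Finset.sum_le_sum fun j _ => ?_)
    refine Finset.card_image_le.trans ?_
    simp
  have h2 : ∑ j ∈ Finset.range (n + 1), 2 ^ j < 2 ^ (n + 1) := Nat.geomSum_lt (le_refl 2) (by simp)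
  omega

theorem cast_sum_ofFn (q : ℕ) (X : Word → ℤ) :
    ((∑ y : Fin q → Bool, X (List.ofFn y) : ℤ) : ℝ) = sumW q (fun u => (X u : ℝ)) := by
  rw [← sum_ofFn, Int.cast_sum]

theorem cast_sum_samples (Q k q : ℕ) (X : Word → ℤ) (Y : Word) :
    ((((samples Q k Y).map fun s => X (s.take q)).sum : ℤ) : ℝ) =
      ((samples Q k Y).map fun s => (X (s.take q) : ℝ)).sum := by
  induction samples Q k Y with
  | nil => simp
  | cons a l ih => rw [List.map_cons, List.sum_cons, Int.cast_add, ih, List.map_cons, List.sum_cons]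

theorem sum_map_neg (f : Word → ℝ) (l : List Word) :
    (l.map fun s => -(f s)).sum = -(l.map f).sum := by
  induction l with
  | nil => simp
  | cons a l ih => rw [List.map_cons, List.sum_cons, ih, List.map_cons, List.sum_cons]; ring

/-- At least half of all strings `Y` isolate a member of `F` and, at the same time, give samples
that estimate the sign of the mean of `X w` correctly for all words `w` of length at most `n`. -/
theorem good_strings (P q0 M t Q k n L : ℕ) (h0 : q0 ≤ P) (hk : k * Q ≤ P) (hMt : M * t ≤ q0)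
    (ht : 4 * M ≤ 2 ^ t) (F : Set Word) (hF : F.Nonempty) (hlen : ∀ u ∈ F, u.length = M)
    (A : Set Word) (X : Word → Word → ℤ) (qf : Word → ℕ) (hL : 1 ≤ L)
    (hX : ∀ w : Word, w.length ≤ n → ∀ y : Word, y.length ≤ Q → |X w y| ≤ L)
    (hq : ∀ w : Word, w.length ≤ n → qf w ≤ Q)
    (hpos : ∀ w ∈ A, w.length ≤ n → 2 ^ qf w ≤ ∑ y : Fin (qf w) → Bool, X w (List.ofFn y))
    (hneg : ∀ w, w ∉ A → w.length ≤ n →
      ∑ y : Fin (qf w) → Bool, X w (List.ofFn y) ≤ - 2 ^ qf w)
    (hkL : 4 * L ^ 2 * (n + 4) ≤ k) :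
    2 ^ P ≤ 2 * Nat.card {Y : Fin P → Bool //
      (∃ W, ∃! u, u ∈ F ∧ wt t ((List.ofFn Y).take q0) u = W) ∧
      ∀ w : Word, w.length ≤ n →
        (w ∈ A → 0 < ((samples Q k (List.ofFn Y)).map fun s => X w (s.take (qf w))).sum) ∧
        (w ∉ A → ((samples Q k (List.ofFn Y)).map fun s => X w (s.take (qf w))).sum < 0)} := by
  classical
  set good : Finset (Fin P → Bool) := Finset.univ.filter fun Y =>
      (∃ W, ∃! u, u ∈ F ∧ wt t ((List.ofFn Y).take q0) u = W) ∧
      ∀ w : Word, w.length ≤ n →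
        (w ∈ A → 0 < ((samples Q k (List.ofFn Y)).map fun s => X w (s.take (qf w))).sum) ∧
        (w ∉ A → ((samples Q k (List.ofFn Y)).map fun s => X w (s.take (qf w))).sum < 0)
    with hgood
  have hcard : Nat.card {Y : Fin P → Bool //
      (∃ W, ∃! u, u ∈ F ∧ wt t ((List.ofFn Y).take q0) u = W) ∧
      ∀ w : Word, w.length ≤ n →
        (w ∈ A → 0 < ((samples Q k (List.ofFn Y)).map fun s => X w (s.take (qf w))).sum) ∧
        (w ∉ A → ((samples Q k (List.ofFn Y)).map fun s => X w (s.take (qf w))).sum < 0)} =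
      good.card := by
    rw [Nat.card_eq_fintype_card, Fintype.card_subtype]
  rw [hcard]
  -- the sign-normalised statistic
  set f : Word → Word → ℝ := fun w y => if w ∈ A then (X w y : ℝ) else -(X w y : ℝ) with hf
  set bad1 : Finset (Fin P → Bool) := Finset.univ.filter fun y =>
      ¬ ∃ W, ∃! u, u ∈ F ∧ wt t (List.ofFn y) u = W with hbad1
  set bad2 : Word → Finset (Fin P → Bool) := fun w => Finset.univ.filter fun Y =>
      ((samples Q k (List.ofFn Y)).map fun s => f w (s.take (qf w))).sum ≤ 0 with hbad2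
  have hb1 : bad1.card * 2 ^ t ≤ M * 2 ^ P :=
    isolation_bad P M t (hMt.trans h0) F hF hlen
  have hb2 : ∀ w ∈ wordsLe n, (bad2 w).card * 2 ^ (n + 4) ≤ 2 ^ P := by
    intro w hw
    have hwn := length_of_mem_wordsLe hw
    have hab : ∀ u : Word, u.length = qf w → |f w u| ≤ (L : ℝ) := by
      intro u hu
      have h1 := hX w hwn u (by rw [hu]; exact hq w hwn)
      have h2 : |(X w u : ℝ)| ≤ (L : ℝ) := by exact_mod_cast h1
      simp only [hf]
      split_ifs
      · exact h2
      · rw [abs_neg]; exact h2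
    have hm : 2 ^ qf w ≤ sumW (qf w) (f w) := by
      by_cases hA : w ∈ A
      · have h1 := hpos w hA hwn
        have h2 : ((2 ^ qf w : ℤ) : ℝ) ≤ ((∑ y : Fin (qf w) → Bool, X w (List.ofFn y) : ℤ) : ℝ) := by
          exact_mod_cast h1
        rw [cast_sum_ofFn] at h2
        have h3 : sumW (qf w) (f w) = sumW (qf w) (fun u => (X w u : ℝ)) := by
          apply sumW_congr
          intro u _
          simp only [hf, if_pos hA]
        rw [h3]
        push_cast at h2
        exact h2
      · have h1 := hneg w hA hwn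
        have h2 : ((∑ y : Fin (qf w) → Bool, X w (List.ofFn y) : ℤ) : ℝ) ≤ ((- 2 ^ qf w : ℤ) : ℝ) := by
          exact_mod_cast h1
        rw [cast_sum_ofFn] at h2
        have h3 : sumW (qf w) (f w) = sumW (qf w) (fun u => (-1) * (X w u : ℝ)) := by
          apply sumW_congr
          intro u _
          simp only [hf, if_neg hA]
          ring
        rw [h3, sumW_const_mul]
        push_cast at h2
        linarith
    have h1 := card_bad P Q k (qf w) n L hL hk (hq w hwn) hkL (f w) hab hm
    have h2 : ((bad2 w).card : ℝ) * 2 ^ (n + 4) ≤ 2 ^ P := h1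
    exact_mod_cast h2
  have hsub : goodᶜ ⊆ bad1 ∪ (wordsLe n).biUnion bad2 := by
    intro Y hY
    rw [Finset.mem_compl] at hY
    by_contra hno
    rw [Finset.mem_union, not_or] at hno
    apply hY
    rw [hgood, Finset.mem_filter]
    refine ⟨Finset.mem_univ _, ?_, ?_⟩
    · have h1 := hno.1
      rw [hbad1, Finset.mem_filter, not_and, not_not] at h1
      obtain ⟨W, u, ⟨hu1, hu2⟩, huniq⟩ := h1 (Finset.mem_univ _)
      refine ⟨W, u, ⟨hu1, ?_⟩, ?_⟩
      · change wt t ((List.ofFn Y).take q0) u = W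
        rw [wt_take t q0 _ u (by rw [hlen u hu1]; exact hMt)]
        exact hu2
      · rintro v ⟨hv1, hv2⟩
        apply huniq
        refine ⟨hv1, ?_⟩
        rw [wt_take t q0 _ v (by rw [hlen v hv1]; exact hMt)] at hv2
        exact hv2
    · intro w hw
      have h1 := hno.2
      rw [Finset.mem_biUnion] at h1
      push Not at h1
      have h2 := h1 w (mem_wordsLe hw)
      rw [hbad2] at h2
      simp only [Finset.mem_filter, Finset.mem_univ, true_and, not_le] at h2
      constructor
      · intro hA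
        have h3 : ((samples Q k (List.ofFn Y)).map fun s => f w (s.take (qf w))).sum =
            ((((samples Q k (List.ofFn Y)).map fun s => X w (s.take (qf w))).sum : ℤ) : ℝ) := by
          rw [cast_sum_samples Q k (qf w) (X w)]
          simp only [hf, if_pos hA]
        rw [h3] at h2
        exact_mod_cast h2
      · intro hA
        have h3 : ((samples Q k (List.ofFn Y)).map fun s => f w (s.take (qf w))).sum =
            -((((samples Q k (List.ofFn Y)).map fun s => X w (s.take (qf w))).sum : ℤ) : ℝ) := by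
          rw [cast_sum_samples Q k (qf w) (X w)]
          simp only [hf, if_neg hA]
          exact sum_map_neg _ _
        rw [h3] at h2
        have h4 : ((((samples Q k (List.ofFn Y)).map fun s => X w (s.take (qf w))).sum : ℤ) : ℝ) < 0 := by
          linarith
        exact_mod_cast h4
  have hc1 : goodᶜ.card ≤ bad1.card + ∑ w ∈ wordsLe n, (bad2 w).card :=
    (Finset.card_le_card hsub).trans ((Finset.card_union_le _ _).trans
      (Nat.add_le_add_left Finset.card_biUnion_le _))
  have hc2 : 4 * bad1.card ≤ 2 ^ P := by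
    have h1 : (4 * bad1.card) * 2 ^ t ≤ 2 ^ P * 2 ^ t := by
      calc (4 * bad1.card) * 2 ^ t = 4 * (bad1.card * 2 ^ t) := by ring
        _ ≤ 4 * (M * 2 ^ P) := Nat.mul_le_mul_left _ hb1
        _ = (4 * M) * 2 ^ P := by ring
        _ ≤ 2 ^ t * 2 ^ P := Nat.mul_le_mul_right _ ht
        _ = 2 ^ P * 2 ^ t := by ring
    exact Nat.le_of_mul_le_mul_right h1 (by positivity)
  have hc3 : 8 * ∑ w ∈ wordsLe n, (bad2 w).card ≤ 2 ^ P := by
    have h1 : (8 * ∑ w ∈ wordsLe n, (bad2 w).card) * 2 ^ (n + 1) ≤ 2 ^ P * 2 ^ (n + 1) := by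
      calc (8 * ∑ w ∈ wordsLe n, (bad2 w).card) * 2 ^ (n + 1)
          = ∑ w ∈ wordsLe n, (bad2 w).card * 2 ^ (n + 4) := by
            rw [Finset.mul_sum, Finset.sum_mul]
            apply Finset.sum_congr rfl
            intro w _
            rw [pow_add, pow_add]
            ring
        _ ≤ ∑ _w ∈ wordsLe n, 2 ^ P := Finset.sum_le_sum hb2
        _ = (wordsLe n).card * 2 ^ P := by simp
        _ ≤ 2 ^ (n + 1) * 2 ^ P := Nat.mul_le_mul_right _ (card_wordsLe n)
        _ = 2 ^ P * 2 ^ (n + 1) := by ring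
    exact Nat.le_of_mul_le_mul_right h1 (by positivity)
  have htot : good.card + goodᶜ.card = 2 ^ P := by
    have h1 := Finset.card_add_card_compl good
    rw [Fintype.card_fun, Fintype.card_bool, Fintype.card_fin] at h1
    exact h1
  omega

end Pool.Agent.Lib.MP_634427_lc
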