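import Pool.Agent.Lib.MP_634427_lc.Compress
import Pool.Agent.Lib.MP_634427_lc.ProjCands

/-!
# The compression step of the tree search
-/

namespace Pool.Agent.Lib.MP_634427_lc

open BT

section pt

variable {γ : Type} [Enc γ]

lemma pt_pathAt {N T v : γ → ℕ} {z : γ → Word} (hN : PT N) (hT : PT T) (hv : PT v)
    (hz : PT z) : PT fun c => pathAt (N c) (T c) (z c) (v c) :=
  pt_ppath hN hT (PT.take (PT.mul hT hN) (PT.drop (PT.add hN (PT.mul hv (PT.mul hT hN))) hz))

lemma pt_rel1 {N T m : γ → ℕ} {ok : γ → List ℕ → Bool} {w : γ → List ℕ} {z : γ → Word}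
    (hN : PT N) (hT : PT T) (hm : PT m) (hok : PT fun p : γ × List ℕ => ok p.1 p.2)
    (hw : PT w) (hz : PT z) : PT fun c => rel1 (N c) (T c) (ok c) (w c) (m c) (z c) := by
  have hget : PT fun p : γ × ℕ => ((z p.1).take (N p.1)).getD p.2 false :=
    PT.getLD PT.snd (PT.take (hN.comp PT.fst) (hz.comp PT.fst)) (PT.const false)
  have hpath : PT fun p : γ × ℕ => pathAt (N p.1) (T p.1) (z p.1) p.2 :=
    pt_pathAt (hN.comp PT.fst) (hT.comp PT.fst) PT.snd (hz.comp PT.fst)
  have h1 : PT fun c => ((List.range (N c)).filter fun v => ((z c).take (N c)).getD v false) :=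
    PT.filter (p := fun c v => ((z c).take (N c)).getD v false) (PT.range hN) hget
  have h2 : PT fun p : γ × ℕ => (!((z p.1).take (N p.1)).getD p.2 false ||
      (ok p.1 (pathAt (N p.1) (T p.1) (z p.1) p.2) &&
        decide ((pathAt (N p.1) (T p.1) (z p.1) p.2).take ((w p.1).length + 1) =
          w p.1 ++ [p.2]))) :=
    PT.or (PT.not hget) (PT.and (hok.comp (PT.pair PT.fst hpath))
      (PT.eqDec enc_numlist_injective (PT.take (PT.succ (PT.length (hw.comp PT.fst))) hpath)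
        (PT.append (hw.comp PT.fst) (PT.cons PT.snd (PT.const [])))))
  exact PT.and (PT.eqNat (PT.length h1) hm) (PT.all (p := fun c v =>
    (!((z c).take (N c)).getD v false || (ok c (pathAt (N c) (T c) (z c) v) &&
        decide ((pathAt (N c) (T c) (z c) v).take ((w c).length + 1) = w c ++ [v]))))
    (PT.range hN) h2)

lemma pt_follows {T : γ → ℕ} {sel : γ → List ℕ → ℕ → ℕ → Bool} {D y : γ → List ℕ} (hT : PT T)
    (hsel : PT fun p : γ × (List ℕ × (ℕ × ℕ)) => sel p.1 p.2.1 p.2.2.1 p.2.2.2)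
    (hD : PT D) (hy : PT y) : PT fun c => follows (T c) (sel c) (D c) (y c) := by
  have h1 : PT fun p : γ × ℕ => sel p.1 ((y p.1).take p.2) ((D p.1).getD p.2 0)
      ((y p.1).getD p.2 0) :=
    hsel.comp (PT.pair PT.fst (PT.pair (PT.take PT.snd (hy.comp PT.fst))
      (PT.pair (PT.getLD PT.snd (hD.comp PT.fst) (PT.const 0))
        (PT.getLD PT.snd (hy.comp PT.fst) (PT.const 0)))))
  exact PT.all (p := fun c j => sel c ((y c).take j) ((D c).getD j 0) ((y c).getD j 0))
    (PT.range hT) h1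

end pt

/-- Candidates for the set of good children. -/
theorem exists_childCands (hP : ProjCands) {α : Type}
    [Enc α] (T N : α → ℕ) (ok : α → List ℕ → Bool) (hT : PT T) (hN : PT N)
    (hok : PT fun p : α × List ℕ => ok p.1 p.2)
    (hokN : ∀ a y, ok a y = true → ∀ v ∈ y, v < N a) :
    ∃ E : α × List ℕ → List Word, PT E ∧ ∀ a w, ∃ χ ∈ E (a, w), χ.length = N a ∧
      ∀ v, χ.getD v false = true ↔ GoodChild (T a) (ok a) w v := by
  have h1 : PT fun p : ((α × List ℕ) × ℕ) × Word =>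
      rel1 (N p.1.1.1) (T p.1.1.1) (ok p.1.1.1) p.1.1.2 p.1.2 p.2 :=
    pt_rel1 (ok := fun p : ((α × List ℕ) × ℕ) × Word => ok p.1.1.1)
      (hN.comp (PT.fst' (PT.fst' PT.fst))) (hT.comp (PT.fst' (PT.fst' PT.fst))) (PT.snd' PT.fst)
      (hok.comp (PT.pair (PT.fst' (PT.fst' (PT.fst' PT.fst))) PT.snd)) (PT.snd' (PT.fst' PT.fst))
      PT.snd
  have h2 : PT fun p : ((α × List ℕ) × ℕ) × Word => p.2.take (N p.1.1.1) :=
    PT.take (hN.comp (PT.fst' (PT.fst' PT.fst))) PT.snd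
  have h3 : PT fun p : (α × List ℕ) × ℕ => N p.1.1 := hN.comp (PT.fst' PT.fst)
  have h4 : PT fun p : (α × List ℕ) × ℕ => N p.1.1 + N p.1.1 * (T p.1.1 * N p.1.1) :=
    PT.add h3 (PT.mul h3 (PT.mul (hT.comp (PT.fst' PT.fst)) h3))
  obtain ⟨cand, hcand, hc⟩ := hP _ _ _ _ h1 h2 h4 h3
  refine ⟨fun p => (List.range (N p.1 + 1)).flatMap fun m => cand (p, m), ?_, fun a w => ?_⟩
  · exact PT.flatMap (f := fun p m => cand (p, m)) (PT.range (PT.succ (hN.comp PT.fst))) hcand
  · obtain ⟨m, χ, hm, hχ, hχG, hex, huniq⟩ := exists_children (N a) (T a) (ok a) (hokN a) w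
    refine ⟨χ, ?_, hχ, hχG⟩
    rw [List.mem_flatMap]
    exact ⟨m, List.mem_range.2 (Nat.lt_succ_of_le hm), hc ((a, w), m) χ hχ hex huniq⟩

lemma getD_mem_true {e : Word} {v : ℕ} (h : e.getD v false = true) : true ∈ e := by
  by_cases hv : v < e.length
  · rw [List.getD_eq_getElem _ _ hv] at h
    rw [← h]; exact List.getElem_mem hv
  · rw [List.getD_eq_default _ _ (by omega)] at h
    simp at h

/-- A short list of selectors; each nonempty set of good children has a member isolated by one of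
them. -/
theorem exists_sel (hP : ProjCands)
    (iso : ℕ × List Word → List Word) (hiso : PT iso)
    (hlen : ∀ N E, (iso (N, E)).length ≤ 16 * ((lg N).1 + 2) * ((lg E.length).1 + 2))
    (hprop : ∀ N E e, e ∈ E → e.length = N → true ∈ e → ∃ C ∈ iso (N, E), common C e = 1)
    {α : Type} [Enc α] (T N : α → ℕ) (ok : α → List ℕ → Bool) (hT : PT T) (hN : PT N)
    (hok : PT fun p : α × List ℕ => ok p.1 p.2)
    (hokN : ∀ a y, ok a y = true → ∀ v ∈ y, v < N a) :
    ∃ (sel : α → List ℕ → ℕ → ℕ → Bool) (C : ℕ),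
      (PT fun p : α × (List ℕ × (ℕ × ℕ)) => sel p.1 p.2.1 p.2.2.1 p.2.2.2) ∧
      ∀ a w, w.length < T a → (∃ v, GoodChild (T a) (ok a) w v) →
        ∃ i < C * ((lg (sz a + 2)).1 + 1) ^ 2, ∃ v, sel a w i v = true ∧
          GoodChild (T a) (ok a) w v ∧
          ∀ v', sel a w i v' = true → GoodChild (T a) (ok a) w v' → v' = v := by
  obtain ⟨E, hE, hEG⟩ := exists_childCands hP T N ok hT hN hok hokN
  obtain ⟨k1, hk1⟩ := hN.size_le
  obtain ⟨k2, hk2⟩ := hT.size_le
  obtain ⟨k3, hk3⟩ := hE.size_le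
  simp only [sz_nat] at hk1 hk2
  obtain ⟨e, he⟩ : PB fun n => (n + (n + 2) ^ k2 * ((n + 2) ^ k1 + 1) + 1 + 2) ^ k3 :=
    PB.pow (PB.add (PB.add (PB.add PB.id (PB.mul ⟨k2, fun n => le_rfl⟩
      (PB.add ⟨k1, fun n => le_rfl⟩ (PB.const 1)))) (PB.const 1)) (PB.const 2)) k3
  have hEl : ∀ a w, w.length < T a → (∀ v ∈ w, v < N a) →
      (E (a, w)).length ≤ (sz a + 2) ^ e := by
    intro a w hw hwN
    have h1 := hk3 (a, w)
    have h2 : sz w ≤ (sz a + 2) ^ k2 * ((sz a + 2) ^ k1 + 1) :=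
      (sz_numlist_le w (N a) hwN).trans (Nat.mul_le_mul (hw.le.trans (hk2 a))
        (Nat.add_le_add_right (hk1 a) 1))
    refine (length_le_sz _).trans (h1.trans (le_trans (Nat.pow_le_pow_left ?_ k3) (he (sz a))))
    rw [sz_pair]
    omega
  have hget : PT fun p : α × (List ℕ × (ℕ × ℕ)) =>
      ((iso (N p.1, E (p.1, p.2.1))).getD p.2.2.1 []).getD p.2.2.2 false := by
    have h1 : PT fun p : α × (List ℕ × (ℕ × ℕ)) => iso (N p.1, E (p.1, p.2.1)) :=
      hiso.comp (PT.pair (hN.comp PT.fst) (hE.comp (PT.pair PT.fst (PT.fst' PT.snd))))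
    exact PT.getLD (PT.snd' (PT.snd' PT.snd))
      (PT.getLD (PT.fst' (PT.snd' PT.snd)) h1 (PT.const [])) (PT.const false)
  refine ⟨fun a w i v => ((iso (N a, E (a, w))).getD i []).getD v false,
    16 * (k1 + 3) * (e + 3), hget, ?_⟩
  rintro a w hw ⟨v0, hv0⟩
  obtain ⟨χ, hχ, hχl, hχG⟩ := hEG a w
  obtain ⟨C, hC, hC1⟩ := hprop (N a) (E (a, w)) χ hχ hχl (getD_mem_true ((hχG v0).2 hv0))
  obtain ⟨v, hv1, hv2, hv3, hv4⟩ := common_one hC1
  obtain ⟨i, hi, hiC⟩ := List.mem_iff_getElem.1 hC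
  refine ⟨i, lt_of_lt_of_le hi ((hlen _ _).trans ?_), v, ?_, (hχG v).1 hv3, fun v' h1 h2 => ?_⟩
  · have hwN : ∀ x ∈ w, x < N a := by
      obtain ⟨y, hy1, hy2, hy3⟩ := hv0
      intro x hx
      refine hokN a y hy2 x (List.mem_of_mem_take (i := w.length + 1) ?_)
      rw [hy3]
      exact List.mem_append_left _ hx
    have h1 := lg_le_of_le_pow (hk1 a)
    have h2 := lg_le_of_le_pow (hEl a w hw hwN)
    generalize (lg (sz a + 2)).1 = L at h1 h2 ⊢
    have h3 : (lg (N a)).1 + 2 ≤ (k1 + 3) * (L + 1) := by nlinarith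
    have h4 : (lg (E (a, w)).length).1 + 2 ≤ (e + 3) * (L + 1) := by nlinarith
    calc 16 * ((lg (N a)).1 + 2) * ((lg (E (a, w)).length).1 + 2)
        ≤ 16 * ((k1 + 3) * (L + 1)) * ((e + 3) * (L + 1)) :=
          Nat.mul_le_mul (Nat.mul_le_mul_left _ h3) h4
      _ = 16 * (k1 + 3) * (e + 3) * (L + 1) ^ 2 := by ring
  · show ((iso (N a, E (a, w))).getD i []).getD v false = true
    rw [List.getD_eq_getElem _ _ hi, hiC]
    exact hv2
  · refine hv4 v' ?_ ((hχG v').2 h2)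
    have h1' : ((iso (N a, E (a, w))).getD i []).getD v' false = true := h1
    rwa [List.getD_eq_getElem _ _ hi, hiC] at h1'

/-- Candidates for the paths that follow a descriptor. -/
theorem exists_descCands (hP : ProjCands)
    {α : Type} [Enc α] (T N : α → ℕ) (ok : α → List ℕ → Bool) (hT : PT T) (hN : PT N)
    (hok : PT fun p : α × List ℕ => ok p.1 p.2)
    (hokN : ∀ a y, ok a y = true → ∀ v ∈ y, v < N a)
    (sel : α → List ℕ → ℕ → ℕ → Bool)
    (hsel : PT fun p : α × (List ℕ × (ℕ × ℕ)) => sel p.1 p.2.1 p.2.2.1 p.2.2.2) :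
    ∃ cand : α × List ℕ → List Word, PT cand ∧ ∀ a D y, y.length = T a → ok a y = true →
      follows (T a) (sel a) D y = true →
      (∀ y' : List ℕ, y'.length = T a → ok a y' = true → follows (T a) (sel a) D y' = true →
        y' = y) → ∃ u ∈ cand (a, D), ppath (N a) (T a) u = y := by
  have hpath : PT fun p : (α × List ℕ) × Word => ppath (N p.1.1) (T p.1.1) p.2 :=
    pt_ppath (hN.comp (PT.fst' PT.fst)) (hT.comp (PT.fst' PT.fst)) PT.snd
  have h1 : PT fun p : (α × List ℕ) × Word => (ok p.1.1 (ppath (N p.1.1) (T p.1.1) p.2) &&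
      follows (T p.1.1) (sel p.1.1) p.1.2 (ppath (N p.1.1) (T p.1.1) p.2)) :=
    PT.and (hok.comp (PT.pair (PT.fst' PT.fst) hpath))
      (pt_follows (sel := fun p : (α × List ℕ) × Word => sel p.1.1) (hT.comp (PT.fst' PT.fst))
        (hsel.comp (PT.pair (PT.fst' (PT.fst' PT.fst)) PT.snd)) (PT.snd' PT.fst) hpath)
  have h2 : PT fun p : (α × List ℕ) × Word => pcode (N p.1.1) (ppath (N p.1.1) (T p.1.1) p.2) :=
    pt_pcode (hN.comp (PT.fst' PT.fst)) hpath
  have h3 : PT fun p : α × List ℕ => T p.1 * N p.1 :=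
    PT.mul (hT.comp PT.fst) (hN.comp PT.fst)
  obtain ⟨cand, hcand, hc⟩ := hP _ _ _ _ h1 h2 h3 h3
  refine ⟨cand, hcand, fun a D y h4 h5 h6 h7 => ?_⟩
  have hyN := hokN a y h5
  have hpp : ppath (N a) (T a) (pcode (N a) y) = y := by
    have h8 := ppath_pcode hyN []
    rwa [List.append_nil, h4] at h8
  have hlen : (pcode (N a) y).length = T a * N a := by
    rw [length_pcode hyN, h4]
  refine ⟨pcode (N a) y, hc (a, D) (pcode (N a) y) hlen ⟨pcode (N a) y, hlen, ?_⟩
    fun z hz hRz => ?_, hpp⟩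
  · show (ok a (ppath (N a) (T a) (pcode (N a) y)) &&
      follows (T a) (sel a) D (ppath (N a) (T a) (pcode (N a) y))) = true
    rw [hpp, h5, h6]
    rfl
  · have hRz' : (ok a (ppath (N a) (T a) z) &&
      follows (T a) (sel a) D (ppath (N a) (T a) z)) = true := hRz
    rw [Bool.and_eq_true] at hRz'
    show pcode (N a) (ppath (N a) (T a) z) = pcode (N a) y
    rw [h7 _ (length_ppath _ _ _) hRz'.1 hRz'.2]

/-- acceptance of paths -/
def okp {α : Type} (N : α → ℕ) (Leaf : α × List ℕ → Bool) (a : α) (y : List ℕ) : Bool :=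
  (y.all fun v => decide (v < N a)) && Leaf (a, y)

lemma okp_iff {α : Type} (N : α → ℕ) (Leaf : α × List ℕ → Bool) (a : α) (y : List ℕ) :
    okp N Leaf a y = true ↔ (∀ v ∈ y, v < N a) ∧ Leaf (a, y) = true := by
  simp [okp]

lemma pt_okp {α : Type} [Enc α] {N : α → ℕ} {Leaf : α × List ℕ → Bool} (hN : PT N)
    (hL : PT Leaf) : PT fun p : α × List ℕ => okp N Leaf p.1 p.2 :=
  PT.and (PT.all (p := fun (p : α × List ℕ) v => decide (v < N p.1)) PT.snd
    (PT.lt PT.snd (hN.comp (PT.fst' PT.fst)))) hL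

/-- The compression step: if paths of length `t` can be found and the lists of `s` selectors are
polynomially many, then paths of length `t * s` can be found. -/
theorem searchable_mul (hP : ProjCands)
    (iso : ℕ × List Word → List Word) (hiso : PT iso)
    (hlen : ∀ N E, (iso (N, E)).length ≤ 16 * ((lg N).1 + 2) * ((lg E.length).1 + 2))
    (hprop : ∀ N E e, e ∈ E → e.length = N → true ∈ e → ∃ C ∈ iso (N, E), common C e = 1)
    {α : Type} [Enc α] (t s : α → ℕ) (ht : PT t) (hs : PT s)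
    (hsb : ∀ C : ℕ, ∃ k, ∀ a, (C * ((lg (sz a + 2)).1 + 1) ^ 2) ^ s a ≤ (sz a + 2) ^ k)
    (hts : Searchable t) : Searchable fun a => t a * s a := by
  intro N Leaf hN hLeaf
  have hT : PT fun a => t a * s a := PT.mul ht hs
  have hok := pt_okp hN hLeaf
  have hokN : ∀ a y, okp N Leaf a y = true → ∀ v ∈ y, v < N a := fun a y h =>
    ((okp_iff _ _ _ _).1 h).1
  obtain ⟨sel, C, hsel, hselP⟩ := exists_sel hP iso hiso hlen hprop _ N (okp N Leaf) hT hN hok
    hokN
  obtain ⟨cand, hcand, hc⟩ := exists_descCands hP _ N (okp N Leaf) hT hN hok hokN sel hsel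
  obtain ⟨q, hq0⟩ : ∃ q : α → ℕ, q = fun a => C * ((lg (sz a + 2)).1 + 1) ^ 2 := ⟨_, rfl⟩
  have hqP : PT q := by
    rw [hq0]
    exact PT.mul (PT.const C) (PT.pow (PT.succ (PT.fst' (pt_lg (PT.add (PT.size PT.id)
      (PT.const 2))))) 2)
  have hseq : PT fun a => seqs (q a) (s a) := by
    refine pt_seqs hqP hs ?_
    obtain ⟨k, hk⟩ := hsb (C + 1)
    refine ⟨k, fun a => (Nat.pow_le_pow_left ?_ _).trans (hk a)⟩
    rw [hq0]
    have h1 : 1 ≤ ((lg (sz a + 2)).1 + 1) ^ 2 := Nat.one_le_pow _ _ (by omega)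
    show C * ((lg (sz a + 2)).1 + 1) ^ 2 + 1 ≤ (C + 1) * ((lg (sz a + 2)).1 + 1) ^ 2
    rw [Nat.add_mul]
    omega
  obtain ⟨dec, hdec0⟩ : ∃ dec : α × List ℕ → List ℕ, dec = fun p =>
    p.2.flatMap fun i => (seqs (q p.1) (s p.1)).getD i [] := ⟨_, rfl⟩
  have hdec : PT dec := by
    rw [hdec0]
    exact PT.flatMap (f := fun (p : α × List ℕ) i => (seqs (q p.1) (s p.1)).getD i []) PT.snd
      (PT.getLD PT.snd (hseq.comp (PT.fst' PT.fst)) (PT.const []))
  obtain ⟨good, hgood0⟩ : ∃ good : α × Word → Bool, good = fun p =>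
    okp N Leaf p.1 (ppath (N p.1) (t p.1 * s p.1) p.2) := ⟨_, rfl⟩
  have hgood : PT good := by
    rw [hgood0]
    exact hok.comp (PT.pair PT.fst (pt_ppath (hN.comp PT.fst) (hT.comp PT.fst) PT.snd))
  obtain ⟨sol', hsol', hsolP⟩ := hts (fun a => (seqs (q a) (s a)).length)
    (fun p => (cand (p.1, dec p)).any fun u => good (p.1, u)) (PT.length hseq)
    (PT.any (p := fun p u => good (p.1, u)) (hcand.comp (PT.pair PT.fst hdec))
      (hgood.comp (PT.pair (PT.fst' PT.fst) PT.snd)))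
  refine ⟨fun a => ppath (N a) (t a * s a)
    (((cand (a, dec (a, sol' a))).find? fun u => good (a, u)).getD []), ?_, ?_⟩
  · exact pt_ppath hN hT (PT.getD (PT.find? (p := fun a u => good (a, u))
      (hcand.comp (PT.pair PT.id (hdec.comp (PT.pair PT.id hsol')))) hgood) (PT.const []))
  · rintro a ⟨y, hy1, hy2, hy3⟩
    have hoky : okp N Leaf a y = true := (okp_iff _ _ _ _).2 ⟨hy2, hy3⟩
    obtain ⟨D, y0, hD1, hD2, hy01, hy02, hy03, huniq⟩ := exists_descriptor (t a * s a) (q a)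
      (okp N Leaf a) (sel a) ⟨y, hy1, hoky⟩ (fun w hw hex => by
        have h1 := hselP a w hw (exists_goodChild hw hex)
        rw [hq0]
        exact h1)
    obtain ⟨y', hy'1, hy'2, hy'3⟩ := exists_chunks (q a) (s a) (t a) D hD1 hD2
    have hdecD : dec (a, y') = D := by rw [hdec0, hy'3]
    obtain ⟨u, hu, huy⟩ := hc a D y0 hy01 hy02 hy03 huniq
    have hsp := hsolP a ⟨y', hy'1, by rw [length_seqs]; exact hy'2, by
      show ((cand (a, dec (a, y'))).any fun u => good (a, u)) = true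
      rw [hdecD, List.any_eq_true]
      refine ⟨u, hu, ?_⟩
      rw [hgood0]
      show okp N Leaf a (ppath (N a) (t a * s a) u) = true
      rw [huy, hy02]⟩
    have hsp3 : ((cand (a, dec (a, sol' a))).any fun u => good (a, u)) = true := hsp.2.2
    rw [List.any_eq_true] at hsp3
    obtain ⟨u1, hu1, hu1g⟩ := hsp3
    rcases hf : (cand (a, dec (a, sol' a))).find? fun u => good (a, u) with _ | u2
    · exact absurd hu1g (List.find?_eq_none.1 hf u1 hu1)
    · have hg2 := List.find?_some hf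
      simp only [hf, Option.getD_some]
      rw [hgood0] at hg2
      have hg3 := (okp_iff N Leaf a _).1 hg2
      exact ⟨length_ppath _ _ _, hg3.1, hg3.2⟩

end Pool.Agent.Lib.MP_634427_lc
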