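import Pool.Agent.Lib.MP_634427_lc.Defs

/-!
# Parity tests on lists of words: orthogonality, extension, greedy compression
-/

namespace Pool.Agent.Lib.MP_634427_lc

theorem par_nil_left (c : Word) : par [] c = false := by
  cases c <;> rfl

theorem par_nil_right (r : Word) : par r [] = false := by
  cases r <;> rfl

theorem par_cons (a b : Bool) (r c : Word) : par (a :: r) (b :: c) = xor (a && b) (par r c) := rfl

theorem addw_nil_left (c : Word) : addw [] c = c := by cases c <;> rfl

theorem addw_nil_right (r : Word) : addw r [] = r := by cases r <;> rfl

theorem addw_cons (a b : Bool) (r c : Word) : addw (a :: r) (b :: c) = xor a b :: addw r c := rfl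

theorem par_addw (r s c : Word) : par (addw r s) c = xor (par r c) (par s c) := by
  induction r generalizing s c with
  | nil => rw [addw_nil_left, par_nil_left, Bool.false_xor]
  | cons a r ih =>
    cases s with
    | nil => rw [addw_nil_right, par_nil_left, Bool.xor_false]
    | cons b s =>
      cases c with
      | nil => simp [par_nil_right]
      | cons d c =>
        rw [addw_cons, par_cons, par_cons, par_cons, ih]
        cases a <;> cases b <;> cases d <;> cases par r c <;> cases par s c <;> rfl

theorem par_append_of_le (r c c' : Word) (h : r.length ≤ c.length) :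
    par r (c ++ c') = par r c := by
  induction r generalizing c with
  | nil => rw [par_nil_left, par_nil_left]
  | cons a r ih =>
    cases c with
    | nil => simp at h
    | cons b c =>
      rw [List.cons_append, par_cons, par_cons, ih c (by simpa using h)]

theorem unitw_succ (n : ℕ) : unitw (n + 1) = false :: unitw n := by
  simp [unitw, List.replicate_succ]

theorem par_unitw (c : Word) (b : Bool) : par (unitw c.length) (c ++ [b]) = b := by
  induction c with
  | nil => simp [unitw, par_cons, par_nil_left]
  | cons a c ih =>
    rw [List.length_cons, unitw_succ, List.cons_append, par_cons, ih]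
    simp

theorem length_addw (r s : Word) : (addw r s).length = max r.length s.length := by
  induction r generalizing s with
  | nil => rw [addw_nil_left]; simp
  | cons a r ih =>
    cases s with
    | nil => rw [addw_nil_right]; simp
    | cons b s =>
      rw [addw_cons, List.length_cons, ih, List.length_cons, List.length_cons]
      omega

theorem length_unitw (j : ℕ) : (unitw j).length = j + 1 := by simp [unitw]

theorem mem_ext (B : List Word) (c : Word) :
    c ∈ ext B ↔ ∃ c0 ∈ B, ∃ b, c = c0 ++ [b] := by
  unfold ext
  rw [List.mem_flatMap]
  constructor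
  · rintro ⟨c0, h0, h⟩
    refine ⟨c0, h0, ?_⟩
    simp only [List.mem_cons, List.not_mem_nil, or_false] at h
    rcases h with h | h
    · exact ⟨false, h⟩
    · exact ⟨true, h⟩
  · rintro ⟨c0, h0, b, rfl⟩
    refine ⟨c0, h0, ?_⟩
    cases b <;> simp

theorem append_singleton_inj {c c' : Word} {b b' : Bool} (h : c ++ [b] = c' ++ [b']) :
    c = c' ∧ b = b' := by
  have := List.append_inj' h rfl
  exact ⟨this.1, by simpa using this.2⟩

theorem nodup_ext (B : List Word) (h : B.Nodup) : (ext B).Nodup := by
  unfold ext
  rw [List.nodup_flatMap]
  constructor
  · intro c _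
    rw [List.nodup_cons]
    refine ⟨?_, List.nodup_singleton _⟩
    intro hc
    rw [List.mem_singleton] at hc
    exact Bool.false_ne_true (append_singleton_inj hc).2
  · refine List.Pairwise.imp ?_ h
    intro c c' hne
    simp only [Function.onFun]
    intro x hx hx'
    simp only [List.mem_cons, List.not_mem_nil, or_false] at hx hx'
    rcases hx with rfl | rfl <;> rcases hx' with hx' | hx' <;>
      exact hne (append_singleton_inj hx').1

theorem length_ext (B : List Word) : (ext B).length = 2 * B.length := by
  induction B with
  | nil => rfl
  | cons c B ih =>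
    have : ext (c :: B) = [c ++ [false], c ++ [true]] ++ ext B := rfl
    rw [this, List.length_append, ih]
    simp only [List.length_cons, List.length_nil]
    omega

theorem Orth.subset {R B B' : List Word} (h : Orth R B) (hs : ∀ c ∈ B', c ∈ B) :
    Orth R B' := fun c hc c' hc' hne => h c (hs c hc) c' (hs c' hc') hne

theorem sgn_xor_beq (a b x y : Bool) :
    sgn (xor a x == xor b y) = sgn (a == b) * sgn (x == y) := by
  cases a <;> cases b <;> cases x <;> cases y <;> simp [sgn]

/-- Orthogonality is kept when candidates are extended by a bit and the unit vector of the new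
position is added to the generators. -/
theorem Orth.ext {R B : List Word} (j : ℕ) (h : Orth R B) (hB : ∀ c ∈ B, c.length = j)
    (hR : ∀ r ∈ R, r.length ≤ j) : Orth (addGen (unitw j) R) (ext B) := by
  intro c1 hc1 c2 hc2 hne
  obtain ⟨c, hc, b, rfl⟩ := (mem_ext B c1).mp hc1
  obtain ⟨c', hc', b', rfl⟩ := (mem_ext B c2).mp hc2
  unfold addGen
  rw [List.map_append, List.sum_append, List.map_map]
  have e1 : ∀ r ∈ R, ∀ c ∈ B, ∀ b : Bool, par r (c ++ [b]) = par r c := by
    intro r hr c hc b
    exact par_append_of_le r c [b] (by rw [hB c hc]; exact hR r hr)
  have e2 : ∀ c ∈ B, ∀ b : Bool, par (unitw j) (c ++ [b]) = b := by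
    intro c hc b
    have := par_unitw c b
    rwa [hB c hc] at this
  have h1 : (R.map fun r => sgn (par r (c ++ [b]) == par r (c' ++ [b'])))
      = R.map fun r => sgn (par r c == par r c') := by
    apply List.map_congr_left
    intro r hr
    rw [e1 r hr c hc b, e1 r hr c' hc' b']
  have h2 : (R.map ((fun r => sgn (par r (c ++ [b]) == par r (c' ++ [b']))) ∘ addw (unitw j)))
      = R.map fun r => sgn (b == b') * sgn (par r c == par r c') := by
    apply List.map_congr_left
    intro r hr
    simp only [Function.comp_apply]
    rw [par_addw, par_addw, e1 r hr c hc b, e1 r hr c' hc' b', e2 c hc b, e2 c' hc' b',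
      sgn_xor_beq]
  rw [h1, h2, List.sum_map_mul_left]
  by_cases hcc : c = c'
  · subst hcc
    have hbb : b ≠ b' := fun hb => hne (by rw [hb])
    have : sgn (b == b') = -1 := by
      cases b <;> cases b' <;> simp_all [sgn]
    rw [this]
    ring
  · rw [h c hc c' hc' hcc]
    ring

/-! ### The greedy separation procedure -/

theorem mem_pairs (B : List Word) (p : Word × Word) :
    p ∈ pairs B ↔ p.1 ∈ B ∧ p.2 ∈ B ∧ p.1 ≠ p.2 := by
  unfold pairs
  rw [List.mem_flatMap]
  constructor
  · rintro ⟨c, hc, h⟩
    rw [List.mem_map] at h
    obtain ⟨c', h, rfl⟩ := h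
    rw [List.mem_filter] at h
    exact ⟨hc, h.1, by simpa using h.2⟩
  · rintro ⟨h1, h2, h3⟩
    refine ⟨p.1, h1, ?_⟩
    rw [List.mem_map]
    refine ⟨p.2, ?_, rfl⟩
    rw [List.mem_filter]
    exact ⟨h2, by simpa using h3⟩

theorem length_pairs_aux (B B' : List Word) :
    (B.flatMap fun c => (B'.filter fun c' => decide (c ≠ c')).map fun c' => (c, c')).length
      ≤ B.length * B'.length := by
  induction B with
  | nil => simp
  | cons c B ih =>
    rw [List.flatMap_cons, List.length_append, List.length_map, List.length_cons]
    have := List.length_filter_le (fun c' => decide (c ≠ c')) B'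
    nlinarith

theorem length_pairs (B : List Word) : (pairs B).length ≤ B.length * B.length :=
  length_pairs_aux B B

/-- State of the greedy procedure after `n` steps. -/
def stt (R B : List Word) (n : ℕ) : List Word × List (Word × Word) :=
  (sepStep R)^[n] ([], pairs B)

theorem stt_zero (R B : List Word) : stt R B 0 = ([], pairs B) := rfl

theorem stt_succ (R B : List Word) (n : ℕ) : stt R B (n + 1) = sepStep R (stt R B n) := by
  unfold stt; rw [Function.iterate_succ_apply']

theorem sum_sgn_filter (U : List (Word × Word)) (r : Word) :
    (U.map fun p => sgn (par r p.1 == par r p.2)).sum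
      = (U.length : ℤ) - 2 * (U.filter fun p => par r p.1 != par r p.2).length := by
  induction U with
  | nil => simp
  | cons p U ih =>
    rw [List.map_cons, List.sum_cons, ih, List.length_cons]
    by_cases hp : par r p.1 = par r p.2
    · rw [List.filter_cons_of_neg (by simp [hp])]
      simp [hp, sgn]
      ring
    · rw [List.filter_cons_of_pos (by simpa using hp)]
      have : (par r p.1 == par r p.2) = false := by simpa using hp
      rw [this, List.length_cons]
      simp [sgn]
      ring

theorem length_filter_add (U : List (Word × Word)) (r : Word) :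
    (U.filter fun p => par r p.1 != par r p.2).length
      + (U.filter fun p => par r p.1 == par r p.2).length = U.length := by
  induction U with
  | nil => simp
  | cons p U ih =>
    by_cases hp : par r p.1 = par r p.2
    · rw [List.filter_cons_of_neg (by simp [hp]), List.filter_cons_of_pos (by simp [hp]),
        List.length_cons, List.length_cons]
      omega
    · rw [List.filter_cons_of_pos (by simpa using hp), List.filter_cons_of_neg (by simpa using hp),
        List.length_cons, List.length_cons]
      omega

theorem list_sum_comm {α β : Type} (A : List α) (U : List β) (f : α → β → ℤ) :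
    (A.map fun r => (U.map fun p => f r p).sum).sum
      = (U.map fun p => (A.map fun r => f r p).sum).sum := by
  induction A with
  | nil => simp
  | cons a A ih =>
    simp only [List.map_cons, List.sum_cons]
    rw [ih, ← List.sum_map_add]

/-- Averaging: some test separates at least half of the pairs. -/
theorem exists_good {R B : List Word} (hR : R ≠ []) (h : Orth R B) (U : List (Word × Word))
    (hU : ∀ p ∈ U, p ∈ pairs B) :
    ∃ r ∈ R, U.length ≤ 2 * (U.filter fun p => par r p.1 != par r p.2).length := by
  by_contra hcon
  push Not at hcon
  have h1 : (R.map fun r => (U.map fun p => sgn (par r p.1 == par r p.2)).sum).sum = 0 := by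
    rw [list_sum_comm]
    apply List.sum_eq_zero
    intro x hx
    rw [List.mem_map] at hx
    obtain ⟨p, hp, rfl⟩ := hx
    obtain ⟨a, b, c⟩ := (mem_pairs B p).mp (hU p hp)
    exact h p.1 a p.2 b c
  have h2 : (R.map fun _ => (1 : ℤ)).sum
      ≤ (R.map fun r => (U.map fun p => sgn (par r p.1 == par r p.2)).sum).sum := by
    apply List.sum_le_sum
    intro r hr
    rw [sum_sgn_filter]
    have := hcon r hr
    have : ((2 * (U.filter fun p => par r p.1 != par r p.2).length : ℕ) : ℤ) < (U.length : ℤ) := by
      exact_mod_cast this
    push_cast at this
    linarith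
  rw [h1] at h2
  have h3 : (R.map fun _ => (1 : ℤ)).sum = R.length := by simp
  rw [h3] at h2
  have : 0 < R.length := List.length_pos_of_ne_nil hR
  have : (0 : ℤ) < R.length := by exact_mod_cast this
  linarith

/-- One step in the non-terminated case. -/
theorem sepStep_spec {R B : List Word} (hR : R ≠ []) (h : Orth R B)
    (st : List Word × List (Word × Word)) (hU : ∀ p ∈ st.2, p ∈ pairs B)
    (hne : st.2.length ≠ 0) :
    ∃ r ∈ R, sepStep R st = (r :: st.1, st.2.filter fun p => par r p.1 == par r p.2) ∧
      2 * (sepStep R st).2.length ≤ st.2.length := by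
  unfold sepStep
  rw [if_neg hne]
  obtain ⟨r0, hr0, hgood⟩ := exists_good hR h st.2 hU
  cases hf : R.find? (fun r =>
      decide (st.2.length ≤ 2 * (st.2.filter fun p => par r p.1 != par r p.2).length)) with
  | none =>
    exfalso
    have := List.find?_eq_none.mp hf r0 hr0
    simp only [decide_eq_true_eq] at this
    exact this hgood
  | some r =>
    have hr := List.mem_of_find?_eq_some hf
    have hg := List.find?_some hf
    simp only [decide_eq_true_eq] at hg
    refine ⟨r, hr, rfl, ?_⟩
    simp only [Option.getD_some]
    have := length_filter_add st.2 r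
    omega

theorem sepStep_fix (R : List Word) (st : List Word × List (Word × Word))
    (h0 : st.2.length = 0) : sepStep R st = st := by
  unfold sepStep
  rw [if_pos h0]

theorem stt_sub {R B : List Word} (n : ℕ) :
    ∀ p ∈ (stt R B n).2, p ∈ pairs B := by
  induction n with
  | zero => intro p hp; exact hp
  | succ n ih =>
    intro p hp
    rw [stt_succ] at hp
    unfold sepStep at hp
    split_ifs at hp with h0
    · exact ih p hp
    · simp only at hp
      exact ih p (List.mem_filter.mp hp).1

theorem stt_sep {R B : List Word} (n : ℕ) (p : Word × Word) (hp : p ∈ pairs B) :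
    p ∈ (stt R B n).2 ∨ ∃ g ∈ (stt R B n).1, par g p.1 ≠ par g p.2 := by
  induction n with
  | zero => left; exact hp
  | succ n ih =>
    rw [stt_succ]
    unfold sepStep
    split_ifs with h0
    · exact ih
    · simp only
      rcases ih with h | ⟨g, hg, h⟩
      · by_cases hs : par ((R.find? fun r => decide ((stt R B n).2.length ≤
            2 * ((stt R B n).2.filter fun p => par r p.1 != par r p.2).length)).getD []) p.1 =
          par ((R.find? fun r => decide ((stt R B n).2.length ≤
            2 * ((stt R B n).2.filter fun p => par r p.1 != par r p.2).length)).getD []) p.2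
        · left
          rw [List.mem_filter]
          exact ⟨h, by simpa using hs⟩
        · right
          exact ⟨_, List.mem_cons_self, hs⟩
      · right
        exact ⟨g, List.mem_cons_of_mem _ hg, h⟩

theorem stt_len {R B : List Word} (hR : R ≠ []) (h : Orth R B) (n : ℕ) :
    2 ^ (stt R B n).1.length * max 1 (2 * (stt R B n).2.length)
        ≤ max 1 (2 * (pairs B).length) ∧
      ((stt R B n).2.length ≠ 0 → (stt R B n).1.length = n) := by
  induction n with
  | zero =>
    rw [stt_zero]
    simp
  | succ n ih =>
    rw [stt_succ]
    by_cases h0 : (stt R B n).2.length = 0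
    · rw [sepStep_fix R _ h0]
      exact ⟨ih.1, fun hne => absurd h0 hne⟩
    · obtain ⟨r, hr, heq, hhalf⟩ := sepStep_spec hR h (stt R B n) (stt_sub n) h0
      have hl : (sepStep R (stt R B n)).1.length = (stt R B n).1.length + 1 := by
        rw [heq]; simp
      constructor
      · rw [hl, pow_succ]
        have h1 : max 1 (2 * (sepStep R (stt R B n)).2.length) ≤ (stt R B n).2.length := by
          omega
        have h2 : 2 * (stt R B n).2.length ≤ max 1 (2 * (stt R B n).2.length) := le_max_right _ _
        calc 2 ^ (stt R B n).1.length * 2 * max 1 (2 * (sepStep R (stt R B n)).2.length)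
            ≤ 2 ^ (stt R B n).1.length * 2 * (stt R B n).2.length :=
              Nat.mul_le_mul_left _ h1
          _ = 2 ^ (stt R B n).1.length * (2 * (stt R B n).2.length) := by ring
          _ ≤ 2 ^ (stt R B n).1.length * max 1 (2 * (stt R B n).2.length) :=
              Nat.mul_le_mul_left _ h2
          _ ≤ _ := ih.1
      · intro _
        rw [hl, ih.2 h0]

/-- The full list of subset sums. -/
def fullSpan (G : List Word) : List Word := G.foldr (fun g R => addGen g R) [[]]

theorem length_addGen (g : Word) (R : List Word) : (addGen g R).length = 2 * R.length := by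
  unfold addGen
  rw [List.length_append, List.length_map]
  omega

theorem length_fullSpan (G : List Word) : (fullSpan G).length = 2 ^ G.length := by
  induction G with
  | nil => rfl
  | cons g G ih =>
    have : fullSpan (g :: G) = addGen g (fullSpan G) := rfl
    rw [this, length_addGen, ih, List.length_cons, pow_succ]
    ring

theorem span_cons (N : ℕ) (g : Word) (G : List Word) :
    span N (g :: G) = (addGen g (span N G)).take N := rfl

theorem span_eq_full (N : ℕ) (G : List Word) (h : 2 ^ G.length ≤ N) :
    span N G = fullSpan G := by
  induction G with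
  | nil => rfl
  | cons g G ih =>
    have h' : 2 ^ G.length ≤ N := by
      refine le_trans ?_ h
      rw [List.length_cons]
      exact Nat.pow_le_pow_right (by norm_num) (Nat.le_succ _)
    rw [span_cons, ih h']
    have : fullSpan (g :: G) = addGen g (fullSpan G) := rfl
    rw [this]
    apply List.take_of_length_le
    rw [length_addGen, length_fullSpan]
    rw [List.length_cons, pow_succ] at h
    omega

theorem fullSpan_sum (G : List Word) (c c' : Word) :
    ((fullSpan G).map fun r => sgn (par r c == par r c')).sum
      = (G.map fun g => 1 + sgn (par g c == par g c')).prod := by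
  induction G with
  | nil =>
    simp [fullSpan, par_nil_left, sgn]
  | cons g G ih =>
    have : fullSpan (g :: G) = addGen g (fullSpan G) := rfl
    rw [this]
    unfold addGen
    rw [List.map_append, List.sum_append, List.map_map, ih, List.map_cons, List.prod_cons]
    have h2 : ((fullSpan G).map ((fun r => sgn (par r c == par r c')) ∘ addw g))
        = (fullSpan G).map fun r => sgn (par g c == par g c') * sgn (par r c == par r c') := by
      apply List.map_congr_left
      intro r _
      simp only [Function.comp_apply]
      rw [par_addw, par_addw, sgn_xor_beq]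
    rw [h2, List.sum_map_mul_left, ih]
    ring

/-- Compression: few tests, still orthogonal. -/
theorem orth_compress {R B : List Word} (N : ℕ) (hB : B.Nodup) (hR : R ≠ []) (h : Orth R B)
    (hN : 2 * B.length ^ 2 + 2 ≤ N) : Orth (compress N R B) B := by
  have hlen := stt_len hR h N
  have hpairs := length_pairs B
  have hM : max 1 (2 * (pairs B).length) ≤ N := by
    have : B.length * B.length = B.length ^ 2 := (sq _).symm
    omega
  have hG : 2 ^ (stt R B N).1.length ≤ N := by
    refine le_trans ?_ hM
    refine le_trans ?_ hlen.1
    exact Nat.le_mul_of_pos_right _ (lt_of_lt_of_le Nat.zero_lt_one (le_max_left _ _))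
  have hU : (stt R B N).2.length = 0 := by
    by_contra hne
    have h1 := hlen.2 hne
    rw [h1] at hG
    exact absurd hG (not_le.mpr Nat.lt_two_pow_self)
  have hc : compress N R B = fullSpan (stt R B N).1 := by
    have : compress N R B = span N (stt R B N).1 := rfl
    rw [this, span_eq_full N _ hG]
  rw [hc]
  intro c hcB c' hcB' hne
  rw [fullSpan_sum]
  rcases stt_sep (R := R) N (c, c') ((mem_pairs B (c, c')).mpr ⟨hcB, hcB', hne⟩) with hp | ⟨g, hg, hs⟩
  · have : (stt R B N).2 = [] := List.length_eq_zero_iff.mp hU
    rw [this] at hp
    simp at hp
  · apply List.prod_eq_zero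
    rw [List.mem_map]
    refine ⟨g, hg, ?_⟩
    have : (par g c == par g c') = false := by simpa using hs
    rw [this]
    simp [sgn]

theorem span_ne_nil (N : ℕ) (hN : 0 < N) (G : List Word) : span N G ≠ [] := by
  induction G with
  | nil => simp [span]
  | cons g G ih =>
    rw [span_cons]
    intro h
    have h1 : ((addGen g (span N G)).take N).length = 0 := by rw [h]; rfl
    rw [List.length_take, length_addGen] at h1
    have : 0 < (span N G).length := List.length_pos_of_ne_nil ih
    omega

theorem compress_ne_nil (N : ℕ) (hN : 0 < N) (R B : List Word) : compress N R B ≠ [] :=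
  span_ne_nil N hN _

theorem length_span (N : ℕ) (hN : 0 < N) (G : List Word) : (span N G).length ≤ N := by
  cases G with
  | nil => exact hN
  | cons g G =>
    rw [span_cons, List.length_take]
    exact min_le_left _ _

theorem length_compress (N : ℕ) (hN : 0 < N) (R B : List Word) :
    (compress N R B).length ≤ N := length_span N hN _

theorem length_mem_span (N : ℕ) (G : List Word) (j : ℕ) (hG : ∀ g ∈ G, g.length ≤ j) :
    ∀ r ∈ span N G, r.length ≤ j := by
  induction G with
  | nil =>
    intro r hr
    have : r = [] := by simpa [span] using hr
    rw [this]; simp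
  | cons g G ih =>
    intro r hr
    have ih' := ih fun g' hg' => hG g' (List.mem_cons_of_mem _ hg')
    rw [span_cons] at hr
    have hr' := List.mem_of_mem_take hr
    unfold addGen at hr'
    rw [List.mem_append, List.mem_map] at hr'
    rcases hr' with hr' | ⟨s, hs, rfl⟩
    · exact ih' r hr'
    · rw [length_addw]
      exact max_le (hG g List.mem_cons_self) (ih' s hs)

theorem length_mem_stt {R B : List Word} {j : ℕ} (hR : ∀ r ∈ R, r.length ≤ j) (n : ℕ) :
    ∀ g ∈ (stt R B n).1, g.length ≤ j := by
  induction n with
  | zero => intro g hg; simp [stt_zero] at hg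
  | succ n ih =>
    intro g hg
    rw [stt_succ] at hg
    unfold sepStep at hg
    split_ifs at hg with h0
    · exact ih g hg
    · simp only [List.mem_cons] at hg
      rcases hg with rfl | hg
      · cases hf : R.find? (fun r => decide ((stt R B n).2.length ≤
            2 * ((stt R B n).2.filter fun p => par r p.1 != par r p.2).length)) with
        | none => simp
        | some r => exact hR r (List.mem_of_find?_eq_some hf)
      · exact ih g hg

theorem length_mem_compress (N : ℕ) (R B : List Word) (j : ℕ) (hR : ∀ r ∈ R, r.length ≤ j) :
    ∀ r ∈ compress N R B, r.length ≤ j :=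
  length_mem_span N _ j (length_mem_stt hR N)

end Pool.Agent.Lib.MP_634427_lc
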