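import Pool.Agent.Lib.MP_634427_lc.Cands

/-!
# Polynomial-time search for unique witnesses from a sparse threshold-hard set
-/

namespace Pool.Agent.Lib.MP_634427_lc

open BT

/-- The parity questions about the witnesses of a relation form a set in NP. -/
theorem exists_parity_set {α : Type} [Enc α] (Rel : α × Word → Bool) (m : α → ℕ) (hRel : PT Rel)
    (hm : PT m) : ∃ A : Set Word, InNP A ∧ ∀ (a : α) (r : Word) (b : Bool),
      code (enc (a, (r, b))) ∈ A ↔ ∃ u : Word, u.length = m a ∧ Rel (a, u) = true ∧ par r u = b := by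
  let G : (α × (Word × Bool)) × Word → Bool := fun p =>
    decide (p.2.length = m p.1.1) && (Rel (p.1.1, p.2) && (par p.1.2.1 p.2 == p.1.2.2))
  have hG : PT G := PT.and (PT.eqNat (PT.length PT.snd) (hm.comp (PT.fst' PT.fst)))
    (PT.and (hRel.comp (PT.pair (PT.fst' PT.fst) PT.snd))
      (PT.beqBool (PT.par (PT.fst' (PT.snd' PT.fst)) PT.snd) (PT.snd' (PT.snd' PT.fst))))
  obtain ⟨F, hF, hFG⟩ := hG
  have hFpt : PT F := ⟨F, hF, fun _ => rfl⟩
  let V : Word × Word → Bool := fun p => !decide (F (BT.node (decode p.1) (enc p.2)) = BT.nil)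
  have hencPT : PT (fun w : Word => (enc w : BT)) := ⟨_, .id, fun _ => rfl⟩
  have hV : PT V := PT.not (PT.isNilBT (hFpt.comp (PT.pairBT (PT.decode PT.fst)
    (hencPT.comp PT.snd))))
  have hVG : ∀ (a : α) (r : Word) (b : Bool) (u : Word),
      V (code (enc (a, (r, b))), u) = G ((a, (r, b)), u) := by
    intro a r b u
    have h1 := hFG ((a, (r, b)), u)
    rw [enc_pair] at h1
    simp only [V, decode_code]
    rw [h1]
    cases G ((a, (r, b)), u) <;> simp
  obtain ⟨k, hk⟩ := hm.size_le
  have hmk : ∀ a, m a ≤ (sz a + 2) ^ k := fun a => by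
    have := hk a; rwa [sz_nat] at this
  have hcwlen : ∀ (a : α) (r : Word) (b : Bool), (code (enc (a, (r, b)))).length
      = 2 * (sz a + (sz r + sz b + 1) + 1) + 1 := fun a r b => length_code _
  refine ⟨{w | ∃ u : Word, u.length ≤ w.length ^ k + k ∧ V (w, u) = true},
    ⟨V, k, hV, fun _ => Iff.rfl⟩, fun a r b => ?_⟩
  constructor
  · rintro ⟨u, _, hu⟩
    rw [hVG] at hu
    simp only [G, Bool.and_eq_true, decide_eq_true_eq, beq_iff_eq] at hu
    exact ⟨u, hu.1, hu.2.1, hu.2.2⟩
  · rintro ⟨u, h1, h2, h3⟩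
    refine ⟨u, ?_, ?_⟩
    · have h4 : (sz a + 2) ^ k ≤ (code (enc (a, (r, b)))).length ^ k :=
        Nat.pow_le_pow_left (by rw [hcwlen]; omega) k
      have := hmk a
      omega
    · rw [hVG]
      simp [G, h1, h2, h3]

lemma pt_enc {γ α : Type} [Enc γ] [Enc α] {f : γ → α} (hf : PT f) :
    PT fun c => (enc (f c) : BT) := by
  obtain ⟨F, hF, h⟩ := hf
  exact ⟨F, hF, h⟩

theorem exists_solver (d : ℕ) (S : Set Word) (hS : Sparse S)
    (hard : ∀ A, InNP A → ThrReducible d A S) {α : Type} [Enc α] (Rel : α × Word → Bool)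
    (m : α → ℕ) (hRel : PT Rel) (hm : PT m) :
    ∃ sol : α → Word, PT sol ∧ ∀ a u, u.length = m a → Rel (a, u) = true →
      (∀ u', u'.length = m a → Rel (a, u') = true → u' = u) → sol a = u := by
  obtain ⟨A, hA, hmem⟩ := exists_parity_set Rel m hRel hm
  obtain ⟨f, hf, hfd, hfA⟩ := hard A hA
  simp only [balance_eq_score] at hfA
  obtain ⟨cand, hcand, hc⟩ := exists_cands d S hS m hm (fun a r b => f (code (enc (a, (r, b)))))
    (fun b => hf.comp (PT.code (pt_enc (PT.pair PT.fst (PT.pair PT.snd (PT.const b))))))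
    (fun a r b => hfd _)
  refine ⟨fun a => ((cand a).find? fun u => decide (u.length = m a) && Rel (a, u)).getD [],
    PT.getD (PT.find? (p := fun a u => decide (u.length = m a) && Rel (a, u)) hcand
      (PT.and (PT.eqNat (PT.length PT.snd) (hm.comp PT.fst)) (hRel.comp (PT.pair PT.fst PT.snd))))
      (PT.const []), ?_⟩
  intro a u hu hRu huniq
  have hmemu : u ∈ cand a := by
    refine hc a u hu fun r b _ => ?_
    rw [← hfA, hmem]
    constructor
    · rintro ⟨u', h1, h2, h3⟩
      rwa [huniq u' h1 h2] at h3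
    · intro h
      exact ⟨u, hu, hRu, h⟩
  have hsome : ((cand a).find? fun u => decide (u.length = m a) && Rel (a, u)) = some u := by
    rcases hfind : (cand a).find? fun u => decide (u.length = m a) && Rel (a, u) with _ | u'
    · have := List.find?_eq_none.1 hfind u hmemu
      simp [hu, hRu] at this
    · have h1 := List.find?_some hfind
      simp only [Bool.and_eq_true, decide_eq_true_eq] at h1
      rw [hfind, huniq u' h1.1 h1.2]
  show ((cand a).find? fun u => decide (u.length = m a) && Rel (a, u)).getD [] = u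
  rw [hsome]; rfl

end Pool.Agent.Lib.MP_634427_lc
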