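import Pool.Agent.Lib.MP_634427_lc.Classes
import Pool.Agent.Lib.MP_634427_lc.AlgoPT
import Pool.Agent.Lib.MP_634427_lc.Core
import Pool.Agent.Lib.MP_634427_lc.Sep

/-!
# Finding unique witnesses
-/

namespace Pool.Agent.Lib.MP_634427_lc

open BT

/-! ### The main loop -/

section loop

variable (z : Word → SVec (List Word)) (K N : ℕ)

/-- One stage: extend the candidates, filter them with the perceptron, compress the tests. -/
def stage (j : ℕ) (st : List Word × List Word) : List Word × List Word :=
  let R1 := addGen (unitw j) st.2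
  let B := ((ext st.1).filter fun c => accepts (R1.map (signed z c)) K).take N
  (B, compress N R1 B)

/-- The state after `j` stages. -/
def loop (j : ℕ) : List Word × List Word :=
  Nat.rec (motive := fun _ => List Word × List Word) ([[]], [[]]) (fun i st => stage z K N i st) j

lemma loop_succ (j : ℕ) : loop z K N (j + 1) = stage z K N j (loop z K N j) := rfl

/-- The invariant of the loop. -/
structure Inv (j : ℕ) (st : List Word × List Word) : Prop where
  nodup : st.1.Nodup
  len : ∀ c ∈ st.1, c.length = j
  ne : st.2 ≠ []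
  lenR : ∀ r ∈ st.2, r.length ≤ j
  orth : Orth st.2 st.1

lemma inv_zero : Inv 0 (([[]], [[]]) : List Word × List Word) where
  nodup := by simp
  len := by simp
  ne := by simp
  lenR := by simp
  orth := by
    intro c hc c' hc' h
    simp at hc hc'
    exact absurd (hc.trans hc'.symm) h

lemma lenR1 {j : ℕ} {R : List Word} (hR : ∀ r ∈ R, r.length ≤ j) :
    ∀ r ∈ addGen (unitw j) R, r.length ≤ j + 1 := by
  intro r hr
  unfold addGen at hr
  rcases List.mem_append.1 hr with h | h
  · exact (hR r h).trans (Nat.le_succ j)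
  · obtain ⟨s, hs, rfl⟩ := List.mem_map.1 h
    rw [length_addw, length_unitw]
    have := hR s hs
    omega

variable {z K N}

lemma length_filter_le' {D j : ℕ} {st : List Word × List Word} (hst : Inv j st)
    (hD : ∀ r : Word, r.length ≤ j + 1 → dot (z r) (z r) ≤ D) :
    ((ext st.1).filter fun c => accepts ((addGen (unitw j) st.2).map (signed z c)) K).length
      ≤ K * D * D := by
  have horth := Orth.ext j hst.orth hst.len hst.lenR
  refine capacity _ (addGen (unitw j) st.2) ((nodup_ext _ hst.nodup).filter _) ?_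
    (horth.subset fun c hc => List.mem_of_mem_filter hc) z K D
    (fun r hr => hD r (lenR1 hst.lenR r hr)) ?_
  · unfold addGen
    intro h
    exact hst.ne (List.append_eq_nil_iff.1 h).1
  · intro c hc
    exact (List.mem_filter.1 hc).2

lemma inv_stage {D j : ℕ} {st : List Word × List Word} (hst : Inv j st)
    (hD : ∀ r : Word, r.length ≤ j + 1 → dot (z r) (z r) ≤ D)
    (hN : 2 * (K * D * D) ^ 2 + 2 ≤ N) : Inv (j + 1) (stage z K N j st) := by
  have horth := Orth.ext j hst.orth hst.len hst.lenR
  have hlen := length_filter_le' (K := K) hst hD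
  have hN0 : 0 < N := by omega
  have hle : K * D * D ≤ N := by nlinarith [sq_nonneg ((K * D * D : ℕ) : ℤ)]
  have htake := List.take_of_length_le (hlen.trans hle)
  have hB : (stage z K N j st).1 = (ext st.1).filter fun c =>
      accepts ((addGen (unitw j) st.2).map (signed z c)) K := htake
  have hsub : ∀ c ∈ (stage z K N j st).1, c ∈ ext st.1 := fun c hc => by
    rw [hB] at hc; exact List.mem_of_mem_filter hc
  have hnd : (stage z K N j st).1.Nodup := by
    rw [hB]; exact (nodup_ext _ hst.nodup).filter _
  have hR1 : addGen (unitw j) st.2 ≠ [] := by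
    unfold addGen
    intro h
    exact hst.ne (List.append_eq_nil_iff.1 h).1
  refine ⟨hnd, ?_, compress_ne_nil N hN0 _ _, ?_, ?_⟩
  · intro c hc
    obtain ⟨c0, hc0, b, rfl⟩ := (mem_ext _ _).1 (hsub c hc)
    rw [List.length_append, hst.len c0 hc0]; rfl
  · exact length_mem_compress N _ _ (j + 1) (lenR1 hst.lenR)
  · refine orth_compress N hnd hR1 (horth.subset hsub) ?_
    have : (stage z K N j st).1.length ≤ K * D * D := by rw [hB]; exact hlen
    have h2 : (stage z K N j st).1.length ^ 2 ≤ (K * D * D) ^ 2 := Nat.pow_le_pow_left this 2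
    show 2 * (stage z K N j st).1.length ^ 2 + 2 ≤ N
    omega

lemma inv_loop {D m : ℕ} (hD : ∀ r : Word, r.length ≤ m → dot (z r) (z r) ≤ D)
    (hN : 2 * (K * D * D) ^ 2 + 2 ≤ N) (j : ℕ) (hj : j ≤ m) : Inv j (loop z K N j) := by
  induction j with
  | zero => exact inv_zero
  | succ j ih =>
    exact inv_stage (ih (by omega)) (fun r hr => hD r (hr.trans hj)) hN

/-- The true witness stays among the candidates. -/
lemma mem_loop {D m : ℕ} (hD : ∀ r : Word, r.length ≤ m → dot (z r) (z r) ≤ D)
    (hN : 2 * (K * D * D) ^ 2 + 2 ≤ N) (P : List Word → Prop) (T : Finset (List Word))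
    (hT : ∀ r : Word, r.length ≤ m → ∀ e ∈ z r, P e.2 → e.2 ∈ T) (hK : T.card * D ≤ K)
    (u : Word) (hu : u.length = m)
    (hsep : ∀ r : Word, r.length ≤ m → 1 ≤ sgn (!par r u) * score P (z r))
    (j : ℕ) (hj : j ≤ m) : u.take j ∈ (loop z K N j).1 := by
  induction j with
  | zero => simp [loop]
  | succ j ih =>
    have ih' := ih (by omega)
    have hst := inv_loop (K := K) (N := N) hD hN j (by omega)
    have hlen := length_filter_le' (K := K) hst (fun r hr => hD r (hr.trans hj))
    have hle : K * D * D ≤ N := by nlinarith [sq_nonneg ((K * D * D : ℕ) : ℤ)]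
    rw [loop_succ]
    show u.take (j + 1) ∈ (List.filter _ _).take N
    rw [List.take_of_length_le (hlen.trans hle)]
    have hlu : j < u.length := by omega
    refine List.mem_filter.2 ⟨(mem_ext _ _).2 ⟨u.take j, ih', u[j], ?_⟩, ?_⟩
    · exact (List.take_append_getElem hlu).symm
    · have hpar : ∀ r ∈ addGen (unitw j) (loop z K N j).2, par r (u.take (j + 1)) = par r u := by
        intro r hr
        have h1 := lenR1 hst.lenR r hr
        conv_rhs => rw [← List.take_append_drop (j + 1) u]
        rw [par_append_of_le]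
        rw [List.length_take]; omega
      refine accepts_of_separable _ K D P T ?_ ?_ ?_ hK
      · intro w hw
        obtain ⟨r, hr, rfl⟩ := List.mem_map.1 hw
        have h1 := hD r ((lenR1 hst.lenR r hr).trans hj)
        unfold signed
        split_ifs
        · rw [dot_self_neg]; exact h1
        · exact h1
      · intro w hw
        obtain ⟨r, hr, rfl⟩ := List.mem_map.1 hw
        have h1 := hsep r ((lenR1 hst.lenR r hr).trans hj)
        unfold signed
        rw [hpar r hr]
        cases hp : par r u
        · simpa [hp, sgn] using h1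
        · simp only [hp, sgn, Bool.not_true, Bool.false_eq_true, if_false] at h1
          simp only [if_true, score_neg]; linarith
      · intro w hw e he hPe
        obtain ⟨r, hr, rfl⟩ := List.mem_map.1 hw
        have h1 : r.length ≤ m := (lenR1 hst.lenR r hr).trans hj
        unfold signed at he
        split_ifs at he
        · unfold neg at he
          obtain ⟨e', he', rfl⟩ := List.mem_map.1 he
          exact hT r h1 e' he' hPe
        · exact hT r h1 e he hPe

end loop

/-! ### The loop runs in polynomial time -/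

lemma pt_stage {γ α : Type} [Enc γ] [Enc α] {z : α → Word → SVec (List Word)}
    (hz : PT fun p : α × Word => z p.1 p.2) {a : γ → α} {K N j : γ → ℕ}
    {st : γ → List Word × List Word} (ha : PT a) (hK : PT K) (hN : PT N) (hj : PT j)
    (hst : PT st) : PT fun c => stage (z (a c)) (K c) (N c) (j c) (st c) := by
  have hR1 : PT fun c => addGen (unitw (j c)) (st c).2 :=
    PT.addGen (PT.unitw hj) (PT.snd' hst)
  have hB : PT fun c => ((ext (st c).1).filter fun w =>
      accepts ((addGen (unitw (j c)) (st c).2).map (signed (z (a c)) w)) (K c)).take (N c) := by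
    refine PT.take hN (PT.filter (p := fun c w =>
      accepts ((addGen (unitw (j c)) (st c).2).map (signed (z (a c)) w)) (K c))
      (PT.ext (PT.fst' hst)) ?_)
    refine PT.accepts (enc_list_injective enc_word_injective) ?_ (hK.comp PT.fst)
    exact PT.map (γ := γ × Word) (f := fun q r => signed (z (a q.1)) q.2 r) (hR1.comp PT.fst)
      (PT.signed hz (ha.comp (PT.fst' PT.fst)) (PT.snd' PT.fst) PT.snd)
  exact (PT.comp (f := fun q : (List Word × List Word) × ℕ =>
    (q.1.1, compress q.2 q.1.2 q.1.1))
    (PT.pair (PT.fst' PT.fst) (PT.compress PT.snd (PT.snd' PT.fst) (PT.fst' PT.fst)))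
    (PT.pair (PT.pair hB hR1) hN)).of_eq fun _ => rfl

lemma loop_size (z : Word → SVec (List Word)) (K N j : ℕ) :
    (∀ c ∈ (loop z K N j).1, c.length = j) ∧ (loop z K N j).1.length ≤ max N 1 ∧
    (∀ r ∈ (loop z K N j).2, r.length ≤ j) ∧ (loop z K N j).2.length ≤ max N 1 := by
  induction j with
  | zero => simp [loop]
  | succ j ih =>
    obtain ⟨h1, h2, h3, h4⟩ := ih
    rw [loop_succ]
    refine ⟨?_, ?_, ?_, ?_⟩
    · intro c hc
      have hc' := List.mem_of_mem_filter (List.mem_of_mem_take hc)
      obtain ⟨c0, hc0, b, rfl⟩ := (mem_ext _ _).1 hc'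
      rw [List.length_append, h1 c0 hc0]; rfl
    · exact (List.length_take_le _ _).trans (le_max_left _ _)
    · exact length_mem_compress N _ _ (j + 1) (lenR1 h3)
    · exact length_span_le _ _

lemma sz_loop_le (z : Word → SVec (List Word)) (K N j : ℕ) :
    sz (loop z K N j) ≤ 2 * ((N + 1) * (2 * j + 1)) + 1 := by
  obtain ⟨h1, h2, h3, h4⟩ := loop_size z K N j
  have h5 : sz (loop z K N j).1 ≤ (N + 1) * (2 * j + 1) := by
    refine (sz_list_le _ (2 * j) fun r hr => ?_).trans (Nat.mul_le_mul_right _ (by omega))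
    exact (sz_word_le r).trans (by rw [h1 r hr])
  have h6 : sz (loop z K N j).2 ≤ (N + 1) * (2 * j + 1) := by
    refine (sz_list_le _ (2 * j) fun r hr => ?_).trans (Nat.mul_le_mul_right _ (by omega))
    exact (sz_word_le r).trans (Nat.mul_le_mul_left 2 (h3 r hr))
  rw [sz_prod]; omega

lemma pt_loop {γ α : Type} [Enc γ] [Enc α] {z : α → Word → SVec (List Word)}
    (hz : PT fun p : α × Word => z p.1 p.2) {a : γ → α} {K N j : γ → ℕ}
    (ha : PT a) (hK : PT K) (hN : PT N) (hj : PT j) :
    PT fun c => loop (z (a c)) (K c) (N c) (j c) := by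
  refine PT.natRec (s := fun _ : γ => (([[]], [[]]) : List Word × List Word))
    (f := fun c i st => stage (z (a c)) (K c) (N c) i st) hj (PT.const _)
    (pt_stage hz (ha.comp PT.fst) (hK.comp PT.fst) (hN.comp PT.fst) (PT.fst' PT.snd)
      (PT.snd' PT.snd)) ?_
  obtain ⟨b, hb⟩ := hN.size_le
  obtain ⟨d, hd⟩ := hj.size_le
  obtain ⟨e, he⟩ := PB.add (PB.mul (PB.const 2) (PB.mul (F := fun n => (n + 2) ^ b + 1)
    (G := fun n => 2 * (n + 2) ^ d + 1) (PB.add ⟨b, fun n => le_rfl⟩ (PB.const 1))
    (PB.add (PB.mul (PB.const 2) ⟨d, fun n => le_rfl⟩) (PB.const 1)))) (PB.const 1)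
  refine ⟨e, fun c i hi => ?_⟩
  have h1 := hb c
  have h2 := hd c
  rw [sz_nat] at h1 h2
  refine (sz_loop_le (z (a c)) (K c) (N c) i).trans (le_trans ?_ (he (sz c)))
  have : (N c + 1) * (2 * i + 1) ≤ ((sz c + 2) ^ b + 1) * (2 * (sz c + 2) ^ d + 1) :=
    Nat.mul_le_mul (by omega) (by omega)
  beta_reduce
  omega

end Pool.Agent.Lib.MP_634427_lc
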