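import Pool.Agent.Lib.MP_634427_lc.Gen
import Pool.Agent.Lib.MP_634427_lc.Final

/-!
# Search for paths in trees: coding of paths, enumeration of sequences
-/

namespace Pool.Agent.Lib.MP_634427_lc

open BT

/-! ### Sequences over `{0..q-1}` -/

/-- all sequences of length `s` over `{0..q-1}` -/
def seqs (q : ℕ) : ℕ → List (List ℕ)
  | 0 => [[]]
  | s + 1 => (seqs q s).flatMap fun l => (List.range q).map fun v => v :: l

lemma mem_seqs (q s : ℕ) (l : List ℕ) : l ∈ seqs q s ↔ l.length = s ∧ ∀ v ∈ l, v < q := by
  induction s generalizing l with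
  | zero =>
    simp only [seqs, List.mem_singleton]
    constructor
    · rintro rfl; simp
    · rintro ⟨h, _⟩; exact List.eq_nil_of_length_eq_zero h
  | succ s ih =>
    simp only [seqs, List.mem_flatMap, List.mem_map, List.mem_range]
    constructor
    · rintro ⟨l', h1, v, h2, rfl⟩
      obtain ⟨h3, h4⟩ := (ih l').1 h1
      refine ⟨by simp [h3], fun w hw => ?_⟩
      rcases List.mem_cons.1 hw with rfl | hw
      · exact h2
      · exact h4 w hw
    · rintro ⟨h1, h2⟩
      rcases l with _ | ⟨v, l'⟩
      · simp at h1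
      · exact ⟨l', (ih l').2 ⟨by simpa using h1, fun w hw => h2 w (List.mem_cons_of_mem _ hw)⟩, v,
          h2 v List.mem_cons_self, rfl⟩

lemma length_seqs (q s : ℕ) : (seqs q s).length = q ^ s := by
  induction s with
  | zero => simp [seqs]
  | succ s ih =>
    simp only [seqs, List.length_flatMap, List.length_map, List.length_range, List.map_const',
      List.sum_replicate, smul_eq_mul, ih]
    rw [pow_succ]

lemma sz_numlist_le (l : List ℕ) (q : ℕ) (h : ∀ v ∈ l, v < q) : sz l ≤ l.length * (q + 1) := by
  refine sz_list_le l q fun v hv => ?_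
  rw [sz_nat]; exact (h v hv).le

lemma sz_seqs_le (q s : ℕ) : sz (seqs q s) ≤ q ^ s * (s * (q + 1) + 1) := by
  rw [← length_seqs]
  refine sz_list_le _ _ fun l hl => ?_
  obtain ⟨h1, h2⟩ := (mem_seqs q s l).1 hl
  rw [← h1]
  exact sz_numlist_le l q h2

lemma pt_seqs {γ : Type} [Enc γ] {q s : γ → ℕ} (hq : PT q) (hs : PT s)
    (hb : ∃ k, ∀ c, (q c + 1) ^ s c ≤ (sz c + 2) ^ k) : PT fun c => seqs (q c) (s c) := by
  have h := PT.natRec (s := fun _ : γ => ([[]] : List (List ℕ)))
    (f := fun c (_ : ℕ) (L : List (List ℕ)) => L.flatMap fun l => (List.range (q c)).map fun v => v :: l)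
    hs (PT.const [[]])
    (PT.flatMap (f := fun (p : γ × ℕ × List (List ℕ)) l => (List.range (q p.1)).map fun v => v :: l)
      (PT.snd' PT.snd) (PT.map (f := fun (p : (γ × ℕ × List (List ℕ)) × List ℕ) v => v :: p.2)
        (PT.range (hq.comp (PT.fst' PT.fst))) (PT.cons PT.snd (PT.snd' PT.fst)))) (by
      obtain ⟨k, hk⟩ := hb
      obtain ⟨k1, hk1⟩ := hq.size_le
      obtain ⟨k2, hk2⟩ := hs.size_le
      obtain ⟨e, he⟩ := PB.mul (⟨k, fun n => le_rfl⟩ : PB fun n => (n + 2) ^ k)
        (PB.add (PB.mul (⟨k2, fun n => le_rfl⟩ : PB fun n => (n + 2) ^ k2)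
          (PB.add (⟨k1, fun n => le_rfl⟩ : PB fun n => (n + 2) ^ k1) (PB.const 1))) (PB.const 1))
      refine ⟨e, fun c i hi => ?_⟩
      have key : Nat.rec (motive := fun _ => List (List ℕ)) [[]] (fun _ L =>
          L.flatMap fun l => (List.range (q c)).map fun v => v :: l) i = seqs (q c) i := by
        clear hi
        induction i with
        | zero => rfl
        | succ i ih => rw [seqs, ← ih]
      rw [key]
      refine (sz_seqs_le _ _).trans (le_trans ?_ (he (sz c)))
      have h1 := hk1 c
      have h2 := hk2 c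
      rw [sz_nat] at h1 h2
      have h3 : q c ^ i ≤ (sz c + 2) ^ k :=
        ((Nat.pow_le_pow_left (Nat.le_succ _) i).trans (Nat.pow_le_pow_right (by omega) hi)).trans
          (hk c)
      exact Nat.mul_le_mul h3 (Nat.add_le_add_right (Nat.mul_le_mul (hi.trans h2)
        (Nat.add_le_add_right h1 1)) 1))
  refine h.of_eq fun c => ?_
  induction s c with
  | zero => rfl
  | succ i ih => rw [seqs, ← ih]

/-- Every sequence of length `t * s` over `{0..q-1}` is described by a sequence of `t` indices. -/
lemma exists_chunks (q s t : ℕ) (D : List ℕ) (hl : D.length = t * s) (hD : ∀ v ∈ D, v < q) :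
    ∃ y : List ℕ, y.length = t ∧ (∀ v ∈ y, v < q ^ s) ∧
      D = y.flatMap fun i => (seqs q s).getD i [] := by
  induction t generalizing D with
  | zero =>
    rw [Nat.zero_mul] at hl
    exact ⟨[], rfl, by simp, by rw [List.eq_nil_of_length_eq_zero hl]; rfl⟩
  | succ t ih =>
    obtain ⟨y, h1, h2, h3⟩ := ih (D.drop s) (by rw [List.length_drop, hl, Nat.succ_mul]; omega)
      fun v hv => hD v (List.mem_of_mem_drop hv)
    have hmem : D.take s ∈ seqs q s := by
      rw [mem_seqs]
      refine ⟨?_, fun v hv => hD v (List.mem_of_mem_take hv)⟩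
      rw [List.length_take, hl, Nat.succ_mul]; omega
    obtain ⟨i, hi, hi2⟩ := List.mem_iff_getElem.1 hmem
    refine ⟨i :: y, by simp [h1], ?_, ?_⟩
    · intro v hv
      rcases List.mem_cons.1 hv with rfl | hv
      · rwa [length_seqs] at hi
      · exact h2 v hv
    · rw [List.flatMap_cons, ← h3, List.getD_eq_getElem _ _ hi, hi2, List.take_append_drop]

/-! ### Coding of paths by words -/

/-- a number below `N` in unary with `N` digits -/
def unary (N v : ℕ) : Word := List.replicate v true ++ List.replicate (N - v) false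

lemma length_unary {N v : ℕ} (h : v ≤ N) : (unary N v).length = N := by
  simp [unary]; omega

/-- number of ones -/
def ones (w : Word) : ℕ := (w.filter fun b => b).length

lemma ones_unary (N v : ℕ) : ones (unary N v) = v := by
  simp [ones, unary, List.filter_append]

/-- the word coding the path `y` -/
def pcode (N : ℕ) (y : List ℕ) : Word := y.flatMap (unary N)

/-- the path of length `t` coded by a word -/
def ppath (N t : ℕ) (z : Word) : List ℕ :=
  (List.range t).map fun j => ones ((z.drop (j * N)).take N)

lemma length_ppath (N t : ℕ) (z : Word) : (ppath N t z).length = t := by simp [ppath]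

lemma length_pcode {N : ℕ} {y : List ℕ} (hy : ∀ v ∈ y, v < N) :
    (pcode N y).length = y.length * N :=
  length_blocks' y (unary N) N fun v hv => length_unary (hy v hv).le
where
  length_blocks' {α : Type} (l : List α) (f : α → Word) (b : ℕ)
    (hf : ∀ a ∈ l, (f a).length = b) : (l.flatMap f).length = l.length * b := by
    induction l with
    | nil => simp
    | cons a l ih =>
      rw [List.flatMap_cons, List.length_append, hf a List.mem_cons_self,
        ih fun a' h' => hf a' (List.mem_cons_of_mem _ h'), List.length_cons]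
      ring

lemma block_take' {α : Type} (l : List α) (f : α → Word) (b : ℕ)
    (hf : ∀ a ∈ l, (f a).length = b) (z : Word) (i : ℕ) (hi : i < l.length) :
    ((l.flatMap f ++ z).drop (i * b)).take b = f l[i] := by
  induction l generalizing i with
  | nil => simp at hi
  | cons a l ih =>
    have ha := hf a List.mem_cons_self
    rw [List.flatMap_cons, List.append_assoc]
    cases i with
    | zero =>
      rw [Nat.zero_mul, List.drop_zero, ← ha, List.take_left]
      rfl
    | succ i =>
      have h1 : (i + 1) * b = (f a).length + i * b := by rw [ha]; ring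
      rw [h1, ← List.drop_drop, List.drop_left]
      exact ih (fun a' h' => hf a' (List.mem_cons_of_mem _ h')) i (by simpa using hi)

lemma ppath_pcode {N : ℕ} {y : List ℕ} (hy : ∀ v ∈ y, v < N) (z : Word) :
    ppath N y.length (pcode N y ++ z) = y := by
  refine List.ext_getElem (by simp [ppath]) fun i h1 h2 => ?_
  simp only [ppath, List.getElem_map, List.getElem_range, pcode]
  rw [block_take' y (unary N) N (fun v hv => length_unary (hy v hv).le) z i h2, ones_unary]

lemma pt_ones {γ : Type} [Enc γ] {w : γ → Word} (hw : PT w) : PT fun c => ones (w c) :=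
  PT.length (PT.filter (p := fun _ (b : Bool) => b) hw PT.snd)

lemma pt_ppath {γ : Type} [Enc γ] {N t : γ → ℕ} {z : γ → Word} (hN : PT N) (ht : PT t)
    (hz : PT z) : PT fun c => ppath (N c) (t c) (z c) :=
  PT.map (f := fun c j => ones (((z c).drop (j * N c)).take (N c))) (PT.range ht)
    (pt_ones (PT.take (hN.comp PT.fst) (PT.drop (PT.mul PT.snd (hN.comp PT.fst))
      (hz.comp PT.fst))))

lemma pt_pcode {γ : Type} [Enc γ] {N : γ → ℕ} {y : γ → List ℕ} (hN : PT N) (hy : PT y) :
    PT fun c => pcode (N c) (y c) :=
  PT.flatMap (f := fun c v => unary (N c) v) hy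
    (PT.append (PT.replicate PT.snd (PT.const true))
      (PT.replicate (PT.sub (hN.comp PT.fst) PT.snd) (PT.const false)))

/-! ### The search problem -/

/-- Paths of length `t a` in the tree of sequences that satisfy a polynomial-time predicate can be
found in polynomial time. -/
def Searchable {α : Type} [Enc α] (t : α → ℕ) : Prop :=
  ∀ (N : α → ℕ) (Leaf : α × List ℕ → Bool), PT N → PT Leaf → ∃ sol : α → List ℕ, PT sol ∧
    ∀ a, (∃ y : List ℕ, y.length = t a ∧ (∀ v ∈ y, v < N a) ∧ Leaf (a, y) = true) →
      (sol a).length = t a ∧ (∀ v ∈ sol a, v < N a) ∧ Leaf (a, sol a) = true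

lemma searchable_one {α : Type} [Enc α] : Searchable (α := α) fun _ => 1 := by
  intro N Leaf hN hLeaf
  refine ⟨fun a => [((List.range (N a)).find? fun v => Leaf (a, [v])).getD 0],
    PT.cons (PT.getD (PT.find? (p := fun a v => Leaf (a, [v])) (PT.range hN)
      (hLeaf.comp (PT.pair PT.fst (PT.cons PT.snd (PT.const []))))) (PT.const 0)) (PT.const []), ?_⟩
  rintro a ⟨y, h1, h2, h3⟩
  obtain ⟨v, rfl⟩ := List.length_eq_one_iff.1 h1
  have hv := h2 v List.mem_cons_self
  rcases hf : (List.range (N a)).find? fun v => Leaf (a, [v]) with _ | w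
  · have := List.find?_eq_none.1 hf v (List.mem_range.2 hv)
    exact absurd h3 this
  · have h4 := List.find?_some hf
    have h5 := List.mem_of_find?_eq_some hf
    rw [List.mem_range] at h5
    simp only [hf, Option.getD_some]
    exact ⟨rfl, by simpa using h5, h4⟩

end Pool.Agent.Lib.MP_634427_lc
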