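import Pool.Agent.Lib.MP_634427_lc.HybridModel
import Pool.Agent.Lib.MP_634427_lc.Query

/-!
# Evaluation of Turing reductions with an explicit table; the walk to the leftmost witness
-/

namespace Pool.Agent.Lib.MP_634427_lc

open BT

/-- Turing reductions: the answers are turned into a final threshold instance. -/
def TuringRed (A S : Set Word) : Prop :=
  ∃ (stop : Word × List Bool → Bool) (query : Word × List Bool → Word)
    (out : Word × List Bool → List (Bool × List Word)) (c : ℕ), PT stop ∧ PT query ∧ PT out ∧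
    ∀ x, x ∈ A ↔ 0 < balance S (out (x, answers S (fun l => stop (x, l)) (fun l => query (x, l))
      (x.length ^ c + c)))

lemma turingRed_of_hybrid {A S : Set Word} (h : HybridReducible A S) : TuringRed A S := by
  obtain ⟨k, stop, query, out, d, c, h1, h2, h3, _, _, h4⟩ := h
  refine ⟨stop, query, out, c, h1, h2, h3, fun x => ?_⟩
  obtain ⟨l, rfl, _, _, _, h5⟩ := h4 x
  exact h5

lemma turingRed_of_pThr {A S : Set Word} (h : PThrReducible A S) : TuringRed A S := by
  obtain ⟨f, d, c, hf, _, _, _, h4⟩ := h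
  exact ⟨fun _ => true, fun _ => [], fun p => f p.1, 0, PT.const _, PT.const _, hf.comp PT.fst,
    fun x => h4 x⟩

section ans

variable (T : List Word) (stop : List Bool → Bool) (query : List Bool → Word)

/-- The answers according to the table `T`. -/
def ansT : ℕ → List Bool
  | 0 => []
  | n + 1 => bif stop (ansT n) then ansT n else ansT n ++ [memT T (query (ansT n))]

lemma length_ansT_le (n : ℕ) : (ansT T stop query n).length ≤ n := by
  induction n with
  | zero => simp [ansT]
  | succ n ih =>
    rw [ansT]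
    cases stop (ansT T stop query n)
    · simp; omega
    · simp; omega

variable {T}

lemma memT_congr {T' : List Word} (h : ∀ v, v ∈ T ↔ v ∈ T') (w : Word) :
    memT T w = memT T' w := by
  rw [Bool.eq_iff_iff, memT_iff, memT_iff, h]

lemma ansT_congr {T' : List Word} (h : ∀ v, v ∈ T ↔ v ∈ T') (n : ℕ) :
    ansT T stop query n = ansT T' stop query n := by
  induction n with
  | zero => rfl
  | succ n ih => rw [ansT, ansT, ih, memT_congr h]

lemma inT_congr {T' : List Word} (h : ∀ v, v ∈ T ↔ v ∈ T') (v : List (Bool × List Word)) :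
    inT T v = inT T' v := by
  have h1 : memT T = memT T' := funext (memT_congr h)
  unfold inT
  rw [h1]

lemma ansT_eq_answers (S : Set Word) (n : ℕ)
    (h : ∀ i < n, (query (ansT T stop query i) ∈ T ↔ query (ansT T stop query i) ∈ S)) :
    ansT T stop query n = answers S stop query n := by
  induction n with
  | zero => rfl
  | succ n ih =>
    have ih' := ih fun i hi => h i (by omega)
    have hn := h n (by omega)
    rw [ansT, answers, ← ih']
    cases stop (ansT T stop query n)
    · simp only [cond_false, Bool.false_eq_true, if_false]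
      congr 2
      by_cases hS : query (ansT T stop query n) ∈ S
      · rw [(memT_iff _ _).2 (hn.2 hS)]
        simp [hS]
      · rw [Bool.eq_false_iff.2 fun h' => hS (hn.1 ((memT_iff _ _).1 h'))]
        simp [hS]
    · rfl

end ans

lemma pt_ansT {γ : Type} [Enc γ] {T : γ → List Word} {stop : γ → List Bool → Bool}
    {query : γ → List Bool → Word} {n : γ → ℕ} (hT : PT T)
    (hs : PT fun p : γ × List Bool => stop p.1 p.2)
    (hq : PT fun p : γ × List Bool => query p.1 p.2) (hn : PT n) :
    PT fun c => ansT (T c) (stop c) (query c) (n c) := by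
  have hc : PT fun p : γ × (ℕ × List Bool) => (p.1, p.2.2) := PT.pair PT.fst (PT.snd' PT.snd)
  have h := PT.natRec (s := fun _ : γ => ([] : List Bool))
    (f := fun c (_ : ℕ) (l : List Bool) => bif stop c l then l else l ++ [memT (T c) (query c l)])
    hn (PT.const [])
    (PT.cond (hs.comp hc) (PT.snd' PT.snd) (PT.append (PT.snd' PT.snd)
      (PT.cons (PT.memT (hT.comp PT.fst) (hq.comp hc)) (PT.const [])))) (by
      obtain ⟨k, hk⟩ := hn.size_le
      obtain ⟨e, he⟩ := PB.mul (PB.const 2) (⟨k, fun n => le_rfl⟩ : PB fun n => (n + 2) ^ k)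
      refine ⟨e, fun c i hi => ?_⟩
      have key : Nat.rec (motive := fun _ => List Bool) [] (fun _ l =>
          bif stop c l then l else l ++ [memT (T c) (query c l)]) i =
          ansT (T c) (stop c) (query c) i := by
        clear hi
        induction i with
        | zero => rfl
        | succ i ih => rw [ansT, ← ih]
      rw [key]
      have h1 := sz_word_le (ansT (T c) (stop c) (query c) i)
      have h2 := length_ansT_le (T c) (stop c) (query c) i
      have h3 := hk c
      rw [sz_nat] at h3
      have h4 := he (sz c)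
      beta_reduce at h4
      omega)
  refine h.of_eq fun c => ?_
  induction n c with
  | zero => rfl
  | succ i ih => rw [ansT, ← ih]

lemma sz_wordsOf_le (v : List (Bool × List Word)) : sz (wordsOf v) ≤ sz v := by
  induction v with
  | nil => simp [wordsOf]
  | cons e v ih =>
    simp only [wordsOf, List.flatMap_cons, sz_append] at ih ⊢
    rw [sz_cons, sz_prod]
    omega

/-- A polynomial bound for the values of a polynomial-time function along the run. -/
lemma exists_run_bound {β : Type} [Enc β] {f : Word × List Bool → β} (hf : PT f) (m : Word → ℕ)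
    (hm : PT m) (z : Word → Word → Word) (hz : PT fun p : Word × Word => z p.1 p.2) (c : ℕ) :
    ∃ e, ∀ x w l, w.length ≤ m x → l.length ≤ (z x w).length ^ c + c →
      sz (f (z x w, l)) ≤ (sz x + 2) ^ e ∧ (z x w).length ^ c + c ≤ (sz x + 2) ^ e := by
  obtain ⟨k1, hk1⟩ := hm.size_le
  obtain ⟨k2, hk2⟩ := hz.size_le
  obtain ⟨k3, hk3⟩ := hf.size_le
  simp only [sz_nat] at hk1
  obtain ⟨e1, he1⟩ : PB fun n => (n + 2 * (n + 2) ^ k1 + 1 + 2) ^ k2 :=
    PB.pow (PB.add (PB.add (PB.add PB.id (PB.mul (PB.const 2) ⟨k1, fun n => le_rfl⟩))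
      (PB.const 1)) (PB.const 2)) k2
  obtain ⟨e2, he2⟩ : PB fun n => ((n + 2) ^ e1) ^ c + c :=
    PB.add (PB.pow ⟨e1, fun n => le_rfl⟩ c) (PB.const c)
  obtain ⟨e3, he3⟩ : PB fun n => ((n + 2) ^ e1 + 2 * (n + 2) ^ e2 + 1 + 2) ^ k3 :=
    PB.pow (PB.add (PB.add (PB.add ⟨e1, fun n => le_rfl⟩ (PB.mul (PB.const 2)
      ⟨e2, fun n => le_rfl⟩)) (PB.const 1)) (PB.const 2)) k3
  refine ⟨e2 + e3, fun x w l hw hl => ?_⟩
  have h1 : sz (z x w) ≤ (sz x + 2) ^ e1 := by
    refine (hk2 (x, w)).trans (le_trans (Nat.pow_le_pow_left ?_ k2) (he1 (sz x)))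
    have h2 := sz_word_le w
    have h3 := hk1 x
    rw [sz_pair]
    omega
  have h2 : (z x w).length ^ c + c ≤ (sz x + 2) ^ e2 := by
    refine le_trans (Nat.add_le_add_right (Nat.pow_le_pow_left ?_ c) c) (he2 (sz x))
    exact (length_le_sz _).trans h1
  constructor
  · refine (hk3 (z x w, l)).trans (le_trans (Nat.pow_le_pow_left ?_ k3)
      ((he3 (sz x)).trans (Nat.pow_le_pow_right (by omega) (by omega))))
    have h3 := sz_word_le l
    rw [sz_pair]
    omega
  · exact h2.trans (Nat.pow_le_pow_right (by omega) (by omega))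

/-- Evaluation, with a table, of the reduction of the questions whether some witness extends a
given word. -/
theorem exists_oracle (S : Set Word) (hard : ∀ A, InNP A → TuringRed A S)
    (Rel : Word × Word → Bool) (m : Word → ℕ) (hRel : PT Rel) (hm : PT m) :
    ∃ (ask : Word → List Word → Word → Bool) (askd : Word → List Word → Word → List Word) (e : ℕ),
      (PT fun p : Word × List Word × Word => ask p.1 p.2.1 p.2.2) ∧
      (PT fun p : Word × List Word × Word => askd p.1 p.2.1 p.2.2) ∧
      (∀ x T w, w.length ≤ m x → sz (askd x T w) ≤ (sz x + 2) ^ e) ∧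
      (∀ x T T' w, (∀ v, v ∈ T ↔ v ∈ T') → ask x T w = ask x T' w ∧ askd x T w = askd x T' w) ∧
      ∀ x T w, (∀ v ∈ askd x T w, (v ∈ T ↔ v ∈ S)) →
        (ask x T w = true ↔ ∃ u : Word, (u.length = m x ∧ Rel (x, u) = true) ∧ w <+: u) := by
  let R : (Word × Word) × Word → Bool := fun p =>
    Rel (p.1.1, p.2) && decide (p.1.2 = p.2.take p.1.2.length)
  have hR : PT R := PT.and (hRel.comp (PT.pair (PT.fst' PT.fst) PT.snd))
    (PT.eqDec enc_word_injective (PT.snd' PT.fst) (PT.take (PT.length (PT.snd' PT.fst)) PT.snd))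
  obtain ⟨A, hA, hmem⟩ := exists_parity_proj R (fun _ => []) (fun a => m a.1) hR (PT.const [])
    (hm.comp PT.fst)
  obtain ⟨stop, query, out, c, hstop, hquery, hout, hA2⟩ := hard A hA
  obtain ⟨z, hz0⟩ : ∃ z : Word → Word → Word, z = fun x w =>
    code (enc ((x, w), ([] : Word), false)) := ⟨_, rfl⟩
  have hz : PT fun p : Word × Word => z p.1 p.2 := by
    rw [hz0]
    exact PT.code (pt_enc (PT.pair PT.id (PT.const (([] : Word), false))))
  have hzA : ∀ x w, z x w ∈ A ↔ ∃ u : Word, (u.length = m x ∧ Rel (x, u) = true) ∧ w <+: u := by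
    intro x w
    rw [hz0, hmem]
    constructor
    · rintro ⟨u, h1, h2, _⟩
      simp only [R, Bool.and_eq_true, decide_eq_true_eq] at h2
      exact ⟨u, ⟨h1, h2.1⟩, List.prefix_iff_eq_take.2 h2.2⟩
    · rintro ⟨u, ⟨h1, h2⟩, h3⟩
      refine ⟨u, h1, ?_, rfl⟩
      simp only [R, Bool.and_eq_true, decide_eq_true_eq]
      exact ⟨h2, List.prefix_iff_eq_take.1 h3⟩
  clear_value R
  -- the run
  obtain ⟨n, hn0⟩ : ∃ n : Word → Word → ℕ, n = fun x w => (z x w).length ^ c + c := ⟨_, rfl⟩
  have hn : PT fun p : Word × Word => n p.1 p.2 := by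
    rw [hn0]
    exact PT.add (PT.pow (PT.length hz) c) (PT.const c)
  obtain ⟨run, hrun0⟩ : ∃ run : Word → List Word → Word → ℕ → List Bool, run = fun x T w i =>
    ansT T (fun l => stop (z x w, l)) (fun l => query (z x w, l)) i := ⟨_, rfl⟩
  have hrun : PT fun p : (Word × List Word × Word) × ℕ => run p.1.1 p.1.2.1 p.1.2.2 p.2 := by
    rw [hrun0]
    have h1 : PT fun p : ((Word × List Word × Word) × ℕ) × List Bool =>
        (z p.1.1.1 p.1.1.2.2, p.2) :=
      PT.pair (hz.comp (PT.pair (PT.fst' (PT.fst' PT.fst)) (PT.snd' (PT.snd' (PT.fst' PT.fst)))))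
        PT.snd
    exact pt_ansT (T := fun p : (Word × List Word × Word) × ℕ => p.1.2.1)
      (stop := fun p l => stop (z p.1.1 p.1.2.2, l)) (query := fun p l => query (z p.1.1 p.1.2.2, l))
      (PT.fst' (PT.snd' PT.fst)) (hstop.comp h1) (hquery.comp h1) PT.snd
  have hzp : PT fun p : Word × List Word × Word => z p.1 p.2.2 :=
    hz.comp (PT.pair PT.fst (PT.snd' PT.snd))
  have hnp : PT fun p : Word × List Word × Word => n p.1 p.2.2 :=
    hn.comp (PT.pair PT.fst (PT.snd' PT.snd))
  have hfin : PT fun p : Word × List Word × Word =>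
      out (z p.1 p.2.2, run p.1 p.2.1 p.2.2 (n p.1 p.2.2)) :=
    hout.comp (PT.pair hzp (hrun.comp (PT.pair PT.id hnp)))
  have hasks : PT fun p : Word × List Word × Word =>
      (List.range (n p.1 p.2.2)).map fun i => query (z p.1 p.2.2, run p.1 p.2.1 p.2.2 i) :=
    PT.map (f := fun (p : Word × List Word × Word) i =>
      query (z p.1 p.2.2, run p.1 p.2.1 p.2.2 i)) (PT.range hnp)
      (hquery.comp (PT.pair (hzp.comp PT.fst) hrun))
  have hrunlen : ∀ x T w i, (run x T w i).length ≤ i := fun x T w i => by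
    rw [hrun0]; exact length_ansT_le _ _ _ i
  obtain ⟨e1, he1⟩ := exists_run_bound hquery m hm z hz c
  obtain ⟨e2, he2⟩ := exists_run_bound hout m hm z hz c
  obtain ⟨e, he⟩ : PB fun n => (n + 2) ^ e1 * ((n + 2) ^ e1 + 1) + (n + 2) ^ e2 :=
    PB.add (PB.mul ⟨e1, fun n => le_rfl⟩ (PB.add ⟨e1, fun n => le_rfl⟩ (PB.const 1)))
      ⟨e2, fun n => le_rfl⟩
  refine ⟨fun x T w => inT T (out (z x w, run x T w (n x w))),
    fun x T w => ((List.range (n x w)).map fun i => query (z x w, run x T w i)) ++
      wordsOf (out (z x w, run x T w (n x w))), e, PT.inT (PT.fst' PT.snd) hfin,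
    PT.append hasks (PT.wordsOf hfin), ?_, ?_, ?_⟩
  · intro x T w hw
    refine le_trans ?_ (he (sz x))
    rw [sz_append]
    refine Nat.add_le_add ?_ ?_
    · have h0 : n x w ≤ (sz x + 2) ^ e1 := by
        rw [hn0]
        exact (he1 x w [] hw (by simp)).2
      refine (sz_list_le _ ((sz x + 2) ^ e1) fun v hv => ?_).trans
        (Nat.mul_le_mul_right _ (by rw [List.length_map, List.length_range]; exact h0))
      obtain ⟨i, hi, rfl⟩ := List.mem_map.1 hv
      refine (he1 x w _ hw ((hrunlen x T w i).trans ?_)).1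
      have := List.mem_range.1 hi
      rw [hn0] at this
      exact this.le
    · refine (sz_wordsOf_le _).trans (he2 x w _ hw ((hrunlen x T w _).trans ?_)).1
      rw [hn0]
  · intro x T T' w h
    have h1 : run x T w = run x T' w := by
      rw [hrun0]
      funext i
      exact ansT_congr _ _ h i
    simp only [h1]
    exact ⟨inT_congr h _, trivial⟩
  · intro x T w h
    have h1 : run x T w (n x w) = answers S (fun l => stop (z x w, l))
        (fun l => query (z x w, l)) ((z x w).length ^ c + c) := by
      have h2 : run x T w (n x w) = answers S (fun l => stop (z x w, l))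
          (fun l => query (z x w, l)) (n x w) := by
        have h3 : ∀ i < n x w, (query (z x w, run x T w i) ∈ T ↔ query (z x w, run x T w i) ∈ S) :=
          fun i hi => h _ (List.mem_append_left _ (List.mem_map.2 ⟨i, List.mem_range.2 hi, rfl⟩))
        rw [hrun0] at h3 ⊢
        exact ansT_eq_answers _ _ S _ h3
      rw [h2, hn0]
    rw [inT_iff S T _ fun b hb v hv => h v (List.mem_append_right _ (mem_wordsOf.2 ⟨b, hb, hv⟩)),
      ← hzA, hA2, ← h1]

end Pool.Agent.Lib.MP_634427_lc
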