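import Pool.Agent.Lib.MP_634427_lc.KNo

/-!
# Adaptive reductions with few blocks of negative answers: transcripts

Consecutive negative answers to queries in `0*` count only once.  `turns` counts the negative
answers in this way.
-/

namespace Pool.Agent.Lib.MP_634427_lc

/-- Is the word in `0*`? -/
def isTally (w : Word) : Bool := w.all fun b => !b

lemma isTally_iff (w : Word) : isTally w = true ↔ w = List.replicate w.length false := by
  rw [List.eq_replicate_iff]
  simp [isTally]

namespace KNo

section defs

variable (next : Word → List Bool → Option Word)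

/-- The last answer was negative, and the last query was in `0*`. -/
def blk (e : Item) : Bool :=
  !(e.2.getLast?.getD true) && (match next e.1 e.2.dropLast with
    | some s => isTally s
    | none => false)

/-- A further negative answer is free of charge. -/
def free (e : Item) : Bool :=
  blk next e && (match next e.1 e.2 with
    | some s => isTally s
    | none => false)

/-- The number of blocks of negative answers. -/
def turns (e : Item) : ℕ :=
  ((List.range e.2.length).filter fun i =>
    !(e.2.getD i true) && !free next (e.1, e.2.take i)).length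

end defs

section lemmas

variable {next : Word → List Bool → Option Word} {S : Set Word}

lemma turns_append (r : Word) (tr : List Bool) (b : Bool) :
    turns next (r, tr ++ [b]) = turns next (r, tr) +
      if b = false ∧ free next (r, tr) = false then 1 else 0 := by
  unfold turns
  simp only [List.length_append, List.length_singleton, List.range_succ, List.filter_append]
  congr 1
  · congr 1
    refine List.filter_congr fun i hi => ?_
    rw [List.mem_range] at hi
    rw [List.getD_append _ _ _ _ hi, List.take_append_of_le_length hi.le]
  · simp only [List.filter_singleton]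
    rw [List.getD_append_right _ _ _ _ le_rfl, List.take_append_of_le_length le_rfl,
      List.take_length]
    simp only [Nat.sub_self, List.getD_cons_zero]
    cases b <;> cases h : free next (r, tr) <;> simp

lemma turns_mono (r : Word) {tr tr' : List Bool} (h : tr <+: tr') :
    turns next (r, tr) ≤ turns next (r, tr') := by
  obtain ⟨s, rfl⟩ := h
  induction s using List.reverseRecOn with
  | nil => simp
  | append_singleton s b ih =>
    rw [← List.append_assoc, turns_append]
    omega

lemma free_append_true (r : Word) (tr : List Bool) : free next (r, tr ++ [true]) = false := by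
  simp [free, blk]

/-- If only positive answers are given and a negative answer is free at the end, then nothing has
been answered. -/
lemma free_iter {f : Word → Option Bool} (hf : ∀ s b, f s = some b → b = true) (n : ℕ) (e : Item)
    (h : free next ((step next f)^[n] e) = true) : (step next f)^[n] e = e := by
  induction n with
  | zero => rfl
  | succ n ih =>
    rw [Function.iterate_succ_apply'] at h ⊢
    generalize hx : (step next f)^[n] e = x at h ih ⊢
    have h1 : step next f x = x := by
      unfold step at h ⊢
      rcases hn : next x.1 x.2 with _ | s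
      · rfl
      · rw [hn] at h
        simp only at h ⊢
        rcases hb : f s with _ | b
        · rfl
        · rw [hb] at h
          simp only at h
          rw [hf s b hb, free_append_true] at h
          simp at h
    rw [h1] at h ⊢
    exact ih h

lemma free_adv {q : ℕ} {T : List Word} {e : Item} (h : free next (adv next q T e) = true) :
    free next e = true := by
  have h1 : adv next q T e = e := free_iter (fun s b hb => by
    unfold inT at hb
    split_ifs at hb with h1
    exact (Option.some.inj hb).symm) q e h
  rwa [h1] at h

/-- The hypotheses on the reduction: few steps, few blocks of negative answers. -/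
structure RedT (next : Word → List Bool → Option Word) (S : Set Word) (R : List Word)
    (q k : ℕ) : Prop where
  len : ∀ r ∈ R, ∀ tr, Good next S (r, tr) → tr.length ≤ q
  neg : ∀ r ∈ R, ∀ tr, Good next S (r, tr) → turns next (r, tr) ≤ k

lemma RedT.toRed {R : List Word} {q k : ℕ} (h : RedT next S R q k) :
    Red next (fun r _ => par r []) S R [] q q :=
  ⟨h.len, fun r hr tr htr => List.count_le_length.trans (h.len r hr tr htr),
    fun _ _ _ _ _ => rfl⟩

lemma good_yesT {R : List Word} {q k : ℕ} (hred : RedT next S R q k) {e : Item} (he : e.1 ∈ R)
    (hg : Good next S e) (hk : k ≤ turns next e) (hfree : free next e = false) (n : ℕ) :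
    Good next S ((step next fun _ => some true)^[n] e) := by
  induction n with
  | zero => exact hg
  | succ n ih =>
    rw [Function.iterate_succ_apply']
    refine ih.step fun s b hs hb => ?_
    simp only [Option.some.injEq] at hb
    subst hb
    simp only [true_iff]
    by_contra hsS
    have h1 := ih.append hs (b := false) (by simp [hsS])
    have h2 := hred.neg _ (by rw [iter_fst]; exact he) _ h1
    have h3 := iter_prefix (next := next) (fun _ => some true) n e
    have h4 := turns_mono (next := next) e.1 h3
    have h5 : free next ((step next fun _ => some true)^[n] e) = false := by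
      by_contra h6
      rw [Bool.not_eq_false] at h6
      have h7 := free_iter (fun s b hb => (Option.some.inj hb).symm) n e h6
      rw [h7, hfree] at h6
      cases h6
    have h6 : free next (((step next fun _ => some true)^[n] e).1,
        ((step next fun _ => some true)^[n] e).2) = false := h5
    rw [turns_append, if_pos ⟨rfl, h6⟩] at h2
    have h7 : ((step next fun _ => some true)^[n] e).1 = e.1 := iter_fst _ _ _
    rw [h7] at h2
    have h8 : turns next e = turns next (e.1, e.2) := rfl
    omega

lemma yes_haltsT {R : List Word} {q k : ℕ} (hred : RedT next S R q k) {e : Item} (he : e.1 ∈ R)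
    (hg : Good next S e) (hk : k ≤ turns next e) (hfree : free next e = false) :
    next (yes next q e).1 (yes next q e).2 = none := by
  have hfst : (yes next q e).1 = e.1 := iter_fst _ _ _
  have hmem : (yes next q e).1 ∈ R := by rw [hfst]; exact he
  by_contra hne
  obtain ⟨s, hs⟩ := Option.ne_none_iff_exists'.1 hne
  have hstep : step next (fun _ => some true) (yes next q e)
      = ((yes next q e).1, (yes next q e).2 ++ [true]) := by
    unfold step
    rw [hs]
  rcases iter_stuck_or (next := next) (fun _ => some true) q e with h | h
  · have h' : step next (fun _ => some true) (yes next q e) = yes next q e := h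
    rw [hstep] at h'
    have := congrArg (fun e : Item => e.2.length) h'
    simp at this
  · have h' : (yes next q e).2.length = e.2.length + q := h
    have h1 := good_yesT hred he hg hk hfree (q + 1)
    rw [Function.iterate_succ_apply'] at h1
    have h1' : Good next S (step next (fun _ => some true) (yes next q e)) := h1
    rw [hstep] at h1'
    have h2 := hred.len _ hmem _ h1'
    rw [List.length_append] at h2
    simp at h2
    omega

end lemmas

/-! ## Blocks -/

section blockdefs

variable (next : Word → List Bool → Option Word) (ℓ : ℕ)

/-- A further negative answer is free, and the pending query is short. -/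
def freeL (e : Item) : Bool :=
  free next e && (match next e.1 e.2 with
    | some s => decide (s.length ≤ ℓ)
    | none => false)

/-- The items with pending query `s` and a free negative answer. -/
def fpend (s : Word) (G : List Item) : List Item :=
  G.filter fun e => freeL next ℓ e && decide (qry next e = some s)

/-- Is the pending query of `e` frequent? -/
def large (θ n : ℕ) (G : List Item) (e : Item) : Bool :=
  match qry next e with
  | none => false
  | some s => decide (n ≤ θ * (fpend next ℓ s G).length)

/-- Give negative answers where they are free; drop the items with rare queries. -/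
def noStep (θ n : ℕ) (G : List Item) : List Item :=
  (G.filter fun e => !freeL next ℓ e || large next ℓ θ n G e).map fun e =>
    bif freeL next ℓ e then no e else e

/-- Add a positive answer. -/
def yesA (e : Item) : Item := (e.1, e.2 ++ [true])

/-- The possible ends of the block of free negative answers. -/
def block (q θ : ℕ) (G : List Item) : List (List Item) :=
  (((noStep next ℓ θ G.length)^[q] G) :: (List.range q).flatMap fun t =>
    (List.range (ℓ + 1)).map fun j =>
      (fpend next ℓ (List.replicate j false) ((noStep next ℓ θ G.length)^[t] G)).map yesA).filter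
    fun G' => decide (G.length ≤ θ * G'.length)

end blockdefs

section blocks

variable {next : Word → List Bool → Option Word} {ℓ : ℕ} {S : Set Word}

lemma freeL_imp {e : Item} (h : freeL next ℓ e = true) : free next e = true ∧
    ∃ s, next e.1 e.2 = some s ∧ s.length ≤ ℓ ∧ isTally s = true := by
  unfold freeL at h
  rw [Bool.and_eq_true] at h
  obtain ⟨h1, h2⟩ := h
  refine ⟨h1, ?_⟩
  unfold free at h1
  rw [Bool.and_eq_true] at h1
  rcases hn : next e.1 e.2 with _ | s
  · rw [hn] at h2; simp at h2
  · rw [hn] at h2
    obtain ⟨_, h3⟩ := h1
    rw [hn] at h3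
    exact ⟨s, rfl, by simpa using h2, h3⟩

lemma noStep_mem {θ n : ℕ} {G : List Item} {e : Item} (h : e ∈ noStep next ℓ θ n G) :
    ∃ e0 ∈ G, (freeL next ℓ e0 = true ∧ large next ℓ θ n G e0 = true ∧ e = no e0) ∨
      (freeL next ℓ e0 = false ∧ e = e0) := by
  obtain ⟨e0, he0, rfl⟩ := List.mem_map.1 h
  obtain ⟨h1, h2⟩ := List.mem_filter.1 he0
  refine ⟨e0, h1, ?_⟩
  cases hf : freeL next ℓ e0
  · right; exact ⟨rfl, rfl⟩
  · left
    rw [hf] at h2
    exact ⟨rfl, by simpa using h2, rfl⟩

lemma bad_noStep {θ n : ℕ} {G : List Item}
    (hS : ∀ j ≤ ℓ, List.replicate j false ∈ S →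
      ¬ n ≤ θ * (fpend next ℓ (List.replicate j false) G).length) :
    bad next S (noStep next ℓ θ n G) ≤ bad next S G := by
  refine (bad_map_le _ _ fun e he hg => ?_).trans (bad_filter_le _ _)
  obtain ⟨h1, h2⟩ := List.mem_filter.1 he
  cases hf : freeL next ℓ e
  · exact hg
  · rw [hf] at h2
    obtain ⟨_, s, hs, hsl, hst⟩ := freeL_imp hf
    have hrep := (isTally_iff s).1 hst
    have hsS : s ∉ S := by
      intro hsS
      refine hS s.length hsl (by rwa [← hrep]) ?_
      have h3 : large next ℓ θ n G e = true := by simpa using h2
      unfold large qry at h3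
      rw [hs] at h3
      simp only [decide_eq_true_eq] at h3
      rwa [← hrep]
    exact hg.append hs (by simp [hsS])

lemma length_filter_add_not (G : List Item) (p : Item → Bool) :
    G.length = (G.filter p).length + (G.filter fun e => !p e).length := by
  induction G with
  | nil => rfl
  | cons e G ih =>
    rw [List.filter_cons, List.filter_cons]
    cases p e <;> (simp; omega)

lemma length_noStep {θ n : ℕ} (G : List Item) :
    θ * G.length ≤ θ * (noStep next ℓ θ n G).length + (ℓ + 1) * n := by
  classical
  set X := G.filter fun e => !(!freeL next ℓ e || large next ℓ θ n G e) with hX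
  have h1 : G.length = (noStep next ℓ θ n G).length + X.length := by
    unfold noStep
    rw [List.length_map, hX]
    exact length_filter_add_not G fun e => !freeL next ℓ e || large next ℓ θ n G e
  set L := (List.range (ℓ + 1)).map fun j => List.replicate j false with hL
  have h2 : X.length ≤ (L.map fun s => (X.filter fun e => decide (qry next e = some s)).length).sum := by
    refine length_le_sum (qry next) L X fun e he => ?_
    have h3 := (List.mem_filter.1 he).2
    simp only [Bool.not_or, Bool.not_not, Bool.and_eq_true] at h3
    obtain ⟨_, s, hs, hsl, hst⟩ := freeL_imp h3.1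
    refine ⟨s, List.mem_map.2 ⟨s.length, List.mem_range.2 (by omega), ((isTally_iff s).1 hst).symm⟩,
      hs⟩
  have h3 : ∀ s ∈ L, θ * (X.filter fun e => decide (qry next e = some s)).length ≤ n := by
    intro s _
    rcases hF : X.filter fun e => decide (qry next e = some s) with _ | ⟨e0, l⟩
    · simp
    · have he0 : e0 ∈ X.filter fun e => decide (qry next e = some s) := by rw [hF]; simp
      obtain ⟨h4, h5⟩ := List.mem_filter.1 he0
      rw [decide_eq_true_eq] at h5
      have h6 := (List.mem_filter.1 h4).2
      simp only [Bool.not_or, Bool.not_not, Bool.and_eq_true, Bool.not_eq_true'] at h6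
      have h7 := h6.2
      unfold large at h7
      rw [h5] at h7
      simp only [decide_eq_false_iff_not, not_le] at h7
      rw [← hF]
      refine le_trans (Nat.mul_le_mul_left θ ?_) h7.le
      unfold fpend
      rw [hX, List.filter_filter]
      refine length_filter_mono _ _ _ fun e _ h => ?_
      simp only [Bool.and_eq_true, Bool.not_or, Bool.not_not] at h ⊢
      exact ⟨h.2.1, h.1⟩
  have h4 : θ * (L.map fun s => (X.filter fun e => decide (qry next e = some s)).length).sum
      ≤ L.length * n := by
    rw [← List.sum_map_mul_left]
    have := List.sum_le_card_nsmul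
      (L.map fun s => θ * (X.filter fun e => decide (qry next e = some s)).length) n (by
        intro x hx
        obtain ⟨s, hs, rfl⟩ := List.mem_map.1 hx
        exact h3 s hs)
    simpa using this
  have h5 : L.length = ℓ + 1 := by simp [hL]
  rw [h5] at h4
  have h6 := Nat.mul_le_mul_left θ h2
  rw [h1, Nat.mul_add]
  omega

lemma iter_noStep_length {θ n : ℕ} (G : List Item) (t : ℕ) :
    θ * G.length ≤ θ * ((noStep next ℓ θ n)^[t] G).length + t * ((ℓ + 1) * n) := by
  induction t with
  | zero => simp
  | succ t ih =>
    rw [Function.iterate_succ_apply']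
    have h1 := length_noStep (next := next) (ℓ := ℓ) (θ := θ) (n := n) ((noStep next ℓ θ n)^[t] G)
    rw [Nat.succ_mul]
    omega

lemma iter_noStep_prefix {θ n : ℕ} {G : List Item} (t : ℕ) {e : Item}
    (he : e ∈ (noStep next ℓ θ n)^[t] G) : ∃ e0 ∈ G, e0.1 = e.1 ∧ e0.2 <+: e.2 := by
  induction t generalizing e with
  | zero => exact ⟨e, he, rfl, List.prefix_rfl⟩
  | succ t ih =>
    rw [Function.iterate_succ_apply'] at he
    obtain ⟨e0, he0, h1⟩ := noStep_mem he
    obtain ⟨e1, he1, h2, h3⟩ := ih he0
    refine ⟨e1, he1, ?_⟩
    rcases h1 with ⟨_, _, rfl⟩ | ⟨_, rfl⟩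
    · exact ⟨h2, h3.trans (List.prefix_append _ _)⟩
    · exact ⟨h2, h3⟩

lemma iter_noStep_free {θ n : ℕ} {G : List Item} (t : ℕ) {e : Item}
    (he : e ∈ (noStep next ℓ θ n)^[t] G) (hf : freeL next ℓ e = true) : t ≤ e.2.length := by
  induction t generalizing e with
  | zero => exact Nat.zero_le _
  | succ t ih =>
    rw [Function.iterate_succ_apply'] at he
    obtain ⟨e0, he0, h1⟩ := noStep_mem he
    rcases h1 with ⟨h2, _, rfl⟩ | ⟨h2, rfl⟩
    · have := ih he0 h2
      simp only [no, List.length_append, List.length_singleton]
      omega
    · rw [h2] at hf; cases hf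

/-- One of the possible ends of the block is right. -/
theorem exists_block {R : List Word} {q k θ : ℕ} (hred : RedT next S R q k)
    (hℓ : ∀ r ∈ R, ∀ tr s, Good next S (r, tr) → next r tr = some s → s.length ≤ ℓ)
    {G : List Item} (hG : ∀ e ∈ G, e.1 ∈ R) (hθ : 2 * (q * (ℓ + 1)) ≤ θ) (hθ2 : 2 ≤ θ) :
    ∃ G' ∈ block next ℓ q θ G, bad next S G' ≤ bad next S G ∧ G.length ≤ θ * G'.length ∧
      (∀ e ∈ G', ∃ e0 ∈ G, e0.1 = e.1 ∧ e0.2 <+: e.2) ∧
      ∀ e ∈ G', Good next S e → free next e = false := by
  classical
  set n := G.length with hn
  by_cases hex : ∃ t, t < q ∧ ∃ j ≤ ℓ, List.replicate j false ∈ S ∧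
      n ≤ θ * (fpend next ℓ (List.replicate j false) ((noStep next ℓ θ n)^[t] G)).length
  · obtain ⟨ht, j, hj, hjS, hlarge⟩ := Nat.find_spec hex
    have hmin := fun t' (h : t' < Nat.find hex) => Nat.find_min hex h
    set t := Nat.find hex
    have hbad : ∀ t' ≤ t, bad next S ((noStep next ℓ θ n)^[t'] G) ≤ bad next S G := by
      intro t'
      induction t' with
      | zero => intro _; exact le_rfl
      | succ t' ih =>
        intro ht'
        rw [Function.iterate_succ_apply']
        refine (bad_noStep fun j' hj' hj'S hle => ?_).trans (ih (by omega))
        exact hmin t' (by omega) ⟨by omega, j', hj', hj'S, hle⟩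
    refine ⟨(fpend next ℓ (List.replicate j false) ((noStep next ℓ θ n)^[t] G)).map yesA,
      List.mem_filter.2 ⟨?_, ?_⟩, ?_, ?_, ?_, ?_⟩
    · refine List.mem_cons_of_mem _ (List.mem_flatMap.2 ⟨t, List.mem_range.2 ht, ?_⟩)
      exact List.mem_map.2 ⟨j, List.mem_range.2 (by omega), rfl⟩
    · rw [decide_eq_true_eq, List.length_map]
      exact hlarge
    · refine (bad_map_le _ _ fun e he hg => ?_).trans ((bad_filter_le _ _).trans (hbad t le_rfl))
      have h1 := (List.mem_filter.1 he).2
      simp only [Bool.and_eq_true, decide_eq_true_eq] at h1
      exact hg.append h1.2 (by simp [hjS])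
    · rw [List.length_map]
      exact hlarge
    · intro e he
      obtain ⟨e1, he1, rfl⟩ := List.mem_map.1 he
      obtain ⟨e0, he0, h2, h3⟩ := iter_noStep_prefix t (List.mem_filter.1 he1).1
      exact ⟨e0, he0, h2, h3.trans (List.prefix_append _ _)⟩
    · intro e he _
      obtain ⟨e1, _, rfl⟩ := List.mem_map.1 he
      exact free_append_true _ _
  · have hbad : ∀ t' ≤ q, bad next S ((noStep next ℓ θ n)^[t'] G) ≤ bad next S G := by
      intro t'
      induction t' with
      | zero => intro _; exact le_rfl
      | succ t' ih =>
        intro ht'
        rw [Function.iterate_succ_apply']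
        refine (bad_noStep fun j' hj' hj'S hle => ?_).trans (ih (by omega))
        exact hex ⟨t', by omega, j', hj', hj'S, hle⟩
    have hlen : n ≤ θ * ((noStep next ℓ θ n)^[q] G).length := by
      have h1 := iter_noStep_length (next := next) (ℓ := ℓ) (θ := θ) (n := n) G q
      rw [← hn] at h1
      have h2 : 2 * (q * ((ℓ + 1) * n)) ≤ θ * n := by
        calc 2 * (q * ((ℓ + 1) * n)) = 2 * (q * (ℓ + 1)) * n := by ring
          _ ≤ θ * n := Nat.mul_le_mul_right _ hθ
      have h3 : 2 * (θ * n) ≤ 2 * (θ * ((noStep next ℓ θ n)^[q] G).length) + θ * n := by omega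
      have h4 : θ * n ≤ θ * (2 * ((noStep next ℓ θ n)^[q] G).length) := by
        calc θ * n ≤ 2 * (θ * ((noStep next ℓ θ n)^[q] G).length) := by omega
          _ = θ * (2 * ((noStep next ℓ θ n)^[q] G).length) := by ring
      have h5 := Nat.le_of_mul_le_mul_left h4 (by omega)
      exact h5.trans (Nat.mul_le_mul_right _ hθ2)
    refine ⟨(noStep next ℓ θ n)^[q] G, List.mem_filter.2 ⟨List.mem_cons_self, ?_⟩, hbad q le_rfl,
      hlen, fun e he => iter_noStep_prefix q he, ?_⟩
    · rw [decide_eq_true_eq]; exact hlen
    · intro e he hg
      by_contra hf
      rw [Bool.not_eq_false] at hf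
      obtain ⟨e0, he0, h1, _⟩ := iter_noStep_prefix q he
      have heR : e.1 ∈ R := by rw [← h1]; exact hG e0 he0
      have h2 : ∃ s, next e.1 e.2 = some s := by
        unfold free at hf
        rw [Bool.and_eq_true] at hf
        rcases hn : next e.1 e.2 with _ | s
        · rw [hn] at hf; simp at hf
        · exact ⟨s, rfl⟩
      obtain ⟨s, hs⟩ := h2
      have hsl := hℓ e.1 heR e.2 s hg hs
      have hfL : freeL next ℓ e = true := by
        unfold freeL
        rw [hf, hs]
        simpa using hsl
      have h3 := iter_noStep_free q he hfL
      have h4 := hred.len e.1 heR _ (hg.append hs (b := decide (s ∈ S)) (by simp))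
      rw [List.length_append, List.length_singleton] at h4
      omega

lemma length_block (q θ : ℕ) (G : List Item) :
    (block next ℓ q θ G).length ≤ q * (ℓ + 1) + 1 := by
  unfold block
  refine (List.length_filter_le _ _).trans ?_
  rw [List.length_cons]
  refine Nat.succ_le_succ ((length_flatMap_le _ _ (ℓ + 1) fun t _ => ?_).trans
    (le_of_eq (by rw [List.length_range])))
  rw [List.length_map, List.length_range]

lemma shape_block {R : List Word} {q θ : ℕ} {G : List Item} (hG : Shape R G) {G' : List Item}
    (h : G' ∈ block next ℓ q θ G) : Shape R G' ∧ G.length ≤ θ * G'.length := by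
  obtain ⟨h1, h2⟩ := List.mem_filter.1 h
  refine ⟨?_, by simpa using h2⟩
  have hiter : ∀ t, Shape R ((noStep next ℓ θ G.length)^[t] G) := by
    intro t
    induction t with
    | zero => exact hG
    | succ t ih =>
      rw [Function.iterate_succ_apply']
      refine (ih.filter _).map _ fun e => ?_
      cases freeL next ℓ e <;> rfl
  rcases List.mem_cons.1 h1 with rfl | h1
  · exact hiter q
  · obtain ⟨t, _, h3⟩ := List.mem_flatMap.1 h1
    obtain ⟨j, _, rfl⟩ := List.mem_map.1 h3
    exact ((hiter t).filter _).map _ fun _ => rfl

end blocks

end KNo

end Pool.Agent.Lib.MP_634427_lc
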